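import Pool.Agent.MP_8339a4_an.T3a

/-! API: dilations and translations in `L^2`. -/

open MeasureTheory Filter Topology Set

namespace Pool.Agent.MP_8339a4_an

variable {α : Type} {l : Filter α} {f F fy : α → ℝ → ℝ} {g G gy : ℝ → ℝ}

theorem scale_T3b (u : ℝ → ℝ) (a b : ℝ) : ∫ y, u (a * y + b) = |a⁻¹| * ∫ x, u x := by
  rw [Measure.integral_comp_mul_left (fun x => u (x + b)) a, integral_add_right_eq_self u b,
    smul_eq_mul]

theorem cc_T3b {u : ℝ → ℝ} (hc : Continuous u) (hs : HasCompactSupport u) {a0 : ℝ} (ha0 : a0 ≠ 0)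
    (b0 : ℝ) : Tendsto (fun p : ℝ × ℝ => ∫ y, (u (p.1 * y + p.2) - u (a0 * y + b0)) ^ 2)
      (𝓝 (a0, b0)) (𝓝 0) := by
  obtain ⟨s, h1, h2, h3⟩ := local_compact_nhds (x := (a0, b0)) (n := {p : ℝ × ℝ | p.1 ≠ 0})
    ((isOpen_ne_fun continuous_fst continuous_const).mem_nhds ha0)
  have hk : IsCompact ((fun q : (ℝ × ℝ) × ℝ => (q.2 - q.1.2) / q.1.1) '' s ×ˢ tsupport u) :=
    (h3.prod hs).image_of_continuousOn
      (ContinuousOn.div (by fun_prop) (by fun_prop) fun q hq => h2 hq.1)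
  have h4 : ∀ p ∈ s, ∀ y ∉ (fun q : (ℝ × ℝ) × ℝ => (q.2 - q.1.2) / q.1.1) '' s ×ˢ tsupport u,
      u (p.1 * y + p.2) = 0 := fun p hp y hy => by
    refine image_eq_zero_of_notMem_tsupport fun h5 => hy ⟨(p, p.1 * y + p.2), ⟨hp, h5⟩, ?_⟩
    simp only [add_sub_cancel_right]
    exact mul_div_cancel_left₀ y (h2 hp)
  have h5 := (continuousOn_integral_of_compact_support (μ := volume)
    (f := fun (p : ℝ × ℝ) y => (u (p.1 * y + p.2) - u (a0 * y + b0)) ^ 2) hk
    (Continuous.continuousOn (by fun_prop)) fun p y hp hy => by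
      rw [h4 p hp y hy, h4 _ (mem_of_mem_nhds h1) y hy]
      simp).continuousAt h1
  simpa using h5.tendsto

/-- Joint continuity of dilations and translations in `L^2`. -/
theorem L2T.comp_affine (h : L2T l f g) {a b : α → ℝ} {a0 b0 : ℝ} (ha0 : a0 ≠ 0)
    (ha : Tendsto a l (𝓝 a0)) (hb : Tendsto b l (𝓝 b0)) :
    L2T l (fun z y => f z (a z * y + b z)) (fun y => g (a0 * y + b0)) := by
  obtain ⟨h1, h2, h3⟩ := h
  have hne := ha.eventually_ne ha0
  refine ⟨by filter_upwards [h1, hne] with z m n using memLp_comp_affine m n _,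
    memLp_comp_affine h2 ha0 _, tendsto_order.2 ⟨fun c hc => Eventually.of_forall fun z =>
      hc.trans_le (integral_nonneg fun y => sq_nonneg _), fun ε hε => ?_⟩⟩
  have hp : 0 < |a0⁻¹| := abs_pos.2 (inv_ne_zero ha0)
  obtain ⟨u, u1, u2, u3, u4⟩ := MemLp.exists_hasCompactSupport_integral_rpow_sub_le
    (p := 2) two_pos (f := g) (μ := volume) (by simpa using h2) (ε := ε / (16 * |a0⁻¹|))
    (by positivity)
  simp only [Real.norm_eq_abs, Real.rpow_two, sq_abs, ENNReal.ofReal_ofNat] at u2 u4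
  rw [le_div_iff₀ (by positivity)] at u2
  have hi := (ha.inv₀ ha0).abs
  have t := ((((hi.mul h3).add (hi.mul_const (∫ y, (g y - u y) ^ 2))).add
    ((cc_T3b u3 u1 ha0 b0).comp (ha.prodMk_nhds hb))).add_const
      (|a0⁻¹| * ∫ y, (g y - u y) ^ 2)).const_mul 4
  filter_upwards [h1, hne, t.eventually_lt_const (u := ε) (by linarith)] with z m n hz
  refine lt_of_le_of_lt ?_ hz
  have i1 := integrable_sq2 (memLp_comp_affine (m.sub h2) n (b z))
  have i2 := integrable_sq2 (memLp_comp_affine (h2.sub u4) n (b z))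
  have i3 := integrable_sq2 ((memLp_comp_affine u4 n (b z)).sub (memLp_comp_affine u4 ha0 b0))
  have i4 := integrable_sq2 (memLp_comp_affine (h2.sub u4) ha0 b0)
  simp only [Pi.sub_apply] at i1 i2 i3 i4
  rw [← scale_T3b _ (a z) (b z), ← scale_T3b _ (a z) (b z), ← scale_T3b _ a0 b0,
    Function.comp_apply, ← integral_add i1 i2, ← integral_add (i1.fun_add i2) i3,
    ← integral_add ((i1.fun_add i2).fun_add i3) i4, ← integral_const_mul]
  refine integral_mono_of_nonneg (Eventually.of_forall fun y => sq_nonneg _)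
    ((((i1.fun_add i2).fun_add i3).fun_add i4).const_mul 4) (Eventually.of_forall fun y => ?_)
  simp only
  generalize f z (a z * y + b z) = A
  generalize g (a z * y + b z) = B
  generalize u (a z * y + b z) = C
  generalize u (a0 * y + b0) = D
  generalize g (a0 * y + b0) = E
  nlinarith [sq_nonneg (A - B - (B - C)), sq_nonneg (A - B - (C - D)), sq_nonneg (A - B - (D - E)),
    sq_nonneg (B - C - (C - D)), sq_nonneg (B - C - (D - E)), sq_nonneg (C - D - (D - E))]

end Pool.Agent.MP_8339a4_an
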