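import Pool.Agent.MP_8339a4_an.Core

/-! API: Dini derivatives. -/

open MeasureTheory Filter Topology Set

namespace Pool.Agent.MP_8339a4_an

variable {f g : ℝ → ℝ} {s c c' : ℝ}

theorem of_tendsto_T4a {φ : ℝ → ℝ} (h : ∀ᶠ z in 𝓝[>] s, slope f s z ≤ φ z)
    (H : Tendsto φ (𝓝[>] s) (𝓝 c)) : DiniLe f s c := fun r hr => by
  filter_upwards [h, H.eventually (gt_mem_nhds hr)] with z h1 h2 using h1.trans_lt h2

theorem slope_T4a (h : HasDerivWithinAt f c (Ici s) s) : Tendsto (slope f s) (𝓝[>] s) (𝓝 c) :=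
  (hasDerivWithinAt_iff_tendsto_slope' (s := Ioi s) (lt_irrefl s)).1 (h.mono Ioi_subset_Ici_self)

theorem of_forall_T4a {φ : ℝ → ℝ} (hφ : ContinuousAt φ c) (h : ∀ r, c < r → DiniLe f s (φ r)) :
    DiniLe f s (φ c) := fun r hr => by
  have h1 : ∀ᶠ x in 𝓝[>] c, φ x < r := nhdsWithin_le_nhds (hφ.eventually (gt_mem_nhds hr))
  obtain ⟨x, hx, hx'⟩ := (h1.and self_mem_nhdsWithin).exists
  exact h x hx' r hx

theorem primitive_T4a {a b : ℝ} (hab : a ≤ s) (hb : s < b) (hg : ContinuousOn g (Icc a b)) :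
    HasDerivWithinAt (fun z => ∫ t in a..z, g t) (g s) (Ici s) s := by
  have hm : Icc a b ∈ 𝓝[>] s := mem_of_superset (Ioo_mem_nhdsGT hb) fun x hx =>
    ⟨hab.trans hx.1.le, hx.2.le⟩
  refine intervalIntegral.integral_hasDerivWithinAt_right (t := Ioi s) ?_
    ⟨Icc a b, hm, hg.aestronglyMeasurable measurableSet_Icc⟩
    ((hg s ⟨hab, hb.le⟩).mono_of_mem_nhdsWithin hm)
  exact (hg.mono (by rw [uIcc_of_le hab]; exact Icc_subset_Icc le_rfl hb.le)).intervalIntegrable

theorem DiniLe.of_hasDerivAt (h : HasDerivAt f c s) : DiniLe f s c :=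
  of_tendsto_T4a (Eventually.of_forall fun _ => le_rfl) (slope_T4a h.hasDerivWithinAt)

theorem DiniLe.mono (h : DiniLe f s c) (hc : c ≤ c') : DiniLe f s c' := fun r hr => h r (hc.trans_lt hr)

theorem DiniLe.add (h : DiniLe f s c) (H : DiniLe g s c') :
    DiniLe (fun z => f z + g z) s (c + c') := fun r hr => by
  filter_upwards [h (c + (r - (c + c')) / 2) (by linarith),
    H (c' + (r - (c + c')) / 2) (by linarith)] with z h1 h2
  have : slope (fun z => f z + g z) s z = slope f s z + slope g s z := by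
    simp only [slope_def_field]
    ring
  linarith

theorem DiniLe.add_hasDerivAt (h : DiniLe f s c) (H : HasDerivAt g c' s) :
    DiniLe (fun z => f z + g z) s (c + c') := h.add (DiniLe.of_hasDerivAt H)

theorem DiniLe.sub_hasDerivAt (h : DiniLe f s c) (H : HasDerivAt g c' s) :
    DiniLe (fun z => f z - g z) s (c - c') := by
  simpa only [sub_eq_add_neg, Pi.neg_apply] using h.add_hasDerivAt H.neg

theorem DiniLe.mul_pos (h : DiniLe f s c) (H : HasDerivAt g c' s) (hg : 0 < g s) :
    DiniLe (fun z => f z * g z) s (c * g s + f s * c') := by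
  refine of_forall_T4a (φ := fun r => r * g s + f s * c') (by fun_prop) fun r hr => ?_
  have hc : Tendsto g (𝓝[>] s) (𝓝 (g s)) := H.continuousAt.tendsto.mono_left nhdsWithin_le_nhds
  refine of_tendsto_T4a (φ := fun z => r * g z + f s * slope g s z) ?_
    ((hc.const_mul r).add ((slope_T4a H.hasDerivWithinAt).const_mul _))
  filter_upwards [h r hr, hc.eventually (lt_mem_nhds hg)] with z h1 h2
  have : slope (fun z => f z * g z) s z = slope f s z * g z + f s * slope g s z := by
    simp only [slope_def_field]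
    ring
  rw [this]
  exact add_le_add (mul_le_mul_of_nonneg_right h1.le h2.le) le_rfl

theorem DiniLe.comp {τ : ℝ → ℝ} {τ' : ℝ} (h : DiniLe f (τ s) c) (H : HasDerivAt τ τ' s)
    (hτ : 0 < τ') : DiniLe (fun z => f (τ z)) s (c * τ') := by
  refine of_forall_T4a (φ := fun r => r * τ') (by fun_prop) fun r hr => ?_
  have hs := slope_T4a H.hasDerivWithinAt
  have hp : ∀ᶠ z in 𝓝[>] s, 0 < slope τ s z := hs.eventually (lt_mem_nhds hτ)
  have hlt : ∀ᶠ z in 𝓝[>] s, τ s < τ z := by
    filter_upwards [hp, self_mem_nhdsWithin] with z h1 h2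
    rw [slope_def_field, div_pos_iff_of_pos_right (sub_pos.2 h2)] at h1
    exact sub_pos.1 h1
  have ht : Tendsto τ (𝓝[>] s) (𝓝[>] (τ s)) :=
    tendsto_nhdsWithin_iff.2 ⟨H.continuousAt.tendsto.mono_left nhdsWithin_le_nhds, hlt⟩
  refine of_tendsto_T4a (φ := fun z => r * slope τ s z) ?_ (hs.const_mul r)
  filter_upwards [ht.eventually (h r hr), hp, hlt] with z h1 h2 h3
  have : slope (fun z => f (τ z)) s z = slope f (τ s) (τ z) * slope τ s z := by
    simp only [slope_def_field]
    rw [div_mul_div_cancel₀ (sub_pos.2 h3).ne']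
  rw [this]
  exact mul_le_mul_of_nonneg_right h1.le h2.le

theorem DiniLe.congr (h : DiniLe f s c) (e : ∀ᶠ z in 𝓝 s, f z = g z) : DiniLe g s c := fun r hr => by
  filter_upwards [h r hr, nhdsWithin_le_nhds e] with z h1 h2
  rwa [slope_def_field, ← h2, ← e.self_of_nhds, ← slope_def_field]

theorem DiniLe.of_integral_le (hg : ∀ᶠ z in 𝓝[≥] s, ContinuousWithinAt g (Ici s) z)
    (h : ∀ᶠ z in 𝓝[>] s, f z - f s ≤ ∫ t in s..z, g t) : DiniLe f s (g s) := by
  obtain ⟨b, hb, hb'⟩ := mem_nhdsGE_iff_exists_Icc_subset.1 hg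
  have hc : ContinuousOn g (Icc s b) := fun x hx => (hb' hx).mono Icc_subset_Ici_self
  refine of_tendsto_T4a ?_ (slope_T4a (primitive_T4a le_rfl hb hc))
  filter_upwards [h, self_mem_nhdsWithin] with z h1 h2
  rw [slope_def_field, slope_def_field, intervalIntegral.integral_same, sub_zero]
  exact div_le_div_of_nonneg_right h1 (sub_pos.2 h2).le

theorem hasDerivAt_of_integral_eq (hg : ∀ᶠ z in 𝓝 s, ContinuousAt g z)
    (h : ∀ᶠ z in 𝓝 s, f z - f s = ∫ t in s..z, g t) : HasDerivAt f (g s) s := by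
  obtain ⟨U, hU, hUo, hsU⟩ := eventually_nhds_iff.1 hg
  have h1 : HasDerivAt (fun z => ∫ t in s..z, g t) (g s) s :=
    intervalIntegral.integral_hasDerivAt_right IntervalIntegrable.refl
      (ContinuousAt.stronglyMeasurableAtFilter hUo hU s hsU) hg.self_of_nhds
  refine (h1.const_add (f s)).congr_of_eventuallyEq ?_
  filter_upwards [h] with z hz
  linarith

/-- Integration of a Dini inequality. -/
theorem dini_le_integral {a b : ℝ} (hab : a ≤ b) (hf : ContinuousOn f (Icc a b))
    (hg : ContinuousOn g (Icc a b)) (h : ∀ x ∈ Ico a b, DiniLe f x (g x)) :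
    f b - f a ≤ ∫ t in a..b, g t := by
  have hi : IntegrableOn g (uIcc a b) := by
    rw [uIcc_of_le hab]
    exact hg.integrableOn_Icc
  have hc := intervalIntegral.continuousOn_primitive_interval hi
  rw [uIcc_of_le hab] at hc
  have := image_le_of_liminf_slope_right_le_deriv_boundary (B := fun x => f a + ∫ t in a..x, g t)
    (B' := g) hf (by simp) (continuousOn_const.add hc)
    (fun x hx => (primitive_T4a hx.1 hx.2 hg).const_add (f a))
    (fun x hx r hr => (h x hx r hr).frequently) (right_mem_Icc.2 hab)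
  linarith

/-- Barrier lemma. -/
theorem dini_barrier {a b : ℝ} {B B' : ℝ → ℝ} (hf : ContinuousOn f (Icc a b))
    (h : ∀ x ∈ Ico a b, DiniLe f x (g x)) (ha : f a ≤ B a)
    (hB : ∀ x ∈ Icc a b, HasDerivAt B (B' x) x) (hb : ∀ x ∈ Ico a b, f x = B x → g x < B' x) :
    ∀ x ∈ Icc a b, f x ≤ B x := fun _ hx =>
  image_le_of_liminf_slope_right_lt_deriv_boundary' hf
    (fun x hx r hr => (h x hx r hr).frequently) ha
    (fun x hx => (hB x hx).continuousAt.continuousWithinAt)
    (fun x hx => (hB x (Ico_subset_Icc_self hx)).hasDerivWithinAt) hb hx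

/-- A function whose derivative is bounded in absolute value by a continuous function. -/
theorem abs_sub_le_integral {a b : ℝ} (hab : a ≤ b) (hg : ContinuousOn g (Icc a b))
    (h : ∀ x ∈ Icc a b, ∃ f' : ℝ, HasDerivAt f f' x ∧ |f'| ≤ g x) :
    |f b - f a| ≤ ∫ t in a..b, g t := by
  have hf : ContinuousOn f (Icc a b) := fun x hx => by
    obtain ⟨f', h1, -⟩ := h x hx
    exact h1.continuousAt.continuousWithinAt
  have h1 := dini_le_integral hab hf hg fun x hx => by
    obtain ⟨f', h1, h2⟩ := h x (Ico_subset_Icc_self hx)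
    exact (DiniLe.of_hasDerivAt h1).mono ((le_abs_self _).trans h2)
  have h2 := dini_le_integral (f := fun x => -f x) hab hf.neg hg fun x hx => by
    obtain ⟨f', h1, h2⟩ := h x (Ico_subset_Icc_self hx)
    exact (DiniLe.of_hasDerivAt h1.neg).mono ((neg_le_abs _).trans h2)
  rw [abs_le]
  constructor <;> linarith

end Pool.Agent.MP_8339a4_an
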