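import Pool.Agent.MP_8339a4_an.T3c
import Pool.Agent.MP_8339a4_an.T4a

/-! API: moving weights. -/

open MeasureTheory Filter Topology Set

namespace Pool.Agent.MP_8339a4_an

variable {f g : ℝ → ℝ} {s c c' : ℝ}

variable {ρ w w' : ℝ → ℝ → ℝ} {wt wt' : ℝ → ℝ}

theorem deriv_le_T4b {k : ℝ → ℝ} {k' C : ℝ} (h : HasDerivAt k k' s) (hC : 0 ≤ C)
    (hl : ∀ᶠ z in 𝓝 s, |k z - k s| ≤ C * |z - s|) : |k'| ≤ C :=
  h.le_of_lip' hC hl

theorem lip_T4b {k : ℝ → ℝ} {k' : ℝ} (h : HasDerivAt k k' s) :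
    ∃ C : ℝ, 0 ≤ C ∧ ∀ᶠ z in 𝓝 s, |k z - k s| ≤ C * |z - s| := by
  obtain ⟨C, hC, h1⟩ := h.isBigO_sub.exists_nonneg
  exact ⟨C, hC, h1.bound⟩

theorem mw_lip_T4b (h : MW w wt s) :
    ∃ C : ℝ, 0 ≤ C ∧ ∀ᶠ z in 𝓝 s, ∀ y, |w z y - w s y| ≤ |z - s| * C := by
  obtain ⟨-, -, -, C, hC⟩ := h
  refine ⟨|C|, abs_nonneg C, hC.mono fun z hz y => (hz y).trans ?_⟩
  rw [mul_comm]
  exact mul_le_mul_of_nonneg_left (le_abs_self C) (abs_nonneg _)

theorem me_env_T4b (h : ME w wt s) :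
    ∃ E : ℝ → ℝ, ExpD E ∧ (∀ y, 0 ≤ E y) ∧ ∀ᶠ z in 𝓝 s, ∀ y, |w z y - w s y| ≤ |z - s| * E y := by
  obtain ⟨-, -, -, C, k, hk, hC⟩ := h
  refine ⟨fun y => |C| * Real.exp (-(k * |y|)), (ExpD.exp_neg_abs hk).const_mul _,
    fun y => by positivity, hC.mono fun z hz y => (hz y).trans ?_⟩
  have h1 : C * |z - s| ≤ |z - s| * |C| := by
    rw [mul_comm]
    exact mul_le_mul_of_nonneg_left (le_abs_self C) (abs_nonneg _)
  rw [← mul_assoc]
  exact mul_le_mul_of_nonneg_right h1 (Real.exp_pos _).le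

theorem me_of_env_T4b (h1 : ∀ᶠ z in 𝓝 s, Continuous (w z)) (h2 : Continuous wt)
    (h3 : ∀ y, HasDerivAt (fun z => w z y) (wt y) s) {E : ℝ → ℝ} (hE : ExpD E)
    (hl : ∀ᶠ z in 𝓝 s, ∀ y, |w z y - w s y| ≤ |z - s| * E y) : ME w wt s := by
  obtain ⟨-, C, k, hk, hC⟩ := hE
  refine ⟨h1, h2, h3, C, k, hk, hl.mono fun z hz y => (hz y).trans ?_⟩
  calc |z - s| * E y ≤ |z - s| * (C * Real.exp (-(k * |y|))) :=
        mul_le_mul_of_nonneg_left ((le_abs_self _).trans (hC y)) (abs_nonneg _)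
    _ = C * |z - s| * Real.exp (-(k * |y|)) := by ring

theorem MW.bdd_wt (h : MW w wt s) : Bdd wt := by
  obtain ⟨C, hC, hl⟩ := mw_lip_T4b h
  exact ⟨h.2.1, C, fun y => deriv_le_T4b (h.2.2.1 y) hC
    (hl.mono fun z hz => (hz y).trans_eq (mul_comm _ _))⟩

theorem ME.expD_wt (h : ME w wt s) : ExpD wt := by
  obtain ⟨E, hE, h0, hl⟩ := me_env_T4b h
  refine hE.of_le h.2.1 1 fun y => ?_
  rw [one_mul, abs_of_nonneg (h0 y)]
  exact deriv_le_T4b (h.2.2.1 y) (h0 y) (hl.mono fun z hz => (hz y).trans_eq (mul_comm _ _))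

theorem MW.congr (h : MW w wt s) (e1 : ∀ᶠ z in 𝓝 s, ∀ y, w z y = w' z y)
    (e2 : ∀ y, wt y = wt' y) : MW w' wt' s := by
  obtain ⟨h1, h2, h3, C, hC⟩ := h
  have e0 := e1.self_of_nhds
  refine ⟨?_, ?_, fun y => ?_, C, ?_⟩
  · filter_upwards [h1, e1] with z hz ez using hz.congr ez
  · exact h2.congr e2
  · rw [← e2 y]
    exact (h3 y).congr_of_eventuallyEq (e1.mono fun z hz => (hz y).symm)
  · filter_upwards [hC, e1] with z hz ez y
    rw [← ez y, ← e0 y]
    exact hz y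

theorem ME.congr (h : ME w wt s) (e1 : ∀ᶠ z in 𝓝 s, ∀ y, w z y = w' z y)
    (e2 : ∀ y, wt y = wt' y) : ME w' wt' s := by
  obtain ⟨h1, h2, h3, C, k, hk, hC⟩ := h
  have e0 := e1.self_of_nhds
  refine ⟨?_, ?_, fun y => ?_, C, k, hk, ?_⟩
  · filter_upwards [h1, e1] with z hz ez using hz.congr ez
  · exact h2.congr e2
  · rw [← e2 y]
    exact (h3 y).congr_of_eventuallyEq (e1.mono fun z hz => (hz y).symm)
  · filter_upwards [hC, e1] with z hz ez y
    rw [← ez y, ← e0 y]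
    exact hz y

theorem MW.sub (h : MW w wt s) (H : MW w' wt' s) :
    MW (fun z y => w z y - w' z y) (fun y => wt y - wt' y) s := by
  obtain ⟨h1, h2, h3, C, hC⟩ := h
  obtain ⟨H1, H2, H3, C', hC'⟩ := H
  refine ⟨?_, h2.sub H2, fun y => (h3 y).sub (H3 y), C + C', ?_⟩
  · filter_upwards [h1, H1] with z hz Hz using hz.sub Hz
  · filter_upwards [hC, hC'] with z hz Hz y
    calc |w z y - w' z y - (w s y - w' s y)| = |(w z y - w s y) - (w' z y - w' s y)| := by
          ring_nf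
      _ ≤ |w z y - w s y| + |w' z y - w' s y| := abs_sub _ _
      _ ≤ (C + C') * |z - s| := by linarith [hz y, Hz y]

theorem MW.mul (h : MW w wt s) (H : MW w' wt' s) :
    MW (fun z y => w z y * w' z y) (fun y => wt y * w' s y + w s y * wt' y) s := by
  obtain ⟨B, hB⟩ := h.ut.bound
  obtain ⟨B', hB'⟩ := H.ut.bound
  obtain ⟨C, hC0, hC⟩ := mw_lip_T4b h
  obtain ⟨C', hC0', hC'⟩ := mw_lip_T4b H
  obtain ⟨h1, h2, h3, -⟩ := h
  obtain ⟨H1, H2, H3, -⟩ := H
  have hs := hB.self_of_nhds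
  refine ⟨?_, (h2.mul H1.self_of_nhds.1).add (h1.self_of_nhds.1.mul H2),
    fun y => (h3 y).mul (H3 y), C * B' + B * C', ?_⟩
  · filter_upwards [h1, H1] with z hz Hz using hz.mul Hz
  · filter_upwards [hC, hC', hB'] with z hz Hz bz y
    calc |w z y * w' z y - w s y * w' s y|
        = |(w z y - w s y) * w' z y + w s y * (w' z y - w' s y)| := by ring_nf
      _ ≤ |w z y - w s y| * |w' z y| + |w s y| * |w' z y - w' s y| := by
          rw [← abs_mul, ← abs_mul]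
          exact abs_add_le _ _
      _ ≤ |z - s| * C * B' + B * (|z - s| * C') :=
          add_le_add (mul_le_mul (hz y) (bz y) (abs_nonneg _) (by positivity))
            (mul_le_mul (hs y) (Hz y) (abs_nonneg _) ((abs_nonneg _).trans (hs y)))
      _ = (C * B' + B * C') * |z - s| := by ring

theorem MW.of_scalar {k : ℝ → ℝ} {k' : ℝ} (h : HasDerivAt k k' s) :
    MW (fun z _ => k z) (fun _ => k') s := by
  obtain ⟨C, -, hC⟩ := lip_T4b h
  exact ⟨Eventually.of_forall fun z => Bdd.const _, continuous_const, fun _ => h, C,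
    hC.mono fun z hz _ => hz⟩

theorem ME.const (hg : Continuous g) : ME (fun _ => g) (fun _ => 0) s :=
  ⟨Eventually.of_forall fun _ => hg, continuous_const, fun y => hasDerivAt_const s (g y), 0, 1,
    one_pos, Eventually.of_forall fun z y => by simp⟩

theorem ME.sub (h : ME w wt s) (H : ME w' wt' s) :
    ME (fun z y => w z y - w' z y) (fun y => wt y - wt' y) s := by
  obtain ⟨E, hE, -, hl⟩ := me_env_T4b h
  obtain ⟨E', hE', -, hl'⟩ := me_env_T4b H
  refine me_of_env_T4b ?_ (h.2.1.sub H.2.1) (fun y => (h.2.2.1 y).sub (H.2.2.1 y)) (hE.add hE') ?_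
  · filter_upwards [h.1, H.1] with z hz Hz using hz.sub Hz
  · filter_upwards [hl, hl'] with z hz Hz y
    calc |w z y - w' z y - (w s y - w' s y)| = |(w z y - w s y) - (w' z y - w' s y)| := by
          ring_nf
      _ ≤ |w z y - w s y| + |w' z y - w' s y| := abs_sub _ _
      _ ≤ |z - s| * (E y + E' y) := by linarith [hz y, Hz y]

theorem ME.const_mul (h : ME w wt s) (k : ℝ) :
    ME (fun z y => k * w z y) (fun y => k * wt y) s := by
  obtain ⟨E, hE, -, hl⟩ := me_env_T4b h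
  refine me_of_env_T4b ?_ (continuous_const.mul h.2.1) (fun y => (h.2.2.1 y).const_mul k)
    (hE.const_mul |k|) ?_
  · filter_upwards [h.1] with z hz using continuous_const.mul hz
  · filter_upwards [hl] with z hz y
    calc |k * w z y - k * w s y| = |k| * |w z y - w s y| := by rw [← mul_sub, abs_mul]
      _ ≤ |k| * (|z - s| * E y) := mul_le_mul_of_nonneg_left (hz y) (abs_nonneg _)
      _ = |z - s| * (|k| * E y) := by ring

theorem ME.scalar_mul (h : ME w wt s) (h0 : ExpD (w s)) {k : ℝ → ℝ} {k' : ℝ}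
    (hk : HasDerivAt k k' s) :
    ME (fun z y => k z * w z y) (fun y => k' * w s y + k s * wt y) s := by
  obtain ⟨E, hE, hE0, hl⟩ := me_env_T4b h
  obtain ⟨C, -, hC⟩ := lip_T4b hk
  have hb : ∀ᶠ z in 𝓝 s, |k z| ≤ |k s| + 1 :=
    (hk.continuousAt.abs.tendsto.eventually (gt_mem_nhds (lt_add_one |k s|))).mono
      fun z hz => hz.le
  refine me_of_env_T4b ?_ ((continuous_const.mul h0.1).add (continuous_const.mul h.2.1))
    (fun y => hk.mul (h.2.2.1 y)) ((hE.const_mul (|k s| + 1)).add (h0.abs.const_mul C)) ?_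
  · filter_upwards [h.1] with z hz using continuous_const.mul hz
  · filter_upwards [hl, hC, hb] with z hz cz bz y
    calc |k z * w z y - k s * w s y|
        = |k z * (w z y - w s y) + (k z - k s) * w s y| := by ring_nf
      _ ≤ |k z| * |w z y - w s y| + |k z - k s| * |w s y| := by
          rw [← abs_mul, ← abs_mul]
          exact abs_add_le _ _
      _ ≤ (|k s| + 1) * (|z - s| * E y) + C * |z - s| * |w s y| :=
          add_le_add (mul_le_mul bz (hz y) (abs_nonneg _) (by positivity))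
            (mul_le_mul_of_nonneg_right cz (abs_nonneg _))
      _ = |z - s| * ((|k s| + 1) * E y + C * |w s y|) := by ring

theorem mvt_T4b {F F1 : ℝ → ℝ} (hF : ∀ x, HasDerivAt F (F1 x) x) (p q : ℝ) :
    ∃ x, |x - p| ≤ |q - p| ∧ F q - F p = F1 x * (q - p) := by
  have hc : Continuous F := continuous_iff_continuousAt.2 fun x => (hF x).continuousAt
  rcases lt_trichotomy p q with h | h | h
  · obtain ⟨x, hx, e⟩ := exists_hasDerivAt_eq_slope F F1 h hc.continuousOn fun x _ => hF x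
    refine ⟨x, ?_, ?_⟩
    · rw [abs_of_pos (sub_pos.2 hx.1), abs_of_pos (sub_pos.2 h)]
      linarith [hx.2]
    · rw [e, div_mul_cancel₀ _ (sub_pos.2 h).ne']
  · exact ⟨p, by simp, by simp [h]⟩
  · obtain ⟨x, hx, e⟩ := exists_hasDerivAt_eq_slope F F1 h hc.continuousOn fun x _ => hF x
    refine ⟨x, ?_, ?_⟩
    · rw [abs_of_neg (sub_neg.2 hx.2), abs_of_neg (sub_neg.2 h)]
      linarith [hx.1]
    · have h1 : p - q ≠ 0 := (sub_pos.2 h).ne'
      rw [e]
      field_simp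
      ring

theorem prof_T4b {F F1 a b : ℝ → ℝ} {a' b' : ℝ} (hF : ∀ x, HasDerivAt F (F1 x) x)
    (ha : HasDerivAt a a' s) (hb : HasDerivAt b b' s) (h0 : a s ≠ 0) :
    ∃ Ca Cb : ℝ, 0 ≤ Ca ∧ 0 ≤ Cb ∧ ∀ᶠ z in 𝓝 s, ∀ y, ∃ x,
      |a s| / 2 * |y| ≤ |x| + (|b s| + 1) ∧
      |F (a z * y + b z) - F (a s * y + b s)| ≤ |z - s| * (|F1 x| * (Ca * |y| + Cb)) := by
  obtain ⟨Ca, hCa, h1⟩ := lip_T4b ha
  obtain ⟨Cb, hCb, h2⟩ := lip_T4b hb
  have hpos : 0 < |a s| / 2 := half_pos (abs_pos.2 h0)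
  have h3 : ∀ᶠ z in 𝓝 s, |a z - a s| < |a s| / 2 :=
    Metric.tendsto_nhds.1 ha.continuousAt.tendsto _ hpos
  have h4 : ∀ᶠ z in 𝓝 s, |b z - b s| < 1 :=
    Metric.tendsto_nhds.1 hb.continuousAt.tendsto _ one_pos
  refine ⟨Ca, Cb, hCa, hCb, ?_⟩
  filter_upwards [h1, h2, h3, h4] with z k1 k2 k3 k4 y
  obtain ⟨x, hx, e⟩ := mvt_T4b hF (a s * y + b s) (a z * y + b z)
  have k5 : |a z * y + b z - (a s * y + b s)| ≤ |a z - a s| * |y| + |b z - b s| := by
    rw [← abs_mul]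
    calc |a z * y + b z - (a s * y + b s)| = |(a z - a s) * y + (b z - b s)| := by ring_nf
      _ ≤ _ := abs_add_le _ _
  refine ⟨x, ?_, ?_⟩
  · have k6 : |a s| * |y| ≤ |x| + |x - (a s * y + b s)| + |b s| := by
      rw [← abs_mul]
      calc |a s * y| = |x - (x - (a s * y + b s)) - b s| := by ring_nf
        _ ≤ |x - (x - (a s * y + b s))| + |b s| := abs_sub _ _
        _ ≤ _ := by linarith [abs_sub x (x - (a s * y + b s))]
    have k7 : |a z - a s| * |y| ≤ |a s| / 2 * |y| :=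
      mul_le_mul_of_nonneg_right k3.le (abs_nonneg _)
    linarith
  · have k7 : |a z - a s| * |y| ≤ Ca * |z - s| * |y| :=
      mul_le_mul_of_nonneg_right k1 (abs_nonneg _)
    rw [e, abs_mul]
    calc |F1 x| * |a z * y + b z - (a s * y + b s)|
        ≤ |F1 x| * (Ca * |z - s| * |y| + Cb * |z - s|) :=
          mul_le_mul_of_nonneg_left (by linarith) (abs_nonneg _)
      _ = |z - s| * (|F1 x| * (Ca * |y| + Cb)) := by ring

/-- A fixed profile composed with a moving affine map. -/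
theorem me_profile {F F1 a b : ℝ → ℝ} {a' b' : ℝ} (hF : ∀ x, HasDerivAt F (F1 x) x)
    (e1 : ExpD F1) (ha : HasDerivAt a a' s) (hb : HasDerivAt b b' s) (h0 : a s ≠ 0) :
    ME (fun z y => F (a z * y + b z)) (fun y => F1 (a s * y + b s) * (a' * y + b')) s := by
  have hc : Continuous F := continuous_iff_continuousAt.2 fun x => (hF x).continuousAt
  obtain ⟨Ca, Cb, hCa, hCb, hl⟩ := prof_T4b hF ha hb h0
  obtain ⟨c1, C, k, hk, hC⟩ := e1
  have hpos : 0 < k * (|a s| / 2) := mul_pos hk (half_pos (abs_pos.2 h0))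
  have hE := ExpD.exp_neg_abs hpos
  refine me_of_env_T4b (Eventually.of_forall fun z => by fun_prop) (by fun_prop)
    (fun y => (hF _).comp s ((ha.mul_const y).add hb))
    (((hE.id_mul.abs.const_mul Ca).add (hE.const_mul Cb)).const_mul
      (|C| * Real.exp (k * (|b s| + 1)))) ?_
  filter_upwards [hl] with z hz y
  obtain ⟨x, hx, e⟩ := hz y
  refine e.trans (mul_le_mul_of_nonneg_left ?_ (abs_nonneg _))
  have k1 : |F1 x| ≤ |C| * Real.exp (k * (|b s| + 1)) * Real.exp (-(k * (|a s| / 2) * |y|)) := by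
    refine (hC x).trans ?_
    rw [mul_assoc, ← Real.exp_add]
    refine mul_le_mul (le_abs_self C) (Real.exp_le_exp.2 ?_) (Real.exp_pos _).le (abs_nonneg _)
    nlinarith [mul_le_mul_of_nonneg_left hx hk.le]
  calc |F1 x| * (Ca * |y| + Cb)
      ≤ |C| * Real.exp (k * (|b s| + 1)) * Real.exp (-(k * (|a s| / 2) * |y|)) *
        (Ca * |y| + Cb) := mul_le_mul_of_nonneg_right k1 (by positivity)
    _ = _ := by
      rw [abs_mul y, abs_of_pos (Real.exp_pos _)]
      ring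

theorem mw_profile {F F1 a b : ℝ → ℝ} {a' b' : ℝ} (hF : ∀ x, HasDerivAt F (F1 x) x)
    (b0 : Bdd F) (b1 : Bdd F1) (b2 : Bdd (fun x => x * F1 x)) (ha : HasDerivAt a a' s)
    (hb : HasDerivAt b b' s) (h0 : a s ≠ 0) :
    MW (fun z y => F (a z * y + b z)) (fun y => F1 (a s * y + b s) * (a' * y + b')) s := by
  obtain ⟨Ca, Cb, hCa, hCb, hl⟩ := prof_T4b hF ha hb h0
  obtain ⟨c1, B1, hB1⟩ := b1
  obtain ⟨-, B2, hB2⟩ := b2
  have hpos : 0 < |a s| / 2 := half_pos (abs_pos.2 h0)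
  refine ⟨Eventually.of_forall fun z => b0.comp (by fun_prop), by fun_prop,
    fun y => (hF _).comp s ((ha.mul_const y).add hb),
    Ca * ((B2 + B1 * (|b s| + 1)) / (|a s| / 2)) + Cb * B1, ?_⟩
  filter_upwards [hl] with z hz y
  obtain ⟨x, hx, e⟩ := hz y
  refine e.trans ?_
  rw [mul_comm]
  refine mul_le_mul_of_nonneg_right ?_ (abs_nonneg _)
  have k1 : |F1 x| * |y| ≤ (B2 + B1 * (|b s| + 1)) / (|a s| / 2) := by
    rw [le_div_iff₀ hpos]
    have k2 : |x| * |F1 x| ≤ B2 := by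
      rw [← abs_mul]
      exact hB2 x
    have k3 : |F1 x| * (|b s| + 1) ≤ B1 * (|b s| + 1) :=
      mul_le_mul_of_nonneg_right (hB1 x) (by positivity)
    nlinarith [mul_le_mul_of_nonneg_left hx (abs_nonneg (F1 x))]
  calc |F1 x| * (Ca * |y| + Cb) = Ca * (|F1 x| * |y|) + Cb * |F1 x| := by ring
    _ ≤ _ := add_le_add (mul_le_mul_of_nonneg_left k1 hCa)
      (mul_le_mul_of_nonneg_left (hB1 x) hCb)

theorem mov_core_T4b {E : ℝ → ℝ} (hE0 : ∀ y, 0 ≤ E y)
    (hρ : L1T (𝓝 s) (fun z y => ρ z y * E y) (fun y => ρ s y * E y))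
    (hm : ∀ᶠ z in 𝓝 s, AEStronglyMeasurable (ρ z) volume)
    (hc : ∀ᶠ z in 𝓝 s, Continuous (w z)) (hd : ∀ y, HasDerivAt (fun z => w z y) (wt y) s)
    (hl : ∀ᶠ z in 𝓝 s, ∀ y, |w z y - w s y| ≤ |z - s| * E y) :
    HasDerivAt (fun z => ∫ y, ρ z y * (w z y - w s y)) (∫ y, ρ s y * wt y) s := by
  obtain ⟨i1, i2, i3⟩ := hρ
  have hms := hm.self_of_nhds
  have hcs := hc.self_of_nhds
  have hq : ∀ᶠ z in 𝓝[≠] s, ∀ y, |(z - s)⁻¹ * (w z y - w s y)| ≤ E y := by
    filter_upwards [hl.filter_mono nhdsWithin_le_nhds, self_mem_nhdsWithin] with z hz hne y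
    have h1 : 0 < |z - s| := abs_pos.2 (sub_ne_zero.2 hne)
    rw [abs_mul, abs_inv, inv_mul_le_iff₀ h1]
    exact hz y
  have hqm : ∀ᶠ z in 𝓝[≠] s,
      AEStronglyMeasurable (fun y => (z - s)⁻¹ * (w z y - w s y)) volume := by
    filter_upwards [hc.filter_mono nhdsWithin_le_nhds] with z hz
    exact (continuous_const.mul (hz.sub hcs)).aestronglyMeasurable
  have t1 : Tendsto (fun z => ∫ y, ρ s y * ((z - s)⁻¹ * (w z y - w s y))) (𝓝[≠] s)
      (𝓝 (∫ y, ρ s y * wt y)) := by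
    refine tendsto_integral_filter_of_dominated_convergence (fun y => |ρ s y * E y|) ?_ ?_
      i2.abs (Eventually.of_forall fun y => ?_)
    · filter_upwards [hqm] with z hz using hms.mul hz
    · filter_upwards [hq] with z hz
      refine Eventually.of_forall fun y => ?_
      rw [Real.norm_eq_abs, abs_mul, abs_mul (ρ s y), abs_of_nonneg (hE0 y)]
      exact mul_le_mul_of_nonneg_left (hz y) (abs_nonneg _)
    · have := hasDerivAt_iff_tendsto_slope.1 (hd y)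
      simp only [slope_fun_def_field] at this
      refine Tendsto.const_mul _ (this.congr fun z => ?_)
      rw [div_eq_inv_mul]
  have hint : ∀ᶠ z in 𝓝[≠] s,
      Integrable (fun y => ρ z y * ((z - s)⁻¹ * (w z y - w s y))) ∧
      Integrable (fun y => ρ s y * ((z - s)⁻¹ * (w z y - w s y))) := by
    filter_upwards [hq, hqm, hm.filter_mono nhdsWithin_le_nhds,
      i1.filter_mono nhdsWithin_le_nhds] with z hz mz mz' iz
    refine ⟨iz.abs.mono' (mz'.mul mz) (Eventually.of_forall fun y => ?_),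
      i2.abs.mono' (hms.mul mz) (Eventually.of_forall fun y => ?_)⟩
    · rw [Real.norm_eq_abs, abs_mul, abs_mul (ρ z y), abs_of_nonneg (hE0 y)]
      exact mul_le_mul_of_nonneg_left (hz y) (abs_nonneg _)
    · rw [Real.norm_eq_abs, abs_mul, abs_mul (ρ s y), abs_of_nonneg (hE0 y)]
      exact mul_le_mul_of_nonneg_left (hz y) (abs_nonneg _)
  have t2 : Tendsto (fun z => (∫ y, ρ z y * ((z - s)⁻¹ * (w z y - w s y))) -
      ∫ y, ρ s y * ((z - s)⁻¹ * (w z y - w s y))) (𝓝[≠] s) (𝓝 0) := by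
    refine squeeze_zero_norm' ?_ (i3.mono_left nhdsWithin_le_nhds)
    filter_upwards [hq, hint, i1.filter_mono nhdsWithin_le_nhds] with z hz iz jz
    rw [← integral_sub iz.1 iz.2]
    refine norm_integral_le_of_norm_le (jz.sub i2).abs (Eventually.of_forall fun y => ?_)
    rw [Real.norm_eq_abs, ← sub_mul, ← sub_mul, abs_mul, abs_mul (ρ z y - ρ s y),
      abs_of_nonneg (hE0 y)]
    exact mul_le_mul_of_nonneg_left (hz y) (abs_nonneg _)
  rw [hasDerivAt_iff_tendsto_slope]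
  have t3 := t2.add t1
  rw [zero_add] at t3
  refine t3.congr fun z => ?_
  rw [sub_add_cancel, slope_def_field]
  simp only [sub_self, mul_zero, integral_zero, sub_zero]
  rw [div_eq_inv_mul, ← integral_const_mul]
  refine integral_congr_ae (Eventually.of_forall fun y => ?_)
  ring

theorem split_T4b {p u v : ℝ → ℝ} (i1 : Integrable fun y => p y * u y)
    (i2 : Integrable fun y => p y * v y) :
    (∫ y, p y * v y) + ∫ y, p y * (u y - v y) = ∫ y, p y * u y := by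
  have : ∫ y, p y * (u y - v y) = (∫ y, p y * u y) - ∫ y, p y * v y := by
    rw [← integral_sub i1 i2]
    refine integral_congr_ae (Eventually.of_forall fun y => ?_)
    ring
  rw [this]
  ring

theorem mov1_T4b (hρ : L1T (𝓝 s) ρ (ρ s)) (hw : MW w wt s) :
    HasDerivAt (fun z => ∫ y, ρ z y * (w z y - w s y)) (∫ y, ρ s y * wt y) s ∧
    ∀ᶠ z in 𝓝 s, (∫ y, ρ z y * w s y) + ∫ y, ρ z y * (w z y - w s y) = ∫ y, ρ z y * w z y := by
  obtain ⟨C, hC, hl⟩ := mw_lip_T4b hw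
  refine ⟨mov_core_T4b (E := fun _ => C) (fun _ => hC) (hρ.mul_ut (UT.const (Bdd.const C)))
    (hρ.1.mono fun z hz => hz.aestronglyMeasurable) (hw.1.mono fun z hz => hz.1) hw.2.2.1 hl, ?_⟩
  filter_upwards [hρ.1, hw.1] with z iz bz
  exact split_T4b (integrable_mul_bdd iz bz) (integrable_mul_bdd iz hw.1.self_of_nhds)

theorem mov_l1 (hρ : L1T (𝓝 s) ρ (ρ s)) (hw : MW w wt s)
    (h : HasDerivAt (fun z => ∫ y, ρ z y * w s y) c s) :
    HasDerivAt (fun z => ∫ y, ρ z y * w z y) (c + ∫ y, ρ s y * wt y) s := by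
  obtain ⟨h1, h2⟩ := mov1_T4b hρ hw
  exact (h.add h1).congr_of_eventuallyEq (h2.mono fun z hz => hz.symm)

theorem mov_l1_dini (hρ : L1T (𝓝 s) ρ (ρ s)) (hw : MW w wt s)
    (h : DiniLe (fun z => ∫ y, ρ z y * w s y) s c) :
    DiniLe (fun z => ∫ y, ρ z y * w z y) s (c + ∫ y, ρ s y * wt y) := by
  obtain ⟨h1, h2⟩ := mov1_T4b hρ hw
  exact (h.add_hasDerivAt h1).congr h2

theorem mov_l2 (hρ : L2T (𝓝 s) ρ (ρ s)) (hw : ME w wt s) (h2 : MemLp (w s) 2 volume)
    (h : HasDerivAt (fun z => ∫ y, ρ z y * w s y) c s) :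
    HasDerivAt (fun z => ∫ y, ρ z y * w z y) (c + ∫ y, ρ s y * wt y) s := by
  obtain ⟨E, hE, hE0, hl⟩ := me_env_T4b hw
  have h1 := mov_core_T4b hE0 (hρ.mul (L2T.const hE.memLp))
    (hρ.1.mono fun z hz => hz.aestronglyMeasurable) hw.1 hw.2.2.1 hl
  refine (h.add h1).congr_of_eventuallyEq ?_
  filter_upwards [hρ.1, (hw.l2 h2).1] with z iz bz
  exact (split_T4b (integrable_mul2 iz bz) (integrable_mul2 iz h2)).symm

end Pool.Agent.MP_8339a4_an
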