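import Pool.Agent.MP_8339a4_an.T5a
import Pool.Agent.MP_8339a4_an.T4b

/-! API: the steps `ph`. -/

open MeasureTheory Filter Topology Set

namespace Pool.Agent.MP_8339a4_an

variable {r K : ℝ}

theorem arg_T5b (r A K y : ℝ) : r / K * y + -A / K = (r * y - A) / K := by ring

theorem lin_T5b (r A K y : ℝ) : HasDerivAt (fun y => (r * y - A) / K) (r / K) y := by
  simpa using (((hasDerivAt_id y).const_mul r).sub_const A).div_const K

theorem der_T5b {F F1 : ℝ → ℝ} (h : ∀ x, HasDerivAt F (F1 x) x) (c r A K y : ℝ) :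
    HasDerivAt (fun y => c * F ((r * y - A) / K)) (c * (r / K) * F1 ((r * y - A) / K)) y := by
  have := ((h ((r * y - A) / K)).comp y (lin_T5b r A K y)).const_mul c
  exact this.congr_deriv (by ring)

theorem expD_T5b {F : ℝ → ℝ} (h : ExpD F) (hr : 0 < r) (hK : 0 < K) (c A : ℝ) :
    ExpD (fun y => c * F ((r * y - A) / K)) :=
  ((h.comp_affine (div_pos hr hK).ne' (-A / K)).const_mul c).congr fun y => by rw [arg_T5b]

theorem gam_T5b : ∫ x : ℝ, Real.exp (-|x|) * |x| ^ 2 = 4 := by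
  rw [integral_comp_abs (f := fun x => Real.exp (-x) * x ^ 2)]
  have h := Real.Gamma_eq_integral (s := 3) (by norm_num)
  have h2 : Real.Gamma 3 = 2 := by norm_num
  have h3 : ∀ x : ℝ, x ^ ((3 : ℝ) - 1) = x ^ 2 := fun x => by
    rw [show (3 : ℝ) - 1 = ((2 : ℕ) : ℝ) by norm_num, Real.rpow_natCast]
  simp only [h3] at h
  rw [← h, h2]
  norm_num

theorem sq_T5b : Integrable (fun x => P1 x * x ^ 2) ∧ ∫ x, P1 x * x ^ 2 ≤ 4 := by
  have i1 : Integrable (fun x => P1 x * x ^ 2) :=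
    (expD_P1.id_mul.id_mul.congr fun y => by ring).integrable
  have i2 : Integrable (fun x : ℝ => Real.exp (-|x|) * |x| ^ 2) :=
    ((ExpD.exp_neg_abs one_pos).id_mul.id_mul.congr fun y => by
      rw [sq_abs, one_mul]; ring).integrable
  refine ⟨i1, gam_T5b ▸ integral_mono i1 i2 fun x => ?_⟩
  dsimp only
  rw [sq_abs]
  exact mul_le_mul_of_nonneg_right (P1_le_exp x) (sq_nonneg x)

theorem hasDerivAt_ph (r A K y : ℝ) : HasDerivAt (ph r A K) (ph1 r A K y) y := by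
  have := der_T5b hasDerivAt_P0 1 r A K y
  simp only [one_mul] at this
  exact this
theorem hasDerivAt_ph1 (r A K y : ℝ) : HasDerivAt (ph1 r A K) (ph2 r A K y) y :=
  (der_T5b hasDerivAt_P1 (r / K) r A K y).congr_deriv (by unfold ph2; ring)
theorem hasDerivAt_ph2 (r A K y : ℝ) : HasDerivAt (ph2 r A K) (ph3 r A K y) y :=
  (der_T5b hasDerivAt_P2 ((r / K) ^ 2) r A K y).congr_deriv (by unfold ph3; ring)
theorem hasDerivAt_ph3 (r A K y : ℝ) : HasDerivAt (ph3 r A K) (ph4 r A K y) y :=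
  (der_T5b hasDerivAt_P3 ((r / K) ^ 3) r A K y).congr_deriv (by unfold ph4; ring)
theorem ph_pos (r A K y : ℝ) : 0 < ph r A K y := P0_pos _
theorem ph_lt_one (r A K y : ℝ) : ph r A K y < 1 := P0_lt_one _
theorem bdd_ph (r A K : ℝ) : Bdd (ph r A K) :=
  bdd_P0.comp (g := fun y => (r * y - A) / K) (by fun_prop)
theorem ph1_pos (hr : 0 < r) (hK : 0 < K) (A y : ℝ) : 0 < ph1 r A K y :=
  mul_pos (div_pos hr hK) (P1_pos _)
theorem ph1_eq (r A K y : ℝ) : ph1 r A K y = r / K * (ph r A K y * (1 - ph r A K y)) := rfl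
theorem ph1_le (hr : 0 < r) (hK : 0 < K) (A y : ℝ) : ph1 r A K y ≤ r / K * ph r A K y :=
  mul_le_mul_of_nonneg_left (P1_le_P0 _) (div_pos hr hK).le
theorem abs_ph2_le (hr : 0 < r) (hK : 0 < K) (A y : ℝ) :
    |ph2 r A K y| ≤ r / K * ph1 r A K y := by
  have h := div_pos hr hK
  unfold ph2 ph1
  rw [abs_mul, abs_of_pos (pow_pos h 2), ← mul_assoc, ← sq]
  exact mul_le_mul_of_nonneg_left (abs_P2_le _) (pow_pos h 2).le
theorem abs_ph3_le (hr : 0 < r) (hK : 0 < K) (A y : ℝ) :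
    |ph3 r A K y| ≤ (r / K) ^ 2 * ph1 r A K y := by
  have h := div_pos hr hK
  unfold ph3 ph1
  rw [abs_mul, abs_of_pos (pow_pos h 3), ← mul_assoc, ← pow_succ]
  exact mul_le_mul_of_nonneg_left (abs_P3_le _) (pow_pos h 3).le
theorem abs_ph4_le (hr : 0 < r) (hK : 0 < K) (A y : ℝ) :
    |ph4 r A K y| ≤ 2 * (r / K) ^ 3 * ph1 r A K y := by
  have h := div_pos hr hK
  unfold ph4 ph1
  rw [abs_mul, abs_of_pos (pow_pos h 4)]
  exact (mul_le_mul_of_nonneg_left (abs_P4_le _) (pow_pos h 4).le).trans_eq (by ring)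
theorem expD_ph1 (hr : 0 < r) (hK : 0 < K) (A : ℝ) : ExpD (ph1 r A K) := expD_T5b expD_P1 hr hK _ A
theorem expD_ph2 (hr : 0 < r) (hK : 0 < K) (A : ℝ) : ExpD (ph2 r A K) := expD_T5b expD_P2 hr hK _ A
theorem expD_ph3 (hr : 0 < r) (hK : 0 < K) (A : ℝ) : ExpD (ph3 r A K) := expD_T5b expD_P3 hr hK _ A
theorem expD_ph4 (hr : 0 < r) (hK : 0 < K) (A : ℝ) : ExpD (ph4 r A K) := expD_T5b expD_P4 hr hK _ A
theorem wt_ph (hr : 0 < r) (hK : 0 < K) (A : ℝ) :
    Wt (ph r A K) (ph1 r A K) (ph2 r A K) (ph3 r A K) :=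
  (wt_P0.comp_affine (div_pos hr hK).ne' (-A / K)).congr (fun y => by rw [arg_T5b]; rfl)
    (fun y => by rw [arg_T5b]; rfl) (fun y => by rw [arg_T5b]; rfl) fun y => by rw [arg_T5b]; rfl
theorem test_ph1 (hr : 0 < r) (hK : 0 < K) (A : ℝ) :
    Test (ph1 r A K) (ph2 r A K) (ph3 r A K) (ph4 r A K) :=
  ⟨⟨hasDerivAt_ph1 r A K, hasDerivAt_ph2 r A K, hasDerivAt_ph3 r A K, (expD_ph4 hr hK A).1⟩,
    expD_ph1 hr hK A, expD_ph2 hr hK A, expD_ph3 hr hK A, expD_ph4 hr hK A⟩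
theorem tendsto_ph_atTop (hr : 0 < r) (hK : 0 < K) (A : ℝ) : Tendsto (ph r A K) atTop (𝓝 1) :=
  tendsto_P0_atTop.comp (f := fun y => (r * y - A) / K)
    ((tendsto_atTop_add_const_right _ (-A) (tendsto_id.const_mul_atTop hr)).atTop_div_const hK)
theorem tendsto_ph_atBot (hr : 0 < r) (hK : 0 < K) (A : ℝ) : Tendsto (ph r A K) atBot (𝓝 0) :=
  tendsto_P0_atBot.comp (f := fun y => (r * y - A) / K)
    ((tendsto_atBot_add_const_right _ (-A) (tendsto_id.const_mul_atBot hr)).atBot_div_const hK)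
theorem integral_ph1 (hr : 0 < r) (hK : 0 < K) (A : ℝ) : ∫ y, ph1 r A K y = 1 := by
  rw [(IsPrim.of_hasDerivAt (hasDerivAt_ph r A K) (expD_ph1 hr hK A).1).integral_of_tendsto
    (expD_ph1 hr hK A).integrable (tendsto_ph_atBot hr hK A) (tendsto_ph_atTop hr hK A), sub_zero]
theorem integral_ph3 (hr : 0 < r) (hK : 0 < K) (A : ℝ) : ∫ y, ph3 r A K y = 0 :=
  (IsPrim.of_hasDerivAt (hasDerivAt_ph2 r A K) (expD_ph3 hr hK A).1).integral_eq_zero
    (expD_ph2 hr hK A).integrable (expD_ph3 hr hK A).integrable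
theorem integral_ph1_sq (hr : 0 < r) (hK : 0 < K) (A : ℝ) :
    ∫ y, ph1 r A K y * y ^ 2 ≤ 2 * (A / r) ^ 2 + 8 * (K / r) ^ 2 := by
  have h := div_pos hr hK
  have e1 : ∀ y, ph1 r A K y * y ^ 2 = (fun x => r / K * (P1 x * ((K * x + A) / r) ^ 2))
      (r / K * y + -A / K) := fun y => by
    have : (K * (r / K * y + -A / K) + A) / r = y := by field_simp; ring
    dsimp only
    rw [this, arg_T5b, ph1, mul_assoc]
  simp only [e1]
  rw [integral_comp_affine (fun x => r / K * (P1 x * ((K * x + A) / r) ^ 2)) h,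
    integral_const_mul, mul_div_cancel_left₀ _ h.ne']
  have i0 := expD_P1.integrable
  have i1 : Integrable (fun x => P1 x * ((K * x + A) / r) ^ 2) :=
    ((((expD_P1.id_mul.id_mul.const_mul ((K / r) ^ 2)).add
      (expD_P1.id_mul.const_mul (2 * (K / r) * (A / r)))).add
      (expD_P1.const_mul ((A / r) ^ 2))).congr fun y => by ring).integrable
  have i2 := i0.const_mul (2 * (A / r) ^ 2)
  have i3 := sq_T5b.1.const_mul (2 * (K / r) ^ 2)
  refine (integral_mono i1 (i2.add i3) fun x => ?_).trans ?_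
  · have h1 : ((K * x + A) / r) ^ 2 ≤ 2 * (A / r) ^ 2 + 2 * (K / r) ^ 2 * x ^ 2 := by
      have : (K * x + A) / r = K / r * x + A / r := by ring
      rw [this]
      nlinarith [sq_nonneg (K / r * x - A / r)]
    exact (mul_le_mul_of_nonneg_left h1 (P1_pos x).le).trans_eq (by simp only [Pi.add_apply]; ring)
  · rw [integral_add' i2 i3, integral_const_mul, integral_const_mul, integral_P1]
    nlinarith [sq_T5b.2, sq_nonneg (K / r)]

/-- Time derivative of a moving step. -/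
theorem me_ph {ρ a : ℝ → ℝ} {ρ' a' s : ℝ} (hρ : HasDerivAt ρ ρ' s) (ha : HasDerivAt a a' s)
    (h0 : 0 < ρ s) (hK : 0 < K) :
    ME (fun z y => ph (ρ z) (a z) K y) (fun y => ph1 (ρ s) (a s) K y * ((ρ' * y - a') / ρ s)) s :=
  (me_profile hasDerivAt_P0 expD_P1 (hρ.div_const K) (ha.neg.div_const K)
    (div_pos h0 hK).ne').congr
    (Eventually.of_forall fun z y => by simp only [Pi.neg_apply]; rw [arg_T5b]; rfl) fun y => by
      simp only [Pi.neg_apply]
      rw [arg_T5b, ph1]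
      field_simp
      ring
theorem mw_ph {ρ a : ℝ → ℝ} {ρ' a' s : ℝ} (hρ : HasDerivAt ρ ρ' s) (ha : HasDerivAt a a' s)
    (h0 : 0 < ρ s) (hK : 0 < K) :
    MW (fun z y => ph (ρ z) (a z) K y) (fun y => ph1 (ρ s) (a s) K y * ((ρ' * y - a') / ρ s)) s :=
  (mw_profile hasDerivAt_P0 bdd_P0 expD_P1.bdd expD_P1.id_mul.bdd (hρ.div_const K)
    (ha.neg.div_const K) (div_pos h0 hK).ne').congr
    (Eventually.of_forall fun z y => by simp only [Pi.neg_apply]; rw [arg_T5b]; rfl) fun y => by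
      simp only [Pi.neg_apply]
      rw [arg_T5b, ph1]
      field_simp
      ring
theorem me_ph1 {ρ a : ℝ → ℝ} {ρ' a' s : ℝ} (hρ : HasDerivAt ρ ρ' s) (ha : HasDerivAt a a' s)
    (h0 : 0 < ρ s) (hK : 0 < K) :
    ME (fun z y => ph1 (ρ z) (a z) K y) (fun y => ρ' / ρ s * ph1 (ρ s) (a s) K y
      + ph2 (ρ s) (a s) K y * ((ρ' * y - a') / ρ s)) s :=
  ((me_profile hasDerivAt_P1 expD_P2 (hρ.div_const K) (ha.neg.div_const K)
    (div_pos h0 hK).ne').scalar_mul (expD_P1.comp_affine (div_pos h0 hK).ne' _)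
    (hρ.div_const K)).congr
    (Eventually.of_forall fun z y => by simp only [Pi.neg_apply]; rw [arg_T5b]; rfl) fun y => by
      simp only [Pi.neg_apply]
      rw [arg_T5b, ph1, ph2]
      field_simp
      ring
theorem mw_ph1 {ρ a : ℝ → ℝ} {ρ' a' s : ℝ} (hρ : HasDerivAt ρ ρ' s) (ha : HasDerivAt a a' s)
    (h0 : 0 < ρ s) (hK : 0 < K) :
    MW (fun z y => ph1 (ρ z) (a z) K y) (fun y => ρ' / ρ s * ph1 (ρ s) (a s) K y
      + ph2 (ρ s) (a s) K y * ((ρ' * y - a') / ρ s)) s :=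
  ((MW.of_scalar (hρ.div_const K)).mul (mw_profile hasDerivAt_P1 expD_P1.bdd expD_P2.bdd
    expD_P2.id_mul.bdd (hρ.div_const K) (ha.neg.div_const K) (div_pos h0 hK).ne')).congr
    (Eventually.of_forall fun z y => by simp only [Pi.neg_apply]; rw [arg_T5b]; rfl) fun y => by
      simp only [Pi.neg_apply]
      rw [arg_T5b, ph1, ph2]
      field_simp
      ring

end Pool.Agent.MP_8339a4_an
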