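import Pool.Agent.MP_8339a4_an.T7a
import Pool.Agent.MP_8339a4_an.T5b

/-! API: the function `rho` and the basic envelope. -/

open MeasureTheory Filter Topology Set

namespace Pool.Agent.MP_8339a4_an

theorem LQ_le_T7b (x : ℝ) : |LQ x| ≤ 4 * Real.exp (-(|x| / 2)) := by
  have h1 := Real.add_one_le_exp (|x| / 2)
  have h2 : Real.exp (|x| / 2) * Real.exp (-|x|) = Real.exp (-(|x| / 2)) := by
    rw [← Real.exp_add]
    congr 1
    ring
  have h3 := abs_nonneg x
  calc |LQ x| ≤ (1 + |x|) * Q x := abs_LQ_le x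
    _ ≤ (2 * Real.exp (|x| / 2)) * (2 * Real.exp (-|x|)) :=
      mul_le_mul (by linarith) (Q_le_exp x) (Q_pos x).le (by positivity)
    _ = 4 * Real.exp (-(|x| / 2)) := by rw [← h2]; ring

theorem prim_T7b : IsPrim rho LQ :=
  ⟨fun _ _ => expD_LQ.integrable.intervalIntegrable, fun _ _ =>
    intervalIntegral.integral_Iic_sub_Iic expD_LQ.integrable.integrableOn
      expD_LQ.integrable.integrableOn⟩

theorem env_le_T7b (y : ℝ) : Real.exp (|y| / 10) * (1 + y ^ 2) * Q y ≤
    2 * ((1 + y ^ 2) * Real.exp (-(9 / 10 * |y|))) := by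
  have h2 : Real.exp (|y| / 10) * Real.exp (-|y|) = Real.exp (-(9 / 10 * |y|)) := by
    rw [← Real.exp_add]
    congr 1
    ring
  calc _ ≤ Real.exp (|y| / 10) * (1 + y ^ 2) * (2 * Real.exp (-|y|)) :=
      mul_le_mul_of_nonneg_left (Q_le_exp y) (by positivity)
    _ = _ := by rw [← h2]; ring

theorem env_pos_T7b (y : ℝ) : 0 < Real.exp (|y| / 10) * (1 + y ^ 2) * Q y :=
  mul_pos (by positivity) (Q_pos y)

theorem sq_le_T7b {x : ℝ} (hx : 0 ≤ x) : x ^ 2 ≤ Real.exp x + Real.exp (-x) - 2 := by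
  have h1 : x / 2 ≤ Real.sinh (x / 2) := Real.self_le_sinh_iff.2 (by linarith)
  have h2 := Real.cosh_two_mul (x / 2)
  rw [Real.cosh_sq, show 2 * (x / 2) = x by ring, Real.cosh_eq] at h2
  nlinarith

theorem hasDerivAt_rho (y : ℝ) : HasDerivAt rho (LQ y) y := by
  have h : rho = fun z => rho 0 + ∫ x in (0 : ℝ)..z, LQ x := by
    funext z
    rw [← prim_T7b.2 0 z]
    ring
  rw [h]
  exact ((expD_LQ.1.integral_hasStrictDerivAt 0 y).hasDerivAt).const_add _
theorem abs_rho_le {y : ℝ} (hy : y ≤ 0) : |rho y| ≤ 8 * Real.exp (-(|y| / 2)) := by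
  have h1 : ‖∫ x in Iic y, LQ x‖ ≤ ∫ x in Iic y, 4 * Real.exp (1 / 2 * x) := by
    refine norm_integral_le_of_norm_le
      ((integrableOn_exp_mul_Iic (by norm_num) y).const_mul 4) ?_
    filter_upwards [ae_restrict_mem measurableSet_Iic] with x hx
    have h2 := LQ_le_T7b x
    rw [abs_of_nonpos (le_trans hx hy), show -(-x / 2) = 1 / 2 * x by ring] at h2
    exact h2
  rw [integral_const_mul, integral_exp_mul_Iic (by norm_num)] at h1
  rw [abs_of_nonpos hy, show -(-y / 2) = 1 / 2 * y by ring]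
  calc |rho y| ≤ _ := h1
    _ = _ := by ring
theorem abs_rho_sub_le {y : ℝ} (hy : 0 ≤ y) : |rho y - mm| ≤ 8 * Real.exp (-(|y| / 2)) := by
  have h0 : rho y - mm = -∫ x in Ioi y, LQ x := by
    have := intervalIntegral.integral_Iic_add_Ioi (b := y) expD_LQ.integrable.integrableOn
      expD_LQ.integrable.integrableOn
    unfold rho mm
    linarith
  have h1 : ‖∫ x in Ioi y, LQ x‖ ≤ ∫ x in Ioi y, 4 * Real.exp (-(1 / 2) * x) := by
    refine norm_integral_le_of_norm_le
      ((integrableOn_exp_mul_Ioi (by norm_num) y).const_mul 4) ?_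
    filter_upwards [ae_restrict_mem measurableSet_Ioi] with x hx
    have h2 := LQ_le_T7b x
    rw [abs_of_nonneg (le_trans hy (le_of_lt hx)), show -(x / 2) = -(1 / 2) * x by ring] at h2
    exact h2
  rw [integral_const_mul, integral_exp_mul_Ioi (by norm_num)] at h1
  rw [h0, abs_neg, abs_of_nonneg hy, show -(y / 2) = -(1 / 2) * y by ring]
  calc |∫ x in Ioi y, LQ x| ≤ _ := h1
    _ = _ := by ring
theorem bdd_rho : Bdd rho := by
  refine ⟨prim_T7b.continuous, 8 + |mm|, fun y => ?_⟩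
  have h1 : Real.exp (-(|y| / 2)) ≤ 1 := Real.exp_le_one_iff.2 (by have := abs_nonneg y; linarith)
  rcases le_total y 0 with h | h
  · have := abs_rho_le h
    have := abs_nonneg mm
    linarith
  · have := abs_rho_sub_le h
    have := abs_sub_abs_le_abs_sub (rho y) mm
    linarith

theorem tendsto_T7b {l : Filter ℝ} (h : Tendsto (fun y : ℝ => |y|) l atTop) :
    Tendsto (fun y : ℝ => 8 * Real.exp (-(|y| / 2))) l (𝓝 0) := by
  have := (Real.tendsto_exp_neg_atTop_nhds_zero.comp (h.atTop_div_const (by norm_num :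
    (0 : ℝ) < 2))).const_mul 8
  simpa using this

theorem integral_LQ_rho : ∫ y, LQ y * rho y = mm ^ 2 / 2 := by
  have h1 : Tendsto rho atBot (𝓝 0) :=
    squeeze_zero_norm' ((eventually_le_atBot 0).mono fun y hy => abs_rho_le hy)
      (tendsto_T7b tendsto_abs_atBot_atTop)
  have h2 : Tendsto rho atTop (𝓝 mm) := tendsto_sub_nhds_zero_iff.1
    (squeeze_zero_norm' ((eventually_ge_atTop 0).mono fun y hy => abs_rho_sub_le hy)
      (tendsto_T7b tendsto_abs_atTop_atTop))
  have h3 : IsPrim (fun y => 1 / 2 * (rho y * rho y)) (fun y => LQ y * rho y) :=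
    ((prim_T7b.mul prim_T7b).const_mul (1 / 2)).congr (fun _ => rfl) (fun y => by ring)
  rw [h3.integral_of_tendsto (expD_LQ.mul_bdd bdd_rho).integrable ((h1.mul h1).const_mul _)
    ((h2.mul h2).const_mul _)]
  ring
theorem integral_Q1_rho : ∫ y, Q1 y * rho y = 0 := by
  rw [isH1_Q.isPrim.ibp prim_T7b (expD_Q.mul_bdd bdd_rho).integrable
    (expD_Q1.mul_bdd bdd_rho).integrable (expD_Q.mul_bdd expD_LQ.bdd).integrable, integral_Q_LQ,
    neg_zero]
theorem test_rho_ph {r K : ℝ} (hr : 0 < r) (hK : 0 < K) (A : ℝ) :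
    Test (fun y => rho y - mm * ph r A K y) (fun y => LQ y - mm * ph1 r A K y)
      (fun y => LQ1 y - mm * ph2 r A K y) (fun y => LQ2 y - mm * ph3 r A K y) := by
  have e3 := expD_LQ2.sub ((expD_ph3 hr hK A).const_mul mm)
  refine ⟨⟨fun y => (hasDerivAt_rho y).sub ((hasDerivAt_ph r A K y).const_mul mm),
    fun y => (hasDerivAt_LQ y).sub ((hasDerivAt_ph1 r A K y).const_mul mm),
    fun y => (hasDerivAt_LQ1 y).sub ((hasDerivAt_ph2 r A K y).const_mul mm), e3.1⟩, ?_,
    expD_LQ.sub ((expD_ph1 hr hK A).const_mul mm),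
    expD_LQ1.sub ((expD_ph2 hr hK A).const_mul mm), e3⟩
  have e0 := ((ExpD.exp_neg_abs (c := 1 / 2) (by norm_num)).const_mul 8).add
    ((ExpD.exp_neg_abs (div_pos hr hK)).const_mul (|mm| * Real.exp (|A| / K)))
  refine e0.of_le (bdd_rho.sub ((bdd_ph r A K).const_mul mm)).1 1 fun y => ?_
  rw [one_mul, show 1 / 2 * |y| = |y| / 2 by ring, mul_assoc, ← Real.exp_add]
  refine le_trans ?_ (le_abs_self _)
  have hA1 : -A / K ≤ |A| / K := div_le_div_of_nonneg_right (neg_le_abs A) hK.le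
  have hA2 : A / K ≤ |A| / K := div_le_div_of_nonneg_right (le_abs_self A) hK.le
  rcases le_total y 0 with h | h
  · have h1 : ph r A K y ≤ Real.exp (|A| / K + -(r / K * |y|)) := by
      refine (P0_le_exp _).trans (Real.exp_le_exp.2 ?_)
      rw [abs_of_nonpos h, show (r * y - A) / K = -A / K + -(r / K * -y) by ring]
      linarith
    refine (abs_sub _ _).trans (add_le_add (abs_rho_le h) ?_)
    rw [abs_mul, abs_of_pos (ph_pos r A K y)]
    exact mul_le_mul_of_nonneg_left h1 (abs_nonneg _)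
  · have h1 : 1 - ph r A K y ≤ Real.exp (|A| / K + -(r / K * |y|)) := by
      refine (one_sub_P0_le_exp _).trans (Real.exp_le_exp.2 ?_)
      rw [abs_of_nonneg h, show -((r * y - A) / K) = A / K + -(r / K * y) by ring]
      linarith
    rw [show rho y - mm * ph r A K y = (rho y - mm) + mm * (1 - ph r A K y) by ring]
    refine (abs_add_le _ _).trans (add_le_add (abs_rho_sub_le h) ?_)
    rw [abs_mul, abs_of_pos (sub_pos.2 (ph_lt_one r A K y))]
    exact mul_le_mul_of_nonneg_left h1 (abs_nonneg _)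
/-- The basic integrable envelope. -/
theorem expD_env : ExpD (fun y => Real.exp (|y| / 10) * (1 + y ^ 2) * Q y) := by
  have e0 := ExpD.exp_neg_abs (c := 9 / 10) (by norm_num)
  have hQ := expD_Q.1
  refine (e0.add e0.id_mul.id_mul).of_le (by fun_prop) 2 fun y => ?_
  rw [abs_of_pos (env_pos_T7b y)]
  refine (env_le_T7b y).trans (mul_le_mul_of_nonneg_left ?_ (by norm_num))
  exact le_trans (le_of_eq (by ring)) (le_abs_self _)
theorem env_le (y : ℝ) : Real.exp (|y| / 10) * (1 + y ^ 2) * Q y ≤ 10 := by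
  refine (env_le_T7b y).trans ?_
  have h0 := abs_nonneg y
  have h1 := Real.quadratic_le_exp_of_nonneg (x := 9 / 10 * |y|) (by positivity)
  have h2 : 1 + y ^ 2 ≤ 5 * Real.exp (9 / 10 * |y|) := by
    rw [mul_pow, sq_abs] at h1
    nlinarith [sq_nonneg y]
  rw [Real.exp_neg, ← div_eq_mul_inv]
  have := (div_le_iff₀ (Real.exp_pos (9 / 10 * |y|))).2 h2
  linarith
theorem integral_env_le : ∫ y, Real.exp (|y| / 10) * (1 + y ^ 2) * Q y ≤ 20 := by
  have i1 := ((ExpD.exp_neg_abs (c := 6 / 10) (by norm_num)).const_mul (200 / 9)).integrable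
  have i2 := ((ExpD.exp_neg_abs (c := 12 / 10) (by norm_num)).const_mul (200 / 9)).integrable
  have i3 := ((ExpD.exp_neg_abs (c := 9 / 10) (by norm_num)).const_mul (382 / 9)).integrable
  have h : ∫ y, Real.exp (|y| / 10) * (1 + y ^ 2) * Q y ≤
      ∫ y : ℝ, (200 / 9 * Real.exp (-(6 / 10 * |y|)) + 200 / 9 * Real.exp (-(12 / 10 * |y|)) -
        382 / 9 * Real.exp (-(9 / 10 * |y|))) := by
    refine integral_mono expD_env.integrable ((i1.add i2).sub i3) fun y => ?_
    refine (env_le_T7b y).trans ?_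
    have h0 := abs_nonneg y
    have h1 := sq_le_T7b (x := 3 / 10 * |y|) (by positivity)
    rw [mul_pow, sq_abs] at h1
    have h2 : Real.exp (-(6 / 10 * |y|)) =
        Real.exp (3 / 10 * |y|) * Real.exp (-(9 / 10 * |y|)) := by
      rw [← Real.exp_add]
      congr 1
      ring
    have h3 : Real.exp (-(12 / 10 * |y|)) =
        Real.exp (-(3 / 10 * |y|)) * Real.exp (-(9 / 10 * |y|)) := by
      rw [← Real.exp_add]
      congr 1
      ring
    have h4 := mul_le_mul_of_nonneg_right h1 (Real.exp_pos (-(9 / 10 * |y|))).le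
    rw [h2, h3]
    linarith
  have i12 : Integrable (fun y : ℝ => 200 / 9 * Real.exp (-(6 / 10 * |y|)) +
      200 / 9 * Real.exp (-(12 / 10 * |y|))) := i1.add i2
  rw [integral_sub i12 i3, integral_add i1 i2, integral_const_mul, integral_const_mul,
    integral_const_mul, integral_exp_neg_abs (by norm_num), integral_exp_neg_abs (by norm_num),
    integral_exp_neg_abs (by norm_num)] at h
  refine h.trans (by norm_num)
theorem N0_nonneg (e : ℝ → ℝ) : 0 ≤ N0 e :=
  integral_nonneg fun y => mul_nonneg (Q_pos y).le (sq_nonneg _)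
/-- Linear terms localised near the soliton are controlled by `N0`. -/
theorem sq_integral_le_N0 {e g : ℝ → ℝ} (he : MemLp e 2 volume) (hg : Continuous g) {C : ℝ}
    (h : ∀ y, |g y| ≤ C * (Real.exp (|y| / 20) * (1 + |y|) * Q y)) :
    (∫ y, e y * g y) ^ 2 ≤ 40 * C ^ 2 * N0 e := by
  have k1 : ∀ y, g y ^ 2 / Q y ≤ 2 * C ^ 2 * (Real.exp (|y| / 10) * (1 + y ^ 2) * Q y) := by
    intro y
    have h1 : g y ^ 2 ≤ (C * (Real.exp (|y| / 20) * (1 + |y|) * Q y)) ^ 2 := by
      rw [← sq_abs (g y)]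
      exact pow_le_pow_left₀ (abs_nonneg _) (h y) 2
    have h2 : Real.exp (|y| / 20) ^ 2 = Real.exp (|y| / 10) := by
      rw [sq, ← Real.exp_add]
      congr 1
      ring
    have h3 : (1 + |y|) ^ 2 ≤ 2 * (1 + y ^ 2) := by
      nlinarith [sq_nonneg (1 - |y|), sq_abs y]
    rw [div_le_iff₀ (Q_pos y)]
    refine h1.trans ?_
    rw [mul_pow, mul_pow, mul_pow, h2]
    calc _ ≤ C ^ 2 * (Real.exp (|y| / 10) * (2 * (1 + y ^ 2)) * Q y ^ 2) := by gcongr
      _ = _ := by ring
  have e2 : ExpD fun y => g y ^ 2 / Q y :=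
    expD_env.of_le ((hg.pow 2).div expD_Q.1 fun y => (Q_pos y).ne') (2 * C ^ 2) fun y => by
      rw [abs_of_nonneg (div_nonneg (sq_nonneg _) (Q_pos y).le), abs_of_pos (env_pos_T7b y)]
      exact k1 y
  have e1 : ExpD g := expD_env.of_le hg (2 * |C|) fun y => by
    have h0 := abs_nonneg y
    have hQ := (Q_pos y).le
    have h3 : 1 + |y| ≤ 2 * (1 + y ^ 2) := by nlinarith [sq_nonneg (1 - |y|), sq_abs y]
    have h4 : Real.exp (|y| / 20) ≤ Real.exp (|y| / 10) := Real.exp_le_exp.2 (by linarith)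
    rw [abs_of_pos (env_pos_T7b y)]
    calc |g y| ≤ _ := h y
      _ ≤ |C| * (Real.exp (|y| / 10) * (2 * (1 + y ^ 2)) * Q y) := by
        gcongr
        exact le_abs_self C
      _ = _ := by ring
  have k2 : ∫ y, g y ^ 2 / Q y ≤ 40 * C ^ 2 := by
    refine (integral_mono e2.integrable (expD_env.const_mul _).integrable k1).trans ?_
    rw [integral_const_mul]
    nlinarith [integral_env_le, sq_nonneg C]
  refine (csd Q_pos (integrable_mul2 he e1.memLp)
    (integrable_bdd_mul (integrable_sq2 he) expD_Q.bdd) e2.integrable).trans ?_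
  rw [mul_comm]
  exact mul_le_mul_of_nonneg_right k2 (N0_nonneg e)
theorem mu_sq_le {e : ℝ → ℝ} (he : MemLp e 2 volume) : mu e ^ 2 ≤ 4 * N0 e := by
  have e0 : (fun y => Q y ^ 2 / Q y) = Q := by
    funext y
    rw [sq, mul_div_assoc, div_self (Q_pos y).ne', mul_one]
  have k2 : ∫ y, Q y ≤ 4 := by
    refine (integral_mono expD_Q.integrable
      ((ExpD.exp_neg_abs one_pos).const_mul 2).integrable fun y => ?_).trans ?_
    · simpa using Q_le_exp y
    · rw [integral_const_mul, integral_exp_neg_abs one_pos]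
      norm_num
  have h := csd Q_pos (integrable_mul2 he expD_Q.memLp)
    (integrable_bdd_mul (integrable_sq2 he) expD_Q.bdd) (by rw [e0]; exact expD_Q.integrable)
  rw [e0, mul_comm] at h
  exact h.trans (mul_le_mul_of_nonneg_right k2 (N0_nonneg e))

end Pool.Agent.MP_8339a4_an
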