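import Pool.Agent.MP_8339a4_an.T8a
import Pool.Agent.MP_8339a4_an.T5b

/-! API: Poincaré inequalities for the steps. -/

open MeasureTheory Filter Topology Set

namespace Pool.Agent.MP_8339a4_an

variable {z zy e ey : ℝ → ℝ} {L p r K : ℝ}

theorem iw_T8b (hr : 0 < r) (hK : 0 < K) (A : ℝ) {f : ℝ → ℝ} (hf : Bdd f) :
    Integrable fun y => ph1 r A K y * f y := ((expD_ph1 hr hK A).mul_bdd hf).integrable

theorem expD_T8b (hL : 0 < L) (p : ℝ) : ExpD fun y => Real.exp (-(|y - p| / L)) :=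
  ((ExpD.exp_neg_abs (inv_pos.2 hL)).comp_affine one_ne_zero (-p)).congr fun y => by
    rw [one_mul, ← sub_eq_add_neg, inv_mul_eq_div]

theorem arg_T8b (hr : 0 < r) (hK : 0 < K) (A y : ℝ) :
    |(r * y - A) / K| = |y - A / r| / (K / r) := by
  rw [← abs_of_pos (div_pos hK hr), ← abs_div]
  congr 1
  field_simp

theorem qf_nonneg (hr : 0 < r) (hK : 0 < K) (A : ℝ) (ey : ℝ → ℝ) : 0 ≤ qf r A K ey :=
  integral_nonneg fun y => mul_nonneg (ph1_pos hr hK A y).le (sq_nonneg _)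
theorem qK_nonneg (r A K : ℝ) (ey : ℝ → ℝ) : 0 ≤ qK r A K ey :=
  integral_nonneg fun y => mul_nonneg (ph_pos r A K y).le (sq_nonneg _)
theorem q6_nonneg (r A K : ℝ) (e : ℝ → ℝ) : 0 ≤ q6 r A K e :=
  integral_nonneg fun y => mul_nonneg (ph_pos r A K y).le (by positivity)
theorem qf_le_qK (hr : 0 < r) (hK : 0 < K) (A : ℝ) (h : MemLp ey 2 volume) :
    qf r A K ey ≤ r / K * qK r A K ey := by
  rw [qK, ← integral_const_mul]
  refine integral_mono (integrable_bdd_mul (integrable_sq2 h) (expD_ph1 hr hK A).bdd)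
    ((integrable_bdd_mul (integrable_sq2 h) (bdd_ph r A K)).const_mul _) fun y => ?_
  dsimp only
  rw [← mul_assoc]
  exact mul_le_mul_of_nonneg_right (ph1_le hr hK A y) (sq_nonneg _)
theorem abs_qa_le (hr : 0 < r) (hK : 0 < K) (A : ℝ) (hc : Continuous e) {δ : ℝ}
    (h : ∀ y, |e y| ≤ δ) : |qa r A K e| ≤ δ := by
  have h1 : ∫ y, δ * ph1 r A K y = δ := by rw [integral_const_mul, integral_ph1 hr hK, mul_one]
  refine abs_integral_le_integral_abs.trans (le_of_le_of_eq (integral_mono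
    ((expD_ph1 hr hK A).bdd_mul ⟨hc, δ, h⟩).integrable.abs
    ((expD_ph1 hr hK A).integrable.const_mul δ) fun y => ?_) h1)
  dsimp only
  rw [abs_mul, abs_of_pos (ph1_pos hr hK A y)]
  exact mul_le_mul_of_nonneg_right (h y) (ph1_pos hr hK A y).le

theorem expand_T8b (hr : 0 < r) (hK : 0 < K) (A : ℝ) (h : IsH1 e ey) (c : ℝ) :
    ∫ y, ph1 r A K y * (e y - c) ^ 2 =
      (∫ y, ph1 r A K y * e y ^ 2) - 2 * c * qa r A K e + c ^ 2 := by
  have i1 := iw_T8b hr hK A (h.bdd.pow 2)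
  have i2 := (((expD_ph1 hr hK A).bdd_mul h.bdd).integrable).const_mul (2 * c)
  have i3 := (expD_ph1 hr hK A).integrable.const_mul (c ^ 2)
  have i4 : Integrable fun y => ph1 r A K y * e y ^ 2 - 2 * c * (e y * ph1 r A K y) := i1.sub i2
  have e1 : ∀ y, ph1 r A K y * (e y - c) ^ 2 =
      ph1 r A K y * e y ^ 2 - 2 * c * (e y * ph1 r A K y) + c ^ 2 * ph1 r A K y := fun y => by ring
  simp only [e1]
  rw [integral_add i4 i3, integral_sub i1 i2, integral_const_mul, integral_const_mul,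
    integral_ph1 hr hK, mul_one, qa]

theorem qa_sq_le (hr : 0 < r) (hK : 0 < K) (A : ℝ) (h : IsH1 e ey) :
    qa r A K e ^ 2 ≤ ∫ y, ph1 r A K y * e y ^ 2 := by
  have h1 := expand_T8b hr hK A h (qa r A K e)
  have h2 : 0 ≤ ∫ y, ph1 r A K y * (e y - qa r A K e) ^ 2 :=
    integral_nonneg fun y => mul_nonneg (ph1_pos hr hK A y).le (sq_nonneg _)
  linarith

/-- Logistic Poincaré inequality, point form. -/
theorem poin_point (hr : 0 < r) (hK : 0 < K) (A : ℝ) (h : IsH1 e ey) :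
    ∫ y, ph1 r A K y * (e y - e (A / r)) ^ 2 ≤ 16 * (K / r) ^ 2 * qf r A K ey := by
  have hL := div_pos hK hr
  have hL' := div_pos hr hK
  have hE := expD_T8b hL (A / r)
  have b1 := (h.bdd.sub (Bdd.const (e (A / r)))).pow 2
  have i2 := integrable_bdd_mul (integrable_sq2 h.2.1) hE.bdd
  have h1 := expHardy (p := A / r) hL h.isPrim (hE.mul_bdd (h.bdd.pow 2)).integrable i2
  have h2 : ∫ y, ph1 r A K y * (e y - e (A / r)) ^ 2 ≤
      r / K * ∫ y, Real.exp (-(|y - A / r| / (K / r))) * (e y - e (A / r)) ^ 2 := by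
    rw [← integral_const_mul]
    refine integral_mono (iw_T8b hr hK A b1) ((hE.mul_bdd b1).integrable.const_mul _) fun y => ?_
    dsimp only
    rw [← mul_assoc, ← arg_T8b hr hK]
    exact mul_le_mul_of_nonneg_right (mul_le_mul_of_nonneg_left (P1_le_exp _) hL'.le) (sq_nonneg _)
  have h3 : r / K * ∫ y, Real.exp (-(|y - A / r| / (K / r))) * ey y ^ 2 ≤ 4 * qf r A K ey := by
    rw [qf, ← integral_const_mul, ← integral_const_mul]
    refine integral_mono (i2.const_mul _)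
      ((integrable_bdd_mul (integrable_sq2 h.2.1) (expD_ph1 hr hK A).bdd).const_mul _) fun y => ?_
    dsimp only
    rw [← mul_assoc, ← mul_assoc, ← arg_T8b hr hK]
    refine mul_le_mul_of_nonneg_right ?_ (sq_nonneg _)
    have := mul_le_mul_of_nonneg_left (exp_le_P1 ((r * y - A) / K)) hL'.le
    unfold ph1
    linarith
  have h4 := mul_le_mul_of_nonneg_left h1 hL'.le
  have h5 := mul_le_mul_of_nonneg_left h3 (by positivity : 0 ≤ 4 * (K / r) ^ 2)
  linarith
/-- Logistic Poincaré inequality, mean form. -/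
theorem poin_mean (hr : 0 < r) (hK : 0 < K) (A : ℝ) (h : IsH1 e ey) :
    ∫ y, ph1 r A K y * (e y - qa r A K e) ^ 2 ≤ 16 * (K / r) ^ 2 * qf r A K ey := by
  have h1 := poin_point hr hK A h
  rw [expand_T8b hr hK A h] at h1 ⊢
  nlinarith [sq_nonneg (e (A / r) - qa r A K e)]
theorem poin_sq (hr : 0 < r) (hK : 0 < K) (A : ℝ) (h : IsH1 e ey) :
    ∫ y, ph1 r A K y * e y ^ 2 ≤ qa r A K e ^ 2 + 16 * (K / r) ^ 2 * qf r A K ey := by
  have h1 := poin_mean hr hK A h
  rw [expand_T8b hr hK A h] at h1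
  linarith
theorem poin_val (hr : 0 < r) (hK : 0 < K) (A : ℝ) (h : IsH1 e ey) :
    e (A / r) ^ 2 ≤ 2 * qa r A K e ^ 2 + 32 * (K / r) ^ 2 * qf r A K ey := by
  have h1 := poin_point hr hK A h
  have h2 := qa_sq_le hr hK A h
  rw [expand_T8b hr hK A h] at h1
  nlinarith [sq_nonneg (e (A / r) - 2 * qa r A K e)]

theorem gen_T8b (hr : 0 < r) (hK : 0 < K) (A : ℝ) (h : IsH1 e ey) {f : ℝ → ℝ} (hf : Bdd f)
    {c1 c2 : ℝ} (h2 : 0 ≤ c2) (hle : ∀ y, f y ≤ c1 + c2 * (e y - qa r A K e) ^ 2) :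
    ∫ y, ph1 r A K y * f y ≤ c1 + c2 * (16 * (K / r) ^ 2 * qf r A K ey) := by
  have i1 := (expD_ph1 hr hK A).integrable.const_mul c1
  have i2 := (iw_T8b hr hK A ((h.bdd.sub (Bdd.const (qa r A K e))).pow 2)).const_mul c2
  have h3 := integral_mono (iw_T8b hr hK A hf) (i1.add i2) fun y => by
    have := mul_le_mul_of_nonneg_left (hle y) (ph1_pos hr hK A y).le
    simp only [Pi.add_apply]
    linarith
  simp only [Pi.add_apply] at h3
  rw [integral_add i1 i2, integral_const_mul, integral_const_mul, integral_ph1 hr hK] at h3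
  have := mul_le_mul_of_nonneg_left (poin_mean hr hK A h) h2
  linarith

theorem dev_T8b (hr : 0 < r) (hK : 0 < K) (A : ℝ) (h : IsH1 e ey) {δ : ℝ}
    (hδ : ∀ y, |e y| ≤ δ) (y : ℝ) : (e y - qa r A K e) ^ 2 ≤ 4 * δ ^ 2 := by
  have h1 := abs_le.1 (abs_qa_le hr hK A h.continuous hδ)
  have h2 := abs_le.1 (hδ y)
  have := sq_le_sq' (a := e y - qa r A K e) (b := 2 * δ) (by linarith) (by linarith)
  linarith

theorem poin_pow4 (hr : 0 < r) (hK : 0 < K) (A : ℝ) (h : IsH1 e ey) {δ : ℝ}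
    (hδ : ∀ y, |e y| ≤ δ) : ∫ y, ph1 r A K y * e y ^ 4
      ≤ 8 * qa r A K e ^ 4 + 512 * δ ^ 2 * (K / r) ^ 2 * qf r A K ey := by
  refine (gen_T8b hr hK A h (h.bdd.pow 4) (c1 := 8 * qa r A K e ^ 4) (c2 := 32 * δ ^ 2)
    (by positivity) fun y => ?_).trans_eq (by ring)
  have h1 := Even.add_pow_le (a := qa r A K e) (b := e y - qa r A K e) (n := 4) (by decide)
  have h2 := mul_le_mul_of_nonneg_right (dev_T8b hr hK A h hδ y) (sq_nonneg (e y - qa r A K e))
  rw [add_sub_cancel] at h1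
  norm_num at h1
  linarith
theorem poin_pow6 (hr : 0 < r) (hK : 0 < K) (A : ℝ) (h : IsH1 e ey) {δ : ℝ}
    (hδ : ∀ y, |e y| ≤ δ) : ∫ y, ph1 r A K y * e y ^ 6
      ≤ 32 * qa r A K e ^ 6 + 8192 * δ ^ 4 * (K / r) ^ 2 * qf r A K ey := by
  refine (gen_T8b hr hK A h (h.bdd.pow 6) (c1 := 32 * qa r A K e ^ 6) (c2 := 512 * δ ^ 4)
    (by positivity) fun y => ?_).trans_eq (by ring)
  have h1 := Even.add_pow_le (a := qa r A K e) (b := e y - qa r A K e) (n := 6) (by decide)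
  have h2 := mul_le_mul_of_nonneg_right
    (pow_le_pow_left₀ (sq_nonneg _) (dev_T8b hr hK A h hδ y) 2) (sq_nonneg (e y - qa r A K e))
  rw [add_sub_cancel] at h1
  norm_num at h1
  linarith

theorem hardy_T8b (hr : 0 < r) (hK : 0 < K) (hL : 0 < L) (A : ℝ) (h : IsH1 e ey) :
    IntegrableOn (fun y => Real.exp (-((y - A / r) / L)) * (e y - e (A / r)) ^ 2) (Ioi (A / r)) ∧
    ∫ y in Ioi (A / r), Real.exp (-((y - A / r) / L)) * (e y - e (A / r)) ^ 2 ≤
      8 * L ^ 2 * qK r A K ey := by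
  have hE := expD_T8b hL (A / r)
  have key : ∀ f : ℝ → ℝ, Integrable (fun y => Real.exp (-(|y - A / r| / L)) * f y) →
      IntegrableOn (fun y => Real.exp (-((y - A / r) / L)) * f y) (Ioi (A / r)) := fun f hf =>
    hf.integrableOn.congr_fun (fun y hy => by
      dsimp only
      rw [abs_of_pos (sub_pos.2 hy)]) measurableSet_Ioi
  have i2 := key _ (integrable_bdd_mul (integrable_sq2 h.2.1) hE.bdd)
  have i3 := (integrable_bdd_mul (integrable_sq2 h.2.1) (bdd_ph r A K)).const_mul 2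
  refine ⟨key _ (hE.mul_bdd ((h.bdd.sub (Bdd.const (e (A / r)))).pow 2)).integrable, ?_⟩
  have h1 := expHardy_Ioi (p := A / r) hL h.isPrim
    (key _ (hE.mul_bdd (h.bdd.pow 2)).integrable) i2
  have h2 : ∫ y in Ioi (A / r), Real.exp (-((y - A / r) / L)) * ey y ^ 2 ≤ 2 * qK r A K ey := by
    rw [qK, ← integral_const_mul]
    refine (setIntegral_mono_on i2 i3.integrableOn measurableSet_Ioi fun y hy => ?_).trans
      (setIntegral_le_integral i3 (Eventually.of_forall fun y =>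
        mul_nonneg zero_le_two (mul_nonneg (ph_pos r A K y).le (sq_nonneg _))))
    rw [← mul_assoc]
    refine mul_le_mul_of_nonneg_right ?_ (sq_nonneg _)
    have t1 : A < y * r := (div_lt_iff₀ hr).1 hy
    have t2 : 1 / 2 ≤ ph r A K y := half_le_P0 (div_nonneg (by linarith) hK.le)
    have t3 : Real.exp (-((y - A / r) / L)) ≤ 1 :=
      Real.exp_le_one_iff.2 (neg_nonpos.2 (div_nonneg (sub_pos.2 hy).le hL.le))
    linarith
  have h3 := mul_le_mul_of_nonneg_left h2 (by positivity : 0 ≤ 4 * L ^ 2)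
  linarith

theorem zpt_T8b (hr : 0 < r) (hK : 0 < K) (hL : 0 < L) (A : ℝ) (e : ℝ → ℝ) (c y : ℝ) :
    ph r A K y * P1 ((r * y - A) / L) * e y ^ 2 ≤ K / r / 2 * (ph1 r A K y * e y ^ 2) +
      2 * c ^ 2 * (L / r) * ph1 r A L y + 2 * (Ioi (A / r)).indicator
        (fun y => Real.exp (-((y - A / r) / (L / r))) * (e y - c) ^ 2) y := by
  have p1 := ph_pos r A K y
  have p2 := ph_lt_one r A K y
  have p3 := P1_pos ((r * y - A) / L)
  have p4 := ph1_pos hr hK A y
  have p5 := sq_nonneg (e y)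
  have e1 : 2 * c ^ 2 * (L / r) * ph1 r A L y = 2 * c ^ 2 * P1 ((r * y - A) / L) := by
    unfold ph1; field_simp
  rw [e1]
  by_cases hy : y ∈ Ioi (A / r)
  · rw [indicator_of_mem hy]
    have t1 := P1_le_exp ((r * y - A) / L)
    rw [arg_T8b hr hL, abs_of_pos (sub_pos.2 hy)] at t1
    have t2 := mul_le_mul_of_nonneg_right t1 (sq_nonneg (e y - c))
    have t3 : 0 ≤ K / r / 2 * (ph1 r A K y * e y ^ 2) := by positivity
    have t4 : e y ^ 2 ≤ 2 * c ^ 2 + 2 * (e y - c) ^ 2 := by nlinarith [sq_nonneg (e y - 2 * c)]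
    have t5 := mul_le_mul_of_nonneg_left t4 p3.le
    have t6 := mul_le_mul_of_nonneg_right p2.le (mul_nonneg p3.le p5)
    linarith
  · rw [indicator_of_notMem hy]
    have t1 : y * r ≤ A := (le_div_iff₀ hr).1 (not_lt.1 hy)
    have t2 : ph r A K y ≤ 1 / 2 :=
      P0_le_half (div_nonpos_of_nonpos_of_nonneg (by linarith) hK.le)
    have t3 : K / r / 2 * (ph1 r A K y * e y ^ 2) =
        ph r A K y * ((1 - ph r A K y) / 2) * e y ^ 2 := by
      rw [ph1_eq]; field_simp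
    have t4 : ph r A K y * P1 ((r * y - A) / L) * e y ^ 2 ≤
        ph r A K y * ((1 - ph r A K y) / 2) * e y ^ 2 :=
      mul_le_mul_of_nonneg_right (mul_le_mul_of_nonneg_left
        (by linarith [P1_le_quarter ((r * y - A) / L)]) p1.le) p5
    have t5 : 0 ≤ 2 * c ^ 2 * P1 ((r * y - A) / L) := by positivity
    linarith

/-- Mass on the right of the step, in a window of size `L`. -/
theorem zlem {r0 r1 : ℝ} (h0 : 0 < r0) (hK : 0 < K) (hL : 0 < L) : ∃ C : ℝ, 0 ≤ C ∧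
    ∀ (r A : ℝ) (e ey : ℝ → ℝ), r0 ≤ r → r ≤ r1 → IsH1 e ey →
      ∫ y, ph r A K y * P1 ((r * y - A) / L) * e y ^ 2
        ≤ C * (qa r A K e ^ 2 + qK r A K ey) := by
  refine ⟨K / r0 / 2 + 4 * (L / r0) + (8 * (K / r0) ^ 2 + 64 * (L / r0 * (K / r0)) +
    16 * (L / r0) ^ 2), by positivity, fun r A e ey hr0 _ h => ?_⟩
  have hr : 0 < r := h0.trans_le hr0
  have hk := div_pos hK hr
  have hl := div_pos hL hr
  have k1 : K / r ≤ K / r0 := div_le_div_of_nonneg_left hK.le h0 hr0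
  have l1 : L / r ≤ L / r0 := div_le_div_of_nonneg_left hL.le h0 hr0
  obtain ⟨j3, h3⟩ := hardy_T8b hr hK hl A h
  have i1 := (iw_T8b hr hK A (h.bdd.pow 2)).const_mul (K / r / 2)
  have i2 := (expD_ph1 hr hL A).integrable.const_mul (2 * e (A / r) ^ 2 * (L / r))
  have i3 := (j3.integrable_indicator measurableSet_Ioi).const_mul 2
  have i4 : Integrable fun y => K / r / 2 * (ph1 r A K y * e y ^ 2) +
      2 * e (A / r) ^ 2 * (L / r) * ph1 r A L y := i1.add i2
  have h4 := integral_mono_of_nonneg (Eventually.of_forall fun y => mul_nonneg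
    (mul_nonneg (ph_pos r A K y).le (P1_pos ((r * y - A) / L)).le) (sq_nonneg (e y))) (i4.add i3)
    (Eventually.of_forall fun y => zpt_T8b hr hK hL A e (e (A / r)) y)
  simp only [Pi.add_apply] at h4
  rw [integral_add i4 i3, integral_add i1 i2, integral_const_mul, integral_const_mul,
    integral_const_mul, integral_ph1 hr hL, integral_indicator measurableSet_Ioi] at h4
  have q0 := qK_nonneg r A K ey
  have a0 := sq_nonneg (qa r A K e)
  have h5 : (K / r) ^ 2 * qf r A K ey ≤ K / r * qK r A K ey := by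
    refine (mul_le_mul_of_nonneg_left (qf_le_qK hr hK A h.2.1) (sq_nonneg _)).trans_eq ?_
    field_simp
  have h6 : ∫ y, ph1 r A K y * e y ^ 2 ≤ qa r A K e ^ 2 + 16 * (K / r * qK r A K ey) := by
    linarith [poin_sq hr hK A h]
  have h7 : e (A / r) ^ 2 ≤ 2 * qa r A K e ^ 2 + 32 * (K / r * qK r A K ey) := by
    linarith [poin_val hr hK A h]
  have h8 := mul_le_mul_of_nonneg_left h6 hk.le
  have h9 := mul_le_mul_of_nonneg_left h7 hl.le
  have g1 := mul_le_mul_of_nonneg_right k1 a0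
  have g2 := mul_le_mul_of_nonneg_right l1 a0
  have g3 := mul_le_mul_of_nonneg_right (pow_le_pow_left₀ hk.le k1 2) q0
  have g4 := mul_le_mul_of_nonneg_right (pow_le_pow_left₀ hl.le l1 2) q0
  have g5 := mul_le_mul_of_nonneg_right (mul_le_mul l1 k1 hk.le (hl.le.trans l1)) q0
  have g6 : 0 ≤ (K / r0 / 2 + 4 * (L / r0)) * qK r A K ey := by positivity
  have g7 : 0 ≤ (8 * (K / r0) ^ 2 + 64 * (L / r0 * (K / r0)) + 16 * (L / r0) ^ 2) *
    qa r A K e ^ 2 := by positivity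
  linarith

end Pool.Agent.MP_8339a4_an
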