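import Pool.Agent.MP_8339a4_an.If
import Pool.Agent.MP_8339a4_an.T3b
import Pool.Agent.MP_8339a4_an.T7b
import Pool.Agent.MP_8339a4_an.T8b
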