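import Pool.Agent.MP_8339a4_an.EA

/-! The bound on `J_R` and `J_L`. -/

open MeasureTheory Filter Topology Set

namespace Pool.Agent.MP_8339a4_an

/-- A quantity at most `1` and at most `exp ((A - r0 u)/K)` is dominated by one exponential. -/
theorem min_le_BdJ {r0 A K u m : ℝ} (_h0 : 0 < r0) (hA : 0 ≤ A) (hK : 0 < K)
    (h : (m ≤ 1 ∧ r0 * u ≤ A) ∨ (m ≤ Real.exp ((A - r0 * u) / K) ∧ A ≤ r0 * u)) :
    m ≤ 3 * Real.exp (-(r0 / (A + K) * u)) := by
  have hT : 0 < A + K := by linarith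
  have e3 : Real.exp 1 ≤ 3 := by
    have := Real.exp_one_lt_d9
    linarith
  have key : m ≤ Real.exp (1 + -(r0 / (A + K) * u)) := by
    rcases h with ⟨h1, h2⟩ | ⟨h1, h2⟩
    · refine h1.trans (Real.one_le_exp ?_)
      have : r0 / (A + K) * u ≤ 1 := by
        rw [div_mul_eq_mul_div, div_le_one hT]
        linarith
      linarith
    · refine h1.trans (Real.exp_le_exp.2 ?_)
      have e : 1 + -(r0 / (A + K) * u) = (A + K - r0 * u) / (A + K) := by
        field_simp
        ring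
      rw [e, div_le_div_iff₀ hK hT]
      nlinarith [mul_nonneg hA (sub_nonneg.2 h2), sq_nonneg K]
  rw [Real.exp_add] at key
  exact key.trans (mul_le_mul_of_nonneg_right e3 (Real.exp_pos _).le)

theorem ph_anti_BdJ {r K A A' : ℝ} (hK : 0 < K) (h : A ≤ A') (y : ℝ) :
    ph r A' K y ≤ ph r A K y := by
  unfold ph
  apply P0_mono
  apply div_le_div_of_nonneg_right _ hK.le
  linarith

theorem env_BdJ {r A K B : ℝ} (h : WP r A K B) (y : ℝ) {t : ℝ}
    (ht : |t| ≤ 8 * Real.exp (-(|y| / 2))) :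
    t ^ 2 ≤ 256 * Real.exp (-(1 / 2 * |y|)) * pM r A K B y := by
  have h1 := h.pM_env y
  have h2 : t ^ 2 ≤ (8 * Real.exp (-(|y| / 2))) ^ 2 := by
    rw [← sq_abs t]
    exact pow_le_pow_left₀ (abs_nonneg t) ht 2
  have h3 : (8 * Real.exp (-(|y| / 2))) ^ 2
      ≤ 256 * Real.exp (-(1 / 2 * |y|)) * (Real.exp (-(|y| / 100)) / 4) := by
    have e1 : (8 * Real.exp (-(|y| / 2))) ^ 2 = 64 * Real.exp (-(|y| / 2) + -(|y| / 2)) := by
      rw [Real.exp_add]; ring
    have e2 : 256 * Real.exp (-(1 / 2 * |y|)) * (Real.exp (-(|y| / 100)) / 4)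
        = 64 * Real.exp (-(1 / 2 * |y|) + -(|y| / 100)) := by
      rw [Real.exp_add]; ring
    rw [e1, e2]
    have := abs_nonneg y
    have : Real.exp (-(|y| / 2) + -(|y| / 2)) ≤ Real.exp (-(1 / 2 * |y|) + -(|y| / 100)) :=
      Real.exp_le_exp.2 (by linarith)
    linarith
  have h4 : 256 * Real.exp (-(1 / 2 * |y|)) * (Real.exp (-(|y| / 100)) / 4)
      ≤ 256 * Real.exp (-(1 / 2 * |y|)) * pM r A K B y :=
    mul_le_mul_of_nonneg_left h1 (by positivity)
  linarith

theorem left_BdJ {r A K B r0 : ℝ} (h : WP r A K B) (h0 : 0 < r0) (hr : r0 ≤ r) {y : ℝ}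
    (hy : y ≤ 0) : ph r (-A) K y ^ 2
      ≤ 12 * Real.exp (A / B) * Real.exp (-(r0 / (A + K) * |y|)) * pM r A K B y := by
  have hK := h.K_pos
  have hB := h.B_pos
  have hA := h.hA
  have hr0 := h.hr
  have hry : r * y ≤ 0 := mul_nonpos_of_nonneg_of_nonpos hr0.le hy
  have h1 := h.pM_left (y := y) (by linarith)
  have hy' : |y| = -y := abs_of_nonpos hy
  have hp := ph_pos r (-A) K y
  have hp1 := ph_lt_one r (-A) K y
  have hrr : r * y ≤ r0 * y := by nlinarith
  -- the quantity to be bounded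
  have key : ph r (-A) K y ^ 2 * Real.exp (-((r * y + A) / B))
      ≤ 3 * Real.exp (-(r0 / (A + K) * |y|)) := by
    rcases le_total 0 (r * y + A) with hx | hx
    · refine min_le_BdJ h0 hA hK (Or.inl ⟨?_, by rw [hy']; linarith⟩)
      have a1 : Real.exp (-((r * y + A) / B)) ≤ 1 :=
        Real.exp_le_one_iff.2 (by have := div_nonneg hx hB.le; linarith)
      have a2 : ph r (-A) K y ^ 2 ≤ 1 := by nlinarith
      exact mul_le_one₀ a2 (Real.exp_pos _).le a1
    · have a1 : ph r (-A) K y ≤ Real.exp ((r * y + A) / K) := by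
        have := P0_le_exp ((r * y - -A) / K)
        rw [sub_neg_eq_add] at this
        unfold ph
        rw [sub_neg_eq_add]
        exact this
      have a2 : -((r * y + A) / B) ≤ -((r * y + A) / K) := by
        rw [← neg_div, ← neg_div]
        exact div_le_div_of_nonneg_left (by linarith) hK (by have := h.hB; linarith)
      have a3 : ph r (-A) K y ^ 2 * Real.exp (-((r * y + A) / B)) ≤ Real.exp ((r * y + A) / K) := by
        calc ph r (-A) K y ^ 2 * Real.exp (-((r * y + A) / B))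
            ≤ Real.exp ((r * y + A) / K) ^ 2 * Real.exp (-((r * y + A) / K)) :=
              mul_le_mul (pow_le_pow_left₀ hp.le a1 2) (Real.exp_le_exp.2 a2)
                (Real.exp_pos _).le (by positivity)
          _ = Real.exp ((r * y + A) / K) := by
              rw [Real.exp_neg]
              field_simp
      rcases le_total (r0 * |y|) A with hz | hz
      · refine min_le_BdJ h0 hA hK (Or.inl ⟨a3.trans ?_, hz⟩)
        exact Real.exp_le_one_iff.2 (div_nonpos_of_nonpos_of_nonneg hx hK.le)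
      · refine min_le_BdJ h0 hA hK (Or.inr ⟨a3.trans (Real.exp_le_exp.2 ?_), hz⟩)
        apply div_le_div_of_nonneg_right _ hK.le
        rw [hy']
        linarith
  have e1 : Real.exp (-((r * y + A) / B)) * (Real.exp (A / B) * Real.exp (r * y / B)) = 1 := by
    rw [← Real.exp_add, ← Real.exp_add, Real.exp_eq_one_iff]
    ring
  calc ph r (-A) K y ^ 2
      = ph r (-A) K y ^ 2 * Real.exp (-((r * y + A) / B))
        * (Real.exp (A / B) * Real.exp (r * y / B)) := by rw [mul_assoc, e1, mul_one]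
    _ ≤ 3 * Real.exp (-(r0 / (A + K) * |y|)) * (Real.exp (A / B) * (4 * pM r A K B y)) := by
        refine mul_le_mul key ?_ (by positivity) (by positivity)
        exact mul_le_mul_of_nonneg_left (by linarith) (Real.exp_pos _).le
    _ = _ := by ring

theorem right_BdJ {r A K B r0 : ℝ} (h : WP r A K B) (h0 : 0 < r0) (hr : r0 ≤ r) {y : ℝ}
    (hy : 0 ≤ y) : (1 - ph r A K y) ^ 2
      ≤ 12 * Real.exp (A / B) * Real.exp (-(r0 / (A + K) * |y|)) * pM r A K B y := by
  have hK := h.K_pos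
  have hB := h.B_pos
  have hA := h.hA
  have hy' : |y| = y := abs_of_nonneg hy
  have hp := ph_pos r A K y
  have hp1 := ph_lt_one r A K y
  have hW := h.half_le_WW hy
  have hrr : r0 * y ≤ r * y := mul_le_mul_of_nonneg_right hr hy
  have key : 1 - ph r A K y ≤ 3 * Real.exp (-(r0 / (A + K) * |y|)) := by
    rcases le_total (r0 * |y|) A with hz | hz
    · exact min_le_BdJ h0 hA hK (Or.inl ⟨by linarith, hz⟩)
    · refine min_le_BdJ h0 hA hK (Or.inr ⟨(one_sub_P0_le_exp _).trans (Real.exp_le_exp.2 ?_), hz⟩)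
      rw [← neg_div]
      apply div_le_div_of_nonneg_right _ hK.le
      rw [hy']
      linarith
  have e1 : 1 ≤ Real.exp (A / B) := Real.one_le_exp (div_nonneg hA hB.le)
  have e2 : 1 - ph r A K y ≤ 2 * pM r A K B y := by
    unfold pM
    nlinarith
  have hpM := pM_pos r A K B y
  have hE := Real.exp_pos (-(r0 / (A + K) * |y|))
  calc (1 - ph r A K y) ^ 2 = (1 - ph r A K y) * (1 - ph r A K y) := sq _
    _ ≤ 3 * Real.exp (-(r0 / (A + K) * |y|)) * (2 * pM r A K B y) :=
        mul_le_mul key e2 (by linarith) (by positivity)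
    _ ≤ _ := by nlinarith [mul_pos hE hpM]

theorem pt_BdJ {r A K B r0 A' : ℝ} (h : WP r A K B) (h0 : 0 < r0) (hr : r0 ≤ r)
    (h1 : -A ≤ A') (h2 : A' ≤ A) (y : ℝ) :
    (rho y - mm * ph r A' K y) ^ 2 / pM r A K B y ≤ 512 * Real.exp (-(1 / 2 * |y|))
      + 24 * mm ^ 2 * Real.exp (A / B) * Real.exp (-(r0 / (A + K) * |y|)) := by
  have hK := h.K_pos
  have hpM := pM_pos r A K B y
  rw [div_le_iff₀ hpM]
  have hp := ph_pos r A' K y
  have hp1 := ph_lt_one r A' K y
  rcases le_total y 0 with hy | hy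
  · have a1 := env_BdJ h y (abs_rho_le hy)
    have a2 := left_BdJ h h0 hr hy
    have a3 : ph r A' K y ^ 2 ≤ ph r (-A) K y ^ 2 :=
      pow_le_pow_left₀ hp.le (ph_anti_BdJ hK h1 y) 2
    have a4 := mul_le_mul_of_nonneg_left (a3.trans a2) (sq_nonneg mm)
    nlinarith [sq_nonneg (rho y + mm * ph r A' K y)]
  · have a1 := env_BdJ h y (abs_rho_sub_le hy)
    have a2 := right_BdJ h h0 hr hy
    have a3 : (1 - ph r A' K y) ^ 2 ≤ (1 - ph r A K y) ^ 2 :=
      pow_le_pow_left₀ (by linarith) (by have := ph_anti_BdJ (r := r) hK h2 y; linarith) 2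
    have a4 := mul_le_mul_of_nonneg_left (a3.trans a2) (sq_nonneg mm)
    nlinarith [sq_nonneg ((rho y - mm) - mm * (1 - ph r A' K y))]

theorem static_BdJ {r A K B r0 A' : ℝ} (h : WP r A K B) (h0 : 0 < r0) (hr : r0 ≤ r)
    (h1 : -A ≤ A') (h2 : A' ≤ A) {e ey : ℝ → ℝ} (he : IsH1 e ey) :
    qJ r A' K e ^ 2 ≤ (2048 + 48 * mm ^ 2 * ((1 + K) / r0))
      * (Real.exp (2 * (A / B)) * (1 + A) ^ 2) * qD r A K B e ey := by
  have hK := h.K_pos
  have hB := h.B_pos
  have hA := h.hA
  have hT : 0 < A + K := by linarith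
  have hc : 0 < r0 / (A + K) := div_pos h0 hT
  have t := test_rho_ph h.hr hK A'
  have j1 := (ExpD.exp_neg_abs (c := 1 / 2) (by norm_num)).integrable
  have j2 := (ExpD.exp_neg_abs hc).integrable
  have j3 := (j1.const_mul 512).add (j2.const_mul (24 * mm ^ 2 * Real.exp (A / B)))
  have i0 : Integrable (fun y => e y * (rho y - mm * ph r A' K y)) :=
    integrable_mul2 he.1 t.e0.memLp
  have i1 : Integrable (fun y => pM r A K B y * e y ^ 2) :=
    integrable_bdd_mul (integrable_sq2 he.1) (bdd_pM r A K B)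
  have i1' : Integrable (fun y => pM r A K B y * (e y ^ 2 + ey y ^ 2)) :=
    integrable_bdd_mul ((integrable_sq2 he.1).add (integrable_sq2 he.2.1)) (bdd_pM r A K B)
  have i2 : Integrable (fun y => (rho y - mm * ph r A' K y) ^ 2 / pM r A K B y) := by
    refine j3.mono' ?_ (Eventually.of_forall fun y => ?_)
    · exact ((t.e0.1.pow 2).div (bdd_pM r A K B).1
        (fun y => (pM_pos r A K B y).ne')).aestronglyMeasurable
    · rw [Real.norm_eq_abs, abs_of_nonneg (div_nonneg (sq_nonneg _) (pM_pos r A K B y).le)]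
      exact pt_BdJ h h0 hr h1 h2 y
  have c1 := csd (w := pM r A K B) (f := e) (g := fun y => rho y - mm * ph r A' K y)
    (pM_pos r A K B) i0 i1 i2
  have c2 : ∫ y, pM r A K B y * e y ^ 2 ≤ qD r A K B e ey := by
    refine integral_mono i1 i1' fun y => ?_
    have := mul_nonneg (pM_pos r A K B y).le (sq_nonneg (ey y))
    simp only
    linarith
  have c3 : ∫ y, (rho y - mm * ph r A' K y) ^ 2 / pM r A K B y
      ≤ 2048 + 48 * mm ^ 2 * Real.exp (A / B) * ((A + K) / r0) := by
    refine (integral_mono i2 j3 (pt_BdJ h h0 hr h1 h2)).trans (le_of_eq ?_)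
    have := integral_add (j1.const_mul 512) (j2.const_mul (24 * mm ^ 2 * Real.exp (A / B)))
    simp only [Pi.add_apply]
    rw [this, integral_const_mul, integral_const_mul, integral_exp_neg_abs (by norm_num),
      integral_exp_neg_abs hc]
    field_simp
    ring
  have e1 : 1 ≤ Real.exp (A / B) := Real.one_le_exp (div_nonneg hA hB.le)
  have e2 : Real.exp (A / B) ≤ Real.exp (2 * (A / B)) :=
    Real.exp_le_exp.2 (by have := div_nonneg hA hB.le; linarith)
  have e3 : (A + K) / r0 ≤ (1 + K) / r0 * (1 + A) ^ 2 := by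
    rw [div_mul_eq_mul_div]
    apply div_le_div_of_nonneg_right _ h0.le
    nlinarith [mul_nonneg hA hK.le, sq_nonneg A, mul_nonneg hK.le (sq_nonneg A)]
  have e4 : 1 ≤ Real.exp (2 * (A / B)) * (1 + A) ^ 2 :=
    one_le_mul_of_one_le_of_one_le (e1.trans e2) (by nlinarith)
  have e5 : Real.exp (A / B) * ((A + K) / r0)
      ≤ Real.exp (2 * (A / B)) * ((1 + K) / r0 * (1 + A) ^ 2) :=
    mul_le_mul e2 e3 (by positivity) (by positivity)
  have c4 : 2048 + 48 * mm ^ 2 * Real.exp (A / B) * ((A + K) / r0)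
      ≤ (2048 + 48 * mm ^ 2 * ((1 + K) / r0)) * (Real.exp (2 * (A / B)) * (1 + A) ^ 2) := by
    have := mul_le_mul_of_nonneg_left e5 (sq_nonneg mm)
    nlinarith
  have n1 : 0 ≤ ∫ y, (rho y - mm * ph r A' K y) ^ 2 / pM r A K B y :=
    integral_nonneg fun y => div_nonneg (sq_nonneg _) (pM_pos r A K B y).le
  have n2 := qD_nonneg r A K B e ey
  unfold qJ
  refine c1.trans ?_
  rw [mul_comm _ (qD r A K B e ey)]
  exact mul_le_mul c2 (c3.trans c4) n1 n2

theorem bdJ : BdJStmt := by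
  intro X B hB
  obtain ⟨C, hC0, hC⟩ := X.exp_log_le_Lm hB
  refine ⟨2 * ((2048 + 48 * mm ^ 2 * ((1 + X.K) / X.r0)) * C), ?_⟩
  filter_upwards [X.ev_gt] with s hs
  have hw := X.wp hs hB
  have hA := hw.hA
  have hK := X.K_pos
  have h0 := X.r0_pos
  have a1 := static_BdJ hw h0 (X.r_ge hs) (A' := X.A s) (by linarith) le_rfl (X.h1 hs)
  have a2 := static_BdJ hw h0 (X.r_ge hs) (A' := -X.A s) le_rfl (by linarith) (X.h1 hs)
  have a3 := hC s (X.one_lt hs).le
  have n2 := X.D_nonneg B s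
  have a4 : (2048 + 48 * mm ^ 2 * ((1 + X.K) / X.r0))
      * (Real.exp (2 * (X.A s / B)) * (1 + X.A s) ^ 2) * X.D B s
      ≤ (2048 + 48 * mm ^ 2 * ((1 + X.K) / X.r0)) * (C * Lm s) * X.D B s :=
    mul_le_mul_of_nonneg_right (mul_le_mul_of_nonneg_left a3 (by positivity)) n2
  unfold Dat.JR Dat.JL
  unfold Dat.D at a4 ⊢
  nlinarith

end Pool.Agent.MP_8339a4_an
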