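import Pool.Agent.MP_8339a4_an.EA

/-! Static bounds on `D`, `MM - 2 μ` and `Nw`. -/

open MeasureTheory Filter Topology Set

namespace Pool.Agent.MP_8339a4_an

theorem intD_BdM (r A K B : ℝ) {e ey : ℝ → ℝ} (he : IsH1 e ey) :
    Integrable (fun y => pM r A K B y * (e y ^ 2 + ey y ^ 2)) :=
  integrable_bdd_mul ((integrable_sq2 he.1).add (integrable_sq2 he.2.1)) (bdd_pM r A K B)

theorem qD_le_BdM (r A K B : ℝ) {e ey : ℝ → ℝ} (he : IsH1 e ey) :
    qD r A K B e ey ≤ Real.exp (A / B) * ((∫ y, e y ^ 2) + ∫ y, ey y ^ 2) := by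
  have i1 := integrable_sq2 he.1
  have i2 := integrable_sq2 he.2.1
  rw [← integral_add i1 i2, ← integral_const_mul]
  refine integral_mono (intD_BdM r A K B he) ((i1.add i2).const_mul _) fun y => ?_
  exact mul_le_mul_of_nonneg_right ((pM_le_WW r A K B y).trans (WW_le r A B y)) (by positivity)

theorem tiny_BdM {r A K B : ℝ} (h : WP r A K B) (y : ℝ) {e : ℝ} (he : |e| ≤ 1) :
    |((Q y + e) ^ 2 - e ^ 2) * (ph r (-A) K y - ph r A K y - 1)|
      ≤ 8 * Real.exp (-(A / K)) * (Real.exp (|y| / 10) * (1 + y ^ 2) * Q y) := by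
  have h1 := abs_sq_sub_le y he
  have h2 := ph_le_tiny h.hr h.hK A y
  have h3 := one_sub_chi_le_tiny h.hr h.hK A y
  have h4 := ph_pos r A K y
  have h5 := ph_lt_one r (-A) K y
  have hq := Q_pos y
  have hE := Real.exp_pos (-(A / K))
  have h6 : Real.exp (|y| / 100) ≤ Real.exp (|y| / 10) * (1 + y ^ 2) := by
    have a1 : Real.exp (|y| / 100) ≤ Real.exp (|y| / 10) :=
      Real.exp_le_exp.mpr (by have := abs_nonneg y; linarith)
    have a2 := Real.exp_pos (|y| / 10)
    nlinarith [sq_nonneg y]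
  have h7 : |ph r (-A) K y - ph r A K y - 1|
      ≤ 2 * (Real.exp (-(A / K)) * (Real.exp (|y| / 10) * (1 + y ^ 2))) := by
    have a3 := mul_le_mul_of_nonneg_left h6 hE.le
    rw [abs_le]
    constructor <;> linarith
  rw [abs_mul]
  calc |(Q y + e) ^ 2 - e ^ 2| * |ph r (-A) K y - ph r A K y - 1|
      ≤ (4 * Q y) * (2 * (Real.exp (-(A / K)) * (Real.exp (|y| / 10) * (1 + y ^ 2)))) :=
        mul_le_mul h1 h7 (abs_nonneg _) (by positivity)
    _ = _ := by ring

theorem qM_BdM {r A K B : ℝ} (h : WP r A K B) {e ey : ℝ → ℝ} (he : IsH1 e ey)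
    (h1 : ∀ y, |e y| ≤ 1) :
    |qM r A K e - 2 * mu e|
      ≤ 4 * Real.exp (A / B) * qD r A K B e ey + 160 * Real.exp (-(A / K)) := by
  have bw : Bdd (fun y => ph r (-A) K y - ph r A K y) := (bdd_ph r (-A) K).sub (bdd_ph r A K)
  have bw1 : Bdd (fun y => ph r (-A) K y - ph r A K y - 1) := bw.sub (Bdd.const 1)
  have iU : Integrable (fun y => (Q y + e y) ^ 2) := integrable_sq2 (isH1_Q.add he).1
  have ie : Integrable (fun y => e y ^ 2) := integrable_sq2 he.1
  have iQ : Integrable (fun y => Q y ^ 2) := integrable_sq2 expD_Q.memLp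
  have ieQ : Integrable (fun y => e y * Q y) := integrable_mul2 he.1 expD_Q.memLp
  have j0 := integrable_mul_bdd iU bw
  have j1 := integrable_mul_bdd ie bw
  have j2 : Integrable (fun y => ((Q y + e y) ^ 2 - e y ^ 2)
      * (ph r (-A) K y - ph r A K y - 1)) := integrable_mul_bdd (iU.sub ie) bw1
  have key : qM r A K e - 2 * mu e = (∫ y, e y ^ 2 * (ph r (-A) K y - ph r A K y))
      + ∫ y, ((Q y + e y) ^ 2 - e y ^ 2) * (ph r (-A) K y - ph r A K y - 1) := by
    have j3 : Integrable (fun y => (Q y + e y) ^ 2 * (ph r (-A) K y - ph r A K y) - Q y ^ 2) :=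
      j0.sub iQ
    unfold qM mu
    rw [← integral_sub j0 iQ, ← integral_const_mul, ← integral_sub j3 (ieQ.const_mul 2),
      ← integral_add j1 j2]
    refine integral_congr_ae (Eventually.of_forall fun y => ?_)
    simp only
    ring
  have b1 : 0 ≤ ∫ y, e y ^ 2 * (ph r (-A) K y - ph r A K y) :=
    integral_nonneg fun y => mul_nonneg (sq_nonneg _) (h.chi_sub_nonneg y)
  have b2 : (∫ y, e y ^ 2 * (ph r (-A) K y - ph r A K y))
      ≤ 4 * Real.exp (A / B) * qD r A K B e ey := by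
    unfold qD
    rw [← integral_const_mul]
    refine integral_mono j1 ((intD_BdM r A K B he).const_mul _) fun y => ?_
    have a1 := h.chi_sub_le y
    have a2 : 0 ≤ 4 * Real.exp (A / B) * pM r A K B y := by
      have := pM_pos r A K B y
      positivity
    have a3 := mul_le_mul_of_nonneg_left a1 (sq_nonneg (e y))
    have a4 := mul_nonneg a2 (sq_nonneg (ey y))
    simp only
    nlinarith
  have b3 : |∫ y, ((Q y + e y) ^ 2 - e y ^ 2) * (ph r (-A) K y - ph r A K y - 1)|
      ≤ 160 * Real.exp (-(A / K)) := by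
    refine abs_integral_le_integral_abs.trans ?_
    have a1 : (∫ y, |((Q y + e y) ^ 2 - e y ^ 2) * (ph r (-A) K y - ph r A K y - 1)|)
        ≤ ∫ y, 8 * Real.exp (-(A / K)) * (Real.exp (|y| / 10) * (1 + y ^ 2) * Q y) :=
      integral_mono j2.abs (expD_env.integrable.const_mul _) fun y => tiny_BdM h y (h1 y)
    rw [integral_const_mul] at a1
    have a2 := integral_env_le
    have a3 := Real.exp_pos (-(A / K))
    nlinarith
  rw [key]
  have b4 := abs_le.mp b3
  have a3 := Real.exp_pos (-(A / K))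
  rw [abs_le]
  constructor <;> linarith [b4.1, b4.2]

theorem P1_le_BdM {r A K B r1 : ℝ} (h : WP r A K B) (hr : r ≤ r1) (y : ℝ) :
    P1 (y / (B / r1)) ≤ 4 * pM r A K B y + 8 * (ph r A K y * P1 ((r * y - A) / B)) := by
  have hB := h.B_pos
  have hr0 := h.hr
  have hr1 : 0 < r1 := hr0.trans_le hr
  have e1 : |y / (B / r1)| = r1 * |y| / B := by
    rw [abs_div, abs_of_pos (div_pos hB hr1)]
    field_simp
  have h0 := P1_le_exp (y / (B / r1))
  rw [e1] at h0
  have p1 := pM_pos r A K B y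
  have p2 := ph_pos r A K y
  have p3 := P1_pos ((r * y - A) / B)
  have q1 : r * |y| ≤ r1 * |y| := mul_le_mul_of_nonneg_right hr (abs_nonneg y)
  rcases le_total (r * y) A with hy | hy
  · have a1 := h.pM_left hy
    have a2 : Real.exp (-(r1 * |y| / B)) ≤ Real.exp (r * y / B) := by
      refine Real.exp_le_exp.mpr ?_
      rw [← neg_div]
      refine div_le_div_of_nonneg_right ?_ hB.le
      have := mul_le_mul_of_nonneg_left (neg_abs_le y) hr0.le
      linarith
    have := mul_pos p2 p3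
    linarith
  · have a1 := half_le_ph h.K_pos hy
    have a2 : Real.exp (-(r1 * |y| / B)) ≤ Real.exp (-|(r * y - A) / B|) := by
      refine Real.exp_le_exp.mpr (neg_le_neg ?_)
      rw [abs_of_nonneg (div_nonneg (sub_nonneg.mpr hy) hB.le)]
      refine div_le_div_of_nonneg_right ?_ hB.le
      have := mul_le_mul_of_nonneg_left (le_abs_self y) hr0.le
      have := h.hA
      linarith
    have a3 := exp_le_P1 ((r * y - A) / B)
    have a4 := mul_le_mul_of_nonneg_right a1 p3.le
    linarith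

theorem Nw_BdM {r A K B r1 : ℝ} (h : WP r A K B) (hr : r ≤ r1) {e ey : ℝ → ℝ}
    (he : IsH1 e ey) :
    Nw (B / r1) e ey ≤ 4 * qD r A K B e ey
      + 8 * (∫ y, ph r A K y * P1 ((r * y - A) / B) * e y ^ 2) + 2 * qK r A K ey := by
  have i1 := integrable_sq2 he.1
  have i2 := integrable_sq2 he.2.1
  have bP : Bdd (fun y => P1 (y / (B / r1))) := expD_P1.bdd.comp (by fun_prop)
  have bP2 : Bdd (fun y => ph r A K y * P1 ((r * y - A) / B)) :=
    (bdd_ph r A K).mul (expD_P1.bdd.comp (by fun_prop))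
  have j0 : Integrable (fun y => P1 (y / (B / r1)) * (e y ^ 2 + ey y ^ 2)) :=
    integrable_bdd_mul (i1.add i2) bP
  have j1 := (intD_BdM r A K B he).const_mul 4
  have j2 : Integrable (fun y => 8 * (ph r A K y * P1 ((r * y - A) / B) * e y ^ 2)) :=
    (integrable_bdd_mul i1 bP2).const_mul 8
  have j3 : Integrable (fun y => 2 * (ph r A K y * ey y ^ 2)) :=
    (integrable_bdd_mul i2 (bdd_ph r A K)).const_mul 2
  have j4 : Integrable (fun y => 4 * (pM r A K B y * (e y ^ 2 + ey y ^ 2))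
      + 8 * (ph r A K y * P1 ((r * y - A) / B) * e y ^ 2)) := j1.add j2
  unfold Nw qD qK
  rw [← integral_const_mul, ← integral_const_mul, ← integral_const_mul, ← integral_add j1 j2,
    ← integral_add j4 j3]
  refine integral_mono j0 (j4.add j3) fun y => ?_
  have a1 := mul_le_mul_of_nonneg_right (P1_le_BdM h hr y)
    (add_nonneg (sq_nonneg (e y)) (sq_nonneg (ey y)))
  have a2 := mul_le_mul_of_nonneg_left (P1_le_quarter ((r * y - A) / B))
    (mul_nonneg (ph_pos r A K y).le (sq_nonneg (ey y)))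
  simp only
  nlinarith

theorem bdM : BdMStmt := by
  intro X B hB
  have hB0 : 0 < B := by have := X.CA_pos; linarith
  obtain ⟨Cz, hCz, hz⟩ := X.zl hB0
  have hM := X.M_nonneg
  refine ⟨X.M + 1 + 160 + (8 * Cz + 2), ?_⟩
  filter_upwards [X.ev_gt, X.ev_sup one_pos, X.ev_ey one_pos] with s hs h1 h2
  have w := X.wp hs hB
  have he := X.h1 hs
  have hs1 := (X.one_lt hs).le
  have hL := X.exp_le_Lm hB hs1
  have hL1 := one_le_Lm hs1
  have hτ := X.exp_le_tau hs1
  have hτ0 := (X.tau_pos (by linarith : (0 : ℝ) < s)).le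
  have hD := X.D_nonneg B s
  have hK := X.Kf_nonneg s
  have h6 := X.k6_nonneg s
  have hE := Real.exp_pos (X.A s / B)
  refine ⟨?_, ?_, ?_⟩
  · have a1 := qD_le_BdM (X.r s) (X.A s) X.K B he
    have a2 := X.st.mass s hs
    have a3 : Real.exp (X.A s / B) * ((∫ y, X.e s y ^ 2) + ∫ y, X.ey s y ^ 2)
        ≤ Real.exp (X.A s / B) * (X.M + 1) :=
      mul_le_mul_of_nonneg_left (by linarith) hE.le
    have a4 : Real.exp (X.A s / B) * (X.M + 1) ≤ Lm s * (X.M + 1) :=
      mul_le_mul_of_nonneg_right hL (by linarith)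
    have a5 : 0 ≤ (160 + (8 * Cz + 2)) * Lm s := by positivity
    change qD (X.r s) (X.A s) X.K B (X.e s) (X.ey s) ≤ _
    nlinarith
  · have a1 := qM_BdM w he h1
    change |X.MM s - 2 * X.μ s| ≤ 4 * Real.exp (X.A s / B) * X.D B s
      + 160 * Real.exp (-(X.A s / X.K)) at a1
    have a2 := mul_le_mul_of_nonneg_right hL hD
    have a3 : 0 ≤ Lm s * X.D B s := by positivity
    have a4 : 0 ≤ (X.M + 1 + (8 * Cz + 2)) * (Lm s * X.D B s + X.tau s) := by positivity
    nlinarith
  · have a1 := Nw_BdM w (X.r_le hs) he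
    change Nw (B / X.r1) (X.e s) (X.ey s) ≤ 4 * X.D B s
      + 8 * (∫ y, ph (X.r s) (X.A s) X.K y * P1 ((X.r s * y - X.A s) / B) * X.e s y ^ 2)
      + 2 * X.Kf s at a1
    have a2 := hz s hs
    have a3 := sq_nonneg (X.a s)
    have a4 : 0 ≤ (X.M + 1 + 160) * (X.a s ^ 2 + X.Kf s + X.k6 s + X.tau s) := by positivity
    have a5 : 0 ≤ Cz * (X.k6 s + X.tau s) := by positivity
    unfold Dat.Z
    nlinarith

end Pool.Agent.MP_8339a4_an
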