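import Pool.Agent.MP_8339a4_an.Api

/-! Coercivity of the linearised operator. -/

open MeasureTheory Filter Topology Set

namespace Pool.Agent.MP_8339a4_an

variable {f fy g gy z zy : ℝ → ℝ}

theorem prim_tn_C1 : IsPrim tn (fun y => 2 * sc y) :=
  IsPrim.of_hasDerivAt hasDerivAt_tn (expD_sc.const_mul 2).1

theorem lin3_C1 (i1 : Integrable f) (i2 : Integrable g) (i3 : Integrable z) (a b : ℝ) :
    ∫ y, (f y + a * g y + b * z y) = (∫ y, f y) + a * (∫ y, g y) + b * ∫ y, z y := by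
  rw [← integral_const_mul, ← integral_const_mul, ← integral_add i1 (i2.const_mul a)]
  exact integral_add (i1.add (i2.const_mul a)) (i3.const_mul b)

theorem exp2_C1 (hf : MemLp f 2 volume) (hg : MemLp g 2 volume) (t : ℝ) :
    ∫ y, (f y - t * g y) ^ 2 = (∫ y, f y ^ 2) - 2 * t * (∫ y, f y * g y) + t ^ 2 * ∫ y, g y ^ 2 := by
  rw [sub_eq_add_neg (∫ y, f y ^ 2), ← neg_mul,
    ← lin3_C1 (integrable_sq2 hf) (integrable_mul2 hf hg) (integrable_sq2 hg)]
  exact integral_congr_ae (.of_forall fun y => by simp only; ring)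

theorem memA_C1 (h : IsH1 f fy) (c : ℝ) : MemLp (fun y => fy y + c * tn y * f y) 2 volume :=
  h.2.1.add (memLp_bdd_mul h.1 (bdd_tn.const_mul c))

theorem sqA_C1 (h : IsH1 f fy) (c : ℝ) : ∫ y, (fy y + c * tn y * f y) ^ 2 =
    (∫ y, fy y ^ 2) + c ^ 2 * (∫ y, f y ^ 2) - (c ^ 2 + 2 * c) * ∫ y, sc y * f y ^ 2 := by
  have i1 := integrable_sq2 h.2.1
  have i2 := integrable_sq2 h.1
  have i3 := integrable_bdd_mul i2 expD_sc.bdd
  rw [sub_eq_add_neg, ← neg_mul, ← lin3_C1 i1 i2 i3]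
  refine (((h.isPrim.mul h.isPrim).mul prim_tn_C1).const_mul c).integral_eq
    ((integrable_mul_bdd (integrable_mul2 h.1 h.1) bdd_tn).const_mul c)
    (integrable_sq2 (memA_C1 h c)) ((i1.add (i2.const_mul _)).add (i3.const_mul _)) fun y => ?_
  simp only [sc]
  ring

theorem hardy_C1 (h : IsH1 g gy) :
    ∃ t : ℝ, ∫ y, (g y - t * Q y) ^ 2 ≤ 4 * ∫ y, (gy y + 1 * tn y * g y) ^ 2 := by
  have hQ := fun y => (Q_pos y).ne'
  have p1 : IsPrim (fun y => (Q y)⁻¹) (fun y => tn y * (Q y)⁻¹) :=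
    IsPrim.of_hasDerivAt (fun y => ((hasDerivAt_Q y).fun_inv (hQ y)).congr_deriv (by
      have := hQ y
      rw [Q1]
      field_simp)) (bdd_tn.1.mul (expD_Q.1.inv₀ hQ))
  have p2 := h.isPrim.mul p1
  obtain ⟨E, hE⟩ : ∃ E : ℝ → ℝ, ∀ y, E y = Real.exp (-(|y - 0| / (1 / 2))) := ⟨_, fun _ => rfl⟩
  have e1 : ∀ y, E y = Real.exp (-|y|) ^ 2 := fun y => by
    rw [hE, ← Real.exp_nat_mul]
    congr 1
    simp only [sub_zero]
    push_cast
    ring
  have b1 : ∀ y, E y * (Q y)⁻¹ ^ 2 ≤ 1 := fun y => by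
    rw [e1, inv_pow, ← div_eq_mul_inv, div_le_one (pow_pos (Q_pos y) 2)]
    exact pow_le_pow_left₀ (Real.exp_pos _).le (exp_le_Q y) 2
  have b2 : ∀ y, 1 ≤ 4 * (E y * (Q y)⁻¹ ^ 2) := fun y => by
    rw [e1, inv_pow, ← div_eq_mul_inv, ← mul_div_assoc, one_le_div (pow_pos (Q_pos y) 2)]
    have := pow_le_pow_left₀ (Q_pos y).le (Q_le_exp y) 2
    linarith [mul_pow 2 (Real.exp (-|y|)) 2]
  have bw : Bdd fun y => E y * (Q y)⁻¹ ^ 2 := by
    refine ⟨?_, 1, fun y => ?_⟩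
    · simp only [e1]
      exact ((Real.continuous_exp.comp continuous_abs.neg).pow 2).mul ((expD_Q.1.inv₀ hQ).pow 2)
    · rw [abs_of_nonneg (by linarith [b2 y])]
      exact b1 y
  have m1 : MemLp (fun y => g y - g 0 * (Q 0)⁻¹ * Q y) 2 volume :=
    h.1.sub (expD_Q.memLp.const_mul _)
  have j1 := integrable_bdd_mul (integrable_sq2 m1) bw
  have j2 := integrable_bdd_mul (integrable_sq2 (memA_C1 h 1)) bw
  have q1 : ∀ y, E y * (g y * (Q y)⁻¹ - g 0 * (Q 0)⁻¹) ^ 2 =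
      E y * (Q y)⁻¹ ^ 2 * (g y - g 0 * (Q 0)⁻¹ * Q y) ^ 2 := fun y => by
    have := hQ y
    field_simp
  have q2 : ∀ y, E y * (gy y * (Q y)⁻¹ + g y * (tn y * (Q y)⁻¹)) ^ 2 =
      E y * (Q y)⁻¹ ^ 2 * (gy y + 1 * tn y * g y) ^ 2 := fun y => by ring
  have H := expHardy (L := 1 / 2) (p := 0) (by norm_num) p2
    (by
      simp only [← hE]
      exact (integrable_bdd_mul (integrable_sq2 h.1) bw).congr (.of_forall fun y => by
        simp only; ring))
    (by simpa only [← hE, q2] using j2)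
  simp only [← hE, q1, q2] at H
  refine ⟨g 0 * (Q 0)⁻¹, ?_⟩
  have l1 := integral_mono (integrable_sq2 m1) (j1.const_mul 4) fun y => by
    have := mul_le_mul_of_nonneg_right (b2 y) (sq_nonneg (g y - g 0 * (Q 0)⁻¹ * Q y))
    simp only
    linarith
  have l2 := integral_mono j2 (integrable_sq2 (memA_C1 h 1)) fun y => by
    have := mul_le_mul_of_nonneg_right (b1 y) (sq_nonneg (gy y + 1 * tn y * g y))
    simp only
    linarith
  rw [integral_const_mul] at l1
  linarith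

theorem bound_C1 (h : IsH1 z zy) (h0 : ∫ y, z y * C0 y = 0) :
    ∃ M : ℝ, ∀ y, |∫ x in Iic y, z x * C0 x| ≤ M * C0 y := by
  obtain ⟨-, M, hM⟩ := h.bdd
  have i0 := integrable_mul2 h.1 expD_C0.memLp
  have hM0 : 0 ≤ M := (abs_nonneg _).trans (hM 0)
  have b : ∀ x u : ℝ, -|x| ≤ u → ‖z x * C0 x‖ ≤ 8 * M * Real.exp (3 * u) := fun x u hu => by
    have h1 := pow_le_pow_left₀ (Q_pos x).le ((Q_le_exp x).trans
      (mul_le_mul_of_nonneg_left (Real.exp_le_exp.2 hu) two_pos.le)) 3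
    rw [mul_pow, ← Real.exp_nat_mul] at h1
    rw [Real.norm_eq_abs, abs_mul, C0, abs_of_pos (pow_pos (Q_pos x) 3)]
    have := mul_le_mul (hM x) h1 (pow_pos (Q_pos x) 3).le hM0
    push_cast at this
    linarith
  refine ⟨8 * M / 3, fun y => ?_⟩
  have c : Real.exp (3 * -|y|) ≤ C0 y := by
    have h1 := pow_le_pow_left₀ (Real.exp_pos _).le (exp_le_Q y) 3
    rw [← Real.exp_nat_mul] at h1
    exact_mod_cast h1
  refine le_trans ?_ (mul_le_mul_of_nonneg_left c (by positivity))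
  rcases le_total y 0 with hy | hy
  · have := norm_integral_le_of_norm_le (μ := volume.restrict (Iic y))
      ((integrableOn_exp_mul_Iic (a := 3) three_pos y).const_mul (8 * M))
      (.of_forall fun x => b x x (neg_abs_le x))
    rw [integral_const_mul, integral_exp_mul_Iic three_pos] at this
    rw [abs_of_nonpos hy, neg_neg]
    exact this.trans_eq (by ring)
  · have := norm_integral_le_of_norm_le (μ := volume.restrict (Ioi y))
      ((integrableOn_exp_mul_Ioi (a := -3) (by norm_num) y).const_mul (8 * M))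
      (.of_forall fun x => (b x (-x) (neg_le_neg (le_abs_self x))).trans_eq (by ring_nf))
    rw [integral_const_mul, integral_exp_mul_Ioi (by norm_num)] at this
    have e := intervalIntegral.integral_Iic_add_Ioi (b := y) i0.integrableOn i0.integrableOn
    rw [abs_of_nonneg hy, eq_neg_of_add_eq_zero_left (e.trans h0), abs_neg]
    exact this.trans_eq (by ring_nf)

theorem exg_C1 (h : IsH1 z zy) (h0 : ∫ y, z y * C0 y = 0) :
    ∃ g : ℝ → ℝ, IsH1 g fun y => 3 * tn y * g y - z y := by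
  obtain ⟨M, hM⟩ := bound_C1 h h0
  have i0 := integrable_mul2 h.1 expD_C0.memLp
  have hp : ∀ y, 0 < C0 y := fun y => pow_pos (Q_pos y) 3
  have p0 : IsPrim (fun y => ∫ x in Iic y, z x * C0 x) fun x => z x * C0 x :=
    ⟨fun _ _ => i0.intervalIntegrable, fun _ _ =>
      intervalIntegral.integral_Iic_sub_Iic i0.integrableOn i0.integrableOn⟩
  have p1 : IsPrim (fun y => (C0 y)⁻¹) (fun y => 3 * tn y * (C0 y)⁻¹) :=
    IsPrim.of_hasDerivAt (fun y => ((hasDerivAt_C0 y).fun_inv (hp y).ne').congr_deriv (by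
      have := (Q_pos y).ne'
      rw [C1, C0]
      field_simp)) ((bdd_tn.const_mul 3).1.mul (expD_C0.1.inv₀ fun y => (hp y).ne'))
  obtain ⟨g, p2, hb⟩ : ∃ g : ℝ → ℝ, IsPrim g (fun y => 3 * tn y * g y - z y) ∧
      ∀ y, |g y| ≤ M := by
    refine ⟨_, (p0.mul p1).neg.congr (fun _ => rfl) fun y => ?_, fun y => ?_⟩
    · have := (hp y).ne'
      field_simp
      ring
    · rw [abs_neg, abs_mul, abs_inv, abs_of_pos (hp y), ← div_eq_mul_inv, div_le_iff₀ (hp y)]
      exact hM y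
  have cg := p2.continuous
  have p3 := (p2.mul p2).mul prim_tn_C1
  have iz := integrable_sq2 h.1
  have ig : Integrable fun y => g y ^ 2 := by
    refine integrable_of_intervalIntegral_norm_bounded (l := atTop) (a := fun N : ℝ => -N)
      (b := fun N => N) (2 * M ^ 2 + ∫ y, z y ^ 2)
      (fun N => ((cg.pow 2).intervalIntegrable _ _).1) tendsto_neg_atTop_atBot tendsto_id ?_
    filter_upwards [eventually_ge_atTop 0] with N hN
    have hN' : -N ≤ N := by linarith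
    have l1 := intervalIntegral.integral_mono_on hN'
      ((cg.pow 2).norm.intervalIntegrable _ _) ((p3.1 (-N) N).add iz.intervalIntegrable)
      fun y _ => by
        rw [Pi.pow_apply, Real.norm_of_nonneg (sq_nonneg _), sc]
        have h1 : tn y ^ 2 ≤ 1 := (sq_le_one_iff_abs_le_one _).2 (abs_tn_lt y).le
        nlinarith [sq_nonneg (z y - tn y * g y), sq_nonneg (tn y * g y), sq_nonneg (g y)]
    rw [intervalIntegral.integral_add (p3.1 (-N) N) iz.intervalIntegrable, ← p3.2] at l1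
    have l2 : ∫ y in (-N)..N, z y ^ 2 ≤ ∫ y, z y ^ 2 := by
      rw [intervalIntegral.integral_of_le hN']
      exact setIntegral_le_integral iz (.of_forall fun y => sq_nonneg _)
    have l3 : ∀ y, |g y * g y * tn y| ≤ M ^ 2 := fun y => by
      rw [abs_mul, abs_mul]
      have := mul_le_mul (mul_le_mul (hb y) (hb y) (abs_nonneg _) ((abs_nonneg _).trans (hb y)))
        (abs_tn_lt y).le (abs_nonneg _) (mul_self_nonneg M)
      linarith
    refine l1.trans ?_
    linarith [abs_le.1 (l3 N), abs_le.1 (l3 (-N))]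
  have mg : MemLp g 2 volume := (memLp_two_iff_integrable_sq cg.aestronglyMeasurable).2 ig
  exact ⟨g, IsH1.of_isPrim p2 mg ((memLp_bdd_mul mg (bdd_tn.const_mul 3)).sub h.1)⟩

theorem key_C1 (h : IsH1 z zy) (h0 : ∫ y, z y * C0 y = 0) :
    33 / 4 * ∫ y, z y ^ 2 ≤ (∫ y, (zy y + 3 * tn y * z y) ^ 2)
      + (∫ y, Q y ^ 2)⁻¹ * (∫ y, z y * Q1 y) ^ 2 := by
  obtain ⟨g, hg⟩ := exg_C1 h h0
  obtain ⟨t, ht⟩ := hardy_C1 hg
  have hn : 0 < ∫ y, Q y ^ 2 := by
    rw [integral_Q_sq]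
    positivity
  have e2 : ∫ y, (zy y + 3 * tn y * z y) * g y = ∫ y, z y ^ 2 :=
    (h.isPrim.mul hg.isPrim).integral_eq (integrable_mul2 h.1 hg.1)
      (integrable_mul2 (memA_C1 h 3) hg.1) (integrable_sq2 h.1) fun y => by ring
  have e3 := sqA_C1 hg (-3)
  have e3' := sqA_C1 hg 1
  have e3'' : ∫ y, (3 * tn y * g y - z y + -3 * tn y * g y) ^ 2 = ∫ y, z y ^ 2 :=
    integral_congr_ae (.of_forall fun y => by simp only; ring)
  have e4 : ∫ y, -2 * (g y * Q y) = ∫ y, z y * Q1 y :=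
    (hg.isPrim.mul test_Q1.h1.isPrim).integral_eq (integrable_mul2 hg.1 expD_Q1.memLp)
      ((integrable_mul2 hg.1 expD_Q.memLp).const_mul _) (integrable_mul2 h.1 expD_Q1.memLp)
      fun y => by
        rw [Q1, Q2]
        linear_combination 3 * g y * Q y * tn_sq y
  rw [integral_const_mul] at e4
  rw [exp2_C1 hg.1 expD_Q.memLp] at ht
  have l1 : 0 ≤ ∫ y, (zy y + 3 * tn y * z y - 33 / 4 * g y) ^ 2 :=
    integral_nonneg fun y => sq_nonneg _
  rw [exp2_C1 (memA_C1 h 3) hg.1, e2] at l1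
  rw [← e4]
  generalize (∫ y, g y * Q y) = m at *
  generalize (∫ y, Q y ^ 2) = n at *
  have l2 : 2 * t * m - t ^ 2 * n ≤ n⁻¹ * m ^ 2 := by
    rw [← div_eq_inv_mul, le_div_iff₀ hn]
    nlinarith [sq_nonneg (m - t * n)]
  have l3 : 0 ≤ n⁻¹ * m ^ 2 := by positivity
  have l4 : n⁻¹ * (-2 * m) ^ 2 = 4 * (n⁻¹ * m ^ 2) := by ring
  linarith

theorem c1 : C1Stmt := by
  have hn : 0 < ∫ y, Q y ^ 2 := by
    rw [integral_Q_sq]
    positivity
  have hN : 0 < ∫ y, C0 y ^ 2 :=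
    integral_pos_of_integrable_nonneg_nonzero (x := 0) (expD_C0.1.pow 2)
      (integrable_sq2 expD_C0.memLp) (fun y => sq_nonneg _) (pow_pos (pow_pos (Q_pos 0) 3) 2).ne'
  refine ⟨1 / 61, 9 * (∫ y, C0 y ^ 2)⁻¹ + (∫ y, Q y ^ 2)⁻¹, by norm_num, by positivity,
    fun e ey h => ?_⟩
  obtain ⟨al, hal⟩ : ∃ al : ℝ, al * ∫ y, C0 y ^ 2 = ∫ y, e y * C0 y :=
    ⟨_, div_mul_cancel₀ _ hN.ne'⟩
  have hz := h.sub (test_C0.h1.const_mul al)
  have sp : ∀ {w : ℝ → ℝ}, MemLp w 2 volume → ∫ y, (e y - al * C0 y) * w y =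
      (∫ y, e y * w y) - al * ∫ y, w y * C0 y := fun hw => by
    rw [← integral_const_mul, ← integral_sub (integrable_mul2 h.1 hw)
      ((integrable_mul2 hw expD_C0.memLp).const_mul al)]
    exact integral_congr_ae (.of_forall fun y => by simp only; ring)
  have k := key_C1 hz (by rw [sp expD_C0.memLp, ← hal]; simp only [sq, sub_self])
  have e1 : ∫ y, (ey y - al * C1 y + 3 * tn y * (e y - al * C0 y)) ^ 2 =
      ∫ y, (ey y + 3 * tn y * e y) ^ 2 :=
    integral_congr_ae (.of_forall fun y => by simp only [C0, C1]; ring)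
  rw [e1, sqA_C1 h, exp2_C1 h.1 expD_C0.memLp, sp expD_Q1.memLp, integral_Q1_C0, mul_zero,
    sub_zero] at k
  have i1 := integrable_sq2 h.1
  have i2 := integrable_sq2 h.2.1
  have i3 := integrable_bdd_mul i1 expD_sc.bdd
  have e2 : ∫ y, (ey y ^ 2 + e y ^ 2 - V y * e y ^ 2) =
      (∫ y, ey y ^ 2) + 1 * (∫ y, e y ^ 2) + -15 * ∫ y, sc y * e y ^ 2 := by
    rw [← lin3_C1 i2 i1 i3]
    exact integral_congr_ae (.of_forall fun y => by simp only [V_eq]; ring)
  have l1 := integral_mono i3 i1 fun y => mul_le_of_le_one_left (sq_nonneg _) (sc_le_one y)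
  rw [e2, integral_add i1 i2, ← hal]
  rw [← hal] at k
  generalize (∫ y, C0 y ^ 2) = N at *
  generalize (∫ y, Q y ^ 2) = n at *
  generalize (∫ y, e y * Q1 y) = m at *
  have l2 : (9 * N⁻¹ + n⁻¹) * ((al * N) ^ 2 + m ^ 2) =
      9 * (al ^ 2 * N) + 9 * (N⁻¹ * m ^ 2) + n⁻¹ * (al * N) ^ 2 + n⁻¹ * m ^ 2 := by
    field_simp
    ring
  have l3 : 0 ≤ N⁻¹ * m ^ 2 := by positivity
  have l4 : 0 ≤ n⁻¹ * (al * N) ^ 2 := by positivity
  have l5 : 0 ≤ n⁻¹ * m ^ 2 := by positivity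
  have l6 : 0 ≤ al ^ 2 * N := by positivity
  have l7 : 2 * al * (al * N) = 2 * (al ^ 2 * N) := by ring
  linarith

end Pool.Agent.MP_8339a4_an
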