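import Pool.Agent.MP_8339a4_an.Api

/-! Weighted coercivity of the linearised operator for a slowly varying weight. -/

open MeasureTheory Filter Topology Set

namespace Pool.Agent.MP_8339a4_an

theorem exp_C1w (t : ℝ) : |Real.exp t - 1| ≤ |t| * Real.exp |t| := by
  rcases le_total 0 t with h | h
  · have h1 := Real.add_one_le_exp (-t)
    have h2 : Real.exp t * Real.exp (-t) = 1 := by rw [← Real.exp_add]; simp
    have h3 := Real.one_le_exp h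
    have h4 := mul_le_mul_of_nonneg_left h1 (Real.exp_pos t).le
    rw [abs_of_nonneg h, abs_of_nonneg (by linarith)]
    nlinarith
  · have h1 := Real.add_one_le_exp t
    have h2 : Real.exp t ≤ 1 := Real.exp_le_one_iff.2 h
    have h3 := Real.one_le_exp (abs_nonneg t)
    have h4 := mul_le_mul_of_nonneg_left h3 (abs_nonneg t)
    rw [abs_of_nonpos (by linarith : Real.exp t - 1 ≤ 0)]
    have h5 : |t| = -t := abs_of_nonpos h
    linarith

theorem log_C1w {x ε : ℝ} (hε : ε ≤ 1 / 2) (h : |x - 1| ≤ ε) : |Real.log x| ≤ 2 * ε := by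
  obtain ⟨h1, h2⟩ := abs_le.1 h
  have hx : 0 < x := by linarith
  have h3 := Real.log_le_sub_one_of_pos hx
  have h4 := Real.one_sub_inv_le_log_of_pos hx
  have h0 : 0 ≤ ε := (abs_nonneg _).trans h
  have h5 : x⁻¹ ≤ 1 + 2 * ε := by
    rw [inv_le_iff_one_le_mul₀ hx]
    nlinarith
  rw [abs_le]
  constructor <;> linarith

theorem env_C1w {ψ ψ1 : ℝ → ℝ} {ε : ℝ} (hε : ε ≤ 1 / 20) (hd : ∀ y, HasDerivAt ψ (ψ1 y) y)
    (hp : ∀ y, 0 < ψ y) (hb : ∀ y, |ψ1 y| ≤ ε * ψ y) (h0 : |ψ 0 - 1| ≤ ε) (y : ℝ) :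
    |1 - (Real.sqrt (ψ y))⁻¹| ≤ 2 * ε * (Real.exp (|y| / 20) * (1 + |y|)) := by
  have e0 : 0 ≤ ε := (abs_nonneg _).trans h0
  have hL : ∀ x, HasDerivAt (fun x => Real.log (ψ x)) (ψ1 x / ψ x) x := fun x =>
    (hd x).log (hp x).ne'
  have h1 : ‖Real.log (ψ y) - Real.log (ψ 0)‖ ≤ ε * ‖y - 0‖ :=
    convex_univ.norm_image_sub_le_of_norm_hasDerivWithin_le (f := fun x => Real.log (ψ x))
      (f' := fun x => ψ1 x / ψ x) (fun x _ => (hL x).hasDerivWithinAt) (fun x _ => by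
        rw [Real.norm_eq_abs, abs_div, abs_of_pos (hp x), div_le_iff₀ (hp x)]
        exact hb x) (mem_univ 0) (mem_univ y)
  rw [sub_zero, Real.norm_eq_abs, Real.norm_eq_abs] at h1
  have h2 := log_C1w (by linarith) h0
  have h3 : |Real.log (ψ y)| ≤ ε * |y| + 2 * ε := by
    have := abs_add_le (Real.log (ψ y) - Real.log (ψ 0)) (Real.log (ψ 0))
    rw [sub_add_cancel] at this
    linarith
  have h4 : (Real.sqrt (ψ y))⁻¹ = Real.exp (-(Real.log (ψ y) / 2)) := by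
    rw [Real.exp_neg, Real.exp_half, Real.exp_log (hp y)]
  have h5 : |-(Real.log (ψ y) / 2)| ≤ ε * (1 + |y|) := by
    rw [abs_neg, abs_div, abs_two]
    nlinarith [abs_nonneg y]
  have h6 : Real.exp |-(Real.log (ψ y) / 2)| ≤ 2 * Real.exp (|y| / 20) := by
    have a1 : |-(Real.log (ψ y) / 2)| ≤ 1 / 20 + |y| / 20 := by nlinarith [abs_nonneg y]
    have a2 : Real.exp (1 / 20 : ℝ) ≤ 2 := by
      have := Real.exp_bound_div_one_sub_of_interval (x := 1 / 20) (by norm_num) (by norm_num)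
      linarith [show (1 : ℝ) / (1 - 1 / 20) ≤ 2 by norm_num]
    refine (Real.exp_le_exp.2 a1).trans ?_
    rw [Real.exp_add]
    exact mul_le_mul_of_nonneg_right a2 (Real.exp_pos _).le
  rw [h4, abs_sub_comm]
  refine (exp_C1w _).trans ?_
  refine (mul_le_mul h5 h6 (Real.exp_pos _).le (by positivity)).trans (le_of_eq ?_)
  ring

theorem lin_C1w {ζ e g : ℝ → ℝ} {ε : ℝ} (hε : 0 ≤ ε) (hc : Continuous ζ) (hp : ∀ y, 0 < ζ y)
    (hz : ∀ y, |1 - (ζ y)⁻¹| ≤ 2 * ε * (Real.exp (|y| / 20) * (1 + |y|)))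
    (he : MemLp e 2 volume) (hw : MemLp (fun y => e y * ζ y) 2 volume) (hg : ExpD g)
    (hQ : ∀ y, |g y| ≤ 2 * Q y) :
    (∫ y, e y * ζ y * g y) ^ 2
      ≤ 2 * (∫ y, e y * g y) ^ 2 + 2000 * ε ^ 2 * ∫ y, (e y * ζ y) ^ 2 := by
  have h1 := sq_integral_le_N0 (g := fun y => (1 - (ζ y)⁻¹) * g y) (C := 4 * ε) hw
    ((continuous_const.sub (hc.inv₀ fun y => (hp y).ne')).mul hg.1) fun y => by
      rw [abs_mul]
      refine (mul_le_mul (hz y) (hQ y) (abs_nonneg _) (by positivity)).trans (le_of_eq ?_)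
      ring
  have h2 : ∫ y, e y * ζ y * ((1 - (ζ y)⁻¹) * g y)
      = (∫ y, e y * ζ y * g y) - ∫ y, e y * g y := by
    rw [← integral_sub (integrable_mul2 hw hg.memLp) (integrable_mul2 he hg.memLp)]
    refine integral_congr_ae (ae_of_all _ fun y => ?_)
    have := (hp y).ne'
    field_simp
  have h3 : N0 (fun y => e y * ζ y) ≤ 4 / 3 * ∫ y, (e y * ζ y) ^ 2 := by
    unfold N0
    rw [← integral_const_mul]
    exact integral_mono_of_nonneg (ae_of_all _ fun y => mul_nonneg (Q_pos y).le (sq_nonneg _))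
      ((integrable_sq2 hw).const_mul _)
      (ae_of_all _ fun y => mul_le_mul_of_nonneg_right (Q_le y) (sq_nonneg _))
  have h4 : 0 ≤ ∫ y, (e y * ζ y) ^ 2 := integral_nonneg fun y => sq_nonneg _
  rw [h2] at h1
  have h5 := mul_le_mul_of_nonneg_left h3 (sq_nonneg ε)
  have h6 := mul_nonneg (sq_nonneg ε) h4
  nlinarith [sq_nonneg ((∫ y, e y * ζ y * g y) - 2 * ∫ y, e y * g y)]

theorem pt_C1w {z z1 a b ε : ℝ} (h0 : 0 ≤ ε) (h1 : ε ≤ 1) (hz : 0 ≤ z)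
    (h : |z1| ≤ ε / 2 * z) :
    |(b * z + a * z1) ^ 2 - z ^ 2 * b ^ 2| ≤ ε * (z ^ 2 * (a ^ 2 + b ^ 2)) := by
  obtain ⟨h2, h3⟩ := abs_le.1 h
  have h4 : z1 ^ 2 ≤ (ε / 2 * z) ^ 2 := sq_le_sq' h2 h3
  have h5 : |2 * (a * b) * (z * z1)| ≤ (a ^ 2 + b ^ 2) * (z * (ε / 2 * z)) := by
    rw [abs_mul]
    refine mul_le_mul ?_ ?_ (abs_nonneg _) (by positivity)
    · rw [abs_le]
      constructor <;> nlinarith [sq_nonneg (a - b), sq_nonneg (a + b)]
    · rw [abs_mul, abs_of_nonneg hz]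
      exact mul_le_mul_of_nonneg_left h hz
  obtain ⟨h6, h7⟩ := abs_le.1 h5
  have h8 := mul_le_mul_of_nonneg_left h4 (sq_nonneg a)
  have h9 : a ^ 2 * (ε / 2 * z) ^ 2 ≤ ε / 2 * (z ^ 2 * (a ^ 2 + b ^ 2)) := by
    have a1 : 0 ≤ ε * (z ^ 2 * b ^ 2) := by positivity
    have a2 : 0 ≤ ε * (z ^ 2 * a ^ 2) := by positivity
    have a3 := mul_le_mul_of_nonneg_right h1 a2
    nlinarith
  have h10 : 0 ≤ a ^ 2 * z1 ^ 2 := by positivity
  have h11 : 0 ≤ ε * (z ^ 2 * (a ^ 2 + b ^ 2)) := by positivity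
  rw [abs_le]
  constructor <;> nlinarith

theorem core_C1w {c C ε : ℝ} (hc : 0 < c) (hC : 0 ≤ C) (e0 : 0 < ε) (e1 : ε ≤ 1 / 20)
    (e2 : ε * (2 * (c + 1 + 4000 * C)) ≤ c)
    (h : ∀ e ey : ℝ → ℝ, IsH1 e ey →
      c * ∫ y, (e y ^ 2 + ey y ^ 2) ≤ (∫ y, (ey y ^ 2 + e y ^ 2 - V y * e y ^ 2))
        + C * ((∫ y, e y * C0 y) ^ 2 + (∫ y, e y * Q1 y) ^ 2))
    {ζ ζ1 e ey : ℝ → ℝ} (dz : ∀ y, HasDerivAt ζ (ζ1 y) y) (bz : Bdd ζ) (bz1 : Bdd ζ1)
    (sp : ∀ y, 0 < ζ y) (lz : ∀ y, |ζ1 y| ≤ ε / 2 * ζ y)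
    (hz : ∀ y, |1 - (ζ y)⁻¹| ≤ 2 * ε * (Real.exp (|y| / 20) * (1 + |y|))) (he : IsH1 e ey) :
    c / 2 * ∫ y, ζ y ^ 2 * (e y ^ 2 + ey y ^ 2)
      ≤ (∫ y, ζ y ^ 2 * (ey y ^ 2 + e y ^ 2 - V y * e y ^ 2))
        + 2 * C * ((∫ y, e y * C0 y) ^ 2 + (∫ y, e y * Q1 y) ^ 2) := by
  have hw := he.mul_bdd dz bz bz1
  have h1 := h _ _ hw
  have l1 := lin_C1w e0.le bz.1 sp hz he.1 hw.1 expD_C0 fun y => by
    have a1 := Q_pos y
    have a2 := Q_le y
    have a3 : Q y ^ 2 ≤ 2 := by nlinarith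
    unfold C0
    rw [abs_of_pos (pow_pos a1 3)]
    nlinarith
  have l2 := lin_C1w e0.le bz.1 sp hz he.1 hw.1 expD_Q1 fun y => by
    linarith [abs_Q1_le y, Q_pos y]
  have pt := fun y => abs_le.1 (pt_C1w (a := e y) (b := ey y) e0.le (by linarith) (sp y).le (lz y))
  have i1 := integrable_sq2 he.1
  have i2 := integrable_sq2 he.2.1
  have j1 := integrable_sq2 hw.1
  have j2 := integrable_sq2 hw.2.1
  have iN : Integrable fun y => ζ y ^ 2 * (e y ^ 2 + ey y ^ 2) :=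
    integrable_bdd_mul (i1.add i2) (bz.pow 2)
  have iB : Integrable fun y => ζ y ^ 2 * (ey y ^ 2 + e y ^ 2 - V y * e y ^ 2) :=
    integrable_bdd_mul ((i2.add i1).sub (integrable_bdd_mul i1 expD_V.bdd)) (bz.pow 2)
  have k1 : (1 - ε) * ∫ y, ζ y ^ 2 * (e y ^ 2 + ey y ^ 2)
      ≤ ∫ y, ((e y * ζ y) ^ 2 + (ey y * ζ y + e y * ζ1 y) ^ 2) := by
    rw [← integral_const_mul]
    refine integral_mono (iN.const_mul _) (j1.add j2) fun y => ?_
    have := (pt y).1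
    simp only
    nlinarith
  have k2 : ∫ y, ((ey y * ζ y + e y * ζ1 y) ^ 2 + (e y * ζ y) ^ 2 - V y * (e y * ζ y) ^ 2)
      ≤ (∫ y, ζ y ^ 2 * (ey y ^ 2 + e y ^ 2 - V y * e y ^ 2))
        + ε * ∫ y, ζ y ^ 2 * (e y ^ 2 + ey y ^ 2) := by
    rw [← integral_const_mul, ← integral_add iB (iN.const_mul _)]
    refine integral_mono ((j2.add j1).sub (integrable_bdd_mul j1 expD_V.bdd))
      (iB.add (iN.const_mul _)) fun y => ?_
    have := (pt y).2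
    simp only
    nlinarith
  have k3 : ∫ y, (e y * ζ y) ^ 2 ≤ ∫ y, ζ y ^ 2 * (e y ^ 2 + ey y ^ 2) := by
    refine integral_mono j1 iN fun y => ?_
    have : 0 ≤ ζ y ^ 2 * ey y ^ 2 := by positivity
    simp only
    nlinarith
  have k4 : 0 ≤ ∫ y, ζ y ^ 2 * (e y ^ 2 + ey y ^ 2) := integral_nonneg fun y => by positivity
  generalize ∫ y, ζ y ^ 2 * (e y ^ 2 + ey y ^ 2) = N at *
  generalize ∫ y, (e y * ζ y) ^ 2 = M at *
  have m0 : ε ^ 2 ≤ ε := by nlinarith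
  have m1 : ε ^ 2 * M ≤ ε * N :=
    (mul_le_mul_of_nonneg_left k3 (sq_nonneg ε)).trans (mul_le_mul_of_nonneg_right m0 k4)
  have m2 := mul_le_mul_of_nonneg_left (add_le_add l1 l2) hC
  have m3 := mul_le_mul_of_nonneg_left m1 hC
  have m4 := mul_le_mul_of_nonneg_left k1 hc.le
  have m5 := mul_le_mul_of_nonneg_right e2 k4
  linarith

theorem c1w (h : C1Stmt) : C1wStmt := by
  obtain ⟨c, C, hc, hC, h⟩ := h
  refine ⟨c / 2, 2 * C, min (1 / 20) (c / (2 * (c + 1 + 4000 * C))), by positivity,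
    by positivity, by positivity, ?_⟩
  have e0 : 0 < min (1 / 20) (c / (2 * (c + 1 + 4000 * C))) := by positivity
  have e1 : min (1 / 20) (c / (2 * (c + 1 + 4000 * C))) ≤ 1 / 20 := min_le_left _ _
  have e2 : min (1 / 20) (c / (2 * (c + 1 + 4000 * C))) * (2 * (c + 1 + 4000 * C)) ≤ c :=
    (le_div_iff₀ (by positivity)).1 (min_le_right _ _)
  generalize min (1 / 20) (c / (2 * (c + 1 + 4000 * C))) = ε at e0 e1 e2 ⊢
  intro ψ ψ1 hd hc1 hb hp hl h0 e ey he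
  have sp : ∀ y, 0 < Real.sqrt (ψ y) := fun y => Real.sqrt_pos.2 (hp y)
  have ss : ∀ y, Real.sqrt (ψ y) ^ 2 = ψ y := fun y => Real.sq_sqrt (hp y).le
  have dz : ∀ y, HasDerivAt (fun y => Real.sqrt (ψ y)) (ψ1 y / (2 * Real.sqrt (ψ y))) y :=
    fun y => (hd y).sqrt (hp y).ne'
  have lz : ∀ y, |ψ1 y / (2 * Real.sqrt (ψ y))| ≤ ε / 2 * Real.sqrt (ψ y) := fun y => by
    have := sp y
    rw [abs_div, abs_of_pos (by positivity : 0 < 2 * Real.sqrt (ψ y)),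
      div_le_iff₀ (by positivity)]
    refine (hl y).trans (le_of_eq ?_)
    conv_lhs => rw [← ss y]
    ring
  have bz : Bdd (fun y => Real.sqrt (ψ y)) := by
    obtain ⟨k1, K, k2⟩ := hb
    refine ⟨k1.sqrt, Real.sqrt K, fun y => ?_⟩
    rw [abs_of_pos (sp y)]
    exact Real.sqrt_le_sqrt ((le_abs_self _).trans (k2 y))
  have bz1 : Bdd (fun y => ψ1 y / (2 * Real.sqrt (ψ y))) := by
    obtain ⟨k1, K, k2⟩ := bz
    refine ⟨hc1.div (continuous_const.mul k1) fun y => (mul_pos two_pos (sp y)).ne',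
      ε / 2 * K, fun y => (lz y).trans ?_⟩
    exact mul_le_mul_of_nonneg_left ((le_abs_self _).trans (k2 y)) (by positivity)
  have := core_C1w hc hC e0 e1 e2 h dz bz bz1 sp lz (env_C1w e1 hd hp hl h0) he
  simpa only [ss] using this

end Pool.Agent.MP_8339a4_an
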