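import Pool.Agent.MP_8339a4_an.Api

/-! Coercivity of the weighted quadratic form. -/

open MeasureTheory Filter Topology Set

namespace Pool.Agent.MP_8339a4_an

theorem w_C2 (y : ℝ) : Real.exp (-(|y - 0| / (1 / 6))) ≤ sc y * Q y ^ 2 ∧
    sc y * Q y ^ 2 ≤ 16 * Real.exp (-(|y - 0| / (1 / 6))) := by
  have e : Real.exp (-(|y - 0| / (1 / 6))) = Real.exp (-(4 * |y|)) * Real.exp (-|y|) ^ 2 := by
    rw [← Real.exp_nat_mul, ← Real.exp_add, sub_zero]
    congr 1
    push_cast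
    ring
  rw [e]
  constructor
  · exact mul_le_mul (exp_le_sc y) (pow_le_pow_left₀ (Real.exp_pos _).le (exp_le_Q y) 2)
      (by positivity) (sc_pos y).le
  · have := mul_le_mul (sc_le_exp y) (pow_le_pow_left₀ (Q_pos y).le (Q_le_exp y) 2)
      (by positivity) (by positivity)
    linarith

theorem wq_C2 (y : ℝ) : Real.exp (-(|y - 0| / (1 / 6))) / Q y ^ 2 ≤ sc y := by
  rw [div_le_iff₀ (pow_pos (Q_pos y) 2)]
  exact (w_C2 y).1

theorem bdd_C2 : Bdd fun y => Real.exp (-(|y - 0| / (1 / 6))) / Q y ^ 2 := by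
  refine ⟨Continuous.div (by fun_prop) (expD_Q.1.pow 2) fun y => (pow_pos (Q_pos y) 2).ne', 1,
    fun y => ?_⟩
  rw [abs_of_nonneg (by positivity)]
  exact (wq_C2 y).trans (sc_le_one y)

theorem hardy_C2 {h hy : ℝ → ℝ} (H : IsH1 h hy) :
    ∫ y, sc y * (h y - h 0 / Q 0 * Q y) ^ 2 ≤ 2 * ∫ y, sc y * (hy y + tn y * h y) ^ 2 := by
  have hq : ∀ y, Q y ≠ 0 := fun y => (Q_pos y).ne'
  have mg : MemLp (fun y => hy y + tn y * h y) 2 volume := H.2.1.add (memLp_bdd_mul H.1 bdd_tn)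
  have mj : MemLp (fun y => h y - h 0 / Q 0 * Q y) 2 volume :=
    H.1.sub (expD_Q.const_mul _).memLp
  have p1 : IsPrim (fun y => (Q y)⁻¹) (fun y => tn y / Q y) := by
    refine IsPrim.of_hasDerivAt (fun y => ((hasDerivAt_Q y).inv (hq y)).congr_deriv ?_)
      (bdd_tn.1.div expD_Q.1 hq)
    have := hq y
    rw [Q1]
    field_simp
  have p2 : IsPrim (fun y => h y / Q y) (fun y => (hy y + tn y * h y) / Q y) :=
    (H.isPrim.mul p1).congr (fun y => (div_eq_mul_inv _ _).symm) fun y => by ring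
  have i1 := integrable_bdd_mul (integrable_sq2 H.1) bdd_C2
  have i2 := integrable_bdd_mul (integrable_sq2 mg) bdd_C2
  have i3 := integrable_bdd_mul (integrable_sq2 mj) bdd_C2
  have e : ∀ f : ℝ → ℝ, (fun y => Real.exp (-(|y - 0| / (1 / 6))) * (f y / Q y) ^ 2) =
      fun y => Real.exp (-(|y - 0| / (1 / 6))) / Q y ^ 2 * f y ^ 2 := fun f => funext fun y => by
    ring
  have e3 : (fun y => Real.exp (-(|y - 0| / (1 / 6))) * (h y / Q y - h 0 / Q 0) ^ 2) =
      fun y => Real.exp (-(|y - 0| / (1 / 6))) / Q y ^ 2 * (h y - h 0 / Q 0 * Q y) ^ 2 :=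
    funext fun y => by
      have := hq y
      field_simp
  have k := expHardy (p := 0) (by norm_num : (0 : ℝ) < 1 / 6) p2 (by rw [e]; exact i1)
    (by rw [e]; exact i2)
  rw [e3, e] at k
  have k1 : ∫ y, sc y * (h y - h 0 / Q 0 * Q y) ^ 2 ≤
      ∫ y, 16 * (Real.exp (-(|y - 0| / (1 / 6))) / Q y ^ 2 * (h y - h 0 / Q 0 * Q y) ^ 2) := by
    refine integral_mono (integrable_bdd_mul (integrable_sq2 mj) expD_sc.bdd) (i3.const_mul 16)
      fun y => ?_
    beta_reduce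
    rw [← mul_assoc]
    refine mul_le_mul_of_nonneg_right ?_ (sq_nonneg _)
    rw [← mul_div_assoc, le_div_iff₀ (pow_pos (Q_pos y) 2)]
    exact (w_C2 y).2
  have k2 : ∫ y, Real.exp (-(|y - 0| / (1 / 6))) / Q y ^ 2 * (hy y + tn y * h y) ^ 2 ≤
      ∫ y, sc y * (hy y + tn y * h y) ^ 2 :=
    integral_mono i2 (integrable_bdd_mul (integrable_sq2 mg) expD_sc.bdd) fun y =>
      mul_le_mul_of_nonneg_right (wq_C2 y) (sq_nonneg _)
  have k3 : 0 ≤ ∫ y, sc y * (hy y + tn y * h y) ^ 2 :=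
    integral_nonneg fun y => mul_nonneg (sc_pos y).le (sq_nonneg _)
  rw [integral_const_mul] at k1
  linarith

theorem c2 : C2Stmt := by
  have h4 := integral_Q4_pos
  have hI : 0 ≤ ∫ y, C0 y ^ 2 / sc y :=
    integral_nonneg fun y => div_nonneg (sq_nonneg _) (sc_pos y).le
  have h2 : 0 ≤ ∫ y, sc y * Q y ^ 2 :=
    integral_nonneg fun y => mul_nonneg (sc_pos y).le (sq_nonneg _)
  have iI : Integrable fun y => C0 y ^ 2 / sc y := by
    refine ((expD_Q.pow 1).const_mul 3).integrable.congr (Eventually.of_forall fun y => ?_)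
    have := (sc_pos y).ne'
    have h5 := Q_pow4 y
    simp only [C0]
    field_simp
    linear_combination (-Q y ^ 2) * h5
  set I4 := ∫ y, Q y ^ 4 with hI4
  set I := ∫ y, C0 y ^ 2 / sc y with hII
  set I2 := ∫ y, sc y * Q y ^ 2 with hI2
  have hb : 0 ≤ 12 * I2 / I4 ^ 2 := by positivity
  have hb' : 12 * I2 / I4 ^ 2 * I4 ^ 2 = 12 * I2 := by field_simp
  generalize 12 * I2 / I4 ^ 2 = b at hb hb'
  have hD : 0 < 2 * (6 + b * I) + 2 := by positivity
  refine ⟨(2 * (6 + b * I) + 2)⁻¹, (2 * (6 + b * I) + 2)⁻¹ * b, by positivity, by positivity,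
    fun h hy H => ?_⟩
  have k0 := hardy_C2 H
  generalize h 0 / Q 0 = κ at k0
  have mg : MemLp (fun y => hy y + tn y * h y) 2 volume := H.2.1.add (memLp_bdd_mul H.1 bdd_tn)
  have mj : MemLp (fun y => h y - κ * Q y) 2 volume := H.1.sub (expD_Q.const_mul _).memLp
  have ig := integrable_bdd_mul (integrable_sq2 mg) expD_sc.bdd
  have ij := integrable_bdd_mul (integrable_sq2 mj) expD_sc.bdd
  have iq : Integrable fun y => sc y * Q y ^ 2 :=
    integrable_bdd_mul (integrable_sq2 expD_Q.memLp) expD_sc.bdd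
  have k1 := csd sc_pos (integrable_mul2 mj expD_C0.memLp) ij iI
  have k2 : ∫ y, (h y - κ * Q y) * C0 y = (∫ y, h y * C0 y) - κ * I4 := by
    rw [hI4, ← integral_const_mul, ← integral_sub (integrable_mul2 H.1 expD_C0.memLp)
      ((expD_Q.pow 3).const_mul κ).integrable]
    refine integral_congr_ae (Eventually.of_forall fun y => ?_)
    simp only [C0]
    ring
  have k3 : ∫ y, sc y * (h y ^ 2 + hy y ^ 2) ≤ ∫ y, (6 * (sc y * (h y - κ * Q y) ^ 2) +
      6 * κ ^ 2 * (sc y * Q y ^ 2) + 2 * (sc y * (hy y + tn y * h y) ^ 2)) := by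
    refine integral_mono (integrable_bdd_mul ((integrable_sq2 H.1).add (integrable_sq2 H.2.1))
      expD_sc.bdd) (((ij.const_mul 6).add (iq.const_mul _)).add (ig.const_mul 2)) fun y => ?_
    have t1 : tn y ^ 2 ≤ 1 := by
      have := sc_pos y
      rw [sc] at this
      linarith
    have t2 : h y ^ 2 + hy y ^ 2 ≤ 6 * (h y - κ * Q y) ^ 2 + 6 * κ ^ 2 * Q y ^ 2 +
        2 * (hy y + tn y * h y) ^ 2 := by
      nlinarith [sq_nonneg (h y - 2 * (κ * Q y)), sq_nonneg (hy y + 2 * (tn y * h y)),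
        mul_le_mul_of_nonneg_right t1 (sq_nonneg (h y))]
    have := mul_le_mul_of_nonneg_left t2 (sc_pos y).le
    beta_reduce
    linarith
  have ia : Integrable fun y => 6 * (sc y * (h y - κ * Q y) ^ 2) +
      6 * κ ^ 2 * (sc y * Q y ^ 2) := (ij.const_mul 6).add (iq.const_mul _)
  rw [integral_add ia (ig.const_mul 2), integral_add (ij.const_mul 6) (iq.const_mul _),
    integral_const_mul, integral_const_mul, integral_const_mul] at k3
  rw [k2, ← hII] at k1
  rw [← hI2] at k3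
  have k4 : 0 ≤ ∫ y, sc y * (hy y + tn y * h y) ^ 2 :=
    integral_nonneg fun y => mul_nonneg (sc_pos y).le (sq_nonneg _)
  generalize ∫ y, sc y * (hy y + tn y * h y) ^ 2 = S at *
  generalize ∫ y, sc y * (h y - κ * Q y) ^ 2 = J at *
  generalize ∫ y, h y * C0 y = a at *
  generalize ∫ y, sc y * (h y ^ 2 + hy y ^ 2) = T at *
  have k5 : (κ * I4) ^ 2 ≤ 2 * a ^ 2 + 2 * (J * I) := by nlinarith [sq_nonneg (2 * a - κ * I4)]
  have k6 : 6 * κ ^ 2 * I2 ≤ b * a ^ 2 + b * I * J := by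
    have := mul_le_mul_of_nonneg_left k5 hb
    have e : b * (κ * I4) ^ 2 = 12 * κ ^ 2 * I2 := by linear_combination κ ^ 2 * hb'
    linarith
  have k7 : b * I * J ≤ b * I * (2 * S) := mul_le_mul_of_nonneg_left k0 (by positivity)
  rw [mul_assoc, inv_mul_le_iff₀ hD, mul_add, mul_inv_cancel_left₀ hD.ne']
  linarith

end Pool.Agent.MP_8339a4_an
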