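import Pool.Agent.MP_8339a4_an.Api

/-! Conservation of mass and monotonicity of energy. -/

open MeasureTheory Filter Topology Set

namespace Pool.Agent.MP_8339a4_an

theorem cons (h1 : P1Stmt) (h2 : P2Stmt) : ConsStmt := by
  intro I u ux hu a b hab hI
  have k1 := h1 I u ux hu a b hab hI _ _ _ _ (Wt.const 1)
  have k2 := h2 I u ux hu a b hab hI _ _ _ _ (Wt.const 1) (fun _ => le_rfl) _ _ IsH1.zero
  simp only [fl1, fl2, mul_one, mul_zero, add_zero, zero_mul, sub_zero, zero_div, integral_zero,
    intervalIntegral.integral_zero] at k1 k2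
  exact ⟨by linarith, by linarith⟩

end Pool.Agent.MP_8339a4_an
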