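import Pool.Agent.MP_8339a4_an.EA

/-! Continuity in time of the scalar quantities. -/

open MeasureTheory Filter Topology Set

namespace Pool.Agent.MP_8339a4_an

theorem ut_ph_Cont (X : Dat) {s L : ℝ} (hs : X.s0 < s) (hL : 0 < L) :
    UT (𝓝 s) (fun z y => ph (X.r z) (X.A z) L y) (fun y => ph (X.r s) (X.A s) L y) :=
  (mw_ph (X.hasDerivAt_r hs) (X.hasDerivAt_A hs) (X.r_pos hs) hL).ut

theorem ut_ph1_Cont (X : Dat) {s L : ℝ} (hs : X.s0 < s) (hL : 0 < L) :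
    UT (𝓝 s) (fun z y => ph1 (X.r z) (X.A z) L y) (fun y => ph1 (X.r s) (X.A s) L y) :=
  (mw_ph1 (X.hasDerivAt_r hs) (X.hasDerivAt_A hs) (X.r_pos hs) hL).ut

theorem ut_WW_Cont (X : Dat) {s B : ℝ} (hs : X.s0 < s) (hB : 0 < B) :
    UT (𝓝 s) (fun z y => WW (X.r z) (X.A z) B y) (fun y => WW (X.r s) (X.A s) B y) :=
  (UT.of_tendsto ((X.hasDerivAt_A hs).div_const B).exp.continuousAt).mul (ut_ph_Cont X hs hB)

theorem l1_hH_Cont (X : Dat) {s : ℝ} (hs : X.s0 < s) :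
    L1T (𝓝 s) (fun z y => X.ey z y ^ 2 + X.e z y ^ 2 - PP y (X.e z y))
      (fun y => X.ey s y ^ 2 + X.e s y ^ 2 - PP y (X.e s y)) := by
  have h := (X.st.flow s hs).h1t
  have a1 := (X.h1tU hs).pow 4
  have a2 := L1T.const (l := 𝓝 s) (expD_Q.pow 5).integrable
  have a3 := ((L2T.const (expD_Q.pow 4).memLp).mul h.l2).const_mul 6
  exact ((h.l2y.sq.add h.l2.sq).sub (((a1.sub a2).sub a3).const_mul (1 / 3))).congr
    (Eventually.of_forall fun _ _ => by unfold PP; ring) (fun _ => by unfold PP; ring)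

theorem cont : ContStmt := by
  intro X B hB s hs
  have h := (X.st.flow s hs).h1t
  have hU := X.h1tU hs
  have w0 := ut_ph_Cont X hs X.K_pos
  have w1 := ut_ph1_Cont X hs X.K_pos
  have w2 := ut_WW_Cont X hs hB
  refine ⟨(h.l2y.sq.ut_mul w1).tendsto_integral, (hU.en.mul_ut w0).tendsto_integral,
    ((h.l2.sq.add h.l2y.sq).ut_mul (w2.mul ((UT.const (Bdd.const 1)).sub w0))).tendsto_integral,
    ?_⟩
  exact ((l1_hH_Cont X hs).mul_ut w2).tendsto_integral.sub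
    (hU.l2.sq.mul_ut (w2.mul w0)).tendsto_integral

end Pool.Agent.MP_8339a4_an
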