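import Pool.Agent.MP_8339a4_an.Defs

/-! Working definitions for the proof (none of them occurs in the final statement). -/

open MeasureTheory Filter Topology Set

namespace Pool.Agent.MP_8339a4_an

noncomputable section

/-! ### Function classes -/

/-- `f` is a primitive of the locally integrable function `g`. -/
def IsPrim (f g : ℝ → ℝ) : Prop :=
  (∀ a b : ℝ, IntervalIntegrable g volume a b) ∧ ∀ a b : ℝ, f b - f a = ∫ x in a..b, g x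

/-- Bounded continuous. -/
def Bdd (f : ℝ → ℝ) : Prop := Continuous f ∧ ∃ C : ℝ, ∀ y, |f y| ≤ C

/-- Continuous with exponential decay. -/
def ExpD (f : ℝ → ℝ) : Prop :=
  Continuous f ∧ ∃ C c : ℝ, 0 < c ∧ ∀ y, |f y| ≤ C * Real.exp (-(c * |y|))

/-- `C^3` function with its first three derivatives. -/
structure Sm3 (f f1 f2 f3 : ℝ → ℝ) : Prop where
  d1 : ∀ y, HasDerivAt f (f1 y) y
  d2 : ∀ y, HasDerivAt f1 (f2 y) y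
  d3 : ∀ y, HasDerivAt f2 (f3 y) y
  c3 : Continuous f3

/-- Test function: `C^3`, exponentially decaying with three derivatives. -/
structure Test (f f1 f2 f3 : ℝ → ℝ) : Prop where
  sm : Sm3 f f1 f2 f3
  e0 : ExpD f
  e1 : ExpD f1
  e2 : ExpD f2
  e3 : ExpD f3

/-- Weight: `C^3`, bounded with three derivatives, `y W'(y)` bounded. -/
structure Wt (f f1 f2 f3 : ℝ → ℝ) : Prop where
  sm : Sm3 f f1 f2 f3
  b0 : Bdd f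
  b1 : Bdd f1
  b2 : Bdd f2
  b3 : Bdd f3
  by1 : Bdd (fun y => y * f1 y)

/-- The upper right Dini derivative of `f` at `s` is at most `c`. -/
def DiniLe (f : ℝ → ℝ) (s c : ℝ) : Prop := ∀ r, c < r → ∀ᶠ z in 𝓝[>] s, slope f s z < r

/-! ### Modes of convergence of families of functions along a filter -/

/-- Uniform convergence of bounded continuous functions. -/
def UT {α : Type} (l : Filter α) (f : α → ℝ → ℝ) (g : ℝ → ℝ) : Prop :=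
  (∀ᶠ z in l, Bdd (f z)) ∧ Bdd g ∧ ∀ ε : ℝ, 0 < ε → ∀ᶠ z in l, ∀ y, |f z y - g y| ≤ ε

/-- Convergence in `L^2`. -/
def L2T {α : Type} (l : Filter α) (f : α → ℝ → ℝ) (g : ℝ → ℝ) : Prop :=
  (∀ᶠ z in l, MemLp (f z) 2 volume) ∧ MemLp g 2 volume ∧
    Tendsto (fun z => ∫ y, (f z y - g y) ^ 2) l (𝓝 0)

/-- Convergence in `L^1`. -/
def L1T {α : Type} (l : Filter α) (f : α → ℝ → ℝ) (g : ℝ → ℝ) : Prop :=
  (∀ᶠ z in l, Integrable (f z)) ∧ Integrable g ∧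
    Tendsto (fun z => ∫ y, |f z y - g y|) l (𝓝 0)

/-- Convergence in `H^1`. -/
def H1T {α : Type} (l : Filter α) (f fy : α → ℝ → ℝ) (g gy : ℝ → ℝ) : Prop :=
  (∀ᶠ z in l, IsH1 (f z) (fy z)) ∧ IsH1 g gy ∧
    Tendsto (fun z => ∫ y, ((f z y - g y) ^ 2 + (fy z y - gy y) ^ 2)) l (𝓝 0)

/-- Moving bounded weight: pointwise time derivative `wt` at time `s`, uniform Lipschitz bound. -/
def MW (w : ℝ → ℝ → ℝ) (wt : ℝ → ℝ) (s : ℝ) : Prop :=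
  (∀ᶠ z in 𝓝 s, Bdd (w z)) ∧ Continuous wt ∧ (∀ y, HasDerivAt (fun z => w z y) (wt y) s) ∧
    ∃ C : ℝ, ∀ᶠ z in 𝓝 s, ∀ y, |w z y - w s y| ≤ C * |z - s|

/-- Moving weight with an exponentially decaying Lipschitz envelope. -/
def ME (w : ℝ → ℝ → ℝ) (wt : ℝ → ℝ) (s : ℝ) : Prop :=
  (∀ᶠ z in 𝓝 s, Continuous (w z)) ∧ Continuous wt ∧
    (∀ y, HasDerivAt (fun z => w z y) (wt y) s) ∧
    ∃ C c : ℝ, 0 < c ∧ ∀ᶠ z in 𝓝 s, ∀ y, |w z y - w s y| ≤ C * |z - s| * Real.exp (-(c * |y|))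

/-! ### The soliton and related functions -/

/-- `tanh (2y) = -Q'/Q`. -/
def tn (y : ℝ) : ℝ := Real.tanh (2 * y)
/-- `sech^2 (2y)`. -/
def sc (y : ℝ) : ℝ := 1 - tn y ^ 2
def Q1 (y : ℝ) : ℝ := -(tn y * Q y)
def Q2 (y : ℝ) : ℝ := Q y - Q y ^ 5
/-- The potential of the linearised operator `L = -∂² + 1 - V`. -/
def V (y : ℝ) : ℝ := 5 * Q y ^ 4
def V1 (y : ℝ) : ℝ := -(4 * tn y * V y)
def Q3 (y : ℝ) : ℝ := Q1 y * (1 - V y)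
def Q4 (y : ℝ) : ℝ := Q2 y * (1 - V y) - Q1 y * V1 y
/-- `Q^3` and its derivatives. -/
def C0 (y : ℝ) : ℝ := Q y ^ 3
def C1 (y : ℝ) : ℝ := -(3 * tn y * Q y ^ 3)
def C2 (y : ℝ) : ℝ := (9 - V y) * Q y ^ 3
def C3 (y : ℝ) : ℝ := tn y * (7 * V y - 27) * Q y ^ 3
/-- `ΛQ = Q/2 + yQ'` and its derivatives. -/
def LQ (y : ℝ) : ℝ := Q y / 2 + y * Q1 y
def LQ1 (y : ℝ) : ℝ := 3 / 2 * Q1 y + y * Q2 y
def LQ2 (y : ℝ) : ℝ := 5 / 2 * Q2 y + y * Q3 y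
/-- Primitive of `ΛQ` vanishing at `-∞`. -/
def rho (y : ℝ) : ℝ := ∫ x in Iic y, LQ x
/-- `∫ ΛQ`. -/
def mm : ℝ := ∫ x, LQ x
/-- The nonlinear remainder `U^5 - Q^5 - 5 Q^4 e` at the point `y`, for the value `e`. -/
def NN (y e : ℝ) : ℝ := (Q y + e) ^ 5 - Q y ^ 5 - 5 * Q y ^ 4 * e
/-- `(U^6 - Q^6 - 6 Q^5 e)/3` at the point `y`, for the value `e`. -/
def PP (y e : ℝ) : ℝ := ((Q y + e) ^ 6 - Q y ^ 6 - 6 * Q y ^ 5 * e) / 3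

/-! ### The logistic function -/

def P0 (x : ℝ) : ℝ := Real.sigmoid x
def P1 (x : ℝ) : ℝ := P0 x * (1 - P0 x)
def P2 (x : ℝ) : ℝ := P1 x * (1 - 2 * P0 x)
def P3 (x : ℝ) : ℝ := P1 x * (1 - 6 * P1 x)
def P4 (x : ℝ) : ℝ := P2 x * (1 - 12 * P1 x)

/-- The step `Ψ((r y - A)/K)` and its `y`-derivatives. -/
def ph (r A K y : ℝ) : ℝ := P0 ((r * y - A) / K)
def ph1 (r A K y : ℝ) : ℝ := r / K * P1 ((r * y - A) / K)
def ph2 (r A K y : ℝ) : ℝ := (r / K) ^ 2 * P2 ((r * y - A) / K)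
def ph3 (r A K y : ℝ) : ℝ := (r / K) ^ 3 * P3 ((r * y - A) / K)
def ph4 (r A K y : ℝ) : ℝ := (r / K) ^ 4 * P4 ((r * y - A) / K)

/-! ### Right-hand sides of the local laws -/

/-- Physical variables: mass flux density. -/
def fl1 (u ux W1 W3 : ℝ) : ℝ := -3 * ux ^ 2 * W1 + u ^ 2 * W3 + 5 / 3 * u ^ 6 * W1

/-- Physical variables: upper bound for the energy flux density (`g` is an arbitrary `H^1`
function standing for `u_xx`). -/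
def fl2 (u ux g gy W1 W2 W3 : ℝ) : ℝ :=
  3 * (2 * (gy * W1 + g * W2) * ux + g ^ 2 * W1) + 20 * u ^ 4 * ux ^ 2 * W1 - u ^ 10 * W1
    - u ^ 6 * W3 / 3 + ux ^ 2 * W3

/-- Energy density. -/
def en (u ux : ℝ) : ℝ := ux ^ 2 - u ^ 6 / 3

/-- Derivative of `∫ e θ` in rescaled variables. -/
def rhs0 (β γ : ℝ) (e θ θ1 θ3 : ℝ → ℝ) : ℝ :=
  ∫ y, (e y * (θ3 y - θ1 y + V y * θ1 y) + NN y (e y) * θ1 y - β * (LQ y * θ y)
    + γ * (Q1 y * θ y) + β * (e y * (θ y / 2 + y * θ1 y)) - γ * (e y * θ1 y))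

/-- Derivative of `∫ U² W` in rescaled variables, `U = Q + e`. -/
def rhs1 (β γ : ℝ) (e ey W1 W3 : ℝ → ℝ) : ℝ :=
  ∫ y, (fl1 (Q y + e y) (Q1 y + ey y) (W1 y) (W3 y) - (1 + γ) * ((Q y + e y) ^ 2 * W1 y)
    + β * ((Q y + e y) ^ 2 * (y * W1 y)))

/-- Upper bound for the derivative of `∫ (U_y² - U⁶/3) W` in rescaled variables. -/
def rhs2 (β γ : ℝ) (e ey g gy W W1 W2 W3 : ℝ → ℝ) : ℝ :=
  ∫ y, (fl2 (Q y + e y) (Q1 y + ey y) (g y) (gy y) (W1 y) (W2 y) (W3 y)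
    - (1 + γ) * (en (Q y + e y) (Q1 y + ey y) * W1 y)
    - 2 * β * (en (Q y + e y) (Q1 y + ey y) * W y)
    + β * (en (Q y + e y) (Q1 y + ey y) * (y * W1 y)))

/-- The rescaled, modulated flow at time `s`; `w` is the speed of the clock (`w = lam^(-3)` in the
physical time, `w = 1` in the rescaled time). -/
structure FlowAt (e ey : ℝ → ℝ → ℝ) (lam β γ : ℝ → ℝ) (w s : ℝ) : Prop where
  h1t : H1T (𝓝 s) e ey (e s) (ey s)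
  pos : 0 < lam s
  dlam : HasDerivAt lam (w * (-(β s) * lam s)) s
  orth : ∀ᶠ z in 𝓝 s, (∫ y, e z y * C0 y) = 0 ∧ (∫ y, e z y * Q1 y) = 0
  d0 : ∀ θ θ1 θ2 θ3 : ℝ → ℝ, Test θ θ1 θ2 θ3 →
    HasDerivAt (fun z => ∫ y, e z y * θ y) (w * rhs0 (β s) (γ s) (e s) θ θ1 θ3) s
  d1 : ∀ W W1 W2 W3 : ℝ → ℝ, Wt W W1 W2 W3 →
    HasDerivAt (fun z => ∫ y, (Q y + e z y) ^ 2 * W y)
      (w * rhs1 (β s) (γ s) (e s) (ey s) W1 W3) s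
  d2 : ∀ W W1 W2 W3 : ℝ → ℝ, Wt W W1 W2 W3 → (∀ y, 0 ≤ W1 y) → ∀ g gy : ℝ → ℝ, IsH1 g gy →
    DiniLe (fun z => ∫ y, en (Q y + e z y) (Q1 y + ey z y) * W y) s
      (w * rhs2 (β s) (γ s) (e s) (ey s) g gy W W1 W2 W3)

/-- `∫ Q e²`. -/
def N0 (e : ℝ → ℝ) : ℝ := ∫ y, Q y * e y ^ 2
/-- `∫ e Q`. -/
def mu (e : ℝ → ℝ) : ℝ := ∫ y, e y * Q y
/-- `∫ Ψ'(y/b) (e² + e_y²)`. -/
def Nw (b : ℝ) (e ey : ℝ → ℝ) : ℝ := ∫ y, P1 (y / b) * (e y ^ 2 + ey y ^ 2)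

/-- Local mass at most `d` on all intervals of length `l`. -/
def LocM (e : ℝ → ℝ) (l d : ℝ) : Prop := ∀ x : ℝ, ∫ y in x..(x + l), e y ^ 2 ≤ d

/-- The situation in rescaled time `s → ∞`. -/
structure Setup (κ s0 r0 r1 M η d Cp : ℝ) (e ey : ℝ → ℝ → ℝ) (lam β γ : ℝ → ℝ) : Prop where
  hs0 : 1 ≤ s0
  hr0 : 0 < r0
  hη : 0 < η
  hd : d < ∫ y, Q y ^ 2
  flow : ∀ s, s0 < s → FlowAt e ey lam β γ 1 s
  rate : ∀ s, s0 < s → r0 ≤ lam s * s ^ κ ∧ lam s * s ^ κ ≤ r1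
  mass : ∀ s, s0 < s → ∫ y, e s y ^ 2 ≤ M
  loc : ∀ s, s0 < s → LocM (e s) (η / lam s) d
  n0 : Tendsto (fun s => N0 (e s)) atTop (𝓝 0)
  ey0 : Tendsto (fun s => ∫ y, ey s y ^ 2) atTop (𝓝 0)
  par : ∀ s, s0 < s → β s ^ 2 + γ s ^ 2 ≤ Cp * N0 (e s)
  mulo : ∀ s, s0 < s → -(Cp * (lam s ^ 2 + N0 (e s))) ≤ mu (e s)

/-- The situation after the reflection `(t,x) ↦ (-t,-x)`: blow-up forward in time at `t = 0`. -/
structure Phys (T ν : ℝ) (u ux : ℝ → ℝ → ℝ) (lt st : ℝ → ℝ) (x0 : ℝ) : Prop where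
  neg : T < 0
  sol : IsSol (Ico T 0) u ux
  rate : ∃ c C : ℝ, 0 < c ∧ ∀ t ∈ Ico T (0 : ℝ), c * (-t) ^ (-ν) ≤ Real.sqrt (∫ x, ux t x ^ 2) ∧
    Real.sqrt (∫ x, ux t x ^ 2) ≤ C * (-t) ^ (-ν)
  clt : ContinuousOn lt (Ico T 0)
  cst : ContinuousOn st (Ico T 0)
  pos : ∀ t ∈ Ico T (0 : ℝ), 0 < lt t
  lt0 : Tendsto lt (𝓝[<] 0) (𝓝 0)
  st0 : Tendsto st (𝓝[<] 0) (𝓝 x0)
  conv : ∀ R : ℝ, 0 < R → Tendsto
    (fun t => ∫ y in (-R)..R, (Real.sqrt (lt t) * u t (lt t * y + st t) - Q y) ^ 2)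
    (𝓝[<] 0) (𝓝 0)
  single : ∃ η d : ℝ, 0 < η ∧ d < ∫ y, Q y ^ 2 ∧ ∀ᶠ t in 𝓝[<] (0 : ℝ), ∀ x : ℝ,
    ∫ z in x..(x + η), (u t z - Q ((z - st t) / lt t) / Real.sqrt (lt t)) ^ 2 ≤ d

/-- The rescaled remainder and its derivative. -/
def resc (u : ℝ → ℝ → ℝ) (lam sig : ℝ → ℝ) (t y : ℝ) : ℝ :=
  Real.sqrt (lam t) * u t (lam t * y + sig t) - Q y
def rescy (ux : ℝ → ℝ → ℝ) (lam sig : ℝ → ℝ) (t y : ℝ) : ℝ :=
  Real.sqrt (lam t) * lam t * ux t (lam t * y + sig t) - Q1 y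

/-- Differentiable modulation parameters with the two orthogonality conditions on `(T1, 0)`. -/
structure Modu (T1 : ℝ) (u : ℝ → ℝ → ℝ) (lam sig lam' sig' : ℝ → ℝ) : Prop where
  neg : T1 < 0
  pos : ∀ t ∈ Ioo T1 (0 : ℝ), 0 < lam t
  dl : ∀ t ∈ Ioo T1 (0 : ℝ), HasDerivAt lam (lam' t) t
  ds : ∀ t ∈ Ioo T1 (0 : ℝ), HasDerivAt sig (sig' t) t
  orth : ∀ t ∈ Ioo T1 (0 : ℝ),
    (∫ y, resc u lam sig t y * C0 y) = 0 ∧ (∫ y, resc u lam sig t y * Q1 y) = 0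

/-! ### The weights and the scalar quantities at a fixed time
(`r = lam s * s^κ`, `A = CA * log s`) -/

/-- `W = e^{A/B} Ψ((ry - A)/B)` and its derivatives. -/
def WW (r A B y : ℝ) : ℝ := Real.exp (A / B) * ph r A B y
def WW1 (r A B y : ℝ) : ℝ := Real.exp (A / B) * ph1 r A B y
def WW2 (r A B y : ℝ) : ℝ := Real.exp (A / B) * ph2 r A B y
def WW3 (r A B y : ℝ) : ℝ := Real.exp (A / B) * ph3 r A B y
def WW4 (r A B y : ℝ) : ℝ := Real.exp (A / B) * ph4 r A B y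
/-- `ψ_M = W (1 - φ)`. -/
def pM (r A K B y : ℝ) : ℝ := WW r A B y * (1 - ph r A K y)

def qa (r A K : ℝ) (e : ℝ → ℝ) : ℝ := ∫ y, e y * ph1 r A K y
def qf (r A K : ℝ) (ey : ℝ → ℝ) : ℝ := ∫ y, ph1 r A K y * ey y ^ 2
def qK (r A K : ℝ) (ey : ℝ → ℝ) : ℝ := ∫ y, ph r A K y * ey y ^ 2
def q6 (r A K : ℝ) (e : ℝ → ℝ) : ℝ := ∫ y, ph r A K y * e y ^ 6
def qm (r A K : ℝ) (e : ℝ → ℝ) : ℝ := ∫ y, (Q y + e y) ^ 2 * ph r A K y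
def qe (r A K : ℝ) (e ey : ℝ → ℝ) : ℝ := ∫ y, en (Q y + e y) (Q1 y + ey y) * ph r A K y
def qaL (r A K : ℝ) (e : ℝ → ℝ) : ℝ := ∫ y, e y * (ph1 r (-A) K y - ph3 r (-A) K y)
def qD (r A K B : ℝ) (e ey : ℝ → ℝ) : ℝ := ∫ y, pM r A K B y * (e y ^ 2 + ey y ^ 2)
/-- `J_R` is `qJ r A K e`, `J_L` is `qJ r (-A) K e`. -/
def qJ (r A K : ℝ) (e : ℝ → ℝ) : ℝ := ∫ y, e y * (rho y - mm * ph r A K y)
def qM (r A K : ℝ) (e : ℝ → ℝ) : ℝ :=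
  (∫ y, (Q y + e y) ^ 2 * (ph r (-A) K y - ph r A K y)) - ∫ y, Q y ^ 2
/-- `∫ W (e_y² + e² - P)` for a general weight. -/
def qH (W e ey : ℝ → ℝ) : ℝ := ∫ y, (ey y ^ 2 + e y ^ 2 - PP y (e y)) * W y
def qF (r A K B : ℝ) (e ey : ℝ → ℝ) : ℝ :=
  qH (WW r A B) e ey - ∫ y, (Q y + e y) ^ 2 * (WW r A B y * ph r A K y)

/-- `r(s) = lam(s) s^κ`. -/
def rr (κ : ℝ) (lam : ℝ → ℝ) (s : ℝ) : ℝ := lam s * s ^ κ
/-- `A(s) = CA log s`. -/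
def AA (CA s : ℝ) : ℝ := CA * Real.log s
/-- `Λ(s) = s^(1/100)`. -/
def Lm (s : ℝ) : ℝ := s ^ ((1 : ℝ) / 100)

/-- Constraints on the parameters `K`, `CA`. -/
structure Par (κ r1 K CA : ℝ) : Prop where
  hκ : 3 / 2 ≤ κ
  hK : 100 * (r1 + 1) ≤ K
  hCA : (2 * κ + 10) * K ≤ CA

end

end Pool.Agent.MP_8339a4_an
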