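import Mathlib

/-! Definitions used in the statement for the critical gKdV equation. -/

open MeasureTheory Filter Topology Set

namespace Pool.Agent.MP_8339a4_an

/-- The ground state `Q(y) = (3 sech^2 (2y))^(1/4)`. -/
noncomputable def Q (y : ℝ) : ℝ := (3 / Real.cosh (2 * y) ^ 2) ^ ((1 : ℝ) / 4)

/-- `f` is (the continuous representative of) an `H^1(ℝ)` function with weak derivative `g`. -/
def IsH1 (f g : ℝ → ℝ) : Prop :=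
  MemLp f 2 volume ∧ MemLp g 2 volume ∧ ∀ a b : ℝ, f b - f a = ∫ x in a..b, g x

/-- `u ∈ C(I; H^1(ℝ))`, with space derivative `ux`, solves `u_t + (u_xx + u^5)_x = 0` on the time
interval `I` in the sense of distributions. -/
structure IsSol (I : Set ℝ) (u ux : ℝ → ℝ → ℝ) : Prop where
  h1 : ∀ t ∈ I, IsH1 (u t) (ux t)
  cont : ∀ t ∈ I, Tendsto (fun s => ∫ x, ((u s x - u t x) ^ 2 + (ux s x - ux t x) ^ 2))
    (𝓝[I] t) (𝓝 0)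
  weak : ∀ φ : ℝ → ℝ, ContDiff ℝ ((⊤ : ℕ∞) : WithTop ℕ∞) φ → HasCompactSupport φ →
    ∀ a ∈ I, ∀ b ∈ I, (∫ x, u b x * φ x) - (∫ x, u a x * φ x) =
      ∫ t in a..b, ∫ x, (u t x * iteratedDeriv 3 φ x + u t x ^ 5 * deriv φ x)

/-- Power rate `t^(-ν)` of the `L^2` norm of the space derivative on `(0, t0]`. -/
def PowerRate (t0 ν : ℝ) (ux : ℝ → ℝ → ℝ) : Prop :=
  ∃ c C : ℝ, 0 < c ∧ c < C ∧ ∀ t ∈ Ioc (0 : ℝ) t0,
    c * t ^ (-ν) ≤ Real.sqrt (∫ x, ux t x ^ 2) ∧ Real.sqrt (∫ x, ux t x ^ 2) ≤ C * t ^ (-ν)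

/-- Blow-up at the finite point `x0` with scale `lam` and centre `sig`. -/
structure Bubble (t0 : ℝ) (u : ℝ → ℝ → ℝ) (lam sig : ℝ → ℝ) (x0 : ℝ) : Prop where
  clam : ContinuousOn lam (Ioc 0 t0)
  csig : ContinuousOn sig (Ioc 0 t0)
  pos : ∀ t ∈ Ioc (0 : ℝ) t0, 0 < lam t
  lam0 : Tendsto lam (𝓝[>] 0) (𝓝 0)
  sig0 : Tendsto sig (𝓝[>] 0) (𝓝 x0)
  conv : ∀ R : ℝ, 0 < R → Tendsto
    (fun t => ∫ y in (-R)..R, (Real.sqrt (lam t) * u t (lam t * y + sig t) - Q y) ^ 2)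
    (𝓝[>] 0) (𝓝 0)

/-- No second bubble: near the blow-up time, the remainder `u - lam^(-1/2) Q((x - sig)/lam)` has
mass at most `d < ∫ Q^2` on every interval of a fixed length `η`. -/
def Single (u : ℝ → ℝ → ℝ) (lam sig : ℝ → ℝ) : Prop :=
  ∃ η d : ℝ, 0 < η ∧ d < ∫ y, Q y ^ 2 ∧ ∀ᶠ t in 𝓝[>] (0 : ℝ), ∀ x : ℝ,
    ∫ z in x..(x + η), (u t z - Q ((z - sig t) / lam t) / Real.sqrt (lam t)) ^ 2 ≤ d

end Pool.Agent.MP_8339a4_an
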