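import Pool.Agent.MP_8339a4_an.EA

/-! The derivative of the mixed functional. -/

open MeasureTheory Filter Topology Set

namespace Pool.Agent.MP_8339a4_an

theorem l1t_PP_E2 (X : Dat) {s : ℝ} (hs : X.s0 < s) :
    L1T (𝓝 s) (fun z y => PP y (X.e z y)) (fun y => PP y (X.e s y)) := by
  have h := (X.st.flow s hs).h1t
  have h1 := (X.h1tU hs).pow 4
  have h2 : L1T (𝓝 s) (fun (_ : ℝ) y => Q y ^ (5 + 1)) (fun y => Q y ^ (5 + 1)) :=
    L1T.const (expD_Q.pow 5).integrable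
  have h3 := (L2T.const (l := 𝓝 s) (expD_Q.pow 4).memLp).mul h.l2
  refine (((h1.sub h2).sub (h3.const_mul 6)).const_mul (1 / 3)).congr
    (Eventually.of_forall fun z y => ?_) fun y => ?_
  · simp only [PP]
    ring
  · simp only [PP]
    ring

theorem l1t_hH_E2 (X : Dat) {s : ℝ} (hs : X.s0 < s) :
    L1T (𝓝 s) (fun z y => hH y (X.e z y) (X.ey z y)) (fun y => hH y (X.e s y) (X.ey s y)) :=
  ((X.st.flow s hs).h1t.l2y.sq.add (X.st.flow s hs).h1t.l2.sq).sub (l1t_PP_E2 X hs)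

theorem int_hT1_E2 {e p W1 W2 W3 : ℝ → ℝ} (h : IsH1 e p)
    (hU : IsH1 (fun y => Q y + e y) (fun y => Q1 y + p y)) (b1 : Bdd W1) (b2 : Bdd W2)
    (b3 : Bdd W3) : Integrable fun y => hT1 y (e y) (p y) (W1 y) (W2 y) (W3 y) := by
  have m1 : MemLp (fun y => V y * e y) 2 volume := memLp_bdd_mul h.1 expD_V.bdd
  have m2 : MemLp (fun y => V1 y * e y + V y * p y) 2 volume :=
    (memLp_bdd_mul h.1 expD_V1.bdd).add (memLp_bdd_mul h.2.1 expD_V.bdd)
  have m3 : MemLp (fun y => (V1 y * e y + V y * p y) * W1 y + V y * e y * W2 y) 2 volume :=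
    (memLp_mul_bdd m2 b1).add (memLp_mul_bdd m1 b2)
  have m4 : MemLp (fun y => (Q y + e y) ^ 4 * (Q1 y + p y) - Q y ^ 4 * Q1 y) 2 volume :=
    (memLp_bdd_mul hU.2.1 (hU.bdd.pow 4)).sub (memLp_bdd_mul expD_Q1.memLp (expD_Q.bdd.pow 4))
  have m5 : MemLp (fun y => p y - 5 * ((Q y + e y) ^ 4 * (Q1 y + p y) - Q y ^ 4 * Q1 y)) 2
      volume := h.2.1.sub (m4.const_mul 5)
  have m6 : MemLp (fun y => e y - ((Q y + e y) ^ 5 - Q y ^ 5)) 2 volume :=
    h.1.sub ((hU.memLp_pow 4).sub (expD_Q.pow 4).memLp)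
  have j1 := (integrable_mul2 m3 h.2.1).const_mul (-6)
  have j2 := (integrable_mul_bdd (integrable_sq2 m1) b1).const_mul 3
  have j3 := (integrable_mul_bdd (integrable_mul2 m5 h.2.1) b1).const_mul (-4)
  have j4 := (integrable_mul_bdd (integrable_mul2 m6 h.2.1) b2).const_mul (-2)
  have j5 := (integrable_mul_bdd (integrable_sq2 m6) b1).const_mul (-1)
  have j6 := integrable_mul_bdd (integrable_sq2 h.2.1) b3
  refine (((((j1.add j2).add j3).add j4).add j5).add j6).congr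
    (Eventually.of_forall fun y => ?_)
  simp only [hT1, Pi.add_apply]
  ring

theorem int_hT2_E2 {e W W1 : ℝ → ℝ} (β γ : ℝ) (h : MemLp e 2 volume) (b0 : Bdd W) (b1 : Bdd W1) :
    Integrable fun y => hT2 β γ y (e y) (W y) (W1 y) := by
  have j1 := (integrable_mul2 h (expD_Q.mul_bdd b0).memLp).const_mul (4 * β)
  have j2 := (integrable_mul2 h (expD_LQ1.mul_bdd b1).memLp).const_mul (2 * β)
  have j3 := (integrable_mul2 h (expD_Q2.mul_bdd b1).memLp).const_mul (-(2 * γ))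
  refine ((j1.add j2).add j3).congr (Eventually.of_forall fun y => ?_)
  simp only [hT2, Pi.add_apply]
  ring

theorem int_hT3_E2 {e p W W1 : ℝ → ℝ} (β γ : ℝ) (h : MemLp p 2 volume)
    (i1 : Integrable fun y => hH y (e y) (p y)) (i2 : Integrable fun y => PP y (e y))
    (b0 : Bdd W) (b1 : Bdd W1) : Integrable fun y => hT3 β γ y (e y) (p y) (W y) (W1 y) := by
  have j1 := (integrable_mul_bdd i1 b1).const_mul (-γ)
  have j2 := (integrable_mul_bdd (integrable_sq2 h) b0).const_mul (-(2 * β))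
  have j3 := (integrable_mul_bdd i2 b0).const_mul (2 * β)
  refine ((j1.add j2).add j3).congr (Eventually.of_forall fun y => ?_)
  simp only [hT3, Pi.add_apply]
  ring

theorem bdd_dr_E2 (X : Dat) (s k : ℝ) {W W1 W2 W3 : ℝ → ℝ} (h : Wt W W1 W2 W3) :
    Bdd fun y => k * W y + X.dr s y * W1 y := by
  refine (((h.b0.const_mul k).add (h.by1.const_mul (X.κ / s))).sub
    (h.b1.const_mul (X.CA / (s * X.r s)))).congr fun y => ?_
  simp only [Dat.dr]
  ring

theorem split_E2 {ρ G W1 : ℝ → ℝ} (β : ℝ) (i : Integrable ρ) (bG : Bdd G)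
    (b1 : Bdd fun y => y * W1 y) :
    ∫ y, ρ y * (G y - β * (y * W1 y)) = (∫ y, ρ y * G y) - β * ∫ y, ρ y * (y * W1 y) := by
  rw [← integral_const_mul, ← integral_sub (integrable_mul_bdd i bG)
    ((integrable_mul_bdd i b1).const_mul β)]
  refine integral_congr_ae (Eventually.of_forall fun y => ?_)
  ring

theorem mw_ph_E2 (X : Dat) {s K : ℝ} (hs : X.s0 < s) (hK : 0 < K) :
    MW (fun z y => ph (X.r z) (X.A z) K y)
      (fun y => ph1 (X.r s) (X.A s) K y * (X.dr s y - X.β s * y)) s := by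
  have h0 := X.r_pos hs
  have h1 : 0 < s := lt_trans one_pos (X.one_lt hs)
  refine (mw_ph (X.hasDerivAt_r hs) (X.hasDerivAt_A hs) h0 hK).congr
    (Eventually.of_forall fun _ _ => rfl) fun y => ?_
  simp only [Dat.dr]
  field_simp
  ring

theorem mw_WW_E2 (X : Dat) {s B : ℝ} (hs : X.s0 < s) (hB : 0 < B) :
    MW (fun z y => WW (X.r z) (X.A z) B y)
      (fun y => X.CA / (s * B) * WW (X.r s) (X.A s) B y + X.dr s y * WW1 (X.r s) (X.A s) B y
        - X.β s * (y * WW1 (X.r s) (X.A s) B y)) s := by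
  have h1 : 0 < s := lt_trans one_pos (X.one_lt hs)
  refine ((MW.of_scalar ((X.hasDerivAt_A hs).div_const B).exp).mul (mw_ph_E2 X hs hB)).congr
    (Eventually.of_forall fun _ _ => rfl) fun y => ?_
  simp only [WW, WW1]
  field_simp
  ring

theorem mw_om_E2 (X : Dat) {s B : ℝ} (hs : X.s0 < s) (hB : 0 < B) :
    MW (fun z y => om (X.r z) (X.A z) X.K B y)
      (fun y => X.CA / (s * B) * om (X.r s) (X.A s) X.K B y
        + X.dr s y * om1 (X.r s) (X.A s) X.K B y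
        - X.β s * (y * om1 (X.r s) (X.A s) X.K B y)) s := by
  refine ((mw_WW_E2 X hs hB).mul (mw_ph_E2 X hs X.K_pos)).congr
    (Eventually.of_forall fun _ _ => rfl) fun y => ?_
  simp only [om, om1]
  ring

theorem e2 (h : HStmt) : E2Stmt := by
  intro X B hB s hs
  have hr := X.r_pos hs
  have fl := X.st.flow s hs
  have wW := wt_WW hr hB (X.A s)
  have wo := wt_om hr X.K_pos hB (X.A s)
  have lH := l1t_hH_E2 X hs
  have lU : L1T (𝓝 s) (fun z y => (Q y + X.e z y) ^ 2) (fun y => (Q y + X.e s y) ^ 2) :=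
    (X.h1tU hs).l2.sq
  have d1 := mov_l1_dini (ρ := fun z y => hH y (X.e z y) (X.ey z y)) lH (mw_WW_E2 X hs hB)
    (h X.e X.ey X.lam X.β X.γ s fl _ _ _ _ _ wW (hasDerivAt_WW3 _ _ _) (bdd_WW4 hr hB _)
      fun y => (WW1_pos hr hB _ y).le)
  have d2 := mov_l1 (ρ := fun z y => (Q y + X.e z y) ^ 2) lU (mw_om_E2 X hs hB)
    (fl.d1 _ _ _ _ wo)
  refine (d1.sub_hasDerivAt d2).mono (le_of_eq ?_)
  have iH := lH.2.1
  have iU := lU.2.1
  have i1 := int_hT1_E2 (X.h1 hs) (X.h1U hs) wW.b1 wW.b2 wW.b3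
  have i2 := int_hT2_E2 (X.β s) (X.γ s) (X.h1 hs).1 wW.b0 wW.b1
  have i3 := int_hT3_E2 (X.β s) (X.γ s) (X.h1 hs).2.1 iH (l1t_PP_E2 X hs).2.1 wW.b0 wW.b1
  have i4 := (integrable_mul_bdd iH wW.by1).const_mul (X.β s)
  have bW := bdd_dr_E2 X s (X.CA / (s * B)) wW
  have bo := bdd_dr_E2 X s (X.CA / (s * B)) wo
  have i6 : Integrable fun y => fl1 (Q y + X.e s y) (Q1 y + X.ey s y)
      (om1 (X.r s) (X.A s) X.K B y) (om3 (X.r s) (X.A s) X.K B y)
      - (1 + X.γ s) * ((Q y + X.e s y) ^ 2 * om1 (X.r s) (X.A s) X.K B y) :=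
    ((X.h1tU hs).fl1 wo.b1 wo.b3).2.1.sub ((integrable_mul_bdd iU wo.b1).const_mul _)
  have i7 := (integrable_mul_bdd iU wo.by1).const_mul (X.β s)
  have i12 : Integrable fun y => hT1 y (X.e s y) (X.ey s y) (WW1 (X.r s) (X.A s) B y)
      (WW2 (X.r s) (X.A s) B y) (WW3 (X.r s) (X.A s) B y) + hT2 (X.β s) (X.γ s) y (X.e s y)
      (WW (X.r s) (X.A s) B y) (WW1 (X.r s) (X.A s) B y) := i1.add i2
  have i123 : Integrable fun y => hT1 y (X.e s y) (X.ey s y) (WW1 (X.r s) (X.A s) B y)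
      (WW2 (X.r s) (X.A s) B y) (WW3 (X.r s) (X.A s) B y) + hT2 (X.β s) (X.γ s) y (X.e s y)
      (WW (X.r s) (X.A s) B y) (WW1 (X.r s) (X.A s) B y) + hT3 (X.β s) (X.γ s) y (X.e s y)
      (X.ey s y) (WW (X.r s) (X.A s) B y) (WW1 (X.r s) (X.A s) B y) := i12.add i3
  rw [split_E2 _ iH bW wW.by1, split_E2 _ iU bo wo.by1, integral_add i123 i4,
    integral_add i12 i3, integral_add i1 i2, integral_const_mul, rhs1, integral_add i6 i7,
    integral_const_mul, Dat.I1, Dat.I2, Dat.I3, Dat.I4, Dat.I5,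
    integral_sub (integrable_mul_bdd iH bW) (integrable_mul_bdd iU bo)]
  ring

end Pool.Agent.MP_8339a4_an
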