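import Pool.Agent.MP_8339a4_an.EA

/-! Coercivity and upper bound for the functional `F`. -/

open MeasureTheory Filter Topology Set

namespace Pool.Agent.MP_8339a4_an

/-- The step times the soliton is tiny. -/
theorem phQ_E4 {r A K B : ℝ} (h : WP r A K B) (y : ℝ) : ph r A K y * Q y
    ≤ Real.exp (-(A / K)) * (Real.exp (|y| / 10) * (1 + y ^ 2) * Q y) := by
  have h1 := ph_le_tiny h.hr h.hK A y
  have h2 : Real.exp (|y| / 100) ≤ Real.exp (|y| / 10) * (1 + y ^ 2) := by
    have h3 : Real.exp (|y| / 100) ≤ Real.exp (|y| / 10) :=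
      Real.exp_le_exp.2 (by linarith [abs_nonneg y])
    nlinarith [Real.exp_pos (|y| / 10), sq_nonneg y]
  have h4 := h1.trans (mul_le_mul_of_nonneg_left h2 (Real.exp_pos _).le)
  have h5 := mul_le_mul_of_nonneg_right h4 (Q_pos y).le
  linarith

/-- Pointwise comparison of the density of `F` with the quadratic form. -/
theorem point_E4 {r A K B δ : ℝ} (h : WP r A K B) (h1 : δ ≤ 1) (y p : ℝ) {e : ℝ} (he : |e| ≤ δ) :
    |(p ^ 2 + e ^ 2 - PP y e) * WW r A B y - (Q y + e) ^ 2 * (WW r A B y * ph r A K y)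
        - pM r A K B y * (p ^ 2 + e ^ 2 - V y * e ^ 2) - WW r A B y * ph r A K y * p ^ 2|
      ≤ 30 * δ * (pM r A K B y * (e ^ 2 + p ^ 2))
        + 44 * (Real.exp (A / B) * Real.exp (-(A / K)))
          * (Real.exp (|y| / 10) * (1 + y ^ 2) * Q y)
        + Real.exp (A / B) * (ph r A K y * e ^ 6) := by
  have he1 : |e| ≤ 1 := he.trans h1
  have hM := pM_pos r A K B y
  have hφ := ph_pos r A K y
  have hW := WW_pos r A B y
  have hQ := Q_pos y
  have hΛ := Real.exp_pos (A / B)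
  have ho : WW r A B y * ph r A K y ≤ Real.exp (A / B) * ph r A K y :=
    mul_le_mul_of_nonneg_right (WW_le r A B y) hφ.le
  have ho0 : 0 < WW r A B y * ph r A K y := mul_pos hW hφ
  have e2 : e ^ 2 ≤ 1 := by nlinarith [sq_abs e, abs_nonneg e]
  have e6 : 0 ≤ e ^ 6 := by positivity
  have a1 : |pM r A K B y * (PP y e - V y * e ^ 2)|
      ≤ 30 * δ * (pM r A K B y * (e ^ 2 + p ^ 2)) := by
    rw [abs_mul, abs_of_pos hM]
    have b1 : |PP y e - V y * e ^ 2| ≤ 30 * δ * (e ^ 2 + p ^ 2) := by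
      refine (abs_PP_sub_le y he1).trans ?_
      have b2 : 0 ≤ δ := (abs_nonneg e).trans he
      nlinarith [sq_nonneg e, sq_nonneg p, mul_nonneg b2 (sq_nonneg p),
        mul_le_mul_of_nonneg_right he (sq_nonneg e)]
    have b3 := mul_le_mul_of_nonneg_left b1 hM.le
    linarith
  have a2 : |WW r A B y * ph r A K y * (PP y e + ((Q y + e) ^ 2 - e ^ 2))|
      ≤ Real.exp (A / B) * ph r A K y * (44 * Q y + e ^ 6) := by
    rw [abs_mul, abs_of_pos ho0]
    refine mul_le_mul ho ((abs_add_le _ _).trans ?_) (abs_nonneg _) (by positivity)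
    have b1 := abs_PP_le y he1
    have b2 := abs_sq_sub_le y he1
    nlinarith
  have a3 := mul_le_mul_of_nonneg_left (phQ_E4 h y) hΛ.le
  have e0 : (p ^ 2 + e ^ 2 - PP y e) * WW r A B y - (Q y + e) ^ 2 * (WW r A B y * ph r A K y)
        - pM r A K B y * (p ^ 2 + e ^ 2 - V y * e ^ 2) - WW r A B y * ph r A K y * p ^ 2
      = -(pM r A K B y * (PP y e - V y * e ^ 2))
        - WW r A B y * ph r A K y * (PP y e + ((Q y + e) ^ 2 - e ^ 2)) := by
    unfold pM
    ring
  rw [e0]
  refine (abs_sub _ _).trans ?_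
  rw [abs_neg]
  linarith

theorem static_E4 {r A K B δ : ℝ} (h : WP r A K B) (h1 : δ ≤ 1) {e ey : ℝ → ℝ} (he : IsH1 e ey)
    (hb : ∀ y, |e y| ≤ δ) :
    (∫ y, pM r A K B y * (ey y ^ 2 + e y ^ 2 - V y * e y ^ 2)) - 30 * δ * qD r A K B e ey
        - Real.exp (A / B) * (880 * Real.exp (-(A / K)) + q6 r A K e) ≤ qF r A K B e ey ∧
      qF r A K B e ey ≤ (1 + 30 * δ) * qD r A K B e ey
        + Real.exp (A / B) * (qK r A K ey + 880 * Real.exp (-(A / K)) + q6 r A K e) := by
  have hU := isH1_Q.add he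
  have bo : Bdd (fun y => WW r A B y * ph r A K y) := (bdd_WW r A B).mul (bdd_ph r A K)
  have s1 := integrable_sq2 he.1
  have s2 := integrable_sq2 he.2.1
  have iP : Integrable (fun y => PP y (e y)) := by
    have j1 := hU.integrable_pow 4
    have j2 := isH1_Q.integrable_pow 4
    have j3 := integrable_mul_bdd ((expD_Q.pow 4).const_mul 6).integrable he.bdd
    exact ((j1.sub j2).sub j3).div_const 3
  have i1 : Integrable (fun y => (ey y ^ 2 + e y ^ 2 - PP y (e y)) * WW r A B y) :=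
    integrable_mul_bdd ((s2.add s1).sub iP) (bdd_WW r A B)
  have i2 : Integrable (fun y => (Q y + e y) ^ 2 * (WW r A B y * ph r A K y)) :=
    integrable_mul_bdd (integrable_sq2 hU.1) bo
  have i3 : Integrable (fun y => pM r A K B y * (ey y ^ 2 + e y ^ 2 - V y * e y ^ 2)) :=
    integrable_bdd_mul ((s2.add s1).sub (integrable_bdd_mul s1 expD_V.bdd)) (bdd_pM r A K B)
  have i4 : Integrable (fun y => WW r A B y * ph r A K y * ey y ^ 2) := integrable_bdd_mul s2 bo
  have i5 : Integrable (fun y => pM r A K B y * (e y ^ 2 + ey y ^ 2)) :=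
    integrable_bdd_mul (s1.add s2) (bdd_pM r A K B)
  have i6 := expD_env.integrable
  have i7 : Integrable (fun y => ph r A K y * e y ^ 6) :=
    integrable_bdd_mul (he.integrable_pow 4) (bdd_ph r A K)
  have i8 : Integrable (fun y => ph r A K y * ey y ^ 2) := integrable_bdd_mul s2 (bdd_ph r A K)
  have hΛ := Real.exp_pos (A / B)
  have hτ := Real.exp_pos (-(A / K))
  have i12 : Integrable (fun y => (ey y ^ 2 + e y ^ 2 - PP y (e y)) * WW r A B y
      - (Q y + e y) ^ 2 * (WW r A B y * ph r A K y)) := i1.sub i2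
  have i123 : Integrable (fun y => (ey y ^ 2 + e y ^ 2 - PP y (e y)) * WW r A B y
      - (Q y + e y) ^ 2 * (WW r A B y * ph r A K y)
      - pM r A K B y * (ey y ^ 2 + e y ^ 2 - V y * e y ^ 2)) := i12.sub i3
  have i56 : Integrable (fun y => 30 * δ * (pM r A K B y * (e y ^ 2 + ey y ^ 2))
      + 44 * (Real.exp (A / B) * Real.exp (-(A / K)))
        * (Real.exp (|y| / 10) * (1 + y ^ 2) * Q y)) := (i5.const_mul _).add (i6.const_mul _)
  have k1 : |qF r A K B e ey - (∫ y, pM r A K B y * (ey y ^ 2 + e y ^ 2 - V y * e y ^ 2))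
        - ∫ y, WW r A B y * ph r A K y * ey y ^ 2|
      ≤ 30 * δ * qD r A K B e ey + 44 * (Real.exp (A / B) * Real.exp (-(A / K)))
          * (∫ y, Real.exp (|y| / 10) * (1 + y ^ 2) * Q y) + Real.exp (A / B) * q6 r A K e := by
    unfold qF qH qD q6
    rw [← integral_sub i1 i2, ← integral_sub i12 i3, ← integral_sub i123 i4,
      ← integral_const_mul, ← integral_const_mul, ← integral_const_mul,
      ← integral_add (i5.const_mul _) (i6.const_mul _), ← integral_add i56 (i7.const_mul _)]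
    refine abs_integral_le_integral_abs.trans ?_
    exact integral_mono (i123.sub i4).abs (i56.add (i7.const_mul _))
      fun y => point_E4 h h1 y (ey y) (hb y)
  have k2 : 0 ≤ ∫ y, WW r A B y * ph r A K y * ey y ^ 2 :=
    integral_nonneg fun y =>
      mul_nonneg (mul_pos (WW_pos r A B y) (ph_pos r A K y)).le (sq_nonneg _)
  have k3 : ∫ y, WW r A B y * ph r A K y * ey y ^ 2 ≤ Real.exp (A / B) * qK r A K ey := by
    unfold qK
    rw [← integral_const_mul]
    refine integral_mono i4 (i8.const_mul _) fun y => ?_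
    have b1 := mul_le_mul_of_nonneg_right (WW_le r A B y)
      (mul_nonneg (ph_pos r A K y).le (sq_nonneg (ey y)))
    change WW r A B y * ph r A K y * ey y ^ 2 ≤ Real.exp (A / B) * (ph r A K y * ey y ^ 2)
    linarith
  have k4 : ∫ y, pM r A K B y * (ey y ^ 2 + e y ^ 2 - V y * e y ^ 2) ≤ qD r A K B e ey := by
    refine integral_mono i3 i5 fun y => ?_
    refine mul_le_mul_of_nonneg_left ?_ (pM_pos r A K B y).le
    linarith [mul_nonneg (V_nonneg y) (sq_nonneg (e y))]
  have k5 := mul_le_mul_of_nonneg_left integral_env_le (mul_pos hΛ hτ).le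
  rw [abs_le] at k1
  constructor <;> linarith [k1.1, k1.2]

theorem e4 (h : C1wStmt) : E4Stmt := by
  obtain ⟨c, C, ε0, hc, hC, hε, H⟩ := h
  refine ⟨c / 2, ε0, by positivity, hε, fun X hX B hB => ⟨900, ?_⟩⟩
  have hB0 : 0 < B := by linarith [X.CA_pos]
  have hδ : 0 < min 1 (c / 60) := lt_min one_pos (by positivity)
  filter_upwards [X.ev_gt, X.ev_sup hδ, X.ev_exp_neg hB0 (half_pos hε)] with s hs hb hx
  have w := X.wp hs hB
  have hs1 := (X.one_lt hs).le
  obtain ⟨k1, k2⟩ := static_E4 w (min_le_left _ _) (X.h1 hs) hb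
  have hr : X.r s / X.K ≤ ε0 := by
    rw [div_le_iff₀ X.K_pos]
    exact (X.r_le hs).trans hX
  have k3 := H (pM (X.r s) (X.A s) X.K B) (pM1 (X.r s) (X.A s) X.K B) (hasDerivAt_pM _ _ _ _)
    (continuous_pM1 _ _ _ _) (bdd_pM _ _ _ _) (pM_pos _ _ _ _)
    (fun y => (w.abs_pM1_le y).trans (mul_le_mul_of_nonneg_right hr (pM_pos _ _ _ _ y).le))
    (w.abs_pM_zero.trans (by linarith)) (X.e s) (X.ey s) (X.h1 hs)
  obtain ⟨o1, o2⟩ := (X.st.flow s hs).orth.self_of_nhds
  rw [o1, o2] at k3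
  have k4 : c * X.D B s ≤ ∫ y, pM (X.r s) (X.A s) X.K B y *
      (X.ey s y ^ 2 + X.e s y ^ 2 - V y * X.e s y ^ 2) := by
    simpa [Dat.D, qD] using k3
  have hD := X.D_nonneg B s
  have hK := X.Kf_nonneg s
  have h6 := X.k6_nonneg s
  have hτ := X.exp_le_tau hs1
  have hτ0 := Real.exp_pos (-(X.A s / X.K))
  have hL := X.exp_le_Lm hB hs1
  have hL0 := Real.exp_pos (X.A s / B)
  have ha := sq_nonneg (X.a s)
  have z1 : X.Kf s + 880 * Real.exp (-(X.A s / X.K)) + X.k6 s ≤ 900 * X.Z s := by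
    unfold Dat.Z
    linarith
  have z2 : Real.exp (X.A s / B) * (X.Kf s + 880 * Real.exp (-(X.A s / X.K)) + X.k6 s)
      ≤ Lm s * (900 * X.Z s) :=
    mul_le_mul hL z1 (by positivity) (hL0.le.trans hL)
  have z3 := mul_nonneg hL0.le hK
  have d1 := mul_le_mul_of_nonneg_right (min_le_left 1 (c / 60)) hD
  have d2 := mul_le_mul_of_nonneg_right (min_le_right 1 (c / 60)) hD
  change _ - 30 * min 1 (c / 60) * X.D B s
    - Real.exp (X.A s / B) * (880 * Real.exp (-(X.A s / X.K)) + X.k6 s) ≤ X.F B s at k1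
  change X.F B s ≤ (1 + 30 * min 1 (c / 60)) * X.D B s
    + Real.exp (X.A s / B) * (X.Kf s + 880 * Real.exp (-(X.A s / X.K)) + X.k6 s) at k2
  constructor <;> linarith

end Pool.Agent.MP_8339a4_an
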