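import Pool.Agent.MP_8339a4_an.If
import Pool.Agent.MP_8339a4_an.T7b
import Pool.Agent.MP_8339a4_an.T8b

/-! API: elementary facts on the data `Dat`. -/

open MeasureTheory Filter Topology Set

namespace Pool.Agent.MP_8339a4_an

namespace Dat

variable (X : Dat) {s B : ℝ}

theorem r0_pos : 0 < X.r0 := X.st.hr0
theorem r0_le_r1 : X.r0 ≤ X.r1 :=
  (X.st.rate _ (lt_add_one _)).1.trans (X.st.rate _ (lt_add_one _)).2
theorem r1_pos : 0 < X.r1 := X.r0_pos.trans_le X.r0_le_r1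
theorem K_ge : 100 ≤ X.K := by linarith [X.pr.hK, X.r1_pos]
theorem K_pos : 0 < X.K := by linarith [X.K_ge]
theorem r1_le : 100 * X.r1 ≤ X.K := by linarith [X.pr.hK]
theorem CA_ge : 13 * X.K ≤ X.CA := by nlinarith [X.pr.hCA, X.pr.hκ, X.K_pos]
theorem CA_pos : 0 < X.CA := by linarith [X.CA_ge, X.K_pos]
theorem κ_pos : 0 < X.κ := by linarith [X.pr.hκ]
theorem M_nonneg : 0 ≤ X.M :=
  (integral_nonneg fun _ => sq_nonneg _).trans (X.st.mass _ (lt_add_one _))
theorem B_ge (hB : 1000 * X.CA ≤ B) : 13000 * X.K ≤ B := by linarith [X.CA_ge]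
theorem one_lt (hs : X.s0 < s) : 1 < s := X.st.hs0.trans_lt hs
theorem r_ge (hs : X.s0 < s) : X.r0 ≤ X.r s := (X.st.rate s hs).1
theorem r_le (hs : X.s0 < s) : X.r s ≤ X.r1 := (X.st.rate s hs).2
theorem r_pos (hs : X.s0 < s) : 0 < X.r s := X.r0_pos.trans_le (X.r_ge hs)
theorem r_le_K (hs : X.s0 < s) : 100 * X.r s ≤ X.K := by linarith [X.r_le hs, X.r1_le]
theorem A_nonneg (hs : 1 ≤ s) : 0 ≤ X.A s := mul_nonneg X.CA_pos.le (Real.log_nonneg hs)
theorem h1 (hs : X.s0 < s) : IsH1 (X.e s) (X.ey s) := (X.st.flow s hs).h1t.2.1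
theorem h1U (hs : X.s0 < s) :
    IsH1 (fun y => Q y + X.e s y) (fun y => Q1 y + X.ey s y) :=
  ((X.st.flow s hs).h1t.add_const isH1_Q).2.1
theorem h1tU (hs : X.s0 < s) : H1T (𝓝 s) (fun z y => Q y + X.e z y) (fun z y => Q1 y + X.ey z y)
    (fun y => Q y + X.e s y) (fun y => Q1 y + X.ey s y) :=
  (X.st.flow s hs).h1t.add_const isH1_Q
theorem lam_pos (hs : X.s0 < s) : 0 < X.lam s := (X.st.flow s hs).pos
theorem hasDerivAt_lam (hs : X.s0 < s) : HasDerivAt X.lam (-(X.β s) * X.lam s) s := by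
  have := (X.st.flow s hs).dlam
  rwa [one_mul] at this
theorem hasDerivAt_r (hs : X.s0 < s) : HasDerivAt X.r (X.r s * (-(X.β s) + X.κ / s)) s := by
  have h0 : s ≠ 0 := by linarith [X.one_lt hs]
  have h := (X.hasDerivAt_lam hs).mul (Real.hasDerivAt_rpow_const (p := X.κ) (Or.inl h0))
  refine h.congr_deriv ?_
  rw [Real.rpow_sub_one h0, r, rr]
  ring
theorem hasDerivAt_A (hs : X.s0 < s) : HasDerivAt X.A (X.CA / s) s := by
  have h0 : s ≠ 0 := by linarith [X.one_lt hs]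
  rw [div_eq_mul_inv]
  exact (Real.hasDerivAt_log h0).const_mul X.CA
theorem lam_le (hs : X.s0 < s) : X.lam s ≤ X.r1 * s ^ (-(3 : ℝ) / 2) := by
  have h1 := X.one_lt hs
  have h0 : 0 < s := by linarith
  have h2 : X.lam s = X.r s * s ^ (-X.κ) := by
    rw [r, rr, mul_assoc, ← Real.rpow_add h0, add_neg_cancel, Real.rpow_zero, mul_one]
  rw [h2]
  exact mul_le_mul (X.r_le hs) (Real.rpow_le_rpow_of_exponent_le h1.le (by linarith [X.pr.hκ]))
    (Real.rpow_nonneg h0.le _) X.r1_pos.le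

end Dat



theorem one_le_Lm {s : ℝ} (hs : 1 ≤ s) : 1 ≤ Lm s := Real.one_le_rpow hs (by norm_num)

/-- The integrable envelope for all the tiny terms. -/
theorem integrable_envp {ey : ℝ → ℝ} (h : MemLp ey 2 volume) :
    Integrable (fun y => Real.exp (|y| / 10) * (1 + y ^ 2) * Q y * (1 + ey y ^ 2)) := by
  simp only [mul_add (_ * Q _), mul_one]
  exact expD_env.integrable.add (integrable_bdd_mul (integrable_sq2 h) expD_env.bdd)
theorem integral_envp_le {ey : ℝ → ℝ} (h : MemLp ey 2 volume) (h1 : ∫ y, ey y ^ 2 ≤ 1) :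
    ∫ y, Real.exp (|y| / 10) * (1 + y ^ 2) * Q y * (1 + ey y ^ 2) ≤ 30 := by
  have i2 := integrable_bdd_mul (integrable_sq2 h) expD_env.bdd
  have h2 : ∫ y, Real.exp (|y| / 10) * (1 + y ^ 2) * Q y * ey y ^ 2 ≤ ∫ y, 10 * ey y ^ 2 :=
    integral_mono i2 ((integrable_sq2 h).const_mul 10) fun y =>
      mul_le_mul_of_nonneg_right (env_le y) (sq_nonneg _)
  rw [integral_const_mul] at h2
  simp only [mul_add (_ * Q _), mul_one]
  rw [integral_add expD_env.integrable i2]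
  linarith [integral_env_le]
/-- A function dominated by `c` times the envelope has integral at most `30 c`. -/
theorem abs_integral_le_envp {ey g : ℝ → ℝ} {c : ℝ} (h : MemLp ey 2 volume)
    (h1 : ∫ y, ey y ^ 2 ≤ 1) (hc : 0 ≤ c)
    (hg : ∀ y, |g y| ≤ c * (Real.exp (|y| / 10) * (1 + y ^ 2) * Q y * (1 + ey y ^ 2))) :
    |∫ y, g y| ≤ 30 * c := by
  have h2 := norm_integral_le_of_norm_le (f := g) ((integrable_envp h).const_mul c)
    (Eventually.of_forall hg)
  rw [integral_const_mul] at h2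
  exact h2.trans (by nlinarith [integral_envp_le h h1])

end Pool.Agent.MP_8339a4_an
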