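import Pool.Agent.MP_8339a4_an.EBa
import Pool.Agent.MP_8339a4_an.EAa

/-! API: pointwise facts on the weights under the standing assumptions. -/

open MeasureTheory Filter Topology Set

namespace Pool.Agent.MP_8339a4_an

theorem Dat.wp (X : Dat) {s B : ℝ} (hs : X.s0 < s) (hB : 1000 * X.CA ≤ B) :
    WP (X.r s) (X.A s) X.K B :=
  ⟨X.r_pos hs, X.r_le_K hs, X.A_nonneg (X.one_lt hs).le, by linarith [X.B_ge hB, X.K_pos]⟩

theorem abs_exp_sub_one_EBb (t : ℝ) : |Real.exp t - 1| ≤ |t| * Real.exp |t| := by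
  rcases le_total 0 t with ht | ht
  · have h1 : 1 ≤ Real.exp t := Real.one_le_exp ht
    rw [abs_of_nonneg ht, abs_of_nonneg (by linarith)]
    have h2 := Real.add_one_le_exp (-t)
    have h3 : Real.exp t * Real.exp (-t) = 1 := by rw [← Real.exp_add]; simp
    nlinarith [Real.exp_pos t]
  · have h1 : Real.exp t ≤ 1 := Real.exp_le_one_iff.2 ht
    rw [abs_of_nonpos ht, abs_of_nonpos (by linarith)]
    have h2 := Real.add_one_le_exp t
    have h3 : 1 ≤ Real.exp (-t) := Real.one_le_exp (by linarith)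
    nlinarith

theorem WW_eq_EBb (r A B y : ℝ) :
    WW r A B y = Real.exp (r * y / B) * (1 - P0 ((r * y - A) / B)) := by
  have e : r * y / B = A / B + (r * y - A) / B := by ring
  rw [e, Real.exp_add, mul_assoc, ← P0_eq]
  rfl

theorem WW1_eq_EBb (r A B y : ℝ) :
    WW1 r A B y = r / B * (WW r A B y * (1 - P0 ((r * y - A) / B))) := by
  unfold WW1 WW ph1 ph P1
  ring

variable {r A K B : ℝ}

namespace WP

variable (h : WP r A K B)
include h

theorem K_pos : 0 < K := by linarith [h.hr, h.hK]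
theorem B_pos : 0 < B := by linarith [h.hr, h.hK, h.hB]
theorem rK_EBb : 0 < r / K ∧ r / K ≤ 1 / 100 := by
  have hK := h.K_pos
  refine ⟨div_pos h.hr hK, ?_⟩
  rw [div_le_iff₀ hK]
  linarith [h.hK]
theorem rB_EBb : 0 < r / B ∧ r / B ≤ r / K :=
  ⟨div_pos h.hr h.B_pos, div_le_div_of_nonneg_left h.hr.le h.K_pos (by linarith [h.hB, h.K_pos])⟩
theorem divBK_EBb {u : ℝ} (hu : 0 ≤ u) : 0 ≤ u / B ∧ 2 * (u / B) ≤ u / K := by
  have hK := h.K_pos
  have hB := h.B_pos
  refine ⟨div_nonneg hu hB.le, ?_⟩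
  have e : 2 * (u / B) = u / (B / 2) := by field_simp
  rw [e]
  exact div_le_div_of_nonneg_left hu hK (by linarith [h.hB])
theorem abs_divBK_EBb (u : ℝ) : -|u / K| ≤ 2 * (u / B) ∧ -|u / K| ≤ u / B := by
  have h1 := h.divBK_EBb (abs_nonneg u)
  have h2 : -(|u| / B) ≤ u / B := by
    rw [← neg_div]
    exact div_le_div_of_nonneg_right (neg_abs_le u) h.B_pos.le
  rw [abs_div, abs_of_pos h.K_pos]
  constructor <;> linarith [h1.1, h1.2]
theorem abs_ryK_EBb (y : ℝ) : |r * y / K| ≤ |y| / 100 := by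
  have e : r * y / K = r / K * y := by ring
  rw [e, abs_mul, abs_of_pos h.rK_EBb.1]
  nlinarith [h.rK_EBb.2, abs_nonneg y]
theorem abs_ryB_EBb (y : ℝ) : |r * y / B| = r / B * |y| ∧ |r * y / B| ≤ |y| / 100 := by
  have e : r * y / B = r / B * y := by ring
  rw [e, abs_mul, abs_of_pos h.rB_EBb.1]
  refine ⟨rfl, ?_⟩
  nlinarith [h.rK_EBb.2, h.rB_EBb.2, abs_nonneg y]
theorem one_le_exp_EBb : 1 ≤ Real.exp (A / B) := Real.one_le_exp (div_nonneg h.hA h.B_pos.le)
theorem WW_left_EBb {y : ℝ} (hy : r * y ≤ A) : Real.exp (r * y / B) / 2 ≤ WW r A B y := by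
  rw [WW_eq_EBb]
  have h1 : P0 ((r * y - A) / B) ≤ 1 / 2 :=
    P0_le_half (div_nonpos_of_nonpos_of_nonneg (by linarith) h.B_pos.le)
  nlinarith [Real.exp_pos (r * y / B)]
theorem chi1_le_EBb (y : ℝ) : ph1 r (-A) K y ≤ Real.exp (-|(r * y + A) / K|) := by
  unfold ph1
  rw [sub_neg_eq_add]
  have h1 := P1_le_exp ((r * y + A) / K)
  have h2 := P1_pos ((r * y + A) / K)
  nlinarith [h.rK_EBb.1, h.rK_EBb.2]
theorem WW_le_env (y : ℝ) : WW r A B y ≤ Real.exp (|y| / 100) :=
  (WW_le_exp r A B y).trans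
    (Real.exp_le_exp.2 ((le_abs_self _).trans (h.abs_ryB_EBb y).2))
theorem WW1_le_WW (y : ℝ) : WW1 r A B y ≤ WW r A B y := by
  have h1 := WW1_le h.hr h.B_pos A y
  nlinarith [WW_pos r A B y, h.rK_EBb.2, h.rB_EBb.2]
theorem WW1_le_P1 (y : ℝ) : WW1 r A B y ≤ Real.exp (A / B) * P1 ((r * y - A) / B) := by
  unfold WW1 ph1
  refine mul_le_mul_of_nonneg_left ?_ (Real.exp_pos _).le
  nlinarith [P1_pos ((r * y - A) / B), h.rK_EBb.2, h.rB_EBb.2]
theorem abs_WW_sub_one (y : ℝ) : |WW r A B y - 1|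
    ≤ r / B * |y| * Real.exp (|y| / 100) + Real.exp (-(A / B)) * Real.exp (|y| / 50) := by
  obtain ⟨e1, e2⟩ := h.abs_ryB_EBb y
  have h1 : |Real.exp (r * y / B) - 1| ≤ r / B * |y| * Real.exp (|y| / 100) := by
    refine (abs_exp_sub_one_EBb _).trans ?_
    rw [← e1]
    exact mul_le_mul_of_nonneg_left (Real.exp_le_exp.2 e2) (abs_nonneg _)
  have h2 : Real.exp (r * y / B) * P0 ((r * y - A) / B)
      ≤ Real.exp (-(A / B)) * Real.exp (|y| / 50) := by
    refine (mul_le_mul_of_nonneg_left (P0_le_exp _) (Real.exp_pos _).le).trans ?_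
    rw [← Real.exp_add, ← Real.exp_add, Real.exp_le_exp, sub_div]
    linarith [le_abs_self (r * y / B)]
  have h3 : 0 < Real.exp (r * y / B) * P0 ((r * y - A) / B) :=
    mul_pos (Real.exp_pos _) (P0_pos _)
  have e : WW r A B y - 1
      = (Real.exp (r * y / B) - 1) - Real.exp (r * y / B) * P0 ((r * y - A) / B) := by
    rw [WW_eq_EBb]
    ring
  rw [e]
  refine (abs_sub _ _).trans ?_
  rw [abs_of_pos h3]
  linarith
theorem pM_left {y : ℝ} (hy : r * y ≤ A) : Real.exp (r * y / B) / 4 ≤ pM r A K B y := by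
  have h1 := h.WW_left_EBb hy
  have h2 := ph_le_half h.K_pos hy
  unfold pM
  nlinarith [Real.exp_pos (r * y / B)]
theorem WW_le_pM {y : ℝ} (hy : r * y ≤ A) : WW r A B y ≤ 2 * pM r A K B y := by
  have h2 := ph_le_half h.K_pos hy
  unfold pM
  nlinarith [WW_pos r A B y]
theorem half_le_WW {y : ℝ} (hy : 0 ≤ y) : 1 / 2 ≤ WW r A B y := by
  rcases le_total (r * y) A with h1 | h1
  · have h2 := h.WW_left_EBb h1
    have h3 : 1 ≤ Real.exp (r * y / B) :=
      Real.one_le_exp (div_nonneg (mul_nonneg h.hr.le hy) h.B_pos.le)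
    linarith
  · have h2 := half_le_ph h.B_pos h1
    have h3 := h.one_le_exp_EBb
    unfold WW
    nlinarith
theorem pM_right {y : ℝ} (hy : 0 ≤ y) : Real.exp (-(r * y / K)) / 4 ≤ pM r A K B y := by
  have h0 : 0 ≤ r * y := mul_nonneg h.hr.le hy
  rcases le_total (r * y) A with h1 | h1
  · have h2 := h.pM_left h1
    have h3 : Real.exp (-(r * y / K)) ≤ Real.exp (r * y / B) := by
      rw [Real.exp_le_exp]
      linarith [div_nonneg h0 h.B_pos.le, div_nonneg h0 h.K_pos.le]
    linarith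
  · have h2 := h.half_le_WW hy
    have h3 := exp_le_one_sub_P0 (div_nonneg (sub_nonneg.2 h1) h.K_pos.le)
    have h4 : Real.exp (-(r * y / K)) ≤ Real.exp (-((r * y - A) / K)) := by
      rw [Real.exp_le_exp, sub_div]
      linarith [div_nonneg h.hA h.K_pos.le]
    unfold pM ph
    nlinarith [Real.exp_pos (-(r * y / K))]
theorem pM_env (y : ℝ) : Real.exp (-(|y| / 100)) / 4 ≤ pM r A K B y := by
  rcases le_total 0 y with hy | hy
  · have h1 := h.pM_right hy
    have h2 : Real.exp (-(|y| / 100)) ≤ Real.exp (-(r * y / K)) := by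
      rw [Real.exp_le_exp]
      linarith [h.abs_ryK_EBb y, le_abs_self (r * y / K)]
    linarith
  · have h1 := h.pM_left (y := y) (by nlinarith [h.hr, h.hA])
    have h2 : Real.exp (-(|y| / 100)) ≤ Real.exp (r * y / B) := by
      rw [Real.exp_le_exp]
      linarith [(h.abs_ryB_EBb y).2, neg_abs_le (r * y / B)]
    linarith
theorem Q_le_pM (y : ℝ) : (1 + y ^ 2) * Q y ≤ 40 * pM r A K B y := by
  have h1 := h.pM_env y
  have h2 := Q_le_exp y
  have h3 := Real.quadratic_le_exp_of_nonneg (x := 99 / 100 * |y|) (by positivity)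
  have h4 : Real.exp (-|y|) * Real.exp (99 / 100 * |y|) = Real.exp (-(|y| / 100)) := by
    rw [← Real.exp_add]
    congr 1
    ring
  have h5 : 1 + y ^ 2 ≤ 5 * Real.exp (99 / 100 * |y|) := by
    nlinarith [abs_nonneg y, sq_abs y]
  calc (1 + y ^ 2) * Q y ≤ (5 * Real.exp (99 / 100 * |y|)) * (2 * Real.exp (-|y|)) :=
        mul_le_mul h5 h2 (Q_pos y).le (by positivity)
    _ = 10 * Real.exp (-(|y| / 100)) := by rw [← h4]; ring
    _ ≤ 40 * pM r A K B y := by linarith
theorem pM_le_WW1 (y : ℝ) : r / (2 * B) * pM r A K B y ≤ WW1 r A B y := by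
  have h1 : (1 - ph r A K y) / 2 ≤ 1 - P0 ((r * y - A) / B) := by
    rcases le_total (r * y) A with h1 | h1
    · have h2 : P0 ((r * y - A) / B) ≤ 1 / 2 := ph_le_half h.B_pos h1
      linarith [ph_pos r A K y]
    · have h2 := h.divBK_EBb (sub_nonneg.2 h1)
      have h3 : P0 ((r * y - A) / B) ≤ ph r A K y := P0_mono (by linarith [h2.1, h2.2])
      linarith [ph_lt_one r A K y]
  have e : r / (2 * B) * pM r A K B y = r / B * (WW r A B y * ((1 - ph r A K y) / 2)) := by
    unfold pM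
    ring
  rw [e, WW1_eq_EBb]
  exact mul_le_mul_of_nonneg_left (mul_le_mul_of_nonneg_left h1 (WW_pos r A B y).le)
    h.rB_EBb.1.le
theorem abs_pM1_le (y : ℝ) : |pM1 r A K B y| ≤ r / K * pM r A K B y := by
  have e : pM1 r A K B y
      = (r / B * (1 - P0 ((r * y - A) / B)) - r / K * ph r A K y) * pM r A K B y := by
    unfold pM1 pM
    rw [WW1_eq_EBb, ph1_eq]
    ring
  rw [e, abs_mul, abs_of_pos (pM_pos r A K B y)]
  refine mul_le_mul_of_nonneg_right ?_ (pM_pos r A K B y).le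
  have h1 := P0_pos ((r * y - A) / B)
  have h2 := P0_lt_one ((r * y - A) / B)
  have h3 := ph_pos r A K y
  have h4 := ph_lt_one r A K y
  obtain ⟨h5, h6⟩ := h.rB_EBb
  have h7 := h.rK_EBb.1
  rw [abs_le]
  constructor <;> nlinarith
theorem abs_pM_zero : |pM r A K B 0 - 1| ≤ 2 * Real.exp (-(A / B)) := by
  have e : pM r A K B 0 = (1 - P0 (-(A / B))) * (1 - P0 (-(A / K))) := by
    unfold pM ph
    rw [WW_eq_EBb]
    simp [neg_div]
  have h1 := P0_le_exp (-(A / B))
  have h2 := P0_le_exp (-(A / K))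
  have h3 : Real.exp (-(A / K)) ≤ Real.exp (-(A / B)) := by
    rw [Real.exp_le_exp]
    linarith [(h.divBK_EBb h.hA).1, (h.divBK_EBb h.hA).2]
  have h4 := P0_pos (-(A / B))
  have h5 := P0_pos (-(A / K))
  have h6 := P0_lt_one (-(A / B))
  have h7 := P0_lt_one (-(A / K))
  rw [e, abs_le]
  constructor <;> nlinarith
theorem chi1_le_pM (y : ℝ) : ph1 r (-A) K y ≤ 4 * Real.exp (A / B) * pM r A K B y := by
  refine (h.chi1_le_EBb y).trans ?_
  rcases le_total 0 y with hy | hy
  · have h1 := h.pM_right hy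
    have h2 : Real.exp (-|(r * y + A) / K|) ≤ Real.exp (-(r * y / K)) := by
      rw [Real.exp_le_exp]
      have h3 := le_abs_self ((r * y + A) / K)
      have h4 : (r * y + A) / K = r * y / K + A / K := add_div _ _ _
      linarith [div_nonneg h.hA h.K_pos.le]
    nlinarith [h.one_le_exp_EBb, pM_pos r A K B y]
  · have h1 := h.pM_left (y := y) (by nlinarith [h.hr, h.hA])
    have h2 : Real.exp (-|(r * y + A) / K|) ≤ Real.exp (A / B) * Real.exp (r * y / B) := by
      rw [← Real.exp_add, Real.exp_le_exp]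
      have h3 := (h.abs_divBK_EBb (r * y + A)).2
      have h4 : (r * y + A) / B = r * y / B + A / B := add_div _ _ _
      linarith
    nlinarith [Real.exp_pos (A / B)]
theorem chi1_le_pM_sq {y : ℝ} (hy : y ≤ 0) :
    ph1 r (-A) K y ≤ 16 * Real.exp (2 * (A / B)) * pM r A K B y ^ 2 := by
  refine (h.chi1_le_EBb y).trans ?_
  have h1 := h.pM_left (y := y) (by nlinarith [h.hr, h.hA])
  have h2 : Real.exp (-|(r * y + A) / K|)
      ≤ Real.exp (2 * (A / B)) * (Real.exp (r * y / B) * Real.exp (r * y / B)) := by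
    rw [← Real.exp_add, ← Real.exp_add, Real.exp_le_exp]
    have h3 := (h.abs_divBK_EBb (r * y + A)).1
    have h4 : (r * y + A) / B = r * y / B + A / B := add_div _ _ _
    linarith
  have h3 : Real.exp (r * y / B) * Real.exp (r * y / B) ≤ 16 * pM r A K B y ^ 2 := by
    nlinarith [Real.exp_pos (r * y / B)]
  nlinarith [Real.exp_pos (2 * (A / B))]
theorem chi_sub_nonneg (y : ℝ) : 0 ≤ ph r (-A) K y - ph r A K y := by
  have h1 : ph r A K y ≤ ph r (-A) K y :=
    P0_mono (div_le_div_of_nonneg_right (by linarith [h.hA]) h.K_pos.le)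
  linarith
theorem chi_sub_le (y : ℝ) :
    ph r (-A) K y - ph r A K y ≤ 4 * Real.exp (A / B) * pM r A K B y := by
  rcases le_total 0 y with hy | hy
  · have h1 := h.half_le_WW hy
    have h2 : 1 - ph r A K y ≤ 2 * pM r A K B y := by
      unfold pM
      nlinarith [ph_lt_one r A K y]
    nlinarith [h.one_le_exp_EBb, pM_pos r A K B y, ph_lt_one r (-A) K y]
  · have h1 := h.pM_left (y := y) (by nlinarith [h.hr, h.hA])
    have h2 : ph r (-A) K y ≤ Real.exp (A / B) * Real.exp (r * y / B) := by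
      rw [← Real.exp_add, ← add_div, add_comm]
      rcases le_total 0 (r * y + A) with hu | hu
      · exact (ph_lt_one _ _ _ _).le.trans (Real.one_le_exp (h.divBK_EBb hu).1)
      · unfold ph
        rw [sub_neg_eq_add]
        refine (P0_le_exp _).trans (Real.exp_le_exp.2 ?_)
        have h3 := (h.abs_divBK_EBb (r * y + A)).2
        rwa [abs_of_nonpos (div_nonpos_of_nonpos_of_nonneg hu h.K_pos.le), neg_neg] at h3
    nlinarith [Real.exp_pos (A / B), ph_pos r A K y]
theorem om1_pos (y : ℝ) : 0 < om1 r A K B y :=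
  add_pos (mul_pos (WW1_pos h.hr h.B_pos A y) (ph_pos r A K y))
    (mul_pos (WW_pos r A B y) (ph1_pos h.hr h.K_pos A y))
theorem om1_le (y : ℝ) : om1 r A K B y
    ≤ Real.exp (A / B) * (ph r A K y * P1 ((r * y - A) / B) + ph1 r A K y) := by
  have h1 := mul_le_mul_of_nonneg_right (h.WW1_le_P1 y) (ph_pos r A K y).le
  have h2 := mul_le_mul_of_nonneg_right (WW_le r A B y) (ph1_pos h.hr h.K_pos A y).le
  unfold om1
  linarith
theorem om1_le_ph (y : ℝ) : om1 r A K B y ≤ Real.exp (A / B) * ph r A K y := by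
  have h1 := mul_le_mul_of_nonneg_right (WW1_le h.hr h.B_pos A y) (ph_pos r A K y).le
  have h2 := mul_le_mul_of_nonneg_left (ph1_le h.hr h.K_pos A y) (WW_pos r A B y).le
  have h3 := mul_le_mul_of_nonneg_right (WW_le r A B y) (ph_pos r A K y).le
  have h4 := mul_pos (WW_pos r A B y) (ph_pos r A K y)
  unfold om1
  nlinarith [h.rK_EBb.2, h.rB_EBb.2]
theorem abs_om3_le (y : ℝ) : |om3 r A K B y| ≤ om1 r A K B y := by
  obtain ⟨k1, k2⟩ := h.rK_EBb
  obtain ⟨b1, b2⟩ := h.rB_EBb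
  have p0 := ph_pos r A K y
  have p1 := ph1_pos h.hr h.K_pos A y
  have w0 := WW_pos r A B y
  have w1 := WW1_pos h.hr h.B_pos A y
  have w2 := h.WW1_le_WW y
  have h1 : |WW3 r A B y * ph r A K y| ≤ WW1 r A B y * ph r A K y := by
    rw [abs_mul, abs_of_pos p0]
    refine mul_le_mul_of_nonneg_right ((abs_WW3_le h.hr h.B_pos A y).trans ?_) p0.le
    have : (r / B) ^ 2 ≤ 1 := by nlinarith
    nlinarith
  have h2 : |WW2 r A B y * ph1 r A K y| ≤ WW r A B y / 100 * ph1 r A K y := by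
    rw [abs_mul, abs_of_pos p1]
    refine mul_le_mul_of_nonneg_right ((abs_WW2_le h.hr h.B_pos A y).trans ?_) p1.le
    nlinarith
  have h3 : |WW1 r A B y * ph2 r A K y| ≤ WW r A B y * (ph1 r A K y / 100) := by
    rw [abs_mul, abs_of_pos w1]
    refine mul_le_mul w2 ((abs_ph2_le h.hr h.K_pos A y).trans ?_) (abs_nonneg _) w0.le
    nlinarith
  have h4 : |WW r A B y * ph3 r A K y| ≤ WW r A B y * (ph1 r A K y / 100) := by
    rw [abs_mul, abs_of_pos w0]
    refine mul_le_mul_of_nonneg_left ((abs_ph3_le h.hr h.K_pos A y).trans ?_) w0.le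
    have : (r / K) ^ 2 ≤ 1 / 100 := by nlinarith
    nlinarith
  have h5 := mul_pos w0 p1
  rw [abs_le] at h1 h2 h3 h4
  unfold om3 om1
  rw [abs_le]
  constructor <;> linarith [h1.1, h1.2, h2.1, h2.2, h3.1, h3.2, h4.1, h4.2]
/-- On the right of the step, `y W'` is dominated by a window of size `2B`. -/
theorem mul_WW1_right {y : ℝ} (hy : A ≤ r * y) : y * WW1 r A B y
    ≤ 16 * Real.exp (A / B) * (1 + A / B) * (ph r A K y * P1 ((r * y - A) / (2 * B))) := by
  have hx : 0 ≤ (r * y - A) / B := (h.divBK_EBb (sub_nonneg.2 hy)).1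
  have ha : 0 ≤ A / B := (h.divBK_EBb h.hA).1
  have e1 : (r * y - A) / (2 * B) = (r * y - A) / B / 2 := by ring
  have e2 : y * WW1 r A B y
      = Real.exp (A / B) * ((A / B + (r * y - A) / B) * P1 ((r * y - A) / B)) := by
    unfold WW1 ph1
    ring
  rw [e1, e2]
  have hp := half_le_ph h.K_pos hy
  generalize (r * y - A) / B = x at hx
  generalize A / B = a at ha
  generalize ph r A K y = p at hp
  have h1 := P1_le_exp x
  have h2 := exp_le_P1 (x / 2)
  rw [abs_of_nonneg hx] at h1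
  rw [abs_of_nonneg (by linarith)] at h2
  have h3 : Real.exp (-x) = Real.exp (-(x / 2)) * Real.exp (-(x / 2)) := by
    rw [← Real.exp_add]
    congr 1
    ring
  have h4 : Real.exp (-(x / 2)) ≤ 1 := Real.exp_le_one_iff.2 (by linarith)
  have h5 : x * Real.exp (-(x / 2)) ≤ 2 := by
    have h6 := Real.add_one_le_exp (x / 2)
    have h7 : Real.exp (x / 2) * Real.exp (-(x / 2)) = 1 := by rw [← Real.exp_add]; simp
    nlinarith [Real.exp_pos (-(x / 2))]
  have h0 := Real.exp_pos (-(x / 2))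
  have h8 : (a + x) * P1 x ≤ 2 * (1 + a) * Real.exp (-(x / 2)) := by
    calc (a + x) * P1 x ≤ (a + x) * Real.exp (-x) :=
          mul_le_mul_of_nonneg_left h1 (by linarith)
      _ = (a * Real.exp (-(x / 2)) + x * Real.exp (-(x / 2))) * Real.exp (-(x / 2)) := by
          rw [h3]; ring
      _ ≤ 2 * (1 + a) * Real.exp (-(x / 2)) := by
          refine mul_le_mul_of_nonneg_right ?_ h0.le
          nlinarith
  have h9 : Real.exp (-(x / 2)) ≤ 8 * (p * P1 (x / 2)) := by nlinarith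
  have h10 : 2 * (1 + a) * Real.exp (-(x / 2)) ≤ 2 * (1 + a) * (8 * (p * P1 (x / 2))) :=
    mul_le_mul_of_nonneg_left h9 (by linarith)
  calc Real.exp a * ((a + x) * P1 x) ≤ Real.exp a * (2 * (1 + a) * (8 * (p * P1 (x / 2)))) :=
        mul_le_mul_of_nonneg_left (h8.trans h10) (Real.exp_pos a).le
    _ = 16 * Real.exp a * (1 + a) * (p * P1 (x / 2)) := by ring
theorem N0_le {e ey : ℝ → ℝ} (he : IsH1 e ey) : N0 e ≤ 8 * qD r A K B e ey := by
  unfold N0 qD
  rw [← integral_const_mul]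
  have hi : Integrable (fun y => pM r A K B y * (e y ^ 2 + ey y ^ 2)) :=
    integrable_bdd_mul ((integrable_sq2 he.1).add (integrable_sq2 he.2.1)) (bdd_pM r A K B)
  refine integral_mono_of_nonneg
    (Eventually.of_forall fun y => mul_nonneg (Q_pos y).le (sq_nonneg _)) (hi.const_mul 8)
    (Eventually.of_forall fun y => ?_)
  have h1 := h.pM_env y
  have h2 := Q_le_exp y
  have h3 : Real.exp (-|y|) ≤ Real.exp (-(|y| / 100)) := by
    rw [Real.exp_le_exp]
    linarith [abs_nonneg y]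
  have h4 : Q y ≤ 8 * pM r A K B y := by linarith
  have h5 := mul_le_mul_of_nonneg_right h4 (sq_nonneg (e y))
  have h6 := mul_nonneg (pM_pos r A K B y).le (sq_nonneg (ey y))
  change Q y * e y ^ 2 ≤ 8 * (pM r A K B y * (e y ^ 2 + ey y ^ 2))
  linarith
theorem sob {e ey : ℝ → ℝ} (he : IsH1 e ey) (y : ℝ) :
    pM r A K B y * e y ^ 2 ≤ 2 * qD r A K B e ey := by
  have h1 := he.weighted_sq_le (c := 1) (hasDerivAt_pM r A K B) (continuous_pM1 r A K B)
    (bdd_pM r A K B) (fun z => (pM_pos r A K B z).le)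
    (fun z => (h.abs_pM1_le z).trans
      (mul_le_mul_of_nonneg_right (by linarith [h.rK_EBb.2]) (pM_pos r A K B z).le))
    zero_le_one y
  rw [one_add_one_eq_two] at h1
  exact h1

end WP

end Pool.Agent.MP_8339a4_an
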