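import Pool.Agent.MP_8339a4_an.If
import Pool.Agent.MP_8339a4_an.T5b

/-! API: pointwise facts on the weights. -/

open MeasureTheory Filter Topology Set

namespace Pool.Agent.MP_8339a4_an

/-- Standing assumptions on the parameters of the weights at a fixed time. -/
structure WP (r A K B : ℝ) : Prop where
  hr : 0 < r
  hK : 100 * r ≤ K
  hA : 0 ≤ A
  hB : 2 * K ≤ B

/-- Derivative of `pM`. -/
noncomputable def pM1 (r A K B y : ℝ) : ℝ :=
  WW1 r A B y * (1 - ph r A K y) - WW r A B y * ph1 r A K y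
/-- Second derivative of `om`. -/
noncomputable def om2 (r A K B y : ℝ) : ℝ :=
  WW2 r A B y * ph r A K y + 2 * (WW1 r A B y * ph1 r A K y) + WW r A B y * ph2 r A K y

variable {r A K B : ℝ}

theorem ratio_le_EBa (hr : 0 < r) (hK : 100 * r ≤ K) : r / K ≤ 1 / 100 := by
  have hK0 : 0 < K := by linarith
  rw [div_le_div_iff₀ hK0 (by norm_num)]
  linarith

theorem lin_le_EBa (hr : 0 < r) (hK : 100 * r ≤ K) (y : ℝ) : |r * y / K| ≤ |y| / 100 := by
  have hK0 : 0 < K := by linarith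
  have h1 := ratio_le_EBa hr hK
  have h2 : r * y / K = r / K * y := by ring
  have h3 : 0 < r / K := div_pos hr hK0
  rw [h2, abs_mul, abs_of_pos h3]
  have := mul_le_mul_of_nonneg_right h1 (abs_nonneg y)
  linarith

theorem ph1_le_one_sub_EBa (hr : 0 < r) (hK : 0 < K) (A y : ℝ) :
    ph1 r A K y ≤ r / K * (1 - ph r A K y) := by
  rw [ph1_eq]
  have h1 := ph_pos r A K y
  have h2 := ph_lt_one r A K y
  have h3 : 0 < r / K := div_pos hr hK
  apply mul_le_mul_of_nonneg_left _ h3.le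
  nlinarith

theorem ph_le_exp_EBa (r A K y : ℝ) :
    ph r A K y ≤ Real.exp (-(A / K)) * Real.exp (r * y / K) := by
  rw [← Real.exp_add]
  have h := P0_le_exp ((r * y - A) / K)
  have e : (r * y - A) / K = -(A / K) + r * y / K := by ring
  unfold ph
  rw [← e]
  exact h

theorem one_sub_chi_le_exp_EBa (r A K y : ℝ) :
    1 - ph r (-A) K y ≤ Real.exp (-(A / K)) * Real.exp (-(r * y / K)) := by
  rw [← Real.exp_add]
  have h := one_sub_P0_le_exp ((r * y - -A) / K)
  have e : -((r * y - -A) / K) = -(A / K) + -(r * y / K) := by ring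
  unfold ph
  rw [← e]
  exact h

theorem mul_exp_neg_le_EBa (x : ℝ) : x * Real.exp (-x) ≤ 1 := by
  have h := Real.add_one_le_exp x
  have h2 : Real.exp x * Real.exp (-x) = 1 := by rw [← Real.exp_add]; simp
  have h3 := Real.exp_pos (-x)
  nlinarith

theorem ph_le_tiny (hr : 0 < r) (hK : 100 * r ≤ K) (A y : ℝ) :
    ph r A K y ≤ Real.exp (-(A / K)) * Real.exp (|y| / 100) := by
  refine (ph_le_exp_EBa r A K y).trans ?_
  apply mul_le_mul_of_nonneg_left _ (Real.exp_pos _).le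
  exact Real.exp_le_exp.2 ((le_abs_self _).trans (lin_le_EBa hr hK y))
theorem ph1_le_tiny (hr : 0 < r) (hK : 100 * r ≤ K) (A y : ℝ) :
    ph1 r A K y ≤ Real.exp (-(A / K)) * Real.exp (|y| / 100) := by
  have hK0 : 0 < K := by linarith
  refine le_trans ?_ (ph_le_tiny hr hK A y)
  have h1 := ph1_le hr hK0 A y
  have h2 := ratio_le_EBa hr hK
  have h3 := ph_pos r A K y
  have := mul_le_mul_of_nonneg_right h2 h3.le
  linarith
theorem one_sub_chi_le_tiny (hr : 0 < r) (hK : 100 * r ≤ K) (A y : ℝ) :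
    1 - ph r (-A) K y ≤ Real.exp (-(A / K)) * Real.exp (|y| / 100) := by
  refine (one_sub_chi_le_exp_EBa r A K y).trans ?_
  apply mul_le_mul_of_nonneg_left _ (Real.exp_pos _).le
  exact Real.exp_le_exp.2 ((neg_le_abs _).trans (lin_le_EBa hr hK y))
theorem chi1_le_tiny (hr : 0 < r) (hK : 100 * r ≤ K) (A y : ℝ) :
    ph1 r (-A) K y ≤ Real.exp (-(A / K)) * Real.exp (|y| / 100) := by
  have hK0 : 0 < K := by linarith
  refine le_trans ?_ (one_sub_chi_le_tiny hr hK A y)
  have h1 := ph1_le_one_sub_EBa hr hK0 (-A) y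
  have h2 := ratio_le_EBa hr hK
  have h3 : 0 < 1 - ph r (-A) K y := sub_pos.2 (ph_lt_one r (-A) K y)
  have := mul_le_mul_of_nonneg_right h2 h3.le
  linarith
theorem neg_mul_ph1_le (hr : 0 < r) (hK : 0 < K) (A : ℝ) {y : ℝ} (hy : y ≤ 0) :
    -y * ph1 r A K y ≤ Real.exp (-(A / K)) := by
  have h1 := ph1_le hr hK A y
  have h2 := ph_le_exp_EBa r A K y
  have h3 : 0 < r / K := div_pos hr hK
  have h4 := mul_exp_neg_le_EBa (-(r * y / K))
  rw [neg_neg] at h4
  have hy' : 0 ≤ -y := by linarith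
  have h5 := Real.exp_pos (-(A / K))
  calc -y * ph1 r A K y ≤ -y * (r / K * (Real.exp (-(A / K)) * Real.exp (r * y / K))) :=
        mul_le_mul_of_nonneg_left (h1.trans (mul_le_mul_of_nonneg_left h2 h3.le)) hy'
    _ = Real.exp (-(A / K)) * (-(r * y / K) * Real.exp (r * y / K)) := by ring
    _ ≤ Real.exp (-(A / K)) * 1 := mul_le_mul_of_nonneg_left h4 h5.le
    _ = _ := mul_one _
theorem mul_chi1_le (hr : 0 < r) (hK : 0 < K) (A : ℝ) {y : ℝ} (hy : 0 ≤ y) :
    y * ph1 r (-A) K y ≤ Real.exp (-(A / K)) := by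
  have h1 := ph1_le_one_sub_EBa hr hK (-A) y
  have h2 := one_sub_chi_le_exp_EBa r A K y
  have h3 : 0 < r / K := div_pos hr hK
  have h4 := mul_exp_neg_le_EBa (r * y / K)
  have h5 := Real.exp_pos (-(A / K))
  calc y * ph1 r (-A) K y ≤ y * (r / K * (Real.exp (-(A / K)) * Real.exp (-(r * y / K)))) :=
        mul_le_mul_of_nonneg_left (h1.trans (mul_le_mul_of_nonneg_left h2 h3.le)) hy
    _ = Real.exp (-(A / K)) * (r * y / K * Real.exp (-(r * y / K))) := by ring
    _ ≤ Real.exp (-(A / K)) * 1 := mul_le_mul_of_nonneg_left h4 h5.le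
    _ = _ := mul_one _
theorem ph_le_half (hK : 0 < K) {y : ℝ} (hy : r * y ≤ A) : ph r A K y ≤ 1 / 2 :=
  P0_le_half (div_nonpos_of_nonpos_of_nonneg (by linarith) hK.le)
theorem half_le_ph (hK : 0 < K) {y : ℝ} (hy : A ≤ r * y) : 1 / 2 ≤ ph r A K y :=
  half_le_P0 (div_nonneg (by linarith) hK.le)

theorem WW_pos (r A B y : ℝ) : 0 < WW r A B y := mul_pos (Real.exp_pos _) (ph_pos r A B y)
theorem WW_le (r A B y : ℝ) : WW r A B y ≤ Real.exp (A / B) := by
  have := mul_le_mul_of_nonneg_left (ph_lt_one r A B y).le (Real.exp_pos (A / B)).le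
  unfold WW
  linarith
theorem WW_le_exp (r A B y : ℝ) : WW r A B y ≤ Real.exp (r * y / B) := by
  have h := mul_le_mul_of_nonneg_left (ph_le_exp_EBa r A B y) (Real.exp_pos (A / B)).le
  have e : Real.exp (A / B) * (Real.exp (-(A / B)) * Real.exp (r * y / B))
      = Real.exp (r * y / B) := by
    rw [← mul_assoc, ← Real.exp_add]
    simp
  unfold WW
  linarith
theorem WW_eq (r A K B y : ℝ) : WW r A B y = pM r A K B y + WW r A B y * ph r A K y := by
  unfold pM
  ring
theorem pM_pos (r A K B y : ℝ) : 0 < pM r A K B y :=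
  mul_pos (WW_pos r A B y) (sub_pos.2 (ph_lt_one r A K y))
theorem pM_le_WW (r A K B y : ℝ) : pM r A K B y ≤ WW r A B y := by
  have h := mul_pos (WW_pos r A B y) (ph_pos r A K y)
  have e := WW_eq r A K B y
  linarith
theorem bdd_WW (r A B : ℝ) : Bdd (WW r A B) := (bdd_ph r A B).const_mul (Real.exp (A / B))
theorem bdd_pM (r A K B : ℝ) : Bdd (pM r A K B) :=
  (bdd_WW r A B).mul ((Bdd.const 1).sub (bdd_ph r A K))
theorem hasDerivAt_pM (r A K B y : ℝ) : HasDerivAt (pM r A K B) (pM1 r A K B y) y := by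
  have h1 : HasDerivAt (WW r A B) (WW1 r A B y) y :=
    (hasDerivAt_ph r A B y).const_mul (Real.exp (A / B))
  have h2 := (hasDerivAt_ph r A K y).const_sub 1
  have h3 := h1.mul h2
  have e : pM1 r A K B y = WW1 r A B y * (1 - ph r A K y) + WW r A B y * -ph1 r A K y := by
    unfold pM1
    ring
  rw [e]
  exact h3
theorem continuous_pM1 (r A K B : ℝ) : Continuous (pM1 r A K B) := by
  have c0 : ∀ L : ℝ, Continuous (ph r A L) := fun L =>
    continuous_iff_continuousAt.2 fun y => (hasDerivAt_ph r A L y).continuousAt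
  have c1 : ∀ L : ℝ, Continuous (ph1 r A L) := fun L =>
    continuous_iff_continuousAt.2 fun y => (hasDerivAt_ph1 r A L y).continuousAt
  have w0 : Continuous (WW r A B) := continuous_const.mul (c0 B)
  have w1 : Continuous (WW1 r A B) := continuous_const.mul (c1 B)
  exact (w1.mul (continuous_const.sub (c0 K))).sub (w0.mul (c1 K))
theorem hasDerivAt_WW3 (r A B y : ℝ) : HasDerivAt (WW3 r A B) (WW4 r A B y) y :=
  (hasDerivAt_ph3 r A B y).const_mul (Real.exp (A / B))
theorem qD_nonneg (r A K B : ℝ) (e ey : ℝ → ℝ) : 0 ≤ qD r A K B e ey :=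
  integral_nonneg fun y => mul_nonneg (pM_pos r A K B y).le (by positivity)

theorem wt_WW (hr : 0 < r) (hB : 0 < B) (A : ℝ) :
    Wt (WW r A B) (WW1 r A B) (WW2 r A B) (WW3 r A B) :=
  (wt_ph hr hB A).const_mul (Real.exp (A / B))
theorem bdd_WW4 (hr : 0 < r) (hB : 0 < B) (A : ℝ) : Bdd (WW4 r A B) :=
  (expD_ph4 hr hB A).bdd.const_mul (Real.exp (A / B))
theorem WW1_pos (hr : 0 < r) (hB : 0 < B) (A y : ℝ) : 0 < WW1 r A B y :=
  mul_pos (Real.exp_pos _) (ph1_pos hr hB A y)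
theorem WW1_le (hr : 0 < r) (hB : 0 < B) (A y : ℝ) : WW1 r A B y ≤ r / B * WW r A B y := by
  have h := mul_le_mul_of_nonneg_left (ph1_le hr hB A y) (Real.exp_pos (A / B)).le
  unfold WW1 WW
  linarith
theorem abs_WW2_le (hr : 0 < r) (hB : 0 < B) (A y : ℝ) :
    |WW2 r A B y| ≤ r / B * WW1 r A B y := by
  have h := mul_le_mul_of_nonneg_left (abs_ph2_le hr hB A y) (Real.exp_pos (A / B)).le
  unfold WW2 WW1
  rw [abs_mul, abs_of_pos (Real.exp_pos _)]
  linarith
theorem abs_WW3_le (hr : 0 < r) (hB : 0 < B) (A y : ℝ) :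
    |WW3 r A B y| ≤ (r / B) ^ 2 * WW1 r A B y := by
  have h := mul_le_mul_of_nonneg_left (abs_ph3_le hr hB A y) (Real.exp_pos (A / B)).le
  unfold WW3 WW1
  rw [abs_mul, abs_of_pos (Real.exp_pos _)]
  linarith
theorem wt_om (hr : 0 < r) (hK : 0 < K) (hB : 0 < B) (A : ℝ) :
    Wt (om r A K B) (om1 r A K B) (om2 r A K B) (om3 r A K B) :=
  ((wt_WW hr hB A).mul (wt_ph hr hK A)).congr (fun _ => rfl) (fun _ => rfl) (fun _ => rfl)
    (fun _ => rfl)

end Pool.Agent.MP_8339a4_an
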