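import Pool.Agent.MP_8339a4_an.Api

/-! Assembly of the modulated flow in physical time. -/

open MeasureTheory Filter Topology Set

namespace Pool.Agent.MP_8339a4_an

theorem rate_FinA {k l S p cr Cr : ℝ} (hl : 0 < l) (hp : 0 < p) (hcr : 0 < cr)
    (hCr : 0 < Cr) (h1 : cr * p⁻¹ ≤ S) (h2 : S ≤ Cr * p⁻¹) (h3 : k / 2 ≤ l * S)
    (h4 : l * S ≤ 2 * k) : k / (2 * Cr) * p ≤ l ∧ l ≤ 2 * k / cr * p := by
  have e1 : cr ≤ S * p := by
    have := mul_le_mul_of_nonneg_right h1 hp.le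
    rwa [mul_assoc, inv_mul_cancel₀ hp.ne', mul_one] at this
  have e2 : S * p ≤ Cr := by
    have := mul_le_mul_of_nonneg_right h2 hp.le
    rwa [mul_assoc, inv_mul_cancel₀ hp.ne', mul_one] at this
  constructor
  · rw [div_mul_eq_mul_div, div_le_iff₀ (by positivity)]
    have a1 := mul_le_mul_of_nonneg_right h3 hp.le
    have a2 := mul_le_mul_of_nonneg_left e2 hl.le
    nlinarith
  · rw [div_mul_eq_mul_div, le_div_iff₀ hcr]
    have a1 := mul_le_mul_of_nonneg_right h4 hp.le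
    have a2 := mul_le_mul_of_nonneg_left e1 hl.le
    nlinarith

theorem tendsto_of_sq_FinA {α : Type} {l : Filter α} {f g : α → ℝ} (hg : Tendsto g l (𝓝 0))
    (h : ∀ᶠ z in l, f z ^ 2 ≤ 4 * g z) : Tendsto f l (𝓝 0) := by
  have h1 : Tendsto (fun z => Real.sqrt (4 * g z)) l (𝓝 0) := by
    have := (hg.const_mul 4).sqrt
    simpa using this
  refine squeeze_zero_norm' ?_ h1
  filter_upwards [h] with z hz
  rw [Real.norm_eq_abs]
  exact Real.abs_le_sqrt hz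

theorem finA (hA : ModAStmt) (hB : ModBStmt) (hH : FlowHStmt) (h0 : Flow0Stmt) (h1 : Flow1Stmt)
    (h2 : Flow2Stmt) (hS : SmallStmt) (hG : G0Stmt) (hP : ParStmt) : FinAStmt := by
  intro T ν u ux lt st x0 hPh
  obtain ⟨T1, lam, sig, hT1, hT1n, hmod, hl, hs, hN⟩ := hA T ν u ux lt st x0 hPh
  obtain ⟨δB, hδB, hB'⟩ := hB
  obtain ⟨δP, CP, hδP, hCP, hP'⟩ := hP
  obtain ⟨hlam0, hsig0, M, E, η, d, hη, hd, hev⟩ := hS T ν u ux lt st x0 lam sig hPh hl hs
  obtain ⟨c, C, hc, hC, hG'⟩ := hG M d hd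
  obtain ⟨cr, Cr, hcr, hrate⟩ := hPh.rate
  have hCr : 0 < Cr := by
    obtain ⟨a1, a2⟩ := hrate T ⟨le_rfl, hPh.neg⟩
    have hx : 0 < (-T) ^ (-ν) := Real.rpow_pos_of_pos (by linarith [hPh.neg]) _
    have := lt_of_lt_of_le (mul_pos hcr hx) (a1.trans a2)
    exact (mul_pos_iff_of_pos_right hx).1 this
  have hI : ∀ᶠ t in 𝓝[<] (0 : ℝ), t ∈ Ioo T1 (0 : ℝ) := Ioo_mem_nhdsLT hT1n
  have hH1T : ∀ t ∈ Ioo T1 (0 : ℝ), H1T (𝓝 t) (resc u lam sig) (rescy ux lam sig)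
      (resc u lam sig t) (rescy ux lam sig t) := fun t ht =>
    hH T u ux lam sig t hPh.sol (lt_of_le_of_lt hT1 ht.1) ht.2 (hmod t ht).1 (hmod t ht).2.1
      (hmod t ht).2.2.1
  have hh1 : ∀ t ∈ Ioo T1 (0 : ℝ), IsH1 (resc u lam sig t) (rescy ux lam sig t) :=
    fun t ht => (hH1T t ht).2.1
  have horth : ∀ t ∈ Ioo T1 (0 : ℝ), ∀ᶠ z in 𝓝 t, (∫ y, resc u lam sig z y * C0 y) = 0 ∧
      (∫ y, resc u lam sig z y * Q1 y) = 0 := fun t ht => by
    filter_upwards [isOpen_Ioo.mem_nhds ht] with z hz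
    exact (hmod z hz).2.2.2
  -- the coercivity bound
  have hGb : ∀ᶠ t in 𝓝[<] (0 : ℝ), c * ∫ y, rescy ux lam sig t y ^ 2 ≤ E * lam t ^ 2
      + 2 * mu (resc u lam sig t) + C * (lam t ^ 2 / η ^ 2 + N0 (resc u lam sig t)) := by
    filter_upwards [hI, hev] with t ht hv
    have hlp := (hmod t ht).1
    have := hG' (η / lam t) _ _ (div_pos hη hlp) (hh1 t ht) hv.1 hv.2.1
    have e1 : 1 / (η / lam t) ^ 2 = lam t ^ 2 / η ^ 2 := by field_simp
    rw [e1] at this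
    linarith [hv.2.2.1]
  have hmu0 : Tendsto (fun t => mu (resc u lam sig t)) (𝓝[<] 0) (𝓝 0) := by
    refine tendsto_of_sq_FinA hN ?_
    filter_upwards [hI] with t ht
    exact mu_sq_le (hh1 t ht).1
  have hey0 : Tendsto (fun t => ∫ y, rescy ux lam sig t y ^ 2) (𝓝[<] 0) (𝓝 0) := by
    have hR : Tendsto (fun t => (E * lam t ^ 2 + 2 * mu (resc u lam sig t)
        + C * (lam t ^ 2 / η ^ 2 + N0 (resc u lam sig t))) / c) (𝓝[<] 0) (𝓝 0) := by
      have := ((((hlam0.pow 2).const_mul E).add (hmu0.const_mul 2)).add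
        ((((hlam0.pow 2).div_const (η ^ 2)).add hN).const_mul C)).div_const c
      simpa using this
    refine squeeze_zero' (Eventually.of_forall fun t => integral_nonneg fun y => sq_nonneg _) ?_ hR
    filter_upwards [hGb] with t ht
    rw [le_div_iff₀ hc]
    linarith
  have hsup : ∀ᶠ t in 𝓝[<] (0 : ℝ), ∀ y, |resc u lam sig t y| ≤ 1 := by
    have hR : Tendsto (fun t => 2 * (Real.sqrt M * Real.sqrt (∫ y, rescy ux lam sig t y ^ 2)))
        (𝓝[<] 0) (𝓝 0) := by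
      have := (hey0.sqrt.const_mul (Real.sqrt M)).const_mul 2
      simpa using this
    filter_upwards [hI, hev, hR.eventually (ge_mem_nhds one_pos)] with t ht hv hle y
    have a1 := (hh1 t ht).sq_le y
    have a2 := mul_le_mul_of_nonneg_right (Real.sqrt_le_sqrt hv.1)
      (Real.sqrt_nonneg (∫ y, rescy ux lam sig t y ^ 2))
    rw [← sq_le_one_iff_abs_le_one]
    linarith
  -- the rate
  have hk : 0 < Real.sqrt (∫ y, Q1 y ^ 2) := Real.sqrt_pos.2 integral_Q1_sq_pos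
  have hlimq : Tendsto (fun t => Real.sqrt (∫ y, (Q1 y + rescy ux lam sig t y) ^ 2)) (𝓝[<] 0)
      (𝓝 (Real.sqrt (∫ y, Q1 y ^ 2))) := by
    have b1 : L2T (𝓝[<] (0 : ℝ)) (rescy ux lam sig) (fun _ => 0) := by
      refine ⟨?_, MemLp.zero', ?_⟩
      · filter_upwards [hI] with t ht
        exact (hh1 t ht).2.1
      · simpa using hey0
    have b2 := ((L2T.const (l := 𝓝[<] (0 : ℝ)) expD_Q1.memLp).add b1).sq.tendsto_integral
    simp only [add_zero] at b2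
    exact b2.sqrt
  have hrt : ∀ᶠ t in 𝓝[<] (0 : ℝ), Real.sqrt (∫ y, Q1 y ^ 2) / (2 * Cr) * (-t) ^ ν ≤ lam t ∧
      lam t ≤ 2 * Real.sqrt (∫ y, Q1 y ^ 2) / cr * (-t) ^ ν := by
    filter_upwards [hI, hev, hlimq.eventually (le_mem_nhds (half_lt_self hk)),
      hlimq.eventually (ge_mem_nhds (lt_two_mul_self hk))] with t ht hv b1 b2
    have hlp := (hmod t ht).1
    have ht0 : 0 < -t := by linarith [ht.2]
    obtain ⟨a1, a2⟩ := hrate t ⟨hT1.trans ht.1.le, ht.2⟩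
    rw [Real.rpow_neg ht0.le] at a1 a2
    rw [hv.2.2.2, Real.sqrt_mul (sq_nonneg _), Real.sqrt_sq hlp.le] at b1 b2
    exact rate_FinA hlp (Real.rpow_pos_of_pos ht0 ν) hcr hCr a1 a2 b1 b2
  have hall := hI.and (hev.and (hGb.and (hsup.and (hrt.and
    ((hN.eventually (ge_mem_nhds hδB)).and (hN.eventually (ge_mem_nhds hδP)))))))
  obtain ⟨T2, hT2, hsub⟩ := mem_nhdsLT_iff_exists_Ioo_subset.1 hall
  have hdiff : ∀ t ∈ Ioo T2 (0 : ℝ), DifferentiableAt ℝ lam t ∧ DifferentiableAt ℝ sig t := by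
    intro t ht
    obtain ⟨ht1, -, -, -, -, hb, -⟩ := hsub ht
    exact hB' T u ux lam sig t hPh.sol (lt_of_le_of_lt hT1 ht1.1) ht1.2 (hmod t ht1).1
      (hmod t ht1).2.1 (hmod t ht1).2.2.1 (horth t ht1) hb
  have hflow : ∀ t ∈ Ioo T2 (0 : ℝ), FlowAt (resc u lam sig) (rescy ux lam sig) lam
      (fun z => -(lam z ^ 2 * deriv lam z)) (fun z => lam z ^ 2 * deriv sig z - 1)
      (lam t ^ 3)⁻¹ t := by
    intro t ht
    have ht1 := (hsub ht).1
    have hlp := (hmod t ht1).1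
    have hTt := lt_of_le_of_lt hT1 ht1.1
    have d1 := (hdiff t ht).1.hasDerivAt
    have d2 := (hdiff t ht).2.hasDerivAt
    refine ⟨hH1T t ht1, hlp, ?_, horth t ht1, h0 T u ux lam sig t _ _ hPh.sol hTt ht1.2 hlp d1 d2,
      h1 T u ux lam sig t _ _ hPh.sol hTt ht1.2 hlp d1 d2,
      h2 T u ux lam sig t _ _ hPh.sol hTt ht1.2 hlp d1 d2⟩
    have e1 : (lam t ^ 3)⁻¹ * (-(-(lam t ^ 2 * deriv lam t)) * lam t) = deriv lam t := by
      field_simp
    show HasDerivAt lam ((lam t ^ 3)⁻¹ * (-(-(lam t ^ 2 * deriv lam t)) * lam t)) t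
    rw [e1]
    exact d1
  have hCe : 0 ≤ C / η ^ 2 := by positivity
  refine ⟨T2, Real.sqrt (∫ y, Q1 y ^ 2) / (2 * Cr), 2 * Real.sqrt (∫ y, Q1 y ^ 2) / cr, M, η, d,
    CP + |E| + C / η ^ 2 + C, resc u lam sig, rescy ux lam sig, lam,
    fun z => -(lam z ^ 2 * deriv lam z), fun z => lam z ^ 2 * deriv sig z - 1, sig,
    ⟨hT2, by positivity, hη, hd, hflow, fun t ht => (hsub ht).2.2.2.2.1,
      fun t ht => (hsub ht).2.1.1, fun t ht => (hsub ht).2.1.2.1, hN, hey0, ?_, ?_⟩, ?_, hsig0⟩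
  · intro t ht
    obtain ⟨ht1, -, -, hsp, -, -, hb⟩ := hsub ht
    have hlp := (hmod t ht1).1
    have a1 := hP' _ _ _ _ _ _ _ (hflow t ht) (by positivity) hsp hb
    have a2 := N0_nonneg (resc u lam sig t)
    have a3 : 0 ≤ (|E| + C / η ^ 2 + C) * N0 (resc u lam sig t) := by positivity
    nlinarith
  · intro t ht
    obtain ⟨-, -, hg, -⟩ := hsub ht
    have a0 : 0 ≤ c * ∫ y, rescy ux lam sig t y ^ 2 :=
      mul_nonneg hc.le (integral_nonneg fun y => sq_nonneg _)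
    have a2 := N0_nonneg (resc u lam sig t)
    have a3 := mul_le_mul_of_nonneg_right (le_abs_self E) (sq_nonneg (lam t))
    have a4 : C * (lam t ^ 2 / η ^ 2) = C / η ^ 2 * lam t ^ 2 := by ring
    have a5 : 0 ≤ (2 * CP + |E| + C / η ^ 2 + 2 * C) * lam t ^ 2 := by positivity
    have a6 : 0 ≤ (2 * CP + 2 * |E| + 2 * (C / η ^ 2) + C) * N0 (resc u lam sig t) := by positivity
    nlinarith
  · intro t ht
    have hlp := (hmod t (hsub ht).1).1
    have e1 : (1 + (lam t ^ 2 * deriv sig t - 1)) / lam t ^ 2 = deriv sig t := by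
      field_simp
      ring
    show HasDerivAt sig ((1 + (lam t ^ 2 * deriv sig t - 1)) / lam t ^ 2) t
    rw [e1]
    exact (hdiff t ht).2.hasDerivAt

end Pool.Agent.MP_8339a4_an
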