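import Pool.Agent.MP_8339a4_an.Api

/-! The blow-up exponent lies strictly between one third and one half. -/

open MeasureTheory Filter Topology Set

namespace Pool.Agent.MP_8339a4_an

theorem mono_FinB {f f' : ℝ → ℝ} (h : ∀ᶠ t in 𝓝[<] (0 : ℝ), HasDerivAt f (f' t) t ∧ 0 ≤ f' t) :
    ∀ᶠ s in 𝓝[<] (0 : ℝ), ∀ᶠ t in 𝓝[<] (0 : ℝ), f s ≤ f t := by
  obtain ⟨a, ha, hs⟩ := mem_nhdsLT_iff_exists_Ioo_subset.1 h
  have hm : MonotoneOn f (Ioo a 0) := by
    refine monotoneOn_of_deriv_nonneg (convex_Ioo a 0)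
      (fun t ht => (hs ht).1.continuousAt.continuousWithinAt) ?_ ?_
    · rw [interior_Ioo]
      exact fun t ht => (hs ht).1.differentiableAt.differentiableWithinAt
    · rw [interior_Ioo]
      intro t ht
      rw [(hs ht).1.deriv]
      exact (hs ht).2
  filter_upwards [Ioo_mem_nhdsLT ha] with s hs'
  filter_upwards [Ioo_mem_nhdsLT hs'.2] with t ht
  exact hm hs' ⟨hs'.1.trans ht.1, ht.2⟩ ht.1.le

theorem small_FinB {l : Filter ℝ} {x n : ℝ → ℝ} {C : ℝ} (hn : Tendsto n l (𝓝 0))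
    (h : ∀ᶠ t in l, x t ^ 2 ≤ C * n t) {ε : ℝ} (hε : 0 < ε) : ∀ᶠ t in l, |x t| < ε := by
  have h1 : Tendsto (fun t => C * n t) l (𝓝 0) := by simpa using hn.const_mul C
  filter_upwards [h, h1.eventually (gt_mem_nhds (pow_pos hε 2))] with t h2 h3
  exact abs_lt_of_sq_lt_sq (h2.trans_lt h3) hε.le

theorem finB : FinBStmt := by
  intro T1 ν c0 c1 M η d Cp e ey lam β γ sig x0 hν P hs hx
  have hI : ∀ᶠ t in 𝓝[<] (0 : ℝ), t ∈ Ioo T1 0 := Ioo_mem_nhdsLT P.neg
  have hJ : ∀ᶠ t in 𝓝[<] (0 : ℝ), t ∈ Ioo (-1 : ℝ) 0 := Ioo_mem_nhdsLT (by norm_num)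
  have hβ : ∀ ε : ℝ, 0 < ε → ∀ᶠ t in 𝓝[<] (0 : ℝ), |β t| < ε := fun ε hε =>
    small_FinB (C := Cp) P.n0 (hI.mono fun t ht => by
      nlinarith [P.par t ht, sq_nonneg (γ t)]) hε
  have hγ : ∀ ε : ℝ, 0 < ε → ∀ᶠ t in 𝓝[<] (0 : ℝ), |γ t| < ε := fun ε hε =>
    small_FinB (C := Cp) P.n0 (hI.mono fun t ht => by
      nlinarith [P.par t ht, sq_nonneg (β t)]) hε
  have hc0 := P.hc0
  constructor
  · by_contra hcon
    have hle : ν ≤ 1 / 3 := not_lt.1 hcon
    have hid : Tendsto (fun t : ℝ => t) (𝓝[<] 0) (𝓝 0) := tendsto_id.mono_left nhdsWithin_le_nhds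
    have hl0 : Tendsto lam (𝓝[<] 0) (𝓝 0) := by
      have h1 : Tendsto (fun t : ℝ => (-t) ^ ν) (𝓝[<] 0) (𝓝 0) :=
        Tendsto.rpow_const_nhds_zero (by simpa using hid.neg) hν
      have h2 : Tendsto (fun t : ℝ => c1 * (-t) ^ ν) (𝓝[<] 0) (𝓝 0) := by
        simpa using h1.const_mul c1
      exact squeeze_zero' (hI.mono fun t ht => (P.flow t ht).pos.le)
        (hI.mono fun t ht => (P.rate t ht).2) h2
    have hε : 0 < c0 ^ 3 / 6 := by positivity
    have hm := mono_FinB (f := fun t => lam t ^ 3 + c0 ^ 3 / 2 * t)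
      (f' := fun t => -3 * β t + c0 ^ 3 / 2) (by
        filter_upwards [hI, hβ _ hε] with t ht hb
        refine ⟨?_, by linarith [(abs_lt.1 hb).2]⟩
        have hp := (P.flow t ht).pos.ne'
        have h1 := ((P.flow t ht).dlam.pow 3).add ((hasDerivAt_id t).const_mul (c0 ^ 3 / 2))
        refine h1.congr_deriv ?_
        simp only [Nat.cast_ofNat, Nat.add_one_sub_one, mul_one]
        field_simp)
    have hf : Tendsto (fun t => lam t ^ 3 + c0 ^ 3 / 2 * t) (𝓝[<] 0) (𝓝 0) := by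
      simpa using (hl0.pow 3).add (hid.const_mul (c0 ^ 3 / 2))
    obtain ⟨s, hsI, hsJ, hs3⟩ := (hI.and (hJ.and hm)).exists
    have h1 : lam s ^ 3 + c0 ^ 3 / 2 * s ≤ 0 := ge_of_tendsto hf hs3
    have hp : 0 < -s := neg_pos.2 hsI.2
    have h2 : (-s) ^ ((1 : ℝ) / 3) ≤ (-s) ^ ν :=
      Real.rpow_le_rpow_of_exponent_ge hp (by linarith [hsJ.1]) hle
    have h3 : c0 * (-s) ^ ((1 : ℝ) / 3) ≤ lam s :=
      (mul_le_mul_of_nonneg_left h2 hc0.le).trans (P.rate s hsI).1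
    have h4 := pow_le_pow_left₀ (by positivity) h3 3
    have h5 : ((-s) ^ ((1 : ℝ) / 3)) ^ 3 = -s := by
      rw [← Real.rpow_natCast, ← Real.rpow_mul hp.le]
      norm_num
    rw [mul_pow, h5] at h4
    nlinarith [mul_pos hε hp]
  · by_contra hcon
    have hle : 1 / 2 ≤ ν := not_lt.1 hcon
    obtain ⟨s0, hs0⟩ := hI.exists
    have hc1 : 0 < c1 := by
      have h1 := (P.flow s0 hs0).pos.trans_le (P.rate s0 hs0).2
      exact (mul_pos_iff_of_pos_right (Real.rpow_pos_of_pos (neg_pos.2 hs0.2) _)).1 h1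
    have hk : 0 < 1 / (2 * c1 ^ 2) := by positivity
    have hm := mono_FinB (f := fun t => sig t + 1 / (2 * c1 ^ 2) * Real.log t)
      (f' := fun t => (1 + γ t) / lam t ^ 2 + 1 / (2 * c1 ^ 2) * t⁻¹) (by
        filter_upwards [hI, hJ, hγ _ one_half_pos] with t ht htJ hg
        refine ⟨(hs t ht).add ((Real.hasDerivAt_log ht.2.ne).const_mul _), ?_⟩
        have hp : 0 < -t := neg_pos.2 ht.2
        have hl := (P.flow t ht).pos
        have h2 : (-t) ^ ν ≤ (-t) ^ ((1 : ℝ) / 2) :=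
          Real.rpow_le_rpow_of_exponent_ge hp (by linarith [htJ.1]) hle
        have h3 : lam t ≤ c1 * (-t) ^ ((1 : ℝ) / 2) :=
          (P.rate t ht).2.trans (mul_le_mul_of_nonneg_left h2 hc1.le)
        have h4 := pow_le_pow_left₀ hl.le h3 2
        have h5 : ((-t) ^ ((1 : ℝ) / 2)) ^ 2 = -t := by
          rw [← Real.rpow_natCast, ← Real.rpow_mul hp.le]
          norm_num
        rw [mul_pow, h5] at h4
        have h6 : (1 / 2) / (c1 ^ 2 * -t) ≤ (1 + γ t) / lam t ^ 2 :=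
          div_le_div₀ (by linarith [(abs_lt.1 hg).1]) (by linarith [(abs_lt.1 hg).1])
            (by positivity) h4
        have h7 : 1 / (2 * c1 ^ 2) * t⁻¹ = -((1 / 2) / (c1 ^ 2 * -t)) := by
          have := ht.2.ne
          field_simp
        linarith)
    have hl : Tendsto Real.log (𝓝[<] 0) atBot :=
      Real.tendsto_log_nhdsNE_zero.mono_left (nhdsWithin_mono _ fun t ht => ne_of_lt ht)
    have hf : Tendsto (fun t => sig t + 1 / (2 * c1 ^ 2) * Real.log t) (𝓝[<] 0) atBot :=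
      hx.add_atBot (hl.const_mul_atBot hk)
    obtain ⟨s, hs3⟩ := hm.exists
    obtain ⟨t, h1, h2⟩ := (hs3.and (hf.eventually (eventually_lt_atBot _))).exists
    exact absurd h1 (not_le.2 h2)

end Pool.Agent.MP_8339a4_an
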