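import Pool.Agent.MP_8339a4_an.Api

/-! Passage from the physical time to the rescaled time. -/

open MeasureTheory Filter Topology Set

namespace Pool.Agent.MP_8339a4_an

noncomputable section

theorem mono_FinC {T1 : ℝ} {f f' : ℝ → ℝ} (hf : ∀ t ∈ Ioo T1 (0 : ℝ), HasDerivAt f (f' t) t)
    (h0 : ∀ t ∈ Ioo T1 (0 : ℝ), 0 ≤ f' t) : MonotoneOn f (Ioo T1 0) := by
  refine monotoneOn_of_deriv_nonneg (convex_Ioo T1 0)
    (fun t ht => (hf t ht).continuousAt.continuousWithinAt) ?_ ?_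
  · intro t ht
    rw [interior_Ioo] at ht
    exact (hf t ht).differentiableAt.differentiableWithinAt
  · intro t ht
    rw [interior_Ioo] at ht
    rw [(hf t ht).deriv]
    exact h0 t ht

theorem dU_FinC {p t : ℝ} (ht : t < 0) :
    HasDerivAt (fun x : ℝ => (-x) ^ (-p)) (p * (-t) ^ (-p - 1)) t := by
  have h1 : HasDerivAt (fun x : ℝ => -x) (-1) t := (hasDerivAt_id t).neg
  have h2 := h1.rpow_const (p := -p) (Or.inl (by linarith : (-t) ≠ 0))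
  have e : -1 * -p * (-t) ^ (-p - 1) = p * (-t) ^ (-p - 1) := by ring
  rw [e] at h2
  exact h2

theorem cube_FinC {ν t : ℝ} (ht : t < 0) :
    (((-t) ^ ν) ^ 3)⁻¹ = (-t) ^ (-(3 * ν - 1) - 1) := by
  have h : 0 ≤ -t := by linarith
  rw [← Real.rpow_natCast, ← Real.rpow_mul h, ← Real.rpow_neg h]
  congr 1
  push_cast
  ring

/-- The primitive of `lam^(-3)` and its two-sided bounds. -/
theorem prim_FinC {T1 ν c0 c1 : ℝ} {lam : ℝ → ℝ} (hT : T1 < 0) (hν : 1 / 3 < ν) (hc0 : 0 < c0)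
    (hc : ∀ t ∈ Ioo T1 (0 : ℝ), ContinuousAt lam t)
    (hr : ∀ t ∈ Ioo T1 (0 : ℝ), c0 * (-t) ^ ν ≤ lam t ∧ lam t ≤ c1 * (-t) ^ ν) :
    ∃ (S : ℝ → ℝ) (a b K : ℝ), 0 < a ∧ 0 < b ∧ S (T1 / 2) = 1 ∧
      (∀ t ∈ Ioo T1 (0 : ℝ), HasDerivAt S (lam t ^ 3)⁻¹ t) ∧
      ∀ t ∈ Ioo (T1 / 2) (0 : ℝ), a * (-t) ^ (-(3 * ν - 1)) - K ≤ S t ∧
        S t ≤ 1 + b * (-t) ^ (-(3 * ν - 1)) := by
  have hT2 : T1 / 2 ∈ Ioo T1 (0 : ℝ) := ⟨by linarith, by linarith⟩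
  have hpw : ∀ t ∈ Ioo T1 (0 : ℝ), 0 < (-t) ^ ν := fun t ht =>
    Real.rpow_pos_of_pos (by linarith [ht.2]) ν
  have hpos : ∀ t ∈ Ioo T1 (0 : ℝ), 0 < lam t := fun t ht =>
    lt_of_lt_of_le (mul_pos hc0 (hpw t ht)) (hr t ht).1
  have hc1 : 0 < c1 := by
    have h1 := lt_of_lt_of_le (hpos _ hT2) (hr _ hT2).2
    exact (mul_pos_iff_of_pos_right (hpw _ hT2)).1 h1
  have hg : ∀ t ∈ Ioo T1 (0 : ℝ), ContinuousAt (fun x => (lam x ^ 3)⁻¹) t := fun t ht =>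
    ((hc t ht).pow 3).inv₀ (pow_pos (hpos t ht) 3).ne'
  have hgo : ContinuousOn (fun x => (lam x ^ 3)⁻¹) (Ioo T1 0) := fun t ht =>
    (hg t ht).continuousWithinAt
  have hp : 0 < 3 * ν - 1 := by linarith
  set p := 3 * ν - 1 with hpdef
  have hS : ∀ t ∈ Ioo T1 (0 : ℝ),
      HasDerivAt (fun t => 1 + ∫ x in (T1 / 2)..t, (lam x ^ 3)⁻¹) (lam t ^ 3)⁻¹ t := by
    intro t ht
    have hi : IntervalIntegrable (fun x => (lam x ^ 3)⁻¹) volume (T1 / 2) t := by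
      refine (hgo.mono ?_).intervalIntegrable
      exact (ordConnected_Ioo).uIcc_subset hT2 ht
    have hm : StronglyMeasurableAtFilter (fun x => (lam x ^ 3)⁻¹) (𝓝 t) volume :=
      hgo.stronglyMeasurableAtFilter isOpen_Ioo t ht
    exact (intervalIntegral.integral_hasDerivAt_right hi hm (hg t ht)).const_add 1
  have hlo : ∀ t ∈ Ioo T1 (0 : ℝ), (c1 ^ 3)⁻¹ * (-t) ^ (-p - 1) ≤ (lam t ^ 3)⁻¹ := by
    intro t ht
    rw [hpdef, ← cube_FinC ht.2, ← mul_inv, ← mul_pow]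
    exact inv_anti₀ (pow_pos (hpos t ht) 3) (pow_le_pow_left₀ (hpos t ht).le (hr t ht).2 3)
  have hhi : ∀ t ∈ Ioo T1 (0 : ℝ), (lam t ^ 3)⁻¹ ≤ (c0 ^ 3)⁻¹ * (-t) ^ (-p - 1) := by
    intro t ht
    rw [hpdef, ← cube_FinC ht.2, ← mul_inv, ← mul_pow]
    have h0 := mul_pos hc0 (hpw t ht)
    exact inv_anti₀ (pow_pos h0 3) (pow_le_pow_left₀ h0.le (hr t ht).1 3)
  refine ⟨fun t => 1 + ∫ x in (T1 / 2)..t, (lam x ^ 3)⁻¹, (c1 ^ 3)⁻¹ / p, (c0 ^ 3)⁻¹ / p,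
    (c1 ^ 3)⁻¹ / p * (-(T1 / 2)) ^ (-p), by positivity, by positivity, by simp, hS, ?_⟩
  intro t ht
  have ht' : t ∈ Ioo T1 (0 : ℝ) := ⟨by linarith [ht.1], ht.2⟩
  constructor
  · have hm := mono_FinC (T1 := T1)
      (f := fun t => (1 + ∫ x in (T1 / 2)..t, (lam x ^ 3)⁻¹) - (c1 ^ 3)⁻¹ / p * (-t) ^ (-p))
      (f' := fun t => (lam t ^ 3)⁻¹ - (c1 ^ 3)⁻¹ / p * (p * (-t) ^ (-p - 1)))
      (fun t ht => (hS t ht).sub ((dU_FinC ht.2).const_mul _))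
      (fun t ht => by
        have h1 := hlo t ht
        have e : (c1 ^ 3)⁻¹ / p * (p * (-t) ^ (-p - 1)) = (c1 ^ 3)⁻¹ * (-t) ^ (-p - 1) := by
          field_simp
        rw [e]
        linarith)
    have h2 := hm hT2 ht' ht.1.le
    simp only [intervalIntegral.integral_same] at h2
    linarith
  · have hm := mono_FinC (T1 := T1)
      (f := fun t => (c0 ^ 3)⁻¹ / p * (-t) ^ (-p) - (1 + ∫ x in (T1 / 2)..t, (lam x ^ 3)⁻¹))
      (f' := fun t => (c0 ^ 3)⁻¹ / p * (p * (-t) ^ (-p - 1)) - (lam t ^ 3)⁻¹)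
      (fun t ht => ((dU_FinC ht.2).const_mul _).sub (hS t ht))
      (fun t ht => by
        have h1 := hhi t ht
        have e : (c0 ^ 3)⁻¹ / p * (p * (-t) ^ (-p - 1)) = (c0 ^ 3)⁻¹ * (-t) ^ (-p - 1) := by
          field_simp
        rw [e]
        linarith)
    have h2 := hm hT2 ht' ht.1.le
    simp only [intervalIntegral.integral_same] at h2
    have h3 : 0 ≤ (c0 ^ 3)⁻¹ / p * (-(T1 / 2)) ^ (-p) := by
      have : 0 ≤ -(T1 / 2) := by linarith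
      positivity
    linarith

/-- The inverse of an increasing differentiable function that blows up at `0`. -/
theorem inv_FinC {T1 p a K : ℝ} {S g : ℝ → ℝ} (hT : T1 < 0) (hp : 0 < p) (ha : 0 < a)
    (h1 : S (T1 / 2) = 1) (hS : ∀ t ∈ Ioo T1 (0 : ℝ), HasDerivAt S (g t) t)
    (hg : ∀ t ∈ Ioo T1 (0 : ℝ), 0 < g t)
    (hlo : ∀ t ∈ Ioo (T1 / 2) (0 : ℝ), a * (-t) ^ (-p) - K ≤ S t) :
    ∃ τ : ℝ → ℝ, (∀ s, 1 < s → τ s ∈ Ioo (T1 / 2) (0 : ℝ) ∧ S (τ s) = s ∧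
      HasDerivAt τ (g (τ s))⁻¹ s) ∧ Tendsto τ atTop (𝓝[<] 0) := by
  have hT2 : T1 / 2 ∈ Ioo T1 (0 : ℝ) := ⟨by linarith, by linarith⟩
  have hsm : StrictMonoOn S (Ioo T1 0) := by
    refine strictMonoOn_of_deriv_pos (convex_Ioo T1 0)
      (fun t ht => (hS t ht).continuousAt.continuousWithinAt) ?_
    intro t ht
    rw [interior_Ioo] at ht
    rw [(hS t ht).deriv]
    exact hg t ht
  have htop : Tendsto (fun t : ℝ => a * (-t) ^ (-p) - K) (𝓝[<] 0) atTop := by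
    have h2 : Tendsto (fun t : ℝ => -t) (𝓝[<] 0) (𝓝[>] 0) := by
      have := tendsto_neg_nhdsLT (a := (0 : ℝ))
      rwa [neg_zero] at this
    have h3 := (tendsto_rpow_neg_nhdsGT_zero (y := -p) (by linarith)).comp h2
    exact tendsto_atTop_add_const_right _ (-K) (h3.const_mul_atTop ha)
  have hex : ∀ s, 1 < s → ∃ t ∈ Ioo T1 (0 : ℝ), S t = s := by
    intro s hs
    have h4 : ∀ᶠ t in 𝓝[<] (0 : ℝ), t ∈ Ioo (T1 / 2) (0 : ℝ) := Ioo_mem_nhdsLT hT2.2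
    obtain ⟨t, ht, ht2⟩ := (h4.and (htop.eventually_ge_atTop s)).exists
    have hsub : Icc (T1 / 2) t ⊆ Ioo T1 0 := fun x hx =>
      ⟨by linarith [hx.1, hT2.1], by linarith [hx.2, ht.2]⟩
    have hcont : ContinuousOn S (Icc (T1 / 2) t) := fun x hx =>
      (hS x (hsub hx)).continuousAt.continuousWithinAt
    obtain ⟨x, hx, hx2⟩ := intermediate_value_Icc ht.1.le hcont
      (show s ∈ Icc (S (T1 / 2)) (S t) from ⟨by linarith, le_trans ht2 (hlo t ht)⟩)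
    exact ⟨x, hsub hx, hx2⟩
  have hmem : ∀ s, 1 < s → Function.invFunOn S (Ioo T1 0) s ∈ Ioo T1 (0 : ℝ) := fun s hs =>
    Function.invFunOn_mem (hex s hs)
  have heq : ∀ s, 1 < s → S (Function.invFunOn S (Ioo T1 0) s) = s := fun s hs =>
    Function.invFunOn_eq (hex s hs)
  have hleft : ∀ t ∈ Ioo T1 (0 : ℝ), Function.invFunOn S (Ioo T1 0) (S t) = t := fun t ht =>
    hsm.injOn.leftInvOn_invFunOn ht
  generalize Function.invFunOn S (Ioo T1 0) = τ at hmem heq hleft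
  have hgt : ∀ t ∈ Ioo T1 (0 : ℝ), ∀ s, 1 < s → S t < s → t < τ s := by
    intro t ht s hs hlt
    rw [← heq s hs] at hlt
    exact (hsm.lt_iff_lt ht (hmem s hs)).1 hlt
  have hmem2 : ∀ s, 1 < s → τ s ∈ Ioo (T1 / 2) (0 : ℝ) := fun s hs =>
    ⟨hgt _ hT2 s hs (by linarith), (hmem s hs).2⟩
  have hmono : MonotoneOn τ (Ioi 1) := by
    intro s hs s' hs' hss
    rw [← heq s hs, ← heq s' hs'] at hss
    exact (hsm.le_iff_le (hmem s hs) (hmem s' hs')).1 hss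
  have himg : Ioo (T1 / 2) (0 : ℝ) ⊆ τ '' Ioi 1 := by
    intro t ht
    have ht' : t ∈ Ioo T1 (0 : ℝ) := ⟨by linarith [ht.1, hT2.1], ht.2⟩
    refine ⟨S t, ?_, hleft t ht'⟩
    have := hsm hT2 ht' ht.1
    rw [h1] at this
    exact this
  refine ⟨τ, fun s hs => ⟨hmem2 s hs, heq s hs, ?_⟩, ?_⟩
  · have hct : ContinuousAt τ s :=
      continuousAt_of_monotoneOn_of_image_mem_nhds hmono (Ioi_mem_nhds hs)
        (mem_of_superset (Ioo_mem_nhds (hmem2 s hs).1 (hmem2 s hs).2) himg)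
    refine HasDerivAt.of_local_left_inverse hct (hS _ (hmem s hs)) (hg _ (hmem s hs)).ne' ?_
    filter_upwards [Ioi_mem_nhds hs] with y hy using heq y hy
  · refine tendsto_nhdsWithin_iff.2 ⟨?_, ?_⟩
    · refine tendsto_order.2 ⟨fun t ht => ?_, fun t ht => ?_⟩
      · have hm : max t (T1 / 2) ∈ Ioo T1 (0 : ℝ) :=
          ⟨lt_of_lt_of_le hT2.1 (le_max_right _ _), max_lt ht hT2.2⟩
        filter_upwards [eventually_gt_atTop 1, eventually_gt_atTop (S (max t (T1 / 2)))]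
          with s hs hs2
        exact lt_of_le_of_lt (le_max_left _ _) (hgt _ hm s hs hs2)
      · filter_upwards [eventually_gt_atTop 1] with s hs
        exact lt_trans (hmem s hs).2 ht
    · filter_upwards [eventually_gt_atTop 1] with s hs
      exact (hmem s hs).2

theorem pw_FinC {ν p t s : ℝ} (ht : t < 0) (hp : 0 < p) (hs : 0 ≤ s) :
    (-t) ^ ν * s ^ (ν / p) = (s / (-t) ^ (-p)) ^ (ν / p) := by
  have h : 0 ≤ -t := by linarith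
  rw [Real.rpow_neg h, div_inv_eq_mul, Real.mul_rpow hs (Real.rpow_nonneg h p),
    ← Real.rpow_mul h, mul_comm]
  congr 2
  field_simp

theorem clock_FinC {T1 ν c0 c1 : ℝ} {lam : ℝ → ℝ} (hT : T1 < 0) (hν : 1 / 3 < ν) (hc0 : 0 < c0)
    (hc : ∀ t ∈ Ioo T1 (0 : ℝ), ContinuousAt lam t)
    (hr : ∀ t ∈ Ioo T1 (0 : ℝ), c0 * (-t) ^ ν ≤ lam t ∧ lam t ≤ c1 * (-t) ^ ν) :
    ∃ (s0 r0 r1 : ℝ) (τ : ℝ → ℝ), 1 ≤ s0 ∧ 0 < r0 ∧
      (∀ s, s0 < s → τ s ∈ Ioo T1 (0 : ℝ) ∧ HasDerivAt τ (lam (τ s) ^ 3) s ∧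
        r0 ≤ lam (τ s) * s ^ (ν / (3 * ν - 1)) ∧ lam (τ s) * s ^ (ν / (3 * ν - 1)) ≤ r1) ∧
      Tendsto τ atTop (𝓝[<] 0) := by
  obtain ⟨S, a, b, K, ha, hb, h1, hS, hbd⟩ := prim_FinC hT hν hc0 hc hr
  have hp : 0 < 3 * ν - 1 := by linarith
  have hpw : ∀ t ∈ Ioo T1 (0 : ℝ), 0 < (-t) ^ ν := fun t ht =>
    Real.rpow_pos_of_pos (by linarith [ht.2]) ν
  have hpos : ∀ t ∈ Ioo T1 (0 : ℝ), 0 < lam t := fun t ht =>
    lt_of_lt_of_le (mul_pos hc0 (hpw t ht)) (hr t ht).1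
  obtain ⟨τ, hτ, hlim⟩ := inv_FinC (g := fun t => (lam t ^ 3)⁻¹) hT hp ha h1 hS
    (fun t ht => inv_pos.2 (pow_pos (hpos t ht) 3)) (fun t ht => (hbd t ht).1)
  set p := 3 * ν - 1 with hpdef
  have hκ : 0 ≤ ν / p := div_nonneg (by linarith) hp.le
  refine ⟨max 2 K, c0 * (a / 2) ^ (ν / p), c1 * (2 * b) ^ (ν / p), τ,
    le_trans (by norm_num) (le_max_left _ _), by positivity, fun s hs => ?_, hlim⟩
  have hs2 : 2 < s := lt_of_le_of_lt (le_max_left _ _) hs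
  have hsK : K < s := lt_of_le_of_lt (le_max_right _ _) hs
  obtain ⟨hm, he, hd⟩ := hτ s (by linarith)
  have hm' : τ s ∈ Ioo T1 (0 : ℝ) := ⟨by linarith [hm.1], hm.2⟩
  have hc1 : 0 < c1 := by
    have h1 := lt_of_lt_of_le (hpos _ hm') (hr _ hm').2
    exact (mul_pos_iff_of_pos_right (hpw _ hm')).1 h1
  have hu : 0 < (-τ s) ^ (-p) := Real.rpow_pos_of_pos (by linarith [hm.2]) _
  have hb1 := (hbd _ hm).1
  have hb2 := (hbd _ hm).2
  rw [he] at hb1 hb2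
  have hq1 : a / 2 ≤ s / (-τ s) ^ (-p) := by
    rw [le_div_iff₀ hu]
    linarith
  have hq2 : s / (-τ s) ^ (-p) ≤ 2 * b := by
    rw [div_le_iff₀ hu]
    linarith
  have hsk : 0 ≤ s ^ (ν / p) := Real.rpow_nonneg (by linarith) _
  have hid := pw_FinC (ν := ν) hm.2 hp (show 0 ≤ s by linarith)
  rw [inv_inv] at hd
  refine ⟨hm', hd, ?_, ?_⟩
  · calc c0 * (a / 2) ^ (ν / p) ≤ c0 * (s / (-τ s) ^ (-p)) ^ (ν / p) :=
          mul_le_mul_of_nonneg_left (Real.rpow_le_rpow (by positivity) hq1 hκ) hc0.le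
      _ = c0 * (-τ s) ^ ν * s ^ (ν / p) := by rw [← hid, mul_assoc]
      _ ≤ _ := mul_le_mul_of_nonneg_right (hr _ hm').1 hsk
  · calc lam (τ s) * s ^ (ν / p) ≤ c1 * (-τ s) ^ ν * s ^ (ν / p) :=
          mul_le_mul_of_nonneg_right (hr _ hm').2 hsk
      _ = c1 * (s / (-τ s) ^ (-p)) ^ (ν / p) := by rw [← hid, mul_assoc]
      _ ≤ _ := mul_le_mul_of_nonneg_left
          (Real.rpow_le_rpow (le_trans (by positivity) hq1) hq2 hκ) hc1.le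

theorem finC (hT : TimeStmt) : FinCStmt := by
  intro T1 ν c0 c1 M η d Cp e ey lam β γ hν P
  obtain ⟨s0, r0, r1, τ, hs0, hr0, hτ, hlim⟩ := clock_FinC P.neg hν P.hc0
    (fun t ht => (P.flow t ht).dlam.continuousAt) P.rate
  refine ⟨s0, r0, r1, fun z => e (τ z), fun z => ey (τ z), fun z => lam (τ z), fun z => β (τ z),
    fun z => γ (τ z), hs0, hr0, P.hη, P.hd, fun s hs => ?_, fun s hs => (hτ s hs).2.2,
    fun s hs => P.mass _ (hτ s hs).1, fun s hs => P.loc _ (hτ s hs).1, P.n0.comp hlim,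
    P.ey0.comp hlim, fun s hs => P.par _ (hτ s hs).1, fun s hs => P.mulo _ (hτ s hs).1⟩
  have hf := P.flow _ (hτ s hs).1
  have h3 := pow_pos hf.pos 3
  have h := hT e ey lam β γ τ _ s _ hf (hτ s hs).2.1 h3
  rw [inv_mul_cancel₀ h3.ne'] at h
  exact h

end

end Pool.Agent.MP_8339a4_an
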