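import Pool.Agent.MP_8339a4_an.Api

/-! The linear law in rescaled variables. -/

open MeasureTheory Filter Topology Set

namespace Pool.Agent.MP_8339a4_an

theorem h1t_Flow0 {T : ℝ} {u ux : ℝ → ℝ → ℝ} (hs : IsSol (Ico T 0) u ux) {t : ℝ} (h1 : T < t)
    (h2 : t < 0) : H1T (𝓝 t) u ux (u t) (ux t) := by
  have h := hs.h1t (t := t) ⟨h1.le, h2⟩
  rwa [nhdsWithin_eq_nhds.2 (Ico_mem_nhds h1 h2)] at h

theorem fixed_Flow0 (h0 : P0Stmt) {T : ℝ} {u ux : ℝ → ℝ → ℝ} (hs : IsSol (Ico T 0) u ux) {t : ℝ}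
    (h1 : T < t) (h2 : t < 0) {θ θ1 θ2 θ3 : ℝ → ℝ} (hθ : Test θ θ1 θ2 θ3) :
    HasDerivAt (fun z => ∫ x, u z x * θ x) (∫ x, (u t x * θ3 x + u t x ^ 5 * θ1 x)) t := by
  have hI : ∀ᶠ z in 𝓝 t, z ∈ Ioo T (0 : ℝ) := Ioo_mem_nhds h1 h2
  refine hasDerivAt_of_integral_eq (f := fun z => ∫ x, u z x * θ x)
    (g := fun z => ∫ x, (u z x * θ3 x + u z x ^ 5 * θ1 x)) ?_ ?_
  · filter_upwards [hI] with z hz
    have H := h1t_Flow0 hs hz.1 hz.2
    exact ((H.l2.mul (L2T.const hθ.e3.memLp)).add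
      ((H.pow 3).mul_ut (UT.const hθ.e1.bdd))).tendsto_integral
  · filter_upwards [hI] with z hz
    rcases le_total t z with h | h
    · exact h0 _ u ux hs t z h (fun x hx => ⟨h1.le.trans hx.1, hx.2.trans_lt hz.2⟩) _ _ _ _ hθ
    · have := h0 _ u ux hs z t h (fun x hx => ⟨hz.1.le.trans hx.1, hx.2.trans_lt h2⟩) _ _ _ _ hθ
      rw [intervalIntegral.integral_symm, ← this]
      ring

theorem cv_Flow0 (A A' : ℝ → ℝ) {L : ℝ} (σ c : ℝ) (hL : 0 < L)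
    (h : ∀ y, L * A (L * y + σ) = c * A' y) : ∫ x, A x = c * ∫ y, A' y := by
  have h1 := integral_comp_affine A hL σ
  have h2 : ∫ x, A x = L * ∫ y, A (L * y + σ) := by
    rw [h1]; field_simp
  rw [h2, ← integral_const_mul, ← integral_const_mul]
  exact integral_congr_ae (Eventually.of_forall h)

theorem conv_Flow0 (β γ : ℝ) {e θ θ1 θ2 θ3 : ℝ → ℝ} (he : Bdd e) (hθ : Test θ θ1 θ2 θ3) :
    (∫ y, ((Q y + e y) * θ3 y + (Q y + e y) ^ 5 * θ1 y))
      + (∫ y, (β * ((Q y + e y) * (θ y / 2 + y * θ1 y)) - (1 + γ) * ((Q y + e y) * θ1 y)))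
      = rhs0 β γ e θ θ1 θ3 := by
  have hU : Bdd (fun y => Q y + e y) := expD_Q.bdd.add he
  have hs : ExpD (fun y => θ y / 2 + y * θ1 y) := (hθ.e0.div_const 2).add hθ.e1.id_mul
  have i1 : ExpD (fun y => (Q y + e y) * θ3 y + (Q y + e y) ^ 5 * θ1 y) :=
    (hθ.e3.bdd_mul hU).add (hθ.e1.bdd_mul (hU.pow 5))
  have i2 : ExpD (fun y => β * ((Q y + e y) * (θ y / 2 + y * θ1 y))
      - (1 + γ) * ((Q y + e y) * θ1 y)) :=
    ((hs.bdd_mul hU).const_mul β).sub ((hθ.e1.bdd_mul hU).const_mul (1 + γ))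
  have hN : Bdd (fun y => NN y (e y)) := by
    unfold NN
    exact ((hU.pow 5).sub (expD_Q.bdd.pow 5)).sub (((expD_Q.bdd.pow 4).const_mul 5).mul he)
  have i3 : ExpD (fun y => e y * (θ3 y - θ1 y + V y * θ1 y) + NN y (e y) * θ1 y
      - β * (LQ y * θ y) + γ * (Q1 y * θ y) + β * (e y * (θ y / 2 + y * θ1 y))
      - γ * (e y * θ1 y)) :=
    (((((((hθ.e3.sub hθ.e1).add (hθ.e1.bdd_mul expD_V.bdd)).bdd_mul he).add
      (hθ.e1.bdd_mul hN)).sub ((hθ.e0.bdd_mul expD_LQ.bdd).const_mul β)).add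
      ((hθ.e0.bdd_mul expD_Q1.bdd).const_mul γ)).add ((hs.bdd_mul he).const_mul β)).sub
      ((hθ.e1.bdd_mul he).const_mul γ)
  have i0 : ExpD (fun y => Q y * θ2 y - Q1 y * θ1 y + β * (y * (Q y * θ y)) - γ * (Q y * θ y)) :=
    (((hθ.e2.bdd_mul expD_Q.bdd).sub (hθ.e1.bdd_mul expD_Q1.bdd)).add
      ((hθ.e0.bdd_mul expD_Q.bdd).id_mul.const_mul β)).sub
      ((hθ.e0.bdd_mul expD_Q.bdd).const_mul γ)
  have hd : ∀ y, HasDerivAt
      (fun y => Q y * θ2 y - Q1 y * θ1 y + β * (y * (Q y * θ y)) - γ * (Q y * θ y))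
      ((Q1 y * θ2 y + Q y * θ3 y) - (Q2 y * θ1 y + Q1 y * θ2 y)
        + β * (1 * (Q y * θ y) + y * (Q1 y * θ y + Q y * θ1 y))
        - γ * (Q1 y * θ y + Q y * θ1 y)) y := fun y =>
    ((((hasDerivAt_Q y).mul (hθ.sm.d3 y)).sub ((hasDerivAt_Q1 y).mul (hθ.sm.d2 y))).add
      (((hasDerivAt_id' y).mul ((hasDerivAt_Q y).mul (hθ.sm.d1 y))).const_mul β)).sub
      (((hasDerivAt_Q y).mul (hθ.sm.d1 y)).const_mul γ)
  have c0 := hθ.e0.1
  have c1 := hθ.e1.1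
  have c2 := hθ.e2.1
  have c3 := hθ.e3.1
  have q0 := expD_Q.1
  have q1 := expD_Q1.1
  have q2 := expD_Q2.1
  have hP := IsPrim.of_hasDerivAt hd (by fun_prop)
  rw [← integral_add i1.integrable i2.integrable]
  unfold rhs0
  refine hP.integral_eq i0.integrable (i1.add i2).integrable i3.integrable fun y => ?_
  simp only [NN, V, LQ, Q2]
  ring

theorem resc_Flow0 {u : ℝ → ℝ → ℝ} {lam sig : ℝ → ℝ} {z : ℝ} (hu : Bdd (u z)) (hl : 0 < lam z)
    {θ : ℝ → ℝ} (hθ : ExpD θ) :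
    ∫ y, resc u lam sig z y * θ y = (∫ x, u z x * ((Real.sqrt (lam z))⁻¹ *
      θ ((lam z)⁻¹ * x + -(sig z * (lam z)⁻¹)))) - ∫ y, Q y * θ y := by
  have hb : Bdd (fun y => Real.sqrt (lam z) * u z (lam z * y + sig z)) :=
    (hu.comp (by fun_prop)).const_mul _
  have hs : 0 < Real.sqrt (lam z) := Real.sqrt_pos.2 hl
  have hq : Real.sqrt (lam z) * Real.sqrt (lam z) = lam z := Real.mul_self_sqrt hl.le
  rw [cv_Flow0 (fun x => u z x * ((Real.sqrt (lam z))⁻¹ *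
      θ ((lam z)⁻¹ * x + -(sig z * (lam z)⁻¹))))
      (fun y => Real.sqrt (lam z) * u z (lam z * y + sig z) * θ y) (sig z) 1 hl ?_, one_mul,
    ← integral_sub (hθ.bdd_mul hb).integrable (hθ.bdd_mul expD_Q.bdd).integrable]
  · refine integral_congr_ae (Eventually.of_forall fun y => ?_)
    simp only [resc]
    ring
  · intro y
    have e : (lam z)⁻¹ * (lam z * y + sig z) + -(sig z * (lam z)⁻¹) = y := by
      field_simp; ring
    rw [e]
    generalize Real.sqrt (lam z) = s at *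
    generalize u z (lam z * y + sig z) = v
    rw [← hq]
    field_simp

theorem flow0 (h0 : P0Stmt) : Flow0Stmt := by
  intro T u ux lam sig t l' s' hs h1 h2 hl dl ds θ θ1 θ2 θ3 hθ
  have hI : ∀ᶠ z in 𝓝 t, z ∈ Ioo T (0 : ℝ) := Ioo_mem_nhds h1 h2
  have hpos : ∀ᶠ z in 𝓝 t, 0 < lam z := dl.continuousAt.eventually (lt_mem_nhds hl)
  have hs0 : 0 < Real.sqrt (lam t) := Real.sqrt_pos.2 hl
  have hq : Real.sqrt (lam t) * Real.sqrt (lam t) = lam t := Real.mul_self_sqrt hl.le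
  have ha0 : (lam t)⁻¹ ≠ 0 := inv_ne_zero hl.ne'
  have da : HasDerivAt (fun z => (lam z)⁻¹) (-l' / lam t ^ 2) t := dl.inv hl.ne'
  have db : HasDerivAt (fun z => -(sig z * (lam z)⁻¹))
      (-(s' * (lam t)⁻¹ + sig t * (-l' / lam t ^ 2))) t := (ds.mul da).neg
  have dk : HasDerivAt (fun z => (Real.sqrt (lam z))⁻¹)
      (-(l' / (2 * Real.sqrt (lam t))) / Real.sqrt (lam t) ^ 2) t := (dl.sqrt hl.ne').inv hs0.ne'
  have hT := (hθ.comp_affine ha0 (-(sig t * (lam t)⁻¹))).const_mul (Real.sqrt (lam t))⁻¹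
  have hM := (me_profile hθ.sm.d1 hθ.e1 da db ha0).scalar_mul
    (hθ.e0.comp_affine ha0 (-(sig t * (lam t)⁻¹))) dk
  have hD := mov_l2 (h1t_Flow0 hs h1 h2).l2 hM hT.e0.memLp (fixed_Flow0 h0 hs h1 h2 hT)
  have hu : Bdd (u t) := (hs.h1 t ⟨h1.le, h2⟩).bdd
  have he : Bdd (resc u lam sig t) := by
    unfold resc
    exact ((hu.comp (by fun_prop)).const_mul _).sub expD_Q.bdd
  have ey : ∀ y, (lam t)⁻¹ * (lam t * y + sig t) + -(sig t * (lam t)⁻¹) = y := fun y => by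
    field_simp; ring
  have eU : ∀ y, Q y + resc u lam sig t y = Real.sqrt (lam t) * u t (lam t * y + sig t) :=
    fun y => by simp only [resc]; ring
  refine ((hD.sub_const (∫ y, Q y * θ y)).congr_of_eventuallyEq ?_).congr_deriv ?_
  · filter_upwards [hI, hpos] with z hz hp
    exact resc_Flow0 (hs.h1 z ⟨hz.1.le, hz.2⟩).bdd hp hθ.e0
  · rw [← conv_Flow0 _ _ he hθ, mul_add]
    congr 1
    · refine cv_Flow0 _ _ (sig t) _ hl fun y => ?_
      rw [ey, eU]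
      generalize Real.sqrt (lam t) = s at *
      generalize u t (lam t * y + sig t) = v
      rw [← hq]
      field_simp
    · refine cv_Flow0 _ _ (sig t) _ hl fun y => ?_
      rw [ey, eU]
      generalize Real.sqrt (lam t) = s at *
      generalize u t (lam t * y + sig t) = v
      rw [← hq]
      field_simp
      ring

end Pool.Agent.MP_8339a4_an
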