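import Pool.Agent.MP_8339a4_an.Api

/-! The local mass law in rescaled variables. -/

open MeasureTheory Filter Topology Set

namespace Pool.Agent.MP_8339a4_an

theorem h1t_Flow1 {T t : ℝ} {u ux : ℝ → ℝ → ℝ} (hs : IsSol (Ico T 0) u ux) (h1 : T < t)
    (h2 : t < 0) : H1T (𝓝 t) u ux (u t) (ux t) := by
  have h := hs.h1t (t := t) ⟨h1.le, h2⟩
  rwa [nhdsWithin_eq_nhds.2 (Ico_mem_nhds h1 h2)] at h

theorem fixed_Flow1 (h1 : P1Stmt) {T t : ℝ} {u ux : ℝ → ℝ → ℝ} (hs : IsSol (Ico T 0) u ux)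
    (hT : T < t) (ht : t < 0) {W W1 W2 W3 : ℝ → ℝ} (hW : Wt W W1 W2 W3) :
    HasDerivAt (fun z => ∫ x, u z x ^ 2 * W x) (∫ x, fl1 (u t x) (ux t x) (W1 x) (W3 x)) t := by
  refine hasDerivAt_of_integral_eq (g := fun z => ∫ x, fl1 (u z x) (ux z x) (W1 x) (W3 x)) ?_ ?_
  · filter_upwards [Ioo_mem_nhds hT ht] with z hz
    exact ((h1t_Flow1 hs hz.1 hz.2).fl1 hW.b1 hW.b3).tendsto_integral
  · filter_upwards [Ioo_mem_nhds hT ht] with z hz
    rcases le_total t z with h | h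
    · exact h1 _ u ux hs t z h (fun x hx => ⟨hT.le.trans hx.1, hx.2.trans_lt hz.2⟩) W W1 W2 W3 hW
    · rw [intervalIntegral.integral_symm,
        ← h1 _ u ux hs z t h (fun x hx => ⟨hz.1.le.trans hx.1, hx.2.trans_lt ht⟩) W W1 W2 W3 hW]
      ring

theorem chg_Flow1 {F G : ℝ → ℝ} {l k : ℝ} (hl : 0 < l) (s : ℝ)
    (e : ∀ y, G y = k * l * F (l * y + s)) : ∫ y, G y = k * ∫ x, F x := by
  simp only [e]
  rw [integral_const_mul, integral_comp_affine F hl s]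
  field_simp

theorem flow1 (h1 : P1Stmt) : Flow1Stmt := by
  intro T u ux lam sig t l' s' hs hT ht hl dl ds W W1 W2 W3 hW
  have hH := h1t_Flow1 hs hT ht
  have da : HasDerivAt (fun z => (lam z)⁻¹) (-l' / lam t ^ 2) t := dl.inv hl.ne'
  have db : HasDerivAt (fun z => -(sig z * (lam z)⁻¹))
      (-(s' * (lam t)⁻¹ + sig t * (-l' / lam t ^ 2))) t := (ds.mul da).neg
  have hM := mw_profile hW.sm.d1 hW.b0 hW.b1 hW.by1 da db (inv_ne_zero hl.ne')
  have hA := hW.comp_affine (inv_ne_zero hl.ne') (-(sig t * (lam t)⁻¹))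
  have h2 := mov_l1 (ρ := fun z x => u z x ^ 2) (hH.pow 0) hM (fixed_Flow1 h1 hs hT ht hA)
  have hy : ∀ z, 0 < lam z → ∀ y,
      (lam z)⁻¹ * (lam z * y + sig z) + -(sig z * (lam z)⁻¹) = y := fun z hz y => by
    field_simp
    ring
  refine (h2.congr_of_eventuallyEq ?_).congr_deriv ?_
  · filter_upwards [dl.continuousAt.eventually (lt_mem_nhds hl)] with z hz
    rw [chg_Flow1 (k := 1)
      (F := fun x => u z x ^ 2 * W ((lam z)⁻¹ * x + -(sig z * (lam z)⁻¹))) hz (sig z) fun y => ?_,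
      one_mul]
    rw [hy z hz, resc, add_sub_cancel, mul_pow, Real.sq_sqrt hz.le]
    ring
  · rw [← integral_add (hH.fl1 hA.b1 hA.b3).2.1 (integrable_mul_bdd (hH.pow 0).2.1 hM.bdd_wt),
      rhs1, eq_inv_mul_iff_mul_eq₀ (pow_pos hl 3).ne']
    refine (chg_Flow1 hl (sig t) fun y => ?_).symm
    obtain ⟨r, hr⟩ : ∃ r, r = Real.sqrt (lam t) := ⟨_, rfl⟩
    have hr2 : lam t = r ^ 2 := by rw [hr, Real.sq_sqrt hl.le]
    have hr0 : r ≠ 0 := by
      rw [hr]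
      exact (Real.sqrt_pos.2 hl).ne'
    simp only [hy t hl, resc, rescy, add_sub_cancel, fl1, ← hr]
    generalize u t (lam t * y + sig t) = p
    generalize ux t (lam t * y + sig t) = q
    rw [hr2]
    field_simp
    ring

end Pool.Agent.MP_8339a4_an
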