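import Pool.Agent.MP_8339a4_an.Api

/-! The local energy inequality in rescaled variables. -/

open MeasureTheory Filter Topology Set

namespace Pool.Agent.MP_8339a4_an

theorem h1t_Flow2 {T : ℝ} {u ux : ℝ → ℝ → ℝ} (h : IsSol (Ico T 0) u ux) {z : ℝ} (h1 : T < z)
    (h2 : z < 0) : H1T (𝓝 z) u ux (u z) (ux z) := by
  have := h.h1t (t := z) ⟨h1.le, h2⟩
  rwa [nhdsWithin_eq_nhds.2 (Ico_mem_nhds h1 h2)] at this

theorem en_Flow2 {L r : ℝ} (hL : L = r ^ 2) (p q : ℝ) :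
    en (r * p) (r * L * q) = L ^ 3 * en p q := by
  subst hL
  unfold en
  ring

theorem aff_Flow2 {L : ℝ} (hL : L ≠ 0) (σ y : ℝ) : L⁻¹ * (L * y + σ) + -σ * L⁻¹ = y := by
  field_simp
  ring

theorem scale_Flow2 (u ux : ℝ → ℝ → ℝ) (lam sig W : ℝ → ℝ) {z : ℝ} (hz : 0 < lam z) :
    (∫ x, en (u z x) (ux z x) * W ((lam z)⁻¹ * x + -sig z * (lam z)⁻¹)) * lam z ^ 2 =
      ∫ y, en (Q y + resc u lam sig z y) (Q1 y + rescy ux lam sig z y) * W y := by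
  have e : ∀ y, en (Q y + resc u lam sig z y) (Q1 y + rescy ux lam sig z y) * W y =
      lam z ^ 3 * (fun x => en (u z x) (ux z x) * W ((lam z)⁻¹ * x + -sig z * (lam z)⁻¹))
        (lam z * y + sig z) := by
    intro y
    simp only [resc, rescy, add_sub_cancel]
    rw [en_Flow2 (Real.sq_sqrt hz.le).symm, aff_Flow2 hz.ne', mul_assoc]
  simp only [e]
  rw [integral_const_mul, integral_comp_affine
    (fun x => en (u z x) (ux z x) * W ((lam z)⁻¹ * x + -sig z * (lam z)⁻¹)) hz]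
  field_simp

theorem alg_Flow2 {L r : ℝ} (hL : L = r ^ 2) (hr : r ≠ 0) (p q g gy W W1 W2 W3 l' s' y σ : ℝ) :
    fl2 (r * p) (r * L * q) g gy W1 W2 W3
      - L ^ 2 * s' * (en (r * p) (r * L * q) * W1)
      - 2 * -(L ^ 2 * l') * (en (r * p) (r * L * q) * W)
      + -(L ^ 2 * l') * (en (r * p) (r * L * q) * (y * W1)) =
    L ^ 4 * ((fl2 p q ((r ^ 5)⁻¹ * g) ((r ^ 5)⁻¹ * (L⁻¹ * gy)) (L⁻¹ * W1) (L⁻¹ ^ 2 * W2)
        (L⁻¹ ^ 3 * W3) + en p q * (W1 * (-l' / L ^ 2 * (L * y + σ) +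
          (-s' * L⁻¹ + -σ * (-l' / L ^ 2))))) * L ^ 2 + en p q * W * (2 * L * l')) := by
  subst hL
  unfold fl2 en
  field_simp
  ring

theorem fixed_Flow2 (h2 : P2Stmt) {T : ℝ} {u ux : ℝ → ℝ → ℝ} (h : IsSol (Ico T 0) u ux) {t : ℝ}
    (h1 : T < t) (h0 : t < 0) {W W1 W2 W3 : ℝ → ℝ} (hW : Wt W W1 W2 W3) (hp : ∀ y, 0 ≤ W1 y)
    {g gy : ℝ → ℝ} (hg : IsH1 g gy) :
    DiniLe (fun z => ∫ x, en (u z x) (ux z x) * W x) t
      (∫ x, fl2 (u t x) (ux t x) (g x) (gy x) (W1 x) (W2 x) (W3 x)) := by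
  have hI : ∀ᶠ z in 𝓝 t, T < z ∧ z < 0 := (lt_mem_nhds h1).and (gt_mem_nhds h0)
  refine DiniLe.of_integral_le
    (g := fun z => ∫ x, fl2 (u z x) (ux z x) (g x) (gy x) (W1 x) (W2 x) (W3 x)) ?_ ?_
  · filter_upwards [mem_nhdsWithin_of_mem_nhds hI] with z hz
    exact ContinuousAt.continuousWithinAt
      ((h1t_Flow2 h hz.1 hz.2).fl2 hg hW.b1 hW.b2 hW.b3).tendsto_integral
  · filter_upwards [mem_nhdsWithin_of_mem_nhds hI, self_mem_nhdsWithin] with z hz hz'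
    exact h2 _ u ux h t z (le_of_lt hz') (fun x hx => ⟨h1.le.trans hx.1, hx.2.trans_lt hz.2⟩)
      W W1 W2 W3 hW hp g gy hg

theorem fin_Flow2 {A B C Ψ : ℝ → ℝ} (iA : Integrable A) (iB : Integrable B) (iC : Integrable C)
    {L : ℝ} (hL : 0 < L) (σ k : ℝ)
    (e : ∀ y, Ψ y = L ^ 4 * ((A (L * y + σ) + B (L * y + σ)) * L ^ 2 + C (L * y + σ) * k)) :
    ((∫ x, A x) + ∫ x, B x) * L ^ 2 + (∫ x, C x) * k = (L ^ 3)⁻¹ * ∫ y, Ψ y := by
  have iAB : Integrable fun x => A x + B x := iA.add iB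
  simp only [e]
  rw [integral_const_mul, integral_comp_affine (fun x => (A x + B x) * L ^ 2 + C x * k) hL,
    integral_add (iAB.mul_const _) (iC.mul_const _), integral_mul_const, integral_mul_const,
    integral_add iA iB]
  field_simp

theorem flow2 (h2 : P2Stmt) : Flow2Stmt := by
  intro T u ux lam sig t l' s' h h1 h0 hl dl ds W W1 W2 W3 hW hp g gy hg
  have hi : (lam t)⁻¹ ≠ 0 := inv_ne_zero hl.ne'
  have hr : Real.sqrt (lam t) ≠ 0 := (Real.sqrt_pos.2 hl).ne'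
  have hH := h1t_Flow2 h h1 h0
  have hW' := hW.comp_affine hi (-sig t * (lam t)⁻¹)
  have hg' := (hg.comp_affine hi (-sig t * (lam t)⁻¹)).const_mul (Real.sqrt (lam t) ^ 5)⁻¹
  have d1 := fixed_Flow2 h2 h h1 h0 hW' (fun y => mul_nonneg (inv_nonneg.2 hl.le) (hp _)) hg'
  have da : HasDerivAt (fun z => (lam z)⁻¹) (-l' / lam t ^ 2) t := dl.inv hl.ne'
  have db : HasDerivAt (fun z => -sig z * (lam z)⁻¹)
      (-s' * (lam t)⁻¹ + -sig t * (-l' / lam t ^ 2)) t := ds.neg.mul da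
  have hm := mw_profile hW.sm.d1 hW.b0 hW.b1 hW.by1 da db hi
  have d2 := mov_l1_dini (ρ := fun z y => en (u z y) (ux z y)) hH.en hm d1
  have dq : HasDerivAt (fun z => lam z ^ 2) (2 * lam t * l') t := by
    simpa using dl.fun_pow 2
  have d3 := (d2.mul_pos dq (pow_pos hl 2)).congr
    ((dl.continuousAt.eventually (lt_mem_nhds hl)).mono fun z hz => scale_Flow2 u ux lam sig W hz)
  refine d3.mono (le_of_eq ?_)
  have i1 := (hH.fl2 hg' hW'.b1 hW'.b2 hW'.b3).2.1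
  have i2 := integrable_mul_bdd hH.en.2.1 hm.bdd_wt
  have i3 := integrable_mul_bdd hH.en.2.1 hW'.b0
  refine fin_Flow2 i1 i2 i3 hl (sig t) _ fun y => ?_
  simp only [resc, rescy, add_sub_cancel]
  rw [aff_Flow2 hl.ne']
  exact alg_Flow2 (Real.sq_sqrt hl.le).symm hr _ _ _ _ _ _ _ _ _ _ _ _

end Pool.Agent.MP_8339a4_an
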