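import Pool.Agent.MP_8339a4_an.Api

/-! The rescaled remainder is continuous in time with values in `H^1`. -/

open MeasureTheory Filter Topology Set

namespace Pool.Agent.MP_8339a4_an

theorem isH1_resc_FlowH {u ux : ℝ → ℝ → ℝ} {lam sig : ℝ → ℝ} {z : ℝ} (h : IsH1 (u z) (ux z))
    (hl : 0 < lam z) : IsH1 (resc u lam sig z) (rescy ux lam sig z) :=
  (((h.comp_affine hl.ne' (sig z)).const_mul (Real.sqrt (lam z))).sub isH1_Q).congr
    (fun _ => rfl) fun y => by rw [rescy, mul_assoc]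

theorem flowH : FlowHStmt := by
  intro T u ux lam sig t hs hT ht hl cl cs
  have h := hs.h1t (t := t) ⟨hT.le, ht⟩
  rw [nhdsWithin_eq_nhds.2 (Ico_mem_nhds hT ht)] at h
  have hp : ∀ᶠ z in 𝓝 t, 0 < lam z := cl.eventually (lt_mem_nhds hl)
  have c1 : Tendsto (fun z => Real.sqrt (lam z)) (𝓝 t) (𝓝 (Real.sqrt (lam t))) := cl.sqrt
  refine H1T.of_l2 ((h.1.and hp).mono fun z hz => isH1_resc_FlowH hz.1 hz.2)
    (isH1_resc_FlowH h.2.1 hl) ?_ ?_
  · exact ((h.l2.comp_affine hl.ne' cl cs).ut_mul (UT.of_tendsto c1)).sub (L2T.const isH1_Q.1)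
  · exact ((h.l2y.comp_affine hl.ne' cl cs).ut_mul (UT.of_tendsto (c1.mul cl))).sub
      (L2T.const isH1_Q.2.1)

end Pool.Agent.MP_8339a4_an
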