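import Pool.Agent.MP_8339a4_an.Api

/-! Global coercivity of the energy. -/

open MeasureTheory Filter Topology Set

namespace Pool.Agent.MP_8339a4_an

theorem integrable_en_G0 {f g : ℝ → ℝ} (h : IsH1 f g) : Integrable (fun y => en (f y) (g y)) :=
  (integrable_sq2 h.2.1).sub ((h.integrable_pow 4).div_const 3)

theorem key_G0 {c C : ℝ} (hC : ∀ y e : ℝ, PP y e ≤ (1 + c) * e ^ 6 / 3 + C * (Q y * e ^ 2))
    {e ey : ℝ → ℝ} (he : IsH1 e ey) :
    (∫ y, (ey y ^ 2 - (1 + c) * e y ^ 6 / 3)) ≤
      (∫ y, en (Q y + e y) (Q1 y + ey y)) + 2 * mu e + C * N0 e := by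
  have i1 := integrable_en_G0 (isH1_Q.add he)
  have i2 := integrable_en_G0 isH1_Q
  have i3 := (integrable_mul2 expD_Q2.memLp he.1).const_mul 2
  have i4 := (integrable_mul2 expD_Q1.memLp he.2.1).const_mul 2
  have i5 := (integrable_mul2 he.1 expD_Q.memLp).const_mul 2
  have i6 := (integrable_bdd_mul (integrable_sq2 he.1) expD_Q.bdd).const_mul C
  have i0 : Integrable (fun y => ey y ^ 2 - (1 + c) * e y ^ 6 / 3) :=
    (integrable_sq2 he.2.1).sub (((he.integrable_pow 4).const_mul (1 + c)).div_const 3)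
  have j1 : Integrable (fun y => en (Q y + e y) (Q1 y + ey y) - en (Q y) (Q1 y)) := i1.sub i2
  have j2 : Integrable (fun y => en (Q y + e y) (Q1 y + ey y) - en (Q y) (Q1 y)
      - 2 * (Q2 y * e y)) := j1.sub i3
  have j3 : Integrable (fun y => en (Q y + e y) (Q1 y + ey y) - en (Q y) (Q1 y)
      - 2 * (Q2 y * e y) - 2 * (Q1 y * ey y)) := j2.sub i4
  have j4 : Integrable (fun y => en (Q y + e y) (Q1 y + ey y) - en (Q y) (Q1 y)
      - 2 * (Q2 y * e y) - 2 * (Q1 y * ey y) + 2 * (e y * Q y)) := j3.add i5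
  have h1 := integral_mono i0 (j4.add i6) (fun y => by
    have := hC y (e y)
    simp only [Pi.add_apply]
    unfold PP at this
    unfold en Q2
    nlinarith [this])
  simp only [Pi.add_apply] at h1
  rw [integral_add j4 i6, integral_add j3 i5, integral_sub j2 i4, integral_sub j1 i3,
    integral_sub i1 i2, integral_const_mul, integral_const_mul, integral_const_mul,
    integral_const_mul, integral_en_Q, test_Q.h2.ibp he] at h1
  unfold mu N0
  linarith

theorem g0 (h : NagyGStmt) : G0Stmt := by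
  intro M d hd
  obtain ⟨c, C, hc, h⟩ := h M d hd
  obtain ⟨C', hC⟩ := PP_le hc
  refine ⟨c, max (max C C') 0, hc, le_max_right _ _, fun l e ey hl he hM hL => ?_⟩
  have h1 := h l e ey hl he hM hL
  have h2 := key_G0 hC he
  have h3 : C / l ^ 2 ≤ max (max C C') 0 * (1 / l ^ 2) := by
    rw [div_eq_mul_one_div]
    exact mul_le_mul_of_nonneg_right ((le_max_left _ _).trans (le_max_left _ _)) (by positivity)
  have h4 : C' * N0 e ≤ max (max C C') 0 * N0 e :=
    mul_le_mul_of_nonneg_right ((le_max_right _ _).trans (le_max_left _ _)) (N0_nonneg e)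
  rw [mul_add]
  linarith

end Pool.Agent.MP_8339a4_an
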