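import Pool.Agent.MP_8339a4_an.GD

/-! G block: the resolvent kernel. -/

open MeasureTheory Filter Topology Set

namespace Pool.Agent.MP_8339a4_an

variable {a A c : ℝ} {f : ℝ → ℝ}

theorem GA_shift (g : ℝ → ℝ) (y : ℝ) :
    ∫ x in Ioi (0 : ℝ), g (y + x) = ∫ x in Ioi y, g x := by
  rw [← integral_indicator measurableSet_Ioi, ← integral_indicator measurableSet_Ioi,
    ← integral_add_left_eq_self (fun x => (Ioi y).indicator g x) y]
  congr 1
  ext x
  by_cases hx : 0 < x
  · rw [indicator_of_mem (show x ∈ Ioi (0 : ℝ) from hx),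
      indicator_of_mem (show y + x ∈ Ioi y from by simpa using hx)]
  · rw [indicator_of_notMem (show x ∉ Ioi (0 : ℝ) from hx),
      indicator_of_notMem (show y + x ∉ Ioi y from by simpa using hx)]

theorem GA_eq (ha : 0 < a) (f : ℝ → ℝ) (y : ℝ) :
    Jk a f y = Real.exp (y / a) * (a⁻¹ * ∫ x in Ioi y, Real.exp (-a⁻¹ * x) * f x) := by
  have h1 := integral_comp_mul_left_Ioi
    (fun x => Real.exp (-a⁻¹ * (y + x)) * f (y + x)) 0 ha
  rw [mul_zero, GA_shift (fun x => Real.exp (-a⁻¹ * x) * f x) y, smul_eq_mul] at h1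
  rw [← h1, ← integral_const_mul]
  unfold Jk
  congr 1
  ext t
  rw [← mul_assoc, ← Real.exp_add]
  congr 2
  field_simp
  ring

theorem GA_int (ha : 0 < a) (hf : Bdd f) (y : ℝ) :
    IntegrableOn (fun x => Real.exp (-a⁻¹ * x) * f x) (Ioi y) := by
  obtain ⟨hc, C, hC⟩ := hf
  have h0 : IntegrableOn (fun x => Real.exp (-a⁻¹ * x)) (Ioi y) :=
    integrableOn_exp_mul_Ioi (by have := inv_pos.mpr ha; linarith) y
  exact h0.mul_bdd (c := C) hc.aestronglyMeasurable (Eventually.of_forall fun x => hC x)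

theorem GA_pos (ha : 0 < a) (hf : Bdd f) (y : ℝ) :
    HasDerivAt (Jk a f) ((Jk a f y - f y) / a) y := by
  have hg : Continuous fun x => Real.exp (-a⁻¹ * x) * f x := by
    have := hf.1
    fun_prop
  have h1 : HasDerivAt (fun u => ∫ x in Ioi u, Real.exp (-a⁻¹ * x) * f x)
      (-(Real.exp (-a⁻¹ * y) * f y)) y := by
    have h2 := (hg.integral_hasStrictDerivAt 0 y).hasDerivAt
    have h3 : (fun u => ∫ x in Ioi u, Real.exp (-a⁻¹ * x) * f x) = fun u =>
        (∫ x in Ioi (0 : ℝ), Real.exp (-a⁻¹ * x) * f x)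
          - ∫ x in (0 : ℝ)..u, Real.exp (-a⁻¹ * x) * f x := by
      ext u
      rw [← intervalIntegral.integral_Ioi_sub_Ioi' (GA_int ha hf 0) (GA_int ha hf u)]
      ring
    rw [h3]
    exact h2.const_sub _
  have h4 : HasDerivAt (fun u => Real.exp (u / a)) (Real.exp (y / a) * (1 / a)) y :=
    ((hasDerivAt_id y).div_const a).exp
  have h5 := h4.mul (h1.const_mul a⁻¹)
  have h6 : Jk a f = fun u => Real.exp (u / a)
      * (a⁻¹ * ∫ x in Ioi u, Real.exp (-a⁻¹ * x) * f x) := funext (GA_eq ha f)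
  have h7 : Real.exp (y / a) * Real.exp (-a⁻¹ * y) = 1 := by
    rw [← Real.exp_add]
    have : y / a + -a⁻¹ * y = 0 := by field_simp; ring
    rw [this, Real.exp_zero]
  rw [GA_eq ha f y, h6]
  refine h5.congr_deriv ?_
  have h8 : Real.exp (y / a) * (a⁻¹ * -(Real.exp (-a⁻¹ * y) * f y)) = -(f y) / a := by
    have : Real.exp (y / a) * (a⁻¹ * -(Real.exp (-a⁻¹ * y) * f y))
        = -((Real.exp (y / a) * Real.exp (-a⁻¹ * y)) * f y) / a := by ring
    rw [this, h7, one_mul]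
  rw [h8]
  ring

theorem hasDerivAt_Jk (ha : a ≠ 0) (hf : Bdd f) (y : ℝ) :
    HasDerivAt (Jk a f) ((Jk a f y - f y) / a) y := by
  rcases lt_or_gt_of_ne ha with h | h
  · have hb : Bdd fun x => f (-x) := by
      obtain ⟨hc, C, hC⟩ := hf
      exact ⟨hc.comp continuous_neg, C, fun x => hC _⟩
    have he : ∀ u, Jk a f u = Jk (-a) (fun x => f (-x)) (-u) := by
      intro u
      unfold Jk
      congr 1
      ext t
      congr 2
      ring
    have h1 := (GA_pos (neg_pos.mpr h) hb (-y)).comp y (hasDerivAt_neg y)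
    have h2 : Jk a f = (Jk (-a) fun x => f (-x)) ∘ Neg.neg := funext he
    rw [he y, h2]
    refine h1.congr_deriv ?_
    simp only [neg_neg]
    field_simp
  · exact GA_pos h hf y

theorem abs_Jk_le (hf : Continuous f) (hc : |c| * |a| ≤ 1 / 2)
    (h : ∀ y, |f y| ≤ A * Real.exp (c * |y|)) (y : ℝ) :
    |Jk a f y| ≤ 2 * A * Real.exp (c * |y|) := by
  have hA : 0 ≤ A := by
    have := h 0
    simp only [abs_zero, mul_zero, Real.exp_zero, mul_one] at this
    exact (abs_nonneg _).trans this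
  have h0 : IntegrableOn (fun t : ℝ => A * Real.exp (c * |y|) * Real.exp (-(1 / 2) * t))
      (Ioi 0) := (integrableOn_exp_mul_Ioi (by norm_num) 0).const_mul _
  have h1 : ‖Jk a f y‖ ≤ ∫ t in Ioi (0 : ℝ), A * Real.exp (c * |y|) * Real.exp (-(1 / 2) * t) := by
    refine norm_integral_le_of_norm_le h0 ?_
    refine (ae_restrict_iff' measurableSet_Ioi).2 (Eventually.of_forall fun t ht => ?_)
    have ht' : 0 < t := ht
    rw [Real.norm_eq_abs, abs_mul, abs_of_pos (Real.exp_pos _)]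
    have h2 : c * |y + a * t| ≤ c * |y| + t / 2 := by
      have h3 : abs (|y + a * t| - |y|) ≤ |a| * t := by
        have := abs_abs_sub_abs_le_abs_sub (y + a * t) y
        rwa [add_sub_cancel_left, abs_mul, abs_of_pos ht'] at this
      have h4 : c * (|y + a * t| - |y|) ≤ |c| * (|a| * t) :=
        (le_abs_self _).trans (by rw [abs_mul]; exact mul_le_mul_of_nonneg_left h3 (abs_nonneg _))
      have h5 : |c| * (|a| * t) ≤ 1 / 2 * t := by
        rw [← mul_assoc]; exact mul_le_mul_of_nonneg_right hc ht'.le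
      linarith
    calc Real.exp (-t) * |f (y + a * t)|
        ≤ Real.exp (-t) * (A * Real.exp (c * |y| + t / 2)) := by
          refine mul_le_mul_of_nonneg_left ((h _).trans ?_) (Real.exp_pos _).le
          exact mul_le_mul_of_nonneg_left (Real.exp_le_exp.2 h2) hA
      _ = A * Real.exp (c * |y|) * (Real.exp (-t) * Real.exp (t / 2)) := by
          rw [Real.exp_add]; ring
      _ = A * Real.exp (c * |y|) * Real.exp (-(1 / 2) * t) := by
          rw [← Real.exp_add]; congr 2; ring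
  rw [integral_const_mul, integral_exp_mul_Ioi (by norm_num), Real.norm_eq_abs] at h1
  refine h1.trans (le_of_eq ?_)
  simp only [mul_zero, Real.exp_zero]
  ring

theorem abs_X0_le (ha : 0 < a) (hf : Continuous f) (hc : |c| * a ≤ 1 / 2)
    (h : ∀ y, |f y| ≤ A * Real.exp (c * |y|)) (y : ℝ) :
    |X0 a f y| ≤ 2 * A * Real.exp (c * |y|) := by
  have h1 := abs_Jk_le (a := a) hf (by rwa [abs_of_pos ha]) h y
  have h2 := abs_Jk_le (a := -a) hf (by rwa [abs_neg, abs_of_pos ha]) h y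
  unfold X0
  rw [abs_le] at h1 h2 ⊢
  constructor <;> linarith [h1.1, h1.2, h2.1, h2.2]

theorem abs_X1_le (ha : 0 < a) (hf : Continuous f) (hc : |c| * a ≤ 1 / 2)
    (h : ∀ y, |f y| ≤ A * Real.exp (c * |y|)) (y : ℝ) :
    |X1 a f y| ≤ 2 * A / a * Real.exp (c * |y|) := by
  have h1 := abs_Jk_le (a := a) hf (by rwa [abs_of_pos ha]) h y
  have h2 := abs_Jk_le (a := -a) hf (by rwa [abs_neg, abs_of_pos ha]) h y
  unfold X1
  have h3 : |Jk a f y - Jk (-a) f y| ≤ 4 * A * Real.exp (c * |y|) := by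
    rw [abs_le] at h1 h2 ⊢
    constructor <;> linarith [h1.1, h1.2, h2.1, h2.2]
  rw [abs_div, abs_of_pos (by positivity : 0 < 2 * a), div_le_iff₀ (by positivity)]
  refine h3.trans (le_of_eq ?_)
  field_simp
  ring

theorem GA_d0 (ha : 0 < a) (hf : Bdd f) (y : ℝ) : HasDerivAt (X0 a f) (X1 a f y) y := by
  have h1 := ((hasDerivAt_Jk ha.ne' hf y).add
    (hasDerivAt_Jk (neg_ne_zero.mpr ha.ne') hf y)).div_const 2
  refine h1.congr_deriv ?_
  unfold X1
  field_simp
  ring

theorem GA_d1 (ha : 0 < a) (hf : Bdd f) (y : ℝ) :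
    HasDerivAt (X1 a f) ((X0 a f y - f y) / a ^ 2) y := by
  have h1 := ((hasDerivAt_Jk ha.ne' hf y).sub
    (hasDerivAt_Jk (neg_ne_zero.mpr ha.ne') hf y)).div_const (2 * a)
  refine h1.congr_deriv ?_
  unfold X0
  field_simp
  ring

theorem res_X (ha : 0 < a) (hf : Bdd f) : Res a f (X0 a f) (X1 a f) := by
  obtain ⟨C, hC⟩ := hf.2
  have hC' : ∀ y, |f y| ≤ C * Real.exp (0 * |y|) := fun y => by simpa using hC y
  have h0 : |(0 : ℝ)| * a ≤ 1 / 2 := by simp
  refine ⟨GA_d0 ha hf, GA_d1 ha hf, hf, ⟨?_, 2 * C, fun y => ?_⟩, ⟨?_, 2 * C / a, fun y => ?_⟩⟩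
  · exact continuous_iff_continuousAt.2 fun y => (GA_d0 ha hf y).continuousAt
  · simpa using abs_X0_le ha hf.1 h0 hC' y
  · exact continuous_iff_continuousAt.2 fun y => (GA_d1 ha hf y).continuousAt
  · simpa using abs_X1_le ha hf.1 h0 hC' y

theorem GA_rate (ha : 0 < a) (hf : ExpD f) : Bdd f ∧ ∃ C c : ℝ, 0 < c ∧ |-c| * a ≤ 1 / 2 ∧
    ∀ y, |f y| ≤ C * Real.exp (-c * |y|) := by
  obtain ⟨hc, C, c, hc0, h⟩ := hf
  have hC : 0 ≤ C := by
    have := h 0
    simp only [abs_zero, mul_zero, neg_zero, Real.exp_zero, mul_one] at this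
    exact (abs_nonneg _).trans this
  have hm : 0 < min c (1 / (2 * a)) := lt_min hc0 (by positivity)
  refine ⟨⟨hc, C, fun y => (h y).trans ?_⟩, C, min c (1 / (2 * a)), hm, ?_, fun y => (h y).trans ?_⟩
  · refine mul_le_of_le_one_right hC (Real.exp_le_one_iff.2 ?_)
    have := mul_nonneg hc0.le (abs_nonneg y)
    linarith
  · rw [abs_neg, abs_of_pos hm]
    calc min c (1 / (2 * a)) * a ≤ 1 / (2 * a) * a :=
          mul_le_mul_of_nonneg_right (min_le_right _ _) ha.le
      _ = 1 / 2 := by field_simp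
  · refine mul_le_mul_of_nonneg_left (Real.exp_le_exp.2 ?_) hC
    have := mul_le_mul_of_nonneg_right (min_le_left c (1 / (2 * a))) (abs_nonneg y)
    linarith

theorem expD_X0 (ha : 0 < a) (hf : ExpD f) : ExpD (X0 a f) := by
  obtain ⟨hb, C, c, hc0, hc, h⟩ := GA_rate ha hf
  refine ⟨(res_X ha hb).b0.1, 2 * C, c, hc0, fun y => ?_⟩
  simpa only [neg_mul] using abs_X0_le ha hb.1 hc h y

theorem expD_X1 (ha : 0 < a) (hf : ExpD f) : ExpD (X1 a f) := by
  obtain ⟨hb, C, c, hc0, hc, h⟩ := GA_rate ha hf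
  refine ⟨(res_X ha hb).b1.1, 2 * C / a, c, hc0, fun y => ?_⟩
  simpa only [neg_mul] using abs_X1_le ha hb.1 hc h y

end Pool.Agent.MP_8339a4_an
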