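import Pool.Agent.MP_8339a4_an.GD

/-! G block: weighted norms. -/

open MeasureTheory Filter Topology Set

namespace Pool.Agent.MP_8339a4_an

variable {w v f g h e ey φ : ℝ → ℝ} {b A B C : ℝ}

theorem SW.bdd (hw : SW w) : Bdd w := hw.ex.bdd

theorem SW.int_mul (hw : SW w) (hf : Bdd f) (hg : Bdd g) :
    Integrable (fun y => w y * (f y * g y)) := (hw.ex.mul_bdd (hf.mul hg)).integrable

theorem SW.int_sq (hw : SW w) (hf : Bdd f) : Integrable (fun y => w y * f y ^ 2) :=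
  (hw.ex.mul_bdd (hf.pow 2)).integrable

theorem SW.int_sq2 (hw : SW w) (hf : MemLp f 2 volume) :
    Integrable (fun y => w y * f y ^ 2) := integrable_bdd_mul hf.integrable_sq hw.bdd

theorem wn_nonneg (hw : SW w) (f : ℝ → ℝ) : 0 ≤ wn w f :=
  integral_nonneg fun y => mul_nonneg (hw.nn y) (sq_nonneg _)

theorem wn_congr (H : ∀ y, f y ^ 2 = g y ^ 2) : wn w f = wn w g := by
  simp only [wn, H]

theorem wn_le1 (hw : SW w) (hf : Bdd f) (hg : Bdd g) (H : ∀ y, f y ^ 2 ≤ A * g y ^ 2) :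
    wn w f ≤ A * wn w g := by
  rw [wn, wn, ← integral_const_mul]
  refine integral_mono (hw.int_sq hf) ((hw.int_sq hg).const_mul A) fun y => ?_
  exact (mul_le_mul_of_nonneg_left (H y) (hw.nn y)).trans_eq (mul_left_comm _ _ _)

theorem wn_le2 (hw : SW w) (hf : Bdd f) (hg : Bdd g) (hh : Bdd h)
    (H : ∀ y, f y ^ 2 ≤ A * g y ^ 2 + B * h y ^ 2) : wn w f ≤ A * wn w g + B * wn w h := by
  rw [wn, wn, wn, ← integral_const_mul, ← integral_const_mul,
    ← integral_add ((hw.int_sq hg).const_mul A) ((hw.int_sq hh).const_mul B)]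
  refine integral_mono (hw.int_sq hf)
    (((hw.int_sq hg).const_mul A).add ((hw.int_sq hh).const_mul B)) fun y => ?_
  exact (mul_le_mul_of_nonneg_left (H y) (hw.nn y)).trans_eq (by ring)

theorem wn_mono (hw : SW w) (hv : SW v) (H : ∀ y, w y ≤ C * v y) (hf : Bdd f) :
    wn w f ≤ C * wn v f := by
  rw [wn, wn, ← integral_const_mul]
  refine integral_mono (hw.int_sq hf) ((hv.int_sq hf).const_mul C) fun y => ?_
  exact (mul_le_mul_of_nonneg_right (H y) (sq_nonneg _)).trans_eq (mul_assoc _ _ _)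

theorem wn_mono2 (hw : SW w) (hv : SW v) (H : ∀ y, w y ≤ C * v y) (hf : MemLp f 2 volume) :
    wn w f ≤ C * wn v f := by
  rw [wn, wn, ← integral_const_mul]
  refine integral_mono (hw.int_sq2 hf) ((hv.int_sq2 hf).const_mul C) fun y => ?_
  exact (mul_le_mul_of_nonneg_right (H y) (sq_nonneg _)).trans_eq (mul_assoc _ _ _)

theorem sw_sc : SW sc := by
  refine ⟨expD_sc, fun y => (sc_pos y).le, _, ((bdd_tn.const_mul 4).mul expD_sc.bdd).neg.1,
    hasDerivAt_sc, fun y => ?_⟩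
  rw [abs_neg, abs_mul, abs_mul, abs_of_pos (sc_pos y), abs_of_pos four_pos]
  nlinarith [abs_tn_lt y, sc_pos y]

theorem sw_Q : SW Q :=
  ⟨expD_Q, fun y => (Q_pos y).le, Q1, expD_Q1.1, hasDerivAt_Q, fun y => by
    linarith [abs_Q1_le y, Q_pos y]⟩

theorem GB_der (hb : 1 ≤ b) : Continuous (fun y => P2 (y / b) / b) ∧
    (∀ y, HasDerivAt (Pb b) (P2 (y / b) / b) y) ∧ ∀ y, |P2 (y / b) / b| ≤ Pb b y := by
  refine ⟨(c2_T5a.comp (continuous_id.div_const b)).div_const b, fun y => ?_, fun y => ?_⟩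
  · exact ((hasDerivAt_P1 (y / b)).comp y ((hasDerivAt_id y).div_const b)).congr_deriv
      (mul_one_div _ _)
  · rw [abs_div, abs_of_pos (by linarith : 0 < b)]
    exact (div_le_self (abs_nonneg _) hb).trans (abs_P2_le _)

theorem sw_Pb (hb : 1 ≤ b) : SW (Pb b) := by
  obtain ⟨h1, h2, h3⟩ := GB_der hb
  refine ⟨(expD_P1.comp_affine (inv_pos.2 (by linarith : 0 < b)).ne' 0).congr fun y => ?_,
    fun y => (P1_pos _).le, _, h1, h2, fun y => ?_⟩
  · rw [add_zero, inv_mul_eq_div, Pb]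
  · linarith [h3 y, P1_pos (y / b), show Pb b y = P1 (y / b) from rfl]

theorem Pb_pos (b y : ℝ) : 0 < Pb b y := P1_pos _

theorem exp_le_Pb (hb : 0 < b) (y : ℝ) : Real.exp (-(|y| / b)) ≤ 4 * Pb b y := by
  have := exp_le_P1 (y / b)
  rw [abs_div, abs_of_pos hb] at this
  rw [Pb]
  linarith

theorem Pb_le_exp (hb : 0 < b) (y : ℝ) : Pb b y ≤ Real.exp (-(|y| / b)) := by
  have := P1_le_exp (y / b)
  rwa [abs_div, abs_of_pos hb] at this

theorem Q_le_Pb (hb : 1 ≤ b) (y : ℝ) : Q y ≤ 8 * Pb b y := by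
  have h1 := Real.exp_le_exp.2 (neg_le_neg (div_le_self (abs_nonneg y) hb))
  linarith [Q_le_exp y, exp_le_Pb (by linarith : 0 < b) y]

theorem sc_le_Pb (hb : 1 ≤ b) (y : ℝ) : sc y ≤ 16 * Pb b y := by
  have h1 : Real.exp (-(4 * |y|)) ≤ Real.exp (-(|y| / b)) :=
    Real.exp_le_exp.2 (by linarith [div_le_self (abs_nonneg y) hb, abs_nonneg y])
  linarith [sc_le_exp y, exp_le_Pb (by linarith : 0 < b) y]

theorem Nw_eq (hb : 1 ≤ b) (h : IsH1 e ey) : Nw b e ey = wn (Pb b) e + wn (Pb b) ey := by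
  rw [wn, wn, ← integral_add ((sw_Pb hb).int_sq2 h.1) ((sw_Pb hb).int_sq2 h.2.1)]
  simp only [Nw, Pb, mul_add]

theorem N0_eq (e : ℝ → ℝ) : N0 e = wn Q e := rfl

/-- Weighted Sobolev bound in exponential form. -/
theorem abs_le_sqrt_Nw (hb : 1 ≤ b) (h : IsH1 e ey) (y : ℝ) :
    |e y| ≤ Real.sqrt (8 * Nw b e ey) * Real.exp (1 / (2 * b) * |y|) := by
  obtain ⟨h1, h2, h3⟩ := GB_der hb
  have hb0 : 0 < b := by linarith
  have h4 : Pb b y * e y ^ 2 ≤ (1 + 1) * Nw b e ey := h.weighted_sq_le h2 h1 (sw_Pb hb).bdd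
    (sw_Pb hb).nn (fun y => (h3 y).trans_eq (one_mul _).symm) zero_le_one y
  have h5 := mul_le_mul_of_nonneg_right (exp_le_Pb hb0 y) (sq_nonneg (e y))
  have h6 : Real.exp (-(|y| / b)) * Real.exp (1 / (2 * b) * |y|) ^ 2 = 1 := by
    rw [sq, ← Real.exp_add, ← Real.exp_add, Real.exp_eq_one_iff]
    field_simp
    ring
  rw [← Real.sqrt_sq (Real.exp_pos (1 / (2 * b) * |y|)).le, ← Real.sqrt_mul' _ (sq_nonneg _)]
  refine Real.abs_le_sqrt ?_
  have h7 := mul_le_mul_of_nonneg_right (show Real.exp (-(|y| / b)) * e y ^ 2 ≤ 8 * Nw b e ey by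
    linarith) (sq_nonneg (Real.exp (1 / (2 * b) * |y|)))
  rwa [mul_right_comm, h6, one_mul] at h7

/-- The integral of a derivative vanishes. -/
theorem int_deriv_zero (hd : ∀ y, HasDerivAt f (g y) y) (hf : ExpD f) (hg : ExpD g) :
    ∫ y, g y = 0 := zero_T7a hd (fun _ => rfl) hf hg

/-- Linear terms localised near the soliton. -/
theorem lin_le (hb : 1 ≤ b) (hf : Bdd f) (hφ : Continuous φ)
    (H : ∀ y, |φ y| ≤ C * ((1 + |y|) * Q y)) :
    (∫ y, f y * φ y) ^ 2 ≤ 320 * C ^ 2 * wn (Pb b) f := by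
  have k1 : ∀ y, φ y ^ 2 / Q y ≤ 2 * C ^ 2 * (Real.exp (|y| / 10) * (1 + y ^ 2) * Q y) := by
    intro y
    have h1 : φ y ^ 2 ≤ (C * ((1 + |y|) * Q y)) ^ 2 := by
      rw [← sq_abs (φ y)]
      exact pow_le_pow_left₀ (abs_nonneg _) (H y) 2
    have h2 : 1 ≤ Real.exp (|y| / 10) := Real.one_le_exp (by positivity)
    have h3 : (1 + |y|) ^ 2 ≤ Real.exp (|y| / 10) * (2 * (1 + y ^ 2)) := by
      nlinarith [sq_nonneg (1 - |y|), sq_abs y, sq_nonneg y]
    rw [div_le_iff₀ (Q_pos y)]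
    refine h1.trans ?_
    rw [mul_pow, mul_pow]
    calc _ ≤ C ^ 2 * (Real.exp (|y| / 10) * (2 * (1 + y ^ 2)) * Q y ^ 2) := by gcongr
      _ = _ := by ring
  have e2 : ExpD fun y => φ y ^ 2 / Q y :=
    expD_env.of_le ((hφ.pow 2).div expD_Q.1 fun y => (Q_pos y).ne') (2 * C ^ 2) fun y => by
      rw [abs_of_nonneg (div_nonneg (sq_nonneg _) (Q_pos y).le), abs_of_pos (env_pos_T7b y)]
      exact k1 y
  have e1 : ExpD φ := (expD_Q.add expD_Q.id_mul.abs).of_le hφ C fun y => by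
    have := Q_pos y
    rw [abs_of_nonneg (a := Q y + _) (by positivity), abs_mul, abs_of_pos this]
    exact (H y).trans_eq (by ring)
  have a1 := csd Q_pos (e1.bdd_mul hf).integrable (sw_Q.int_sq hf) e2.integrable
  have a2 := integral_mono e2.integrable (expD_env.integrable.const_mul (2 * C ^ 2)) k1
  rw [integral_const_mul] at a2
  have a3 : ∫ y, φ y ^ 2 / Q y ≤ 2 * C ^ 2 * 20 :=
    a2.trans (mul_le_mul_of_nonneg_left integral_env_le (by positivity))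
  have a4 := mul_le_mul (wn_mono sw_Q (sw_Pb hb) (Q_le_Pb hb) hf) a3
    (integral_nonneg fun y => div_nonneg (sq_nonneg _) (Q_pos y).le)
    (mul_nonneg (by norm_num) (wn_nonneg (sw_Pb hb) f))
  exact a1.trans (a4.trans_eq (by ring))

/-- Symmetry of the linearised operator. -/
theorem D2.selfadj {f1 f2 g1 g2 : ℝ → ℝ} (hf : D2 f f1 f2) (hg : D2 g g1 g2) :
    ∫ y, f y * (-g2 y + (1 - V y) * g y) = ∫ y, (-f2 y + (1 - V y) * f y) * g y := by
  have hV := (Bdd.const 1).sub expD_V.bdd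
  have p0 := IsPrim.of_hasDerivAt hf.d0 hf.e1.1
  have p1 := IsPrim.of_hasDerivAt hf.d1 hf.e2.1
  have q0 := IsPrim.of_hasDerivAt hg.d0 hg.e1.1
  have q1 := IsPrim.of_hasDerivAt hg.d1 hg.e2.1
  refine ((p1.mul q0).sub (p0.mul q1)).integral_eq
    ((hf.e1.mul_bdd hg.e0.bdd).sub (hf.e0.mul_bdd hg.e1.bdd)).integrable
    (hf.e0.mul_bdd (hg.e2.bdd.neg.add (hV.mul hg.e0.bdd))).integrable
    (hg.e0.bdd_mul (hf.e2.bdd.neg.add (hV.mul hf.e0.bdd))).integrable fun y => ?_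
  ring

theorem Test.d2 {f1 f2 f3 : ℝ → ℝ} (h : Test f f1 f2 f3) : D2 f f1 f2 :=
  ⟨h.sm.d1, h.sm.d2, h.e0, h.e1, h.e2⟩

theorem Test.d2' {f1 f2 f3 : ℝ → ℝ} (h : Test f f1 f2 f3) : D2 f1 f2 f3 :=
  ⟨h.sm.d2, h.sm.d3, h.e1, h.e2, h.e3⟩

theorem d2_LQ : D2 LQ LQ1 LQ2 := ⟨hasDerivAt_LQ, hasDerivAt_LQ1, expD_LQ, expD_LQ1, expD_LQ2⟩

end Pool.Agent.MP_8339a4_an
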