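import Pool.Agent.MP_8339a4_an.GB

/-! G block: energy estimates for the resolvent. -/

open MeasureTheory Filter Topology Set

namespace Pool.Agent.MP_8339a4_an

variable {a : ℝ} {w f fy u u1 ψ ψ1 ψ2 : ℝ → ℝ}

theorem GC_le {p q r g : ℝ → ℝ} {A B c : ℝ} (ip : Integrable p) (iq : Integrable q)
    (ir : Integrable r) (ig : Integrable g) (hg : ∫ y, g y = 0)
    (H : ∀ y, p y + A * q y ≤ B * r y + c * g y) :
    (∫ y, p y) + A * ∫ y, q y ≤ B * ∫ y, r y := by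
  have h := integral_mono (ip.add (iq.const_mul A)) ((ir.const_mul B).add (ig.const_mul c)) H
  have e1 : ∫ y, (p + fun y => A * q y) y = (∫ y, p y) + A * ∫ y, q y := by
    rw [← integral_const_mul, ← integral_add ip (iq.const_mul A)]
    rfl
  have e2 : ∫ y, ((fun y => B * r y) + fun y => c * g y) y = B * (∫ y, r y) + c * ∫ y, g y := by
    rw [← integral_const_mul, ← integral_const_mul,
      ← integral_add (ir.const_mul B) (ig.const_mul c)]
    rfl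
  rw [e1, e2, hg] at h
  linarith

theorem GC_pt {p p1 : ℝ} (h : |p1| ≤ 4 * p) (x y : ℝ) :
    0 ≤ p * (8 * x ^ 2 + y ^ 2 / 2) + p1 * (x * y) := by
  obtain ⟨h1, h2⟩ := abs_le.1 h
  have e : p * (8 * x ^ 2 + y ^ 2 / 2) + p1 * (x * y) =
      ((4 * p + p1) * (4 * x + y) ^ 2 + (4 * p - p1) * (4 * x - y) ^ 2) / 16 := by ring
  rw [e]
  have h3 : 0 ≤ 4 * p + p1 := by linarith
  have h4 : 0 ≤ 4 * p - p1 := by linarith
  positivity

theorem GC_w1 (hw : SW w) : ∃ w1 : ℝ → ℝ, ExpD w1 ∧ (∀ y, HasDerivAt w (w1 y) y) ∧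
    ∀ y, |w1 y| ≤ 4 * w y := by
  obtain ⟨w1, h1, h2, h3⟩ := hw.dr
  refine ⟨w1, hw.ex.of_le h1 4 fun y => ?_, h2, h3⟩
  rw [abs_of_nonneg (hw.nn y)]
  exact h3 y

theorem GC_sq (ha : 0 < a) (ha8 : a ≤ 1 / 8) : 0 < a ^ 2 ∧ a ^ 2 ≤ 1 / 64 :=
  ⟨by positivity, by nlinarith⟩

theorem Res.green (h : Res a f u u1) (ha : a ≠ 0) (hψ : D2 ψ ψ1 ψ2) :
    ∫ y, u y * (ψ y - a ^ 2 * ψ2 y) = ∫ y, f y * ψ y := by
  have e1 : ExpD fun y => u y * (ψ y - a ^ 2 * ψ2 y) :=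
    (hψ.e0.sub (hψ.e2.const_mul _)).bdd_mul h.b0
  have e2 : ExpD fun y => f y * ψ y := hψ.e0.bdd_mul h.bf
  have e3 : ExpD fun y => a ^ 2 * (u1 y * ψ y - u y * ψ1 y) :=
    ((hψ.e0.bdd_mul h.b1).sub (hψ.e1.bdd_mul h.b0)).const_mul _
  have hd : ∀ y, HasDerivAt (fun y => a ^ 2 * (u1 y * ψ y - u y * ψ1 y))
      (u y * (ψ y - a ^ 2 * ψ2 y) - f y * ψ y) y := by
    intro y
    refine ((((h.d1 y).mul (hψ.d0 y)).sub ((h.d0 y).mul (hψ.d1 y))).const_mul
      (a ^ 2)).congr_deriv ?_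
    field_simp
    ring
  have := int_deriv_zero hd e3 (e1.sub e2)
  rw [integral_sub e1.integrable e2.integrable] at this
  linarith

theorem Res.energy (h : Res a f u u1) (ha : 0 < a) (ha8 : a ≤ 1 / 8) (hw : SW w) :
    wn w u + a ^ 2 * wn w u1 ≤ 2 * wn w f := by
  obtain ⟨w1, x1, d1, l1⟩ := GC_w1 hw
  obtain ⟨s1, s2⟩ := GC_sq ha ha8
  have e1 : ExpD fun y => a ^ 2 * (w y * (u y * u1 y)) :=
    (hw.ex.mul_bdd (h.b0.mul h.b1)).const_mul _
  have e2 : ExpD fun y => a ^ 2 * (w1 y * (u y * u1 y)) + a ^ 2 * (w y * u1 y ^ 2) +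
      w y * (u y * (u y - f y)) :=
    (((x1.mul_bdd (h.b0.mul h.b1)).const_mul _).add
      ((hw.ex.mul_bdd (h.b1.pow 2)).const_mul _)).add (hw.ex.mul_bdd (h.b0.mul (h.b0.sub h.bf)))
  have hd : ∀ y, HasDerivAt (fun y => a ^ 2 * (w y * (u y * u1 y)))
      (a ^ 2 * (w1 y * (u y * u1 y)) + a ^ 2 * (w y * u1 y ^ 2) + w y * (u y * (u y - f y))) y := by
    intro y
    refine (((d1 y).mul ((h.d0 y).mul (h.d1 y))).const_mul (a ^ 2)).congr_deriv ?_
    simp only [Pi.mul_apply]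
    field_simp
    ring
  refine GC_le (c := 2) (hw.int_sq h.b0) (hw.int_sq h.b1) (hw.int_sq h.bf) e2.integrable
    (int_deriv_zero hd e1 e2) fun y => ?_
  have p1 := mul_nonneg s1.le (GC_pt (l1 y) (u y) (u1 y))
  have p2 := mul_nonneg (hw.nn y) (sq_nonneg (f y - u y / 2))
  have p3 := mul_nonneg (sub_nonneg.2 s2) (mul_nonneg (hw.nn y) (sq_nonneg (u y)))
  have p4 := mul_nonneg (hw.nn y) (sq_nonneg (u y))
  nlinarith

theorem GC_H (h : Res a f u u1) (ha : 0 < a) (ha8 : a ≤ 1 / 8) (hw : SW w) (hf : IsPrim f fy)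
    (i1 : Integrable fun y => w y * (u1 y * fy y)) (i2 : Integrable fun y => w y * fy y ^ 2) :
    wn w (fun y => f y - u y) + a ^ 2 * wn w u1 ≤ 2 * a ^ 2 * wn w fy := by
  obtain ⟨w1, x1, d1, l1⟩ := GC_w1 hw
  obtain ⟨s1, s2⟩ := GC_sq ha ha8
  have bv : Bdd fun y => u y - f y := h.b0.sub h.bf
  have q0 : IsPrim w w1 := IsPrim.of_hasDerivAt d1 x1.1
  have q1 : IsPrim u u1 := IsPrim.of_hasDerivAt h.d0 h.b1.1
  have q2 : IsPrim u1 fun y => (u y - f y) / a ^ 2 :=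
    IsPrim.of_hasDerivAt h.d1 (bv.div_const _).1
  have q3 : IsPrim (fun y => a ^ 2 * (w y * (u1 y * (u y - f y))))
      (fun y => a ^ 2 * (w1 y * (u1 y * (u y - f y))) + w y * (u y - f y) ^ 2 +
        a ^ 2 * (w y * u1 y ^ 2) - a ^ 2 * (w y * (u1 y * fy y))) := by
    refine ((q0.mul (q2.mul (q1.sub hf))).const_mul (a ^ 2)).congr (fun _ => rfl) fun y => ?_
    field_simp
    ring
  have j1 : Integrable fun y => a ^ 2 * (w1 y * (u1 y * (u y - f y))) + w y * (u y - f y) ^ 2 +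
      a ^ 2 * (w y * u1 y ^ 2) - a ^ 2 * (w y * (u1 y * fy y)) :=
    ((((x1.mul_bdd (h.b1.mul bv)).const_mul _).add (hw.ex.mul_bdd (bv.pow 2))).add
      ((hw.ex.mul_bdd (h.b1.pow 2)).const_mul _)).integrable.sub (i1.const_mul _)
  refine GC_le (c := 2) (hw.int_sq (h.bf.sub h.b0)) (hw.int_sq h.b1) i2 j1
    (q3.integral_eq_zero ((hw.ex.mul_bdd (h.b1.mul bv)).const_mul _).integrable j1) fun y => ?_
  have p1 := GC_pt (l1 y) (a ^ 2 * u1 y) (u y - f y)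
  have p2 := mul_nonneg s1.le (mul_nonneg (hw.nn y) (sq_nonneg (fy y - u1 y / 2)))
  have p4 := mul_nonneg s1.le (mul_nonneg (hw.nn y) (sq_nonneg (u1 y)))
  have p3 := mul_nonneg (sub_nonneg.2 s2) p4
  nlinarith

theorem Res.energyH (h : Res a f u u1) (ha : 0 < a) (ha8 : a ≤ 1 / 8) (hw : SW w)
    (hf : IsH1 f fy) :
    wn w (fun y => f y - u y) + a ^ 2 * wn w u1 ≤ 2 * a ^ 2 * wn w fy := by
  refine GC_H h ha ha8 hw hf.isPrim ?_ (hw.int_sq2 hf.2.1)
  simpa only [mul_assoc] using integrable_mul2 (hw.ex.mul_bdd h.b1).memLp hf.2.1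

/-- The derivative solves the same equation. -/
theorem Res.deriv (h : Res a f u u1) (hf : ∀ y, HasDerivAt f (fy y) y) (hb : Bdd fy) :
    Res a fy u1 (fun y => (u y - f y) / a ^ 2) :=
  ⟨h.d1, fun y => ((h.d0 y).sub (hf y)).div_const _, hb, h.b1, (h.b0.sub h.bf).div_const _⟩

theorem Res.energyD (h : Res a f u u1) (ha : 0 < a) (ha8 : a ≤ 1 / 8) (hw : SW w)
    (hf : ∀ y, HasDerivAt f (fy y) y) (hb : Bdd fy) :
    wn w (fun y => f y - u y) + a ^ 2 * wn w u1 ≤ 2 * a ^ 2 * wn w fy :=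
  GC_H h ha ha8 hw (IsPrim.of_hasDerivAt hf hb.1) (hw.int_mul h.b1 hb) (hw.int_sq hb)

theorem GC_mem {g : ℝ → ℝ} {K : ℝ} (hg : Bdd g) (H : ∀ b : ℝ, 1 ≤ b → wn (Pb b) g ≤ K) :
    MemLp g 2 volume := by
  rw [memLp_two_iff_integrable_sq hg.1.aestronglyMeasurable]
  have c2 : Continuous fun y => g y ^ 2 := hg.1.pow 2
  refine integrable_of_intervalIntegral_norm_bounded (l := atTop) (a := fun R : ℝ => -R)
    (b := fun R : ℝ => R) (4 * Real.exp 1 * K)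
    (fun R => (c2.integrableOn_Icc).mono_set Ioc_subset_Icc_self) tendsto_neg_atTop_atBot
    tendsto_id ?_
  filter_upwards [eventually_ge_atTop (1 : ℝ)] with R hR
  have hs := sw_Pb hR
  have i1 := (hs.int_sq hg).const_mul (4 * Real.exp 1)
  have h1 : ∫ x in (-R)..R, ‖g x ^ 2‖ ≤ ∫ x in (-R)..R, 4 * Real.exp 1 * (Pb R x * g x ^ 2) := by
    refine intervalIntegral.integral_mono_on (by linarith) (c2.norm.intervalIntegrable _ _)
      i1.intervalIntegrable fun x hx => ?_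
    have h2 := exp_le_Pb (b := R) (by linarith) x
    have h3 : Real.exp (-1) ≤ Real.exp (-(|x| / R)) := by
      apply Real.exp_le_exp.2
      have : |x| / R ≤ 1 := (div_le_one (by linarith)).2 (abs_le.2 hx)
      linarith
    have h4 : Real.exp 1 * Real.exp (-1) = 1 := by
      rw [← Real.exp_add]
      simp
    have h5 : 1 ≤ 4 * Real.exp 1 * Pb R x := by
      have := mul_le_mul_of_nonneg_left (h3.trans h2) (Real.exp_pos 1).le
      linarith
    rw [Real.norm_eq_abs, abs_of_nonneg (sq_nonneg _), ← mul_assoc]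
    exact le_mul_of_one_le_left (sq_nonneg _) h5
  refine h1.trans ?_
  rw [intervalIntegral.integral_of_le (by linarith)]
  refine (setIntegral_le_integral i1 (Eventually.of_forall fun x => ?_)).trans ?_
  · exact mul_nonneg (by positivity) (mul_nonneg (hs.nn x) (sq_nonneg _))
  · rw [integral_const_mul]
    exact mul_le_mul_of_nonneg_left (H R hR) (by positivity)

theorem Res.isH1 (h : Res a f u u1) (ha : 0 < a) (ha8 : a ≤ 1 / 8) (hf : MemLp f 2 volume) :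
    IsH1 u u1 := by
  have key : ∀ b : ℝ, 1 ≤ b → wn (Pb b) u + a ^ 2 * wn (Pb b) u1 ≤ 2 * ∫ y, f y ^ 2 := by
    intro b hb
    refine (h.energy ha ha8 (sw_Pb hb)).trans (mul_le_mul_of_nonneg_left ?_ zero_le_two)
    refine integral_mono ((sw_Pb hb).int_sq h.bf) (integrable_sq2 hf) fun y => ?_
    have : Pb b y ≤ 1 := (P1_le_quarter _).trans (by norm_num)
    exact mul_le_of_le_one_left (sq_nonneg _) this
  have s1 : 0 < a ^ 2 := by positivity
  refine IsH1.of_isPrim (IsPrim.of_hasDerivAt h.d0 h.b1.1)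
    (GC_mem (K := 2 * ∫ y, f y ^ 2) h.b0 fun b hb => ?_)
    (GC_mem (K := (2 * ∫ y, f y ^ 2) / a ^ 2) h.b1 fun b hb => ?_)
  · have := mul_nonneg s1.le (wn_nonneg (sw_Pb hb) u1)
    linarith [key b hb]
  · rw [le_div_iff₀ s1]
    linarith [key b hb, wn_nonneg (sw_Pb hb) u]

end Pool.Agent.MP_8339a4_an
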