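import Pool.Agent.MP_8339a4_an.Api

/-! G block: definitions for the regularised dual virial functional. -/

open MeasureTheory Filter Topology Set

namespace Pool.Agent.MP_8339a4_an

noncomputable section

/-- One-sided exponential average. -/
def Jk (a : ℝ) (f : ℝ → ℝ) (y : ℝ) : ℝ := ∫ t in Ioi (0 : ℝ), Real.exp (-t) * f (y + a * t)
/-- The resolvent of `1 - a² ∂²` applied to `f`. -/
def X0 (a : ℝ) (f : ℝ → ℝ) (y : ℝ) : ℝ := (Jk a f y + Jk (-a) f y) / 2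
/-- The derivative of the resolvent. -/
def X1 (a : ℝ) (f : ℝ → ℝ) (y : ℝ) : ℝ := (Jk a f y - Jk (-a) f y) / (2 * a)

/-- `u` is a bounded solution of `u - a² u'' = f`, with derivative `u1`. -/
structure Res (a : ℝ) (f u u1 : ℝ → ℝ) : Prop where
  d0 : ∀ y, HasDerivAt u (u1 y) y
  d1 : ∀ y, HasDerivAt u1 ((u y - f y) / a ^ 2) y
  bf : Bdd f
  b0 : Bdd u
  b1 : Bdd u1

/-- Slowly varying, exponentially decaying weight. -/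
structure SW (w : ℝ → ℝ) : Prop where
  ex : ExpD w
  nn : ∀ y, 0 ≤ w y
  dr : ∃ w1 : ℝ → ℝ, Continuous w1 ∧ (∀ y, HasDerivAt w (w1 y) y) ∧ ∀ y, |w1 y| ≤ 4 * w y

/-- `C^2` function decaying exponentially with two derivatives. -/
structure D2 (f f1 f2 : ℝ → ℝ) : Prop where
  d0 : ∀ y, HasDerivAt f (f1 y) y
  d1 : ∀ y, HasDerivAt f1 (f2 y) y
  e0 : ExpD f
  e1 : ExpD f1
  e2 : ExpD f2

/-- Weighted square norm. -/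
def wn (w f : ℝ → ℝ) : ℝ := ∫ y, w y * f y ^ 2
/-- The weight of `Nw`. -/
def Pb (b y : ℝ) : ℝ := P1 (y / b)

def V2 (y : ℝ) : ℝ := (16 - 24 * sc y) * V y
def V3 (y : ℝ) : ℝ := tn y * (192 * sc y - 64) * V y
def V4 (y : ℝ) : ℝ := (1920 * sc y ^ 2 - 1920 * sc y + 256) * V y

/-- The cut-off and its derivatives. -/
def chi (b y : ℝ) : ℝ := 4 * P1 (2 / b * y)
def chi1 (b y : ℝ) : ℝ := 8 / b * P2 (2 / b * y)
def chi2 (b y : ℝ) : ℝ := 16 / b ^ 2 * P3 (2 / b * y)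
def chi3 (b y : ℝ) : ℝ := 32 / b ^ 3 * P4 (2 / b * y)

/-- The virial weight `tn * chi` and its derivatives. -/
def mw (b y : ℝ) : ℝ := tn y * chi b y
def mw1 (b y : ℝ) : ℝ := 2 * sc y * chi b y + tn y * chi1 b y
def mw2 (b y : ℝ) : ℝ := -(8 * tn y * sc y) * chi b y + 2 * (2 * sc y * chi1 b y)
  + tn y * chi2 b y
def mw3 (b y : ℝ) : ℝ := (-(16 * sc y ^ 2) + 32 * tn y ^ 2 * sc y) * chi b y
  + 3 * (-(8 * tn y * sc y) * chi1 b y) + 3 * (2 * sc y * chi2 b y) + tn y * chi3 b y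

/-- `hA = X L e`. -/
def hA (a : ℝ) (e : ℝ → ℝ) (y : ℝ) : ℝ :=
  (e y - X0 a e y) / a ^ 2 + X0 a (fun x => (1 - V x) * e x) y
/-- `hB = X X L e`, `hC = hB'`, `hD = hB''`. -/
def hB (a : ℝ) (e : ℝ → ℝ) : ℝ → ℝ := X0 a (hA a e)
def hC (a : ℝ) (e : ℝ → ℝ) : ℝ → ℝ := X1 a (hA a e)
def hD (a : ℝ) (e : ℝ → ℝ) (y : ℝ) : ℝ := (hB a e y - hA a e y) / a ^ 2

/-- `gg = mw * hB` and its derivatives. -/
def gg (a b : ℝ) (e : ℝ → ℝ) (y : ℝ) : ℝ := mw b y * hB a e y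
def gg1 (a b : ℝ) (e : ℝ → ℝ) (y : ℝ) : ℝ := mw1 b y * hB a e y + mw b y * hC a e y
def gg2 (a b : ℝ) (e : ℝ → ℝ) (y : ℝ) : ℝ :=
  mw2 b y * hB a e y + 2 * (mw1 b y * hC a e y) + mw b y * hD a e y

/-- `kA = X gg` and its derivatives. -/
def kA (a b : ℝ) (e : ℝ → ℝ) : ℝ → ℝ := X0 a (gg a b e)
def kA1 (a b : ℝ) (e : ℝ → ℝ) : ℝ → ℝ := X1 a (gg a b e)
def kA2 (a b : ℝ) (e : ℝ → ℝ) (y : ℝ) : ℝ := (kA a b e y - gg a b e y) / a ^ 2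
def kA3 (a b : ℝ) (e : ℝ → ℝ) (y : ℝ) : ℝ := (kA1 a b e y - gg1 a b e y) / a ^ 2
def kA4 (a b : ℝ) (e : ℝ → ℝ) (y : ℝ) : ℝ := (kA2 a b e y - gg2 a b e y) / a ^ 2
/-- `kB = X X gg` and its derivatives. -/
def kB (a b : ℝ) (e : ℝ → ℝ) : ℝ → ℝ := X0 a (kA a b e)
def kB1 (a b : ℝ) (e : ℝ → ℝ) : ℝ → ℝ := X1 a (kA a b e)
def kB2 (a b : ℝ) (e : ℝ → ℝ) (y : ℝ) : ℝ := (kB a b e y - kA a b e y) / a ^ 2
def kB3 (a b : ℝ) (e : ℝ → ℝ) (y : ℝ) : ℝ := (kB1 a b e y - kA1 a b e y) / a ^ 2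
def kB4 (a b : ℝ) (e : ℝ → ℝ) (y : ℝ) : ℝ := (kB2 a b e y - kA2 a b e y) / a ^ 2

/-- The test function `L kB` and its derivatives. -/
def th0 (a b : ℝ) (e : ℝ → ℝ) (y : ℝ) : ℝ :=
  (kA a b e y - kB a b e y) / a ^ 2 + (1 - V y) * kB a b e y
def th1 (a b : ℝ) (e : ℝ → ℝ) (y : ℝ) : ℝ :=
  (kA1 a b e y - kB1 a b e y) / a ^ 2 - V1 y * kB a b e y + (1 - V y) * kB1 a b e y
def th2 (a b : ℝ) (e : ℝ → ℝ) (y : ℝ) : ℝ :=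
  (kA2 a b e y - kB2 a b e y) / a ^ 2 - V2 y * kB a b e y - 2 * (V1 y * kB1 a b e y)
    + (1 - V y) * kB2 a b e y
def th3 (a b : ℝ) (e : ℝ → ℝ) (y : ℝ) : ℝ :=
  (kA3 a b e y - kB3 a b e y) / a ^ 2 - V3 y * kB a b e y - 3 * (V2 y * kB1 a b e y)
    - 3 * (V1 y * kB2 a b e y) + (1 - V y) * kB3 a b e y
def th4 (a b : ℝ) (e : ℝ → ℝ) (y : ℝ) : ℝ :=
  (kA4 a b e y - kB4 a b e y) / a ^ 2 - V4 y * kB a b e y - 4 * (V3 y * kB1 a b e y)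
    - 6 * (V2 y * kB2 a b e y) - 4 * (V1 y * kB3 a b e y) + (1 - V y) * kB4 a b e y

/-- The commutator error. -/
def Er (a b : ℝ) (e : ℝ → ℝ) (y : ℝ) : ℝ :=
  a ^ 2 * (6 * (V2 y * kA a b e y) + 4 * (V1 y * kA1 a b e y) - 4 * (V2 y * kB a b e y)
    - a ^ 2 * (V4 y * kB a b e y) - 4 * a ^ 2 * (V3 y * kB1 a b e y))

/-- The virial functional. -/
def GG (a b : ℝ) (e : ℝ → ℝ) : ℝ := ∫ y, mw b y * hB a e y ^ 2

end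

end Pool.Agent.MP_8339a4_an
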