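import Pool.Agent.MP_8339a4_an.GT

/-! G block: duality identities and weighted bounds. -/

open MeasureTheory Filter Topology Set

namespace Pool.Agent.MP_8339a4_an

variable {a b : ℝ} {e ey f w ψ ψ1 ψ2 : ℝ → ℝ}

theorem dual_hA (ha : 0 < a) (he : Bdd e) (hψ : D2 ψ ψ1 ψ2) :
    ∫ y, hA a e y * (ψ y - a ^ 2 * ψ2 y) = ∫ y, e y * (-ψ2 y + (1 - V y) * ψ y) := by
  have r1 := res_X ha he
  have r2 := res_X ha (bdd_one_sub_V.mul he)
  have g1 := r1.green ha.ne' hψ
  have g2 := r2.green ha.ne' hψ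
  have eφ : ExpD fun y => ψ y - a ^ 2 * ψ2 y := hψ.e0.sub (hψ.e2.const_mul _)
  have i1 := ((hψ.e0.bdd_mul he).integrable).const_mul (a ^ 2)⁻¹
  have i2 := (hψ.e2.bdd_mul he).integrable
  have i3 := ((eφ.bdd_mul r1.b0).integrable).const_mul (a ^ 2)⁻¹
  have i4 := (eφ.bdd_mul r2.b0).integrable
  have i5 := (hψ.e0.bdd_mul (bdd_one_sub_V.mul he)).integrable
  have e1 : ∫ y, hA a e y * (ψ y - a ^ 2 * ψ2 y) =
      ∫ y, ((a ^ 2)⁻¹ * (e y * ψ y) - (a ^ 2)⁻¹ * (X0 a e y * (ψ y - a ^ 2 * ψ2 y))) +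
        (X0 a (fun x => (1 - V x) * e x) y * (ψ y - a ^ 2 * ψ2 y) - e y * ψ2 y) := by
    refine integral_congr_ae (Eventually.of_forall fun y => ?_)
    simp only [hA]
    field_simp
    ring
  have e2 : ∫ y, e y * (-ψ2 y + (1 - V y) * ψ y) = ∫ y, (1 - V y) * e y * ψ y - e y * ψ2 y := by
    refine integral_congr_ae (Eventually.of_forall fun y => ?_)
    simp only
    ring
  have j1 : Integrable fun y =>
      (a ^ 2)⁻¹ * (e y * ψ y) - (a ^ 2)⁻¹ * (X0 a e y * (ψ y - a ^ 2 * ψ2 y)) := i1.sub i3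
  have j2 : Integrable fun y =>
      X0 a (fun x => (1 - V x) * e x) y * (ψ y - a ^ 2 * ψ2 y) - e y * ψ2 y := i4.sub i2
  rw [e1, e2, integral_add j1 j2, integral_sub i1 i3, integral_sub i4 i2, integral_sub i5 i2,
    integral_const_mul, integral_const_mul, g1, g2, sub_self, zero_add]

theorem bilin (ha : 0 < a) (hb : 0 < b) (he : Bdd e) (hf : Bdd f) :
    ∫ y, mw b y * (hB a e y * hB a f y) = ∫ y, f y * th0 a b e y := by
  have g1 := (res_hB ha hf).green ha.ne' (test_kA ha hb he).d2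
  have g2 := dual_hA ha hf (test_kB ha hb he).d2
  have e1 : ∀ y, kA a b e y - a ^ 2 * kA2 a b e y = mw b y * hB a e y := fun y => by
    simp only [kA2, gg]
    field_simp
    ring
  have e2 : ∀ y, kB a b e y - a ^ 2 * kB2 a b e y = kA a b e y := fun y => by
    simp only [kB2]
    field_simp
    ring
  simp only [e1] at g1
  simp only [e2, ← th0_eq] at g2
  rw [← g2, ← g1]
  refine integral_congr_ae (Eventually.of_forall fun y => ?_)
  simp only
  ring

theorem wn_hA (ha : 0 < a) (ha8 : a ≤ 1 / 8) (hw : SW w) (he : IsH1 e ey) :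
    a ^ 2 * wn w (hA a e) ≤ 20 * (wn w e + wn w ey) := by
  have r1 := res_X ha he.bdd
  have r2 := res_X ha (bdd_one_sub_V.mul he.bdd)
  have d0 : 0 < a ^ 2 := by positivity
  have d1 : a ^ 2 ≤ 1 / 64 := by nlinarith
  have h1 := wn_le2 hw (bdd_hA ha he.bdd) (he.bdd.sub r1.b0) r2.b0 (A := 2 * ((a ^ 2)⁻¹) ^ 2)
    (B := 2) fun y => by
      rw [hA, div_eq_mul_inv]
      nlinarith [sq_nonneg ((e y - X0 a e y) * (a ^ 2)⁻¹ - X0 a (fun x => (1 - V x) * e x) y)]
  have h2 := r1.energyH ha ha8 hw he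
  have h3 := r2.energy ha ha8 hw
  have h4 := wn_le1 hw (bdd_one_sub_V.mul he.bdd) he.bdd (A := 196) fun y => by
    rw [mul_pow]
    refine mul_le_mul_of_nonneg_right ?_ (sq_nonneg _)
    have := abs_le.1 (abs_one_sub_V_le y)
    nlinarith
  have n1 := mul_nonneg d0.le (wn_nonneg hw (X1 a e))
  have n2 := mul_nonneg d0.le (wn_nonneg hw (X1 a fun x => (1 - V x) * e x))
  have n3 := wn_nonneg hw e
  have n4 := wn_nonneg hw ey
  have h5 : a ^ 2 * (2 * ((a ^ 2)⁻¹) ^ 2 * wn w fun y => e y - X0 a e y) ≤ 4 * wn w ey := by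
    have : a ^ 2 * (2 * ((a ^ 2)⁻¹) ^ 2 * wn w fun y => e y - X0 a e y) =
        2 * (wn w fun y => e y - X0 a e y) / a ^ 2 := by field_simp
    rw [this, div_le_iff₀ d0]
    linarith
  have h6 := mul_le_mul_of_nonneg_left h1 d0.le
  have h7 := mul_le_mul d1 (show wn w (X0 a fun x => (1 - V x) * e x) ≤ 392 * wn w e by linarith)
    (wn_nonneg hw _) (by norm_num)
  linarith

theorem wn_hB (ha : 0 < a) (ha8 : a ≤ 1 / 8) (hw : SW w) (he : IsH1 e ey) :
    a ^ 2 * wn w (hB a e) + a ^ 4 * wn w (hC a e) ≤ 40 * (wn w e + wn w ey) := by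
  have h1 := mul_le_mul_of_nonneg_left ((res_hB ha he.bdd).energy ha ha8 hw) (sq_nonneg a)
  have h2 := wn_hA ha ha8 hw he
  linarith

theorem wn_kA (ha : 0 < a) (ha8 : a ≤ 1 / 8) (hb : 0 < b) (hw : SW w) (he : Bdd e) :
    wn w (kA a b e) + a ^ 2 * wn w (kA1 a b e) ≤ 2 * wn w (hB a e) := by
  have h1 := (res_kA ha hb he).energy ha ha8 hw
  have h2 := wn_le1 hw (res_kA ha hb he).bf (res_hB ha he).b0 (A := 1) fun y => by
    rw [gg, mul_pow]
    exact mul_le_mul_of_nonneg_right ((sq_le_one_iff_abs_le_one _).2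
      ((abs_mw_le_chi b y).trans (chi_le_one b y))) (sq_nonneg _)
  linarith

theorem wn_kB (ha : 0 < a) (ha8 : a ≤ 1 / 8) (hb : 0 < b) (hw : SW w) (he : Bdd e) :
    wn w (kB a b e) + a ^ 2 * wn w (kB1 a b e) ≤ 4 * wn w (hB a e) := by
  have h1 := (res_kB ha hb he).energy ha ha8 hw
  have h2 := wn_kA ha ha8 hb hw he
  have h3 := mul_nonneg (sq_nonneg a) (wn_nonneg hw (kA1 a b e))
  linarith

theorem abs_GG_le (ha : 0 < a) (ha8 : a ≤ 1 / 8) (hb : 1 ≤ b) (he : IsH1 e ey) :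
    |GG a b e| ≤ 640 / a ^ 2 * Nw b e ey := by
  have hb0 : 0 < b := one_pos.trans_le hb
  have hw := sw_Pb hb
  have bB := (res_hB ha he.bdd).b0
  have h1 : |GG a b e| ≤ 16 * wn (Pb b) (hB a e) := by
    rw [GG, wn, ← integral_const_mul]
    refine abs_integral_le_integral_abs.trans (integral_mono
      ((test_mw hb0).e0.mul_bdd (bB.pow 2)).integrable.abs ((hw.int_sq bB).const_mul _) fun y => ?_)
    simp only [abs_mul, abs_sq, ← mul_assoc]
    exact mul_le_mul_of_nonneg_right ((abs_mw_le_chi b y).trans (chi_le_Pb hb0 y)) (sq_nonneg _)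
  have h2 := wn_hB ha ha8 hw he
  have h3 := mul_nonneg (pow_pos ha 4).le (wn_nonneg hw (hC a e))
  have d0 : 0 < a ^ 2 := by positivity
  rw [Nw_eq hb he, div_mul_eq_mul_div, le_div_iff₀ d0]
  nlinarith

/-- The main term of the derivative. -/
theorem main_id (ha : 0 < a) (hb : 0 < b) (he : Bdd e) :
    ∫ y, e y * (th3 a b e y - th1 a b e y + V y * th1 a b e y)
      = (∫ y, hC a e y * (-gg2 a b e y + (1 - V y) * gg a b e y)) + ∫ y, hC a e y * Er a b e y := by
  have T := test_th ha hb he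
  have R := res_hB ha he
  have G := d2_gg ha hb he
  have g1 := dual_hA ha he T.d2'
  have x1 : ExpD fun y => th0 a b e y - a ^ 2 * th2 a b e y := T.e0.sub (T.e2.const_mul _)
  have x2 : ExpD fun y => th1 a b e y - a ^ 2 * th3 a b e y := T.e1.sub (T.e3.const_mul _)
  have x3 : ExpD fun y => -gg2 a b e y + (1 - V y) * gg a b e y :=
    G.e2.neg.add (G.e0.bdd_mul bdd_one_sub_V)
  have y1 := x2.bdd_mul (bdd_hA ha he)
  have y2 := x3.bdd_mul R.b1
  have y3 := (expD_Er ha hb he).bdd_mul R.b1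
  have y4 := y2.add y3
  have g2 := int_deriv_zero (f := fun y => hB a e y * (th0 a b e y - a ^ 2 * th2 a b e y) -
      a ^ 2 * (hC a e y * (th1 a b e y - a ^ 2 * th3 a b e y))) (fun y => by
    refine (((R.d0 y).mul ((T.sm.d1 y).sub ((T.sm.d3 y).const_mul (a ^ 2)))).sub
      (((hasDerivAt_hC ha he y).mul ((T.sm.d2 y).sub
        ((hasDerivAt_th3 ha hb he y).const_mul (a ^ 2)))).const_mul (a ^ 2))).congr_deriv ?_
    rw [← mul_add, ← th_ident ha]
    simp only [hD, Pi.sub_apply]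
    field_simp
    ring) ((x1.bdd_mul R.b0).sub ((x2.bdd_mul R.b1).const_mul _)) (y1.add y4)
  rw [integral_add y1.integrable y4.integrable, integral_add y2.integrable y3.integrable, g1] at g2
  rw [← add_eq_zero_iff_neg_eq.1 g2, ← integral_neg]
  refine integral_congr_ae (Eventually.of_forall fun y => ?_)
  simp only
  ring

end Pool.Agent.MP_8339a4_an
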