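import Pool.Agent.MP_8339a4_an.GP9
import Pool.Agent.MP_8339a4_an.GU

/-! G block: link between the virial quantity and the localised mass. -/

open MeasureTheory Filter Topology Set

namespace Pool.Agent.MP_8339a4_an

section
variable {a : ℝ} {e ey w u u1 : ℝ → ℝ}

theorem GP10_bdd (h0 : Bdd u) (h1 : Bdd u1) : Bdd (fun y => V2 y * u y + 2 * (V1 y * u1 y)) :=
  (expD_V2.bdd.mul h0).add ((expD_V1.bdd.mul h1).const_mul 2)

theorem GP10_pot (hw : SW w) (h0 : Bdd u) (h1 : Bdd u1) :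
    wn w (fun y => V2 y * u y + 2 * (V1 y * u1 y)) ≤ 115200 * wn w u + 28800 * wn w u1 := by
  refine wn_le2 hw (GP10_bdd h0 h1) h0 h1 fun y => ?_
  have k0 := sc_le_one y
  have k1 : V2 y ^ 2 ≤ 240 ^ 2 := sq_le_sq' (by linarith [(abs_le.1 (abs_V2_le_sc y)).1])
    (by linarith [(abs_le.1 (abs_V2_le_sc y)).2])
  have k2 : V1 y ^ 2 ≤ 60 ^ 2 := sq_le_sq' (by linarith [(abs_le.1 (abs_V1_le_sc y)).1])
    (by linarith [(abs_le.1 (abs_V1_le_sc y)).2])
  have k3 := mul_le_mul_of_nonneg_right k1 (sq_nonneg (u y))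
  have k4 := mul_le_mul_of_nonneg_right k2 (sq_nonneg (u1 y))
  nlinarith [sq_nonneg (V2 y * u y - 2 * (V1 y * u1 y))]

theorem GP10_res1 (ha : 0 < a) (he : Bdd e) :
    Res a (fun y => -a ^ 2 * (V2 y * X0 a e y + 2 * (V1 y * X1 a e y)))
      (fun y => X0 a (fun x => (1 - V x) * e x) y - (1 - V y) * X0 a e y)
      (fun y => X1 a (fun x => (1 - V x) * e x) y + V1 y * X0 a e y - (1 - V y) * X1 a e y) := by
  have q := res_X ha he
  have r := res_X ha (bdd_one_sub_V.mul he)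
  refine ⟨fun y => ?_, fun y => ?_, (GP10_bdd q.b0 q.b1).const_mul _,
    r.b0.sub (bdd_one_sub_V.mul q.b0),
    (r.b1.add (expD_V1.bdd.mul q.b0)).sub (bdd_one_sub_V.mul q.b1)⟩
  · refine ((r.d0 y).fun_sub (((hasDerivAt_V y).const_sub 1).fun_mul (q.d0 y))).congr_deriv ?_
    ring
  · refine (((r.d1 y).fun_add ((hasDerivAt_V1 y).fun_mul (q.d0 y))).fun_sub
      (((hasDerivAt_V y).const_sub 1).fun_mul (q.d1 y))).congr_deriv ?_
    field_simp
    ring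

theorem GP10_res2 (ha : 0 < a) (he : Bdd e) :
    Res a (fun y => (X0 a (fun x => (1 - V x) * e x) y - (1 - V y) * X0 a e y)
        - a ^ 2 * (V2 y * X0 a (X0 a e) y + 2 * (V1 y * X1 a (X0 a e) y)))
      (fun y => hB a e y - (-((X0 a (X0 a e) y - X0 a e y) / a ^ 2)
        + (1 - V y) * X0 a (X0 a e) y))
      (fun y => hC a e y - (-((X1 a (X0 a e) y - X1 a e y) / a ^ 2)
        + (-(V1 y * X0 a (X0 a e) y) + (1 - V y) * X1 a (X0 a e) y))) := by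
  have q := res_X ha he
  have p := res_X ha q.b0
  have h := res_hB ha he
  refine ⟨fun y => ?_, fun y => ?_,
    (GP10_res1 ha he).b0.sub ((GP10_bdd p.b0 p.b1).const_mul _),
    h.b0.sub (((p.b0.sub q.b0).div_const _).neg.add (bdd_one_sub_V.mul p.b0)),
    h.b1.sub (((p.b1.sub q.b1).div_const _).neg.add
      ((expD_V1.bdd.mul p.b0).neg.add (bdd_one_sub_V.mul p.b1)))⟩
  · refine ((h.d0 y).fun_sub ((((p.d0 y).fun_sub (q.d0 y)).div_const (a ^ 2)).fun_neg.fun_add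
      (((hasDerivAt_V y).const_sub 1).fun_mul (p.d0 y)))).congr_deriv ?_
    ring
  · refine ((h.d1 y).fun_sub ((((p.d1 y).fun_sub (q.d1 y)).div_const (a ^ 2)).fun_neg.fun_add
      (((hasDerivAt_V1 y).fun_mul (p.d0 y)).fun_neg.fun_add
        (((hasDerivAt_V y).const_sub 1).fun_mul (p.d1 y))))).congr_deriv ?_
    unfold hA
    field_simp
    ring

theorem GP10_en (ha : 0 < a) (ha8 : a ≤ 1 / 8) (hw : SW w) (he : IsH1 e ey) :
    wn w (X0 a e) ≤ 2 * wn w e ∧ wn w (X1 a e) ≤ 2 * wn w ey ∧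
    wn w (X0 a (X0 a e)) ≤ 4 * wn w e ∧ wn w (X1 a (X0 a e)) ≤ 4 * wn w ey ∧
    wn w (fun y => e y - X0 a (X0 a e) y) ≤ 12 * a ^ 2 * wn w ey := by
  have q := res_X ha he.bdd
  have p := res_X ha q.b0
  have hd : 0 < a ^ 2 := pow_pos ha 2
  have k1 := q.energy ha ha8 hw
  have k2 := q.energyH ha ha8 hw he
  have k3 := p.energy ha ha8 hw
  have k4 := p.energyD ha ha8 hw q.d0 q.b1
  have n1 := mul_nonneg hd.le (wn_nonneg hw (X1 a e))
  have n2 := mul_nonneg hd.le (wn_nonneg hw (X1 a (X0 a e)))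
  have n3 := wn_nonneg hw (fun y => e y - X0 a e y)
  have n4 := wn_nonneg hw (fun y => X0 a e y - X0 a (X0 a e) y)
  have k5 : wn w (X1 a e) ≤ 2 * wn w ey := le_of_mul_le_mul_left (by linarith) hd
  have k6 : wn w (X1 a (X0 a e)) ≤ 2 * wn w (X1 a e) := le_of_mul_le_mul_left (by linarith) hd
  have k7 := wn_le2 (A := 2) (B := 2) hw (he.bdd.sub p.b0) (he.bdd.sub q.b0) (q.b0.sub p.b0)
    (fun y => by nlinarith [sq_nonneg (e y - 2 * X0 a e y + X0 a (X0 a e) y)])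
  have k8 := mul_le_mul_of_nonneg_left k5 hd.le
  exact ⟨by linarith, k5, by linarith, by linarith, by linarith⟩

theorem GP10_C0 (y : ℝ) : |C0 y| ≤ 2 * ((1 + |y|) * Q y) := by
  have h0 := Q_pos y
  have h1 := Q_le y
  have h2 := mul_nonneg (abs_nonneg y) h0.le
  have h3 : Q y ^ 2 ≤ 2 := by nlinarith
  unfold C0
  rw [abs_of_pos (pow_pos h0 3)]
  nlinarith

theorem GP10_Q1 (y : ℝ) : |Q1 y| ≤ 1 * ((1 + |y|) * Q y) := by
  have h2 := mul_nonneg (abs_nonneg y) (Q_pos y).le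
  have h3 := abs_Q1_le y
  linarith

theorem GP10_int {p φ : ℝ → ℝ} (he : Bdd e) (hp : Bdd p) (hφ : ExpD φ)
    (h : (∫ y, e y * φ y) = 0) : (∫ y, p y * φ y) ^ 2 = (∫ y, (e y - p y) * φ y) ^ 2 := by
  simp only [sub_mul]
  rw [integral_sub (hφ.bdd_mul he).integrable (hφ.bdd_mul hp).integrable, h]
  ring

end

/-- Commutator estimate: `X X L e` is close to `L X X e`. -/
theorem comm_le : ∃ C : ℝ, 0 ≤ C ∧ ∀ (a : ℝ) (e ey w : ℝ → ℝ), 0 < a → a ≤ 1 / 8 → SW w →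
    IsH1 e ey → wn w (fun y => hB a e y - (-((X0 a (X0 a e) y - X0 a e y) / a ^ 2)
      + (1 - V y) * X0 a (X0 a e) y)) ≤ C * a ^ 4 * (wn w e + wn w ey) := by
  refine ⟨4000000, by norm_num, fun a e ey w ha ha8 hw he => ?_⟩
  have q := res_X ha he.bdd
  have p := res_X ha q.b0
  have r1 := GP10_res1 ha he.bdd
  have r2 := GP10_res2 ha he.bdd
  obtain ⟨k1, k2, k3, k4, -⟩ := GP10_en ha ha8 hw he
  have t1 := GP10_pot hw q.b0 q.b1
  have t2 := GP10_pot hw p.b0 p.b1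
  have e1 := r1.energy ha ha8 hw
  have e2 := r2.energy ha ha8 hw
  have f1 := wn_le1 (A := a ^ 4) hw r1.bf (GP10_bdd q.b0 q.b1) (fun y => le_of_eq (by ring))
  have f2 := wn_le2 (A := 2) (B := 2 * a ^ 4) hw r2.bf r1.b0 (GP10_bdd p.b0 p.b1) (fun y => by
    nlinarith [sq_nonneg ((X0 a (fun x => (1 - V x) * e x) y - (1 - V y) * X0 a e y)
      + a ^ 2 * (V2 y * X0 a (X0 a e) y + 2 * (V1 y * X1 a (X0 a e) y)))])
  have n1 := mul_nonneg (sq_nonneg a) (wn_nonneg hw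
    (fun y => X1 a (fun x => (1 - V x) * e x) y + V1 y * X0 a e y - (1 - V y) * X1 a e y))
  have n2 := mul_nonneg (sq_nonneg a) (wn_nonneg hw
    (fun y => hC a e y - (-((X1 a (X0 a e) y - X1 a e y) / a ^ 2)
      + (-(V1 y * X0 a (X0 a e) y) + (1 - V y) * X1 a (X0 a e) y))))
  have n3 := wn_nonneg hw e
  have n4 := wn_nonneg hw ey
  have h4 : 0 ≤ a ^ 4 := by positivity
  have s1 := mul_le_mul_of_nonneg_left (t1.trans
    (by linarith : _ ≤ 230400 * (wn w e + wn w ey))) h4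
  have s2 := mul_le_mul_of_nonneg_left (t2.trans
    (by linarith : _ ≤ 460800 * (wn w e + wn w ey))) h4
  have s3 := mul_nonneg h4 (add_nonneg n3 n4)
  linarith

theorem link (h1 : C1wStmt) {η : ℝ} (hη : 0 < η) : ∃ K b0 : ℝ, 0 < K ∧ 1 ≤ b0 ∧
    ∀ (a b : ℝ) (e ey : ℝ → ℝ), 0 < a → a ≤ 1 / 8 → b0 ≤ b → IsH1 e ey →
      (∫ y, e y * C0 y) = 0 → (∫ y, e y * Q1 y) = 0 →
      N0 e ≤ K * wn sc (hB a e) + (η + K * a ^ 2) * Nw b e ey := by
  obtain ⟨K, b0, hK, hb0, hs⟩ := static_link h1 (η := η / 8) (by positivity)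
  obtain ⟨C, hC, hc⟩ := comm_le
  have hKC := mul_nonneg hK hC
  refine ⟨4 * K + K * C + 38400 * K + 192, b0, by positivity, hb0,
    fun a b e ey ha ha8 hb he o1 o2 => ?_⟩
  have hb1 : 1 ≤ b := hb0.trans hb
  have hP := sw_Pb hb1
  have q := res_X ha he.bdd
  have p := res_X ha q.b0
  have hq := q.isH1 ha ha8 he.1
  have hp := p.isH1 ha ha8 hq.1
  have b2 : Bdd (fun y => (X0 a (X0 a e) y - X0 a e y) / a ^ 2) := (p.b0.sub q.b0).div_const _
  have s0 := hs b _ _ _ hb p.d0 p.d1 p.b1 b2 hp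
  obtain ⟨-, -, k3, k4, k5⟩ := GP10_en ha ha8 hP he
  have bd := he.bdd.sub p.b0
  have l1 := lin_le hb1 bd expD_C0.1 GP10_C0
  have l2 := lin_le hb1 bd expD_Q1.1 GP10_Q1
  rw [← GP10_int he.bdd p.b0 expD_C0 o1] at l1
  rw [← GP10_int he.bdd p.b0 expD_Q1 o2] at l2
  have c1 := hc a e ey sc ha ha8 sw_sc he
  have m1 := wn_mono sw_sc hP (sc_le_Pb hb1) he.bdd
  have m2 := wn_mono2 sw_sc hP (sc_le_Pb hb1) he.2.1
  have m3 := wn_mono sw_Q hP (Q_le_Pb hb1) bd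
  have t1 := wn_le2 (A := 2) (B := 2) sw_Q he.bdd p.b0 bd
    (fun y => by nlinarith [sq_nonneg (e y - 2 * X0 a (X0 a e) y)])
  have t2 := wn_le2 (A := 2) (B := 2) sw_sc (b2.neg.add (bdd_one_sub_V.mul p.b0))
    (res_hB ha he.bdd).b0 (GP10_res2 ha he.bdd).b0
    (fun y => by nlinarith [sq_nonneg (2 * hB a e y - (-((X0 a (X0 a e) y - X0 a e y) / a ^ 2)
      + (1 - V y) * X0 a (X0 a e) y))])
  rw [N0_eq, Nw_eq hb1 he]
  have n1 := wn_nonneg hP e
  have n2 := wn_nonneg hP ey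
  have n3 := wn_nonneg sw_sc (hB a e)
  have hd : 0 ≤ a ^ 2 := sq_nonneg a
  have hd' : a ^ 2 ≤ 1 / 64 := by nlinarith
  generalize wn (Pb b) e = E at *
  generalize wn (Pb b) ey = F at *
  generalize wn sc (hB a e) = H at *
  have n5 := mul_nonneg hd n1
  have n6 := mul_nonneg hd n2
  have u1 : C * a ^ 4 * (wn sc e + wn sc ey) ≤ C * (a ^ 2 * (E + F) / 4) := by
    rw [mul_assoc]
    refine mul_le_mul_of_nonneg_left ?_ hC
    have v1 := mul_le_mul_of_nonneg_left (by linarith : wn sc e + wn sc ey ≤ 16 * (E + F))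
      (by positivity : 0 ≤ a ^ 4)
    have v2 := mul_le_mul_of_nonneg_right hd' (add_nonneg n5 n6)
    nlinarith
  have u2 := mul_le_mul_of_nonneg_left (t2.trans (by linarith :
    _ ≤ 2 * H + 2 * (C * (a ^ 2 * (E + F) / 4)))) hK
  have u3 := mul_le_mul_of_nonneg_left ((add_le_add l1 l2).trans (by linarith :
    _ ≤ 19200 * (a ^ 2 * (E + F)))) hK
  have u4 := mul_le_mul_of_nonneg_left (add_le_add k3 k4) (by positivity : 0 ≤ η / 8)
  have u5 := mul_nonneg hKC n3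
  have u6 := mul_nonneg hK n3
  have u7 := mul_nonneg hK (add_nonneg n5 n6)
  linarith

end Pool.Agent.MP_8339a4_an
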