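import Pool.Agent.MP_8339a4_an.GV

/-! G block: the virial identity with cut-off. -/

open MeasureTheory Filter Topology Set

namespace Pool.Agent.MP_8339a4_an

theorem GP2_mul_le {t x M : ℝ} (k : ℝ) (ht : |t| ≤ k) (hx : |x| ≤ M) : t * x ≤ k * M :=
  (le_abs_self _).trans ((abs_mul t x).trans_le
    (mul_le_mul ht hx (abs_nonneg _) ((abs_nonneg _).trans ht)))

theorem GP2_c1 {b : ℝ} (hb : 1 ≤ b) (y : ℝ) : 6 * sc y - 3 * mw1 b y ≤ 1920 / b * Pb b y := by
  have hb0 : 0 < b := lt_of_lt_of_le one_pos hb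
  have h1 := sc_one_sub_chi_le hb y
  have h2 := GP2_mul_le (t := -tn y) 1 (by rw [abs_neg]; exact (abs_tn_lt y).le) (abs_chi1_le hb y)
  have h3 : 1 / b * chi b y ≤ 1 / b * (16 * Pb b y) :=
    mul_le_mul_of_nonneg_left (chi_le_Pb hb0 y) (by positivity)
  have h4 : 0 ≤ 1 / b * Pb b y := mul_nonneg (by positivity) (Pb_pos b y).le
  have e1 : 32 / b * Pb b y = 32 * (1 / b * Pb b y) := by ring
  have e2 : 1920 / b * Pb b y = 1920 * (1 / b * Pb b y) := by ring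
  have e3 : 2 / b * chi b y = 2 * (1 / b * chi b y) := by ring
  have e4 : 1 / b * (16 * Pb b y) = 16 * (1 / b * Pb b y) := by ring
  rw [e2, mw1]
  rw [e1] at h1
  rw [e3] at h2
  rw [e4] at h3
  linarith

theorem GP2_c2 {b : ℝ} (hb : 1 ≤ b) (y : ℝ) :
    mw3 b y + V1 y * mw b y - (1 - V y) * mw1 b y - 12 * sc y ^ 2 + 30 * tn y ^ 2 * sc y
      ≤ 1920 / b * Pb b y := by
  have hb0 : 0 < b := lt_of_lt_of_le one_pos hb
  have s0 := sc_pos y
  have s1 := sc_le_one y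
  have t1 := (abs_tn_lt y).le
  have h1 := sc_one_sub_chi_le hb y
  have h0 : 0 ≤ sc y * (1 - chi b y) := mul_nonneg s0.le (sub_nonneg.2 (chi_le_one b y))
  have h1' : (30 - 42 * sc y) * (sc y * (1 - chi b y)) ≤ 30 * (sc y * (1 - chi b y)) :=
    mul_le_mul_of_nonneg_right (by linarith) h0
  have h2 := GP2_mul_le (t := -(tn y * (1 + 9 * sc y))) 10 (by
    rw [abs_neg, abs_mul, abs_of_pos (by linarith : 0 < 1 + 9 * sc y)]
    nlinarith [abs_nonneg (tn y)]) (abs_chi1_le hb y)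
  have h2' := GP2_mul_le (t := 6 * sc y) 6 (by rw [abs_of_pos (by linarith)]; linarith)
    (abs_chi2_le hb y)
  have h2'' := GP2_mul_le (t := tn y) 1 t1 (abs_chi3_le hb y)
  have h3 : 1 / b * chi b y ≤ 1 / b * (16 * Pb b y) :=
    mul_le_mul_of_nonneg_left (chi_le_Pb hb0 y) (by positivity)
  have e0 : mw3 b y + V1 y * mw b y - (1 - V y) * mw1 b y - 12 * sc y ^ 2 + 30 * tn y ^ 2 * sc y
      = (30 - 42 * sc y) * (sc y * (1 - chi b y)) + -(tn y * (1 + 9 * sc y)) * chi1 b y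
        + 6 * sc y * chi2 b y + tn y * chi3 b y := by
    rw [mw3, V1, mw, mw1, V_eq]
    simp only [sc]
    ring
  have e1 : 32 / b * Pb b y = 32 * (1 / b * Pb b y) := by ring
  have e2 : 1920 / b * Pb b y = 1920 * (1 / b * Pb b y) := by ring
  have e3 : 2 / b * chi b y = 2 * (1 / b * chi b y) := by ring
  have e3' : 4 / b * chi b y = 4 * (1 / b * chi b y) := by ring
  have e3'' : 16 / b * chi b y = 16 * (1 / b * chi b y) := by ring
  have e4 : 1 / b * (16 * Pb b y) = 16 * (1 / b * Pb b y) := by ring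
  rw [e0, e2]
  rw [e1] at h1
  rw [e3] at h2
  rw [e3'] at h2'
  rw [e3''] at h2''
  rw [e4] at h3
  linarith

theorem virial : ∃ C : ℝ, 0 ≤ C ∧ ∀ (b : ℝ) (h h1 h2 : ℝ → ℝ), 1 ≤ b →
    (∀ y, HasDerivAt h (h1 y) y) → (∀ y, HasDerivAt h1 (h2 y) y) → Bdd h → Bdd h1 → Bdd h2 →
    2 * ∫ y, h1 y * (-(mw2 b y * h y + 2 * (mw1 b y * h1 y) + mw b y * h2 y)
        + (1 - V y) * (mw b y * h y))
      ≤ -6 * (∫ y, sc y * (h1 y + tn y * h y) ^ 2) + C / b * (wn (Pb b) h + wn (Pb b) h1) := by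
  refine ⟨1920, by norm_num, fun b h h1 h2 hb d0 d1 b0 b1 b2 => ?_⟩
  have hb0 : 0 < b := lt_of_lt_of_le one_pos hb
  have T := test_mw hb0
  have eI : ExpD fun y => h1 y * (-(mw2 b y * h y + 2 * (mw1 b y * h1 y) + mw b y * h2 y)
      + (1 - V y) * (mw b y * h y)) :=
    ((((T.e2.mul_bdd b0).add ((T.e1.mul_bdd b1).const_mul 2)).add (T.e0.mul_bdd b2)).neg.add
      ((T.e0.mul_bdd b0).bdd_mul bdd_one_sub_V)).bdd_mul b1
  have eS : ExpD fun y => sc y * (h1 y + tn y * h y) ^ 2 :=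
    expD_sc.mul_bdd ((b1.add (bdd_tn.mul b0)).pow 2)
  have eR : ExpD fun y => (6 * sc y - 3 * mw1 b y) * h1 y ^ 2 + (mw3 b y + V1 y * mw b y
      - (1 - V y) * mw1 b y - 12 * sc y ^ 2 + 30 * tn y ^ 2 * sc y) * h y ^ 2 :=
    (((expD_sc.const_mul 6).sub (T.e1.const_mul 3)).mul_bdd (b1.pow 2)).add
      (((((T.e3.add (T.e0.bdd_mul expD_V1.bdd)).sub (T.e1.bdd_mul bdd_one_sub_V)).sub
        ((expD_sc.pow 1).const_mul 12)).add
        (expD_sc.bdd_mul ((bdd_tn.pow 2).const_mul 30))).mul_bdd (b0.pow 2))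
  have eP : ExpD fun y => -(mw2 b y * h y ^ 2) - mw b y * h1 y ^ 2
      + (1 - V y) * mw b y * h y ^ 2 + 6 * (sc y * tn y * h y ^ 2) :=
    (((T.e2.mul_bdd (b0.pow 2)).neg.sub (T.e0.mul_bdd (b1.pow 2))).add
      ((T.e0.bdd_mul bdd_one_sub_V).mul_bdd (b0.pow 2))).add
      (((expD_sc.mul_bdd bdd_tn).mul_bdd (b0.pow 2)).const_mul 6)
  have key := int_deriv_zero (fun y => ?_) eP (((eI.const_mul 2).add (eS.const_mul 6)).sub eR)
  swap
  · have := ((((T.sm.d3 y).mul ((d0 y).pow 2)).neg.sub ((T.sm.d1 y).mul ((d1 y).pow 2))).add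
      (((((hasDerivAt_V y).const_sub 1).mul (T.sm.d1 y))).mul ((d0 y).pow 2))).add
      ((((hasDerivAt_sc y).mul (hasDerivAt_tn y)).mul ((d0 y).pow 2)).const_mul 6)
    refine HasDerivAt.congr_deriv this ?_
    simp only [Pi.pow_apply, Pi.mul_apply, Nat.cast_ofNat, Nat.add_one_sub_one, pow_one]
    ring
  have i1 := (eI.const_mul 2).integrable
  have i2 := (eS.const_mul 6).integrable
  have i12 : Integrable fun y => 2 * (h1 y * (-(mw2 b y * h y + 2 * (mw1 b y * h1 y)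
      + mw b y * h2 y) + (1 - V y) * (mw b y * h y))) + 6 * (sc y * (h1 y + tn y * h y) ^ 2) :=
    i1.add i2
  rw [integral_sub i12 eR.integrable, integral_add i1 i2, integral_const_mul,
    integral_const_mul] at key
  have j0 := (sw_Pb hb).int_sq b0
  have j1 := (sw_Pb hb).int_sq b1
  have hR := integral_mono eR.integrable ((j0.add j1).const_mul (1920 / b)) fun y => by
    have a1 := mul_le_mul_of_nonneg_right (GP2_c1 hb y) (sq_nonneg (h1 y))
    have a2 := mul_le_mul_of_nonneg_right (GP2_c2 hb y) (sq_nonneg (h y))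
    simp only [Pi.add_apply]
    linarith
  simp only [Pi.add_apply] at hR
  rw [integral_const_mul, integral_add j0 j1] at hR
  unfold wn
  linarith

end Pool.Agent.MP_8339a4_an
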