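import Pool.Agent.MP_8339a4_an.GU

/-! G block: the commutator error and the orthogonality defect. -/

open MeasureTheory Filter Topology Set

namespace Pool.Agent.MP_8339a4_an

theorem GP3_term {k v a m : ℝ} (x y : ℝ) (hk : |k| ≤ a) (hv : |v| ≤ m) :
    k * (v * (x * y)) ≤ a * m * (x ^ 2 + y ^ 2) := by
  have h1 : |x * y| ≤ x ^ 2 + y ^ 2 := by
    rw [abs_le]
    constructor <;> nlinarith [sq_nonneg (x + y), sq_nonneg (x - y)]
  have ha : 0 ≤ a := (abs_nonneg _).trans hk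
  have hm : 0 ≤ m := (abs_nonneg _).trans hv
  calc k * (v * (x * y)) ≤ |k * (v * (x * y))| := le_abs_self _
    _ = |k| * |v| * |x * y| := by rw [abs_mul, abs_mul, mul_assoc]
    _ ≤ a * m * (x ^ 2 + y ^ 2) :=
      mul_le_mul (mul_le_mul hk hv (abs_nonneg _) ha) h1 (abs_nonneg _) (mul_nonneg ha hm)

theorem GP3_pt {a : ℝ} (b : ℝ) (e : ℝ → ℝ) (ha : 0 < a) (ha8 : a ≤ 1 / 8) (h y : ℝ) :
    h * Er a b e y ≤ 72960 * a * (sc y * h ^ 2 + (sc y * kA a b e y ^ 2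
      + a ^ 2 * (sc y * kA1 a b e y ^ 2)) + (sc y * kB a b e y ^ 2
      + a ^ 2 * (sc y * kB1 a b e y ^ 2))) := by
  have hs := sc_pos y
  have v1 : |V1 y| ≤ 3840 * sc y := (abs_V1_le_sc y).trans (by linarith)
  have v2 : |V2 y| ≤ 3840 * sc y := (abs_V2_le_sc y).trans (by linarith)
  have v3 : |V3 y| ≤ 3840 * sc y := (abs_V3_le_sc y).trans (by linarith)
  have v4 : |V4 y| ≤ 3840 * sc y := abs_V4_le_sc y
  have a1 : a ≤ 1 := by linarith
  have p : ∀ n : ℕ, a ^ (n + 1) ≤ a := fun n => by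
    rw [pow_succ]
    exact mul_le_of_le_one_left ha.le (pow_le_one₀ ha.le a1)
  have k1 : |a| ≤ a := (abs_of_pos ha).le
  have k2 : |a ^ 2| ≤ a := by rw [abs_of_pos (by positivity)]; exact p 1
  have k2' : |-a ^ 2| ≤ a := by rw [abs_neg]; exact k2
  have k3 : |-a ^ 3| ≤ a := by rw [abs_neg, abs_of_pos (by positivity)]; exact p 2
  have k4 : |-a ^ 4| ≤ a := by rw [abs_neg, abs_of_pos (by positivity)]; exact p 3
  unfold Er
  generalize kA a b e y = A
  generalize kA1 a b e y = A1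
  generalize kB a b e y = B
  generalize kB1 a b e y = B1
  have t1 := GP3_term h A k2 v2
  have t2 := GP3_term h (a * A1) k1 v1
  have t3 := GP3_term h B k2' v2
  have t4 := GP3_term h B k4 v4
  have t5 := GP3_term h (a * B1) k3 v3
  have n1 : 0 ≤ a * sc y * A ^ 2 := by positivity
  have n2 : 0 ≤ a * sc y * (a * A1) ^ 2 := by positivity
  have n3 : 0 ≤ a * sc y * B ^ 2 := by positivity
  have n4 : 0 ≤ a * sc y * (a * B1) ^ 2 := by positivity
  linarith

theorem err_le : ∃ C : ℝ, 0 ≤ C ∧ ∀ (a b : ℝ) (e : ℝ → ℝ), 0 < a → a ≤ 1 / 8 → 0 < b → Bdd e →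
    ∫ y, hC a e y * Er a b e y ≤ C * a * (wn sc (hB a e) + wn sc (hC a e)) := by
  refine ⟨72960 * 6, by norm_num, fun a b e ha ha8 hb he => ?_⟩
  have rB := res_hB ha he
  have rA := res_kA ha hb he
  have rK := res_kB ha hb he
  have i0 := sw_sc.int_sq rB.b1
  have i1 := sw_sc.int_sq rA.b0
  have i2 := (sw_sc.int_sq rA.b1).const_mul (a ^ 2)
  have i3 := sw_sc.int_sq rK.b0
  have i4 := (sw_sc.int_sq rK.b1).const_mul (a ^ 2)
  have i12 : Integrable (fun y => sc y * kA a b e y ^ 2 + a ^ 2 * (sc y * kA1 a b e y ^ 2)) :=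
    i1.add i2
  have i34 : Integrable (fun y => sc y * kB a b e y ^ 2 + a ^ 2 * (sc y * kB1 a b e y ^ 2)) :=
    i3.add i4
  have i012 : Integrable (fun y => sc y * hC a e y ^ 2
      + (sc y * kA a b e y ^ 2 + a ^ 2 * (sc y * kA1 a b e y ^ 2))) := i0.add i12
  have h1 : ∫ y, hC a e y * Er a b e y ≤ ∫ y, 72960 * a * (sc y * hC a e y ^ 2
      + (sc y * kA a b e y ^ 2 + a ^ 2 * (sc y * kA1 a b e y ^ 2)) + (sc y * kB a b e y ^ 2
      + a ^ 2 * (sc y * kB1 a b e y ^ 2))) :=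
    integral_mono ((expD_Er ha hb he).bdd_mul rB.b1).integrable
      ((i012.add i34).const_mul _) fun y => GP3_pt b e ha ha8 _ y
  rw [integral_const_mul, integral_add i012 i34, integral_add i0 i12, integral_add i1 i2,
    integral_add i3 i4, integral_const_mul, integral_const_mul] at h1
  have h2 := wn_kA ha ha8 hb sw_sc he
  have h3 := wn_kB ha ha8 hb sw_sc he
  have h4 := wn_nonneg sw_sc (hC a e)
  unfold wn at h2 h3 h4 ⊢
  refine h1.trans ?_
  have h5 : (0 : ℝ) ≤ 72960 * a := by positivity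
  rw [show ∀ X : ℝ, 72960 * 6 * a * X = 72960 * a * (6 * X) from fun X => by ring]
  exact mul_le_mul_of_nonneg_left (by linarith) h5

theorem GP3_C2 (y : ℝ) : |C2 y| ≤ 16 * ((1 + |y|) * Q y) := by
  have h0 := Q_pos y
  have h1 := Q_le y
  have h2 := V_nonneg y
  have h3 := V_le y
  have h4 : |9 - V y| ≤ 9 := abs_le.2 ⟨by linarith, by linarith⟩
  have h5 : Q y ^ 2 ≤ 16 / 9 := by nlinarith
  have h6 : Q y ^ 3 ≤ 16 / 9 * Q y := by nlinarith
  have h7 : Q y ≤ (1 + |y|) * Q y := by nlinarith [abs_nonneg y]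
  unfold C2
  rw [abs_mul, abs_of_pos (pow_pos h0 3)]
  calc |9 - V y| * Q y ^ 3 ≤ 9 * (16 / 9 * Q y) :=
        mul_le_mul h4 h6 (pow_pos h0 3).le (by norm_num)
    _ ≤ _ := by linarith

theorem GP3_split {f : ℝ → ℝ} (hf : Bdd f) (d : ℝ) :
    ∫ y, f y * (C0 y - d * C2 y) = (∫ y, f y * C0 y) - d * ∫ y, f y * C2 y := by
  rw [← integral_const_mul, ← integral_sub (expD_C0.bdd_mul hf).integrable
    ((expD_C2.bdd_mul hf).integrable.const_mul d)]
  exact integral_congr_ae (Eventually.of_forall fun y => by ring)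

theorem orth_C0 : ∃ C : ℝ, 0 ≤ C ∧ ∀ (a b : ℝ) (e ey : ℝ → ℝ), 0 < a → a ≤ 1 / 8 → 1 ≤ b →
    IsH1 e ey → (∫ y, e y * C0 y) = 0 →
    (∫ y, hB a e y * C0 y) ^ 2 ≤ C * a ^ 2 * Nw b e ey := by
  refine ⟨9830400, by norm_num, fun a b e ey ha ha8 hb he h0 => ?_⟩
  have rB := res_hB ha he.bdd
  have g1 := rB.green ha.ne' test_C0.d2
  have g2 := dual_hA ha he.bdd test_C0.d2
  have g3 : ∫ y, e y * (-C2 y + (1 - V y) * C0 y) = -8 * ∫ y, e y * C0 y := by
    rw [← integral_const_mul]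
    refine integral_congr_ae (Eventually.of_forall fun y => ?_)
    have := L_C0 y
    simp only
    rw [show -C2 y + (1 - V y) * C0 y = -8 * C0 y by linarith]
    ring
  rw [GP3_split rB.b0] at g1
  rw [GP3_split rB.bf, g3, h0] at g2
  have l1 := lin_le hb rB.bf expD_C2.1 GP3_C2
  have l2 := lin_le hb rB.b0 expD_C2.1 GP3_C2
  have w1 := wn_hA ha ha8 (sw_Pb hb) he
  have w2 := wn_hB ha ha8 (sw_Pb hb) he
  have w3 : 0 ≤ a ^ 4 * wn (Pb b) (hC a e) :=
    mul_nonneg (by positivity) (wn_nonneg (sw_Pb hb) _)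
  rw [Nw_eq hb he]
  have e1 : ∫ y, hB a e y * C0 y
      = a ^ 2 * ((∫ y, hA a e y * C2 y) + ∫ y, hB a e y * C2 y) := by linarith
  rw [e1]
  generalize (∫ y, hA a e y * C2 y) = X at *
  generalize (∫ y, hB a e y * C2 y) = Y at *
  generalize wn (Pb b) e + wn (Pb b) ey = N at *
  generalize wn (Pb b) (hA a e) = wA at *
  generalize wn (Pb b) (hB a e) = wB at *
  have d0 : 0 < a ^ 2 := by positivity
  have s1 : (X + Y) ^ 2 ≤ 163840 * (wA + wB) := by nlinarith [sq_nonneg (X - Y)]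
  have s2 : a ^ 2 * (X + Y) ^ 2 ≤ 9830400 * N := by
    have := mul_le_mul_of_nonneg_left s1 d0.le
    linarith
  have s3 := mul_le_mul_of_nonneg_left s2 d0.le
  calc (a ^ 2 * (X + Y)) ^ 2 = a ^ 2 * (a ^ 2 * (X + Y) ^ 2) := by ring
    _ ≤ a ^ 2 * (9830400 * N) := s3
    _ = 9830400 * a ^ 2 * N := by ring

end Pool.Agent.MP_8339a4_an
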