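import Pool.Agent.MP_8339a4_an.GU

/-! G block: the terms linear in the parameters. -/

open MeasureTheory Filter Topology Set

namespace Pool.Agent.MP_8339a4_an

theorem int_LQ_th0 {a b : ℝ} {e : ℝ → ℝ} (ha : 0 < a) (hb : 0 < b) (he : Bdd e) :
    ∫ y, LQ y * th0 a b e y = -2 * ∫ y, Q y * kB a b e y := by
  have h := d2_LQ.selfadj (test_kB ha hb he).d2
  simp only [th0_eq]
  rw [h, ← integral_const_mul]
  refine integral_congr_ae (ae_of_all _ fun y => ?_)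
  simp only
  linear_combination kB a b e y * L_LQ y

theorem int_Q1_th0 {a b : ℝ} {e : ℝ → ℝ} (ha : 0 < a) (hb : 0 < b) (he : Bdd e) :
    ∫ y, Q1 y * th0 a b e y = 0 := by
  have h := test_Q1.d2.selfadj (test_kB ha hb he).d2
  simp only [th0_eq]
  rw [h]
  refine integral_eq_zero_of_ae (ae_of_all _ fun y => ?_)
  simp only [Pi.zero_apply]
  linear_combination kB a b e y * L_Q1 y

theorem GP4_split {u ψ ψ2 : ℝ → ℝ} (d : ℝ) (hu : Bdd u) (h0 : ExpD ψ) (h2 : ExpD ψ2) :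
    ∫ y, u y * (ψ y - d * ψ2 y) = (∫ y, u y * ψ y) - d * ∫ y, u y * ψ2 y := by
  rw [← integral_const_mul, ← integral_sub (h0.bdd_mul hu).integrable
    ((h2.bdd_mul hu).integrable.const_mul d)]
  refine integral_congr_ae (ae_of_all _ fun y => ?_)
  simp only
  ring

theorem GP4_id {a b : ℝ} {e : ℝ → ℝ} (ha : 0 < a) (hb : 0 < b) (he : Bdd e) :
    ∫ y, Q y * kB a b e y = (∫ y, hB a e y * (Q y * (mw b y - tn y)))
      - a ^ 2 * (∫ y, hA a e y * Q3 y) - a ^ 2 * (∫ y, hB a e y * Q3 y)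
      + a ^ 2 * (∫ y, kA a b e y * Q2 y) + a ^ 2 * ∫ y, kB a b e y * Q2 y := by
  have rB := res_kB ha hb he
  have rA := res_kA ha hb he
  have rh := res_hB ha he
  have h1 := rB.green ha.ne' test_Q.d2
  have h2 := rA.green ha.ne' test_Q.d2
  have h3 := rh.green ha.ne' test_Q1.d2
  have h4 := dual_hA ha he test_Q1.d2
  rw [GP4_split _ rB.b0 expD_Q expD_Q2] at h1
  rw [GP4_split _ rA.b0 expD_Q expD_Q2] at h2
  rw [GP4_split _ rh.b0 expD_Q1 expD_Q3] at h3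
  rw [GP4_split _ rh.bf expD_Q1 expD_Q3] at h4
  have h5 : ∫ y, e y * (-Q3 y + (1 - V y) * Q1 y) = 0 := by
    refine integral_eq_zero_of_ae (ae_of_all _ fun y => ?_)
    simp only [Pi.zero_apply]
    linear_combination e y * L_Q1 y
  have h6 : ∫ y, gg a b e y * Q y
      = (∫ y, hB a e y * (Q y * (mw b y - tn y))) - ∫ y, hB a e y * Q1 y := by
    rw [← integral_sub ((expD_Q.mul_bdd ((test_mw hb).e0.bdd.sub bdd_tn)).bdd_mul rh.b0).integrable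
      (expD_Q1.bdd_mul rh.b0).integrable]
    refine integral_congr_ae (ae_of_all _ fun y => ?_)
    simp only [gg, Q1]
    ring
  have h7 : ∫ y, Q y * kB a b e y = ∫ y, kB a b e y * Q y := by simp only [mul_comm]
  linarith

theorem GP4_env {φ : ℝ → ℝ} {C : ℝ} (hC : 0 ≤ C) (h : ∀ y, |φ y| ≤ C * Q y) (y : ℝ) :
    |φ y| ≤ C * ((1 + |y|) * Q y) := by
  refine (h y).trans (mul_le_mul_of_nonneg_left ?_ hC)
  nlinarith [abs_nonneg y, Q_pos y]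

theorem GP4_alg {d b N t1 t2 t3 t4 t5 wA wB kA kB : ℝ} (hd : 0 < d) (hb : 0 < b) (hN : 0 ≤ N)
    (h1 : t1 ^ 2 ≤ 320 * (2 / b) ^ 2 * wB) (h2 : t2 ^ 2 ≤ 320 * 14 ^ 2 * wA)
    (h3 : t3 ^ 2 ≤ 320 * 14 ^ 2 * wB) (h4 : t4 ^ 2 ≤ 320 * 2 ^ 2 * kA)
    (h5 : t5 ^ 2 ≤ 320 * 2 ^ 2 * kB) (w1 : d * wA ≤ 20 * N) (w2 : d * wB ≤ 40 * N)
    (w3 : kA ≤ 2 * wB) (w4 : kB ≤ 4 * wB) :
    (t1 - d * t2 - d * t3 + d * t4 + d * t5) ^ 2 ≤ 10 ^ 8 * (d + 1 / (d * b ^ 2)) * N := by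
  have s0 : (t1 - d * t2 - d * t3 + d * t4 + d * t5) ^ 2
      ≤ 5 * (t1 ^ 2 + d ^ 2 * (t2 ^ 2 + t3 ^ 2 + t4 ^ 2 + t5 ^ 2)) := by
    nlinarith [sq_nonneg (t1 + d * t2), sq_nonneg (t1 + d * t3), sq_nonneg (t1 - d * t4),
      sq_nonneg (t1 - d * t5), sq_nonneg (d * t2 - d * t3), sq_nonneg (d * t2 + d * t4),
      sq_nonneg (d * t2 + d * t5), sq_nonneg (d * t3 + d * t4), sq_nonneg (d * t3 + d * t5),
      sq_nonneg (d * t4 - d * t5)]
  have s1 : t1 ^ 2 ≤ 51200 * (1 / (d * b ^ 2) * N) := by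
    have e1 : 320 * (2 / b) ^ 2 * wB = 1280 * (1 / (d * b ^ 2)) * (d * wB) := by
      field_simp
      ring
    have e2 := mul_le_mul_of_nonneg_left w2 (by positivity : 0 ≤ 1280 * (1 / (d * b ^ 2)))
    linarith
  have s2 : d * (t2 ^ 2 + t3 ^ 2 + t4 ^ 2 + t5 ^ 2) ≤ 5000000 * N := by
    have e1 : t2 ^ 2 + t3 ^ 2 + t4 ^ 2 + t5 ^ 2 ≤ 62720 * wA + 70400 * wB := by linarith
    have e2 := mul_le_mul_of_nonneg_left e1 hd.le
    linarith
  have s3 := mul_le_mul_of_nonneg_left s2 hd.le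
  have s4 : 0 ≤ d * N := by positivity
  have s5 : 0 ≤ 1 / (d * b ^ 2) * N := by positivity
  nlinarith

theorem QkB_le : ∃ C : ℝ, 0 ≤ C ∧ ∀ (a b : ℝ) (e ey : ℝ → ℝ), 0 < a → a ≤ 1 / 8 → 1 ≤ b →
    IsH1 e ey →
    (∫ y, Q y * kB a b e y) ^ 2 ≤ C * (a ^ 2 + 1 / (a ^ 2 * b ^ 2)) * Nw b e ey := by
  refine ⟨10 ^ 8, by norm_num, fun a b e ey ha ha8 hb he => ?_⟩
  have hb0 : 0 < b := by linarith
  have hw := sw_Pb hb
  have rB := res_kB ha hb0 he.bdd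
  have rA := res_kA ha hb0 he.bdd
  have rh := res_hB ha he.bdd
  have h1 := lin_le (C := 2 / b) hb rh.b0
    (expD_Q.mul_bdd ((test_mw hb0).e0.bdd.sub bdd_tn)).1 fun y => by
      have a1 := abs_mw_sub_tn_le hb0 y
      have a2 := Q_pos y
      rw [abs_mul, abs_of_pos a2]
      have a3 : 2 * |y| / b ≤ 2 / b * (1 + |y|) := by
        have : 0 ≤ 2 / b := by positivity
        have e : 2 * |y| / b = 2 / b * |y| := by ring
        rw [e]
        linarith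
      calc Q y * |mw b y - tn y| ≤ Q y * (2 / b * (1 + |y|)) :=
            mul_le_mul_of_nonneg_left (a1.trans a3) a2.le
        _ = 2 / b * ((1 + |y|) * Q y) := by ring
  have h2 := lin_le hb rh.bf expD_Q3.1 (GP4_env (by norm_num) abs_Q3_le)
  have h3 := lin_le hb rh.b0 expD_Q3.1 (GP4_env (by norm_num) abs_Q3_le)
  have h4 := lin_le hb rA.b0 expD_Q2.1 (GP4_env (by norm_num) abs_Q2_le)
  have h5 := lin_le hb rB.b0 expD_Q2.1 (GP4_env (by norm_num) abs_Q2_le)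
  have w1 := wn_hA ha ha8 hw he
  have w2 := wn_hB ha ha8 hw he
  have w3 := wn_kA ha ha8 hb0 hw he.bdd
  have w4 := wn_kB ha ha8 hb0 hw he.bdd
  have n2 := mul_nonneg (pow_pos ha 4).le (wn_nonneg hw (hC a e))
  have n3 := mul_nonneg (pow_pos ha 2).le (wn_nonneg hw (kA1 a b e))
  have n4 := mul_nonneg (pow_pos ha 2).le (wn_nonneg hw (kB1 a b e))
  rw [GP4_id ha hb0 he.bdd, Nw_eq hb he]
  exact GP4_alg (pow_pos ha 2) hb0 (add_nonneg (wn_nonneg hw e) (wn_nonneg hw ey)) h1 h2 h3 h4 h5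
    w1 (by linarith) (by linarith) (by linarith)

end Pool.Agent.MP_8339a4_an
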