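import Pool.Agent.MP_8339a4_an.GT

/-! G block: pointwise bounds for the test function. -/

open MeasureTheory Filter Topology Set

namespace Pool.Agent.MP_8339a4_an

/-- Exponential bound with rate `σ / (2 b)`, uniform in the data. -/
def GP5_B (σ : ℝ) (F : ℝ → (ℝ → ℝ) → ℝ → ℝ) : Prop :=
  ∃ C : ℝ, 0 ≤ C ∧ ∀ (b A : ℝ) (e : ℝ → ℝ), 1 ≤ b → Bdd e →
    (∀ y, |e y| ≤ A * Real.exp (1 / (2 * b) * |y|)) →
    ∀ y, |F b e y| ≤ C * A * Real.exp (σ / (2 * b) * |y|)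

variable {σ a : ℝ} {F G : ℝ → (ℝ → ℝ) → ℝ → ℝ}

theorem GP5_id : GP5_B 1 fun _ e y => e y :=
  ⟨1, zero_le_one, fun b A e _ _ h y => by rw [one_mul]; exact h y⟩

theorem GP5_B.add (h : GP5_B σ F) (H : GP5_B σ G) : GP5_B σ fun b e y => F b e y + G b e y := by
  obtain ⟨C, hC, h⟩ := h
  obtain ⟨D, hD, H⟩ := H
  refine ⟨C + D, add_nonneg hC hD, fun b A e hb he hA y => (abs_add_le _ _).trans ?_⟩
  rw [add_mul, add_mul]
  exact add_le_add (h b A e hb he hA y) (H b A e hb he hA y)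

theorem GP5_B.mul (h : GP5_B σ F) {φ : ℝ → ℝ} (H : Bdd φ) :
    GP5_B σ fun b e y => φ y * F b e y := by
  obtain ⟨C, hC, h⟩ := h
  obtain ⟨-, D, H⟩ := H
  have hD : 0 ≤ D := (abs_nonneg _).trans (H 0)
  refine ⟨D * C, mul_nonneg hD hC, fun b A e hb he hA y => ?_⟩
  rw [abs_mul, mul_assoc, mul_assoc, ← mul_assoc C]
  exact mul_le_mul (H y) (h b A e hb he hA y) (abs_nonneg _) hD

theorem GP5_B.cm (h : GP5_B σ F) (c : ℝ) : GP5_B σ fun b e y => c * F b e y :=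
  h.mul (Bdd.const c)

theorem GP5_B.sub (h : GP5_B σ F) (H : GP5_B σ G) : GP5_B σ fun b e y => F b e y - G b e y := by
  simpa only [neg_one_mul, ← sub_eq_add_neg] using h.add (H.cm (-1))

theorem GP5_B.div (h : GP5_B σ F) (c : ℝ) : GP5_B σ fun b e y => F b e y / c := by
  simpa only [← div_eq_inv_mul] using h.cm c⁻¹

theorem GP5_rate (ha : 0 < a) (ha8 : a ≤ 1 / 8) (hσ : |σ| ≤ 3) {b : ℝ} (hb : 1 ≤ b) :
    |σ / (2 * b)| * a ≤ 1 / 2 := by
  have h : |σ / (2 * b)| ≤ 3 := by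
    rw [abs_div, abs_of_pos (by linarith : 0 < 2 * b), div_le_iff₀ (by linarith)]
    linarith
  nlinarith [abs_nonneg (σ / (2 * b))]

theorem GP5_B.x0 (h : GP5_B σ F) (ha : 0 < a) (ha8 : a ≤ 1 / 8) (hσ : |σ| ≤ 3)
    (hc : ∀ b e, 0 < b → Bdd e → Continuous (F b e)) :
    GP5_B σ fun b e y => X0 a (F b e) y := by
  obtain ⟨C, hC, h⟩ := h
  refine ⟨2 * C, by positivity, fun b A e hb he hA y => ?_⟩
  rw [mul_assoc 2 C]
  exact abs_X0_le ha (hc b e (by linarith) he) (GP5_rate ha ha8 hσ hb) (h b A e hb he hA) y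

theorem GP5_B.x1 (h : GP5_B σ F) (ha : 0 < a) (ha8 : a ≤ 1 / 8) (hσ : |σ| ≤ 3)
    (hc : ∀ b e, 0 < b → Bdd e → Continuous (F b e)) :
    GP5_B σ fun b e y => X1 a (F b e) y := by
  obtain ⟨C, hC, h⟩ := h
  refine ⟨2 * C / a, by positivity, fun b A e hb he hA y => ?_⟩
  rw [show 2 * C / a * A = 2 * (C * A) / a by ring]
  exact abs_X1_le ha (hc b e (by linarith) he) (GP5_rate ha ha8 hσ hb) (h b A e hb he hA) y

theorem GP5_B.wt (h : GP5_B 1 F) {m : ℝ → ℝ → ℝ} (H : ∀ b y, 1 ≤ b → |m b y| ≤ 4 * chi b y) :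
    GP5_B (-3) fun b e y => m b y * F b e y := by
  obtain ⟨C, hC, h⟩ := h
  refine ⟨16 * C, by positivity, fun b A e hb he hA y => ?_⟩
  have h1 : |m b y| ≤ 16 * Real.exp (-(2 / b) * |y|) := by
    have := chi_le_exp (by linarith : 0 < b) y
    linarith [H b y hb]
  have h2 : -3 / (2 * b) * |y| = -(2 / b) * |y| + 1 / (2 * b) * |y| := by
    field_simp
    ring
  rw [abs_mul, h2, Real.exp_add]
  refine (mul_le_mul h1 (h b A e hb he hA y) (abs_nonneg _) (by positivity)).trans_eq ?_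
  ring

theorem theta_exp {a : ℝ} (ha : 0 < a) (ha8 : a ≤ 1 / 8) : ∃ C : ℝ, 0 ≤ C ∧
    ∀ (b A : ℝ) (e : ℝ → ℝ), 1 ≤ b → Bdd e →
      (∀ y, |e y| ≤ A * Real.exp (1 / (2 * b) * |y|)) → ∀ y,
        |th0 a b e y| ≤ C * A * Real.exp (-(3 / (2 * b)) * |y|) ∧
        |th1 a b e y| ≤ C * A * Real.exp (-(3 / (2 * b)) * |y|) ∧
        |th3 a b e y| ≤ C * A * Real.exp (-(3 / (2 * b)) * |y|) := by
  have s1 : |(1 : ℝ)| ≤ 3 := by norm_num
  have s3 : |(-3 : ℝ)| ≤ 3 := by norm_num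
  have v0 := bdd_one_sub_V
  have v1 : Bdd V1 := expD_V1.bdd
  have v2 := expD_V2.bdd
  have v3 := expD_V3.bdd
  have a0 : GP5_B 1 fun _ e y => hA a e y :=
    ((GP5_id.sub (GP5_id.x0 ha ha8 s1 fun _ _ _ h => h.1)).div _).add
      ((GP5_id.mul v0).x0 ha ha8 s1 fun _ _ _ h => (v0.mul h).1)
  have b0 : GP5_B 1 fun _ e y => hB a e y := a0.x0 ha ha8 s1 fun _ _ _ h => (bdd_hA ha h).1
  have b1 : GP5_B 1 fun _ e y => hC a e y := a0.x1 ha ha8 s1 fun _ _ _ h => (bdd_hA ha h).1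
  have m0 : ∀ b y, 1 ≤ b → |mw b y| ≤ 4 * chi b y := fun b y _ => by
    linarith [abs_mw_le_chi b y, chi_pos b y]
  have g0 : GP5_B (-3) fun b e y => gg a b e y := b0.wt m0
  have g1 : GP5_B (-3) fun b e y => gg1 a b e y :=
    (b0.wt fun b y hb => abs_mw1_le_chi hb y).add (b1.wt m0)
  have k0 : GP5_B (-3) fun b e y => kA a b e y :=
    g0.x0 ha ha8 s3 fun _ _ hb h => (d2_gg ha hb h).e0.1
  have k1 : GP5_B (-3) fun b e y => kA1 a b e y :=
    g0.x1 ha ha8 s3 fun _ _ hb h => (d2_gg ha hb h).e0.1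
  have k3 : GP5_B (-3) fun b e y => kA3 a b e y := (k1.sub g1).div _
  have l0 : GP5_B (-3) fun b e y => kB a b e y :=
    k0.x0 ha ha8 s3 fun _ _ hb h => (test_kA ha hb h).e0.1
  have l1 : GP5_B (-3) fun b e y => kB1 a b e y :=
    k0.x1 ha ha8 s3 fun _ _ hb h => (test_kA ha hb h).e0.1
  have l2 : GP5_B (-3) fun b e y => kB2 a b e y := (l0.sub k0).div _
  have l3 : GP5_B (-3) fun b e y => kB3 a b e y := (l1.sub k1).div _
  obtain ⟨C0, c0, t0⟩ : GP5_B (-3) fun b e y => th0 a b e y := ((k0.sub l0).div _).add (l0.mul v0)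
  obtain ⟨C1, c1, t1⟩ : GP5_B (-3) fun b e y => th1 a b e y :=
    (((k1.sub l1).div _).sub (l0.mul v1)).add (l1.mul v0)
  obtain ⟨C3, c3, t3⟩ : GP5_B (-3) fun b e y => th3 a b e y :=
    (((((k3.sub l3).div _).sub (l0.mul v3)).sub ((l1.mul v2).cm 3)).sub ((l2.mul v1).cm 3)).add
      (l3.mul v0)
  refine ⟨C0 + C1 + C3, by positivity, fun b A e hb he hA y => ?_⟩
  have hA0 : 0 ≤ A := by simpa using (abs_nonneg _).trans (hA 0)
  have key : ∀ C, C ≤ C0 + C1 + C3 → C * A * Real.exp (-3 / (2 * b) * |y|) ≤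
      (C0 + C1 + C3) * A * Real.exp (-(3 / (2 * b)) * |y|) := fun C hC => by
    rw [neg_div]
    gcongr
  exact ⟨(t0 b A e hb he hA y).trans (key _ (by linarith)),
    (t1 b A e hb he hA y).trans (key _ (by linarith)),
    (t3 b A e hb he hA y).trans (key _ (by linarith))⟩

end Pool.Agent.MP_8339a4_an
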