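import Pool.Agent.MP_8339a4_an.GP5

/-! G block: the small terms. -/

open MeasureTheory Filter Topology Set

namespace Pool.Agent.MP_8339a4_an

theorem GP6_mul {x y A B : ℝ} (hx : |x| ≤ A) (hy : |y| ≤ B) : |x * y| ≤ A * B := by
  rw [abs_mul]
  exact mul_le_mul hx hy (abs_nonneg y) ((abs_nonneg x).trans hx)

theorem GP6_env {c : ℝ} (hc : 0 < c) :
    Integrable fun y : ℝ => (1 + |y|) * Real.exp (-(c * |y|)) := by
  have h := ExpD.exp_neg_abs hc
  refine (h.add h.id_mul.abs).integrable.congr (Eventually.of_forall fun y => ?_)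
  simp only
  rw [abs_mul, abs_of_pos (Real.exp_pos _)]
  ring

theorem GP6_int {c K : ℝ} (hc : 0 < c) {F : ℝ → ℝ}
    (h : ∀ y, |F y| ≤ K * ((1 + |y|) * Real.exp (-(c * |y|)))) :
    |∫ y, F y| ≤ K * ∫ y : ℝ, (1 + |y|) * Real.exp (-(c * |y|)) := by
  rw [← integral_const_mul]
  exact norm_integral_le_of_norm_le (f := F) ((GP6_env hc).const_mul K) (Eventually.of_forall h)

theorem GP6_dil {t0 t1 T : ℝ} (y : ℝ) (h0 : |t0| ≤ T) (h1 : |t1| ≤ T) :
    |t0 / 2 + y * t1| ≤ (1 + |y|) * T := by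
  have a1 := GP6_mul (le_refl |y|) h1
  have a2 := abs_add_le (t0 / 2) (y * t1)
  rw [abs_div, abs_two] at a2
  linarith [abs_nonneg t0]

theorem GP6_small {n e t0 t1 σ X T : ℝ} (y β γ : ℝ) (hn : |n| ≤ 50 * e ^ 2) (he : |e| ≤ σ)
    (hX : |e| ≤ X) (h0 : |t0| ≤ T) (h1 : |t1| ≤ T) :
    |n * t1 + β * (e * (t0 / 2 + y * t1)) - γ * (e * t1)| ≤
      50 * (|β| + |γ| + σ) * (X * T) * (1 + |y|) := by
  have hσ := (abs_nonneg e).trans he
  have hXT := mul_nonneg ((abs_nonneg e).trans hX) ((abs_nonneg t0).trans h0)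
  have a0 : e ^ 2 ≤ σ * X := by
    rw [sq]
    exact (le_abs_self _).trans (GP6_mul he hX)
  have a1 := GP6_mul (hn.trans (show 50 * e ^ 2 ≤ 50 * (σ * X) by linarith)) h1
  have a2 := GP6_mul (le_refl |β|) (GP6_mul hX (GP6_dil y h0 h1))
  have a3 := GP6_mul (le_refl |γ|) (GP6_mul hX h1)
  have b1 := abs_sub (n * t1 + β * (e * (t0 / 2 + y * t1))) (γ * (e * t1))
  have b2 := abs_add_le (n * t1) (β * (e * (t0 / 2 + y * t1)))
  have c1 := mul_nonneg (mul_nonneg hσ hXT) (abs_nonneg y)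
  have c2 := mul_nonneg (abs_nonneg β) hXT
  have c3 := mul_nonneg c2 (abs_nonneg y)
  have c4 := mul_nonneg (abs_nonneg γ) hXT
  have c5 := mul_nonneg c4 (abs_nonneg y)
  nlinarith

theorem GP6_rough {e t0 t1 t3 T β γ : ℝ} (y : ℝ) (he : |e| ≤ 1) (hβ : |β| ≤ 1) (hγ : |γ| ≤ 1)
    (h0 : |t0| ≤ T) (h1 : |t1| ≤ T) (h3 : |t3| ≤ T) :
    |e * (t3 - t1 + V y * t1) + NN y e * t1 - β * (LQ y * t0) + γ * (Q1 y * t0)
      + β * (e * (t0 / 2 + y * t1)) - γ * (e * t1)| ≤ 80 * T * (1 + |y|) := by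
  have hT := (abs_nonneg t0).trans h0
  have hy := abs_nonneg y
  have hV : |V y| ≤ 15 := by
    rw [abs_of_nonneg (V_nonneg y)]
    exact V_le y
  have hN : |NN y e| ≤ 50 := by
    have := abs_NN_le y he
    have h2 : e ^ 2 ≤ 1 := (sq_le_one_iff_abs_le_one e).2 he
    linarith
  have hL : |LQ y| ≤ (1 + |y|) * (4 / 3) :=
    (abs_LQ_le y).trans (mul_le_mul_of_nonneg_left (Q_le y) (by linarith))
  have a0 : |t3 - t1 + V y * t1| ≤ 17 * T := by
    have := GP6_mul hV h1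
    have := abs_add_le (t3 - t1) (V y * t1)
    have := abs_sub t3 t1
    linarith
  have a1 := abs_le.1 (GP6_mul he a0)
  have a2 := abs_le.1 (GP6_mul hN h1)
  have a3 := abs_le.1 (GP6_mul hβ (GP6_mul hL h0))
  have a4 := abs_le.1 (GP6_mul hγ (GP6_mul ((abs_Q1_le y).trans (Q_le y)) h0))
  have a5 := abs_le.1 (GP6_mul hβ (GP6_mul he (GP6_dil y h0 h1)))
  have a6 := abs_le.1 (GP6_mul hγ (GP6_mul he h1))
  have c1 := mul_nonneg hT hy
  rw [abs_le]
  constructor <;> nlinarith [a1.1, a1.2, a2.1, a2.2, a3.1, a3.2, a4.1, a4.2, a5.1, a5.2, a6.1, a6.2]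

theorem small_le {a b : ℝ} (ha : 0 < a) (ha8 : a ≤ 1 / 8) (hb : 1 ≤ b) : ∃ C : ℝ, 0 ≤ C ∧
    ∀ (e ey : ℝ → ℝ) (β γ σ : ℝ), IsH1 e ey → (∀ y, |e y| ≤ σ) → σ ≤ 1 →
      |∫ y, (NN y (e y) * th1 a b e y + β * (e y * (th0 a b e y / 2 + y * th1 a b e y))
        - γ * (e y * th1 a b e y))| ≤ C * (|β| + |γ| + σ) * Nw b e ey := by
  obtain ⟨C, hC, H⟩ := theta_exp ha ha8
  have hc : 0 < 1 / b := by positivity
  have hI : 0 ≤ ∫ y : ℝ, (1 + |y|) * Real.exp (-(1 / b * |y|)) :=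
    integral_nonneg fun y => by positivity
  refine ⟨400 * C * ∫ y : ℝ, (1 + |y|) * Real.exp (-(1 / b * |y|)), by positivity, ?_⟩
  intro e ey β γ σ he hσ h1
  have hN : 0 ≤ Nw b e ey := integral_nonneg fun y => mul_nonneg (P1_pos _).le (by positivity)
  have hA := abs_le_sqrt_Nw hb he
  have hsq : Real.sqrt (8 * Nw b e ey) * Real.sqrt (8 * Nw b e ey) = 8 * Nw b e ey :=
    Real.mul_self_sqrt (by positivity)
  have key := GP6_int (K := 400 * C * (|β| + |γ| + σ) * Nw b e ey) hc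
    (F := fun y => NN y (e y) * th1 a b e y + β * (e y * (th0 a b e y / 2 + y * th1 a b e y))
      - γ * (e y * th1 a b e y)) fun y => by
      obtain ⟨h0, h1', -⟩ := H b _ e hb he.bdd hA y
      refine (GP6_small y β γ (abs_NN_le y ((hσ y).trans h1)) (hσ y) (hA y) h0 h1').trans
        (le_of_eq ?_)
      have e1 : Real.exp (-(1 / b * |y|)) =
          Real.exp (1 / (2 * b) * |y|) * Real.exp (-(3 / (2 * b)) * |y|) := by
        rw [← Real.exp_add]
        congr 1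
        field_simp
        ring
      rw [e1]
      linear_combination (50 * (|β| + |γ| + σ) * C * (1 + |y|) * Real.exp (1 / (2 * b) * |y|) *
        Real.exp (-(3 / (2 * b)) * |y|)) * hsq
  refine key.trans (le_of_eq ?_)
  ring

theorem rough_le {a b : ℝ} (ha : 0 < a) (ha8 : a ≤ 1 / 8) (hb : 1 ≤ b) : ∃ C : ℝ, 0 ≤ C ∧
    ∀ (e f : ℝ → ℝ) (β γ σ : ℝ), Bdd f → (∀ y, |e y| ≤ 1) → |β| ≤ 1 → |γ| ≤ 1 →
      (∀ y, |f y| ≤ σ) → |rhs0 β γ e (th0 a b f) (th1 a b f) (th3 a b f)| ≤ C * σ := by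
  obtain ⟨C, hC, H⟩ := theta_exp ha ha8
  have hc : 0 < 3 / (2 * b) := by positivity
  have hI : 0 ≤ ∫ y : ℝ, (1 + |y|) * Real.exp (-(3 / (2 * b) * |y|)) :=
    integral_nonneg fun y => by positivity
  refine ⟨80 * C * ∫ y : ℝ, (1 + |y|) * Real.exp (-(3 / (2 * b) * |y|)), by positivity, ?_⟩
  intro e f β γ σ hf he hβ hγ hσ
  have hA : ∀ y, |f y| ≤ σ * Real.exp (1 / (2 * b) * |y|) := fun y =>
    (hσ y).trans (le_mul_of_one_le_right ((abs_nonneg _).trans (hσ y))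
      (Real.one_le_exp (by positivity)))
  refine (GP6_int (K := 80 * C * σ) hc fun y => ?_).trans (le_of_eq (by ring))
  obtain ⟨h0, h1, h3⟩ := H b σ f hb hf hA y
  refine (GP6_rough y (he y) hβ hγ h0 h1 h3).trans (le_of_eq ?_)
  rw [neg_mul]
  ring

/-- Splitting of the right-hand side. -/
theorem rhs0_split {β γ : ℝ} {e θ θ1 θ2 θ3 : ℝ → ℝ} (he : Bdd e) (h : Test θ θ1 θ2 θ3) :
    rhs0 β γ e θ θ1 θ3 = (∫ y, e y * (θ3 y - θ1 y + V y * θ1 y))
      + (∫ y, (NN y (e y) * θ1 y + β * (e y * (θ y / 2 + y * θ1 y)) - γ * (e y * θ1 y)))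
      - β * (∫ y, LQ y * θ y) + γ * ∫ y, Q1 y * θ y := by
  have bQ := expD_Q.bdd
  have bN : Bdd fun y => NN y (e y) :=
    (((bQ.add he).pow 5).sub (bQ.pow 5)).sub (((bQ.pow 4).const_mul 5).mul he)
  have i1 : Integrable fun y => e y * (θ3 y - θ1 y + V y * θ1 y) :=
    (((h.e3.sub h.e1).add (h.e1.bdd_mul expD_V.bdd)).bdd_mul he).integrable
  have i2 : Integrable fun y =>
      NN y (e y) * θ1 y + β * (e y * (θ y / 2 + y * θ1 y)) - γ * (e y * θ1 y) :=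
    (((h.e1.bdd_mul bN).add ((((h.e0.div_const 2).add h.e1.id_mul).bdd_mul he).const_mul β)).sub
      ((h.e1.bdd_mul he).const_mul γ)).integrable
  have i3 : Integrable fun y => β * (LQ y * θ y) :=
    ((h.e0.bdd_mul expD_LQ.bdd).const_mul β).integrable
  have i4 : Integrable fun y => γ * (Q1 y * θ y) :=
    ((h.e0.bdd_mul expD_Q1.bdd).const_mul γ).integrable
  have i12 : Integrable fun y => e y * (θ3 y - θ1 y + V y * θ1 y) +
      (NN y (e y) * θ1 y + β * (e y * (θ y / 2 + y * θ1 y)) - γ * (e y * θ1 y)) := i1.add i2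
  have i123 : Integrable fun y => e y * (θ3 y - θ1 y + V y * θ1 y) +
      (NN y (e y) * θ1 y + β * (e y * (θ y / 2 + y * θ1 y)) - γ * (e y * θ1 y))
      - β * (LQ y * θ y) := i12.sub i3
  rw [← integral_const_mul, ← integral_const_mul, ← integral_add i1 i2, ← integral_sub i12 i3,
    ← integral_add i123 i4]
  unfold rhs0
  refine integral_congr_ae (Eventually.of_forall fun y => ?_)
  simp only
  ring

end Pool.Agent.MP_8339a4_an
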