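import Pool.Agent.MP_8339a4_an.GP6
import Pool.Agent.MP_8339a4_an.GU

/-! G block: the time derivative of the virial functional. -/

open MeasureTheory Filter Topology Set

namespace Pool.Agent.MP_8339a4_an

theorem GP8_symm {a b : ℝ} {u v : ℝ → ℝ} (ha : 0 < a) (hb : 0 < b) (hu : Bdd u) (hv : Bdd v) :
    ∫ y, v y * th0 a b u y = ∫ y, u y * th0 a b v y := by
  rw [← bilin ha hb hu hv, ← bilin ha hb hv hu]
  simp only [mul_comm (hB a u _)]

theorem GP8_sub {a b : ℝ} {u v w : ℝ → ℝ} (ha : 0 < a) (hb : 0 < b) (hu : Bdd u) (hv : Bdd v)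
    (hw : Bdd w) : ∫ y, (u y - v y) * th0 a b w y
      = (∫ y, u y * th0 a b w y) - ∫ y, v y * th0 a b w y := by
  have e0 := (test_th ha hb hw).e0
  rw [← integral_sub (e0.bdd_mul hu).integrable (e0.bdd_mul hv).integrable]
  simp only [sub_mul]

theorem GP8_expand {a b : ℝ} {u v : ℝ → ℝ} (ha : 0 < a) (hb : 0 < b) (hu : Bdd u) (hv : Bdd v) :
    GG a b u = 2 * (∫ y, u y * th0 a b v y) - (∫ y, v y * th0 a b v y)
      + ∫ y, (u y - v y) * th0 a b (fun x => u x - v x) y := by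
  have hd := hu.sub hv
  have h0 : GG a b u = ∫ y, u y * th0 a b u y := by
    rw [← bilin ha hb hu hu, GG]
    simp only [sq]
  have h1 := GP8_sub ha hb hu hv hu
  have h2 := GP8_sub ha hb hu hv hv
  have h3 := GP8_sub ha hb hu hv hd
  have h4 := GP8_symm ha hb hu hv
  have h5 := GP8_symm ha hb hu hd
  have h6 := GP8_symm ha hb hv hd
  linarith

theorem hasDerivAt_GG {a b s : ℝ} {e ey : ℝ → ℝ → ℝ} {lam β γ : ℝ → ℝ} (ha : 0 < a)
    (ha8 : a ≤ 1 / 8) (hb : 1 ≤ b)
    (h : ∀ᶠ t in 𝓝 s, FlowAt e ey lam β γ 1 t ∧ (∀ y, |e t y| ≤ 1) ∧ |β t| ≤ 1 ∧ |γ t| ≤ 1) :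
    HasDerivAt (fun z => GG a b (e z))
      (2 * rhs0 (β s) (γ s) (e s) (th0 a b (e s)) (th1 a b (e s)) (th3 a b (e s))) s := by
  have hb0 : 0 < b := one_pos.trans_le hb
  obtain ⟨C, hC, hr⟩ := rough_le ha ha8 hb
  have hs := h.self_of_nhds.1
  have bs : Bdd (e s) := hs.h1t.2.1.bdd
  obtain ⟨δ, hδ, hball⟩ := Metric.eventually_nhds_iff_ball.1 h
  have h1 := hs.d0 _ _ _ _ (test_th ha hb0 bs)
  rw [one_mul] at h1
  have h2 : HasDerivAt (fun z => ∫ y, (e z y - e s y) * th0 a b (fun x => e z x - e s x) y) 0 s := by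
    rw [hasDerivAt_iff_isLittleO, Asymptotics.isLittleO_iff]
    intro c hc
    have hσ : 0 < c / (C + 1) := by positivity
    filter_upwards [hs.h1t.ut.2.2 _ hσ, Metric.ball_mem_nhds s hδ] with z hz hzb
    have bz : Bdd (e z) := (hball z hzb).1.h1t.2.1.bdd
    have bd := bz.sub bs
    have h3 := Convex.norm_image_sub_le_of_norm_hasDerivWithin_le
      (f := fun t => ∫ y, e t y * th0 a b (fun x => e z x - e s x) y)
      (f' := fun t => rhs0 (β t) (γ t) (e t) (th0 a b fun x => e z x - e s x)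
        (th1 a b fun x => e z x - e s x) (th3 a b fun x => e z x - e s x))
      (C := C * (c / (C + 1))) (s := Metric.ball s δ)
      (fun t ht => by
        have h4 := (hball t ht).1.d0 _ _ _ _ (test_th ha hb0 bd)
        rw [one_mul] at h4
        exact h4.hasDerivWithinAt)
      (fun t ht => hr _ _ _ _ _ bd (hball t ht).2.1 (hball t ht).2.2.1 (hball t ht).2.2.2 hz)
      (convex_ball s δ) (Metric.mem_ball_self hδ) hzb
    rw [GP8_sub ha hb0 bz bs bd]
    simp only [sub_self, zero_mul, integral_zero, smul_zero, sub_zero]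
    refine h3.trans (mul_le_mul_of_nonneg_right ?_ (norm_nonneg _))
    rw [← mul_div_assoc, div_le_iff₀ (by positivity)]
    nlinarith
  have h3 := ((h1.const_mul 2).sub_const (∫ y, e s y * th0 a b (e s) y)).add h2
  rw [add_zero] at h3
  refine h3.congr_of_eventuallyEq ?_
  filter_upwards [h] with z hz
  exact GP8_expand ha hb0 hz.1.h1t.2.1.bdd bs

end Pool.Agent.MP_8339a4_an
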