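import Pool.Agent.MP_8339a4_an.GV

/-! G block: static coercivity with a localised right-hand side. -/

open MeasureTheory Filter Topology Set

namespace Pool.Agent.MP_8339a4_an

theorem GP9_pt {c ρ ψ ψ1 s σ τ t v p p1 p2 w : ℝ} (hc : 0 < c) (hρ : 0 < ρ) (hs : 0 ≤ s)
    (hσ : 0 ≤ σ) (hτ : 0 ≤ τ) (hστ : σ + τ = 1) (hr : σ * ρ = τ * s) (hψ : 0 ≤ ψ) (hψ1 : ψ ≤ 1)
    (h1 : |ψ1| ≤ c / 2 * ψ) (ht : |t| ≤ 1) (hv : 0 ≤ v) (hw : ψ * τ ≤ w) :
    ψ * (p1 ^ 2 + p ^ 2 - v * p ^ 2)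
        - ((ψ1 * σ - 4 * (t * (ψ * σ * τ))) * (p * p1) + ψ * σ * (p1 * p1 + p * p2))
      ≤ c / 2 * (ψ * (p ^ 2 + p1 ^ 2)) + 1 / (c * ρ) * (s * (-p2 + (1 - v) * p) ^ 2)
        + 7 / 2 * (w * p ^ 2 + w * p1 ^ 2) := by
  obtain ⟨L, hL⟩ : ∃ L, L = -p2 + (1 - v) * p := ⟨_, rfl⟩
  have hσ1 : σ ≤ 1 := by linarith
  have hτ1 : τ ≤ 1 := by linarith
  have hω : 0 ≤ ψ * τ := mul_nonneg hψ hτ
  have hw0 : 0 ≤ w := hω.trans hw
  have e : ψ * (p1 ^ 2 + p ^ 2 - v * p ^ 2)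
        - ((ψ1 * σ - 4 * (t * (ψ * σ * τ))) * (p * p1) + ψ * σ * (p1 * p1 + p * p2))
      = ψ * τ * p1 ^ 2 + ψ * τ * p ^ 2 - ψ * τ * (v * p ^ 2) + ψ * (σ * L * p)
        - (ψ1 * σ - 4 * (t * (ψ * σ * τ))) * (p * p1) := by
    rw [hL]
    linear_combination (-(ψ * (p1 ^ 2 + p ^ 2 - v * p ^ 2))) * hστ
  have a1 : ψ * τ * p1 ^ 2 ≤ w * p1 ^ 2 := mul_le_mul_of_nonneg_right hw (sq_nonneg _)
  have a2 : ψ * τ * p ^ 2 ≤ w * p ^ 2 := mul_le_mul_of_nonneg_right hw (sq_nonneg _)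
  have a2' : 0 ≤ ψ * τ * (v * p ^ 2) := by positivity
  have b1 : σ * L * p ≤ c / 4 * p ^ 2 + (σ * L) ^ 2 / c := by
    have : c / 4 * p ^ 2 + (σ * L) ^ 2 / c - σ * L * p = (c / 2 * p - σ * L) ^ 2 / c := by
      field_simp
      ring
    have h : 0 ≤ (c / 2 * p - σ * L) ^ 2 / c := by positivity
    linarith
  have b2 : σ ^ 2 ≤ s / ρ := by
    rw [le_div_iff₀ hρ]
    have : σ ^ 2 * ρ = σ * τ * s := by linear_combination σ * hr
    rw [this]
    exact mul_le_of_le_one_left hs (mul_le_one₀ hσ1 hτ hτ1)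
  have b3 : (σ * L) ^ 2 / c ≤ 1 / (c * ρ) * (s * L ^ 2) := by
    have : 1 / (c * ρ) * (s * L ^ 2) = s / ρ * L ^ 2 / c := by field_simp
    rw [this, mul_pow]
    gcongr
  have b4 : ψ * ((σ * L) ^ 2 / c) ≤ (σ * L) ^ 2 / c :=
    mul_le_of_le_one_left (by positivity) hψ1
  have a3 : ψ * (σ * L * p) ≤ c / 4 * (ψ * p ^ 2) + 1 / (c * ρ) * (s * L ^ 2) := by
    have := mul_le_mul_of_nonneg_left b1 hψ
    linarith
  have c1 : |ψ1 * σ - 4 * (t * (ψ * σ * τ))| ≤ c / 2 * ψ + 4 * w := by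
    have d1 : |ψ1 * σ| ≤ c / 2 * ψ := by
      rw [abs_mul, abs_of_nonneg hσ]
      exact (mul_le_of_le_one_right (abs_nonneg _) hσ1).trans h1
    have d2 : |t * (ψ * σ * τ)| ≤ w := by
      rw [abs_mul, abs_of_nonneg (by positivity : 0 ≤ ψ * σ * τ)]
      refine (mul_le_of_le_one_left (by positivity) ht).trans (le_trans ?_ hw)
      rw [mul_right_comm]
      exact mul_le_of_le_one_right hω hσ1
    have d3 := abs_le.1 d1
    have d4 := abs_le.1 d2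
    exact abs_le.2 ⟨by linarith [d3.1, d4.2], by linarith [d3.2, d4.1]⟩
  have c2 : |p * p1| ≤ (p ^ 2 + p1 ^ 2) / 2 :=
    abs_le.2 ⟨by nlinarith [sq_nonneg (p + p1)], by nlinarith [sq_nonneg (p - p1)]⟩
  have a4 : |(ψ1 * σ - 4 * (t * (ψ * σ * τ))) * (p * p1)|
      ≤ (c / 2 * ψ + 4 * w) * ((p ^ 2 + p1 ^ 2) / 2) := by
    rw [abs_mul]
    exact mul_le_mul c1 c2 (abs_nonneg _) (by positivity)
  have a5 := (abs_le.1 a4).1
  have a6 : 0 ≤ c * (ψ * p1 ^ 2) := by positivity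
  have a7 : 0 ≤ w * p ^ 2 := by positivity
  have a8 : 0 ≤ w * p1 ^ 2 := by positivity
  rw [e, ← hL]
  linarith

theorem GP9_om {ε η : ℝ} (hε : 0 < ε) (hη : 0 < η) : ∃ ρ : ℝ, 0 < ρ ∧ ∀ b : ℝ, 1 ≤ b → 2 / ε ≤ b →
    ∀ y, 4 * P1 (ε * y) * (ρ / (sc y + ρ)) ≤ η * Pb b y := by
  obtain ⟨R, hR⟩ : ∃ R : ℝ, R = 32 / (ε * η) := ⟨_, rfl⟩
  have hρ : 0 < η * Real.exp (-(5 * R)) / 4 := by positivity
  refine ⟨_, hρ, fun b hb hb2 y => ?_⟩
  generalize hρ' : η * Real.exp (-(5 * R)) / 4 = ρ at hρ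
  have hb0 : 0 < b := by linarith
  have hP := exp_le_Pb hb0 y
  have hs := sc_pos y
  have hτ0 : 0 ≤ ρ / (sc y + ρ) := by positivity
  have hP1 := P1_pos (ε * y)
  rcases le_total R |y| with h | h
  · have t1 : ρ / (sc y + ρ) ≤ 1 := (div_le_one (by positivity)).2 (by linarith)
    have t2 : P1 (ε * y) ≤ Real.exp (-(ε * |y| / 2)) * Real.exp (-(ε * |y| / 2)) := by
      have := P1_le_exp (ε * y)
      rw [abs_mul, abs_of_pos hε] at this
      rw [← Real.exp_add]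
      refine this.trans (le_of_eq ?_)
      congr 1
      ring
    have t3 : Real.exp (-(ε * |y| / 2)) ≤ 4 * Pb b y := by
      refine le_trans (Real.exp_le_exp.2 ?_) hP
      have : |y| / b ≤ ε * |y| / 2 := by
        rw [div_le_iff₀ hb0]
        have h2 : 2 ≤ b * ε := (div_le_iff₀ hε).1 hb2
        nlinarith [abs_nonneg y]
      linarith
    have t4 : Real.exp (-(ε * |y| / 2)) ≤ η / 16 := by
      have u1 : 16 / η ≤ ε * |y| / 2 := by
        have : 16 / η = ε * R / 2 := by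
          rw [hR]
          field_simp
          norm_num
        rw [this]
        gcongr
      have u2 := Real.add_one_le_exp (ε * |y| / 2)
      rw [Real.exp_neg, ← inv_div 16 η]
      exact inv_anti₀ (by positivity) (by linarith)
    have t5 := mul_le_mul t4 t3 (Real.exp_pos _).le (by positivity)
    have t6 : 4 * P1 (ε * y) * (ρ / (sc y + ρ)) ≤ 4 * P1 (ε * y) :=
      mul_le_of_le_one_right (by positivity) t1
    linarith
  · have t1 : 4 * P1 (ε * y) * (ρ / (sc y + ρ)) ≤ ρ / (sc y + ρ) :=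
      mul_le_of_le_one_left hτ0 (by linarith [P1_le_quarter (ε * y)])
    have t2 : Real.exp (-(4 * R)) ≤ sc y + ρ :=
      ((Real.exp_le_exp.2 (by linarith)).trans (exp_le_sc y)).trans (by linarith)
    have t3 : Real.exp (-R) ≤ 4 * Pb b y := by
      refine le_trans (Real.exp_le_exp.2 ?_) hP
      have : |y| / b ≤ |y| := div_le_self (abs_nonneg y) hb
      linarith
    have t4 : ρ / (sc y + ρ) ≤ η * Real.exp (-R) / 4 := by
      rw [div_le_iff₀ (by positivity)]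
      have : ρ = η * Real.exp (-R) / 4 * Real.exp (-(4 * R)) := by
        rw [← hρ', show -(5 * R) = -R + -(4 * R) by ring, Real.exp_add]
        ring
      refine this.le.trans ?_
      gcongr
    have t5 := mul_le_mul_of_nonneg_left t3 hη.le
    linarith

theorem GP9_frac {ρ : ℝ} (hρ : 0 < ρ) {f : ℝ → ℝ} (hf : Continuous f)
    (h : ∀ y, 0 ≤ f y ∧ f y ≤ sc y + ρ) : Bdd (fun y => f y / (sc y + ρ)) := by
  have hp : ∀ y, 0 < sc y + ρ := fun y => add_pos (sc_pos y) hρ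
  refine ⟨hf.div (expD_sc.1.add continuous_const) fun y => (hp y).ne', 1, fun y => ?_⟩
  rw [abs_of_nonneg (div_nonneg (h y).1 (hp y).le)]
  exact (div_le_one (hp y)).2 (h y).2

theorem static_link (h1 : C1wStmt) {η : ℝ} (hη : 0 < η) : ∃ K b0 : ℝ, 0 ≤ K ∧ 1 ≤ b0 ∧
    ∀ (b : ℝ) (p p1 p2 : ℝ → ℝ), b0 ≤ b → (∀ y, HasDerivAt p (p1 y) y) →
      (∀ y, HasDerivAt p1 (p2 y) y) → Bdd p1 → Bdd p2 → IsH1 p p1 →
      wn Q p ≤ K * wn sc (fun y => -p2 y + (1 - V y) * p y)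
        + η * (wn (Pb b) p + wn (Pb b) p1)
        + K * ((∫ y, p y * C0 y) ^ 2 + (∫ y, p y * Q1 y) ^ 2) := by
  obtain ⟨c, C, ε0, hc, hC, hε0, H⟩ := h1
  obtain ⟨ε, hε, e0, e1, e2⟩ : ∃ ε : ℝ, 0 < ε ∧ ε ≤ ε0 ∧ ε ≤ c / 2 ∧ ε ≤ 1 :=
    ⟨min ε0 (min (c / 2) 1), by positivity, min_le_left _ _,
      (min_le_right _ _).trans (min_le_left _ _), (min_le_right _ _).trans (min_le_right _ _)⟩
  obtain ⟨ρ, hρ, hom⟩ := GP9_om hε (η := c * η / 14) (by positivity)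
  refine ⟨4 / c * (1 / (c * ρ)) + 4 / c * C, max 1 (2 / ε), by positivity, le_max_left _ _,
    fun b p p1 p2 hb d0 d1 b1 b2 hp => ?_⟩
  have hb1 : 1 ≤ b := (le_max_left _ _).trans hb
  have hb2 : 2 / ε ≤ b := (le_max_right _ _).trans hb
  have b0 := hp.bdd
  obtain ⟨ψ, hψ⟩ : ∃ ψ : ℝ → ℝ, ψ = fun y => 4 * P1 (ε * y) := ⟨_, rfl⟩
  obtain ⟨ψ1, hψ1⟩ : ∃ ψ1 : ℝ → ℝ, ψ1 = fun y => 4 * (P2 (ε * y) * ε) := ⟨_, rfl⟩
  have dψ : ∀ y, HasDerivAt ψ (ψ1 y) y := fun y => by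
    rw [hψ, hψ1]
    have := ((hasDerivAt_P1 (ε * y)).comp y ((hasDerivAt_id y).const_mul ε)).const_mul 4
    simpa using this
  have eψ : ExpD ψ := by
    rw [hψ]
    exact ((expD_P1.comp_affine hε.ne' 0).const_mul 4).congr fun y => by simp
  have eψ1 : ExpD ψ1 := by
    rw [hψ1]
    exact ((expD_P2.comp_affine hε.ne' 0).const_mul (4 * ε)).congr fun y => by
      simp only [add_zero]
      ring
  have pψ : ∀ y, 0 < ψ y := fun y => by
    rw [hψ]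
    exact mul_pos (by norm_num) (P1_pos _)
  have lψ : ∀ y, ψ y ≤ 1 := fun y => by
    rw [hψ]
    have := P1_le_quarter (ε * y)
    show 4 * P1 (ε * y) ≤ 1
    linarith
  have aψ : ∀ y, |ψ1 y| ≤ ε * ψ y := fun y => by
    rw [hψ, hψ1]
    show |4 * (P2 (ε * y) * ε)| ≤ ε * (4 * P1 (ε * y))
    rw [abs_mul, abs_mul, abs_of_pos hε, abs_of_pos (by norm_num : (0 : ℝ) < 4)]
    nlinarith [abs_P2_le (ε * y)]
  have qψ : ∀ y, Q y ≤ 2 * ψ y := fun y => by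
    rw [hψ]
    show Q y ≤ 2 * (4 * P1 (ε * y))
    have u1 := Q_le_exp y
    have u2 := exp_le_P1 (ε * y)
    have u3 : Real.exp (-|y|) ≤ Real.exp (-|ε * y|) := by
      rw [Real.exp_le_exp, abs_mul, abs_of_pos hε]
      nlinarith [abs_nonneg y]
    linarith
  have H1 := H ψ ψ1 dψ eψ1.1 eψ.bdd pψ
    (fun y => (aψ y).trans (mul_le_mul_of_nonneg_right e0 (pψ y).le))
    (by rw [hψ]; simp [P1_zero, hε0.le]) p p1 hp
  have hpos : ∀ y, 0 < sc y + ρ := fun y => add_pos (sc_pos y) hρ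
  obtain ⟨σ, hσ⟩ : ∃ σ : ℝ → ℝ, σ = fun y => sc y / (sc y + ρ) := ⟨_, rfl⟩
  obtain ⟨τ, hτ⟩ : ∃ τ : ℝ → ℝ, τ = fun y => ρ / (sc y + ρ) := ⟨_, rfl⟩
  have bσ : Bdd σ := hσ ▸ GP9_frac hρ expD_sc.1 fun y => ⟨(sc_pos y).le, by linarith⟩
  have bτ : Bdd τ := hτ ▸ GP9_frac hρ continuous_const fun y => ⟨hρ.le, by linarith [sc_pos y]⟩
  have dσ : ∀ y, HasDerivAt σ (-(4 * (tn y * (σ y * τ y)))) y := fun y => by
    rw [hσ, hτ]
    refine ((hasDerivAt_sc y).fun_div ((hasDerivAt_sc y).add_const ρ) (hpos y).ne').congr_deriv ?_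
    have := (hpos y).ne'
    field_simp
    ring
  have eζ : ExpD fun y => ψ y * σ y := eψ.mul_bdd bσ
  have eΦ1 : ExpD fun y => (ψ1 y * σ y - 4 * (tn y * (ψ y * σ y * τ y))) * (p y * p1 y)
      + ψ y * σ y * (p1 y * p1 y + p y * p2 y) :=
    (((eψ1.mul_bdd bσ).sub (((eζ.mul_bdd bτ).bdd_mul bdd_tn).const_mul 4)).mul_bdd
      (b0.mul b1)).add (eζ.mul_bdd ((b1.mul b1).add (b0.mul b2)))
  have z := int_deriv_zero (f := fun y => ψ y * σ y * (p y * p1 y))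
    (fun y => (((dψ y).fun_mul (dσ y)).fun_mul ((d0 y).fun_mul (d1 y))).congr_deriv (by ring))
    (eζ.mul_bdd (b0.mul b1)) eΦ1
  have bL : Bdd fun y => -p2 y + (1 - V y) * p y := b2.neg.add (bdd_one_sub_V.mul b0)
  have iA : Integrable fun y => ψ y * (p1 y ^ 2 + p y ^ 2 - V y * p y ^ 2) :=
    (eψ.mul_bdd (((b1.pow 2).add (b0.pow 2)).sub (expD_V.bdd.mul (b0.pow 2)))).integrable
  have iB : Integrable fun y => ψ y * (p y ^ 2 + p1 y ^ 2) :=
    (eψ.mul_bdd ((b0.pow 2).add (b1.pow 2))).integrable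
  have iC := sw_sc.int_sq bL
  have iD := (sw_Pb hb1).int_sq b0
  have iE := (sw_Pb hb1).int_sq b1
  have iF : Integrable fun y => c / 2 * (ψ y * (p y ^ 2 + p1 y ^ 2))
      + 1 / (c * ρ) * (sc y * (-p2 y + (1 - V y) * p y) ^ 2) :=
    (iB.const_mul _).add (iC.const_mul _)
  have iG : Integrable fun y => Pb b y * p y ^ 2 + Pb b y * p1 y ^ 2 := iD.add iE
  have M := integral_mono (iA.sub eΦ1.integrable) (iF.add (iG.const_mul (c * η / 4))) fun y => by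
    have hy := (hpos y).ne'
    have := GP9_pt (ψ1 := ψ1 y) (σ := σ y) (τ := τ y) (p := p y) (p1 := p1 y) (p2 := p2 y)
      (w := c * η / 14 * Pb b y) hc hρ (sc_pos y).le
      (by rw [hσ]; exact div_nonneg (sc_pos y).le (hpos y).le)
      (by rw [hτ]; exact div_nonneg hρ.le (hpos y).le)
      (by rw [hσ, hτ]; field_simp) (by rw [hσ, hτ]; ring) (pψ y).le (lψ y)
      ((aψ y).trans (mul_le_mul_of_nonneg_right e1 (pψ y).le)) (abs_tn_lt y).le (V_nonneg y)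
      (by rw [hψ, hτ]; exact hom b hb1 hb2 y)
    simp only [Pi.sub_apply, Pi.add_apply]
    linarith
  simp only [Pi.sub_apply, Pi.add_apply] at M
  rw [integral_sub iA eΦ1.integrable, z, integral_add iF (iG.const_mul _),
    integral_add (iB.const_mul _) (iC.const_mul _), integral_const_mul, integral_const_mul,
    integral_const_mul, integral_add iD iE] at M
  have N : wn Q p ≤ 2 * ∫ y, ψ y * (p y ^ 2 + p1 y ^ 2) := by
    rw [← integral_const_mul]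
    refine integral_mono (sw_Q.int_sq b0) (iB.const_mul 2) fun y => ?_
    have u1 := mul_le_mul_of_nonneg_right (qψ y) (sq_nonneg (p y))
    have u2 := mul_nonneg (pψ y).le (sq_nonneg (p1 y))
    show Q y * p y ^ 2 ≤ 2 * (ψ y * (p y ^ 2 + p1 y ^ 2))
    linarith
  have w0 := wn_nonneg sw_sc (fun y => -p2 y + (1 - V y) * p y)
  unfold wn at w0 ⊢
  unfold wn at N
  generalize (∫ y, ψ y * (p y ^ 2 + p1 y ^ 2)) = I at *
  generalize (∫ y, sc y * (-p2 y + (1 - V y) * p y) ^ 2) = A at *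
  generalize (∫ y, Pb b y * p y ^ 2) + (∫ y, Pb b y * p1 y ^ 2) = B at *
  have o0 : 0 ≤ (∫ y, p y * C0 y) ^ 2 + (∫ y, p y * Q1 y) ^ 2 := by positivity
  generalize (∫ y, p y * C0 y) ^ 2 + (∫ y, p y * Q1 y) ^ 2 = O at *
  have k1 : c / 2 * I ≤ 1 / (c * ρ) * A + c * η / 4 * B + C * O := by linarith
  have k2 := mul_le_mul_of_nonneg_left k1 (by positivity : 0 ≤ 4 / c)
  have k3 : 4 / c * (c / 2 * I) = 2 * I := by
    field_simp
    norm_num
  have k4 : 4 / c * (c * η / 4 * B) = η * B := by field_simp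
  have k5 : 0 ≤ 4 / c * C * A := by positivity
  have k6 : 0 ≤ 4 / c * (1 / (c * ρ)) * O := by positivity
  rw [k3, mul_add, mul_add, k4] at k2
  linarith

end Pool.Agent.MP_8339a4_an
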