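import Pool.Agent.MP_8339a4_an.GP2
import Pool.Agent.MP_8339a4_an.GP3
import Pool.Agent.MP_8339a4_an.GP4
import Pool.Agent.MP_8339a4_an.GP8
import Pool.Agent.MP_8339a4_an.GP10

/-! G block: the virial estimate. -/

open MeasureTheory Filter Topology Set

namespace Pool.Agent.MP_8339a4_an

theorem GS_Nw_nonneg {b : ℝ} {e ey : ℝ → ℝ} (hb : 1 ≤ b) (h : IsH1 e ey) : 0 ≤ Nw b e ey := by
  rw [Nw_eq hb h]
  exact add_nonneg (wn_nonneg (sw_Pb hb) _) (wn_nonneg (sw_Pb hb) _)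

theorem GS_N0_le {b : ℝ} {e ey : ℝ → ℝ} (hb : 1 ≤ b) (h : IsH1 e ey) :
    N0 e ≤ 8 * Nw b e ey := by
  rw [Nw_eq hb h, N0_eq]
  have h1 := wn_mono sw_Q (sw_Pb hb) (Q_le_Pb hb) h.bdd
  have h2 := wn_nonneg (sw_Pb hb) ey
  linarith

theorem GS_lin {a b β Z p N Cq : ℝ} (ha : 0 < a) (ha1 : a ≤ 1) (hb : 1 ≤ b) (hCq : 0 ≤ Cq)
    (hN : 0 ≤ N) (hβ : β ^ 2 ≤ p * N) (q : Z ^ 2 ≤ Cq * (a ^ 2 + 1 / (a ^ 2 * b ^ 2)) * N) :
    4 * (β * Z) ≤ 2 * p * a * N + (2 * Cq * a + 2 * Cq * (1 / (a ^ 4 * b))) * N := by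
  have hb0 : 0 < b := by linarith
  set u := 1 / (a ^ 4 * b) with hu
  have h1 : 4 * (β * Z) ≤ 2 * (a * β ^ 2) + 2 * (Z ^ 2 / a) := by
    have : 0 ≤ (a * β - Z) ^ 2 / a := by positivity
    have h : (a * β - Z) ^ 2 / a = a * β ^ 2 - 2 * (β * Z) + Z ^ 2 / a := by
      field_simp; ring
    linarith
  have h2 : a * β ^ 2 ≤ a * (p * N) := mul_le_mul_of_nonneg_left hβ ha.le
  have h3 : Z ^ 2 / a ≤ Cq * (a + u) * N := by
    rw [div_le_iff₀ ha]
    refine q.trans ?_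
    have h4 : 1 / (a ^ 2 * b ^ 2) ≤ u * a := by
      rw [hu, div_mul_eq_mul_div, one_mul, div_le_div_iff₀ (by positivity) (by positivity)]
      have h5 : a ≤ b := by linarith
      have : a ^ 3 * b * a ≤ a ^ 3 * b * b := mul_le_mul_of_nonneg_left h5 (by positivity)
      linarith
    have h6 : a ^ 2 + 1 / (a ^ 2 * b ^ 2) ≤ (a + u) * a := by linarith
    have := mul_le_mul_of_nonneg_right (mul_le_mul_of_nonneg_left h6 hCq) hN
    linarith
  linarith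

/-- The static estimate for the derivative of the virial functional. -/
theorem GS_deriv (h2 : C2Stmt) : ∃ c C : ℝ, 0 < c ∧ 0 ≤ C ∧ ∀ a b : ℝ, 0 < a → a ≤ 1 / 8 →
    C * a ≤ c → 1 ≤ b → ∃ C' : ℝ, 0 ≤ C' ∧ ∀ (e ey : ℝ → ℝ) (β γ σ p : ℝ), IsH1 e ey →
      (∫ y, e y * C0 y) = 0 → (∀ y, |e y| ≤ σ) → σ ≤ 1 → β ^ 2 ≤ p * Nw b e ey →
      2 * rhs0 β γ e (th0 a b e) (th1 a b e) (th3 a b e)
        ≤ -(c * wn sc (hB a e))
          + (C * a + 2 * p * a + C / (a ^ 4 * b) + C' * (|β| + |γ| + σ)) * Nw b e ey := by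
  obtain ⟨c2, C2', hc2, hC2, H2⟩ := h2
  obtain ⟨Cv, hCv, Hv⟩ := virial
  obtain ⟨Ce, hCe, He⟩ := err_le
  obtain ⟨Co, hCo, Ho⟩ := orth_C0
  obtain ⟨Cq, hCq, Hq⟩ := QkB_le
  refine ⟨3 * c2, 2 * Ce + 6 * C2' * Co + 40 * Cv + 2 * Cq, by positivity, by positivity,
    fun a b ha ha8 hCa hb => ?_⟩
  obtain ⟨Cs, hCs, Hs⟩ := small_le ha ha8 hb
  refine ⟨2 * Cs, by positivity, fun e ey β γ σ p he ho hσ hσ1 hβ => ?_⟩
  have hb0 : 0 < b := by linarith
  have ha1 : a ≤ 1 := by linarith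
  have be := he.bdd
  have R := res_hB ha be
  have hN := GS_Nw_nonneg hb he
  set N := Nw b e ey with hNdef
  rw [rhs0_split be (test_th ha hb0 be), main_id ha hb0 be, int_LQ_th0 ha hb0 be,
    int_Q1_th0 ha hb0 be]
  have v := Hv b (hB a e) (hC a e) (hD a e) hb R.d0 (hasDerivAt_hC ha be) R.b0 R.b1 (bdd_hD ha be)
  have v' : 2 * ∫ y, hC a e y * (-gg2 a b e y + (1 - V y) * gg a b e y)
      ≤ -6 * (∫ y, sc y * (hC a e y + tn y * hB a e y) ^ 2)
        + Cv / b * (wn (Pb b) (hB a e) + wn (Pb b) (hC a e)) := v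
  have c := H2 _ _ (isH1_hB ha ha8 he)
  have cs : ∫ y, sc y * (hB a e y ^ 2 + hC a e y ^ 2) = wn sc (hB a e) + wn sc (hC a e) := by
    unfold wn
    rw [← integral_add (sw_sc.int_sq R.b0) (sw_sc.int_sq R.b1)]
    congr 1; funext y; ring
  rw [cs] at c
  have er := He a b e ha ha8 hb0 be
  have o := Ho a b e ey ha ha8 hb he ho
  have q := Hq a b e ey ha ha8 hb he
  have s := (abs_le.mp (Hs e ey β γ σ he hσ hσ1)).2
  have nB := wn_hB ha ha8 (sw_Pb hb) he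
  rw [← Nw_eq hb he, ← hNdef] at nB
  have n1 := wn_nonneg (sw_Pb hb) (hB a e)
  have n2 := wn_nonneg (sw_Pb hb) (hC a e)
  have n3 := wn_nonneg sw_sc (hB a e)
  have n4 := wn_nonneg sw_sc (hC a e)
  rw [← hNdef] at o q s
  set S1 := wn sc (hB a e)
  set S2 := wn sc (hC a e)
  set T1 := wn (Pb b) (hB a e)
  set T2 := wn (Pb b) (hC a e)
  set Z := ∫ y, Q y * kB a b e y
  set O := ∫ y, hB a e y * C0 y
  set u := 1 / (a ^ 4 * b) with hu
  have hu0 : 0 < u := by positivity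
  have a2 : a ^ 2 ≤ a := pow_le_of_le_one ha.le ha1 (by norm_num)
  -- the cut-off error
  have e1 : Cv / b * (T1 + T2) ≤ 40 * Cv * u * N := by
    have h4 : a ^ 4 ≤ a ^ 2 := pow_le_pow_of_le_one ha.le ha1 (by norm_num)
    have h5 : a ^ 4 * (T1 + T2) ≤ 40 * N := by
      have := mul_le_mul_of_nonneg_right h4 n1
      linarith
    have h6 : Cv / b * (T1 + T2) = Cv * u * (a ^ 4 * (T1 + T2)) := by
      rw [hu]; field_simp
    rw [h6]
    have := mul_le_mul_of_nonneg_left h5 (mul_nonneg hCv hu0.le)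
    linarith
  -- the orthogonality defect
  have e2 : 6 * (C2' * O ^ 2) ≤ 6 * C2' * Co * a * N := by
    have h1 : Co * a ^ 2 * N ≤ Co * a * N :=
      mul_le_mul_of_nonneg_right (mul_le_mul_of_nonneg_left a2 hCo) hN
    have := mul_le_mul_of_nonneg_left (o.trans h1) hC2
    linarith
  have e3 := GS_lin ha ha1 hb hCq hN hβ q
  rw [← hu] at e3
  have e4 : 2 * (Ce * a * (S1 + S2)) ≤ 3 * c2 * (S1 + S2) := by
    have h1 : 2 * Ce * a ≤ 3 * c2 := by
      have : 0 ≤ (6 * C2' * Co + 40 * Cv + 2 * Cq) * a := by positivity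
      linarith
    have := mul_le_mul_of_nonneg_right h1 (add_nonneg n3 n4)
    linarith
  have e5 : (2 * Ce + 6 * C2' * Co + 40 * Cv + 2 * Cq) / (a ^ 4 * b)
      = (2 * Ce + 6 * C2' * Co + 40 * Cv + 2 * Cq) * u := by rw [hu]; ring
  rw [e5]
  have p1 : 0 ≤ (2 * Ce + 40 * Cv) * a * N := by positivity
  have p2 : 0 ≤ (2 * Ce + 6 * C2' * Co) * u * N := by positivity
  have p3 : 0 ≤ c2 * S2 := by positivity
  linarith

section

variable {κ s0 r0 r1 M η d Cp : ℝ} {e ey : ℝ → ℝ → ℝ} {lam β γ : ℝ → ℝ}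

theorem GS_ev_sup (st : Setup κ s0 r0 r1 M η d Cp e ey lam β γ) {δ : ℝ} (hδ : 0 < δ) :
    ∀ᶠ s in atTop, ∀ y, |e s y| ≤ δ := by
  have h1 : Tendsto (fun s => 2 * (Real.sqrt M * Real.sqrt (∫ y, ey s y ^ 2))) atTop
      (𝓝 0) := by
    have := (st.ey0.sqrt.const_mul (Real.sqrt M)).const_mul 2
    simpa using this
  filter_upwards [h1.eventually (gt_mem_nhds (pow_pos hδ 2)), eventually_gt_atTop s0]
    with s hs hs0 y
  have h2 := (st.flow s hs0).h1t.2.1.sq_le y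
  have h3 : Real.sqrt (∫ y, e s y ^ 2) ≤ Real.sqrt M := Real.sqrt_le_sqrt (st.mass s hs0)
  have h4 := mul_le_mul_of_nonneg_right h3 (Real.sqrt_nonneg (∫ y, ey s y ^ 2))
  exact abs_le_of_sq_le_sq (by linarith) hδ.le

theorem GS_ev_par (st : Setup κ s0 r0 r1 M η d Cp e ey lam β γ) {δ : ℝ} (hδ : 0 < δ) :
    ∀ᶠ s in atTop, |β s| ≤ δ ∧ |γ s| ≤ δ := by
  have h1 : Tendsto (fun s => Cp * N0 (e s)) atTop (𝓝 0) := by
    simpa using st.n0.const_mul Cp
  filter_upwards [h1.eventually (gt_mem_nhds (pow_pos hδ 2)), eventually_gt_atTop s0]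
    with s hs hs0
  have h2 := st.par s hs0
  exact ⟨abs_le_of_sq_le_sq (by nlinarith [sq_nonneg (γ s)]) hδ.le,
    abs_le_of_sq_le_sq (by nlinarith [sq_nonneg (β s)]) hδ.le⟩

end

theorem gs (h1 : C1wStmt) (h2 : C2Stmt) : GSStmt := by
  intro κ s0 r0 r1 M η d Cp e ey lam β γ st θ hθ
  obtain ⟨c, C, hc, hC, HD⟩ := GS_deriv h2
  obtain ⟨K, b1, hK, hb1, HL⟩ := link h1 (η := θ / 4) (by positivity)
  set p := 8 * |Cp| with hp
  have hp0 : 0 ≤ p := by positivity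
  set Mg := K / c with hMg
  have hMg0 : 0 < Mg := by positivity
  set T := K + Mg * (C + 2 * p) with hT
  have hT0 : 0 ≤ T := by positivity
  obtain ⟨a, ha, ha8, haC, haT⟩ : ∃ a : ℝ, 0 < a ∧ a ≤ 1 / 8 ∧ C * a ≤ c ∧ T * a ≤ θ / 4 := by
    refine ⟨min (1 / 8) (min (c / (C + 1)) (θ / 4 / (T + 1))), by positivity, min_le_left _ _,
      ?_, ?_⟩
    · have h : min (1 / 8) (min (c / (C + 1)) (θ / 4 / (T + 1))) ≤ c / (C + 1) :=
        (min_le_right _ _).trans (min_le_left _ _)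
      refine (mul_le_mul_of_nonneg_left h hC).trans ?_
      rw [mul_div_assoc', div_le_iff₀ (by positivity)]
      nlinarith
    · have h : min (1 / 8) (min (c / (C + 1)) (θ / 4 / (T + 1))) ≤ θ / 4 / (T + 1) :=
        (min_le_right _ _).trans (min_le_right _ _)
      refine (mul_le_mul_of_nonneg_left h hT0).trans ?_
      rw [mul_div_assoc', div_le_iff₀ (by positivity)]
      nlinarith
  refine ⟨Mg * (640 / a ^ 2), max b1 (4 * Mg * C / (θ * a ^ 4)), by positivity,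
    lt_max_of_lt_left (by linarith), fun b hb => ?_⟩
  have hbb1 : b1 ≤ b := (le_max_left _ _).trans hb
  have hb' : 1 ≤ b := hb1.trans hbb1
  have hb2 : Mg * (C / (a ^ 4 * b)) ≤ θ / 4 := by
    have h := (le_max_right _ _).trans hb
    rw [div_le_iff₀ (by positivity)] at h
    rw [mul_div_assoc', div_le_iff₀ (by positivity)]
    nlinarith
  obtain ⟨C', hC', HD'⟩ := HD a b ha ha8 haC hb'
  obtain ⟨δ, hδ, hδ1, hδ2⟩ : ∃ δ : ℝ, 0 < δ ∧ δ ≤ 1 ∧ Mg * (C' * (3 * δ)) ≤ θ / 4 := by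
    refine ⟨min 1 (θ / 4 / (3 * Mg * C' + 1)), by positivity, min_le_left _ _, ?_⟩
    have h : min 1 (θ / 4 / (3 * Mg * C' + 1)) ≤ θ / 4 / (3 * Mg * C' + 1) := min_le_right _ _
    have h3 : 0 ≤ 3 * Mg * C' := by positivity
    have h4 := mul_le_mul_of_nonneg_left h h3
    have h5 : 3 * Mg * C' * (θ / 4 / (3 * Mg * C' + 1)) ≤ θ / 4 := by
      rw [mul_div_assoc', div_le_iff₀ (by positivity)]
      nlinarith
    linarith
  refine ⟨fun s => Mg * GG a b (e s), ?_⟩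
  have ev : ∀ᶠ s in atTop, s0 < s ∧ (∀ y, |e s y| ≤ δ) ∧ |β s| ≤ δ ∧ |γ s| ≤ δ := by
    filter_upwards [eventually_gt_atTop s0, GS_ev_sup st hδ, GS_ev_par st hδ] with s u1 u2 u3
    exact ⟨u1, u2, u3⟩
  obtain ⟨S, hS⟩ := eventually_atTop.mp ev
  filter_upwards [eventually_gt_atTop S] with s hs
  obtain ⟨u1, u2, u3, u4⟩ := hS s hs.le
  have fl := st.flow s u1
  have he : IsH1 (e s) (ey s) := fl.h1t.2.1
  have ho := fl.orth.self_of_nhds
  have hN := GS_Nw_nonneg hb' he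
  refine ⟨?_, _, (hasDerivAt_GG (lam := lam) (ey := ey) (β := β) (γ := γ) ha ha8 hb' ?_).const_mul Mg,
    ?_⟩
  · rw [abs_mul, abs_of_pos hMg0, mul_assoc]
    exact mul_le_mul_of_nonneg_left (abs_GG_le ha ha8 hb' he) hMg0.le
  · filter_upwards [lt_mem_nhds hs] with t ht
    obtain ⟨v1, v2, v3, v4⟩ := hS t ht.le
    exact ⟨st.flow t v1, fun y => (v2 y).trans hδ1, v3.trans hδ1, v4.trans hδ1⟩
  · have hβ : β s ^ 2 ≤ p * Nw b (e s) (ey s) := by
      have w1 := st.par s u1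
      have w2 := GS_N0_le hb' he
      have w3 := N0_nonneg (e s)
      have w4 : Cp * N0 (e s) ≤ |Cp| * N0 (e s) := mul_le_mul_of_nonneg_right (le_abs_self _) w3
      have w5 := mul_le_mul_of_nonneg_left w2 (abs_nonneg Cp)
      rw [hp]
      linarith [sq_nonneg (γ s)]
    have d1 := mul_le_mul_of_nonneg_left (HD' (e s) (ey s) (β s) (γ s) δ p he ho.1 u2 hδ1 hβ)
      hMg0.le
    have d2 := HL a b (e s) (ey s) ha ha8 hbb1 he ho.1 ho.2
    have d3 : Mg * c = K := by rw [hMg]; field_simp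
    set N := Nw b (e s) (ey s)
    set W := wn sc (hB a (e s))
    have d4 : Mg * (C' * (|β s| + |γ s| + δ)) ≤ θ / 4 :=
      (mul_le_mul_of_nonneg_left (mul_le_mul_of_nonneg_left (by linarith) hC') hMg0.le).trans hδ2
    have d5 : K * a ^ 2 + Mg * (C * a + 2 * p * a) ≤ θ / 4 := by
      have : K * a ^ 2 ≤ K * a :=
        mul_le_mul_of_nonneg_left (pow_le_of_le_one ha.le (by linarith) (by norm_num)) hK.le
      rw [hT] at haT
      linarith
    have d6 : (θ / 4 + K * a ^ 2 + Mg * (C * a + 2 * p * a + C / (a ^ 4 * b)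
        + C' * (|β s| + |γ s| + δ))) * N ≤ θ * N :=
      mul_le_mul_of_nonneg_right (by linarith) hN
    have d7 : Mg * (c * W) = K * W := by rw [← d3]; ring
    linarith

end Pool.Agent.MP_8339a4_an
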