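import Pool.Agent.MP_8339a4_an.GB

/-! G block: the potential, the cut-off and the virial weight. -/

open MeasureTheory Filter Topology Set

namespace Pool.Agent.MP_8339a4_an

variable {b : ℝ}

theorem GV_tn (y : ℝ) : tn y ^ 2 = 1 - sc y := by simp only [sc]; ring

theorem GV_fac {p c : ℝ} (y : ℝ) (h : |p| ≤ c) : |p * V y| ≤ 15 * c * sc y := by
  rw [abs_mul, abs_of_nonneg (V_nonneg y), V_eq]
  have := mul_le_mul_of_nonneg_right h (sc_pos y).le
  linarith

theorem GV_arg (hb : 0 < b) (y : ℝ) : |2 / b * y| = 2 / b * |y| := by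
  rw [abs_mul, abs_of_pos (by positivity : (0 : ℝ) < 2 / b)]

theorem GV_Pb (hb : 0 < b) (y : ℝ) : Real.exp (-(|y| / b)) ≤ 4 * Pb b y := by
  have h := exp_le_P1 (y / b)
  rw [abs_div, abs_of_pos hb] at h
  simp only [Pb]
  linarith

theorem hasDerivAt_V1 (y : ℝ) : HasDerivAt V1 (V2 y) y := by
  have h := (((hasDerivAt_tn y).const_mul 4).fun_mul (hasDerivAt_V y)).fun_neg
  refine HasDerivAt.congr_deriv h ?_
  simp only [V1, V2]
  linear_combination (16 * V y) * GV_tn y
theorem hasDerivAt_V2 (y : ℝ) : HasDerivAt V2 (V3 y) y := by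
  have h := (((hasDerivAt_sc y).const_mul 24).const_sub 16).fun_mul (hasDerivAt_V y)
  refine HasDerivAt.congr_deriv h ?_
  simp only [V1, V3]
  ring
theorem hasDerivAt_V3 (y : ℝ) : HasDerivAt V3 (V4 y) y := by
  have h := ((hasDerivAt_tn y).fun_mul (((hasDerivAt_sc y).const_mul 192).sub_const 64)).fun_mul
    (hasDerivAt_V y)
  refine HasDerivAt.congr_deriv h ?_
  simp only [V1, V4]
  linear_combination ((256 - 1536 * sc y) * V y) * GV_tn y
theorem expD_V2 : ExpD V2 := expD_V.bdd_mul ((Bdd.const 16).sub (expD_sc.bdd.const_mul 24))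
theorem expD_V3 : ExpD V3 :=
  expD_V.bdd_mul (bdd_tn.mul ((expD_sc.bdd.const_mul 192).sub (Bdd.const 64)))
theorem expD_V4 : ExpD V4 :=
  expD_V.bdd_mul ((((expD_sc.bdd.pow 2).const_mul 1920).sub (expD_sc.bdd.const_mul 1920)).add
    (Bdd.const 256))
theorem abs_V1_le_sc (y : ℝ) : |V1 y| ≤ 60 * sc y := by
  have h := abs_V1_le y
  rw [V_eq] at h
  linarith
theorem abs_V2_le_sc (y : ℝ) : |V2 y| ≤ 240 * sc y := by
  have h0 := sc_pos y
  have h1 := sc_le_one y
  have h := GV_fac (p := 16 - 24 * sc y) (c := 16) y (abs_le.2 ⟨by linarith, by linarith⟩)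
  simp only [V2]
  linarith
theorem abs_V3_le_sc (y : ℝ) : |V3 y| ≤ 1920 * sc y := by
  have h0 := sc_pos y
  have h1 := sc_le_one y
  have h2 : |192 * sc y - 64| ≤ 128 := abs_le.2 ⟨by linarith, by linarith⟩
  have h := GV_fac (p := tn y * (192 * sc y - 64)) (c := 128) y (by
    rw [abs_mul]
    exact (mul_le_of_le_one_left (abs_nonneg _) (abs_tn_lt y).le).trans h2)
  simp only [V3]
  linarith
theorem abs_V4_le_sc (y : ℝ) : |V4 y| ≤ 3840 * sc y := by
  have h0 := sc_pos y
  have h1 := sc_le_one y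
  have h := GV_fac (p := 1920 * sc y ^ 2 - 1920 * sc y + 256) (c := 256) y
    (abs_le.2 ⟨by nlinarith [sq_nonneg (sc y - 1 / 2)], by nlinarith⟩)
  simp only [V4]
  linarith
theorem abs_one_sub_V_le (y : ℝ) : |1 - V y| ≤ 14 := abs_V_T6a y
theorem bdd_one_sub_V : Bdd (fun y => 1 - V y) := (Bdd.const 1).sub expD_V.bdd

theorem test_chi (hb : 0 < b) : Test (chi b) (chi1 b) (chi2 b) (chi3 b) := by
  have h2 : (2 / b : ℝ) ≠ 0 := by positivity
  refine ((test_P1.comp_affine h2 0).const_mul 4).congr (fun y => ?_) (fun y => ?_) (fun y => ?_)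
    (fun y => ?_)
  · simp only [chi, add_zero]
  · simp only [chi1, add_zero]; ring
  · simp only [chi2, add_zero]; ring
  · simp only [chi3, add_zero]; ring
theorem chi_pos (b y : ℝ) : 0 < chi b y := mul_pos (by norm_num) (P1_pos _)
theorem chi_le_one (b y : ℝ) : chi b y ≤ 1 := by
  have h := P1_le_quarter (2 / b * y)
  simp only [chi]
  linarith
theorem chi_le_exp (hb : 0 < b) (y : ℝ) : chi b y ≤ 4 * Real.exp (-(2 / b) * |y|) := by
  have h := P1_le_exp (2 / b * y)
  rw [GV_arg hb, ← neg_mul] at h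
  simp only [chi]
  linarith
theorem chi_le_Pb (hb : 0 < b) (y : ℝ) : chi b y ≤ 16 * Pb b y := by
  have h1 := chi_le_exp hb y
  have h2 := GV_Pb hb y
  have h3 : Real.exp (-(2 / b) * |y|) ≤ Real.exp (-(|y| / b)) := by
    refine Real.exp_le_exp.2 ?_
    have : 0 ≤ |y| / b := by positivity
    have e : -(2 / b) * |y| = -(2 * (|y| / b)) := by ring
    linarith
  linarith
theorem one_sub_chi_le (hb : 0 < b) (y : ℝ) : 1 - chi b y ≤ 2 * |y| / b := by
  have h1 := exp_le_P1 (2 / b * y)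
  have h2 := Real.add_one_le_exp (-|2 / b * y|)
  have e : |2 / b * y| = 2 * |y| / b := by rw [GV_arg hb]; ring
  simp only [chi]
  linarith
theorem abs_chi1_le (hb : 1 ≤ b) (y : ℝ) : |chi1 b y| ≤ 2 / b * chi b y := by
  have h0 : 0 < b := by linarith
  have h := mul_le_mul_of_nonneg_left (abs_P2_le (2 / b * y)) (by positivity : (0 : ℝ) ≤ 8 / b)
  simp only [chi1, chi]
  rw [abs_mul, abs_of_pos (by positivity : (0 : ℝ) < 8 / b)]
  exact h.trans (le_of_eq (by ring))
theorem abs_chi2_le (hb : 1 ≤ b) (y : ℝ) : |chi2 b y| ≤ 4 / b * chi b y := by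
  have h0 : 0 < b := by linarith
  have h1 : 16 / b ^ 2 ≤ 16 / b :=
    div_le_div_of_nonneg_left (by norm_num) h0 (le_self_pow₀ hb two_ne_zero)
  have h := mul_le_mul h1 (abs_P3_le (2 / b * y)) (abs_nonneg _) (by positivity)
  simp only [chi2, chi]
  rw [abs_mul, abs_of_pos (by positivity : (0 : ℝ) < 16 / b ^ 2)]
  exact h.trans (le_of_eq (by ring))
theorem abs_chi3_le (hb : 1 ≤ b) (y : ℝ) : |chi3 b y| ≤ 16 / b * chi b y := by
  have h0 : 0 < b := by linarith
  have h1 : 32 / b ^ 3 ≤ 32 / b :=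
    div_le_div_of_nonneg_left (by norm_num) h0 (le_self_pow₀ hb three_ne_zero)
  have h := mul_le_mul h1 (abs_P4_le (2 / b * y)) (abs_nonneg _) (by positivity)
  simp only [chi3, chi]
  rw [abs_mul, abs_of_pos (by positivity : (0 : ℝ) < 32 / b ^ 3)]
  exact h.trans (le_of_eq (by ring))
theorem sc_one_sub_chi_le (hb : 1 ≤ b) (y : ℝ) : sc y * (1 - chi b y) ≤ 32 / b * Pb b y := by
  have h0 : 0 < b := by linarith
  have a0 := abs_nonneg y
  have h1 := mul_le_mul (sc_le_exp y) (one_sub_chi_le h0 y) (sub_nonneg.2 (chi_le_one b y))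
    (by positivity)
  have h2 : |y| ≤ Real.exp (3 * |y|) := by
    have := Real.add_one_le_exp (3 * |y|)
    linarith
  have h3 : Real.exp (-(4 * |y|)) * Real.exp (3 * |y|) ≤ Real.exp (-(|y| / b)) := by
    rw [← Real.exp_add]
    have := div_le_self a0 hb
    exact Real.exp_le_exp.2 (by linarith)
  have h4 := ((mul_le_mul_of_nonneg_left h2 (Real.exp_pos (-(4 * |y|))).le).trans h3).trans
    (GV_Pb h0 y)
  have h5 := mul_le_mul_of_nonneg_left h4 (by positivity : (0 : ℝ) ≤ 8 / b)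
  refine h1.trans (le_of_eq_of_le (by ring) (h5.trans (le_of_eq (by ring))))

theorem test_mw (hb : 0 < b) : Test (mw b) (mw1 b) (mw2 b) (mw3 b) := by
  have s := expD_sc.bdd
  have b2 : Bdd (fun y => -(8 * tn y * sc y)) := ((bdd_tn.const_mul 8).mul s).neg
  have b3 : Bdd (fun y => -(16 * sc y ^ 2) + 32 * tn y ^ 2 * sc y) :=
    ((s.pow 2).const_mul 16).neg.add (((bdd_tn.pow 2).const_mul 32).mul s)
  have H : Sm3 tn (fun y => 2 * sc y) (fun y => -(8 * tn y * sc y))
      (fun y => -(16 * sc y ^ 2) + 32 * tn y ^ 2 * sc y) := by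
    refine ⟨hasDerivAt_tn, fun y => ?_, fun y => ?_, b3.1⟩
    · exact ((hasDerivAt_sc y).const_mul 2).congr_deriv (by ring)
    · exact ((((hasDerivAt_tn y).const_mul 8).fun_mul (hasDerivAt_sc y)).fun_neg).congr_deriv
        (by ring)
  refine ((test_chi hb).mul_bdd H bdd_tn (s.const_mul 2) b2 b3).congr (fun y => ?_) (fun y => ?_)
    (fun y => ?_) (fun y => ?_)
  · simp only [mw]; ring
  · simp only [mw1]; ring
  · simp only [mw2]; ring
  · simp only [mw3]; ring
theorem abs_mw_le_chi (b y : ℝ) : |mw b y| ≤ chi b y := by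
  simp only [mw]
  rw [abs_mul, abs_of_pos (chi_pos b y)]
  exact mul_le_of_le_one_left (chi_pos b y).le (abs_tn_lt y).le
theorem abs_mw1_le_chi (hb : 1 ≤ b) (y : ℝ) : |mw1 b y| ≤ 4 * chi b y := by
  have c0 := chi_pos b y
  have h1 : |2 * sc y * chi b y| ≤ 2 * chi b y := by
    rw [abs_of_pos (mul_pos (mul_pos two_pos (sc_pos y)) c0)]
    have := mul_le_mul_of_nonneg_right (sc_le_one y) c0.le
    linarith
  have h2 : |tn y * chi1 b y| ≤ 2 * chi b y := by
    rw [abs_mul]
    refine (mul_le_of_le_one_left (abs_nonneg _) (abs_tn_lt y).le).trans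
      ((abs_chi1_le hb y).trans ?_)
    exact mul_le_mul_of_nonneg_right (div_le_self (by norm_num) hb) c0.le
  simp only [mw1]
  exact (abs_add_le _ _).trans (by linarith)
theorem abs_mw_sub_tn_le (hb : 0 < b) (y : ℝ) : |mw b y - tn y| ≤ 2 * |y| / b := by
  have e : mw b y - tn y = -(tn y * (1 - chi b y)) := by simp only [mw]; ring
  have h := sub_nonneg.2 (chi_le_one b y)
  rw [e, abs_neg, abs_mul, abs_of_nonneg h]
  exact (mul_le_of_le_one_left h (abs_tn_lt y).le).trans (one_sub_chi_le hb y)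

end Pool.Agent.MP_8339a4_an
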