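import Pool.Agent.MP_8339a4_an.GA
import Pool.Agent.MP_8339a4_an.GC
import Pool.Agent.MP_8339a4_an.GV

/-! G block: regularity and decay of the auxiliary functions. -/

open MeasureTheory Filter Topology Set

namespace Pool.Agent.MP_8339a4_an

variable {a b : ℝ} {e ey : ℝ → ℝ}

theorem bdd_hA (ha : 0 < a) (he : Bdd e) : Bdd (hA a e) :=
  ((he.sub (res_X ha he).b0).div_const (a ^ 2)).add (res_X ha (bdd_one_sub_V.mul he)).b0
theorem res_hB (ha : 0 < a) (he : Bdd e) : Res a (hA a e) (hB a e) (hC a e) :=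
  res_X ha (bdd_hA ha he)
theorem bdd_hD (ha : 0 < a) (he : Bdd e) : Bdd (hD a e) :=
  ((res_hB ha he).b0.sub (bdd_hA ha he)).div_const (a ^ 2)
theorem hasDerivAt_hC (ha : 0 < a) (he : Bdd e) (y : ℝ) : HasDerivAt (hC a e) (hD a e y) y :=
  (res_hB ha he).d1 y
theorem isH1_hB (ha : 0 < a) (ha8 : a ≤ 1 / 8) (he : IsH1 e ey) : IsH1 (hB a e) (hC a e) := by
  have m1 : MemLp (X0 a e) 2 volume := ((res_X ha he.bdd).isH1 ha ha8 he.1).1
  have m2 : MemLp (X0 a (fun x => (1 - V x) * e x)) 2 volume :=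
    ((res_X ha (bdd_one_sub_V.mul he.bdd)).isH1 ha ha8 (memLp_bdd_mul he.1 bdd_one_sub_V)).1
  have m3 : MemLp (fun y => e y - X0 a e y) 2 volume := he.1.sub m1
  have m4 : MemLp (fun y => (e y - X0 a e y) * (a ^ 2)⁻¹) 2 volume :=
    memLp_mul_bdd m3 (Bdd.const _)
  have m5 : MemLp (fun y => (e y - X0 a e y) * (a ^ 2)⁻¹ + X0 a (fun x => (1 - V x) * e x) y)
      2 volume := m4.add m2
  have e5 : hA a e
      = fun y => (e y - X0 a e y) * (a ^ 2)⁻¹ + X0 a (fun x => (1 - V x) * e x) y := by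
    funext y
    unfold hA
    rw [div_eq_mul_inv]
  exact (res_hB ha he.bdd).isH1 ha ha8 (e5 ▸ m5)
theorem d2_gg (ha : 0 < a) (hb : 0 < b) (he : Bdd e) :
    D2 (gg a b e) (gg1 a b e) (gg2 a b e) := by
  have m := test_mw hb
  have r := res_hB ha he
  refine ⟨fun y => (m.sm.d1 y).mul (r.d0 y), fun y => ?_, m.e0.mul_bdd r.b0,
    (m.e1.mul_bdd r.b0).add (m.e0.mul_bdd r.b1),
    ((m.e2.mul_bdd r.b0).add ((m.e1.mul_bdd r.b1).const_mul 2)).add (m.e0.mul_bdd (bdd_hD ha he))⟩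
  have h := ((m.sm.d2 y).fun_mul (r.d0 y)).fun_add ((m.sm.d1 y).fun_mul (hasDerivAt_hC ha he y))
  refine h.congr_deriv ?_
  unfold gg2
  ring
theorem res_kA (ha : 0 < a) (hb : 0 < b) (he : Bdd e) :
    Res a (gg a b e) (kA a b e) (kA1 a b e) := res_X ha (d2_gg ha hb he).e0.bdd
theorem res_kB (ha : 0 < a) (hb : 0 < b) (he : Bdd e) :
    Res a (kA a b e) (kB a b e) (kB1 a b e) := res_X ha (res_kA ha hb he).b0
theorem test_kA (ha : 0 < a) (hb : 0 < b) (he : Bdd e) :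
    Test (kA a b e) (kA1 a b e) (kA2 a b e) (kA3 a b e) := by
  have g := d2_gg ha hb he
  have r := res_kA ha hb he
  have e0 : ExpD (kA a b e) := expD_X0 ha g.e0
  have e1 : ExpD (kA1 a b e) := expD_X1 ha g.e0
  have e2 : ExpD (kA2 a b e) := (e0.sub g.e0).div_const (a ^ 2)
  have e3 : ExpD (kA3 a b e) := (e1.sub g.e1).div_const (a ^ 2)
  exact ⟨⟨r.d0, r.d1, fun y => ((r.d0 y).fun_sub (g.d0 y)).div_const (a ^ 2), e3.1⟩, e0, e1, e2, e3⟩
theorem test_kB (ha : 0 < a) (hb : 0 < b) (he : Bdd e) :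
    Test (kB a b e) (kB1 a b e) (kB2 a b e) (kB3 a b e) := by
  have g := test_kA ha hb he
  have r := res_kB ha hb he
  have e0 : ExpD (kB a b e) := expD_X0 ha g.e0
  have e1 : ExpD (kB1 a b e) := expD_X1 ha g.e0
  have e2 : ExpD (kB2 a b e) := (e0.sub g.e0).div_const (a ^ 2)
  have e3 : ExpD (kB3 a b e) := (e1.sub g.e1).div_const (a ^ 2)
  exact ⟨⟨r.d0, r.d1, fun y => ((r.d0 y).fun_sub (g.sm.d1 y)).div_const (a ^ 2), e3.1⟩,
    e0, e1, e2, e3⟩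
theorem GT_dA3 (ha : 0 < a) (hb : 0 < b) (he : Bdd e) (y : ℝ) :
    HasDerivAt (kA3 a b e) (kA4 a b e y) y :=
  (((test_kA ha hb he).sm.d2 y).fun_sub ((d2_gg ha hb he).d1 y)).div_const (a ^ 2)
theorem GT_dB3 (ha : 0 < a) (hb : 0 < b) (he : Bdd e) (y : ℝ) :
    HasDerivAt (kB3 a b e) (kB4 a b e y) y :=
  (((test_kB ha hb he).sm.d2 y).fun_sub ((test_kA ha hb he).sm.d2 y)).div_const (a ^ 2)
theorem GT_eA4 (ha : 0 < a) (hb : 0 < b) (he : Bdd e) : ExpD (kA4 a b e) :=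
  ((test_kA ha hb he).e2.sub (d2_gg ha hb he).e2).div_const (a ^ 2)
theorem GT_eB4 (ha : 0 < a) (hb : 0 < b) (he : Bdd e) : ExpD (kB4 a b e) :=
  ((test_kB ha hb he).e2.sub (test_kA ha hb he).e2).div_const (a ^ 2)
theorem GT_dV (y : ℝ) : HasDerivAt (fun y => 1 - V y) (-V1 y) y :=
  (hasDerivAt_V y).const_sub 1
theorem test_th (ha : 0 < a) (hb : 0 < b) (he : Bdd e) :
    Test (th0 a b e) (th1 a b e) (th2 a b e) (th3 a b e) := by
  have A := test_kA ha hb he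
  have B := test_kB ha hb he
  have e0 : ExpD (th0 a b e) :=
    ((A.e0.sub B.e0).div_const (a ^ 2)).add (B.e0.bdd_mul bdd_one_sub_V)
  have e1 : ExpD (th1 a b e) :=
    (((A.e1.sub B.e1).div_const (a ^ 2)).sub (B.e0.bdd_mul expD_V1.bdd)).add
      (B.e1.bdd_mul bdd_one_sub_V)
  have e2 : ExpD (th2 a b e) :=
    ((((A.e2.sub B.e2).div_const (a ^ 2)).sub (B.e0.bdd_mul expD_V2.bdd)).sub
      ((B.e1.bdd_mul expD_V1.bdd).const_mul 2)).add (B.e2.bdd_mul bdd_one_sub_V)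
  have e3 : ExpD (th3 a b e) :=
    (((((A.e3.sub B.e3).div_const (a ^ 2)).sub (B.e0.bdd_mul expD_V3.bdd)).sub
      ((B.e1.bdd_mul expD_V2.bdd).const_mul 3)).sub
      ((B.e2.bdd_mul expD_V1.bdd).const_mul 3)).add (B.e3.bdd_mul bdd_one_sub_V)
  refine ⟨⟨fun y => ?_, fun y => ?_, fun y => ?_, e3.1⟩, e0, e1, e2, e3⟩
  · have h := (((A.sm.d1 y).fun_sub (B.sm.d1 y)).div_const (a ^ 2)).fun_add
      ((GT_dV y).fun_mul (B.sm.d1 y))
    refine h.congr_deriv ?_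
    unfold th1
    ring
  · have h := ((((A.sm.d2 y).fun_sub (B.sm.d2 y)).div_const (a ^ 2)).fun_sub
      ((hasDerivAt_V1 y).fun_mul (B.sm.d1 y))).fun_add ((GT_dV y).fun_mul (B.sm.d2 y))
    refine h.congr_deriv ?_
    unfold th2
    ring
  · have h := (((((A.sm.d3 y).fun_sub (B.sm.d3 y)).div_const (a ^ 2)).fun_sub
      ((hasDerivAt_V2 y).fun_mul (B.sm.d1 y))).fun_sub
      (((hasDerivAt_V1 y).fun_mul (B.sm.d2 y)).const_mul 2)).fun_add
      ((GT_dV y).fun_mul (B.sm.d3 y))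
    refine h.congr_deriv ?_
    unfold th3
    ring
theorem hasDerivAt_th3 (ha : 0 < a) (hb : 0 < b) (he : Bdd e) (y : ℝ) :
    HasDerivAt (th3 a b e) (th4 a b e y) y := by
  have B := test_kB ha hb he
  have h := ((((((GT_dA3 ha hb he y).fun_sub (GT_dB3 ha hb he y)).div_const (a ^ 2)).fun_sub
    ((hasDerivAt_V3 y).fun_mul (B.sm.d1 y))).fun_sub
    (((hasDerivAt_V2 y).fun_mul (B.sm.d2 y)).const_mul 3)).fun_sub
    (((hasDerivAt_V1 y).fun_mul (B.sm.d3 y)).const_mul 3)).fun_add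
    ((GT_dV y).fun_mul (GT_dB3 ha hb he y))
  refine h.congr_deriv ?_
  unfold th4
  ring
theorem expD_th4 (ha : 0 < a) (hb : 0 < b) (he : Bdd e) : ExpD (th4 a b e) := by
  have B := test_kB ha hb he
  exact (((((((GT_eA4 ha hb he).sub (GT_eB4 ha hb he)).div_const (a ^ 2)).sub
    (B.e0.bdd_mul expD_V4.bdd)).sub ((B.e1.bdd_mul expD_V3.bdd).const_mul 4)).sub
    ((B.e2.bdd_mul expD_V2.bdd).const_mul 6)).sub
    ((B.e3.bdd_mul expD_V1.bdd).const_mul 4)).add ((GT_eB4 ha hb he).bdd_mul bdd_one_sub_V)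
theorem expD_Er (ha : 0 < a) (hb : 0 < b) (he : Bdd e) : ExpD (Er a b e) := by
  have A := test_kA ha hb he
  have B := test_kB ha hb he
  exact ((((((A.e0.bdd_mul expD_V2.bdd).const_mul 6).add
    ((A.e1.bdd_mul expD_V1.bdd).const_mul 4)).sub ((B.e0.bdd_mul expD_V2.bdd).const_mul 4)).sub
    ((B.e0.bdd_mul expD_V4.bdd).const_mul (a ^ 2))).sub
    ((B.e1.bdd_mul expD_V3.bdd).const_mul (4 * a ^ 2))).const_mul (a ^ 2)
theorem th0_eq (a b : ℝ) (e : ℝ → ℝ) (y : ℝ) :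
    th0 a b e y = -kB2 a b e y + (1 - V y) * kB a b e y := by
  unfold th0 kB2
  ring
theorem th_ident (ha : 0 < a) (b : ℝ) (e : ℝ → ℝ) (y : ℝ) :
    th0 a b e y - 2 * a ^ 2 * th2 a b e y + a ^ 4 * th4 a b e y
      = (-gg2 a b e y + (1 - V y) * gg a b e y) + Er a b e y := by
  have h := ha.ne'
  unfold th0 th2 th4 Er kB4 kA4 kB3 kB2 kA2
  field_simp
  ring

end Pool.Agent.MP_8339a4_an
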