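import Pool.Agent.MP_8339a4_an.Api

/-! The Dini inequality for the functional `qH`. -/

open MeasureTheory Filter Topology Set

namespace Pool.Agent.MP_8339a4_an

variable {e p W W1 W2 W3 W4 : ℝ → ℝ}

theorem V1_eq_HH (y : ℝ) : V1 y = 20 * Q y ^ 3 * Q1 y := by unfold V1 V Q1; ring

theorem prim_Q_HH : IsPrim Q Q1 := isH1_Q.isPrim
theorem prim_Q1_HH : IsPrim Q1 Q2 := test_Q.h2.isPrim
theorem prim_Q2_HH : IsPrim Q2 Q3 := test_Q.h3.isPrim
theorem prim_V_HH : IsPrim V V1 := IsPrim.of_hasDerivAt hasDerivAt_V expD_V1.1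
theorem prim_id_HH : IsPrim (fun y => y) (fun _ => 1) :=
  IsPrim.of_hasDerivAt (fun y => hasDerivAt_id y) continuous_const

theorem prim_PP_HH (h : IsH1 e p) : IsPrim (fun y => PP y (e y))
    (fun y => 2 * (Q y + e y) ^ 5 * (Q1 y + p y) - 2 * Q y ^ 5 * Q1 y
      - 10 * Q y ^ 4 * Q1 y * e y - 2 * Q y ^ 5 * p y) :=
  (((((prim_Q_HH.add h.isPrim).pow 5).sub (prim_Q_HH.pow 5)).sub
    (((prim_Q_HH.pow 4).mul h.isPrim).const_mul 6)).const_mul (1 / 3)).congr
    (fun y => by unfold PP; ring) (fun y => by push_cast; ring)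

theorem prim_NN_HH (h : IsH1 e p) : IsPrim (fun y => NN y (e y))
    (fun y => 5 * (Q y + e y) ^ 4 * (Q1 y + p y) - 5 * Q y ^ 4 * Q1 y
      - 20 * Q y ^ 3 * Q1 y * e y - 5 * Q y ^ 4 * p y) :=
  ((((prim_Q_HH.add h.isPrim).pow 4).sub (prim_Q_HH.pow 4)).sub
    (((prim_Q_HH.pow 3).mul h.isPrim).const_mul 5)).congr
    (fun y => by unfold NN; ring) (fun y => by push_cast; ring)

theorem int_PP_HH (h : IsH1 e p) : Integrable (fun y => PP y (e y)) := by
  have h1 := (((isH1_Q.add h).integrable_pow 4).sub (isH1_Q.integrable_pow 4)).sub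
    ((((expD_Q.pow 4).mul_bdd h.bdd).const_mul 6).integrable)
  refine (h1.div_const 3).congr (Eventually.of_forall fun y => ?_)
  simp only [PP, Pi.sub_apply]
  ring

theorem bdd_NN_HH (h : IsH1 e p) : Bdd (fun y => NN y (e y)) :=
  ((((isH1_Q.add h).bdd.pow 5).sub (expD_Q.bdd.pow 5)).sub
    (((expD_Q.bdd.pow 4).mul h.bdd).const_mul 5)).congr fun y => by unfold NN; ring

theorem int_hH_HH (h : IsH1 e p) : Integrable (fun y => hH y (e y) (p y)) :=
  ((integrable_sq2 h.2.1).add (integrable_sq2 h.1)).sub (int_PP_HH h)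

theorem int_en_HH (h : IsH1 e p) : Integrable (fun y => en (e y) (p y)) :=
  (integrable_sq2 h.2.1).sub ((h.integrable_pow 4).div_const 3)

theorem h1t_HH (h : IsH1 e p) : H1T (⊤ : Filter Unit) (fun _ => e) (fun _ => p) e p :=
  ⟨Eventually.of_forall fun _ => h, h, by simp⟩

theorem prim_W_HH (hW : Wt W W1 W2 W3) : IsPrim W W1 :=
  IsPrim.of_hasDerivAt hW.sm.d1 hW.b1.1
theorem prim_W1_HH (hW : Wt W W1 W2 W3) : IsPrim W1 W2 :=
  IsPrim.of_hasDerivAt hW.sm.d2 hW.b2.1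
theorem prim_W2_HH (hW : Wt W W1 W2 W3) : IsPrim W2 W3 :=
  IsPrim.of_hasDerivAt hW.sm.d3 hW.b3.1

theorem static_HH (h : IsH1 e p) (hW : Wt W W1 W2 W3) :
    (∫ y, en (Q y + e y) (Q1 y + p y) * W y) + (∫ y, (Q y + e y) ^ 2 * W y)
      + 2 * (∫ y, e y * (Q1 y * W1 y)) - (∫ y, (en (Q y) (Q1 y) + Q y ^ 2) * W y)
      = qH W e p := by
  have hU := isH1_Q.add h
  have i1 := integrable_mul_bdd (int_en_HH hU) hW.b0
  have i2 := integrable_mul_bdd (integrable_sq2 hU.1) hW.b0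
  have i3 := ((expD_Q1.mul_bdd hW.b1).bdd_mul h.bdd).integrable
  have i4 : Integrable (fun y => (en (Q y) (Q1 y) + Q y ^ 2) * W y) :=
    integrable_mul_bdd ((int_en_HH isH1_Q).add (integrable_sq2 isH1_Q.1)) hW.b0
  have i5 := integrable_mul_bdd (int_hH_HH h) hW.b0
  have i6 := (((expD_Q1.bdd_mul h.bdd).mul_bdd hW.b0).const_mul 2).integrable
  have pr := ((h.isPrim.mul prim_Q1_HH).mul (prim_W_HH hW)).const_mul 2
  have i12 : Integrable (fun y => en (Q y + e y) (Q1 y + p y) * W y + (Q y + e y) ^ 2 * W y) :=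
    i1.add i2
  have i123 : Integrable (fun y => en (Q y + e y) (Q1 y + p y) * W y + (Q y + e y) ^ 2 * W y
      + 2 * (e y * (Q1 y * W1 y))) := i12.add (i3.const_mul 2)
  rw [← integral_const_mul, ← integral_add i1 i2, ← integral_add i12 (i3.const_mul 2),
    ← integral_sub i123 i4]
  refine pr.integral_eq i6 (i123.sub i4) i5 fun y => ?_
  simp only [en, hH, PP, Q2]
  ring

theorem test_HH (hW : Wt W W1 W2 W3) (h4 : ∀ y, HasDerivAt W3 (W4 y) y) (b4 : Bdd W4) :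
    Test (fun y => Q1 y * W1 y) (fun y => Q2 y * W1 y + Q1 y * W2 y)
      (fun y => Q3 y * W1 y + 2 * (Q2 y * W2 y) + Q1 y * W3 y)
      (fun y => Q4 y * W1 y + 3 * (Q3 y * W2 y) + 3 * (Q2 y * W3 y) + Q1 y * W4 y) :=
  test_Q1.mul_bdd ⟨hW.sm.d2, hW.sm.d3, h4, b4.1⟩ hW.b1 hW.b2 hW.b3 b4

theorem g_HH (h : IsH1 e p) :
    IsH1 (fun y => Q2 y - V y * e y) (fun y => Q3 y - (V1 y * e y + V y * p y)) :=
  (test_Q.h3.sub (h.mul_bdd hasDerivAt_V expD_V.bdd expD_V1.bdd)).congr (fun y => by ring)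
    (fun y => by ring)

theorem int_hT1_HH (h : IsH1 e p) (hW : Wt W W1 W2 W3) :
    Integrable (fun y => hT1 y (e y) (p y) (W1 y) (W2 y) (W3 y)) := by
  have hU := isH1_Q.add h
  have m1 : MemLp (fun y => V y * e y) 2 volume := memLp_bdd_mul h.1 expD_V.bdd
  have m2 : MemLp (fun y => V1 y * e y + V y * p y) 2 volume :=
    (memLp_bdd_mul h.1 expD_V1.bdd).add (memLp_bdd_mul h.2.1 expD_V.bdd)
  have m3 : MemLp (fun y => (V1 y * e y + V y * p y) * W1 y + V y * e y * W2 y) 2 volume :=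
    (memLp_mul_bdd m2 hW.b1).add (memLp_mul_bdd m1 hW.b2)
  have m4 : MemLp (fun y => p y - 5 * ((Q y + e y) ^ 4 * (Q1 y + p y) - Q y ^ 4 * Q1 y)) 2
      volume :=
    h.2.1.sub (((memLp_bdd_mul hU.2.1 (hU.bdd.pow 4)).sub
      (memLp_bdd_mul isH1_Q.2.1 (expD_Q.bdd.pow 4))).const_mul 5)
  have m5 : MemLp (fun y => e y - ((Q y + e y) ^ 5 - Q y ^ 5)) 2 volume :=
    h.1.sub ((hU.memLp_pow 4).sub (isH1_Q.memLp_pow 4))
  have i1 := (integrable_mul2 m3 h.2.1).const_mul (-6)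
  have i2 := (integrable_mul_bdd (integrable_sq2 m1) hW.b1).const_mul 3
  have i3 := (integrable_bdd_mul (integrable_mul2 m4 h.2.1) hW.b1).const_mul 4
  have i4 := (integrable_bdd_mul (integrable_mul2 m5 h.2.1) hW.b2).const_mul 2
  have i5 := integrable_bdd_mul (integrable_sq2 m5) hW.b1
  have i6 := integrable_bdd_mul (integrable_sq2 h.2.1) hW.b3
  refine (((((i1.add i2).sub i3).sub i4).sub i5).add i6).congr
    (Eventually.of_forall fun y => ?_)
  simp only [hT1, Pi.add_apply, Pi.sub_apply]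
  ring

theorem int_hT2_HH (h : IsH1 e p) (hW : Wt W W1 W2 W3) (β γ : ℝ) :
    Integrable (fun y => hT2 β γ y (e y) (W y) (W1 y)) :=
  (((((((expD_Q.bdd_mul h.bdd).mul_bdd hW.b0).const_mul 4).add
    ((expD_LQ1.bdd_mul (h.bdd.mul hW.b1)).const_mul 2)).const_mul β).sub
    (((expD_Q2.bdd_mul hW.b1).mul_bdd h.bdd).const_mul (2 * γ))).congr
    fun y => by unfold hT2; ring).integrable

theorem int_hT3_HH (h : IsH1 e p) (hW : Wt W W1 W2 W3) (β γ : ℝ) :
    Integrable (fun y => hT3 β γ y (e y) (p y) (W y) (W1 y)) := by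
  have i1 := (integrable_bdd_mul (int_hH_HH h) hW.b1).const_mul (-γ)
  have i0 : Integrable (fun y => p y ^ 2 - PP y (e y)) := (integrable_sq2 h.2.1).sub (int_PP_HH h)
  have i2 := (integrable_bdd_mul i0 hW.b0).const_mul (2 * β)
  refine (i1.sub i2).congr (Eventually.of_forall fun y => ?_)
  simp only [hT3, Pi.sub_apply]
  ring

theorem dyn_HH (h : IsH1 e p) (hW : Wt W W1 W2 W3) (h4 : ∀ y, HasDerivAt W3 (W4 y) y)
    (b4 : Bdd W4) (β γ : ℝ) :
    rhs2 β γ e p (fun y => Q2 y - V y * e y) (fun y => Q3 y - (V1 y * e y + V y * p y))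
        W W1 W2 W3 + rhs1 β γ e p W1 W3
      + 2 * rhs0 β γ e (fun y => Q1 y * W1 y) (fun y => Q2 y * W1 y + Q1 y * W2 y)
        (fun y => Q4 y * W1 y + 3 * (Q3 y * W2 y) + 3 * (Q2 y * W3 y) + Q1 y * W4 y)
      = ∫ y, (hT1 y (e y) (p y) (W1 y) (W2 y) (W3 y) + hT2 β γ y (e y) (W y) (W1 y)
        + hT3 β γ y (e y) (p y) (W y) (W1 y) + β * (hH y (e y) (p y) * (y * W1 y))) := by
  have hU := isH1_Q.add h
  have hθ := test_HH hW h4 b4
  have be := h.bdd
  have ie := int_en_HH hU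
  have iu := integrable_sq2 hU.1
  have j2 := ((((h1t_HH hU).fl2 (g_HH h) hW.b1 hW.b2 hW.b3).2.1.sub
    ((integrable_mul_bdd ie hW.b1).const_mul (1 + γ))).sub
    ((integrable_mul_bdd ie hW.b0).const_mul (2 * β))).add
    ((integrable_mul_bdd ie hW.by1).const_mul β)
  have j1 := (((h1t_HH hU).fl1 hW.b1 hW.b3).2.1.sub
    ((integrable_mul_bdd iu hW.b1).const_mul (1 + γ))).add
    ((integrable_mul_bdd iu hW.by1).const_mul β)
  have j0 := ((((((((hθ.e3.sub hθ.e1).add (hθ.e1.bdd_mul expD_V.bdd)).bdd_mul be).add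
    (hθ.e1.bdd_mul (bdd_NN_HH h))).sub ((hθ.e0.bdd_mul expD_LQ.bdd).const_mul β)).add
    ((hθ.e0.bdd_mul expD_Q1.bdd).const_mul γ)).add
    ((((hθ.e0.div_const 2).add hθ.e1.id_mul).bdd_mul be).const_mul β)).sub
    ((hθ.e1.bdd_mul be).const_mul γ)).integrable
  have jG := (((int_hT1_HH h hW).add (int_hT2_HH h hW β γ)).add (int_hT3_HH h hW β γ)).add
    ((integrable_mul_bdd (int_hH_HH h) hW.by1).const_mul β)
  have pe := h.isPrim
  have pq := pe.mul prim_Q1_HH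
  have eq1 := expD_Q1.bdd_mul be
  have p1 := (prim_W2_HH hW).mul ((((pe.pow 1).sub (prim_PP_HH h)).add
    ((pe.mul prim_Q2_HH).const_mul 6)).add ((prim_Q1_HH.pow 1).const_mul 2))
  have k1 := integrable_bdd_mul ((((h.integrable_pow 0).sub (int_PP_HH h)).add
    ((expD_Q2.bdd_mul be).const_mul 6).integrable).add
    ((expD_Q1.pow 1).const_mul 2).integrable) hW.b2
  have p2 := ((prim_W1_HH hW).mul prim_Q1_HH).mul (((((prim_NN_HH h).const_mul 4).sub
    ((prim_V_HH.mul pe).const_mul 4)).sub (pe.const_mul 2)).add (prim_Q2_HH.const_mul 2))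
  have k2 := ((expD_Q1.bdd_mul hW.b1).mul_bdd (((((bdd_NN_HH h).const_mul 4).sub
    ((expD_V.bdd.mul be).const_mul 4)).sub (be.const_mul 2)).add
    (expD_Q2.bdd.const_mul 2))).integrable
  have p3 := (pq.mul (IsPrim.of_hasDerivAt h4 b4.1)).const_mul 2
  have k3 := ((eq1.mul_bdd hW.b3).const_mul 2).integrable
  have p4 := ((((prim_id_HH.mul (pq.mul (prim_W1_HH hW))).const_mul 2).sub
    ((pq.mul (prim_W_HH hW)).const_mul 4)).sub
    ((prim_Q_HH.mul prim_Q1_HH).mul (prim_W_HH hW))).const_mul β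
  have k4 := (((((eq1.mul_bdd hW.b1).id_mul.const_mul 2).sub
    ((eq1.mul_bdd hW.b0).const_mul 4)).sub
    ((expD_Q.mul_bdd expD_Q1.bdd).mul_bdd hW.b0)).const_mul β).integrable
  have p5 := (pq.mul (prim_W1_HH hW)).const_mul (2 * γ)
  have k5 := ((eq1.mul_bdd hW.b1).const_mul (2 * γ)).integrable
  have key := ((((p1.add p2).add p3).add p4).sub p5).integral_eq
    ((((k1.add k2).add k3).add k4).sub k5) ((j2.add j1).add (j0.const_mul 2)) jG (fun y => by
      simp only [Pi.add_apply, Pi.sub_apply, fl1, fl2, en, hT1, hT2, hT3, hH, PP, NN, LQ, LQ1, Q4,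
        Q3, Q2, V1_eq_HH, V]
      push_cast
      linear_combination (-W3 y + γ * W1 y - β * y * W1 y - β * W y) * Q1_sq y)
  rw [integral_add' (j2.add j1) (j0.const_mul 2), integral_add' j2 j1, integral_const_mul] at key
  exact key

theorem hh : HStmt := by
  intro e ey lam β γ s h W W1 W2 W3 W4 hW h4 b4 h0
  have hs := h.h1t.2.1
  have d := (((h.d2 W W1 W2 W3 hW h0 _ _ (g_HH hs)).add_hasDerivAt
    (h.d1 W W1 W2 W3 hW)).add_hasDerivAt
    ((h.d0 _ _ _ _ (test_HH hW h4 b4)).const_mul 2)).sub_hasDerivAt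
    (hasDerivAt_const s (∫ y, (en (Q y) (Q1 y) + Q y ^ 2) * W y))
  rw [one_mul, one_mul, one_mul, sub_zero, dyn_HH hs hW h4 b4] at d
  exact d.congr (h.h1t.1.mono fun z hz => static_HH hz hW)

end Pool.Agent.MP_8339a4_an
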