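import Pool.Agent.MP_8339a4_an.EA

/-! The main flux term `I1`. -/

open MeasureTheory Filter Topology Set

namespace Pool.Agent.MP_8339a4_an

/-- The bracket multiplying `W1`. -/
theorem br1_I1 {q v1 q1 e p D4 D5 : ℝ} (hq0 : 0 < q) (hq4 : q ^ 4 ≤ 3)
    (hv1 : |v1| ≤ 20 * q ^ 4) (hq1 : |q1| ≤ q) (he : |e| ≤ 1 / 10000) (h4 : |D4| ≤ 30 * |e|)
    (h5 : |D5| ≤ 40 * |e| * (q ^ 4 + e ^ 4)) :
    -6 * v1 * e * p - 10 * q ^ 4 * p ^ 2 + 75 * q ^ 8 * e ^ 2 - 4 * p ^ 2 + 20 * D4 * p ^ 2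
      + 20 * D4 * q1 * p - (e - D5) ^ 2
      ≤ -(3 / 4) * (e ^ 2 + p ^ 2) + 120000 * (q ^ 2 * e ^ 2) := by
  have hq2 : q ^ 2 ≤ 2 := by nlinarith
  have hq6 : q ^ 6 ≤ 6 := by
    have : q ^ 6 = q ^ 4 * q ^ 2 := by ring
    rw [this]
    nlinarith [pow_nonneg hq0.le 4, pow_nonneg hq0.le 2]
  have he0 := abs_nonneg e
  have hp0 := abs_nonneg p
  have hee : |e| ^ 2 = e ^ 2 := sq_abs e
  have hpp : |p| ^ 2 = p ^ 2 := sq_abs p
  have hqe : 0 ≤ q ^ 2 * e ^ 2 := by positivity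
  have h8 : q ^ 8 * e ^ 2 ≤ 6 * (q ^ 2 * e ^ 2) := by
    have : q ^ 8 * e ^ 2 = q ^ 6 * (q ^ 2 * e ^ 2) := by ring
    rw [this]
    exact mul_le_mul_of_nonneg_right hq6 hqe
  have t1 : -6 * v1 * e * p ≤ p ^ 2 + 21600 * (q ^ 2 * e ^ 2) := by
    have a1 : -6 * v1 * e * p ≤ 6 * (|v1| * (|e| * |p|)) := by
      have := neg_abs_le (v1 * e * p)
      rw [abs_mul, abs_mul] at this
      nlinarith
    have a2 : |v1| * (|e| * |p|) ≤ 20 * q ^ 4 * (|e| * |p|) :=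
      mul_le_mul_of_nonneg_right hv1 (by positivity)
    have a3 : 120 * q ^ 4 * (|e| * |p|) ≤ |p| ^ 2 + 3600 * (q ^ 8 * |e| ^ 2) := by
      nlinarith [sq_nonneg (|p| - 60 * q ^ 4 * |e|)]
    rw [hee, hpp] at a3
    nlinarith
  have t2 : 20 * D4 * p ^ 2 ≤ 1 / 10 * p ^ 2 := by
    have a1 : 20 * D4 ≤ 1 / 10 := by linarith [le_abs_self D4]
    exact mul_le_mul_of_nonneg_right a1 (sq_nonneg p)
  have t3 : 20 * D4 * q1 * p ≤ p ^ 2 + 90000 * (q ^ 2 * e ^ 2) := by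
    have a1 : D4 * q1 * p ≤ |D4| * |q1| * |p| := by
      have := le_abs_self (D4 * q1 * p)
      rwa [abs_mul, abs_mul] at this
    have a2 : |D4| * |q1| ≤ 30 * |e| * q :=
      mul_le_mul h4 hq1 (abs_nonneg _) (by positivity)
    have a3 : |D4| * |q1| * |p| ≤ 30 * |e| * q * |p| := mul_le_mul_of_nonneg_right a2 hp0
    have a4 : 600 * |e| * q * |p| ≤ |p| ^ 2 + 90000 * (q ^ 2 * |e| ^ 2) := by
      nlinarith [sq_nonneg (|p| - 300 * q * |e|)]
    rw [hee, hpp] at a4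
    nlinarith
  have t4 : -(e - D5) ^ 2 ≤ -(3 / 4) * e ^ 2 + 160 * (q ^ 2 * e ^ 2) := by
    have a1 : e * D5 ≤ |e| * |D5| := by
      have := le_abs_self (e * D5)
      rwa [abs_mul] at this
    have a2 : |e| * |D5| ≤ |e| * (40 * |e| * (q ^ 4 + e ^ 4)) :=
      mul_le_mul_of_nonneg_left h5 he0
    have a3 : |e| * (40 * |e| * (q ^ 4 + e ^ 4)) = 40 * (e ^ 2 * (q ^ 4 + e ^ 4)) := by
      rw [← hee]; ring
    have a4 : e ^ 2 ≤ 1 / 1000 := by rw [← hee]; nlinarith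
    have a5 : e ^ 4 ≤ 1 / 1000 := by
      have : e ^ 4 = e ^ 2 * e ^ 2 := by ring
      rw [this]
      nlinarith [sq_nonneg e]
    have a6 : q ^ 4 ≤ 2 * q ^ 2 := by
      have : q ^ 4 = q ^ 2 * q ^ 2 := by ring
      rw [this]
      exact mul_le_mul_of_nonneg_right hq2 (sq_nonneg q)
    have a7 : e ^ 2 * (q ^ 4 + e ^ 4) ≤ e ^ 2 * (2 * q ^ 2 + 1 / 1000) :=
      mul_le_mul_of_nonneg_left (by linarith) (sq_nonneg e)
    nlinarith [sq_nonneg D5, sq_nonneg e]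
  have t5 : 0 ≤ q ^ 4 * p ^ 2 := by positivity
  nlinarith [sq_nonneg p]

/-- The bracket multiplying `W2`. -/
theorem br2_I1 {q e p D5 : ℝ} (hq4 : q ^ 4 ≤ 3) (he : |e| ≤ 1 / 10000)
    (h5 : |D5| ≤ 40 * |e| * (q ^ 4 + e ^ 4)) :
    |-30 * q ^ 4 * e * p - 2 * (e - D5) * p| ≤ 206 * (e ^ 2 + p ^ 2) := by
  have he0 := abs_nonneg e
  have hp0 := abs_nonneg p
  have hee : |e| ^ 2 = e ^ 2 := sq_abs e
  have hpp : |p| ^ 2 = p ^ 2 := sq_abs p
  have hq0 : 0 ≤ q ^ 4 := by positivity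
  have a4 : e ^ 2 ≤ 1 := by rw [← hee]; nlinarith
  have a5 : e ^ 4 ≤ 1 := by
    have : e ^ 4 = e ^ 2 * e ^ 2 := by ring
    rw [this]
    nlinarith [sq_nonneg e]
  have a6 : |D5| ≤ 160 * |e| := by
    have : 40 * |e| * (q ^ 4 + e ^ 4) ≤ 40 * |e| * 4 :=
      mul_le_mul_of_nonneg_left (by linarith) (by positivity)
    linarith
  have a7 : |-30 * q ^ 4 * e - 2 * (e - D5)| ≤ 412 * |e| := by
    have b1 : |q ^ 4 * e| ≤ 3 * |e| := by
      rw [abs_mul, abs_of_nonneg hq0]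
      exact mul_le_mul_of_nonneg_right hq4 he0
    rw [abs_le] at b1 a6 ⊢
    have := le_abs_self e
    have := neg_abs_le e
    constructor <;> nlinarith [b1.1, b1.2, a6.1, a6.2]
  have a8 : -30 * q ^ 4 * e * p - 2 * (e - D5) * p = (-30 * q ^ 4 * e - 2 * (e - D5)) * p := by
    ring
  rw [a8, abs_mul]
  have a9 : |-30 * q ^ 4 * e - 2 * (e - D5)| * |p| ≤ 412 * |e| * |p| :=
    mul_le_mul_of_nonneg_right a7 hp0
  nlinarith [sq_nonneg (|e| - |p|)]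

/-- Pointwise bound of the flux density. -/
theorem hT1_le_I1 (y : ℝ) {e p W1 W2 W3 ε : ℝ} (he : |e| ≤ 1 / 10000) (hW1 : 0 ≤ W1)
    (hε0 : 0 ≤ ε) (hε : ε ≤ 1 / 1000) (h2 : |W2| ≤ ε * W1) (h3 : |W3| ≤ ε ^ 2 * W1) :
    hT1 y e p W1 W2 W3 ≤ W1 * (-(1 / 2) * (e ^ 2 + p ^ 2) + 120000 * (Q y ^ 2 * e ^ 2)) := by
  have he1 : |e| ≤ 1 := by linarith
  have hq4 : Q y ^ 4 ≤ 3 := by
    have := V_le y
    unfold V at this
    linarith
  have hv1 : |V1 y| ≤ 20 * Q y ^ 4 := by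
    have := abs_V1_le y
    unfold V at this
    linarith
  have b1 := br1_I1 (p := p) (Q_pos y) hq4 hv1 (abs_Q1_le y) he (abs_pow4_sub_le y he1)
    (abs_pow5_sub_le y he1)
  have b2 := br2_I1 (p := p) hq4 he (abs_pow5_sub_le y he1)
  set D4 := (Q y + e) ^ 4 - Q y ^ 4 with hD4
  set D5 := (Q y + e) ^ 5 - Q y ^ 5 with hD5
  have e0 : hT1 y e p W1 W2 W3 = W1 * (-6 * V1 y * e * p - 10 * Q y ^ 4 * p ^ 2
      + 75 * Q y ^ 8 * e ^ 2 - 4 * p ^ 2 + 20 * D4 * p ^ 2 + 20 * D4 * Q1 y * p - (e - D5) ^ 2)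
      + W2 * (-30 * Q y ^ 4 * e * p - 2 * (e - D5) * p) + W3 * p ^ 2 := by
    have hU : (Q y + e) ^ 4 = Q y ^ 4 + D4 := by rw [hD4]; ring
    unfold hT1 V
    rw [hU, ← hD5]
    ring
  have hs : 0 ≤ e ^ 2 + p ^ 2 := by positivity
  have c1 := mul_le_mul_of_nonneg_left b1 hW1
  have c2 : W2 * (-30 * Q y ^ 4 * e * p - 2 * (e - D5) * p)
      ≤ W1 * (21 / 100 * (e ^ 2 + p ^ 2)) := by
    have a1 := le_abs_self (W2 * (-30 * Q y ^ 4 * e * p - 2 * (e - D5) * p))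
    rw [abs_mul] at a1
    have a2 : |W2| * |-30 * Q y ^ 4 * e * p - 2 * (e - D5) * p|
        ≤ ε * W1 * (206 * (e ^ 2 + p ^ 2)) :=
      mul_le_mul h2 b2 (abs_nonneg _) (by positivity)
    have a3 : ε * (W1 * (e ^ 2 + p ^ 2)) ≤ 1 / 1000 * (W1 * (e ^ 2 + p ^ 2)) :=
      mul_le_mul_of_nonneg_right hε (by positivity)
    have a4 : 0 ≤ W1 * (e ^ 2 + p ^ 2) := by positivity
    nlinarith
  have c3 : W3 * p ^ 2 ≤ W1 * (1 / 100 * (e ^ 2 + p ^ 2)) := by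
    have a1 : W3 ≤ 1 / 100 * W1 := by
      have a2 : ε ^ 2 ≤ 1 / 100 := by nlinarith
      have a3 := mul_le_mul_of_nonneg_right a2 hW1
      linarith [le_abs_self W3]
    have a4 := mul_le_mul_of_nonneg_right a1 (sq_nonneg p)
    have a5 : 0 ≤ W1 * e ^ 2 := by positivity
    nlinarith
  have c4 : 0 ≤ W1 * (e ^ 2 + p ^ 2) := by positivity
  rw [e0]
  nlinarith

/-- Integrability of the flux density. -/
theorem integrable_hT1_I1 {e ey W1 W2 W3 : ℝ → ℝ} (h : IsH1 e ey) (b1 : Bdd W1) (b2 : Bdd W2)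
    (b3 : Bdd W3) : Integrable (fun y => hT1 y (e y) (ey y) (W1 y) (W2 y) (W3 y)) := by
  have hU : IsH1 (fun y => Q y + e y) (fun y => Q1 y + ey y) := isH1_Q.add h
  have m5 : MemLp (fun y => e y - ((Q y + e y) ^ 5 - Q y ^ 5)) 2 volume :=
    h.1.sub ((hU.memLp_pow 4).sub (isH1_Q.memLp_pow 4))
  have bV := expD_V.bdd
  have bV1 := expD_V1.bdd
  have bU := hU.bdd.pow 4
  have bQ := expD_Q.bdd.pow 4
  have i1 := integrable_mul_bdd (integrable_mul2 h.1 h.2.1)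
    (((bV1.mul b1).add (bV.mul b2)).const_mul (-6))
  have i2 := integrable_mul_bdd (integrable_sq2 h.2.1)
    (((((bV.mul b1).const_mul (-6)).sub (b1.const_mul 4)).add ((bU.mul b1).const_mul 20)).add b3)
  have i3 := integrable_mul_bdd (integrable_sq2 h.1) (((bV.pow 2).mul b1).const_mul 3)
  have i4 := integrable_mul_bdd (integrable_mul2 expD_Q1.memLp h.2.1)
    (((bU.sub bQ).mul b1).const_mul 20)
  have i5 := integrable_mul_bdd (integrable_mul2 m5 h.2.1) (b2.const_mul (-2))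
  have i6 := integrable_mul_bdd (integrable_sq2 m5) b1.neg
  refine (((((i1.add i2).add i3).add i4).add i5).add i6).congr (ae_of_all _ fun y => ?_)
  simp only [Pi.add_apply, hT1]
  ring

/-- The static form of the estimate. -/
theorem static_I1 {r A K B r0 r1 : ℝ} {e ey : ℝ → ℝ} (hw : WP r A K B) (hr0 : r0 ≤ r)
    (hr1 : r ≤ r1) (hε : 1000 * r ≤ B) (h : IsH1 e ey) (he : ∀ y, |e y| ≤ 1 / 10000) :
    ∫ y, hT1 y (e y) (ey y) (WW1 r A B y) (WW2 r A B y) (WW3 r A B y)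
      ≤ -(r0 / (4 * B) * qD r A K B e ey) + 240000 * r1 / B * N0 e := by
  have hr := hw.hr
  have hB := hw.B_pos
  have wt := wt_WW hr hB A
  have iD : Integrable (fun y => pM r A K B y * (e y ^ 2 + ey y ^ 2)) :=
    integrable_bdd_mul ((integrable_sq2 h.1).add (integrable_sq2 h.2.1)) (bdd_pM r A K B)
  have iN : Integrable (fun y => Q y * e y ^ 2) :=
    integrable_bdd_mul (integrable_sq2 h.1) expD_Q.bdd
  have hR : ∫ y, (-(r0 / (4 * B)) * (pM r A K B y * (e y ^ 2 + ey y ^ 2))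
      + 240000 * r1 / B * (Q y * e y ^ 2))
      = -(r0 / (4 * B) * qD r A K B e ey) + 240000 * r1 / B * N0 e := by
    rw [integral_add (iD.const_mul _) (iN.const_mul _), integral_const_mul, integral_const_mul]
    unfold qD N0
    ring
  rw [← hR]
  refine integral_mono (integrable_hT1_I1 h wt.b1 wt.b2 wt.b3)
    ((iD.const_mul _).add (iN.const_mul _)) fun y => ?_
  have hε1 : r / B ≤ 1 / 1000 := by
    rw [div_le_iff₀ hB]
    linarith
  have hW1 := (WW1_pos hr hB A y).le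
  have k1 := hT1_le_I1 y (p := ey y) (he y) hW1 (div_pos hr hB).le hε1 (abs_WW2_le hr hB A y)
    (abs_WW3_le hr hB A y)
  have hs : 0 ≤ e y ^ 2 + ey y ^ 2 := by positivity
  have k2 : r0 / (4 * B) * (pM r A K B y * (e y ^ 2 + ey y ^ 2))
      ≤ 1 / 2 * (WW1 r A B y * (e y ^ 2 + ey y ^ 2)) := by
    have a1 : r0 / (2 * B) ≤ r / (2 * B) := div_le_div_of_nonneg_right hr0 (by positivity)
    have a2 := mul_le_mul_of_nonneg_right a1 (pM_pos r A K B y).le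
    have a3 := mul_le_mul_of_nonneg_right (a2.trans (hw.pM_le_WW1 y)) hs
    have a4 : r0 / (4 * B) = 1 / 2 * (r0 / (2 * B)) := by
      field_simp
      ring
    rw [a4]
    nlinarith
  have k3 : WW1 r A B y * Q y ≤ 2 * r1 / B := by
    have a1 : WW r A B y * Q y ≤ Real.exp (|y| / 100) * (2 * Real.exp (-|y|)) :=
      mul_le_mul (hw.WW_le_env y) (Q_le_exp y) (Q_pos y).le (Real.exp_pos _).le
    have a2 : Real.exp (|y| / 100) * Real.exp (-|y|) ≤ 1 := by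
      rw [← Real.exp_add]
      exact Real.exp_le_one_iff.2 (by linarith [abs_nonneg y])
    have a3 : WW r A B y * Q y ≤ 2 := by nlinarith
    have a4 := mul_le_mul_of_nonneg_right (WW1_le hr hB A y) (Q_pos y).le
    have a5 : r / B * (WW r A B y * Q y) ≤ r1 / B * 2 :=
      mul_le_mul (div_le_div_of_nonneg_right hr1 hB.le) a3
        (mul_pos (WW_pos r A B y) (Q_pos y)).le (div_pos (hr.trans_le hr1) hB).le
    have a6 : 2 * r1 / B = r1 / B * 2 := by ring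
    rw [a6]
    nlinarith
  have k4 : WW1 r A B y * Q y * (Q y * e y ^ 2) ≤ 2 * r1 / B * (Q y * e y ^ 2) :=
    mul_le_mul_of_nonneg_right k3 (mul_nonneg (Q_pos y).le (sq_nonneg _))
  have k5 : 240000 * r1 / B = 120000 * (2 * r1 / B) := by ring
  show hT1 y (e y) (ey y) (WW1 r A B y) (WW2 r A B y) (WW3 r A B y) ≤ _
  rw [k5]
  nlinarith

theorem i1 : I1Stmt := by
  intro X
  refine ⟨240000 * X.r1, by have := X.r1_pos; positivity, fun B hB => ?_⟩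
  filter_upwards [X.ev_gt, X.ev_sup (δ := 1 / 10000) (by norm_num)] with s hs he
  have h1 := X.r_le_K hs
  have h2 := X.B_ge hB
  have h3 := X.K_pos
  exact static_I1 (X.wp hs hB) (X.r_ge hs) (X.r_le hs) (by linarith) (X.h1 hs) he

end Pool.Agent.MP_8339a4_an
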