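import Pool.Agent.MP_8339a4_an.EA

/-! The terms linear in `e` and in the parameters. -/

open MeasureTheory Filter Topology Set

namespace Pool.Agent.MP_8339a4_an

theorem amgm_I2 {x y B : ℝ} (hB : 0 < B) : 2 * (x * y) ≤ x ^ 2 / B + B * y ^ 2 := by
  have h : 0 ≤ (x - B * y) ^ 2 / B := by positivity
  have e : (x - B * y) ^ 2 / B = x ^ 2 / B + B * y ^ 2 - 2 * (x * y) := by
    field_simp
    ring
  linarith

theorem W1_le_I2 {r A K B : ℝ} (w : WP r A K B) (hr : 0 < r) (y : ℝ) :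
    |WW1 r A B y| ≤ r / B * Real.exp (|y| / 20) := by
  have hB := w.B_pos
  rw [abs_of_pos (WW1_pos hr hB A y)]
  refine (WW1_le hr hB A y).trans (mul_le_mul_of_nonneg_left ((w.WW_le_env y).trans ?_)
    (by positivity))
  apply Real.exp_le_exp.2
  have := abs_nonneg y
  linarith

theorem W_sub_I2 {r A K B : ℝ} (w : WP r A K B) (hr : 0 < r)
    (he : Real.exp (-(A / B)) ≤ 1 / B) (y : ℝ) :
    |WW r A B y - 1| ≤ (r + 1) / B * (Real.exp (|y| / 20) * (1 + |y|)) := by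
  have hB := w.B_pos
  have h0 := abs_nonneg y
  have h1 : Real.exp (|y| / 100) ≤ Real.exp (|y| / 20) := Real.exp_le_exp.2 (by linarith)
  have h2 : Real.exp (|y| / 50) ≤ Real.exp (|y| / 20) := Real.exp_le_exp.2 (by linarith)
  have hE := Real.exp_pos (|y| / 20)
  have a1 : r / B * |y| * Real.exp (|y| / 100) ≤ r / B * (Real.exp (|y| / 20) * (1 + |y|)) := by
    rw [mul_assoc]
    refine mul_le_mul_of_nonneg_left ?_ (by positivity)
    calc |y| * Real.exp (|y| / 100) ≤ |y| * Real.exp (|y| / 20) :=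
          mul_le_mul_of_nonneg_left h1 h0
      _ ≤ _ := by nlinarith
  have a2 : Real.exp (-(A / B)) * Real.exp (|y| / 50)
      ≤ 1 / B * (Real.exp (|y| / 20) * (1 + |y|)) := by
    refine mul_le_mul he (h2.trans ?_) (Real.exp_pos _).le (by positivity)
    nlinarith
  have e : (r + 1) / B * (Real.exp (|y| / 20) * (1 + |y|))
      = r / B * (Real.exp (|y| / 20) * (1 + |y|)) + 1 / B * (Real.exp (|y| / 20) * (1 + |y|)) := by
    ring
  have := w.abs_WW_sub_one y
  linarith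

theorem g1_le_I2 {r A K B R : ℝ} (w : WP r A K B) (hr : 0 < r) (hR : r ≤ R)
    (he : Real.exp (-(A / B)) ≤ 1 / B) (y : ℝ) :
    |4 * (Q y * (WW r A B y - 1)) + 2 * (LQ1 y * WW1 r A B y)|
      ≤ (8 * R + 4) / B * (Real.exp (|y| / 20) * (1 + |y|) * Q y) := by
  have hB := w.B_pos
  have h0 := abs_nonneg y
  have hQ := Q_pos y
  have hE := Real.exp_pos (|y| / 20)
  have a1 : |Q y * (WW r A B y - 1)| ≤ Q y * ((r + 1) / B * (Real.exp (|y| / 20) * (1 + |y|))) := by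
    rw [abs_mul, abs_of_pos hQ]
    exact mul_le_mul_of_nonneg_left (W_sub_I2 w hr he y) hQ.le
  have a2 : |LQ1 y * WW1 r A B y| ≤ 2 * (1 + |y|) * Q y * (r / B * Real.exp (|y| / 20)) := by
    rw [abs_mul]
    exact mul_le_mul (abs_LQ1_le y) (W1_le_I2 w hr y) (abs_nonneg _) (by positivity)
  have a3 : (8 * r + 4) / B * (Real.exp (|y| / 20) * (1 + |y|) * Q y)
      ≤ (8 * R + 4) / B * (Real.exp (|y| / 20) * (1 + |y|) * Q y) := by
    refine mul_le_mul_of_nonneg_right ?_ (by positivity)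
    exact div_le_div_of_nonneg_right (by linarith) hB.le
  have e : (8 * r + 4) / B * (Real.exp (|y| / 20) * (1 + |y|) * Q y)
      = 4 * (Q y * ((r + 1) / B * (Real.exp (|y| / 20) * (1 + |y|))))
        + 2 * (2 * (1 + |y|) * Q y * (r / B * Real.exp (|y| / 20))) := by
    ring
  have a4 := abs_add_le (4 * (Q y * (WW r A B y - 1))) (2 * (LQ1 y * WW1 r A B y))
  rw [abs_mul 4, abs_mul 2] at a4
  have b4 : |(4 : ℝ)| = 4 := by norm_num
  have b2 : |(2 : ℝ)| = 2 := by norm_num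
  rw [b4, b2] at a4
  linarith

theorem g2_le_I2 {r A K B R : ℝ} (w : WP r A K B) (hr : 0 < r) (hR : r ≤ R) (y : ℝ) :
    |(-2) * (Q2 y * WW1 r A B y)|
      ≤ (8 * R + 4) / B * (Real.exp (|y| / 20) * (1 + |y|) * Q y) := by
  have hB := w.B_pos
  have h0 := abs_nonneg y
  have hQ := Q_pos y
  have hE := Real.exp_pos (|y| / 20)
  have a2 : |Q2 y * WW1 r A B y| ≤ 2 * Q y * (r / B * Real.exp (|y| / 20)) := by
    rw [abs_mul]
    exact mul_le_mul (abs_Q2_le y) (W1_le_I2 w hr y) (abs_nonneg _) (by positivity)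
  have a3 : 4 * r / B * (Real.exp (|y| / 20) * Q y)
      ≤ (8 * R + 4) / B * (Real.exp (|y| / 20) * (1 + |y|) * Q y) := by
    refine mul_le_mul (div_le_div_of_nonneg_right (by linarith) hB.le) ?_ (by positivity)
      (div_nonneg (by linarith) hB.le)
    refine mul_le_mul_of_nonneg_right ?_ hQ.le
    nlinarith
  have e : 4 * r / B * (Real.exp (|y| / 20) * Q y)
      = 2 * (2 * Q y * (r / B * Real.exp (|y| / 20))) := by
    ring
  have b2 : |(-2 : ℝ)| = 2 := by norm_num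
  rw [abs_mul, b2]
  linarith

theorem i2 : I2Stmt := by
  intro X
  obtain ⟨Cp, hCp, hpar⟩ := X.par_le
  have hr1 := X.r1_pos
  refine ⟨2 * Cp + 40 * (8 * X.r1 + 4) ^ 2, by positivity, fun B hB => ⟨4 * B, ?_⟩⟩
  have hB0 : 0 < B := by
    have := X.CA_pos
    linarith
  filter_upwards [X.ev_gt, X.ev_exp_neg hB0 (ε := 1 / B) (by positivity)] with s hs he
  have w := X.wp hs hB
  have hr := X.r_pos hs
  have hR := X.r_le hs
  have hm : MemLp (X.e s) 2 volume := (X.h1 hs).1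
  have wt := wt_WW hr hB0 (X.A s)
  have d1 : ExpD (fun y => 4 * (Q y * (WW (X.r s) (X.A s) B y - 1))
      + 2 * (LQ1 y * WW1 (X.r s) (X.A s) B y)) :=
    ((expD_Q.mul_bdd (wt.b0.sub (Bdd.const 1))).const_mul 4).add
      ((expD_LQ1.mul_bdd wt.b1).const_mul 2)
  have d2 : ExpD (fun y => (-2) * (Q2 y * WW1 (X.r s) (X.A s) B y)) :=
    (expD_Q2.mul_bdd wt.b1).const_mul (-2)
  have i0 := integrable_mul2 hm expD_Q.memLp
  have i1 := integrable_mul2 hm d1.memLp
  have i2 := integrable_mul2 hm d2.memLp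
  have s1 := sq_integral_le_N0 hm d1.1 (g1_le_I2 w hr hR he)
  have s2 := sq_integral_le_N0 hm d2.1 (g2_le_I2 w hr hR)
  have e : X.I2 B s = 4 * X.β s * X.μ s
      + X.β s * (∫ y, X.e s y * (4 * (Q y * (WW (X.r s) (X.A s) B y - 1))
        + 2 * (LQ1 y * WW1 (X.r s) (X.A s) B y)))
      + X.γ s * ∫ y, X.e s y * ((-2) * (Q2 y * WW1 (X.r s) (X.A s) B y)) := by
    have j01 : Integrable (fun y => 4 * X.β s * (X.e s y * Q y)
        + X.β s * (X.e s y * (4 * (Q y * (WW (X.r s) (X.A s) B y - 1))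
          + 2 * (LQ1 y * WW1 (X.r s) (X.A s) B y)))) := (i0.const_mul _).add (i1.const_mul _)
    unfold Dat.I2 Dat.μ mu
    rw [← integral_const_mul, ← integral_const_mul, ← integral_const_mul,
      ← integral_add (i0.const_mul _) (i1.const_mul _), ← integral_add j01 (i2.const_mul _)]
    congr 1
    funext y
    unfold hT2
    ring
  rw [e]
  set J1 := ∫ y, X.e s y * (4 * (Q y * (WW (X.r s) (X.A s) B y - 1))
        + 2 * (LQ1 y * WW1 (X.r s) (X.A s) B y))
  set J2 := ∫ y, X.e s y * ((-2) * (Q2 y * WW1 (X.r s) (X.A s) B y))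
  have hN : N0 (X.e s) = X.N s := rfl
  rw [hN] at s1 s2
  have p := hpar s hs
  have t0 := amgm_I2 (x := X.β s) (y := 2 * X.μ s) hB0
  have t1 := amgm_I2 (x := X.β s) (y := J1) hB0
  have t2 := amgm_I2 (x := X.γ s) (y := J2) hB0
  have u1 := mul_le_mul_of_nonneg_left s1 hB0.le
  have u2 := mul_le_mul_of_nonneg_left s2 hB0.le
  have e1 : B * (40 * ((8 * X.r1 + 4) / B) ^ 2 * X.N s) = 40 * (8 * X.r1 + 4) ^ 2 / B * X.N s := by
    field_simp
  have p' : (X.β s ^ 2 + X.γ s ^ 2) / B ≤ Cp * X.N s / B := div_le_div_of_nonneg_right p hB0.le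
  have e2 : (2 * Cp + 40 * (8 * X.r1 + 4) ^ 2) / B * X.N s
      = 2 * (Cp * X.N s / B) + 40 * (8 * X.r1 + 4) ^ 2 / B * X.N s := by ring
  have e3 : (X.β s ^ 2 + X.γ s ^ 2) / B = X.β s ^ 2 / B + X.γ s ^ 2 / B := by ring
  have n1 : 0 ≤ X.β s ^ 2 / B := by positivity
  have n2 : 0 ≤ X.γ s ^ 2 / B := by positivity
  have e4 : B * (2 * X.μ s) ^ 2 = 4 * B * X.μ s ^ 2 := by ring
  have e5 : 2 * (X.β s * (2 * X.μ s)) = 4 * X.β s * X.μ s := by ring
  rw [e1] at u1 u2
  linarith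

end Pool.Agent.MP_8339a4_an
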