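import Pool.Agent.MP_8339a4_an.EA

/-! The terms quadratic in the remainder and linear in the parameters. -/

open MeasureTheory Filter Topology Set

namespace Pool.Agent.MP_8339a4_an

theorem mono_I3 {f g : ℝ → ℝ} (hg : Integrable g) (h0 : ∀ y, 0 ≤ g y) (h : ∀ y, f y ≤ g y) :
    ∫ y, f y ≤ ∫ y, g y := by
  by_cases hf : Integrable f
  · exact integral_mono hf hg h
  · rw [integral_undef hf]
    exact integral_nonneg h0

theorem alg_I3 {β γ δ W W1 φ E P p2 e2 e6 q R : ℝ} (hβ : |β| ≤ δ) (hγ : |γ| ≤ δ) (hδ : δ ≤ 1)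
    (h1 : 0 ≤ W1) (h2 : W1 ≤ W) (h3 : W ≤ E) (h4 : W1 ≤ E * P) (φ0 : 0 ≤ φ) (φ1 : φ ≤ 1)
    (p0 : 0 ≤ p2) (e0 : 0 ≤ e2) (e60 : 0 ≤ e6) (r1 : |R| ≤ 40 * q + e6 / 3)
    (r2 : |R| ≤ 54 * e2) :
    -(γ * W1 * (p2 + e2 - R)) - 2 * β * W * (p2 - R) ≤ 163 * δ * (W * (1 - φ) * (e2 + p2)) +
      E * (3 * (φ * p2) + 55 * (φ * P * e2) + φ * e6 + 80 * (φ * q)) := by
  have δ0 : 0 ≤ δ := (abs_nonneg _).trans hβ
  have W0 : 0 ≤ W := h1.trans h2
  have E0 : 0 ≤ E := W0.trans h3
  have φ2 : 0 ≤ 1 - φ := sub_nonneg.2 φ1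
  have a1 : |p2 + e2 - R| ≤ p2 + 55 * e2 := by
    rw [abs_le] at r2 ⊢
    constructor <;> linarith [r2.1, r2.2]
  have a2 : |p2 - R| ≤ p2 + |R| := (abs_sub _ _).trans (by rw [abs_of_nonneg p0])
  have b1 : -(γ * W1 * (p2 + e2 - R)) ≤ δ * (W1 * (p2 + 55 * e2)) := by
    refine (neg_le_abs _).trans ?_
    rw [mul_assoc, abs_mul, abs_mul, abs_of_nonneg h1]
    gcongr
  have b2 : -(2 * β * W * (p2 - R)) ≤ 2 * (δ * (W * (p2 + |R|))) := by
    refine (neg_le_abs _).trans ?_
    rw [mul_assoc, mul_assoc, abs_mul, abs_mul, abs_mul, abs_of_nonneg W0, abs_two]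
    gcongr
  have c1 : δ * (W1 * (1 - φ) * (p2 + 55 * e2)) ≤ δ * (W * (1 - φ) * (55 * (e2 + p2))) := by
    gcongr
    linarith
  have c2 : δ * (W1 * (φ * p2)) ≤ 1 * (E * (φ * p2)) := by
    gcongr
    exact h2.trans h3
  have c3 : δ * (W1 * (φ * e2)) ≤ 1 * (E * P * (φ * e2)) := by gcongr
  have c4 : δ * (W * (1 - φ) * (p2 + |R|)) ≤ δ * (W * (1 - φ) * (54 * (e2 + p2))) := by
    gcongr
    linarith
  have c5 : δ * (W * (φ * (p2 + |R|))) ≤ 1 * (E * (φ * (p2 + (40 * q + e6 / 3)))) := by gcongr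
  have c6 : 0 ≤ E * (φ * e6) := by positivity
  linarith

theorem static_I3 {r A K B β γ δ : ℝ} (h : WP r A K B) {e ey : ℝ → ℝ} (he : IsH1 e ey)
    (h1 : ∀ y, |e y| ≤ 1) (h2 : ∫ y, ey y ^ 2 ≤ 1) (hβ : |β| ≤ δ) (hγ : |γ| ≤ δ) (hδ : δ ≤ 1) :
    ∫ y, hT3 β γ y (e y) (ey y) (WW r A B y) (WW1 r A B y) ≤ 163 * δ * qD r A K B e ey +
      Real.exp (A / B) * (3 * qK r A K ey + 55 * (∫ y, ph r A K y * P1 ((r * y - A) / B) * e y ^ 2)
        + q6 r A K e + 80 * (30 * Real.exp (-(A / K)))) := by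
  have δ0 : 0 ≤ δ := (abs_nonneg _).trans hβ
  have i1 : Integrable fun y => pM r A K B y * (e y ^ 2 + ey y ^ 2) :=
    integrable_bdd_mul ((integrable_sq2 he.1).add (integrable_sq2 he.2.1)) (bdd_pM r A K B)
  have i2 : Integrable fun y => ph r A K y * ey y ^ 2 :=
    integrable_bdd_mul (integrable_sq2 he.2.1) (bdd_ph r A K)
  have i3 : Integrable fun y => ph r A K y * P1 ((r * y - A) / B) * e y ^ 2 :=
    integrable_bdd_mul (integrable_sq2 he.1)
      ((bdd_ph r A K).mul (expD_P1.bdd.comp (by fun_prop)))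
  have i4 : Integrable fun y => ph r A K y * e y ^ 6 :=
    integrable_bdd_mul (he.integrable_pow 4) (bdd_ph r A K)
  have i5 : Integrable fun y => ph r A K y * (Q y * e y ^ 2) :=
    integrable_bdd_mul (integrable_bdd_mul (integrable_sq2 he.1) expD_Q.bdd) (bdd_ph r A K)
  have sq1 : ∀ y, e y ^ 2 ≤ 1 := fun y => by
    rw [← sq_abs]
    exact pow_le_one₀ (abs_nonneg _) (h1 y)
  have t5 : ∫ y, ph r A K y * (Q y * e y ^ 2) ≤ 30 * Real.exp (-(A / K)) := by
    refine (le_abs_self _).trans (abs_integral_le_envp he.2.1 h2 (Real.exp_pos _).le fun y => ?_)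
    have hq := Q_pos y
    have hp := ph_pos r A K y
    rw [abs_of_nonneg (by positivity)]
    calc ph r A K y * (Q y * e y ^ 2)
        ≤ Real.exp (-(A / K)) * Real.exp (|y| / 100) * (Q y * 1) := by
          gcongr
          · exact ph_le_tiny h.hr h.hK A y
          · exact sq1 y
      _ = Real.exp (-(A / K)) * (Real.exp (|y| / 100) * 1 * Q y * 1) := by ring
      _ ≤ _ := by
          gcongr
          · norm_num
          · exact le_add_of_nonneg_right (sq_nonneg _)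
          · exact le_add_of_nonneg_right (sq_nonneg _)
  have j1 := (i2.const_mul 3).add (i3.const_mul 55)
  have j2 := j1.add i4
  have j3 := j2.add (i5.const_mul 80)
  refine (mono_I3 ((i1.const_mul (163 * δ)).add (j3.const_mul (Real.exp (A / B))))
    (fun y => ?_) fun y => ?_).trans ?_
  · have := pM_pos r A K B y
    have := ph_pos r A K y
    have := P1_pos ((r * y - A) / B)
    have := Q_pos y
    simp only [Pi.add_apply]
    positivity
  · have r1 := abs_PP_le y (h1 y)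
    have r2 : |PP y (e y)| ≤ 54 * e y ^ 2 := by
      have := mul_le_mul_of_nonneg_right (Q_le y) (sq_nonneg (e y))
      have h6 : e y ^ 6 ≤ e y ^ 2 := by
        have := pow_le_of_le_one (sq_nonneg (e y)) (sq1 y) (n := 3) (by norm_num)
        rwa [← pow_mul] at this
      linarith [sq_nonneg (e y)]
    rw [mul_assoc] at r1
    exact alg_I3 hβ hγ hδ (WW1_pos h.hr h.B_pos A y).le (h.WW1_le_WW y) (WW_le r A B y)
      (h.WW1_le_P1 y) (ph_pos r A K y).le (ph_lt_one r A K y).le (sq_nonneg _) (sq_nonneg _)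
      (by positivity) r1 r2
  · rw [integral_add' (i1.const_mul _) (j3.const_mul _), integral_const_mul, integral_const_mul,
      integral_add' j2 (i5.const_mul _), integral_add' j1 i4,
      integral_add' (i2.const_mul _) (i3.const_mul _), integral_const_mul, integral_const_mul,
      integral_const_mul]
    unfold qD qK q6
    gcongr

theorem i3 : I3Stmt := by
  intro X B hB
  have hB0 : 0 < B := by linarith [X.CA_pos]
  obtain ⟨C, hC, hz⟩ := X.zl hB0
  refine ⟨2400 + 55 * C, fun ε hε => ?_⟩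
  have hδ : 0 < min 1 (ε / 163) := lt_min one_pos (by positivity)
  filter_upwards [X.ev_gt, X.ev_sup one_pos, X.ev_ey one_pos, X.ev_par hδ] with s hs h1 h2 h3
  have hs1 := (X.one_lt hs).le
  refine (static_I3 (X.wp hs hB) (X.h1 hs) h1 h2 h3.1 h3.2 (min_le_left _ _)).trans
    (add_le_add ?_ ?_)
  · refine mul_le_mul_of_nonneg_right ?_ (X.D_nonneg B s)
    linarith [min_le_right 1 (ε / 163)]
  · have a1 := X.Kf_nonneg s
    have a2 := X.k6_nonneg s
    have a3 := X.tau_pos (s := s) (by linarith)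
    have a4 := X.exp_le_tau hs1
    have a5 := hz s hs
    have a6 := sq_nonneg (X.a s)
    have a7 : 0 ≤ X.Z s := by
      unfold Dat.Z
      positivity
    calc _ ≤ Real.exp (X.A s / B) * ((2400 + 55 * C) * X.Z s) := by
          refine mul_le_mul_of_nonneg_left ?_ (Real.exp_pos _).le
          have b1 := mul_nonneg hC a2
          have b2 := mul_nonneg hC a3.le
          change 3 * X.Kf s + _ + X.k6 s + _ ≤ _
          unfold Dat.Z
          nlinarith
      _ ≤ Lm s * ((2400 + 55 * C) * X.Z s) :=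
          mul_le_mul_of_nonneg_right (X.exp_le_Lm hB hs1) (by positivity)
      _ = _ := by ring

end Pool.Agent.MP_8339a4_an
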