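import Pool.Agent.MP_8339a4_an.EA

/-! The drift terms in the derivative of the functional `F`. -/

open MeasureTheory Filter Topology Set

namespace Pool.Agent.MP_8339a4_an

variable {r A K B : ℝ}

theorem pow6_I4 {e : ℝ} (he : |e| ≤ 1) : e ^ 2 ≤ 1 ∧ e ^ 6 ≤ e ^ 2 ∧ 0 ≤ e ^ 6 := by
  have e2 : e ^ 2 ≤ 1 := (sq_le_one_iff_abs_le_one e).2 he
  have e4 : (e ^ 2) ^ 2 ≤ 1 := pow_le_one₀ (sq_nonneg e) e2
  refine ⟨e2, ?_, by positivity⟩
  calc e ^ 6 = e ^ 2 * (e ^ 2) ^ 2 := by ring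
    _ ≤ e ^ 2 * 1 := mul_le_mul_of_nonneg_left e4 (sq_nonneg e)
    _ = e ^ 2 := mul_one _

theorem PP_le_I4 (y : ℝ) {e : ℝ} (he : |e| ≤ 1) : |PP y e| ≤ 54 * e ^ 2 := by
  obtain ⟨_, e6, _⟩ := pow6_I4 he
  have h1 := abs_PP_le y he
  have h2 := mul_le_mul_of_nonneg_right (Q_le y) (sq_nonneg e)
  have h3 := sq_nonneg e
  linarith

theorem PP_W_I4 (r A K B y : ℝ) {e : ℝ} (he : |e| ≤ 1) :
    |PP y e| * WW r A B y ≤ 54 * (pM r A K B y * e ^ 2)
      + Real.exp (A / B) * (40 * (Q y * ph r A K y) + ph r A K y * e ^ 6) := by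
  obtain ⟨e2, _, e0⟩ := pow6_I4 he
  have hQ := Q_pos y
  have hp := ph_pos r A K y
  have a2 : |PP y e| ≤ 40 * Q y + e ^ 6 := by
    have h1 := abs_PP_le y he
    have h2 := mul_le_mul_of_nonneg_left e2 hQ.le
    linarith
  calc |PP y e| * WW r A B y
      = |PP y e| * pM r A K B y + |PP y e| * (WW r A B y * ph r A K y) := by
        rw [← mul_add, ← WW_eq]
    _ ≤ 54 * e ^ 2 * pM r A K B y + (40 * Q y + e ^ 6) * (Real.exp (A / B) * ph r A K y) :=
        add_le_add (mul_le_mul_of_nonneg_right (PP_le_I4 y he) (pM_pos r A K B y).le)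
          (mul_le_mul a2 (mul_le_mul_of_nonneg_right (WW_le r A B y) hp.le)
            (mul_pos (WW_pos r A B y) hp).le (by positivity))
    _ = _ := by ring

theorem t1_I4 (r A K B y p : ℝ) {e : ℝ} (he : |e| ≤ 1) :
    hH y e p * WW r A B y - (Q y + e) ^ 2 * om r A K B y
      ≤ 55 * (pM r A K B y * (e ^ 2 + p ^ 2)) + Real.exp (A / B) *
        (ph r A K y * p ^ 2 + ph r A K y * e ^ 6 + 44 * (Q y * ph r A K y)) := by
  have hp := ph_pos r A K y
  have hW := WW_pos r A B y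
  have hM := pM_pos r A K B y
  have h0 := mul_le_mul_of_nonneg_right (WW_le r A B y) hp.le
  have h1 := PP_W_I4 r A K B y he
  have h2 := mul_le_mul_of_nonneg_right (neg_le_abs (PP y e)) hW.le
  have h3 : -((Q y + e) ^ 2 - e ^ 2) * (WW r A B y * ph r A K y)
      ≤ 4 * Q y * (Real.exp (A / B) * ph r A K y) :=
    mul_le_mul ((neg_le_abs _).trans (abs_sq_sub_le y he)) h0 (mul_pos hW hp).le
      (by have := Q_pos y; positivity)
  have h4 := mul_le_mul_of_nonneg_right h0 (sq_nonneg p)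
  have h5 := mul_nonneg hM.le (sq_nonneg p)
  have e1 : hH y e p * WW r A B y - (Q y + e) ^ 2 * om r A K B y =
      pM r A K B y * (e ^ 2 + p ^ 2) + WW r A B y * ph r A K y * p ^ 2
        + -PP y e * WW r A B y + -((Q y + e) ^ 2 - e ^ 2) * (WW r A B y * ph r A K y) := by
    unfold hH om pM
    ring
  rw [e1]
  linarith

theorem t3_I4 (h : WP r A K B) (y p : ℝ) {e : ℝ} (he : |e| ≤ 1) :
    -(hH y e p * WW1 r A B y - (Q y + e) ^ 2 * om1 r A K B y)
      ≤ 54 * (pM r A K B y * (e ^ 2 + p ^ 2)) + Real.exp (A / B) *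
        (ph r A K y * e ^ 6 + ph1 r A K y * e ^ 2 + ph r A K y * P1 ((r * y - A) / B) * e ^ 2
          + 44 * (Q y * ph r A K y)) := by
  have hW := WW1_pos h.hr h.B_pos A y
  have hM := pM_pos r A K B y
  have hQ := Q_pos y
  have h1 := PP_W_I4 r A K B y he
  have h2 : PP y e * WW1 r A B y ≤ |PP y e| * WW r A B y :=
    mul_le_mul (le_abs_self _) (h.WW1_le_WW y) hW.le (abs_nonneg _)
  have h3 : ((Q y + e) ^ 2 - e ^ 2) * om1 r A K B y
      ≤ 4 * Q y * (Real.exp (A / B) * ph r A K y) :=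
    mul_le_mul ((le_abs_self _).trans (abs_sq_sub_le y he)) (h.om1_le_ph y) (h.om1_pos y).le
      (by positivity)
  have h4 := mul_le_mul_of_nonneg_right (h.om1_le y) (sq_nonneg e)
  have h5 := mul_nonneg hM.le (sq_nonneg p)
  have h6 := mul_nonneg hW.le (sq_nonneg p)
  have h7 := mul_nonneg hW.le (sq_nonneg e)
  unfold hH
  linarith

theorem yQ_I4 (y : ℝ) : |y| * Q y ≤ 5 := by
  have h1 := env_le y
  have h2 : 1 ≤ Real.exp (|y| / 10) := Real.one_le_exp (by positivity)
  have h3 : 2 * |y| ≤ 1 + y ^ 2 := by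
    rw [← sq_abs y]
    nlinarith [sq_nonneg (|y| - 1)]
  have hQ := Q_pos y
  have h4 : 1 * (2 * |y|) * Q y ≤ Real.exp (|y| / 10) * (1 + y ^ 2) * Q y :=
    mul_le_mul_of_nonneg_right (mul_le_mul h2 h3 (by positivity) (by positivity)) hQ.le
  linarith

theorem t2_I4 (h : WP r A K B) (y p : ℝ) {e a η : ℝ} (he : |e| ≤ 1) (ha0 : 0 ≤ a) (ha : a ≤ η)
    (haA : a * A ≤ η * r) (haB : a * (1 + A / B) ≤ 1) :
    a * y * (WW1 r A B y * (p ^ 2 + (1 - ph r A K y) * e ^ 2 - PP y e)
        - WW r A B y * ph1 r A K y * e ^ 2)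
      ≤ 402 * η * (pM r A K B y * (e ^ 2 + p ^ 2)) + Real.exp (A / B) *
        (16 * (ph r A K y * p ^ 2) + 880 * (ph r A K y * P1 ((r * y - A) / (2 * B)) * e ^ 2)) := by
  obtain ⟨_, e6, _⟩ := pow6_I4 he
  have hW := WW_pos r A B y
  have hW1 := WW1_pos h.hr h.B_pos A y
  have hM := pM_pos r A K B y
  have hQ := Q_pos y
  have hp := ph_pos r A K y
  have hp' := ph_lt_one r A K y
  have hp1 := ph1_pos h.hr h.K_pos A y
  have hP := P1_pos ((r * y - A) / (2 * B))
  have hη : 0 ≤ η := ha0.trans ha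
  have he2 := sq_nonneg e
  have hp2 := sq_nonneg p
  have hS : 0 ≤ pM r A K B y * (e ^ 2 + p ^ 2) := by positivity
  have hE : 0 ≤ Real.exp (A / B) * (16 * (ph r A K y * p ^ 2)
      + 880 * (ph r A K y * P1 ((r * y - A) / (2 * B)) * e ^ 2)) := by positivity
  have hu : p ^ 2 + (1 - ph r A K y) * e ^ 2 - PP y e ≤ p ^ 2 + 55 * e ^ 2 := by
    have k1 := (neg_le_abs _).trans (PP_le_I4 y he)
    have k2 := mul_nonneg hp.le he2
    linarith
  rcases le_total y 0 with hy | hy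
  · have hry : r * y ≤ A := (mul_nonpos_of_nonneg_of_nonpos h.hr.le hy).trans h.hA
    have k0 := h.WW_le_pM hry
    have k1 : -(p ^ 2 + (1 - ph r A K y) * e ^ 2 - PP y e) ≤ 40 * Q y * e ^ 2 := by
      have j1 := (le_abs_self _).trans (abs_PP_le y he)
      have j2 := mul_le_mul_of_nonneg_right (ph_le_half h.K_pos hry) he2
      linarith
    have k2 : WW1 r A B y * -(p ^ 2 + (1 - ph r A K y) * e ^ 2 - PP y e)
        ≤ 2 * pM r A K B y * (40 * Q y * e ^ 2) :=
      (mul_le_mul_of_nonneg_left k1 hW1.le).trans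
        (mul_le_mul_of_nonneg_right ((h.WW1_le_WW y).trans k0) (by positivity))
    have k3 := mul_le_mul_of_nonneg_left k2 (neg_nonneg.2 hy)
    have k4 : -y * Q y ≤ 5 := by
      rw [← abs_of_nonpos hy]
      exact yQ_I4 y
    have k5 := mul_le_mul_of_nonneg_right k4 (mul_nonneg hM.le he2)
    have k6 : -y * ph1 r A K y ≤ 1 := (neg_mul_ph1_le h.hr h.K_pos A hy).trans
      (Real.exp_le_one_iff.2 (neg_nonpos.2 (div_nonneg h.hA h.K_pos.le)))
    have k7 : -y * ph1 r A K y * (WW r A B y * e ^ 2) ≤ 1 * (2 * pM r A K B y * e ^ 2) :=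
      mul_le_mul k6 (mul_le_mul_of_nonneg_right k0 he2) (by positivity) zero_le_one
    have k8 := mul_nonneg hM.le hp2
    have k9 : y * (WW1 r A B y * (p ^ 2 + (1 - ph r A K y) * e ^ 2 - PP y e)
        - WW r A B y * ph1 r A K y * e ^ 2) ≤ 402 * (pM r A K B y * (e ^ 2 + p ^ 2)) := by
      linarith
    have k10 := mul_le_mul_of_nonneg_left k9 ha0
    have k11 := mul_le_mul_of_nonneg_right ha hS
    linarith
  · have k0 : 0 ≤ a * y * (WW r A B y * ph1 r A K y * e ^ 2) := by positivity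
    have k1 : a * y * (WW1 r A B y * (p ^ 2 + (1 - ph r A K y) * e ^ 2 - PP y e))
        ≤ a * y * (WW1 r A B y * (p ^ 2 + 55 * e ^ 2)) :=
      mul_le_mul_of_nonneg_left (mul_le_mul_of_nonneg_left hu hW1.le) (by positivity)
    rcases le_total (r * y) A with hry | hry
    · have k2 : a * y ≤ η := by
        have j1 := mul_le_mul_of_nonneg_left hry ha0
        exact le_of_mul_le_mul_right (by linarith) h.hr
      have k3 : a * y * (WW1 r A B y * (p ^ 2 + 55 * e ^ 2))
          ≤ η * (2 * pM r A K B y * (55 * (e ^ 2 + p ^ 2))) :=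
        mul_le_mul k2 (mul_le_mul ((h.WW1_le_WW y).trans (h.WW_le_pM hry)) (by linarith)
          (by positivity) (by positivity)) (by positivity) hη
      have k4 := mul_nonneg hη hS
      linarith
    · have k2 := mul_le_mul_of_nonneg_left (h.mul_WW1_right hry) ha0
      have k3 := mul_le_mul_of_nonneg_right haB (show 0 ≤ 16 * Real.exp (A / B) *
        (ph r A K y * P1 ((r * y - A) / (2 * B))) by positivity)
      have k4 : a * y * WW1 r A B y
          ≤ 16 * Real.exp (A / B) * (ph r A K y * P1 ((r * y - A) / (2 * B))) := by linarith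
      have k5 := mul_le_mul_of_nonneg_right k4 (show 0 ≤ p ^ 2 + 55 * e ^ 2 by positivity)
      have k6 : P1 ((r * y - A) / (2 * B)) ≤ 1 := (P1_le_quarter _).trans (by norm_num)
      have k7 := mul_le_mul_of_nonneg_left k6
        (show 0 ≤ Real.exp (A / B) * (ph r A K y * p ^ 2) by positivity)
      have k8 := mul_nonneg hη hS
      linarith

theorem pt_I4 (h : WP r A K B) (y p : ℝ) {e a b c η : ℝ} (he : |e| ≤ 1) (ha0 : 0 ≤ a)
    (ha : a ≤ η) (haA : a * A ≤ η * r) (haB : a * (1 + A / B) ≤ 1) (hb0 : 0 ≤ b) (hb : b ≤ η)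
    (hc0 : 0 ≤ c) (hc : c ≤ η) (hη : η ≤ 1) :
    hH y e p * (c * WW r A B y + (a * y - b) * WW1 r A B y)
      - (Q y + e) ^ 2 * (c * om r A K B y + (a * y - b) * om1 r A K B y)
      ≤ 511 * η * (pM r A K B y * (e ^ 2 + p ^ 2)) + 1000 * Real.exp (A / B) *
        (ph r A K y * p ^ 2 + ph r A K y * e ^ 6 + ph1 r A K y * e ^ 2
          + ph r A K y * P1 ((r * y - A) / B) * e ^ 2
          + ph r A K y * P1 ((r * y - A) / (2 * B)) * e ^ 2
          + Real.exp (-(A / K)) * (Real.exp (|y| / 10) * (1 + y ^ 2) * Q y)) := by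
  have hM := pM_pos r A K B y
  have hQ := Q_pos y
  have hp := ph_pos r A K y
  have hp1 := ph1_pos h.hr h.K_pos A y
  have hP := P1_pos ((r * y - A) / (2 * B))
  have hP' := P1_pos ((r * y - A) / B)
  have hS : 0 ≤ pM r A K B y * (e ^ 2 + p ^ 2) := by positivity
  have h1 := mul_le_mul_of_nonneg_left (t1_I4 r A K B y p he) hc0
  have h3 := mul_le_mul_of_nonneg_left (t3_I4 h y p he) hb0
  have h2 := t2_I4 h y p he ha0 ha haA haB
  have g1 := mul_le_mul_of_nonneg_right hc hS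
  have g3 := mul_le_mul_of_nonneg_right hb hS
  have f1 := mul_le_mul_of_nonneg_right (hc.trans hη) (show 0 ≤ Real.exp (A / B) *
    (ph r A K y * p ^ 2 + ph r A K y * e ^ 6 + 44 * (Q y * ph r A K y)) by positivity)
  have f3 := mul_le_mul_of_nonneg_right (hb.trans hη) (show 0 ≤ Real.exp (A / B) *
    (ph r A K y * e ^ 6 + ph1 r A K y * e ^ 2 + ph r A K y * P1 ((r * y - A) / B) * e ^ 2
      + 44 * (Q y * ph r A K y)) by positivity)
  have h4 : -(a * y * (((Q y + e) ^ 2 - e ^ 2) * om1 r A K B y))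
      ≤ 1 * |y| * (4 * Q y * (Real.exp (A / B) * ph r A K y)) := by
    refine (neg_le_abs _).trans ?_
    rw [abs_mul, abs_mul, abs_mul, abs_of_nonneg ha0, abs_of_pos (h.om1_pos y)]
    exact mul_le_mul (mul_le_mul_of_nonneg_right (ha.trans hη) (abs_nonneg y))
      (mul_le_mul (abs_sq_sub_le y he) (h.om1_le_ph y) (h.om1_pos y).le (by positivity))
      (mul_nonneg (abs_nonneg _) (h.om1_pos y).le) (by positivity)
  have h5 : (88 + 4 * |y|) * ph r A K y
      ≤ 1000 * (1 + y ^ 2) * (Real.exp (-(A / K)) * Real.exp (|y| / 10)) := by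
    refine mul_le_mul ?_ ((ph_le_tiny h.hr h.hK A y).trans (mul_le_mul_of_nonneg_left
      (Real.exp_le_exp.2 ?_) (by positivity))) hp.le (by positivity)
    · rw [← sq_abs y]
      nlinarith [sq_nonneg (|y| - 1), sq_nonneg (|y|)]
    · have := abs_nonneg y
      linarith
  have h6 := mul_le_mul_of_nonneg_left h5 (show 0 ≤ Real.exp (A / B) * Q y by positivity)
  have n1 : 0 ≤ Real.exp (A / B) * (ph r A K y * p ^ 2) := by positivity
  have n2 : 0 ≤ Real.exp (A / B) * (ph r A K y * e ^ 6) := by positivity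
  have n3 : 0 ≤ Real.exp (A / B) * (ph1 r A K y * e ^ 2) := by positivity
  have n4 : 0 ≤ Real.exp (A / B) * (ph r A K y * P1 ((r * y - A) / B) * e ^ 2) := by positivity
  have n5 : 0 ≤ Real.exp (A / B) * (ph r A K y * P1 ((r * y - A) / (2 * B)) * e ^ 2) := by
    positivity
  have e1 : hH y e p * (c * WW r A B y + (a * y - b) * WW1 r A B y)
      - (Q y + e) ^ 2 * (c * om r A K B y + (a * y - b) * om1 r A K B y)
      = c * (hH y e p * WW r A B y - (Q y + e) ^ 2 * om r A K B y)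
        + b * -(hH y e p * WW1 r A B y - (Q y + e) ^ 2 * om1 r A K B y)
        + a * y * (WW1 r A B y * (p ^ 2 + (1 - ph r A K y) * e ^ 2 - PP y e)
          - WW r A B y * ph1 r A K y * e ^ 2)
        + -(a * y * (((Q y + e) ^ 2 - e ^ 2) * om1 r A K B y)) := by
    unfold hH om1
    ring
  rw [e1]
  linarith

theorem st_I4 (h : WP r A K B) {e ey : ℝ → ℝ} (h1 : IsH1 e ey) {a b c η : ℝ}
    (he : ∀ y, |e y| ≤ 1) (ha0 : 0 ≤ a) (ha : a ≤ η) (haA : a * A ≤ η * r)
    (haB : a * (1 + A / B) ≤ 1) (hb0 : 0 ≤ b) (hb : b ≤ η) (hc0 : 0 ≤ c) (hc : c ≤ η)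
    (hη : η ≤ 1) :
    ∫ y, (hH y (e y) (ey y) * (c * WW r A B y + (a * y - b) * WW1 r A B y)
      - (Q y + e y) ^ 2 * (c * om r A K B y + (a * y - b) * om1 r A K B y))
      ≤ 511 * η * qD r A K B e ey + 1000 * Real.exp (A / B) *
        (qK r A K ey + q6 r A K e + (∫ y, ph1 r A K y * e y ^ 2)
          + (∫ y, ph r A K y * P1 ((r * y - A) / B) * e y ^ 2)
          + (∫ y, ph r A K y * P1 ((r * y - A) / (2 * B)) * e y ^ 2)
          + Real.exp (-(A / K)) * 20) := by
  have s1 := integrable_sq2 h1.1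
  have s2 := integrable_sq2 h1.2.1
  have b1 : ∀ L : ℝ, Bdd (fun y => ph r A K y * P1 ((r * y - A) / L)) := fun L =>
    (bdd_ph r A K).mul (expD_P1.bdd.comp (g := fun y => (r * y - A) / L) (by fun_prop))
  have i0 : Integrable (fun y => pM r A K B y * (e y ^ 2 + ey y ^ 2)) :=
    integrable_bdd_mul (s1.add s2) (bdd_pM r A K B)
  have i1 : Integrable (fun y => ph r A K y * ey y ^ 2) := integrable_bdd_mul s2 (bdd_ph r A K)
  have i2 : Integrable (fun y => ph r A K y * e y ^ 6) :=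
    integrable_bdd_mul (h1.integrable_pow 4) (bdd_ph r A K)
  have i3 : Integrable (fun y => ph1 r A K y * e y ^ 2) :=
    integrable_bdd_mul s1 (expD_ph1 h.hr h.K_pos A).bdd
  have i4 : Integrable (fun y => ph r A K y * P1 ((r * y - A) / B) * e y ^ 2) :=
    integrable_bdd_mul s1 (b1 B)
  have i5 : Integrable (fun y => ph r A K y * P1 ((r * y - A) / (2 * B)) * e y ^ 2) :=
    integrable_bdd_mul s1 (b1 (2 * B))
  have i6 : Integrable (fun y : ℝ =>
      Real.exp (-(A / K)) * (Real.exp (|y| / 10) * (1 + y ^ 2) * Q y)) :=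
    expD_env.integrable.const_mul _
  have j2 : Integrable (fun y => ph r A K y * ey y ^ 2 + ph r A K y * e y ^ 6) := i1.add i2
  have j3 : Integrable (fun y => ph r A K y * ey y ^ 2 + ph r A K y * e y ^ 6
      + ph1 r A K y * e y ^ 2) := j2.add i3
  have j4 : Integrable (fun y => ph r A K y * ey y ^ 2 + ph r A K y * e y ^ 6
      + ph1 r A K y * e y ^ 2 + ph r A K y * P1 ((r * y - A) / B) * e y ^ 2) := j3.add i4
  have j5 : Integrable (fun y => ph r A K y * ey y ^ 2 + ph r A K y * e y ^ 6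
      + ph1 r A K y * e y ^ 2 + ph r A K y * P1 ((r * y - A) / B) * e y ^ 2
      + ph r A K y * P1 ((r * y - A) / (2 * B)) * e y ^ 2) := j4.add i5
  have j6 : Integrable (fun y => ph r A K y * ey y ^ 2 + ph r A K y * e y ^ 6
      + ph1 r A K y * e y ^ 2 + ph r A K y * P1 ((r * y - A) / B) * e y ^ 2
      + ph r A K y * P1 ((r * y - A) / (2 * B)) * e y ^ 2
      + Real.exp (-(A / K)) * (Real.exp (|y| / 10) * (1 + y ^ 2) * Q y)) := j5.add i6
  have hη0 : 0 ≤ η := ha0.trans ha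
  have key : ∫ y, (hH y (e y) (ey y) * (c * WW r A B y + (a * y - b) * WW1 r A B y)
      - (Q y + e y) ^ 2 * (c * om r A K B y + (a * y - b) * om1 r A K B y))
      ≤ ∫ y, (511 * η * (pM r A K B y * (e y ^ 2 + ey y ^ 2)) + 1000 * Real.exp (A / B) *
        (ph r A K y * ey y ^ 2 + ph r A K y * e y ^ 6
          + ph1 r A K y * e y ^ 2 + ph r A K y * P1 ((r * y - A) / B) * e y ^ 2
          + ph r A K y * P1 ((r * y - A) / (2 * B)) * e y ^ 2
          + Real.exp (-(A / K)) * (Real.exp (|y| / 10) * (1 + y ^ 2) * Q y))) := by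
    by_cases hI : Integrable (fun y =>
        hH y (e y) (ey y) * (c * WW r A B y + (a * y - b) * WW1 r A B y)
          - (Q y + e y) ^ 2 * (c * om r A K B y + (a * y - b) * om1 r A K B y))
    · exact integral_mono hI ((i0.const_mul _).add (j6.const_mul _)) fun y =>
        pt_I4 h y (ey y) (he y) ha0 ha haA haB hb0 hb hc0 hc hη
    · rw [integral_undef hI]
      refine integral_nonneg fun y => ?_
      have hM := pM_pos r A K B y
      have hQ := Q_pos y
      have hp := ph_pos r A K y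
      have hp1 := ph1_pos h.hr h.K_pos A y
      have hP := P1_pos ((r * y - A) / (2 * B))
      have hP' := P1_pos ((r * y - A) / B)
      positivity
  rw [integral_add (i0.const_mul _) (j6.const_mul _), integral_const_mul, integral_const_mul,
    integral_add j5 i6, integral_add j4 i5, integral_add j3 i4, integral_add j2 i3,
    integral_add i1 i2, integral_const_mul] at key
  refine key.trans ?_
  unfold qD qK q6
  gcongr
  exact integral_env_le

theorem i4 : I4Stmt := by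
  intro X B hB
  have hK := X.K_ge
  have hB1 : 1 ≤ B := by
    have := X.B_ge hB
    linarith
  have hB0 : 0 < B := by linarith
  obtain ⟨C1, c1, h1⟩ := X.ph1_sq
  obtain ⟨C2, c2, h2⟩ := X.zl hB0
  obtain ⟨C3, c3, h3⟩ := X.zl (L := 2 * B) (by linarith)
  refine ⟨1000 * (20 + C1 + C2 + C3), fun ε hε => ?_⟩
  have hr0 := X.r0_pos
  have hκ := X.κ_pos
  have hCA := X.CA_pos
  obtain ⟨η, η0, η1, ηε⟩ : ∃ η : ℝ, 0 < η ∧ η ≤ 1 ∧ 511 * η ≤ ε :=
    ⟨min 1 (ε / 511), lt_min one_pos (by positivity), min_le_left _ _, by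
      have := min_le_right 1 (ε / 511)
      linarith⟩
  filter_upwards [X.ev_gt, X.ev_sup one_pos, X.ev_log (div_pos η0 hκ),
    X.ev_log (div_pos (mul_pos η0 hr0) hκ), X.ev_log (div_pos η0 hCA),
    X.ev_log (div_pos (mul_pos η0 hr0) hCA)] with s hs he l1 l2 l3 l4
  have hs1 := X.one_lt hs
  have hs0 : 0 < s := by linarith
  have hA := X.A_nonneg hs1.le
  have hr := X.r_pos hs
  have hrr := mul_le_mul_of_nonneg_left (X.r_ge hs) η0.le
  rw [div_le_div_iff₀ hs0 (by assumption)] at l1 l2 l3 l4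
  have m1 := mul_nonneg hA hκ.le
  have m2 := mul_nonneg hA hCA.le
  have m3 := mul_le_mul_of_nonneg_right hrr hs0.le
  have m4 := mul_le_mul_of_nonneg_right η1 hs0.le
  have key := st_I4 (X.wp hs hB) (X.h1 hs) (a := X.κ / s) (b := X.CA / (s * X.r s))
    (c := X.CA / (s * B)) (η := η) he (by positivity) (by rw [div_le_iff₀ hs0]; linarith)
    (by rw [div_mul_eq_mul_div, div_le_iff₀ hs0]; linarith)
    (by
      have k1 : X.A s / B ≤ X.A s := div_le_self hA hB1
      have k2 := mul_le_mul_of_nonneg_left k1 hκ.le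
      rw [div_mul_eq_mul_div, div_le_iff₀ hs0]
      linarith)
    (by positivity) (by rw [div_le_iff₀ (by positivity)]; linarith) (by positivity)
    (by
      have k1 := mul_le_mul_of_nonneg_left hB1 (mul_pos η0 hs0).le
      rw [div_le_iff₀ (by positivity)]
      linarith) η1
  have e1 : X.I4 B s = ∫ y, (hH y (X.e s y) (X.ey s y) *
      (X.CA / (s * B) * WW (X.r s) (X.A s) B y
        + (X.κ / s * y - X.CA / (s * X.r s)) * WW1 (X.r s) (X.A s) B y)
      - (Q y + X.e s y) ^ 2 * (X.CA / (s * B) * om (X.r s) (X.A s) X.K B y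
        + (X.κ / s * y - X.CA / (s * X.r s)) * om1 (X.r s) (X.A s) X.K B y)) := by
    unfold Dat.I4 Dat.dr
    simp only [div_mul_eq_mul_div X.κ s]
  rw [e1]
  refine key.trans (add_le_add (mul_le_mul_of_nonneg_right ηε (X.D_nonneg B s)) ?_)
  have z1 := h1 s hs
  have z2 := h2 s hs
  have z3 := h3 s hs
  have z4 := X.exp_le_tau hs1.le
  have z5 := mul_le_mul_of_nonneg_left (X.f_le_Kf hs) c1
  have p1 := sq_nonneg (X.a s)
  have p2 := X.Kf_nonneg s
  have p3 := X.k6_nonneg s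
  have p4 := (X.tau_pos hs0).le
  have q1 := mul_nonneg c1 (add_nonneg (add_nonneg p1 p3) p4)
  have q2 := mul_nonneg c2 (add_nonneg p3 p4)
  have q3 := mul_nonneg c3 (add_nonneg p3 p4)
  have hZ : X.Kf s + X.k6 s + (∫ y, ph1 (X.r s) (X.A s) X.K y * X.e s y ^ 2)
      + (∫ y, ph (X.r s) (X.A s) X.K y * P1 ((X.r s * y - X.A s) / B) * X.e s y ^ 2)
      + (∫ y, ph (X.r s) (X.A s) X.K y * P1 ((X.r s * y - X.A s) / (2 * B)) * X.e s y ^ 2)
      + Real.exp (-(X.A s / X.K)) * 20 ≤ (20 + C1 + C2 + C3) * X.Z s := by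
    unfold Dat.Z
    linarith
  have hZ0 : 0 ≤ (20 + C1 + C2 + C3) * X.Z s := by
    unfold Dat.Z
    positivity
  have f1 := mul_le_mul_of_nonneg_left hZ (Real.exp_pos (X.A s / B)).le
  have f2 := mul_le_mul_of_nonneg_right (X.exp_le_Lm hB hs1.le) hZ0
  change 1000 * Real.exp (X.A s / B) * (X.Kf s + X.k6 s + _ + _ + _ + _) ≤ _
  linarith

end Pool.Agent.MP_8339a4_an
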