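import Pool.Agent.MP_8339a4_an.EA

/-! The bound for the term `I5`. -/

open MeasureTheory Filter Topology Set

namespace Pool.Agent.MP_8339a4_an

theorem point_I5 {r A K B γ : ℝ} (h : WP r A K B) (hγ : |γ| ≤ 1) (y e p : ℝ) (he : |e| ≤ 1) :
    -(fl1 (Q y + e) (Q1 y + p) (om1 r A K B y) (om3 r A K B y)
      - (1 + γ) * ((Q y + e) ^ 2 * om1 r A K B y)) ≤
    Real.exp (A / B) * (3 * (ph r A K y * p ^ 2) + 3 * (ph r A K y * P1 ((r * y - A) / B) * e ^ 2)
      + 3 * (ph1 r A K y * e ^ 2) + 21 * Real.exp (-(A / K)) *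
        (Real.exp (|y| / 10) * (1 + y ^ 2) * Q y * (1 + p ^ 2))) := by
  have h1 := h.om1_pos y
  have h3 := abs_le.1 (h.abs_om3_le y)
  have hl := h.om1_le y
  have hp := h.om1_le_ph y
  have hQ := Q_pos y
  have hU := (abs_le.1 (abs_sq_sub_le y he)).2
  have hP := (abs_le.1 (abs_sqy_sub_le y p)).2
  have ht := ph_le_tiny h.hr h.hK A y
  have hγ' := (abs_le.1 hγ).2
  set w := om1 r A K B y
  set E := Real.exp (A / B)
  set T := Real.exp (-(A / K))
  have hE : 0 < E := Real.exp_pos _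
  have hT : 0 < T := Real.exp_pos _
  have s1 : -(fl1 (Q y + e) (Q1 y + p) w (om3 r A K B y) - (1 + γ) * ((Q y + e) ^ 2 * w)) ≤
      3 * ((Q1 y + p) ^ 2 * w) + 3 * ((Q y + e) ^ 2 * w) := by
    unfold fl1
    have a1 : 0 ≤ (Q y + e) ^ 6 * w := by positivity
    have a2 : 0 ≤ (Q y + e) ^ 2 * (om3 r A K B y + w) :=
      mul_nonneg (sq_nonneg _) (by linarith [h3.1])
    have a3 : 0 ≤ (1 - γ) * ((Q y + e) ^ 2 * w) := mul_nonneg (by linarith) (by positivity)
    nlinarith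
  have s2 : (Q1 y + p) ^ 2 * w ≤ p ^ 2 * w + 3 * (Q y * (1 + p ^ 2) * w) := by nlinarith
  have s3 : (Q y + e) ^ 2 * w ≤ e ^ 2 * w + 4 * (Q y * (1 + p ^ 2) * w) := by
    have : 0 ≤ Q y * p ^ 2 * w := by positivity
    nlinarith
  have s4 : p ^ 2 * w ≤ E * (ph r A K y * p ^ 2) := by nlinarith [sq_nonneg p]
  have s5 : e ^ 2 * w ≤ E * (ph r A K y * P1 ((r * y - A) / B) * e ^ 2)
      + E * (ph1 r A K y * e ^ 2) := by nlinarith [sq_nonneg e]
  have s6 : Q y * (1 + p ^ 2) * w ≤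
      E * (T * (Real.exp (|y| / 10) * (1 + y ^ 2) * Q y * (1 + p ^ 2))) := by
    have b1 : Real.exp (|y| / 100) ≤ Real.exp (|y| / 10) * (1 + y ^ 2) :=
      (Real.exp_le_exp.2 (by linarith [abs_nonneg y])).trans
        (le_mul_of_one_le_right (Real.exp_pos _).le (by nlinarith [sq_nonneg y]))
    have b2 : w ≤ E * (T * (Real.exp (|y| / 10) * (1 + y ^ 2))) :=
      hp.trans (mul_le_mul_of_nonneg_left (ht.trans (mul_le_mul_of_nonneg_left b1 hT.le)) hE.le)
    calc Q y * (1 + p ^ 2) * w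
        ≤ Q y * (1 + p ^ 2) * (E * (T * (Real.exp (|y| / 10) * (1 + y ^ 2)))) :=
          mul_le_mul_of_nonneg_left b2 (by positivity)
      _ = _ := by ring
  nlinarith

theorem static_I5 {r A K B γ : ℝ} (h : WP r A K B) (hγ : |γ| ≤ 1) {e ey : ℝ → ℝ} (hh : IsH1 e ey)
    (he : ∀ y, |e y| ≤ 1) (h1 : ∫ y, ey y ^ 2 ≤ 1) :
    -(∫ y, (fl1 (Q y + e y) (Q1 y + ey y) (om1 r A K B y) (om3 r A K B y)
      - (1 + γ) * ((Q y + e y) ^ 2 * om1 r A K B y))) ≤
    Real.exp (A / B) * (3 * qK r A K ey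
      + 3 * (∫ y, ph r A K y * P1 ((r * y - A) / B) * e y ^ 2)
      + 3 * (∫ y, ph1 r A K y * e y ^ 2) + 21 * Real.exp (-(A / K)) * 30) := by
  have i1 : Integrable (fun y => ph r A K y * ey y ^ 2) :=
    integrable_bdd_mul (integrable_sq2 hh.2.1) (bdd_ph r A K)
  have i2 : Integrable (fun y => ph r A K y * P1 ((r * y - A) / B) * e y ^ 2) :=
    integrable_bdd_mul (integrable_sq2 hh.1)
      ((bdd_ph r A K).mul (expD_P1.bdd.comp (by fun_prop)))
  have i3 : Integrable (fun y => ph1 r A K y * e y ^ 2) :=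
    integrable_bdd_mul (integrable_sq2 hh.1) (expD_ph1 h.hr h.K_pos A).bdd
  have i4 := integrable_envp hh.2.1
  have b4 := integral_envp_le hh.2.1 h1
  have hE := Real.exp_pos (A / B)
  have hT := Real.exp_pos (-(A / K))
  rw [← integral_neg]
  by_cases hi : Integrable (fun y => -(fl1 (Q y + e y) (Q1 y + ey y) (om1 r A K B y)
      (om3 r A K B y) - (1 + γ) * ((Q y + e y) ^ 2 * om1 r A K B y)))
  · have i12 : Integrable (fun y => 3 * (ph r A K y * ey y ^ 2)
        + 3 * (ph r A K y * P1 ((r * y - A) / B) * e y ^ 2)) :=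
      (i1.const_mul 3).add (i2.const_mul 3)
    have i123 : Integrable (fun y => 3 * (ph r A K y * ey y ^ 2)
        + 3 * (ph r A K y * P1 ((r * y - A) / B) * e y ^ 2) + 3 * (ph1 r A K y * e y ^ 2)) :=
      i12.add (i3.const_mul 3)
    refine (integral_mono hi ((i123.add (i4.const_mul (21 * Real.exp (-(A / K))))).const_mul
      (Real.exp (A / B))) fun y => point_I5 h hγ y (e y) (ey y) (he y)).trans ?_
    simp only [Pi.add_apply]
    rw [integral_const_mul, integral_add i123 (i4.const_mul _), integral_add i12 (i3.const_mul 3),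
      integral_add (i1.const_mul 3) (i2.const_mul 3), integral_const_mul, integral_const_mul,
      integral_const_mul, integral_const_mul, qK]
    gcongr
  · rw [integral_undef hi]
    have n1 : 0 ≤ qK r A K ey :=
      integral_nonneg fun y => mul_nonneg (ph_pos r A K y).le (sq_nonneg _)
    have n2 : 0 ≤ ∫ y, ph r A K y * P1 ((r * y - A) / B) * e y ^ 2 :=
      integral_nonneg fun y => mul_nonneg (mul_nonneg (ph_pos r A K y).le (P1_pos _).le)
        (sq_nonneg _)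
    have n3 : 0 ≤ ∫ y, ph1 r A K y * e y ^ 2 :=
      integral_nonneg fun y => mul_nonneg (ph1_pos h.hr h.K_pos A y).le (sq_nonneg _)
    positivity

theorem i5 : I5Stmt := by
  intro X B hB
  have hB0 : 0 < B := by linarith [X.CA_pos]
  obtain ⟨C1, c1, h1⟩ := X.zl hB0
  obtain ⟨C2, c2, h2⟩ := X.ph1_sq
  refine ⟨633 + 3 * C1 + 3 * C2, ?_⟩
  filter_upwards [X.ev_gt, X.ev_sup one_pos, X.ev_ey one_pos, X.ev_par one_pos] with s hs he hy hp
  have h1s := (X.one_lt hs).le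
  refine (static_I5 (X.wp hs hB) hp.2 (X.h1 hs) he hy).trans ?_
  have a1 := h1 s hs
  have a2 := h2 s hs
  have a3 := X.exp_le_tau h1s
  have a4 := X.exp_le_Lm hB h1s
  have a5 := X.f_le_Kf hs
  have a6 := X.Kf_nonneg s
  have a7 := X.k6_nonneg s
  have a8 := (X.tau_pos (by linarith : 0 < s)).le
  have a9 := sq_nonneg (X.a s)
  have hZ : 0 ≤ X.Z s := by
    unfold Dat.Z
    positivity
  have key : 3 * qK (X.r s) (X.A s) X.K (X.ey s)
      + 3 * (∫ y, ph (X.r s) (X.A s) X.K y * P1 ((X.r s * y - X.A s) / B) * X.e s y ^ 2)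
      + 3 * (∫ y, ph1 (X.r s) (X.A s) X.K y * X.e s y ^ 2)
      + 21 * Real.exp (-(X.A s / X.K)) * 30 ≤ (633 + 3 * C1 + 3 * C2) * X.Z s := by
    change 3 * X.Kf s + _ + _ + _ ≤ _
    have b1 : C1 * (X.a s ^ 2 + X.Kf s) ≤ C1 * X.Z s :=
      mul_le_mul_of_nonneg_left (by unfold Dat.Z; linarith) c1
    have b2 : C2 * X.f s ≤ C2 * X.Z s :=
      mul_le_mul_of_nonneg_left (by unfold Dat.Z; linarith) c2
    have b3 : X.Z s = X.a s ^ 2 + X.Kf s + X.k6 s + X.tau s := rfl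
    linarith
  calc _ ≤ Real.exp (X.A s / B) * ((633 + 3 * C1 + 3 * C2) * X.Z s) :=
        mul_le_mul_of_nonneg_left key (Real.exp_pos _).le
    _ ≤ Lm s * ((633 + 3 * C1 + 3 * C2) * X.Z s) :=
        mul_le_mul_of_nonneg_right a4 (by positivity)
    _ = _ := by ring

end Pool.Agent.MP_8339a4_an
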