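import Pool.Agent.MP_8339a4_an.EA

/-! The equation of the functional on the right. -/

open MeasureTheory Filter Topology Set

namespace Pool.Agent.MP_8339a4_an

variable {r A K B β γ : ℝ} {e ey : ℝ → ℝ}

theorem mul3_JRJ {a b c a' b' c' : ℝ} (ha : |a| ≤ a') (hb : |b| ≤ b') (hc : |c| ≤ c') :
    |a * b * c| ≤ a' * b' * c' := by
  rw [abs_mul, abs_mul]
  have h1 := (abs_nonneg a).trans ha
  have h2 := (abs_nonneg b).trans hb
  exact mul_le_mul (mul_le_mul ha hb (abs_nonneg _) h1) hc (abs_nonneg _) (mul_nonneg h1 h2)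

theorem am_JRJ (a b : ℝ) : |a * b| ≤ (a ^ 2 + b ^ 2) / 2 :=
  abs_le.2 ⟨by nlinarith [sq_nonneg (a + b)], by nlinarith [sq_nonneg (a - b)]⟩

theorem pt_JRJ (h : WP r A K B) (hβ : |β| ≤ 1) (hγ : |γ| ≤ 1) (y : ℝ) {x : ℝ} (hx : |x| ≤ 1)
    (p d : ℝ) :
    |-(mm * (x * V y * ph1 r A K y)) + NN y x * LQ y - mm * NN y x * ph1 r A K y
      + mm * (β * LQ y * ph r A K y) - mm * (γ * Q1 y * ph r A K y) + β * x * (y * LQ y)
      - γ * x * LQ y + mm * (γ * x) * ph1 r A K y - mm * (x * d) * ph1 r A K y| ≤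
      (15 * |mm| * Real.exp (-(A / K)) + β ^ 2 + γ ^ 2) *
        (Real.exp (|y| / 10) * (1 + y ^ 2) * Q y) + 4080 * (pM r A K B y * (x ^ 2 + p ^ 2))
      + 52 * |mm| * (ph1 r A K y * x ^ 2) + |mm| * (ph1 r A K y * d ^ 2)
      + |mm| * γ ^ 2 * ph1 r A K y := by
  have q0 := Q_pos y
  have m0 := abs_nonneg mm
  have f0 := ph1_pos h.hr h.K_pos A y
  have y0 := abs_nonneg y
  have τ0 := Real.exp_pos (-(A / K))
  have E1 : Real.exp (|y| / 100) ≤ Real.exp (|y| / 10) := Real.exp_le_exp.2 (by linarith)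
  have E2 : 1 ≤ Real.exp (|y| / 10) := Real.one_le_exp (by linarith)
  have p0 : |ph r A K y| ≤ Real.exp (-(A / K)) * Real.exp (|y| / 10) := by
    rw [abs_of_pos (ph_pos r A K y)]
    exact (ph_le_tiny h.hr h.hK A y).trans (mul_le_mul_of_nonneg_left E1 τ0.le)
  have p1 : |ph1 r A K y| ≤ Real.exp (-(A / K)) * Real.exp (|y| / 10) := by
    rw [abs_of_pos f0]
    exact (ph1_le_tiny h.hr h.hK A y).trans (mul_le_mul_of_nonneg_left E1 τ0.le)
  have p2 : |ph1 r A K y| ≤ ph1 r A K y := (abs_of_pos f0).le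
  have hw := h.Q_le_pM y
  obtain ⟨w, hw'⟩ : ∃ w, w = (1 + y ^ 2) * Q y := ⟨_, rfl⟩
  have w1 : Q y ≤ w := by rw [hw']; nlinarith [mul_nonneg (sq_nonneg y) q0.le]
  have ya : |y| ^ 2 = y ^ 2 := sq_abs y
  have l1 : |LQ y| ≤ 2 * w := by
    refine (abs_LQ_le y).trans ?_
    rw [hw', ← mul_assoc]
    exact mul_le_mul_of_nonneg_right (by nlinarith [sq_nonneg (|y| - 1)]) q0.le
  have l2 : |y * LQ y| ≤ 2 * w := by
    rw [abs_mul]
    refine (mul_le_mul_of_nonneg_left (abs_LQ_le y) y0).trans ?_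
    rw [hw', ← mul_assoc, ← mul_assoc]
    exact mul_le_mul_of_nonneg_right (by nlinarith [sq_nonneg (|y| - 1)]) q0.le
  have v1 : |V y| ≤ 12 * w := by
    rw [abs_of_nonneg (V_nonneg y), V]
    have := mul_le_mul_of_nonneg_right (pow_le_pow_left₀ q0.le (Q_le y) 3) q0.le
    linarith
  have n1 := abs_NN_le y hx
  have mm1 : ∀ {a a' : ℝ}, |a| ≤ a' → |mm * a| ≤ |mm| * a' := fun ha => by
    rw [abs_mul]; exact mul_le_mul_of_nonneg_left ha m0
  have mm2 : ∀ {a b a' b' : ℝ}, |a| ≤ a' → |b| ≤ b' → |a * b| ≤ a' * b' := fun ha hb => by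
    rw [abs_mul]; exact mul_le_mul ha hb (abs_nonneg _) ((abs_nonneg _).trans ha)
  have t2 := abs_le.1 (mm1 (mul3_JRJ hx v1 p1))
  have t3 := abs_le.1 (mm2 n1 l1)
  have t4 := abs_le.1 (mul3_JRJ (le_refl |mm|) n1 p2)
  have t5 := abs_le.1 (mm1 (mul3_JRJ hβ l1 p0))
  have t6 := abs_le.1 (mm1 (mul3_JRJ hγ ((abs_Q1_le y).trans w1) p0))
  have t7 := abs_le.1 (mm2 (am_JRJ β x) l2)
  have t8 := abs_le.1 (mm2 (am_JRJ γ x) l1)
  have t9 := abs_le.1 (mul3_JRJ (le_refl |mm|) (am_JRJ γ x) p2)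
  have t10 := abs_le.1 (mul3_JRJ (le_refl |mm|) (am_JRJ x d) p2)
  rw [← hw'] at hw
  rw [mul_assoc (Real.exp (|y| / 10)), ← hw']
  have w0 : 0 ≤ w := q0.le.trans w1
  have g1 := mul_le_mul_of_nonneg_left E2 (mul_nonneg (sq_nonneg β) w0)
  have g2 := mul_le_mul_of_nonneg_left E2 (mul_nonneg (sq_nonneg γ) w0)
  have g3 := mul_le_mul_of_nonneg_right hw (sq_nonneg x)
  have g4 := mul_nonneg (pM_pos r A K B y).le (sq_nonneg p)
  have g5 := mul_nonneg m0 (mul_nonneg f0.le (sq_nonneg x))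
  have g6 := mul_nonneg m0 (mul_nonneg f0.le (sq_nonneg d))
  have g7 := mul_nonneg m0 (mul_nonneg f0.le (sq_nonneg γ))
  rw [abs_le]
  constructor <;> linarith [t2.1, t2.2, t3.1, t3.2, t4.1, t4.2, t5.1, t5.2, t6.1, t6.2, t7.1, t7.2,
    t8.1, t8.2, t9.1, t9.2, t10.1, t10.2]

theorem ph3_JRJ (h : WP r A K B) (he : IsH1 e ey) :
    |∫ y, e y * ph3 r A K y| ≤ Real.sqrt (qf r A K ey) := by
  have hK := h.K_pos
  have hr := h.hr
  have e1 := expD_ph1 hr hK A
  have h1 := he.ibp (test_ph1 hr hK A).h2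
  have i0 : Integrable fun y => ph1 r A K y * (|ey y| * 1) :=
    (integrable_mul2 e1.memLp he.2.1.abs).congr (Eventually.of_forall fun y => by simp)
  have h2 := csw (w := ph1 r A K) (f := fun y => |ey y|) (g := fun _ => 1)
    (fun y => (ph1_pos hr hK A y).le) i0
    (by simpa only [sq_abs] using integrable_bdd_mul (integrable_sq2 he.2.1) e1.bdd)
    (by simpa using e1.integrable)
  simp only [sq_abs, one_pow, mul_one] at h2 i0
  rw [integral_ph1 hr hK, mul_one] at h2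
  have h3 : ‖∫ y, ey y * ph2 r A K y‖ ≤ ∫ y, ph1 r A K y * |ey y| :=
    norm_integral_le_of_norm_le i0 (Eventually.of_forall fun y => by
      rw [Real.norm_eq_abs, abs_mul, mul_comm]
      refine mul_le_mul_of_nonneg_right ((abs_ph2_le hr hK A y).trans ?_) (abs_nonneg _)
      refine mul_le_of_le_one_left (ph1_pos hr hK A y).le ((div_le_one hK).2 ?_)
      linarith [h.hK])
  rw [h1, Real.norm_eq_abs, abs_neg] at h3
  exact h3.trans (Real.le_sqrt_of_sq_le h2)

theorem static_JRJ (h : WP r A K B) (he : IsH1 e ey) (h1 : ∀ y, |e y| ≤ 1) (hβ : |β| ≤ 1)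
    (hγ : |γ| ≤ 1) {dr : ℝ → ℝ} {c1 c2 : ℝ} (hd : ∀ y, dr y = c1 * y + c2) :
    |rhs0 β γ e (fun y => rho y - mm * ph r A K y) (fun y => LQ y - mm * ph1 r A K y)
        (fun y => LQ2 y - mm * ph3 r A K y)
      + (∫ y, e y * (0 - mm * (ph1 r A K y * (-β * y + dr y))))
      - (2 * mu e - mm ^ 2 / 2 * β + mm * qa r A K e + β * qJ r A K e / 2)| ≤
      |mm| * Real.sqrt (qf r A K ey) +
      ((15 * |mm| * Real.exp (-(A / K)) + β ^ 2 + γ ^ 2) * 20 + 4080 * qD r A K B e ey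
      + 52 * |mm| * (∫ y, ph1 r A K y * e y ^ 2) + |mm| * (∫ y, ph1 r A K y * dr y ^ 2)
      + |mm| * γ ^ 2) := by
  have hK := h.K_pos
  have hr := h.hr
  have T := test_rho_ph hr hK A
  have be := he.bdd
  have e1 := expD_ph1 hr hK A
  have bq := expD_Q.bdd
  have bN : Bdd fun y => NN y (e y) :=
    (((bq.add be).pow 5).sub (bq.pow 5)).sub (((bq.pow 4).const_mul 5).mul be)
  have iF := ((((((((T.e3.sub T.e1).add (T.e1.bdd_mul expD_V.bdd)).bdd_mul be).add
    (T.e1.bdd_mul bN)).sub ((T.e0.bdd_mul expD_LQ.bdd).const_mul β)).add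
    ((T.e0.bdd_mul expD_Q1.bdd).const_mul γ)).add
    ((((T.e0.div_const 2).add T.e1.id_mul).bdd_mul be).const_mul β)).sub
    ((T.e1.bdd_mul be).const_mul γ)).integrable
  have iW : Integrable fun y => e y * (0 - mm * (ph1 r A K y * (-β * y + dr y))) :=
    (((((e1.id_mul.const_mul (c1 - β)).add (e1.const_mul c2)).const_mul (-mm)).bdd_mul be).congr
      fun y => by rw [hd]; ring).integrable
  have iD : Integrable fun y => ph1 r A K y * dr y ^ 2 :=
    ((((e1.id_mul.id_mul.const_mul (c1 ^ 2)).add (e1.id_mul.const_mul (2 * c1 * c2))).add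
      (e1.const_mul (c2 ^ 2))).congr fun y => by rw [hd]; ring).integrable
  have a1 := ((expD_Q.bdd_mul be).const_mul 2)
  have a2 := ((expD_LQ.mul_bdd bdd_rho).const_mul β)
  have a3 := ((e1.bdd_mul be).const_mul mm)
  have a4 := ((T.e0.bdd_mul be).const_mul (β / 2))
  have a5 := ((expD_Q1.mul_bdd bdd_rho).const_mul γ)
  have a6 := (((expD_ph3 hr hK A).bdd_mul be).const_mul mm)
  have iM := (((((a1.sub a2).add a3).add a4).add a5).sub a6).integrable
  have eM : ∫ y, (2 * (e y * Q y) - β * (LQ y * rho y) + mm * (e y * ph1 r A K y) +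
      β / 2 * (e y * (rho y - mm * ph r A K y)) + γ * (Q1 y * rho y) - mm * (e y * ph3 r A K y)) =
      2 * mu e - mm ^ 2 / 2 * β + mm * qa r A K e + β * qJ r A K e / 2 -
        mm * ∫ y, e y * ph3 r A K y := by
    rw [integral_sub ((((a1.sub a2).add a3).add a4).add a5).integrable a6.integrable,
      integral_add (((a1.sub a2).add a3).add a4).integrable a5.integrable,
      integral_add ((a1.sub a2).add a3).integrable a4.integrable,
      integral_add (a1.sub a2).integrable a3.integrable, integral_sub a1.integrable a2.integrable]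
    simp only [integral_const_mul]
    rw [integral_LQ_rho, integral_Q1_rho, mu, qa, qJ]
    ring
  have b1 := expD_env.integrable.const_mul (15 * |mm| * Real.exp (-(A / K)) + β ^ 2 + γ ^ 2)
  have b2 := (integrable_bdd_mul ((integrable_sq2 he.1).add (integrable_sq2 he.2.1))
    (bdd_pM r A K B)).const_mul 4080
  have b3 := (e1.mul_bdd (be.pow 2)).integrable.const_mul (52 * |mm|)
  have b4 := iD.const_mul |mm|
  have b5 := e1.integrable.const_mul (|mm| * γ ^ 2)
  have hb := norm_integral_le_of_norm_le ((((b1.add b2).add b3).add b4).add b5)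
    (Eventually.of_forall fun y =>
      (Real.norm_eq_abs _).trans_le (pt_JRJ h hβ hγ y (h1 y) (ey y) (dr y)))
  have b12 := integral_add b1 b2
  have b13 := integral_add (b1.add b2) b3
  have b14 := integral_add ((b1.add b2).add b3) b4
  have b15 := integral_add (((b1.add b2).add b3).add b4) b5
  have c1 := integral_add iF iW
  have c2 := integral_sub (iF.add iW) iM
  simp only [Pi.add_apply] at hb b12 b13 b14 b15 c1 c2
  rw [b15, b14, b13, b12, Real.norm_eq_abs] at hb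
  simp only [integral_const_mul] at hb
  rw [integral_ph1 hr hK] at hb
  rw [c1, eM, integral_congr_ae (Eventually.of_forall fun y => show _ =
    -(mm * (e y * V y * ph1 r A K y)) + NN y (e y) * LQ y - mm * NN y (e y) * ph1 r A K y
      + mm * (β * LQ y * ph r A K y) - mm * (γ * Q1 y * ph r A K y) + β * e y * (y * LQ y)
      - γ * e y * LQ y + mm * (γ * e y) * ph1 r A K y - mm * (e y * dr y) * ph1 r A K y by
    linear_combination (-e y) * L_LQ y)] at c2
  rw [c2] at hb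
  have h2 := mul_le_mul_of_nonneg_left integral_env_le
    (by positivity : 0 ≤ 15 * |mm| * Real.exp (-(A / K)) + β ^ 2 + γ ^ 2)
  have h3 := mul_le_mul_of_nonneg_left (ph3_JRJ h he) (abs_nonneg mm)
  rw [← abs_mul] at h3
  rw [abs_le] at hb h3 ⊢
  unfold rhs0 qD
  constructor <;> linarith [hb.1, hb.2, h3.1, h3.2]

theorem jrJ : JRStmt := by
  intro X B hB
  obtain ⟨Cp, p0, hp⟩ := X.par_le
  obtain ⟨C1, c1, h1⟩ := X.ph1_sq
  obtain ⟨C2, c2, h2⟩ := X.dr_sq
  have m0 := abs_nonneg mm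
  refine ⟨(160 * Cp + 4080 + 8 * (|mm| * Cp)) + 52 * |mm| + (|mm| + 52 * (|mm| * C1)) +
    (300 * |mm| + |mm| * C2), ?_⟩
  filter_upwards [X.ev_gt, X.ev_sup one_pos, X.ev_par one_pos, X.ev_f one_pos, X.ev_log_sq]
    with s hs e1 e2 e3 e4
  have hr := X.r_pos hs
  have hK := X.K_pos
  have s1 := (X.one_lt hs).le
  have T := test_rho_ph hr hK (X.A s)
  have hw := X.wp hs hB
  have hd := mov_l2 (X.st.flow s hs).h1t.l2 ((ME.const bdd_rho.1).sub
    ((me_ph (X.hasDerivAt_r hs) (X.hasDerivAt_A hs) hr hK).const_mul mm)) T.e0.memLp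
    ((X.st.flow s hs).d0 _ _ _ _ T)
  refine ⟨_, hd, ?_⟩
  have e5 : ∀ y, (X.r s * (-X.β s + X.κ / s) * y - X.CA / s) / X.r s = -X.β s * y + X.dr s y :=
    fun y => by unfold Dat.dr; field_simp; ring
  simp only [e5, one_mul]
  refine (static_JRJ hw (X.h1 hs) e1 e2.1 e2.2 (c1 := X.κ / s) (c2 := -(X.CA / (s * X.r s)))
    fun y => by unfold Dat.dr; ring).trans ?_
  have f0 := X.f_nonneg hs
  have D0 := X.D_nonneg B s
  have a0 := sq_nonneg (X.a s)
  have q0 := Real.sqrt_nonneg (X.f s)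
  have t0 : 0 ≤ s ^ (-(3 : ℝ) / 2) := Real.rpow_nonneg (by linarith) _
  have g1 : X.f s ≤ Real.sqrt (X.f s) := Real.le_sqrt_of_sq_le (by nlinarith [e3.1])
  have g2 : X.β s ^ 2 + X.γ s ^ 2 ≤ Cp * (8 * X.D B s) :=
    (hp s hs).trans (mul_le_mul_of_nonneg_left (hw.N0_le (X.h1 hs)) p0)
  have g3 := mul_le_mul_of_nonneg_left ((X.exp_le_tau s1).trans
    (X.tau_le s1 (p := -(3 : ℝ) / 2) (by norm_num))) m0
  have g4 := mul_le_mul_of_nonneg_left ((h1 s hs).trans
    (add_le_add le_rfl (mul_le_mul_of_nonneg_left g1 c1))) m0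
  have g5 := mul_le_mul_of_nonneg_left ((h2 s hs).trans (mul_le_mul_of_nonneg_left e4 c2)) m0
  have g6 := mul_le_mul_of_nonneg_left ((le_add_of_nonneg_left (sq_nonneg (X.β s))).trans g2) m0
  have k1 : 0 ≤ (160 * Cp + 4080 + 8 * (|mm| * Cp)) *
    (X.a s ^ 2 + Real.sqrt (X.f s) + s ^ (-(3 : ℝ) / 2)) := by positivity
  have k2 : 0 ≤ 52 * |mm| * (X.D B s + Real.sqrt (X.f s) + s ^ (-(3 : ℝ) / 2)) := by positivity
  have k3 : 0 ≤ (|mm| + 52 * (|mm| * C1)) * (X.D B s + X.a s ^ 2 + s ^ (-(3 : ℝ) / 2)) := by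
    positivity
  have k4 : 0 ≤ (300 * |mm| + |mm| * C2) * (X.D B s + X.a s ^ 2 + Real.sqrt (X.f s)) := by
    positivity
  change |mm| * Real.sqrt (X.f s) + (_ + 4080 * X.D B s + _ + _ + _) ≤ _
  linarith

end Pool.Agent.MP_8339a4_an
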