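import Pool.Agent.MP_8339a4_an.MMJA

/-! The derivative of the middle mass. -/

open MeasureTheory Filter Topology Set

namespace Pool.Agent.MP_8339a4_an

theorem deriv_MMJ (X : Dat) {s : ℝ} (hs : X.s0 < s) : ∃ g : ℝ → ℝ, Integrable g ∧
    HasDerivAt X.MM (∫ y, g y) s ∧ ∀ y, g y = fl1 (Q y + X.e s y) (Q1 y + X.ey s y)
        (ph1 (X.r s) (-(X.A s)) X.K y - ph1 (X.r s) (X.A s) X.K y)
        (ph3 (X.r s) (-(X.A s)) X.K y - ph3 (X.r s) (X.A s) X.K y)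
      - (1 + X.γ s) * ((Q y + X.e s y) ^ 2
        * (ph1 (X.r s) (-(X.A s)) X.K y - ph1 (X.r s) (X.A s) X.K y))
      + (Q y + X.e s y) ^ 2 * (ph1 (X.r s) (-(X.A s)) X.K y * (X.κ / s * y + X.CA / (s * X.r s))
        - ph1 (X.r s) (X.A s) X.K y * (X.κ / s * y - X.CA / (s * X.r s))) := by
  have hr := X.r_pos hs
  have hK := X.K_pos
  have hs0 : 0 < s := by linarith [X.one_lt hs]
  have wt := (wt_ph hr hK (-(X.A s))).sub (wt_ph hr hK (X.A s))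
  have mw := (mw_ph (a := fun z => -(X.A z)) (X.hasDerivAt_r hs) (X.hasDerivAt_A hs).neg hr
    hK).sub (mw_ph (X.hasDerivAt_r hs) (X.hasDerivAt_A hs) hr hK)
  have hU := X.h1tU hs
  have d1 := (X.st.flow s hs).d1 _ _ _ _ wt
  have d2 := mov_l1 (ρ := fun z y => (Q y + X.e z y) ^ 2) hU.l2.sq mw d1
  have s2 := integrable_sq2 (X.h1U hs).1
  have i1 := (hU.fl1 wt.b1 wt.b3).2.1
  have i2 := (integrable_mul_bdd s2 wt.b1).const_mul (1 + X.γ s)
  have i3 := (integrable_mul_bdd s2 wt.by1).const_mul (X.β s)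
  have i4 := integrable_mul_bdd s2 mw.bdd_wt
  have i5 := add_MMJ (sub_MMJ i1 i2) i3
  refine ⟨_, add_MMJ i5 i4, ?_, fun y => ?_⟩
  · rw [integral_add i5 i4]
    rw [one_mul] at d2
    exact d2.sub_const (∫ y, Q y ^ 2)
  · field_simp
    ring

theorem fin_MMJ {a f D t L s ω aL M' T E1 E2 P P3 g k d Cf Cg Ce κ c M : ℝ} (hf : 0 ≤ f)
    (hD : 0 ≤ D) (hL : 1 ≤ L) (hs : 1 ≤ s) (hT0 : 0 ≤ T) (hT : T ≤ t)
    (hE1 : E1 ≤ L) (hE2 : E2 ≤ Ce * L) (hP : P ≤ a ^ 2 + Cf * f)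
    (hP3 : -P3 ≤ 2 * (Real.sqrt f * |a|) + 2 * (Cf + 1) * f) (hg0 : 0 ≤ g)
    (hg : g ≤ Cg * Real.sqrt D) (hk : k ≤ κ) (hd0 : 0 ≤ d) (hd : d ≤ c * (1 / s))
    (hCf : 0 ≤ Cf) (hCg : 0 ≤ Cg) (hCe : 0 ≤ Ce) (hκ : 0 ≤ κ) (hc : 0 ≤ c) (hM : 0 ≤ M)
    (h : M' ≤ 3 * f + (ω ^ 2 - 2 * ω * aL) + P - P3 + (5 / 3 * (64 * E2 * D ^ 2 + T) + 2 * k * T) * M
      + (g + d) * (4 * E1 * D + P) + (283 + 8 * k + 8 * d) * T * 30) :
    M' ≤ a ^ 2 + ω ^ 2 - 2 * ω * aL + ((5 + 3 * Cf) + 107 * Ce * M + ((2 + 2 * κ) * M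
      + (283 + 8 * κ + 8 * c) * 30) + (Cg + c) * (4 + Cf)) * (Real.sqrt f * |a| + f + t
      + L * ((Real.sqrt D + 1 / s) * (D + a ^ 2 + f) + D ^ 2)) := by
  have hs1 : 1 / s ≤ 1 := (div_le_one (by linarith)).2 hs
  have hs0 : 0 ≤ 1 / s := by positivity
  have ht : 0 ≤ t := hT0.trans hT
  have hL0 : 0 ≤ L := by linarith
  have hdc : d ≤ c := by nlinarith
  set u := Real.sqrt f * |a| with hu
  have hu0 : 0 ≤ u := by positivity
  set v := L * ((Real.sqrt D + 1 / s) * (D + a ^ 2 + f)) with hv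
  have hv0 : 0 ≤ v := by positivity
  set w := L * D ^ 2 with hw
  have hw0 : 0 ≤ w := by positivity
  have eZ : L * ((Real.sqrt D + 1 / s) * (D + a ^ 2 + f) + D ^ 2) = v + w := by
    rw [hv, hw]; ring
  rw [eZ]
  have b1 : 3 * f + Cf * f + (2 * u + 2 * (Cf + 1) * f) ≤ (5 + 3 * Cf) * (u + f + t + (v + w)) := by
    have : 0 ≤ Cf * (u + t + (v + w)) := by positivity
    nlinarith
  have b2 : 5 / 3 * (64 * E2 * D ^ 2) * M ≤ 107 * Ce * M * (u + f + t + (v + w)) := by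
    have k1 : E2 * (D ^ 2 * M) ≤ Ce * L * (D ^ 2 * M) :=
      mul_le_mul_of_nonneg_right hE2 (by positivity)
    have k2 : 0 ≤ Ce * M * (u + f + t + v) := by positivity
    have k3 : 0 ≤ Ce * M * w := by positivity
    have k4 : Ce * L * (D ^ 2 * M) = Ce * M * w := by rw [hw]; ring
    linarith
  have b3 : (5 / 3 * T + 2 * k * T) * M + (283 + 8 * k + 8 * d) * T * 30
      ≤ ((2 + 2 * κ) * M + (283 + 8 * κ + 8 * c) * 30) * (u + f + t + (v + w)) := by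
    have k1 : (5 / 3 + 2 * k) * M + (283 + 8 * k + 8 * d) * 30
        ≤ (2 + 2 * κ) * M + (283 + 8 * κ + 8 * c) * 30 := by
      have := mul_le_mul_of_nonneg_right (show 5 / 3 + 2 * k ≤ 2 + 2 * κ by linarith) hM
      linarith
    have k2 := mul_le_mul_of_nonneg_right k1 hT0
    have k3 : ((2 + 2 * κ) * M + (283 + 8 * κ + 8 * c) * 30) * T
        ≤ ((2 + 2 * κ) * M + (283 + 8 * κ + 8 * c) * 30) * (u + f + t + (v + w)) :=
      mul_le_mul_of_nonneg_left (by linarith) (by positivity)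
    linarith
  have b4 : (g + d) * (4 * E1 * D + P) ≤ (Cg + c) * (4 + Cf) * (u + f + t + (v + w)) := by
    have k1 : g + d ≤ (Cg + c) * (Real.sqrt D + 1 / s) := by
      have := mul_nonneg hCg hs0
      have := mul_nonneg hc (Real.sqrt_nonneg D)
      linarith
    have k2 : 4 * E1 * D + P ≤ (4 + Cf) * (L * (D + a ^ 2 + f)) := by
      have m1 := mul_le_mul_of_nonneg_right hE1 hD
      have m2 : a ^ 2 + Cf * f ≤ L * (a ^ 2 + Cf * f) := le_mul_of_one_le_left (by positivity) hL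
      have m3 : 0 ≤ L * (3 * a ^ 2 + 4 * f + Cf * (D + a ^ 2)) := by positivity
      linarith
    have k3 := mul_le_mul_of_nonneg_left k2 (add_nonneg hg0 hd0)
    have k4 := mul_le_mul_of_nonneg_right k1
      (show 0 ≤ (4 + Cf) * (L * (D + a ^ 2 + f)) by positivity)
    have k5 : (Cg + c) * (Real.sqrt D + 1 / s) * ((4 + Cf) * (L * (D + a ^ 2 + f)))
        = (Cg + c) * (4 + Cf) * v := by rw [hv]; ring
    have k6 : (Cg + c) * (4 + Cf) * v ≤ (Cg + c) * (4 + Cf) * (u + f + t + (v + w)) :=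
      mul_le_mul_of_nonneg_left (by linarith) (by positivity)
    linarith
  linarith

theorem mmJ : MMStmt := by
  intro X B hB
  obtain ⟨Cp, hCp, hpar⟩ := X.par_le
  obtain ⟨Ce, hCe, hE⟩ := X.exp_log_le_Lm hB
  obtain ⟨Cf, hCf, hP⟩ := X.ph1_sq
  refine ⟨(5 + 3 * Cf) + 107 * Ce * X.M + ((2 + 2 * X.κ) * X.M
      + (283 + 8 * X.κ + 8 * (X.CA / X.r0)) * 30) + ((8 * Cp + 1) + X.CA / X.r0) * (4 + Cf), ?_⟩
  filter_upwards [X.ev_gt, X.ev_sup one_pos, X.ev_ey one_pos, X.ev_par one_pos] with s hs h1 hey hγ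
  obtain ⟨g, hg, hd, hG⟩ := deriv_MMJ X hs
  refine ⟨_, hd, fun ω => ?_⟩
  have hs1 : 1 ≤ s := (X.one_lt hs).le
  have hs0 : 0 < s := by linarith
  have hr := X.r_pos hs
  have hr0 := X.r0_pos
  have hCA := X.CA_pos
  have hκ := X.κ_pos
  have wp := X.wp hs hB
  have he := X.h1 hs
  have hk0 : 0 ≤ X.κ / s := by positivity
  have hd0 : 0 ≤ X.CA / (s * X.r s) := by positivity
  have main := static_MMJ wp he h1 hey (X.st.mass s hs) hγ.2 hk0 hd0 hg hG ω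
  have hD := X.D_nonneg B s
  refine fin_MMJ (X.f_nonneg hs) hD (one_le_Lm hs1) hs1 (Real.exp_pos _).le (X.exp_le_tau hs1)
    (X.exp_le_Lm hB hs1) ?_ (hP s hs) (ibp_MMJ hr (X.r_le_K hs) he hCf (hP s hs)) (abs_nonneg _)
    ?_ (div_le_self hκ.le hs1) hd0 ?_ hCf (by positivity) hCe hκ.le (by positivity) X.M_nonneg main
  · have a1 := hE s hs1
    have a2 : 1 ≤ (1 + X.A s) ^ 2 := one_le_pow₀ (by linarith [X.A_nonneg hs1])
    have a3 := mul_le_mul_of_nonneg_left a2 (Real.exp_pos (2 * (X.A s / B))).le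
    linarith
  · refine abs_le_of_sq_le_sq ?_ (by positivity)
    have a1 := hpar s hs
    have a2 : X.N s ≤ 8 * X.D B s := wp.N0_le he
    have a3 := mul_le_mul_of_nonneg_left a2 hCp
    have a4 : 8 * Cp * X.D B s ≤ (8 * Cp + 1) ^ 2 * X.D B s :=
      mul_le_mul_of_nonneg_right (by nlinarith) hD
    rw [mul_pow, Real.sq_sqrt hD]
    nlinarith [sq_nonneg (X.β s)]
  · have a1 : X.CA / X.r0 * (1 / s) = X.CA / (s * X.r0) := by field_simp
    rw [a1]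
    exact div_le_div_of_nonneg_left hCA.le (by positivity)
      (mul_le_mul_of_nonneg_left (X.r_ge hs) hs0.le)

end Pool.Agent.MP_8339a4_an
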