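import Pool.Agent.MP_8339a4_an.ModAa

/-! Existence of continuous modulation parameters. -/

open MeasureTheory Filter Topology Set

namespace Pool.Agent.MP_8339a4_an

noncomputable section

theorem int1_ModA : ∫ y, Q y * C0 y = ∫ y, Q y ^ 4 :=
  integral_congr_ae (Eventually.of_forall fun y => by simp only [C0]; ring)

theorem int2_ModA : ∫ y, Q y * (y * C1 y) = -(3 / 4 * ∫ y, Q y ^ 4) := by
  have h : ∀ y, Q y * (y * C1 y) = 3 * (LQ y * C0 y) - 3 / 2 * Q y ^ 4 := fun y => by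
    simp only [C0, C1, LQ, Q1]
    ring
  simp only [h]
  rw [integral_sub ((integrable_mul2 expD_LQ.memLp expD_C0.memLp).const_mul _)
    ((expD_Q.pow 3).integrable.const_mul _), integral_const_mul, integral_const_mul,
    integral_LQ_C0]
  ring

theorem int3_ModA : ∫ y, Q y * C1 y = 0 := by
  have h : ∀ y, Q y * C1 y = 3 * (Q1 y * C0 y) := fun y => by
    simp only [C0, C1, Q1]
    ring
  simp only [h]
  rw [integral_const_mul, integral_Q1_C0, mul_zero]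

theorem int4_ModA : ∫ y, Q y * (y * Q2 y) = 0 := by
  have h := integral_neg_eq_self (fun y => Q y * (y * Q2 y)) volume
  have h1 : ∀ y, Q (-y) * (-y * Q2 (-y)) = -(Q y * (y * Q2 y)) := fun y => by
    simp only [Q2, Q_neg]
    ring
  simp only [h1] at h
  rw [integral_neg] at h
  linarith

theorem int5_ModA : ∫ y, Q y * Q2 y = -∫ y, Q1 y ^ 2 := by
  have h := isH1_Q.ibp test_Q.h2
  simp only [← sq] at h
  linarith

/-- The normalised orthogonality conditions. -/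
def FF_ModA (f : ℝ → ℝ) (x : ℝ × ℝ) : ℝ × ℝ :=
  ((x.1 * GG_ModA C0 f x - ∫ y, Q y ^ 4) / (-((∫ y, Q y ^ 4) / 2)),
    GG_ModA Q1 f x / (-∫ y, Q1 y ^ 2))

theorem ball_ModA {δ : ℝ} (hδ : δ ≤ 1 / 2) {x : ℝ × ℝ}
    (hx : x ∈ Metric.closedBall ((1 : ℝ), (0 : ℝ)) δ) : 0 < x.1 := by
  have h1 : |x.1 - 1| ≤ ‖x - ((1 : ℝ), (0 : ℝ))‖ := norm_fst_le (x - ((1 : ℝ), (0 : ℝ)))
  rw [Metric.mem_closedBall, dist_eq_norm] at hx
  have := (abs_le.1 (h1.trans hx)).1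
  linarith

theorem approx_ModA {l : Filter ℝ} {U : ℝ → ℝ → ℝ} (h : WK_ModA l U) :
    ∃ δ : ℝ, 0 < δ ∧ δ ≤ 1 / 2 ∧ ∀ᶠ t in l, ∀ x ∈ Metric.closedBall ((1 : ℝ), (0 : ℝ)) δ,
      ∀ y ∈ Metric.closedBall ((1 : ℝ), (0 : ℝ)) δ,
        ‖FF_ModA (U t) y - FF_ModA (U t) x - (y - x)‖ ≤ 1 / 2 * ‖y - x‖ := by
  set k1 : ℝ := ∫ y, Q y ^ 4 with hk1
  set k2 : ℝ := ∫ y, Q1 y ^ 2 with hk2
  have p1 : k1 ≠ 0 := integral_Q4_pos.ne'
  have p2 : k2 ≠ 0 := integral_Q1_sq_pos.ne'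
  have hw : WK_ModA (l ×ˢ 𝓝 ((1 : ℝ), (0 : ℝ))) (fun z => U z.1) := WK_comp_ModA h tendsto_fst
  have hx : Tendsto (fun z : ℝ × ℝ × ℝ => z.2) (l ×ˢ 𝓝 ((1 : ℝ), (0 : ℝ))) (𝓝 (1, 0)) :=
    tendsto_snd
  have hc : Tendsto (fun z : ℝ × ℝ × ℝ => z.2.1) (l ×ˢ 𝓝 ((1 : ℝ), (0 : ℝ))) (𝓝 1) :=
    (continuous_fst.tendsto _).comp hx
  have t1 := ((GG_tendsto_ModA hw hx expD_C0).add
    (hc.mul ((hc.const_mul 2).mul (GA_tendsto_ModA hw hx expD_C1)))).div_const (-(k1 / 2))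
  have t2 := (hc.mul (GG_tendsto_ModA hw hx expD_C1)).div_const (-(k1 / 2))
  have t3 := ((hc.const_mul 2).mul (GA_tendsto_ModA hw hx expD_Q2)).div_const (-k2)
  have t4 := (GG_tendsto_ModA hw hx expD_Q2).div_const (-k2)
  rw [int1_ModA, int2_ModA, ← hk1, show (k1 + 1 * (2 * 1 * -(3 / 4 * k1))) / -(k1 / 2) = 1 by
    field_simp; ring] at t1
  rw [int3_ModA, mul_zero, zero_div] at t2
  rw [int4_ModA, mul_zero, zero_div] at t3
  rw [int5_ModA, ← hk2, div_self (neg_ne_zero.2 p2)] at t4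
  have q : (0 : ℝ) < 1 / 4 := by norm_num
  obtain ⟨pa, hpa, ε, hε, hb⟩ := Metric.eventually_prod_nhds_iff.1
    (((Metric.tendsto_nhds.1 t1 _ q).and (Metric.tendsto_nhds.1 t2 _ q)).and
      ((Metric.tendsto_nhds.1 t3 _ q).and (Metric.tendsto_nhds.1 t4 _ q)))
  obtain ⟨M, hM⟩ := h.1
  refine ⟨min (ε / 2) (1 / 2), lt_min (half_pos hε) (by norm_num), min_le_right _ _, ?_⟩
  filter_upwards [hpa, hM] with t ht hm x hx y hy
  have hin : ∀ x ∈ Metric.closedBall ((1 : ℝ), (0 : ℝ)) (min (ε / 2) (1 / 2)),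
      dist x ((1 : ℝ), (0 : ℝ)) < ε := fun x hx =>
    lt_of_le_of_lt (hx.trans (min_le_left _ _)) (half_lt_self hε)
  have s1 := seg_ModA (fun x => (x.1 * GG_ModA C0 (U t) x - k1) / (-(k1 / 2)))
    (fun x => (GG_ModA C0 (U t) x + x.1 * (2 * x.1 * GA_ModA C1 (U t) x)) / (-(k1 / 2)))
    (fun x => x.1 * GG_ModA C1 (U t) x / (-(k1 / 2))) _ (convex_closedBall _ _)
    (fun p q p' q' s hp hq hs => by
      have h0 := (ball_ModA (min_le_right _ _) hs).ne'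
      refine (((hp.mul (deriv_ModA hasDerivAt_C0 expD_C0 expD_C1 hm.1 hp hq h0)).sub_const
        k1).div_const (-(k1 / 2))).congr_deriv ?_
      ring)
    1 0 (1 / 4) (fun x hx => by
      have := hb ht (hin x hx)
      exact ⟨this.1.1.le, this.1.2.le⟩) x hx y hy
  have s2 := seg_ModA (fun x => GG_ModA Q1 (U t) x / (-k2))
    (fun x => 2 * x.1 * GA_ModA Q2 (U t) x / (-k2))
    (fun x => GG_ModA Q2 (U t) x / (-k2)) _ (convex_closedBall _ _)
    (fun p q p' q' s hp hq hs => by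
      have h0 := (ball_ModA (min_le_right _ _) hs).ne'
      refine ((deriv_ModA hasDerivAt_Q1 expD_Q1 expD_Q2 hm.1 hp hq h0).div_const
        (-k2)).congr_deriv ?_
      ring)
    0 1 (1 / 4) (fun x hx => by
      have := hb ht (hin x hx)
      exact ⟨this.2.1.le, this.2.2.le⟩) x hx y hy
  rw [one_mul, zero_mul, add_zero] at s1
  rw [one_mul, zero_mul, zero_add] at s2
  rw [Prod.norm_def, max_le_iff]
  constructor
  · exact le_trans s1 (le_of_eq (by ring))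
  · exact le_trans s2 (le_of_eq (by ring))

theorem FF0_ModA {l : Filter ℝ} {U : ℝ → ℝ → ℝ} (h : WK_ModA l U) :
    Tendsto (fun t => FF_ModA (U t) (1, 0)) l (𝓝 0) := by
  have t1 := (((GG_tendsto_ModA h tendsto_const_nhds expD_C0).const_mul 1).sub_const
    (∫ y, Q y ^ 4)).div_const (-((∫ y, Q y ^ 4) / 2))
  have t2 := (GG_tendsto_ModA h tendsto_const_nhds expD_Q1).div_const (-∫ y, Q1 y ^ 2)
  rw [int1_ModA, one_mul, sub_self, zero_div] at t1
  rw [integral_Q_Q1, zero_div] at t2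
  exact t1.prodMk_nhds t2

theorem FFc_ModA {l : Filter ℝ} {U : ℝ → ℝ → ℝ} {g : ℝ → ℝ} (h : L2T l U g) {x : ℝ × ℝ}
    (hx : x.1 ≠ 0) : Tendsto (fun t => FF_ModA (U t) x) l (𝓝 (FF_ModA g x)) := by
  have h1 : ∀ θ, ExpD θ → Tendsto (fun t => GG_ModA θ (U t) x) l (𝓝 (GG_ModA θ g x)) :=
    fun θ e => (h.mul (L2T.const (e.comp_affine (pow_ne_zero 2 hx) x.2).memLp)).tendsto_integral
  exact ((((h1 C0 expD_C0).const_mul x.1).sub_const _).div_const _).prodMk_nhds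
    ((h1 Q1 expD_Q1).div_const _)

theorem N0_ModA {l : Filter ℝ} {U : ℝ → ℝ → ℝ} (h : WK_ModA l U) {a b s : ℝ → ℝ}
    (ha : Tendsto a l (𝓝 1)) (hb : Tendsto b l (𝓝 0)) (hs : Tendsto s l (𝓝 1)) :
    Tendsto (fun z => N0 (fun y => s z * U z (a z * y + b z) - Q y)) l (𝓝 0) := by
  obtain ⟨⟨M, hM⟩, h2⟩ := h
  have q : (0 : ℝ) < 1 / 4 := by norm_num
  have l1 : L2T l (fun z y => (U z y - Q y) * Real.exp (-(1 / 4 * |y|))) (fun _ => 0) :=
    ⟨hM.mono fun z hz => memLp_mul_bdd (hz.1.sub expD_Q.memLp) (ExpD.exp_neg_abs q).bdd,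
      ExpD.zero.memLp, by simpa only [sub_zero] using h2 _ q⟩
  have l2 := l1.comp_affine one_ne_zero ha hb
  have l3 := ((L2T.const expD_Q.memLp).comp_affine one_ne_zero ha hb).ut_mul (UT.of_tendsto hs)
  have t := (l2.2.2.const_mul (16 * Real.exp (1 / 2))).add (l3.2.2.const_mul (8 / 3))
  simp only [mul_zero, add_zero, sub_zero, one_mul] at t
  refine squeeze_zero' (Eventually.of_forall fun _ => N0_nonneg _) ?_ t
  filter_upwards [hM, l2.1, l3.1, Metric.tendsto_nhds.1 ha 1 one_pos,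
    Metric.tendsto_nhds.1 hb 1 one_pos, Metric.tendsto_nhds.1 hs 1 one_pos] with z hz m2 m3 e1 e2 e3
  rw [Real.dist_eq, abs_lt] at e1 e3
  rw [Real.dist_eq, sub_zero] at e2
  have a0 : a z ≠ 0 := by linarith [e1.1] |> fun h : 0 < a z => h.ne'
  have i2 := (integrable_sq2 m2).const_mul (16 * Real.exp (1 / 2))
  have i3 : Integrable fun y => 8 / 3 * (s z * Q (a z * y + b z) - Q y) ^ 2 := by
    simpa only [Pi.sub_apply] using (integrable_sq2 (m3.sub expD_Q.memLp)).const_mul (8 / 3)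
  have i1 : Integrable fun y => Q y * (s z * U z (a z * y + b z) - Q y) ^ 2 :=
    integrable_bdd_mul (integrable_sq2
      (((memLp_comp_affine hz.1 a0 (b z)).const_mul (s z)).sub expD_Q.memLp)) expD_Q.bdd
  unfold N0
  rw [← integral_const_mul, ← integral_const_mul, ← integral_add i2 i3]
  refine integral_mono i1 (i2.add i3) fun y => ?_
  have f1 : |a z * y + b z| ≤ 2 * |y| + 1 := by
    refine (abs_add_le _ _).trans ?_
    rw [abs_mul, abs_of_pos (by linarith : 0 < a z)]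
    nlinarith [abs_nonneg y]
  have f2 : Q y ≤ 2 * Real.exp (1 / 2) * Real.exp (-(1 / 4 * |a z * y + b z|)) ^ 2 := by
    refine (Q_le_exp y).trans ?_
    rw [sq, mul_assoc, ← Real.exp_add, ← Real.exp_add]
    exact mul_le_mul_of_nonneg_left (Real.exp_le_exp.2 (by linarith)) zero_le_two
  have f3 : s z ^ 2 ≤ 4 := by nlinarith
  have f4 := Q_le y
  have f5 := (Q_pos y).le
  simp only
  set A := U z (a z * y + b z) - Q (a z * y + b z) with hA
  set B := s z * Q (a z * y + b z) - Q y with hB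
  have f6 : s z * U z (a z * y + b z) - Q y = s z * A + B := by rw [hA, hB]; ring
  have f7 : (s z * A + B) ^ 2 ≤ 8 * A ^ 2 + 2 * B ^ 2 := by
    nlinarith [sq_nonneg (s z * A - B), mul_le_mul_of_nonneg_right f3 (sq_nonneg A)]
  rw [f6, mul_pow A]
  nlinarith [mul_le_mul_of_nonneg_left f7 f5, mul_le_mul_of_nonneg_right f2 (sq_nonneg A),
    mul_le_mul_of_nonneg_right f4 (sq_nonneg B)]

theorem orth_ModA {f θ : ℝ → ℝ} (hf : MemLp f 2 volume) (e0 : ExpD θ) {x : ℝ × ℝ}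
    (hx : 0 < x.1) : ∫ y, (x.1⁻¹ * f ((x.1 ^ 2)⁻¹ * y + -x.2 / x.1 ^ 2) - Q y) * θ y =
      x.1 * GG_ModA θ f x - ∫ y, Q y * θ y := by
  have h1 : 0 < x.1 ^ 2 := pow_pos hx 2
  have h2 := integral_comp_affine
    (fun y => x.1⁻¹ * f ((x.1 ^ 2)⁻¹ * y + -x.2 / x.1 ^ 2) * θ y) h1 x.2
  have h3 : ∀ y, (x.1 ^ 2)⁻¹ * (x.1 ^ 2 * y + x.2) + -x.2 / x.1 ^ 2 = y := fun y => by
    field_simp
    ring
  simp only [h3, mul_assoc] at h2
  rw [integral_const_mul, eq_div_iff h1.ne'] at h2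
  simp only [sub_mul]
  rw [integral_sub (integrable_mul2 ((memLp_comp_affine hf (inv_pos.2 h1).ne' _).const_mul _)
    e0.memLp) (integrable_mul2 expD_Q.memLp e0.memLp)]
  simp only [mul_assoc]
  rw [← h2]
  unfold GG_ModA
  field_simp

theorem modA (hc : ConsStmt) : ModAStmt := by
  intro T ν u ux lt st x0 hP
  let U : ℝ → ℝ → ℝ := fun t y => Real.sqrt (lt t) * u t (lt t * y + st t)
  have hI : ∀ᶠ t in 𝓝[<] (0 : ℝ), t ∈ Ioo T 0 := Ioo_mem_nhdsLT hP.neg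
  have hm : ∀ t ∈ Ico T (0 : ℝ), MemLp (U t) 2 volume := fun t ht =>
    (memLp_comp_affine (hP.sol.h1 t ht).1 (hP.pos t ht).ne' (st t)).const_mul _
  have hw : WK_ModA (𝓝[<] 0) U := by
    refine WK_of_loc_ModA (M := ∫ x, u T x ^ 2) (hI.mono fun t ht => ?_) hP.conv
    have ht' : t ∈ Ico T (0 : ℝ) := ⟨ht.1.le, ht.2⟩
    refine ⟨hm t ht', le_of_eq ?_⟩
    have h0 := hP.pos t ht'
    rw [← (hc _ u ux hP.sol T t ht.1.le fun s hs => ⟨hs.1, hs.2.trans_lt ht.2⟩).1]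
    simp only [U, mul_pow, Real.sq_sqrt h0.le]
    rw [integral_const_mul, integral_comp_affine (fun x => u t x ^ 2) h0]
    field_simp
  obtain ⟨δ, hδ, hδ', hA⟩ := approx_ModA hw
  obtain ⟨x, hx, hev⟩ := ift_ModA (fun t => FF_ModA (U t)) (1, 0) hδ hA (FF0_ModA hw)
  obtain ⟨T1, hT1, hsub⟩ := (mem_nhdsLT_iff_exists_Ioo_subset' hP.neg).1 (hev.and hI)
  have hx1 : Tendsto (fun t => (x t).1) (𝓝[<] 0) (𝓝 1) := (continuous_fst.tendsto _).comp hx
  have hx2 : Tendsto (fun t => (x t).2) (𝓝[<] 0) (𝓝 0) := (continuous_snd.tendsto _).comp hx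
  have ha : Tendsto (fun t => ((x t).1 ^ 2)⁻¹) (𝓝[<] 0) (𝓝 1) := by
    simpa using (hx1.pow 2).inv₀ (by simp)
  have hb : Tendsto (fun t => -(x t).2 / (x t).1 ^ 2) (𝓝[<] 0) (𝓝 0) := by
    have := hx2.neg.div (hx1.pow 2) (by simp)
    rw [neg_zero, zero_div] at this
    exact this
  have hs : Tendsto (fun t => (x t).1⁻¹) (𝓝[<] 0) (𝓝 1) := by
    simpa using hx1.inv₀ one_ne_zero
  let lam : ℝ → ℝ := fun t => lt t / (x t).1 ^ 2
  let sig : ℝ → ℝ := fun t => st t - lt t * (x t).2 / (x t).1 ^ 2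
  have hres : ∀ t ∈ Ioo T1 (0 : ℝ), resc u lam sig t = fun y =>
      (x t).1⁻¹ * U t (((x t).1 ^ 2)⁻¹ * y + -(x t).2 / (x t).1 ^ 2) - Q y := by
    intro t ht
    have c0 := ball_ModA hδ' (hsub ht).1.1
    funext y
    have e1 : lt t * (((x t).1 ^ 2)⁻¹ * y + -(x t).2 / (x t).1 ^ 2) + st t =
        lam t * y + sig t := by
      simp only [lam, sig]
      ring
    have e2 : Real.sqrt (lam t) = (x t).1⁻¹ * Real.sqrt (lt t) := by
      simp only [lam]
      rw [Real.sqrt_div' _ (sq_nonneg _), Real.sqrt_sq c0.le]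
      ring
    simp only [resc, U]
    rw [e1, e2, mul_assoc]
  have hI1 : ∀ᶠ t in 𝓝[<] (0 : ℝ), t ∈ Ioo T1 0 := Ioo_mem_nhdsLT hT1
  refine ⟨max T T1, lam, sig, le_max_left _ _, max_lt hP.neg hT1, fun t ht => ?_, ?_, ?_, ?_⟩
  · have ht1 : t ∈ Ioo T1 (0 : ℝ) := ⟨(le_max_right _ _).trans_lt ht.1, ht.2⟩
    obtain ⟨⟨hb1, hz, -⟩, ht2⟩ := hsub ht1
    have ht' : t ∈ Ico T (0 : ℝ) := ⟨ht2.1.le, ht2.2⟩
    have c0 := ball_ModA hδ' hb1
    have hn : Ico T (0 : ℝ) ∈ 𝓝 t := Ico_mem_nhds ht2.1 ht2.2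
    have clt : ContinuousAt lt t := hP.clt.continuousAt hn
    have cst : ContinuousAt st t := hP.cst.continuousAt hn
    have hU : L2T (𝓝 t) U (U t) := by
      have h1 := (hP.sol.h1t ht').l2
      rw [nhdsWithin_eq_nhds.2 hn] at h1
      exact (h1.comp_affine (hP.pos t ht').ne' clt cst).ut_mul (UT.of_tendsto clt.sqrt)
    have cx : ContinuousAt x t := by
      have h1 := FFc_ModA hU c0.ne'
      rw [hz] at h1
      rw [ContinuousAt, tendsto_iff_norm_sub_tendsto_zero]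
      refine squeeze_zero' (Eventually.of_forall fun _ => norm_nonneg _)
        (Filter.mem_of_superset (Ioo_mem_nhds ht1.1 ht1.2) fun z hz' =>
          (hsub hz').1.2.2 (x t) hb1) ?_
      simpa using h1.norm.const_mul 2
    have c1 : ContinuousAt (fun t => (x t).1 ^ 2) t := cx.fst.pow 2
    have c2 : (x t).1 ^ 2 ≠ 0 := pow_ne_zero 2 c0.ne'
    have z1 := congrArg Prod.fst hz
    have z2 := congrArg Prod.snd hz
    simp only [FF_ModA, Prod.fst_zero, Prod.snd_zero, div_eq_zero_iff, neg_eq_zero] at z1 z2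
    refine ⟨div_pos (hP.pos t ht') (pow_pos c0 2), clt.div c1 c2,
      cst.sub ((clt.mul cx.snd).div c1 c2), ?_, ?_⟩
    · rw [hres t ht1, orth_ModA (hm t ht') expD_C0 c0, int1_ModA]
      rcases z1 with z1 | z1 | z1
      · exact z1
      · exact absurd z1 integral_Q4_pos.ne'
      · exact absurd z1 two_ne_zero
    · rw [hres t ht1, orth_ModA (hm t ht') expD_Q1 c0, integral_Q_Q1,
        z2.resolve_right integral_Q1_sq_pos.ne', mul_zero, sub_zero]
  · refine ha.congr' (hI.mono fun t ht => ?_)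
    have := (hP.pos t ⟨ht.1.le, ht.2⟩).ne'
    simp only [lam]
    field_simp
  · refine hb.congr' (hI.mono fun t ht => ?_)
    have := (hP.pos t ⟨ht.1.le, ht.2⟩).ne'
    simp only [sig]
    field_simp
    ring
  · refine (N0_ModA hw ha hb hs).congr' (hI1.mono fun t ht => ?_)
    simp only [hres t ht]

end

end Pool.Agent.MP_8339a4_an
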