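import Pool.Agent.MP_8339a4_an.Api

/-! Continuous modulation parameters are differentiable. -/

open MeasureTheory Filter Topology Set

namespace Pool.Agent.MP_8339a4_an

/-- The pairing of `v` with the profile `g` at inverse scale `a` and shift `b`. -/
noncomputable def G_ModB (g v : ℝ → ℝ) (a b : ℝ) : ℝ := Real.sqrt a * ∫ x, v x * g (a * x + b)

/-- The derivative of the pairing with respect to `a`. -/
noncomputable def A_ModB (θ θ1 v : ℝ → ℝ) (a b : ℝ) : ℝ :=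
  (G_ModB θ v a b / 2 + G_ModB (fun y => y * θ1 y) v a b - b * G_ModB θ1 v a b) / a

variable {θ θ1 θ2 θ3 v g : ℝ → ℝ} {u ux : ℝ → ℝ → ℝ} {t T : ℝ}

theorem deriv_ModB (h : Test θ θ1 θ2 θ3) (hv : MemLp v 2 volume) {a b : ℝ → ℝ} {a' b' s : ℝ}
    (ha : HasDerivAt a a' s) (hb : HasDerivAt b b' s) (h0 : 0 < a s) :
    HasDerivAt (fun z => G_ModB θ v (a z) (b z))
      (a' * A_ModB θ θ1 v (a s) (b s) + b' * G_ModB θ1 v (a s) (b s)) s := by
  have h1 := mov_l2 (ρ := fun _ => v) (L2T.const hv) (me_profile h.sm.d1 h.e1 ha hb h0.ne')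
    (h.e0.comp_affine h0.ne' _).memLp (hasDerivAt_const s _)
  have i1 := integrable_mul2 hv (h.e1.id_mul.comp_affine h0.ne' (b s)).memLp
  have i2 := integrable_mul2 hv (h.e1.comp_affine h0.ne' (b s)).memLp
  have h2 : ∫ y, v y * (θ1 (a s * y + b s) * (a' * y + b')) =
      a' / a s * (∫ y, v y * ((a s * y + b s) * θ1 (a s * y + b s))) +
        (b' - a' * b s / a s) * ∫ y, v y * θ1 (a s * y + b s) := by
    rw [← integral_const_mul, ← integral_const_mul,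
      ← integral_add (i1.const_mul _) (i2.const_mul _)]
    refine integral_congr_ae (Eventually.of_forall fun y => ?_)
    field_simp
    ring
  rw [h2] at h1
  refine ((ha.sqrt h0.ne').mul h1).congr_deriv ?_
  have h3 := Real.sqrt_pos.2 h0
  have h4 := Real.mul_self_sqrt h0.le
  simp only [A_ModB, G_ModB]
  generalize Real.sqrt (a s) = r at h3 h4
  rw [← h4]
  field_simp
  ring

theorem mvt_ModB (h : Test θ θ1 θ2 θ3) (hv : MemLp v 2 volume) {a0 a1 : ℝ} (h0 : 0 < a0)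
    (h1 : 0 < a1) (b0 b1 : ℝ) : ∃ s ∈ Icc (0 : ℝ) 1, G_ModB θ v a1 b1 - G_ModB θ v a0 b0 =
      (a1 - a0) * A_ModB θ θ1 v (a0 + s * (a1 - a0)) (b0 + s * (b1 - b0)) +
        (b1 - b0) * G_ModB θ1 v (a0 + s * (a1 - a0)) (b0 + s * (b1 - b0)) := by
  have hl : ∀ c d s : ℝ, HasDerivAt (fun z => c + z * d) d s := fun c d s => by
    simpa using ((hasDerivAt_id s).mul_const d).const_add c
  have hd := fun s (hs : s ∈ Icc (0 : ℝ) 1) => deriv_ModB h hv (hl a0 (a1 - a0) s)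
    (hl b0 (b1 - b0) s) (by
      rcases le_total a0 a1 with h2 | h2
      · nlinarith [mul_nonneg hs.1 (sub_nonneg.2 h2)]
      · nlinarith [mul_nonneg (sub_nonneg.2 hs.2) (sub_nonneg.2 h2)])
  obtain ⟨s, hs, e⟩ := exists_hasDerivAt_eq_slope _ _ zero_lt_one
    (fun s hs => (hd s hs).continuousAt.continuousWithinAt) fun s hs => hd s (Ioo_subset_Icc_self hs)
  exact ⟨s, Ioo_subset_Icc_self hs, by rw [e]; simp⟩

theorem cont_ModB (hu : L2T (𝓝 t) u (u t)) (hg : ExpD g) {a b : ℝ → ℝ} {a0 b0 : ℝ} (h0 : a0 ≠ 0)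
    (ha : Tendsto a (𝓝 t) (𝓝 a0)) (hb : Tendsto b (𝓝 t) (𝓝 b0)) :
    Tendsto (fun z => G_ModB g (u z) (a z) (b z)) (𝓝 t) (𝓝 (G_ModB g (u t) a0 b0)) :=
  ha.sqrt.mul (hu.mul ((L2T.const hg.memLp).comp_affine h0 ha hb)).tendsto_integral

theorem mid_ModB {a s : ℝ → ℝ} (ha : ContinuousAt a t) (hs : ∀ z, s z ∈ Icc (0 : ℝ) 1) :
    Tendsto (fun z => a t + s z * (a z - a t)) (𝓝 t) (𝓝 (a t)) := by
  have h1 : Tendsto (fun z => s z * (a z - a t)) (𝓝 t) (𝓝 0) := by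
    refine squeeze_zero_norm (fun z => ?_) (tendsto_iff_norm_sub_tendsto_zero.1 ha)
    rw [norm_mul, Real.norm_of_nonneg (hs z).1]
    exact mul_le_of_le_one_left (norm_nonneg _) (hs z).2
  simpa using h1.const_add (a t)

theorem car_ModB (h : Test θ θ1 θ2 θ3) (hu : L2T (𝓝 t) u (u t)) {a b : ℝ → ℝ}
    (ha : ContinuousAt a t) (hb : ContinuousAt b t) (h0 : 0 < a t) :
    ∃ α β : ℝ → ℝ, Tendsto α (𝓝 t) (𝓝 (A_ModB θ θ1 (u t) (a t) (b t))) ∧
      Tendsto β (𝓝 t) (𝓝 (G_ModB θ1 (u t) (a t) (b t))) ∧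
      ∀ᶠ z in 𝓝 t, G_ModB θ (u z) (a z) (b z) - G_ModB θ (u z) (a t) (b t) =
        (a z - a t) * α z + (b z - b t) * β z := by
  have key : ∀ z, ∃ s ∈ Icc (0 : ℝ) 1, MemLp (u z) 2 volume → 0 < a z →
      G_ModB θ (u z) (a z) (b z) - G_ModB θ (u z) (a t) (b t) =
      (a z - a t) * A_ModB θ θ1 (u z) (a t + s * (a z - a t)) (b t + s * (b z - b t)) +
        (b z - b t) * G_ModB θ1 (u z) (a t + s * (a z - a t)) (b t + s * (b z - b t)) := fun z => by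
    by_cases h1 : MemLp (u z) 2 volume ∧ 0 < a z
    · obtain ⟨s, hs, e⟩ := mvt_ModB h h1.1 h0 h1.2 (b t) (b z)
      exact ⟨s, hs, fun _ _ => e⟩
    · exact ⟨0, by simp, fun h2 h3 => absurd ⟨h2, h3⟩ h1⟩
  choose s hs e using key
  have ta := mid_ModB ha hs
  have tb := mid_ModB hb hs
  refine ⟨_, _, (((cont_ModB hu h.e0 h0.ne' ta tb).div_const 2).add
    (cont_ModB hu h.e1.id_mul h0.ne' ta tb)).sub (tb.mul (cont_ModB hu h.e1 h0.ne' ta tb)) |>.div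
      ta h0.ne', cont_ModB hu h.e1 h0.ne' ta tb, ?_⟩
  filter_upwards [hu.1, ha.eventually (lt_mem_nhds h0)] with z h1 h2 using e z h1 h2

theorem h1t_ModB (hs : IsSol (Ico T 0) u ux) (ht : t ∈ Ioo T 0) :
    H1T (𝓝 t) u ux (u t) (ux t) := by
  have := hs.h1t (Ioo_subset_Ico_self ht)
  rwa [nhdsWithin_eq_nhds.2 (Ico_mem_nhds ht.1 ht.2)] at this

theorem time_ModB (h0 : P0Stmt) (hs : IsSol (Ico T 0) u ux) (ht : t ∈ Ioo T 0)
    (h : Test θ θ1 θ2 θ3) : DifferentiableAt ℝ (fun z => ∫ x, u z x * θ x) t := by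
  refine (hasDerivAt_of_integral_eq (g := fun z => ∫ x, (u z x * θ3 x + u z x ^ 5 * θ1 x))
    ?_ ?_).differentiableAt <;> filter_upwards [Ioo_mem_nhds ht.1 ht.2] with z hz
  · have h1 := h1t_ModB hs hz
    exact ((h1.l2.mul (L2T.const h.e3.memLp)).add
      ((h1.pow 3).mul_ut (UT.const h.e1.bdd))).tendsto_integral
  · rcases le_total t z with h1 | h1
    · exact h0 _ u ux hs t z h1 (fun x hx => ⟨ht.1.le.trans hx.1, hx.2.trans_lt hz.2⟩) _ _ _ _ h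
    · rw [intervalIntegral.integral_symm, ← h0 _ u ux hs z t h1
        (fun x hx => ⟨hz.1.le.trans hx.1, hx.2.trans_lt ht.2⟩) _ _ _ _ h, neg_sub]

theorem memLp_ModB {lam sig : ℝ → ℝ} (hv : MemLp (u t) 2 volume) (hl : 0 < lam t) :
    MemLp (resc u lam sig t) 2 volume :=
  ((memLp_comp_affine hv hl.ne' (sig t)).const_mul _).sub expD_Q.memLp

theorem cov_ModB {lam sig : ℝ → ℝ} (hv : MemLp (u t) 2 volume) (hl : 0 < lam t) (hg : ExpD g) :
    G_ModB g (u t) (lam t)⁻¹ (-sig t / lam t) =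
      (∫ y, Q y * g y) + ∫ y, resc u lam sig t y * g y := by
  have h1 := integral_comp_affine (fun x => u t x * g ((lam t)⁻¹ * x + -sig t / lam t)) hl (sig t)
  have h2 : ∀ y, (lam t)⁻¹ * (lam t * y + sig t) + -sig t / lam t = y := fun y => by
    field_simp
    ring
  simp only [h2] at h1
  rw [← integral_add (integrable_mul2 expD_Q.memLp hg.memLp)
    (integrable_mul2 (memLp_ModB hv hl) hg.memLp)]
  have h3 : ∀ y, Q y * g y + resc u lam sig t y * g y =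
      Real.sqrt (lam t) * (u t (lam t * y + sig t) * g y) := fun y => by
    rw [resc]
    ring
  simp only [h3]
  rw [integral_const_mul, h1, G_ModB, Real.sqrt_inv, ← Real.sqrt_div_self]
  ring

theorem prod_ModB {F k : ℝ → ℝ} {k0 : ℝ} (hF : DifferentiableAt ℝ F t)
    (hk : Tendsto k (𝓝 t) (𝓝 k0)) : DifferentiableAt ℝ (fun z => (F z - F t) * k z) t := by
  refine HasDerivAt.differentiableAt (f' := deriv F t * k0) (hasDerivAt_iff_tendsto_slope.2 ?_)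
  refine ((hasDerivAt_iff_tendsto_slope.1 hF.hasDerivAt).mul
    (hk.mono_left nhdsWithin_le_nhds)).congr fun z => ?_
  simp only [slope_def_field]
  ring

theorem cramer_ModB {a b F1 F2 α1 α2 β1 β2 : ℝ → ℝ} {p1 p2 q1 q2 : ℝ}
    (h1 : DifferentiableAt ℝ F1 t) (h2 : DifferentiableAt ℝ F2 t)
    (a1 : Tendsto α1 (𝓝 t) (𝓝 p1)) (a2 : Tendsto α2 (𝓝 t) (𝓝 p2))
    (b1 : Tendsto β1 (𝓝 t) (𝓝 q1)) (b2 : Tendsto β2 (𝓝 t) (𝓝 q2)) (hd : p1 * q2 - p2 * q1 ≠ 0)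
    (e1 : ∀ᶠ z in 𝓝 t, F1 t - F1 z = (a z - a t) * α1 z + (b z - b t) * β1 z)
    (e2 : ∀ᶠ z in 𝓝 t, F2 t - F2 z = (a z - a t) * α2 z + (b z - b t) * β2 z) :
    DifferentiableAt ℝ a t := by
  have d := (a1.mul b2).sub (a2.mul b1)
  refine (((prod_ModB h2 (b1.div d hd)).sub (prod_ModB h1 (b2.div d hd))).add_const
    (a t)).congr_of_eventuallyEq ?_
  filter_upwards [e1, e2, d.eventually_ne hd] with z e1 e2 hz
  simp only [Pi.sub_apply, Pi.div_apply]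
  rw [← neg_sub (F1 t), ← neg_sub (F2 t), e1, e2, ← mul_div_assoc, ← mul_div_assoc, ← sub_div,
    ← sub_eq_iff_eq_add, eq_div_iff hz]
  ring

theorem small_ModB {I J : ℝ} (hI : 0 < I) (hJ : 0 < J) (m : ℝ) : ∃ η : ℝ, 0 < η ∧
    ∀ e1 e2 e3 e4 : ℝ, e1 ^ 2 < η ^ 2 → e2 ^ 2 < η ^ 2 → e3 ^ 2 < η ^ 2 → e4 ^ 2 < η ^ 2 →
      (-I + e1) * (-J + e2) - (m + e3) * e4 ≠ 0 := by
  have h1 : Continuous fun p : ℝ × ℝ × ℝ × ℝ =>
      (-I + p.1) * (-J + p.2.1) - (m + p.2.2.1) * p.2.2.2 := by fun_prop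
  obtain ⟨η, h2, h3⟩ := Metric.eventually_nhds_iff.1 ((h1.tendsto 0).eventually_ne (b₂ := 0)
    (by simp [hI.ne', hJ.ne']))
  refine ⟨η, h2, fun e1 e2 e3 e4 a1 a2 a3 a4 => h3 (y := (e1, e2, e3, e4)) ?_⟩
  simp [Prod.norm_def, abs_lt_of_sq_lt_sq a1 h2.le, abs_lt_of_sq_lt_sq a2 h2.le,
    abs_lt_of_sq_lt_sq a3 h2.le, abs_lt_of_sq_lt_sq a4 h2.le]

theorem lin_ModB {e : ℝ → ℝ} (he : MemLp e 2 volume) (hg : ExpD g) (h : ∀ y, |g y| ≤ 6 * Q y) :
    (∫ y, e y * g y) ^ 2 ≤ 40 * 6 ^ 2 * N0 e ∧ (∫ y, e y * (y * g y)) ^ 2 ≤ 40 * 6 ^ 2 * N0 e := by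
  have h1 : ∀ y, (1 + |y|) * (6 * Q y) ≤ 6 * (Real.exp (|y| / 20) * (1 + |y|) * Q y) := fun y => by
    have h2 : 0 ≤ (1 + |y|) * Q y := mul_nonneg (by positivity) (Q_pos y).le
    have h3 : 1 ≤ Real.exp (|y| / 20) := Real.one_le_exp (by positivity)
    nlinarith
  refine ⟨sq_integral_le_N0 he hg.1 fun y => (h y).trans (le_trans ?_ (h1 y)),
    sq_integral_le_N0 he hg.id_mul.1 fun y => le_trans ?_ (h1 y)⟩
  · nlinarith [abs_nonneg y, Q_pos y]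
  · rw [abs_mul]
    exact mul_le_mul (by linarith) (h y) (abs_nonneg _) (by positivity)

theorem C1_ModB (y : ℝ) : |C1 y| ≤ 6 * Q y := by
  have h1 := Q_pos y
  have h2 := Q_le y
  have h3 : Q y ^ 2 ≤ 2 := by nlinarith
  have h4 : |tn y| * Q y ^ 2 ≤ 1 * 2 :=
    mul_le_mul (abs_tn_lt y).le h3 (sq_nonneg _) zero_le_one
  rw [C1, abs_neg, abs_mul, abs_mul, abs_of_pos (pow_pos h1 3), abs_of_pos three_pos]
  nlinarith

theorem QC1_ModB : ∫ y, Q y * C1 y = 0 := by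
  have : ∀ y, Q y * C1 y = 3 * (Q1 y * C0 y) := fun y => by
    simp only [C1, Q1, C0]
    ring
  simp only [this]
  rw [integral_const_mul, integral_Q1_C0, mul_zero]

theorem QC0_ModB : (∫ y, Q y * C0 y) / 2 + ∫ y, Q y * (y * C1 y) = -((∫ y, Q y ^ 4) / 4) := by
  have h1 : ∀ y, Q y * C0 y = Q y ^ 4 := fun y => by
    rw [C0]
    ring
  have h2 : ∀ y, Q y * (y * C1 y) = 3 * (LQ y * C0 y) - 3 / 2 * Q y ^ 4 := fun y => by
    simp only [C1, LQ, Q1, C0]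
    ring
  simp only [h1, h2]
  rw [integral_sub ((integrable_mul2 expD_LQ.memLp expD_C0.memLp).const_mul _)
    ((expD_Q.pow 3).integrable.const_mul _), integral_const_mul, integral_const_mul,
    integral_LQ_C0]
  ring

theorem QQ2_ModB : ∫ y, Q y * Q2 y = -∫ y, Q1 y ^ 2 := by
  simp only [sq]
  rw [test_Q.h1.ibp test_Q.h2, neg_neg]

theorem modB (h0 : P0Stmt) : ModBStmt := by
  obtain ⟨η, hη, hs⟩ := small_ModB (div_pos integral_Q4_pos four_pos) integral_Q1_sq_pos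
    (∫ y, Q y * (y * Q2 y))
  refine ⟨η ^ 2 / 2000, by positivity, fun T u ux lam sig t hu t1 t2 hl cl cs ho hN => ?_⟩
  have hH := (h1t_ModB hu ⟨t1, t2⟩).l2
  have ca : ContinuousAt (fun z => (lam z)⁻¹) t := cl.inv₀ hl.ne'
  have cb : ContinuousAt (fun z => -sig z / lam z) t := cs.neg.div cl hl.ne'
  have ha := inv_pos.2 hl
  obtain ⟨α1, β1, a1, b1, e1⟩ := car_ModB test_C0 hH ca cb ha
  obtain ⟨α2, β2, a2, b2, e2⟩ := car_ModB test_Q1 hH ca cb ha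
  have d1 : DifferentiableAt ℝ (fun z => G_ModB C0 (u z) (lam t)⁻¹ (-sig t / lam t)) t :=
    (time_ModB h0 hu ⟨t1, t2⟩ (test_C0.comp_affine ha.ne' _)).const_mul _
  have d2 : DifferentiableAt ℝ (fun z => G_ModB Q1 (u z) (lam t)⁻¹ (-sig t / lam t)) t :=
    (time_ModB h0 hu ⟨t1, t2⟩ (test_Q1.comp_affine ha.ne' _)).const_mul _
  have hp := cl.eventually (lt_mem_nhds hl)
  have hc : ∀ᶠ z in 𝓝 t, G_ModB C0 (u z) (lam z)⁻¹ (-sig z / lam z) = ∫ y, Q y * C0 y ∧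
      G_ModB Q1 (u z) (lam z)⁻¹ (-sig z / lam z) = 0 := by
    filter_upwards [hH.1, hp, ho] with z m n o
    rw [cov_ModB m n expD_C0, cov_ModB m n expD_Q1, o.1, o.2, integral_Q_Q1]
    simp
  have hc0 := hc.self_of_nhds
  have hd : A_ModB C0 C1 (u t) (lam t)⁻¹ (-sig t / lam t) *
      G_ModB Q2 (u t) (lam t)⁻¹ (-sig t / lam t) - A_ModB Q1 Q2 (u t) (lam t)⁻¹ (-sig t / lam t) *
      G_ModB C1 (u t) (lam t)⁻¹ (-sig t / lam t) ≠ 0 := by
    have he := memLp_ModB (sig := sig) hH.2.1 hl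
    have l1 := lin_ModB he expD_C1 C1_ModB
    have l2 := lin_ModB he expD_Q2 fun y => (abs_Q2_le y).trans (by linarith [Q_pos y])
    have l3 : 40 * 6 ^ 2 * N0 (resc u lam sig t) < η ^ 2 := by linarith [pow_pos hη 2]
    have h3 := hs _ _ _ _ (l1.2.trans_lt l3) (l2.1.trans_lt l3) (l2.2.trans_lt l3)
      (l1.1.trans_lt l3)
    rw [← QC0_ModB] at h3
    rw [A_ModB, A_ModB, hc0.1, hc0.2, cov_ModB hH.2.1 hl expD_C1.id_mul,
      cov_ModB hH.2.1 hl expD_Q2.id_mul, cov_ModB hH.2.1 hl expD_C1, cov_ModB hH.2.1 hl expD_Q2,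
      QC1_ModB, QQ2_ModB]
    refine fun h4 => mul_ne_zero hl.ne' h3 (Eq.trans ?_ h4)
    simp only [div_inv_eq_mul]
    ring
  have f1 := e1.and hc |>.mono fun z hz => (hc0.1.trans hz.2.1.symm ▸ hz.1 :)
  have f2 := e2.and hc |>.mono fun z hz => (hc0.2.trans hz.2.2.symm ▸ hz.1 :)
  have da := cramer_ModB d1 d2 a1 a2 b1 b2 hd f1 f2
  have db := cramer_ModB d1 d2 b1 b2 a1 a2 (fun h => hd (by linarith))
    (f1.mono fun z hz => hz.trans (add_comm _ _)) (f2.mono fun z hz => hz.trans (add_comm _ _))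
  have dl : DifferentiableAt ℝ lam t := by simpa using da.fun_inv ha.ne'
  refine ⟨dl, (db.mul dl).neg.congr_of_eventuallyEq ?_⟩
  filter_upwards [hp] with z hz
  simp only [Pi.neg_apply, Pi.mul_apply]
  field_simp

end Pool.Agent.MP_8339a4_an
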