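import Pool.Agent.MP_8339a4_an.EA

/-! The quantity `μ = ∫ e Q` tends to zero and its derivative is quadratic. -/

open MeasureTheory Filter Topology Set

namespace Pool.Agent.MP_8339a4_an

theorem static_MuJ {e ey : ℝ → ℝ} (h : IsH1 e ey) (he : ∀ y, |e y| ≤ 1)
    (ho : ∫ y, e y * Q1 y = 0) (β γ : ℝ) :
    |rhs0 β γ e Q Q1 Q3| ≤ β ^ 2 + 90 * N0 e := by
  have cQ : Continuous Q := expD_Q.1
  have ce : Continuous e := h.continuous
  have iN : Integrable fun y => Q y * e y ^ 2 := integrable_bdd_mul (integrable_sq2 h.1) expD_Q.bdd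
  have bN : ∀ y, ‖NN y (e y) * Q1 y‖ ≤ 50 * (Q y * e y ^ 2) := fun y => by
    rw [Real.norm_eq_abs, abs_mul]
    have := mul_le_mul (abs_NN_le y (he y)) (abs_Q1_le y) (abs_nonneg _) (by positivity)
    linarith
  have cN : Continuous fun y => NN y (e y) * Q1 y := by
    refine Continuous.mul ?_ expD_Q1.1
    unfold NN
    fun_prop
  have i1 : Integrable fun y => NN y (e y) * Q1 y :=
    (iN.const_mul 50).mono' cN.aestronglyMeasurable (ae_of_all _ bN)
  have i2 : Integrable fun y => Q y * LQ y := integrable_mul2 expD_Q.memLp expD_LQ.memLp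
  have i3 : Integrable fun y => Q y * Q1 y := integrable_mul2 expD_Q.memLp expD_Q1.memLp
  have i4 : Integrable fun y => e y * LQ y := integrable_mul2 h.1 expD_LQ.memLp
  have i5 : Integrable fun y => e y * Q1 y := integrable_mul2 h.1 expD_Q1.memLp
  have e1 : rhs0 β γ e Q Q1 Q3 = (∫ y, NN y (e y) * Q1 y) + β * ∫ y, e y * LQ y := by
    have e2 : rhs0 β γ e Q Q1 Q3 = ∫ y, (NN y (e y) * Q1 y - β * (Q y * LQ y) + γ * (Q y * Q1 y)
        + β * (e y * LQ y) - γ * (e y * Q1 y)) := by
      unfold rhs0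
      refine integral_congr_ae (ae_of_all _ fun y => ?_)
      have := L_Q1 y
      dsimp only
      rw [show Q3 y - Q1 y + V y * Q1 y = 0 by linarith, show Q y / 2 + y * Q1 y = LQ y from rfl]
      ring
    have j1 : Integrable fun y => NN y (e y) * Q1 y - β * (Q y * LQ y) := i1.sub (i2.const_mul _)
    have j2 : Integrable fun y => NN y (e y) * Q1 y - β * (Q y * LQ y) + γ * (Q y * Q1 y) :=
      j1.add (i3.const_mul _)
    have j3 : Integrable fun y => NN y (e y) * Q1 y - β * (Q y * LQ y) + γ * (Q y * Q1 y)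
        + β * (e y * LQ y) := j2.add (i4.const_mul _)
    rw [e2, integral_sub j3 (i5.const_mul _), integral_add j2 (i4.const_mul _),
      integral_add j1 (i3.const_mul _), integral_sub i1 (i2.const_mul _)]
    simp only [integral_const_mul, integral_Q_LQ, integral_Q_Q1, ho]
    ring
  have b1 : |∫ y, NN y (e y) * Q1 y| ≤ 50 * N0 e := by
    have := norm_integral_le_of_norm_le (iN.const_mul 50) (ae_of_all _ bN)
    rwa [integral_const_mul] at this
  have b2 : (∫ y, e y * LQ y) ^ 2 ≤ 40 * 1 ^ 2 * N0 e :=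
    sq_integral_le_N0 h.1 expD_LQ.1 fun y => by
      have h1 : 1 ≤ Real.exp (|y| / 20) := Real.one_le_exp (by positivity)
      have h2 : 0 ≤ (1 + |y|) * Q y := mul_nonneg (by positivity) (Q_pos y).le
      nlinarith [abs_LQ_le y]
  rw [e1, abs_le]
  rw [abs_le] at b1
  have n0 := N0_nonneg e
  constructor
  · nlinarith [sq_nonneg (β + ∫ y, e y * LQ y), sq_nonneg β]
  · nlinarith [sq_nonneg (β - ∫ y, e y * LQ y), sq_nonneg β]

theorem muJ : MuStmt := by
  intro X
  constructor
  · have h1 : Tendsto (fun s => Real.sqrt (4 * N0 (X.e s))) atTop (𝓝 0) := by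
      simpa using (X.st.n0.const_mul 4).sqrt
    refine squeeze_zero_norm' ?_ h1
    filter_upwards [X.ev_gt] with s hs
    exact Real.abs_le_sqrt (mu_sq_le (X.h1 hs).1)
  · obtain ⟨C, -, hC⟩ := X.par_le
    refine ⟨C + 90, ?_⟩
    filter_upwards [X.ev_gt, X.ev_sup one_pos] with s hs he
    have fl := X.st.flow s hs
    refine ⟨_, fl.d0 Q Q1 Q2 Q3 test_Q, ?_⟩
    have := static_MuJ (X.h1 hs) he fl.orth.self_of_nhds.2 (X.β s) (X.γ s)
    have h2 := hC s hs
    rw [one_mul]
    unfold Dat.N at *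
    nlinarith [sq_nonneg (X.γ s)]

end Pool.Agent.MP_8339a4_an
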