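import Pool.Agent.MP_8339a4_an.Api

/-! The global form of the sharp Gagliardo-Nirenberg inequality under a local mass bound. -/

open MeasureTheory Filter Topology Set

namespace Pool.Agent.MP_8339a4_an

theorem avg_NagyG {f : ℝ → ℝ} (hf : Integrable f) {l : ℝ} (hl : 0 < l) :
    Integrable (fun x => ∫ y in x..(x + l), f y) ∧ ∫ x, ∫ y in x..(x + l), f y = l * ∫ y, f y := by
  have e : (fun x => ∫ y in x..(x + l), f y) = fun x => ∫ t in Ioc (-l) 0, f (x - t) := by
    funext x
    rw [← intervalIntegral.integral_of_le (by linarith), intervalIntegral.integral_comp_sub_left,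
      sub_zero, sub_neg_eq_add]
  have h : Integrable (fun p : ℝ × ℝ => f (p.1 - p.2))
      (volume.prod (volume.restrict (Ioc (-l) 0))) := by
    simpa using (integrable_const (μ := volume.restrict (Ioc (-l) (0 : ℝ)))
      (1 : ℝ)).convolution_integrand (ContinuousLinearMap.mul ℝ ℝ) hf
  rw [e]
  refine ⟨h.integral_prod_left, ?_⟩
  rw [integral_integral_swap (f := fun x t => f (x - t)) h]
  simp [integral_sub_right_eq_self, hl.le]

theorem four_NagyG {w wy : ℝ → ℝ} (h : IsH1 w wy) {M : ℝ} (hM : (∫ y, w y ^ 2) ≤ M) :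
    ∫ y, w y ^ 4 ≤ 2 * (Real.sqrt M * Real.sqrt (∫ y, wy y ^ 2)) * M := by
  have h0 : (0 : ℝ) ≤ 2 * (Real.sqrt M * Real.sqrt (∫ y, wy y ^ 2)) := by positivity
  refine le_trans ?_ (mul_le_mul_of_nonneg_left hM h0)
  rw [← integral_const_mul]
  refine integral_mono (h.integrable_pow 2) ((h.integrable_pow 0).const_mul _) fun y => ?_
  have h1 : w y ^ 2 ≤ 2 * (Real.sqrt M * Real.sqrt (∫ y, wy y ^ 2)) :=
    (h.sq_le y).trans (by gcongr)
  have := mul_le_mul_of_nonneg_right h1 (sq_nonneg (w y))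
  dsimp only
  linarith [show w y ^ 4 = w y ^ 2 * w y ^ 2 by ring]

theorem nagyG (hI : NagyIStmt) : NagyGStmt := by
  intro M d hd
  have h0 : Real.sqrt (1 / 3) * d < Real.pi / 2 := by
    have e : Real.sqrt (1 / 3) * Real.sqrt 3 = 1 := by
      rw [← Real.sqrt_mul (by norm_num)]
      norm_num
    have := mul_lt_mul_of_pos_left (hd.trans_eq integral_Q_sq)
      (Real.sqrt_pos.2 (by norm_num : (0 : ℝ) < 1 / 3))
    rwa [← mul_div_assoc, ← mul_assoc, e, one_mul] at this
  have h1 : ∀ᶠ q in 𝓝 (1 / 3 : ℝ), Real.sqrt q * d < Real.pi / 2 :=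
    (by fun_prop : Continuous fun q => Real.sqrt q * d).continuousAt.eventually_lt
      continuousAt_const h0
  obtain ⟨q, hq1, hq2⟩ := ((h1.filter_mono nhdsWithin_le_nhds).and
    (self_mem_nhdsWithin (s := Ioi (1 / 3 : ℝ)))).exists
  have hq : 1 / 3 < q := hq2
  obtain ⟨C, hC, H⟩ := hI q d (by linarith) hq1
  obtain ⟨c, hc, hc1, hc2⟩ : ∃ c : ℝ, 0 < c ∧ 0 < 1 - 2 * c ∧ 1 + c = 3 * q * (1 - 2 * c) := by
    have h6 : 0 < 1 + 6 * q := by linarith
    have e : 1 - 2 * ((3 * q - 1) / (1 + 6 * q)) = 3 / (1 + 6 * q) := by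
      field_simp
      ring
    refine ⟨(3 * q - 1) / (1 + 6 * q), div_pos (by linarith) h6, e ▸ by positivity, ?_⟩
    rw [e]
    field_simp
    ring
  refine ⟨c, (4 * C * Real.sqrt M * M) ^ 2 / (4 * c), hc, fun l w wy hl h hM hL => ?_⟩
  have i2 : Integrable fun y => wy y ^ 2 := h.2.1.integrable_sq
  have i4 : Integrable fun y => w y ^ 4 := h.integrable_pow 2
  have i6 : Integrable fun y => w y ^ 6 := h.integrable_pow 4
  obtain ⟨a1, a2⟩ := avg_NagyG (i2.sub (i6.const_mul q)) hl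
  have a3 := integral_mono ((i4.add (i4.comp_add_right l)).const_mul C).neg a1 fun x =>
    H x (x + l) w wy (by linarith) h.isPrim i2.intervalIntegrable (hL x)
  simp only [Pi.sub_apply, Pi.neg_apply, Pi.add_apply] at a2 a3
  rw [a2, integral_neg, integral_const_mul, integral_add i4 (i4.comp_add_right l),
    integral_add_right_eq_self (fun y => w y ^ 4), integral_sub i2 (i6.const_mul q),
    integral_const_mul] at a3
  have a4 := mul_le_mul_of_nonneg_left (four_NagyG h hM) hC
  have hM0 : 0 ≤ M := (integral_nonneg fun y => sq_nonneg _).trans hM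
  have hA := Real.sq_sqrt (integral_nonneg (μ := volume) fun y => sq_nonneg (wy y))
  rw [integral_sub i2 ((i6.const_mul (1 + c)).div_const 3), integral_div, integral_const_mul, hc2]
  have hs := Real.sqrt_nonneg (∫ y, wy y ^ 2)
  generalize Real.sqrt (∫ y, wy y ^ 2) = s at *
  generalize (∫ y, wy y ^ 2) = A at *
  generalize (∫ y, w y ^ 6) = B at *
  obtain ⟨K, hK, hK0⟩ : ∃ K, 4 * C * Real.sqrt M * M / l = K ∧ 0 ≤ K := ⟨_, rfl, by positivity⟩
  have e1 : (4 * C * Real.sqrt M * M) ^ 2 / (4 * c) / l ^ 2 = K ^ 2 / (4 * c) := by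
    rw [← hK]
    ring
  have b1 : -(K * s) ≤ A - q * B := by
    refine le_of_mul_le_mul_left ?_ hl
    have : l * -(K * s) = -(2 * (C * (2 * (Real.sqrt M * s) * M))) := by
      rw [← hK]
      field_simp
      ring
    linarith
  have b2 : K * s ≤ c * A + K ^ 2 / (4 * c) := by
    have : c * s ^ 2 + K ^ 2 / (4 * c) - K * s = (2 * c * s - K) ^ 2 / (4 * c) := by
      field_simp
      ring
    have h3 : 0 ≤ (2 * c * s - K) ^ 2 / (4 * c) := by positivity
    rw [← hA]
    linarith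
  have b3 := mul_le_mul_of_nonneg_left b1 hc1.le
  have b4 : 0 ≤ c * (K * s) := by positivity
  rw [e1]
  nlinarith

end Pool.Agent.MP_8339a4_an
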