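import Pool.Agent.MP_8339a4_an.Api

/-! The sharp Gagliardo-Nirenberg inequality on an interval. -/

open MeasureTheory Filter Topology Set

namespace Pool.Agent.MP_8339a4_an

theorem one_NagyI : ∫ x in (0 : ℝ)..1, √(1 - x ^ 2) = Real.pi / 4 := by
  have hc : Continuous fun x : ℝ => √(1 - x ^ 2) := by fun_prop
  have h1 := intervalIntegral.integral_add_adjacent_intervals
    (hc.intervalIntegrable (μ := volume) (-1) 0) (hc.intervalIntegrable 0 1)
  have h2 := intervalIntegral.integral_comp_neg (a := 0) (b := 1) fun x : ℝ => √(1 - x ^ 2)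
  simp only [neg_zero, neg_sq] at h2
  rw [integral_sqrt_one_sub_sq, ← h2] at h1
  linarith

theorem top_NagyI {N : ℝ} (hN : 0 ≤ N) :
    ∫ x in (0 : ℝ)..N, √(N ^ 2 - x ^ 2) = Real.pi / 4 * N ^ 2 := by
  have h := intervalIntegral.mul_integral_comp_mul_left (a := 0) (b := 1) (c := N)
    (f := fun x : ℝ => √(N ^ 2 - x ^ 2))
  have e : ∀ x : ℝ, √(N ^ 2 - (N * x) ^ 2) = N * √(1 - x ^ 2) := fun x => by
    rw [show N ^ 2 - (N * x) ^ 2 = N ^ 2 * (1 - x ^ 2) by ring, Real.sqrt_mul (sq_nonneg _),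
      Real.sqrt_sq hN]
  simp only [e, mul_zero, mul_one, intervalIntegral.integral_const_mul, one_NagyI] at h
  rw [← h]
  ring

theorem le_NagyI {N p : ℝ} (hN : 0 ≤ N) (hp : 0 ≤ p) :
    ∫ x in (0 : ℝ)..p, √(N ^ 2 - x ^ 2) ≤ N * p := by
  have hc : Continuous fun x : ℝ => √(N ^ 2 - x ^ 2) := by fun_prop
  have := intervalIntegral.integral_mono_on hp (hc.intervalIntegrable (μ := volume) 0 p)
    (intervalIntegrable_const (c := N)) fun x _ =>
      Real.sqrt_le_iff.2 ⟨hN, sub_le_self _ (sq_nonneg x)⟩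
  simpa [mul_comm] using this

theorem nagyI : NagyIStmt := by
  intro q m0 hq hm
  have hs : 0 < √q := Real.sqrt_pos.2 hq
  have hθ : 0 < Real.pi / 2 - √q * m0 := sub_pos.2 hm
  refine ⟨√q / (2 * (Real.pi / 2 - √q * m0)), by positivity, fun a b w wy hab hw i2 hm0 => ?_⟩
  have hc := hw.continuous
  obtain ⟨x, hx, hmax⟩ := isCompact_Icc.exists_isMaxOn (nonempty_Icc.2 hab)
    (hc.pow 2).continuousOn
  obtain ⟨N, hN⟩ : ∃ N, N = w x ^ 2 := ⟨_, rfl⟩
  have hN0 : 0 ≤ N := hN ▸ sq_nonneg _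
  have hR : Continuous fun r : ℝ => √(N ^ 2 - r ^ 2) := by fun_prop
  have hP := (hw.pow 1).comp (fun r => (hR.integral_hasStrictDerivAt 0 r).hasDerivAt) hR
  simp only [Nat.cast_one, pow_one, one_add_one_eq_two] at hP
  have i6 : ∀ u v, IntervalIntegrable (fun y => q * w y ^ 6) volume u v := fun u v =>
    Continuous.intervalIntegrable (by fun_prop) u v
  have i0 : ∀ u v, IntervalIntegrable (fun y => q * N ^ 2 * w y ^ 2) volume u v := fun u v =>
    Continuous.intervalIntegrable (by fun_prop) u v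
  have ih : IntervalIntegrable (fun y => wy y ^ 2 - q * w y ^ 6 + q * N ^ 2 * w y ^ 2)
      volume a b := (i2.sub (i6 a b)).add (i0 a b)
  have iax := ih.mono_set (c := a) (d := x) (by
    rw [uIcc_of_le hab, uIcc_of_le hx.1]; exact Icc_subset_Icc_right hx.2)
  have ixb := ih.mono_set (c := x) (d := b) (by
    rw [uIcc_of_le hab, uIcc_of_le hx.2]; exact Icc_subset_Icc_left hx.1)
  have pt : ∀ ε : ℝ, ε ^ 2 = 1 → ∀ y ∈ Icc a b,
      ε * √q * (√(N ^ 2 - (w y ^ 2) ^ 2) * (2 * w y * wy y)) ≤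
        wy y ^ 2 - q * w y ^ 6 + q * N ^ 2 * w y ^ 2 := by
    intro ε hε y hy
    have h1 : w y ^ 2 ≤ N := hN ▸ hmax hy
    have h2 : √(N ^ 2 - (w y ^ 2) ^ 2) ^ 2 = N ^ 2 - (w y ^ 2) ^ 2 :=
      Real.sq_sqrt (sub_nonneg.2 (pow_le_pow_left₀ (sq_nonneg _) h1 2))
    have h3 : √q ^ 2 = q := Real.sq_sqrt hq.le
    have h4 := sq_nonneg (wy y - ε * √q * w y * √(N ^ 2 - (w y ^ 2) ^ 2))
    have h5 : (ε * √q * w y * √(N ^ 2 - (w y ^ 2) ^ 2)) ^ 2 =
        q * w y ^ 2 * (N ^ 2 - (w y ^ 2) ^ 2) := by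
      rw [mul_pow, mul_pow, mul_pow, hε, h2, h3, one_mul]
    rw [sub_sq, h5] at h4
    linarith
  have e1 := intervalIntegral.integral_mono_on hx.1 ((hP.1 a x).const_mul (1 * √q)) iax
    fun y hy => pt 1 (by norm_num) y ⟨hy.1, hy.2.trans hx.2⟩
  have e2 := intervalIntegral.integral_mono_on hx.2 ((hP.1 x b).const_mul (-1 * √q)) ixb
    fun y hy => pt (-1) (by norm_num) y ⟨hx.1.trans hy.1, hy.2⟩
  rw [intervalIntegral.integral_const_mul, ← hP.2] at e1 e2
  simp only [← hN, top_NagyI hN0] at e1 e2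
  have e3 := intervalIntegral.integral_add_adjacent_intervals iax ixb
  rw [intervalIntegral.integral_add (i2.sub (i6 a b)) (i0 a b),
    intervalIntegral.integral_const_mul] at e3
  have e4 := mul_le_mul_of_nonneg_left (le_NagyI hN0 (sq_nonneg (w a))) hs.le
  have e5 := mul_le_mul_of_nonneg_left (le_NagyI hN0 (sq_nonneg (w b))) hs.le
  have e6 := mul_le_mul_of_nonneg_left hm0 (by positivity : 0 ≤ q * N ^ 2)
  have h3 : √q * √q = q := Real.mul_self_sqrt hq.le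
  obtain ⟨θ, hθ'⟩ : ∃ θ, θ = Real.pi / 2 - √q * m0 := ⟨_, rfl⟩
  rw [← hθ'] at hθ ⊢
  have e7 : -((w a ^ 4 + w b ^ 4) / (2 * θ)) ≤ θ * N ^ 2 - N * (w a ^ 2 + w b ^ 2) := by
    rw [neg_le, le_div_iff₀ (by positivity)]
    nlinarith [sq_nonneg (θ * N - w a ^ 2), sq_nonneg (θ * N - w b ^ 2)]
  have e8 := mul_le_mul_of_nonneg_left e7 hs.le
  have e9 : √q * (θ * N ^ 2) = √q * (Real.pi / 2) * N ^ 2 - q * N ^ 2 * m0 := by
    rw [hθ']
    linear_combination (-m0 * N ^ 2) * h3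
  have e10 : √q / (2 * θ) * (w a ^ 4 + w b ^ 4) = √q * ((w a ^ 4 + w b ^ 4) / (2 * θ)) := by
    ring
  linarith

end Pool.Agent.MP_8339a4_an
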