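import Pool.Agent.MP_8339a4_an.Api

/-! The weighted Nagy inequality. -/

open MeasureTheory Filter Topology Set

namespace Pool.Agent.MP_8339a4_an

theorem tail_NagyW {f : ℝ → ℝ} (hf : Integrable f) :
    ∃ G : ℝ → ℝ, IsPrim G (fun y => -f y) ∧ Bdd G ∧ Tendsto G atTop (𝓝 0) := by
  have hP : IsPrim (fun x => ∫ y in Ioi x, f y) (fun y => -f y) := by
    refine ⟨fun a b => hf.neg.intervalIntegrable, fun a b => ?_⟩
    have h := intervalIntegral.integral_Ioi_sub_Ioi' (μ := volume) (a := a) (b := b)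
      hf.integrableOn hf.integrableOn
    rw [intervalIntegral.integral_neg, ← h]
    ring
  refine ⟨fun x => ∫ y in Ioi x, f y, hP, ⟨hP.continuous, ∫ y, |f y|, fun x => ?_⟩,
    tendsto_integral_Ioi_zero tendsto_id⟩
  calc |∫ y in Ioi x, f y| ≤ ∫ y in Ioi x, |f y| := abs_integral_le_integral_abs
    _ ≤ ∫ y, |f y| := setIntegral_le_integral hf.abs (Eventually.of_forall fun y => abs_nonneg _)

theorem anti_NagyW {F g : ℝ → ℝ} (h : IsPrim F g) {a b : ℝ} (hab : a ≤ b)
    (hg : ∀ y ∈ Icc a b, g y ≤ 0) : F b ≤ F a := by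
  have h1 := h.2 a b
  have h2 : 0 ≤ ∫ y in a..b, -g y :=
    intervalIntegral.integral_nonneg hab fun y hy => neg_nonneg.2 (hg y hy)
  rw [intervalIntegral.integral_neg] at h2
  linarith

theorem nonneg_NagyW {F g : ℝ → ℝ} (h : IsPrim F g) (hg : ∀ y, g y ≤ 0)
    (h0 : Tendsto F atTop (𝓝 0)) (x : ℝ) : 0 ≤ F x :=
  le_of_tendsto h0 ((eventually_ge_atTop x).mono fun _ hN => anti_NagyW h hN fun y _ => hg y)

theorem shift_NagyW {F g : ℝ → ℝ} (h : IsPrim F g) (l : ℝ) :
    IsPrim (fun y => F (y + l)) (fun y => g (y + l)) :=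
  (h.comp_affine 1 l).congr (fun y => by rw [one_mul]) (fun y => by rw [one_mul, one_mul])

theorem window_NagyW {G : ℝ → ℝ} (h0 : Tendsto G atTop (𝓝 0)) {l : ℝ} (hl : 0 < l) :
    Tendsto (fun x => ∫ y in x..(x + l), G y) atTop (𝓝 0) := by
  rw [Metric.tendsto_atTop] at h0 ⊢
  intro ε hε
  obtain ⟨N, hN⟩ := h0 (ε / (2 * l)) (by positivity)
  refine ⟨N, fun x hx => ?_⟩
  have h1 : ‖∫ y in x..(x + l), G y‖ ≤ ε / (2 * l) * |x + l - x| := by
    apply intervalIntegral.norm_integral_le_of_norm_le_const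
    intro y hy
    rw [uIoc_of_le (by linarith)] at hy
    have := hN y (by linarith [hy.1])
    rw [dist_zero_right] at this
    exact this.le
  rw [dist_zero_right]
  have e : ε / (2 * l) * |x + l - x| = ε / 2 := by
    rw [add_sub_cancel_left, abs_of_pos hl]
    field_simp
  linarith

theorem half_NagyW {f g G H : ℝ → ℝ} {C l : ℝ} (hl : 0 < l) (hC : 0 ≤ C)
    (hG : IsPrim G (fun y => -f y)) (hH : IsPrim H (fun y => -g y)) (hg : ∀ y, 0 ≤ g y)
    (G0 : Tendsto G atTop (𝓝 0)) (H0 : Tendsto H atTop (𝓝 0))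
    (hI : ∀ a b, a ≤ b → b ≤ a + l → -(C * (g a + g b)) ≤ ∫ y in a..b, f y) (p : ℝ) :
    -(C * g p) - 3 * C / l * H p ≤ G p := by
  have cG := hG.continuous
  have hΓ : IsPrim (fun x => ∫ y in (0 : ℝ)..x, G y) G :=
    IsPrim.of_hasDerivAt (fun x => (cG.integral_hasStrictDerivAt 0 x).hasDerivAt) cG
  set Γ : ℝ → ℝ := fun x => ∫ y in (0 : ℝ)..x, G y with hΓd
  have hGf : ∀ a b, G a - G b = ∫ y in a..b, f y := by
    intro a b
    have h := hG.2 a b
    rw [intervalIntegral.integral_neg] at h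
    linarith
  have hn : ∀ y, -g y ≤ 0 := fun y => neg_nonpos.2 (hg y)
  have H1 := nonneg_NagyW hH hn H0 (p + l)
  have H2 : H (p + l) ≤ H p := anti_NagyW hH (by linarith) fun y _ => hn y
  have hΘ := ((shift_NagyW hΓ l).sub hΓ).add ((hH.add (shift_NagyW hH l)).const_mul C)
  have Θ0 : Tendsto (fun y => Γ (y + l) - Γ y + C * (H y + H (y + l))) atTop (𝓝 0) := by
    have t1 : Tendsto (fun y => Γ (y + l) - Γ y) atTop (𝓝 0) :=
      (window_NagyW G0 hl).congr fun x => (hΓ.2 x (x + l)).symm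
    have t2 : Tendsto (fun y => H (y + l)) atTop (𝓝 0) :=
      H0.comp (tendsto_atTop_add_const_right _ l tendsto_id)
    have t3 := t1.add ((H0.add t2).const_mul C)
    simpa using t3
  have A1 := nonneg_NagyW hΘ (fun y => by
    have h1 := hI y (y + l) (by linarith) le_rfl
    have h2 := hGf y (y + l)
    linarith) Θ0 p
  have hid : IsPrim (fun t : ℝ => t) (fun _ => 1) :=
    IsPrim.of_hasDerivAt (fun y => hasDerivAt_id y) continuous_const
  have hΞ := (hΓ.sub (hid.const_mul (G p + C * g p))).add (hH.const_mul C)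
  have A2 := anti_NagyW hΞ (show p ≤ p + l by linarith) (fun y hy => by
    have h1 := hI p y hy.1 hy.2
    have h2 := hGf p y
    linarith)
  have H3 := mul_le_mul_of_nonneg_left H2 hC
  have H4 := mul_nonneg hC H1
  have A3 : -(3 * C * H p) ≤ l * (G p + C * g p) := by
    linarith
  have A4 : -(3 * C * H p) / l ≤ G p + C * g p := by
    rw [div_le_iff₀ hl]
    linarith
  have e : -(3 * C * H p) / l = -(3 * C / l * H p) := by ring
  linarith

theorem ibp_NagyW {φ φ1 f G : ℝ → ℝ} (hd : ∀ y, HasDerivAt φ (φ1 y) y) (he : ExpD φ1)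
    (hb : Bdd φ) (h0 : Tendsto φ atBot (𝓝 0)) (hf : Integrable f)
    (hG : IsPrim G (fun y => -f y)) (bG : Bdd G) (G0 : Tendsto G atTop (𝓝 0)) :
    ∫ y, φ y * f y = ∫ y, φ1 y * G y := by
  have hφ : IsPrim φ φ1 := IsPrim.of_hasDerivAt hd he.1
  have i1 : Integrable (fun y => φ1 y * G y) := integrable_mul_bdd he.integrable bG
  have i2 : Integrable (fun y => φ y * -f y) := integrable_bdd_mul hf.neg hb
  obtain ⟨C1, hC1⟩ := hb.2
  obtain ⟨C2, hC2⟩ := bG.2
  have t1 : Tendsto (fun y => φ y * G y) atBot (𝓝 0) := by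
    have t : Tendsto (fun y => |φ y| * C2) atBot (𝓝 0) := by
      simpa using h0.abs.mul_const C2
    refine squeeze_zero_norm (fun y => ?_) t
    rw [Real.norm_eq_abs, abs_mul]
    exact mul_le_mul_of_nonneg_left (hC2 y) (abs_nonneg _)
  have t2 : Tendsto (fun y => φ y * G y) atTop (𝓝 0) := by
    have t : Tendsto (fun y => C1 * |G y|) atTop (𝓝 0) := by
      simpa using G0.abs.const_mul C1
    refine squeeze_zero_norm (fun y => ?_) t
    rw [Real.norm_eq_abs, abs_mul]
    exact mul_le_mul_of_nonneg_right (hC1 y) (abs_nonneg _)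
  have h := (hφ.mul hG).integral_of_tendsto (i1.add i2) t1 t2
  rw [integral_add i1 i2] at h
  have e : ∫ y, φ y * -f y = -∫ y, φ y * f y := by
    rw [← integral_neg]
    congr 1
    funext y
    ring
  linarith

theorem choose_NagyW {d : ℝ} (hd : d < ∫ y, Q y ^ 2) :
    ∃ c : ℝ, 0 < c ∧ c < 1 ∧ Real.sqrt ((1 / 3 + 2 * c) / (1 - c)) * d < Real.pi / 2 := by
  rw [integral_Q_sq] at hd
  have hc : ContinuousAt (fun c : ℝ => Real.sqrt ((1 / 3 + 2 * c) / (1 - c)) * d) 0 := by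
    fun_prop (disch := norm_num)
  have h3 : Real.sqrt (1 / 3) * Real.sqrt 3 = 1 := by
    rw [← Real.sqrt_mul (by norm_num)]
    norm_num
  have hp : 0 < Real.sqrt (1 / 3) := Real.sqrt_pos.2 (by norm_num)
  have h0 : Real.sqrt ((1 / 3 + 2 * 0) / (1 - 0)) * d < Real.pi / 2 := by
    have e : ((1 / 3 + 2 * 0) / (1 - 0) : ℝ) = 1 / 3 := by norm_num
    rw [e]
    have := mul_lt_mul_of_pos_left hd hp
    have e2 : Real.sqrt (1 / 3) * (Real.sqrt 3 * Real.pi / 2) = Real.pi / 2 := by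
      linear_combination (Real.pi / 2) * h3
    linarith
  have ev := (hc.eventually (gt_mem_nhds h0)).filter_mono (nhdsWithin_le_nhds (s := Ioi 0))
  have ev1 : ∀ᶠ c : ℝ in 𝓝[>] 0, c < 1 :=
    (gt_mem_nhds (show (0 : ℝ) < 1 by norm_num) : Iio (1 : ℝ) ∈ 𝓝 0).filter_mono
      nhdsWithin_le_nhds
  obtain ⟨c, h1, h2, h3⟩ := (ev.and (ev1.and self_mem_nhdsWithin)).exists
  exact ⟨c, h3, h2, h1⟩

theorem nagyW (hI : NagyIStmt) : NagyWStmt := by
  intro M d hd
  obtain ⟨c, hc, hc1, hq⟩ := choose_NagyW hd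
  have hc2 : 0 < 1 - c := by linarith
  set q : ℝ := (1 / 3 + 2 * c) / (1 - c) with hqd
  have hq0 : 0 < q := by positivity
  have hqe : (1 - c) * q = 1 / 3 + 2 * c := by
    rw [hqd]
    field_simp
  obtain ⟨C, hC, hN⟩ := hI q d hq0 hq
  refine ⟨c, C + 9 * C ^ 2 / (4 * c) * |M|, hc, by positivity, ?_⟩
  intro l w wy φ φ1 hl hw hM hloc hd1 he h1 hφ1 hφ0
  have hφP : IsPrim φ φ1 := IsPrim.of_hasDerivAt hd1 he.1
  have hφn : ∀ y, 0 ≤ φ y := by
    intro y
    have h := hφP.integral_Iic_of_tendsto (p := y) he.integrable.integrableOn hφ0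
    have h' : 0 ≤ ∫ x in Iic y, φ1 x := integral_nonneg fun x => h1 x
    linarith
  have bφ : Bdd φ := ⟨hφP.continuous, 1, fun y => by
    rw [abs_of_nonneg (hφn y)]; exact hφ1 y⟩
  have i2 : Integrable (fun y => w y ^ 2) := hw.integrable_pow 0
  have i4 : Integrable (fun y => w y ^ 4) := hw.integrable_pow 2
  have i6 : Integrable (fun y => w y ^ 6) := hw.integrable_pow 4
  have iy : Integrable (fun y => wy y ^ 2) := integrable_sq2 hw.2.1
  have iF : Integrable (fun y => wy y ^ 2 - q * w y ^ 6) := iy.sub (i6.const_mul q)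
  obtain ⟨G, hG, bG, G0⟩ := tail_NagyW iF
  obtain ⟨H, hH, bH, H0⟩ := tail_NagyW i4
  have key := half_NagyW hl hC hG hH (fun y => by positivity) G0 H0 (fun a b hab hb => by
    refine hN a b w wy hab hw.isPrim iy.intervalIntegrable (le_trans ?_ (hloc a))
    exact intervalIntegral.integral_mono_interval le_rfl hab hb
      (Eventually.of_forall fun y => by positivity) i2.intervalIntegrable)
  have eG := ibp_NagyW hd1 he bφ hφ0 iF hG bG G0
  have eH := ibp_NagyW hd1 he bφ hφ0 i4 hH bH H0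
  have jG : Integrable (fun y => φ1 y * G y) := integrable_mul_bdd he.integrable bG
  have jH : Integrable (fun y => φ1 y * H y) := integrable_mul_bdd he.integrable bH
  have j4 : Integrable (fun y => φ1 y * w y ^ 4) := integrable_bdd_mul i4 he.bdd
  have k2 : Integrable (fun y => φ y * w y ^ 2) := integrable_bdd_mul i2 bφ
  have k4 : Integrable (fun y => φ y * w y ^ 4) := integrable_bdd_mul i4 bφ
  have k6 : Integrable (fun y => φ y * w y ^ 6) := integrable_bdd_mul i6 bφ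
  have ky : Integrable (fun y => φ y * wy y ^ 2) := integrable_bdd_mul iy bφ
  have B1 : -(C * ∫ y, φ1 y * w y ^ 4) - 3 * C / l * ∫ y, φ1 y * H y ≤ ∫ y, φ1 y * G y := by
    have jA : Integrable (fun y => -(C * (φ1 y * w y ^ 4))) := (j4.const_mul C).neg
    have jB : Integrable (fun y => 3 * C / l * (φ1 y * H y)) := jH.const_mul _
    have m := integral_mono (jA.sub jB) jG (fun y => by
      have := mul_le_mul_of_nonneg_left (key y) (h1 y)
      simp only [Pi.sub_apply]
      linarith)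
    have e := integral_sub jA jB
    rw [integral_neg, integral_const_mul, integral_const_mul] at e
    have e' : ∫ y, ((fun y => -(C * (φ1 y * w y ^ 4))) - fun y => 3 * C / l * (φ1 y * H y)) y
        = ∫ y, (-(C * (φ1 y * w y ^ 4)) - 3 * C / l * (φ1 y * H y)) := rfl
    linarith
  have E1 : ∫ y, φ y * (wy y ^ 2 - q * w y ^ 6)
      = (∫ y, φ y * wy y ^ 2) - q * ∫ y, φ y * w y ^ 6 := by
    rw [← integral_const_mul, ← integral_sub ky (k6.const_mul q)]
    congr 1
    funext y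
    ring
  have E2 : ∫ y, φ y * (wy y ^ 2 + w y ^ 6) = (∫ y, φ y * wy y ^ 2) + ∫ y, φ y * w y ^ 6 := by
    rw [← integral_add ky k6]
    congr 1
    funext y
    ring
  have E3 : ∫ y, φ y * en (w y) (wy y)
      = (∫ y, φ y * wy y ^ 2) - 1 / 3 * ∫ y, φ y * w y ^ 6 := by
    rw [← integral_const_mul, ← integral_sub ky (k6.const_mul _)]
    congr 1
    funext y
    unfold en
    ring
  have B2 : 3 * C / l * ∫ y, φ y * w y ^ 4
      ≤ c * (∫ y, φ y * w y ^ 6) + 9 * C ^ 2 / (4 * c) / l ^ 2 * ∫ y, φ y * w y ^ 2 := by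
    rw [← integral_const_mul, ← integral_const_mul, ← integral_const_mul,
      ← integral_add (k6.const_mul _) (k2.const_mul _)]
    refine integral_mono (k4.const_mul _) ((k6.const_mul _).add (k2.const_mul _)) fun y => ?_
    have s : 0 ≤ φ y * (c * (w y * (w y ^ 2 - 3 * C / (2 * c * l))) ^ 2) :=
      mul_nonneg (hφn y) (by positivity)
    have e : φ y * (c * (w y * (w y ^ 2 - 3 * C / (2 * c * l))) ^ 2)
        = c * (φ y * w y ^ 6) + 9 * C ^ 2 / (4 * c) / l ^ 2 * (φ y * w y ^ 2)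
          - 3 * C / l * (φ y * w y ^ 4) := by
      field_simp
      ring
    simp only
    linarith
  have B3 : ∫ y, φ y * w y ^ 2 ≤ |M| := by
    refine le_trans (integral_mono k2 i2 fun y => ?_) (hM.trans (le_abs_self M))
    have := mul_le_mul_of_nonneg_right (hφ1 y) (sq_nonneg (w y))
    simp only
    linarith
  have P4 : 0 ≤ ∫ y, φ1 y * w y ^ 4 := integral_nonneg fun y => mul_nonneg (h1 y) (by positivity)
  have P5 : 0 ≤ ∫ y, φ y * w y ^ 4 := integral_nonneg fun y => mul_nonneg (hφn y) (by positivity)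
  rw [← eG, ← eH, E1] at B1
  rw [E2, E3]
  set X := ∫ y, φ y * wy y ^ 2
  set Y := ∫ y, φ y * w y ^ 6
  set Z := ∫ y, φ1 y * w y ^ 4
  set U := ∫ y, φ y * w y ^ 4
  set T := ∫ y, φ y * w y ^ 2
  have S1 := mul_le_mul_of_nonneg_left B1 hc2.le
  have S2 : 0 ≤ c * (C * Z) := by positivity
  have S3 : 0 ≤ c * (3 * C / l * U) := by positivity
  have S4 : 9 * C ^ 2 / (4 * c) / l ^ 2 * T ≤ 9 * C ^ 2 / (4 * c) / l ^ 2 * |M| :=
    mul_le_mul_of_nonneg_left B3 (by positivity)
  have S5 : 0 ≤ 9 * C ^ 2 / (4 * c) * |M| * Z := by positivity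
  have S6 : 0 ≤ C / l ^ 2 := by positivity
  have S7 : (1 - c) * (X - q * Y) = (1 - c) * X - (1 / 3 + 2 * c) * Y := by
    linear_combination (-Y) * hqe
  have S8 : (C + 9 * C ^ 2 / (4 * c) * |M|) / l ^ 2
      = C / l ^ 2 + 9 * C ^ 2 / (4 * c) / l ^ 2 * |M| := by ring
  rw [S8]
  linarith

end Pool.Agent.MP_8339a4_an
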