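import Pool.Agent.MP_8339a4_an.Api

/-! Control of the modulation parameters. -/

open MeasureTheory Filter Topology Set

namespace Pool.Agent.MP_8339a4_an

theorem lin_ParJ {e g : ℝ → ℝ} (he : MemLp e 2 volume) (hg : Continuous g) {C : ℝ} (hC : 0 ≤ C)
    (h : ∀ y, |g y| ≤ C * ((1 + |y|) * Q y)) : |∫ y, e y * g y| ≤ 7 * C * Real.sqrt (N0 e) := by
  have h1 := sq_integral_le_N0 he hg (C := C) fun y => (h y).trans (by
    have h2 : 1 ≤ Real.exp (|y| / 20) := Real.one_le_exp (by positivity)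
    have h3 : 0 ≤ (1 + |y|) * Q y := mul_nonneg (by positivity) (Q_pos y).le
    refine mul_le_mul_of_nonneg_left ?_ hC
    rw [mul_assoc]
    exact le_mul_of_one_le_left h3 h2)
  refine abs_le_of_sq_le_sq (h1.trans ?_) (by positivity)
  rw [mul_pow, Real.sq_sqrt (N0_nonneg e)]
  exact mul_le_mul_of_nonneg_right (by nlinarith [sq_nonneg C]) (N0_nonneg e)

theorem gen_ParJ {θ θ1 θ2 θ3 : ℝ → ℝ} (hT : Test θ θ1 θ2 θ3) (h0 : ∀ y, |θ y| ≤ 140 * Q y)
    (h1 : ∀ y, |θ1 y| ≤ 140 * Q y) (h3 : ∀ y, |θ3 y| ≤ 140 * Q y) {e ey : ℝ → ℝ}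
    (he : IsH1 e ey) (hb : ∀ y, |e y| ≤ 1) (hN : N0 e ≤ 1) {β γ : ℝ}
    (h : rhs0 β γ e θ θ1 θ3 = 0) :
    |β * (∫ y, LQ y * θ y) - γ * ∫ y, Q1 y * θ y| ≤
      30000 * Real.sqrt (N0 e) * (1 + |β| + |γ|) := by
  have hc := he.continuous
  have g1 : ExpD fun y => θ3 y - θ1 y + V y * θ1 y :=
    (hT.e3.sub hT.e1).add (hT.e1.bdd_mul expD_V.bdd)
  have g2 : ExpD fun y => θ y / 2 + y * θ1 y := (hT.e0.div_const 2).add hT.e1.id_mul
  have bN : Bdd fun y => NN y (e y) := ⟨by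
    have := expD_Q.1
    unfold NN
    fun_prop, 50, fun y => (abs_NN_le y (hb y)).trans (by
      have := sq_le_one_iff_abs_le_one (e y) |>.2 (hb y)
      linarith)⟩
  have i1 := (g1.bdd_mul he.bdd).integrable
  have i2 := (hT.e1.bdd_mul bN).integrable
  have i3 := ((hT.e0.bdd_mul expD_LQ.bdd).integrable).const_mul β
  have i4 := ((hT.e0.bdd_mul expD_Q1.bdd).integrable).const_mul γ
  have i5 := ((g2.bdd_mul he.bdd).integrable).const_mul β
  have i6 := ((hT.e1.bdd_mul he.bdd).integrable).const_mul γ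
  have j2 := i1.add i2
  have j3 := j2.sub i3
  have j4 := j3.add i4
  have j5 := j4.add i5
  unfold rhs0 at h
  erw [integral_sub j5 i6, integral_add j4 i5, integral_add j3 i4, integral_sub j2 i3,
    integral_add i1 i2] at h
  simp only [integral_const_mul] at h
  have a1 := lin_ParJ he.1 g1.1 (C := 2380) (by norm_num) fun y => by
    have q := Q_pos y
    have v : |V y * θ1 y| ≤ 15 * (140 * Q y) := by
      rw [abs_mul, abs_of_nonneg (V_nonneg y)]
      exact mul_le_mul (V_le y) (h1 y) (abs_nonneg _) (by norm_num)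
    have w := (abs_add_le (θ3 y - θ1 y) (V y * θ1 y)).trans
      (add_le_add (abs_sub (θ3 y) (θ1 y)) le_rfl)
    have := mul_nonneg (abs_nonneg y) q.le
    nlinarith [h1 y, h3 y]
  have a5 := lin_ParJ he.1 g2.1 (C := 140) (by norm_num) fun y => by
    have q := Q_pos y
    have w := abs_add_le (θ y / 2) (y * θ1 y)
    rw [abs_div, abs_mul, abs_two] at w
    have := mul_le_mul_of_nonneg_left (h1 y) (abs_nonneg y)
    nlinarith [h0 y]
  have a6 := lin_ParJ he.1 hT.e1.1 (C := 140) (by norm_num) fun y => by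
    have := mul_nonneg (abs_nonneg y) (Q_pos y).le
    nlinarith [h1 y]
  have a2 : |∫ y, NN y (e y) * θ1 y| ≤ 7000 * N0 e := by
    rw [N0, ← integral_const_mul]
    refine (abs_integral_le_integral_abs).trans (integral_mono i2.abs
      (((expD_Q.mul_bdd (he.bdd.pow 2)).integrable).const_mul _) fun y => ?_)
    simp only [abs_mul]
    exact (mul_le_mul (abs_NN_le y (hb y)) (h1 y) (abs_nonneg _) (by positivity)).trans_eq
      (by ring)
  have n0 := Real.sqrt_nonneg (N0 e)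
  have n1 : N0 e ≤ Real.sqrt (N0 e) := by
    have := Real.sq_sqrt (N0_nonneg e)
    have h5 : Real.sqrt (N0 e) ≤ 1 := Real.sqrt_le_one.2 hN
    nlinarith
  have e1 : β * (∫ y, LQ y * θ y) - γ * ∫ y, Q1 y * θ y =
      (∫ y, e y * (θ3 y - θ1 y + V y * θ1 y)) + (∫ y, NN y (e y) * θ1 y) +
        β * (∫ y, e y * (θ y / 2 + y * θ1 y)) - γ * ∫ y, e y * θ1 y := by linarith
  rw [e1]
  have b5 := mul_le_mul_of_nonneg_left a5 (abs_nonneg β)
  have b6 := mul_le_mul_of_nonneg_left a6 (abs_nonneg γ)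
  rw [← abs_mul] at b5 b6
  have c1 := mul_nonneg n0 (abs_nonneg β)
  have c2 := mul_nonneg n0 (abs_nonneg γ)
  obtain ⟨a1, a1'⟩ := abs_le.1 a1
  obtain ⟨a2, a2'⟩ := abs_le.1 a2
  obtain ⟨b5, b5'⟩ := abs_le.1 b5
  obtain ⟨b6, b6'⟩ := abs_le.1 b6
  refine abs_le.2 ⟨?_, ?_⟩ <;> nlinarith

theorem cube_ParJ (y : ℝ) {c : ℝ} (hc : |c| ≤ 78) : |c * Q y ^ 3| ≤ 140 * Q y := by
  have q := Q_pos y
  have h : Q y ^ 2 ≤ (4 / 3) ^ 2 := pow_le_pow_left₀ q.le (Q_le y) 2
  rw [abs_mul, abs_of_pos (pow_pos q 3)]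
  refine (mul_le_mul_of_nonneg_right hc (pow_pos q 3).le).trans ?_
  nlinarith

theorem zero_ParJ {f : ℝ → ℝ} {s w r : ℝ} (h : HasDerivAt f (w * r) s) (hw : w ≠ 0)
    (h0 : ∀ᶠ z in 𝓝 s, f z = 0) : r = 0 := by
  have h1 : HasDerivAt f 0 s := (hasDerivAt_const s (0 : ℝ)).congr_of_eventuallyEq h0
  exact (mul_eq_zero.1 (h.unique h1)).resolve_left hw

theorem parJ : ParStmt := by
  obtain ⟨m, hm, m1, m2⟩ : ∃ m : ℝ, 0 < m ∧ m ≤ (∫ y, Q y ^ 4) / 4 ∧ m ≤ ∫ y, Q1 y ^ 2 :=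
    ⟨_, lt_min (div_pos integral_Q4_pos four_pos) integral_Q1_sq_pos, min_le_left _ _,
      min_le_right _ _⟩
  refine ⟨min 1 ((m / 120000) ^ 2), (120000 / m) ^ 2, lt_min one_pos (by positivity),
    by positivity, fun e ey lam β γ w s F hw hb hN => ?_⟩
  have he : IsH1 (e s) (ey s) := F.h1t.2.1
  have r1 := zero_ParJ (F.d0 _ _ _ _ test_C0) hw (F.orth.mono fun _ h => h.1)
  have r2 := zero_ParJ (F.d0 _ _ _ _ test_Q1) hw (F.orth.mono fun _ h => h.2)
  have hN1 := hN.trans (min_le_left _ _)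
  have k1 := gen_ParJ test_C0
    (fun y => by simpa [C0] using cube_ParJ y (c := 1) (by norm_num))
    (fun y => by
      rw [C1, abs_neg]
      exact cube_ParJ y (by rw [abs_mul]; norm_num; linarith [abs_tn_lt y]))
    (fun y => cube_ParJ y (by
      have v : |7 * V y - 27| ≤ 78 := abs_le.2 ⟨by linarith [V_nonneg y], by linarith [V_le y]⟩
      rw [abs_mul]
      exact (mul_le_mul (abs_tn_lt y).le v (abs_nonneg _) zero_le_one).trans_eq (one_mul _)))
    he hb hN1 r1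
  have k2 := gen_ParJ test_Q1 (fun y => by linarith [abs_Q1_le y, Q_pos y])
    (fun y => by linarith [abs_Q2_le y, Q_pos y]) (fun y => by linarith [abs_Q4_le y, Q_pos y])
    he hb hN1 r2
  rw [integral_LQ_C0, integral_Q1_C0, mul_zero, sub_zero, abs_mul,
    abs_of_pos (hm.trans_le m1)] at k1
  simp only [← sq] at k2
  rw [integral_LQ_Q1, mul_zero, zero_sub, abs_neg, abs_mul, abs_of_pos (hm.trans_le m2)] at k2
  have n0 := Real.sqrt_nonneg (N0 (e s))
  have n1 : Real.sqrt (N0 (e s)) ≤ m / 120000 :=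
    Real.sqrt_le_iff.2 ⟨by positivity, hN.trans (min_le_right _ _)⟩
  have n2 := Real.sq_sqrt (N0_nonneg (e s))
  generalize Real.sqrt (N0 (e s)) = n at *
  have p1 := abs_nonneg (β s)
  have p2 := abs_nonneg (γ s)
  have t1 := mul_le_mul_of_nonneg_left m1 p1
  have t2 := mul_le_mul_of_nonneg_left m2 p2
  have t3 := mul_le_mul_of_nonneg_right n1 (add_nonneg p1 p2)
  have t4 : |β s| + |γ s| ≤ 120000 / m * n := by
    rw [div_mul_eq_mul_div, le_div_iff₀ hm]
    nlinarith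
  have t5 := pow_le_pow_left₀ (add_nonneg p1 p2) t4 2
  rw [mul_pow, n2] at t5
  nlinarith [sq_abs (β s), sq_abs (γ s), mul_nonneg p1 p2]

end Pool.Agent.MP_8339a4_an
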