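import Pool.Agent.MP_8339a4_an.EA

/-! The equation for the mean of `e` at the step. -/

open MeasureTheory Filter Topology Set

namespace Pool.Agent.MP_8339a4_an

variable {r A K β γ k c C0 : ℝ} {e ey : ℝ → ℝ}

/-- The bounded factor in front of `φ' e_y`. -/
noncomputable def b_R1 (r A K γ : ℝ) (e : ℝ → ℝ) (y : ℝ) : ℝ :=
  (1 + γ) - (r / K) ^ 2 * (1 - 6 * P1 ((r * y - A) / K)) - 5 * (Q y + e y) ^ 4

/-- The terms carrying a factor `Q`. -/
noncomputable def t_R1 (r A K β γ : ℝ) (e : ℝ → ℝ) (y : ℝ) : ℝ :=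
  (γ * Q1 y - β * LQ y - 5 * (((Q y + e y) ^ 4 - Q y ^ 4) * Q1 y)) * ph1 r A K y

theorem bdd_b_R1 (he : Bdd e) : Bdd (b_R1 r A K γ e) :=
  ((Bdd.const (1 + γ)).sub (((Bdd.const 1).sub ((expD_P1.bdd.comp
    (g := fun y => (r * y - A) / K) (by fun_prop)).const_mul 6)).const_mul ((r / K) ^ 2))).sub
    (((expD_Q.bdd.add he).pow 4).const_mul 5)

theorem lin_R1 {f : ℝ → ℝ} (h : ExpD f) (k c : ℝ) : ExpD (fun y => f y * (k * y - c)) :=
  ((h.id_mul.const_mul k).sub (h.const_mul c)).congr fun y => by ring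

theorem expD_g_R1 {f : ℝ → ℝ} (h : ExpD f) (he : Bdd e) :
    ExpD (fun y => f y * (b_R1 r A K γ e y - (k * y - c))) :=
  ((h.mul_bdd (bdd_b_R1 (r := r) (A := A) (K := K) (γ := γ) he)).sub (lin_R1 h k c)).congr
    fun y => by ring

theorem ident_R1 (hr : 0 < r) (hK : 0 < K) (he : IsH1 e ey) :
    rhs0 β γ e (ph1 r A K) (ph2 r A K) (ph4 r A K)
      + (∫ y, e y * ((-β + k) * ph1 r A K y + ph2 r A K y * ((-β + k) * y - c)))
      + β * qa r A K e / 2
    = (∫ y, ph1 r A K y * (ey y * (b_R1 r A K γ e y - (k * y - c)))) + ∫ y, t_R1 r A K β γ e y := by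
  have be := he.bdd
  have bQ := expD_Q.bdd
  have e1 := expD_ph1 hr hK A
  have e2 := expD_ph2 hr hK A
  have e3 := expD_ph3 hr hK A
  have e4 := expD_ph4 hr hK A
  have bN : Bdd (fun y => NN y (e y)) :=
    (((bQ.add be).pow 5).sub (bQ.pow 5)).sub (((bQ.pow 4).const_mul 5).mul be)
  have i0 := ((((((((e4.sub e2).add (e2.bdd_mul expD_V.bdd)).bdd_mul be).add
    (e2.bdd_mul bN)).sub ((e1.bdd_mul expD_LQ.bdd).const_mul β)).add
    ((e1.bdd_mul expD_Q1.bdd).const_mul γ)).add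
    ((((e1.div_const 2).add e2.id_mul).bdd_mul be).const_mul β)).sub
    ((e2.bdd_mul be).const_mul γ)).integrable
  have i1 := (((e1.const_mul (-β + k)).add (lin_R1 e2 (-β + k) c)).bdd_mul be).integrable
  have i2 := ((e1.bdd_mul be).const_mul (β / 2)).integrable
  have i3 : Integrable fun y => ph1 r A K y * (ey y * (b_R1 r A K γ e y - (k * y - c))) :=
    (integrable_mul2 he.2.1 (expD_g_R1 (r := r) (A := A) (K := K) (γ := γ) (k := k) (c := c)
      e1 be).memLp).congr (Eventually.of_forall fun y => by ring)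
  have i4 : Integrable (t_R1 r A K β γ e) :=
    (e1.bdd_mul (((expD_Q1.bdd.const_mul γ).sub (expD_LQ.bdd.const_mul β)).sub
      (((((bQ.add be).pow 4).sub (bQ.pow 4)).mul expD_Q1.bdd).const_mul 5))).integrable
  have p1 := IsPrim.of_hasDerivAt (hasDerivAt_ph1 r A K) e2.1
  have p3 := IsPrim.of_hasDerivAt (hasDerivAt_ph3 r A K) e4.1
  have p0 : IsPrim (fun y => k * y - c) (fun _ => k) :=
    IsPrim.of_hasDerivAt (fun y => by
      simpa using ((hasDerivAt_id y).const_mul k).sub_const c) continuous_const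
  have pG := (he.isPrim.mul ((p3.sub (p1.const_mul (1 + γ))).add (p1.mul p0))).add
    ((((isH1_Q.isPrim.add he.isPrim).pow 4).sub (isH1_Q.isPrim.pow 4)).mul p1)
  have iG := ((((e3.sub (e1.const_mul (1 + γ))).add (lin_R1 e1 k c)).bdd_mul be).add
    (e1.bdd_mul (((bQ.add be).pow (4 + 1)).sub (bQ.pow (4 + 1))))).integrable
  have h := pG.integral_eq iG ((i0.add i1).add i2) (i3.add i4) fun y => by
    simp only [Pi.add_apply, b_R1, t_R1, NN, V, ph3, ph1, P3]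
    push_cast
    ring
  rw [integral_add' (i0.add i1) i2, integral_add' i0 i1, integral_add' i3 i4,
    integral_const_mul] at h
  rw [← h, rhs0, qa]
  ring

theorem abs_b_R1 (hr : 0 < r) (hK : 100 * r ≤ K) (hγ : |γ| ≤ 1) {y : ℝ} (he : |e y| ≤ 1) :
    |b_R1 r A K γ e y| ≤ 153 := by
  have h1 := ratio_le_EBa hr hK
  have h2 : 0 < r / K := div_pos hr (by linarith)
  have h3 := P1_pos ((r * y - A) / K)
  have h4 := P1_le_quarter ((r * y - A) / K)
  have h5 : (Q y + e y) ^ 4 ≤ (7 / 3) ^ 4 := by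
    rw [← abs_of_nonneg (a := (Q y + e y) ^ 4) (by positivity), abs_pow]
    refine pow_le_pow_left₀ (abs_nonneg _) ((abs_add_le _ _).trans ?_) 4
    rw [abs_of_pos (Q_pos y)]
    linarith [Q_le y]
  have h6 : 0 ≤ (Q y + e y) ^ 4 := by positivity
  have h7 : (r / K) ^ 2 ≤ 1 := by nlinarith
  have h8 : 0 ≤ (r / K) ^ 2 := sq_nonneg _
  rw [abs_le] at hγ ⊢
  unfold b_R1
  constructor <;> nlinarith [hγ.1, hγ.2]

theorem abs_t_R1 (hr : 0 < r) (hK : 100 * r ≤ K) (hβ : |β| ≤ 1) (hγ : |γ| ≤ 1) {y : ℝ}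
    (he : |e y| ≤ 1) (p : ℝ) : |t_R1 r A K β γ e y| ≤ 304 * Real.exp (-(A / K)) *
      (Real.exp (|y| / 10) * (1 + y ^ 2) * Q y * (1 + p ^ 2)) := by
  have hQ := Q_pos y
  have h0 := abs_nonneg y
  have h1 : |γ * Q1 y| ≤ 1 * Q y := by
    rw [abs_mul]
    exact mul_le_mul hγ (abs_Q1_le y) (abs_nonneg _) zero_le_one
  have h2 : |β * LQ y| ≤ 1 * ((1 + |y|) * Q y) := by
    rw [abs_mul]
    exact mul_le_mul hβ (abs_LQ_le y) (abs_nonneg _) zero_le_one
  have h3 : |((Q y + e y) ^ 4 - Q y ^ 4) * Q1 y| ≤ 30 * Q y := by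
    rw [abs_mul]
    exact mul_le_mul ((abs_pow4_sub_le y he).trans (by linarith)) (abs_Q1_le y) (abs_nonneg _)
      (by norm_num)
  have h4 : |y| ≤ 1 + y ^ 2 := by nlinarith [sq_abs y, sq_nonneg (|y| - 1)]
  have h5 : |γ * Q1 y - β * LQ y - 5 * (((Q y + e y) ^ 4 - Q y ^ 4) * Q1 y)|
      ≤ 304 * ((1 + y ^ 2) * Q y) := by
    have h6 := mul_le_mul_of_nonneg_right h4 hQ.le
    have h7 := mul_nonneg (sq_nonneg y) hQ.le
    rw [abs_le] at h1 h2 h3 ⊢
    constructor <;> nlinarith [h1.1, h1.2, h2.1, h2.2, h3.1, h3.2]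
  have h6 : ph1 r A K y ≤ Real.exp (-(A / K)) * Real.exp (|y| / 10) :=
    (ph1_le_tiny hr hK A y).trans (mul_le_mul_of_nonneg_left
      (Real.exp_le_exp.2 (by linarith)) (Real.exp_pos _).le)
  have h7 := ph1_pos hr (by linarith : 0 < K) A y
  unfold t_R1
  rw [abs_mul, abs_of_pos h7]
  refine (mul_le_mul h5 h6 h7.le (by positivity)).trans ?_
  have h8 : 0 ≤ 304 * Real.exp (-(A / K)) * (Real.exp (|y| / 10) * (1 + y ^ 2) * Q y) := by
    positivity
  nlinarith [mul_nonneg h8 (sq_nonneg p)]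

theorem main_R1 (hr : 0 < r) (hK : 100 * r ≤ K) (hγ : |γ| ≤ 1) (he : IsH1 e ey)
    (h1 : ∀ y, |e y| ≤ 1) (hd : ∫ y, ph1 r A K y * (k * y - c) ^ 2 ≤ C0) :
    |∫ y, ph1 r A K y * (ey y * (b_R1 r A K γ e y - (k * y - c)))|
      ≤ Real.sqrt (2 * 153 ^ 2 + 2 * C0) * Real.sqrt (qf r A K ey) := by
  have hK0 : 0 < K := by linarith
  have be := he.bdd
  have e1 := expD_ph1 hr hK0 A
  have e2 := expD_g_R1 (r := r) (A := A) (K := K) (γ := γ) (k := k) (c := c) e1 be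
  have i2 : Integrable fun y => ph1 r A K y * (b_R1 r A K γ e y - (k * y - c)) ^ 2 :=
    ((expD_g_R1 (r := r) (A := A) (K := K) (γ := γ) (k := k) (c := c) e2 be).congr
      fun y => by ring).integrable
  have i3 : Integrable fun y => ph1 r A K y * (k * y - c) ^ 2 :=
    ((lin_R1 (lin_R1 e1 k c) k c).congr fun y => by ring).integrable
  have h := csw (fun y => (ph1_pos hr hK0 A y).le)
    ((integrable_mul2 he.2.1 e2.memLp).congr (Eventually.of_forall fun y => by ring))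
    (integrable_bdd_mul (integrable_sq2 he.2.1) e1.bdd) i2
  have h2 : ∫ y, ph1 r A K y * (b_R1 r A K γ e y - (k * y - c)) ^ 2 ≤ 2 * 153 ^ 2 + 2 * C0 := by
    have i4 := e1.integrable.const_mul (2 * 153 ^ 2)
    have i5 := i3.const_mul 2
    refine (integral_mono i2 (i4.add i5) fun y => ?_).trans ?_
    · have h3 := abs_le.1 (abs_b_R1 (A := A) hr hK hγ (h1 y))
      have h4 : (b_R1 r A K γ e y - (k * y - c)) ^ 2 ≤ 2 * 153 ^ 2 + 2 * (k * y - c) ^ 2 := by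
        nlinarith [sq_nonneg (b_R1 r A K γ e y + (k * y - c)), h3.1, h3.2]
      exact (mul_le_mul_of_nonneg_left h4 (ph1_pos hr hK0 A y).le).trans_eq
        (by simp only [Pi.add_apply]; ring)
    · rw [integral_add' i4 i5, integral_const_mul, integral_const_mul, integral_ph1 hr hK0]
      linarith
  rw [mul_comm, ← Real.sqrt_mul (qf_nonneg hr hK0 A ey)]
  exact Real.abs_le_sqrt (h.trans (mul_le_mul_of_nonneg_left h2 (qf_nonneg hr hK0 A ey)))

theorem r1 : R1Stmt := by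
  intro X
  obtain ⟨C, hC, hd⟩ := X.dr_sq
  refine ⟨Real.sqrt (2 * 153 ^ 2 + 2 * C) + 30 * 304, ?_⟩
  filter_upwards [X.ev_gt, X.ev_sup one_pos, X.ev_ey one_pos, X.ev_par one_pos, X.ev_log one_pos]
    with s hs h1 h2 h3 h4
  have hr := X.r_pos hs
  have hs1 := X.one_lt hs
  have hs0 : 0 < s := by linarith
  have hT := test_ph1 hr X.K_pos (X.A s)
  have hD := mov_l2 (X.st.flow s hs).h1t.l2
    (me_ph1 (X.hasDerivAt_r hs) (X.hasDerivAt_A hs) hr X.K_pos) hT.e0.memLp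
    ((X.st.flow s hs).d0 _ _ _ _ hT)
  refine ⟨_, hD, ?_⟩
  have e1 : ∀ y, X.r s * (-(X.β s) + X.κ / s) / X.r s * ph1 (X.r s) (X.A s) X.K y
      + ph2 (X.r s) (X.A s) X.K y * ((X.r s * (-(X.β s) + X.κ / s) * y - X.CA / s) / X.r s)
      = (-(X.β s) + X.κ / s) * ph1 (X.r s) (X.A s) X.K y + ph2 (X.r s) (X.A s) X.K y *
        ((-(X.β s) + X.κ / s) * y - X.CA / (s * X.r s)) := fun y => by
    field_simp
  have e2 : ∀ y, X.dr s y = X.κ / s * y - X.CA / (s * X.r s) := fun y => by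
    unfold Dat.dr
    ring
  have h5 : ∫ y, ph1 (X.r s) (X.A s) X.K y * (X.κ / s * y - X.CA / (s * X.r s)) ^ 2 ≤ C := by
    have h6 := hd s hs
    simp only [e2] at h6
    have h7 : 0 ≤ (1 + X.A s) / s := div_nonneg (by linarith [X.A_nonneg hs1.le]) hs0.le
    have h8 : ((1 + X.A s) / s) ^ 2 ≤ 1 := by nlinarith
    nlinarith
  simp only [e1, one_mul]
  rw [Dat.a, ident_R1 hr X.K_pos (X.h1 hs)]
  have h6 := main_R1 hr (X.r_le_K hs) h3.2 (X.h1 hs) h1 h5
  have h7 := abs_integral_le_envp (X.h1 hs).2.1 h2 (by positivity) fun y =>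
    abs_t_R1 (A := X.A s) hr (X.r_le_K hs) h3.1 h3.2 (h1 y) (X.ey s y)
  have h8 := X.exp_le_tau hs1.le
  have h9 := X.tau_pos hs0
  refine (abs_add_le _ _).trans ((add_le_add h6 h7).trans ?_)
  rw [Dat.f]
  have h10 := Real.sqrt_nonneg (2 * 153 ^ 2 + 2 * C)
  have h11 := Real.sqrt_nonneg (qf (X.r s) (X.A s) X.K (X.ey s))
  generalize Real.sqrt (2 * 153 ^ 2 + 2 * C) = u at h10 ⊢
  generalize Real.sqrt (qf (X.r s) (X.A s) X.K (X.ey s)) = v at h11 ⊢
  nlinarith [mul_nonneg h10 h9.le]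

end Pool.Agent.MP_8339a4_an
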