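import Pool.Agent.MP_8339a4_an.EA

/-! The mass on the right of the step is almost decreasing. -/

open MeasureTheory Filter Topology Set

namespace Pool.Agent.MP_8339a4_an

theorem pt_R2 {y e p g p1 p3 dp τ env : ℝ} (he : |e| ≤ 1 / 10) (hg : |g| ≤ 1 / 10) (h1 : 0 ≤ p1)
    (h3 : |p3| ≤ 1 / 10 * p1) (hd : dp ≤ 1 / 10 * p1 + τ) (hq : Q y * p1 ≤ τ * env)
    (hτ : 0 ≤ τ) :
    fl1 (Q y + e) p p1 p3 - (1 + g) * ((Q y + e) ^ 2 * p1) + (Q y + e) ^ 2 * dp
      ≤ -(1 / 4) * (p1 * e ^ 2) + τ * (254 * env + 2 * Q y ^ 2 + 2 * e ^ 2) := by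
  have he1 : |e| ≤ 1 := he.trans (by norm_num)
  have a2 := (abs_le.1 (abs_sq_sub_le y he1)).1
  have a6 := (abs_le.1 (abs_pow6_sub_le y he1)).2
  have e2 : e ^ 2 ≤ 1 / 100 := by
    rw [← sq_abs]
    nlinarith [abs_nonneg e]
  have e6 : e ^ 6 ≤ 1 / 100 * e ^ 2 := by
    have : e ^ 6 = e ^ 2 * e ^ 2 * e ^ 2 := by ring
    rw [this]
    refine mul_le_mul_of_nonneg_right ?_ (sq_nonneg e)
    nlinarith [sq_nonneg e]
  have hQ := (Q_pos y).le
  have u2 : (Q y + e) ^ 2 ≤ 2 * Q y ^ 2 + 2 * e ^ 2 := by nlinarith [sq_nonneg (Q y - e)]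
  have hU := sq_nonneg (Q y + e)
  unfold fl1
  generalize (Q y + e) ^ 2 = U2 at *
  generalize (Q y + e) ^ 6 = U6 at *
  have b1 := mul_nonneg (sq_nonneg p) h1
  have b2 := mul_le_mul_of_nonneg_left (abs_le.1 h3).2 hU
  have b3 := mul_le_mul_of_nonneg_right (a6.trans_eq rfl) h1
  have b4 := mul_le_mul_of_nonneg_right e6 h1
  have b5 := mul_le_mul_of_nonneg_right (abs_le.1 hg).1 (mul_nonneg hU h1)
  have b6 := mul_le_mul_of_nonneg_left hd hU
  have b7 := mul_le_mul_of_nonneg_right a2 h1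
  have b8 := mul_le_mul_of_nonneg_left u2 hτ
  have b9 := mul_nonneg h1 (sq_nonneg e)
  have b10 := mul_nonneg hQ h1
  nlinarith

theorem r2 : R2Stmt := by
  intro X
  refine ⟨254 * 20 + 2 * (∫ y, Q y ^ 2) + 2 * X.M, ?_⟩
  have h10 : (0 : ℝ) < 1 / 10 := by norm_num
  filter_upwards [X.ev_gt, X.ev_sup h10, X.ev_par h10, X.ev_tail h10] with s hs he hp ht
  have hr := X.r_pos hs
  have hK := X.K_pos
  have hs1 := X.one_lt hs
  have hτ := (X.tau_pos (by linarith : 0 < s)).le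
  have hW := wt_ph hr hK (X.A s)
  have hm := mw_ph (X.hasDerivAt_r hs) (X.hasDerivAt_A hs) hr hK
  have hU := X.h1U hs
  refine ⟨integral_nonneg fun y => mul_nonneg (sq_nonneg _) (ph_pos _ _ _ _).le, _,
    mov_l1 ((X.h1tU hs).pow 0) hm ((X.st.flow s hs).d1 _ _ _ _ hW), ?_⟩
  have i2 := integrable_sq2 hU.1
  have j1 : Integrable fun y => fl1 (Q y + X.e s y) (Q1 y + X.ey s y) (ph1 (X.r s) (X.A s) X.K y)
      (ph3 (X.r s) (X.A s) X.K y) := ((X.h1tU hs).fl1 hW.b1 hW.b3).2.1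
  have j2 := (j1.sub ((integrable_mul_bdd i2 hW.b1).const_mul (1 + X.γ s))).add
    ((integrable_mul_bdd i2 hW.by1).const_mul (X.β s))
  have j3 := integrable_mul_bdd i2 hm.bdd_wt
  have ie := integrable_sq2 (X.h1 hs).1
  have k1 := (integrable_bdd_mul ie hW.b1).const_mul (-(1 / 4))
  have k2 := expD_env.integrable.const_mul 254
  have k3 := (integrable_sq2 expD_Q.memLp).const_mul 2
  have k4 := ie.const_mul 2
  have hrK : X.r s / X.K ≤ 1 / 100 := by
    rw [div_le_iff₀ hK]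
    linarith [X.r_le_K hs]
  have hrK0 : 0 ≤ X.r s / X.K := (div_pos hr hK).le
  have key := integral_mono (j2.add j3) (k1.add (((k2.add k3).add k4).const_mul (X.tau s)))
    (fun y => by
      have p1 := (ph1_pos hr hK (X.A s) y).le
      have h3 : |ph3 (X.r s) (X.A s) X.K y| ≤ 1 / 10 * ph1 (X.r s) (X.A s) X.K y :=
        (abs_ph3_le hr hK _ y).trans (mul_le_mul_of_nonneg_right (by nlinarith) p1)
      have hq : Q y * ph1 (X.r s) (X.A s) X.K y
          ≤ X.tau s * (Real.exp (|y| / 10) * (1 + y ^ 2) * Q y) := by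
        have c1 := ph1_le_tiny hr (X.r_le_K hs) (X.A s) y
        have c2 : Real.exp (|y| / 100) ≤ Real.exp (|y| / 10) * (1 + y ^ 2) :=
          (Real.exp_le_exp.2 (by linarith [abs_nonneg y])).trans
            (le_mul_of_one_le_right (Real.exp_pos _).le (by nlinarith [sq_nonneg y]))
        have c3 := mul_le_mul (X.exp_le_tau hs1.le) c2 (Real.exp_pos _).le hτ
        have c4 := mul_le_mul_of_nonneg_left (c1.trans c3) (Q_pos y).le
        linarith
      have h := pt_R2 (p := Q1 y + X.ey s y) (he y) hp.2 p1 h3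
        ((mul_le_mul_of_nonneg_right (le_abs_self (X.dr s y)) p1).trans (ht y)) hq hτ
      have e1 : (X.r s * (-X.β s + X.κ / s) * y - X.CA / s) / X.r s = -X.β s * y + X.dr s y := by
        unfold Dat.dr
        field_simp
        ring
      simp only [Pi.add_apply, Pi.sub_apply, e1]
      linarith)
  rw [integral_add' j2 j3, integral_add' k1 (((k2.add k3).add k4).const_mul _), integral_const_mul,
    integral_const_mul, integral_add' (k2.add k3) k4, integral_add' k2 k3, integral_const_mul,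
    integral_const_mul, integral_const_mul] at key
  have l1 := qa_sq_le hr hK (X.A s) (X.h1 hs)
  have l2 : 254 * (∫ y, Real.exp (|y| / 10) * (1 + y ^ 2) * Q y) + 2 * (∫ y, Q y ^ 2)
      + 2 * ∫ y, X.e s y ^ 2 ≤ 254 * 20 + 2 * (∫ y, Q y ^ 2) + 2 * X.M := by
    linarith [integral_env_le, X.st.mass s hs]
  have l3 := mul_le_mul_of_nonneg_left l2 hτ
  rw [one_mul]
  refine le_trans key ?_
  unfold Dat.a
  linarith

end Pool.Agent.MP_8339a4_an
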