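import Pool.Agent.MP_8339a4_an.EA

/-! The energy on the right of the step. -/

open MeasureTheory Filter Topology Set

namespace Pool.Agent.MP_8339a4_an

theorem pt_R3 (y : ℝ) {e p W1 W3 γ d τ g : ℝ} (he : |e| ≤ 1 / 10) (hγ : |γ| ≤ 1 / 10)
    (hW : 0 ≤ W1) (h3 : |W3| ≤ 1 / 10000 * W1) (hd : |d| * W1 ≤ 1 / 10 * W1 + τ) (hτ : 0 ≤ τ)
    (hg : 1 ≤ g) (hWg : W1 ≤ τ * g) :
    20 * (Q y + e) ^ 4 * (Q1 y + p) ^ 2 * W1 - (Q y + e) ^ 10 * W1 - (Q y + e) ^ 6 * W3 / 3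
      + (Q1 y + p) ^ 2 * W3 - (1 + γ) * (((Q1 y + p) ^ 2 - (Q y + e) ^ 6 / 3) * W1)
      + ((Q1 y + p) ^ 2 - (Q y + e) ^ 6 / 3) * (W1 * d)
      ≤ -(1 / 2) * (W1 * p ^ 2) + W1 * e ^ 6
        + τ * (2300 * (g * Q y * (1 + p ^ 2)) + p ^ 2 + e ^ 2) := by
  have hq := Q_pos y
  have hq1 := Q_le y
  have he1 : |e| ≤ 1 := he.trans (by norm_num)
  have a1 := abs_le.1 (abs_sqy_sub_le y p)
  have b1 := (abs_le.1 (abs_pow6_sub_le y he1)).2
  have e2 : e ^ 2 ≤ 1 / 100 := by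
    have := pow_le_pow_left₀ (abs_nonneg e) he 2
    rw [sq_abs] at this
    linarith
  have e4 : e ^ 4 ≤ 1 / 10000 := by
    have := pow_le_pow_left₀ (sq_nonneg e) e2 2
    linarith
  have e6 : e ^ 6 ≤ e ^ 2 := by
    have := mul_le_mul_of_nonneg_left e4 (sq_nonneg e)
    nlinarith [sq_nonneg e]
  have q4 : Q y ^ 4 ≤ 64 / 27 * Q y := by
    have := mul_le_mul_of_nonneg_right (pow_le_pow_left₀ hq.le hq1 3) hq.le
    linarith
  have c1 : (Q y + e) ^ 4 ≤ 19 * Q y + 1 / 1000 := by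
    have h1 : (Q y + e) ^ 2 ≤ 2 * (Q y ^ 2 + e ^ 2) := by nlinarith [sq_nonneg (Q y - e)]
    have h2 := pow_le_pow_left₀ (sq_nonneg _) h1 2
    nlinarith [sq_nonneg (Q y ^ 2 - e ^ 2)]
  have h10 : 0 ≤ (Q y + e) ^ 10 * W1 := by positivity
  have ha : 0 ≤ (Q1 y + p) ^ 2 := sq_nonneg _
  have hb : 0 ≤ (Q y + e) ^ 6 := by positivity
  generalize (Q1 y + p) ^ 2 = a at *
  generalize (Q y + e) ^ 6 = b at *
  generalize (Q y + e) ^ 4 = c at *
  generalize (Q y + e) ^ 10 = c' at *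
  have hp : 0 ≤ p ^ 2 := sq_nonneg p
  have hE : Q y ≤ Q y * (1 + p ^ 2) := le_mul_of_one_le_right hq.le (by linarith)
  have a2 : Q y * a ≤ 5 * (Q y * (1 + p ^ 2)) := by
    have h1 : Q y * (1 + p ^ 2) ≤ 4 / 3 * (1 + p ^ 2) :=
      mul_le_mul_of_nonneg_right hq1 (by linarith)
    have h2 : a ≤ 5 * (1 + p ^ 2) := by linarith
    have := mul_le_mul_of_nonneg_left h2 hq.le
    linarith
  have a3 : p ^ 2 - 3 * (Q y * (1 + p ^ 2)) ≤ a := by linarith
  have a4 : a ≤ p ^ 2 + 3 * (Q y * (1 + p ^ 2)) := by linarith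
  have b2 : b ≤ e ^ 6 + 150 * (Q y * (1 + p ^ 2)) := by linarith
  have eg : g * Q y * (1 + p ^ 2) = g * (Q y * (1 + p ^ 2)) := by ring
  rw [eg]
  have hE0 : 0 ≤ Q y * (1 + p ^ 2) := hq.le.trans hE
  generalize Q y * (1 + p ^ 2) = E at *
  have hEg : E ≤ g * E := le_mul_of_one_le_left hE0 hg
  have haW : 0 ≤ a * W1 := mul_nonneg ha hW
  have hbW : 0 ≤ b * W1 := mul_nonneg hb hW
  have t1 := mul_le_mul_of_nonneg_right c1 haW
  have t2 := mul_le_mul_of_nonneg_right a2 hW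
  have t3 := mul_le_mul_of_nonneg_left (abs_le.1 h3).1 hb
  have t4 := mul_le_mul_of_nonneg_left (abs_le.1 h3).2 ha
  have t5 := mul_le_mul_of_nonneg_right (abs_le.1 hγ).1 haW
  have t6 := mul_le_mul_of_nonneg_right (abs_le.1 hγ).2 hbW
  have d1 : d * W1 ≤ 1 / 10 * W1 + τ := (mul_le_mul_of_nonneg_right (le_abs_self d) hW).trans hd
  have d2 : -d * W1 ≤ 1 / 10 * W1 + τ := (mul_le_mul_of_nonneg_right (neg_le_abs d) hW).trans hd
  have t7 := mul_le_mul_of_nonneg_left d1 ha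
  have t8 := mul_le_mul_of_nonneg_left d2 hb
  have t9 := mul_le_mul_of_nonneg_right a3 hW
  have t10 := mul_le_mul_of_nonneg_right b2 hW
  have t11 := mul_le_mul_of_nonneg_left hWg hE0
  have t12 := mul_le_mul_of_nonneg_left a4 hτ
  have t13 := mul_le_mul_of_nonneg_left b2 hτ
  have t14 := mul_le_mul_of_nonneg_left e6 hτ
  have t15 := mul_le_mul_of_nonneg_left hEg hτ
  have t16 : 0 ≤ τ * b := mul_nonneg hτ hb
  have t17 : 0 ≤ τ * E := mul_nonneg hτ hE0
  linarith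

theorem r3 : R3Stmt := by
  intro X
  have hK := X.K_pos
  have hr0 := X.r0_pos
  have hM := X.M_nonneg
  obtain ⟨δ, d0, d1, d2⟩ : ∃ δ : ℝ, 0 < δ ∧ δ ≤ 1 / 10 ∧ δ * (X.K / X.r0) ^ 2 ≤ 1 / 30000 := by
    have h1 : 0 < (X.K / X.r0) ^ 2 := by positivity
    refine ⟨min (1 / 10) (1 / 30000 / (X.K / X.r0) ^ 2), by positivity, min_le_left _ _, ?_⟩
    exact (le_div_iff₀ h1).1 (min_le_right _ _)
  refine ⟨69033 + X.M, ?_⟩
  filter_upwards [X.ev_gt, X.ev_sup d0, X.ev_ey one_pos, X.ev_par (show (0 : ℝ) < 1 / 10 by norm_num),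
    X.ev_tail (show (0 : ℝ) < 1 / 10 by norm_num)] with s hs hsup hey hpar htail
  have hr := X.r_pos hs
  have s1 := X.one_lt hs
  have hτ := (X.tau_pos (by linarith : 0 < s)).le
  have wt := wt_ph hr hK (X.A s)
  have hw := mw_ph (X.hasDerivAt_r hs) (X.hasDerivAt_A hs) hr hK
  have hd := mov_l1_dini (X.h1tU hs).en hw ((X.st.flow s hs).d2 _ _ _ _ wt
    (fun y => (ph1_pos hr hK _ y).le) _ _ IsH1.zero)
  refine DiniLe.mono hd ?_
  have h1 := X.h1 hs
  have ien := (X.h1tU hs).en.2.1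
  have ifl := ((X.h1tU hs).fl2 IsH1.zero wt.b1 wt.b2 wt.b3).2.1
  have i0 := integrable_mul_bdd ien wt.b0
  have i1 := ((ifl.sub ((integrable_mul_bdd ien wt.b1).const_mul (1 + X.γ s))).sub
    (i0.const_mul (2 * X.β s))).add ((integrable_mul_bdd ien wt.by1).const_mul (X.β s))
  have i2 := integrable_mul_bdd ien hw.bdd_wt
  have j1 := integrable_bdd_mul (integrable_sq2 h1.2.1) wt.b1
  have j2 := integrable_bdd_mul (h1.integrable_pow 4) wt.b1
  have j3 := integrable_envp h1.2.1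
  have j4 := integrable_sq2 h1.2.1
  have j5 := integrable_sq2 h1.1
  have j6 := ((j3.const_mul 2300).add j4).add j5
  have key := integral_mono ((i1.add i2).add (i0.const_mul (2 * X.β s)))
    (((j1.const_mul (-(1 / 2))).add j2).add (j6.const_mul (X.tau s))) fun y => by
      have hrK : X.r s / X.K ≤ 1 / 100 := by
        rw [div_le_iff₀ hK]
        linarith [X.r_le_K hs]
      have hp1 := (ph1_pos hr hK (X.A s) y).le
      have g1 : Real.exp (|y| / 100) ≤ Real.exp (|y| / 10) * (1 + y ^ 2) :=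
        (Real.exp_le_exp.2 (by linarith [abs_nonneg y])).trans
          (le_mul_of_one_le_right (Real.exp_pos _).le (by linarith [sq_nonneg y]))
      have := pt_R3 y (p := X.ey s y) (d := X.dr s y) ((hsup y).trans d1) hpar.2 hp1
        ((abs_ph3_le hr hK (X.A s) y).trans (mul_le_mul_of_nonneg_right
          ((pow_le_pow_left₀ (by positivity) hrK 2).trans (by norm_num)) hp1))
        (htail y) hτ ((Real.one_le_exp (by positivity)).trans g1)
        ((ph1_le_tiny hr (X.r_le_K hs) _ y).trans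
          (mul_le_mul (X.exp_le_tau s1.le) g1 (Real.exp_pos _).le hτ))
      have e1 : (X.r s * (-X.β s + X.κ / s) * y - X.CA / s) / X.r s = -X.β s * y + X.dr s y := by
        unfold Dat.dr
        field_simp
        ring
      simp only [Pi.add_apply, Pi.sub_apply, e1, fl2, en]
      linarith
  simp only [Pi.add_apply, Pi.sub_apply] at key
  erw [integral_add (i1.add i2) (i0.const_mul _), integral_add i1 i2,
    integral_add ((j1.const_mul _).add j2) (j6.const_mul _), integral_add (j1.const_mul _) j2,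
    integral_const_mul, integral_const_mul, integral_const_mul,
    integral_add ((j3.const_mul _).add j4) j5, integral_add (j3.const_mul _) j4,
    integral_const_mul] at key
  have k1 := integral_envp_le h1.2.1 hey
  have k2 := X.st.mass s hs
  have k3 := poin_pow6 hr hK (X.A s) h1 hsup
  have hf := X.f_nonneg hs
  have k4 : δ ^ 4 * (X.K / X.r s) ^ 2 ≤ 1 / 30000 := by
    refine le_trans (mul_le_mul ?_ ?_ (by positivity) d0.le) d2
    · exact pow_le_of_le_one d0.le (by linarith) (by norm_num)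
    · gcongr
      exact X.r_ge hs
  have k5 := mul_le_mul_of_nonneg_right k4 hf
  have k6 : 0 ≤ X.a s ^ 6 := by positivity
  have k7 := mul_le_mul_of_nonneg_left (show 2300 * (∫ y, Real.exp (|y| / 10) * (1 + y ^ 2) * Q y *
    (1 + X.ey s y ^ 2)) + (∫ y, X.ey s y ^ 2) + ∫ y, X.e s y ^ 2 ≤ 69001 + X.M by linarith) hτ
  have k8 := mul_nonneg hM k6
  rw [one_mul]
  change _ ≤ -(1 / 2) * X.f s + _ + _ at key
  change _ ≤ 32 * X.a s ^ 6 + 8192 * δ ^ 4 * (X.K / X.r s) ^ 2 * X.f s at k3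
  change rhs2 (X.β s) (X.γ s) (X.e s) (X.ey s) (fun _ => 0) (fun _ => 0) (ph (X.r s) (X.A s) X.K)
    (ph1 (X.r s) (X.A s) X.K) (ph2 (X.r s) (X.A s) X.K) (ph3 (X.r s) (X.A s) X.K) + _
      + 2 * X.β s * X.E s ≤ _ at key
  linarith

end Pool.Agent.MP_8339a4_an
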