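import Pool.Agent.MP_8339a4_an.EA

/-! Coercivity of the localised energy on the right of the step. -/

open MeasureTheory Filter Topology Set

namespace Pool.Agent.MP_8339a4_an

theorem int_en_R4 {e ey : ℝ → ℝ} (h : IsH1 e ey) : Integrable (fun y => en (e y) (ey y)) :=
  (integrable_sq2 h.2.1).sub ((h.integrable_pow 4).div_const 3)

theorem diff_R4 {r K : ℝ} (hr : 0 < r) (hK : 100 * r ≤ K) (A : ℝ) {e ey : ℝ → ℝ} (h : IsH1 e ey)
    (he : ∀ y, |e y| ≤ 1) (h1 : ∫ y, ey y ^ 2 ≤ 1) :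
    ∫ y, ph r A K y * en (e y) (ey y) ≤ qe r A K e ey + 1590 * Real.exp (-(A / K)) := by
  have i1 := integrable_bdd_mul (int_en_R4 h) (bdd_ph r A K)
  have i2 := integrable_mul_bdd (int_en_R4 (isH1_Q.add h)) (bdd_ph r A K)
  have key := abs_integral_le_envp (g := fun y => ph r A K y * en (e y) (ey y) -
      en (Q y + e y) (Q1 y + ey y) * ph r A K y) (c := 53 * Real.exp (-(A / K))) h.2.1 h1
    (by positivity) (fun y => by
      have hQ := Q_pos y
      have a1 := abs_le.1 (abs_sqy_sub_le y (ey y))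
      have a2 := abs_le.1 (abs_pow6_sub_le y (he y))
      have a3 : |en (e y) (ey y) - en (Q y + e y) (Q1 y + ey y)| ≤ 53 * (Q y * (1 + ey y ^ 2)) := by
        have : 0 ≤ Q y * ey y ^ 2 := by positivity
        rw [abs_le]
        unfold en
        constructor <;> nlinarith [a1.1, a1.2, a2.1, a2.2]
      have a4 : ph r A K y ≤ Real.exp (-(A / K)) * (Real.exp (|y| / 10) * (1 + y ^ 2)) := by
        refine (ph_le_tiny hr hK A y).trans (mul_le_mul_of_nonneg_left ?_ (Real.exp_pos _).le)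
        have b1 : Real.exp (|y| / 100) ≤ Real.exp (|y| / 10) :=
          Real.exp_le_exp.2 (by linarith [abs_nonneg y])
        exact b1.trans (le_mul_of_one_le_right (Real.exp_pos _).le (by nlinarith [sq_nonneg y]))
      rw [mul_comm (en _ _) (ph r A K y), ← mul_sub, abs_mul, abs_of_pos (ph_pos r A K y)]
      calc _ ≤ Real.exp (-(A / K)) * (Real.exp (|y| / 10) * (1 + y ^ 2)) *
            (53 * (Q y * (1 + ey y ^ 2))) :=
            mul_le_mul a4 a3 (abs_nonneg _) (by positivity)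
        _ = _ := by ring)
  rw [integral_sub i1 i2] at key
  have := (abs_le.1 key).2
  unfold qe
  linarith

theorem r4 (h : NagyWStmt) : R4Stmt := by
  intro X
  obtain ⟨c, C, hc, hC, h⟩ := h X.M X.d X.st.hd
  have hη := X.st.hη
  have hK := X.K_pos
  have hr0 := X.r0_pos
  obtain ⟨L, hL⟩ : ∃ L, L = 512 * C * (X.K / X.r0) ^ 2 := ⟨_, rfl⟩
  have hL0 : 0 ≤ L := by rw [hL]; positivity
  obtain ⟨δ, hδ0, hδ1, hδ2⟩ : ∃ δ : ℝ, 0 < δ ∧ δ ≤ 1 ∧ L * δ ^ 2 ≤ c / 2 := by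
    refine ⟨min 1 (c / (2 * (L + 1))), lt_min one_pos (by positivity), min_le_left _ _, ?_⟩
    have h0 : 0 < min 1 (c / (2 * (L + 1))) := lt_min one_pos (by positivity)
    have h1 := min_le_left 1 (c / (2 * (L + 1)))
    have h2 := (le_div_iff₀ (by positivity)).1 (min_le_right 1 (c / (2 * (L + 1))))
    generalize min 1 (c / (2 * (L + 1))) = d at h0 h1 h2
    have h3 : L * d ^ 2 ≤ L * d := mul_le_mul_of_nonneg_left (by nlinarith) hL0
    nlinarith
  refine ⟨c / 2, 1590 + 8 * C + C / X.η ^ 2, by positivity, ?_⟩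
  filter_upwards [X.ev_gt, X.ev_sup hδ0, X.ev_ey one_pos] with s hs he hy
  have hr := X.r_pos hs
  have hl := X.lam_pos hs
  have h1 := X.h1 hs
  have a1 := h (X.η / X.lam s) (X.e s) (X.ey s) (ph (X.r s) (X.A s) X.K)
    (ph1 (X.r s) (X.A s) X.K) (by positivity) h1 (X.st.mass s hs) (X.st.loc s hs)
    (hasDerivAt_ph _ _ _) (expD_ph1 hr hK _) (fun y => (ph1_pos hr hK _ y).le)
    (fun y => (ph_lt_one _ _ _ y).le) (tendsto_ph_atBot hr hK _)
  have a2 : ∫ y, ph (X.r s) (X.A s) X.K y * (X.ey s y ^ 2 + X.e s y ^ 6) = X.Kf s + X.k6 s := by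
    simp only [mul_add]
    exact integral_add (integrable_bdd_mul (integrable_sq2 h1.2.1) (bdd_ph _ _ _))
      (integrable_bdd_mul (h1.integrable_pow 4) (bdd_ph _ _ _))
  have a3 : _ ≤ X.E s + _ :=
    diff_R4 hr (X.r_le_K hs) (X.A s) h1 (fun y => (he y).trans hδ1) hy
  have a4 : _ ≤ 8 * X.a s ^ 4 + 512 * δ ^ 2 * (X.K / X.r s) ^ 2 * X.f s :=
    poin_pow4 hr hK (X.A s) h1 he
  have a5 := X.exp_le_tau (X.one_lt hs).le
  have a6 : C / (X.η / X.lam s) ^ 2 = C / X.η ^ 2 * X.lam s ^ 2 := by field_simp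
  have a7 : (X.K / X.r s) ^ 2 ≤ (X.K / X.r0) ^ 2 :=
    pow_le_pow_left₀ (by positivity) (div_le_div_of_nonneg_left hK.le hr0 (X.r_ge hs)) 2
  have f0 := X.f_nonneg hs
  have f1 := X.f_le_Kf hs
  have f2 := X.k6_nonneg s
  have f3 := (X.tau_pos (zero_lt_one.trans (X.one_lt hs))).le
  have a8 : C * (512 * δ ^ 2 * (X.K / X.r s) ^ 2 * X.f s) ≤ c / 2 * X.Kf s := by
    calc _ = 512 * C * (X.K / X.r s) ^ 2 * δ ^ 2 * X.f s := by ring
      _ ≤ L * δ ^ 2 * X.f s := by rw [hL]; gcongr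
      _ ≤ c / 2 * X.Kf s := mul_le_mul hδ2 f1 f0 (by positivity)
  have a9 := mul_le_mul_of_nonneg_left a4 hC
  rw [a2, a6] at a1
  have b1 : 0 ≤ C / X.η ^ 2 := by positivity
  generalize C / X.η ^ 2 = T at a1 b1 ⊢
  have b2 : 0 ≤ X.a s ^ 4 := by positivity
  have b3 : 0 ≤ X.lam s ^ 2 := by positivity
  nlinarith [mul_nonneg hC b3, mul_nonneg hC f3, mul_nonneg b1 b2, mul_nonneg b1 f3,
    mul_nonneg hc.le f2]

end Pool.Agent.MP_8339a4_an
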