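import Pool.Agent.MP_8339a4_an.Api

/-! The reflection `(t, x) ↦ (-t, -x)`. -/

open MeasureTheory Filter Topology Set

namespace Pool.Agent.MP_8339a4_an

theorem amgm_Refl {f g : ℝ → ℝ} (hf : MemLp f 2 volume) (hg : MemLp g 2 volume) (S : Set ℝ)
    {c : ℝ} (hc : 0 < c) :
    ∫ y in S, -2 * (f y * g y) ≤ c * (∫ y in S, f y ^ 2) + c⁻¹ * ∫ y in S, g y ^ 2 := by
  have i1 := ((integrable_sq2 hf).const_mul c).integrableOn (s := S)
  have i2 := ((integrable_sq2 hg).const_mul c⁻¹).integrableOn (s := S)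
  rw [← integral_const_mul, ← integral_const_mul, ← integral_add i1 i2]
  refine integral_mono ((integrable_mul2 hf hg).const_mul (-2)).integrableOn (i1.add i2)
    fun y => ?_
  have h : c * f y ^ 2 + c⁻¹ * g y ^ 2 + 2 * (f y * g y) = c⁻¹ * (c * f y + g y) ^ 2 := by
    field_simp
    ring
  have h2 : 0 ≤ c⁻¹ * (c * f y + g y) ^ 2 := by positivity
  show -2 * (f y * g y) ≤ c * f y ^ 2 + c⁻¹ * g y ^ 2
  linarith

theorem mass_Refl {U : ℝ → ℝ} (hU : MemLp U 2 volume) {δ R : ℝ} (hδ : 0 < δ) (hR : 0 < R)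
    (h1 : ∫ y in (-R)..R, (U y - Q y) ^ 2 ≤ δ ^ 2 / 2)
    (h2 : (∫ y, Q y ^ 2) - ∫ y in (-R)..R, Q y ^ 2 ≤ δ ^ 2 / 2) :
    (1 - δ) * ∫ y, (U y - Q y) ^ 2 ≤
      (∫ y, U y ^ 2) - (∫ y, Q y ^ 2) + δ * (∫ y, Q y ^ 2) + δ := by
  have hQ := expD_Q.memLp
  have he : MemLp (fun y => U y - Q y) 2 volume := hU.sub hQ
  have ie := integrable_sq2 he
  have iQ := integrable_sq2 hQ
  have im := (integrable_mul2 he hQ).const_mul (-2)
  rw [intervalIntegral.integral_of_le (by linarith)] at h1 h2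
  have e0 : ∫ y, (U y - Q y) ^ 2 =
      (∫ y, U y ^ 2) - (∫ y, Q y ^ 2) + ∫ y, -2 * ((U y - Q y) * Q y) := by
    have iS : Integrable (fun y => U y ^ 2 - Q y ^ 2) := (integrable_sq2 hU).sub iQ
    rw [← integral_sub (integrable_sq2 hU) iQ, ← integral_add iS im]
    refine integral_congr_ae (Eventually.of_forall fun y => ?_)
    simp only
    ring
  have s1 := integral_add_compl (s := Ioc (-R) R) measurableSet_Ioc ie
  have s2 := integral_add_compl (s := Ioc (-R) R) measurableSet_Ioc iQ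
  have s3 := integral_add_compl (s := Ioc (-R) R) measurableSet_Ioc im
  have a1 := amgm_Refl he hQ (Ioc (-R) R) (inv_pos.2 hδ)
  have a2 := amgm_Refl he hQ (Ioc (-R) R)ᶜ hδ
  rw [inv_inv] at a1
  have n1 : 0 ≤ ∫ y in Ioc (-R) R, (U y - Q y) ^ 2 := integral_nonneg fun y => sq_nonneg _
  have n2 : 0 ≤ ∫ y in (Ioc (-R) R)ᶜ, Q y ^ 2 := integral_nonneg fun y => sq_nonneg _
  have e1 : δ⁻¹ * (δ ^ 2 / 2) = δ / 2 := by field_simp
  have b1 := mul_le_mul_of_nonneg_left h1 (inv_pos.2 hδ).le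
  have b2 := mul_le_mul_of_nonneg_left
    (show ∫ y in (Ioc (-R) R)ᶜ, Q y ^ 2 ≤ δ ^ 2 / 2 by linarith) (inv_pos.2 hδ).le
  have b3 := mul_le_mul_of_nonneg_left
    (show ∫ y in Ioc (-R) R, Q y ^ 2 ≤ ∫ y, Q y ^ 2 by linarith) hδ.le
  have b4 := mul_le_mul_of_nonneg_left
    (show ∫ y in (Ioc (-R) R)ᶜ, (U y - Q y) ^ 2 ≤ ∫ y, (U y - Q y) ^ 2 by linarith) hδ.le
  linarith

theorem scale_Refl {v : ℝ → ℝ} (hv : MemLp v 2 volume) {l : ℝ} (hl : 0 < l) (s x : ℝ) :
    (∫ y, (Real.sqrt l * v (l * y + s)) ^ 2) = (∫ z, v z ^ 2) ∧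
      ∫ z in x..(x + 1), (v z - Q ((z - s) / l) / Real.sqrt l) ^ 2 ≤
        ∫ y, (Real.sqrt l * v (l * y + s) - Q y) ^ 2 := by
  have hs : Real.sqrt l ^ 2 = l := Real.sq_sqrt hl.le
  have hs0 : Real.sqrt l ≠ 0 := (Real.sqrt_pos.2 hl).ne'
  constructor
  · simp only [mul_pow, hs]
    rw [integral_const_mul, integral_comp_affine (fun z => v z ^ 2) hl s]
    field_simp
  · have hq : MemLp (fun z => Q ((z - s) / l) / Real.sqrt l) 2 volume :=
      (((expD_Q.comp_affine (inv_ne_zero hl.ne') (-s / l)).div_const (Real.sqrt l)).congr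
        fun z => by congr 2; ring).memLp
    have hi := integrable_sq2 (f := fun z => v z - Q ((z - s) / l) / Real.sqrt l) (hv.sub hq)
    rw [intervalIntegral.integral_of_le (by linarith)]
    refine (setIntegral_le_integral hi (Eventually.of_forall fun z => sq_nonneg _)).trans
      (le_of_eq ?_)
    have h1 := integral_comp_affine
      (fun z => (v z - Q ((z - s) / l) / Real.sqrt l) ^ 2) hl s
    rw [eq_div_iff hl.ne', mul_comm, ← integral_const_mul] at h1
    rw [← h1]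
    refine integral_congr_ae (Eventually.of_forall fun y => ?_)
    have : (l * y + s - s) / l = y := by field_simp; ring
    simp only [this]
    nth_rewrite 1 [← hs]
    field_simp

theorem single_Refl (hc : ConsStmt) {t0 : ℝ} {u ux : ℝ → ℝ → ℝ} {lam sig : ℝ → ℝ} {x0 : ℝ}
    (h0 : 0 < t0) (hs : IsSol (Ioc 0 t0) u ux) (hb : Bubble t0 u lam sig x0)
    (hm : (∫ x, u t0 x ^ 2) < 2 * ∫ y, Q y ^ 2) : Single u lam sig := by
  obtain ⟨m, hm'⟩ : ∃ m, m = ∫ x, u t0 x ^ 2 := ⟨_, rfl⟩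
  obtain ⟨q, hq⟩ : ∃ q, q = ∫ y, Q y ^ 2 := ⟨_, rfl⟩
  have m0 : 0 ≤ m := hm' ▸ integral_nonneg fun y => sq_nonneg _
  rw [← hm', ← hq] at hm
  have q0 : 0 < 2 * q + 1 := by linarith
  obtain ⟨δ, hδ⟩ : ∃ δ, δ = (2 * q - m) / (2 * (2 * q + 1)) := ⟨_, rfl⟩
  have d0 : 0 < δ := hδ ▸ div_pos (by linarith) (by linarith)
  have d1 : δ * (2 * q + 1) = (2 * q - m) / 2 := by rw [hδ]; field_simp
  have d2 : 0 < 1 - δ := by nlinarith
  have hT : Tendsto (fun R : ℝ => ∫ y in (-R)..R, Q y ^ 2) atTop (𝓝 (∫ y, Q y ^ 2)) :=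
    intervalIntegral_tendsto_integral (integrable_sq2 expD_Q.memLp) tendsto_neg_atTop_atBot
      tendsto_id
  obtain ⟨R, hR1, hR⟩ := ((hT.eventually (lt_mem_nhds
    (show (∫ y, Q y ^ 2) - δ ^ 2 / 2 < ∫ y, Q y ^ 2 by
      have : 0 < δ ^ 2 / 2 := by positivity
      linarith))).and (eventually_gt_atTop 0)).exists
  refine ⟨1, (m - q + δ * q + δ) / (1 - δ), one_pos, ?_, ?_⟩
  · rw [← hq, div_lt_iff₀ d2]
    nlinarith
  · filter_upwards [(hb.conv R hR).eventually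
      (gt_mem_nhds (show (0 : ℝ) < δ ^ 2 / 2 by positivity)), Ioc_mem_nhdsGT h0] with t h1 ht x
    have hv := (hs.h1 t ht).1
    obtain ⟨k1, k2⟩ := scale_Refl hv (hb.pos t ht) (sig t) x
    have k3 := mass_Refl ((memLp_comp_affine hv (hb.pos t ht).ne' (sig t)).const_mul
      (Real.sqrt (lam t))) d0 hR h1.le (by linarith)
    have k4 := (hc _ u ux hs t t0 ht.2 fun z hz => ⟨ht.1.trans_le hz.1, hz.2⟩).1
    rw [k1, ← k4, ← hm', ← hq] at k3
    refine k2.trans ?_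
    rw [le_div_iff₀ d2, mul_comm]
    exact k3

theorem mem_Refl {t0 t : ℝ} (ht : t ∈ Ico (-t0) 0) : -t ∈ Ioc 0 t0 :=
  ⟨neg_pos.2 ht.2, neg_le.1 ht.1⟩

theorem sol_Refl {t0 : ℝ} {u ux : ℝ → ℝ → ℝ} (hs : IsSol (Ioc 0 t0) u ux) :
    IsSol (Ico (-t0) 0) (fun t x => u (-t) (-x)) (fun t x => -ux (-t) (-x)) := by
  refine ⟨fun t ht => ?_, fun t ht => ?_, fun φ h1 h2 a ha b hb => ?_⟩
  · exact ((hs.h1 _ (mem_Refl ht)).comp_affine (a := -1) (by norm_num) 0).congr
      (fun y => by simp) fun y => by simp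
  · have h1 : Tendsto (fun s : ℝ => -s) (𝓝[Ico (-t0) 0] t) (𝓝[Ioc 0 t0] (-t)) :=
      continuous_neg.continuousWithinAt.tendsto_nhdsWithin fun s h => mem_Refl h
    refine ((hs.cont _ (mem_Refl ht)).comp h1).congr fun s => ?_
    rw [Function.comp_apply, ← integral_neg_eq_self]
    refine integral_congr_ae (Eventually.of_forall fun y => ?_)
    ring
  · have hw := hs.weak (fun x => φ (-x)) (h1.comp contDiff_neg)
      (h2.comp_homeomorph (Homeomorph.neg ℝ)) _ (mem_Refl ha) _ (mem_Refl hb)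
    have e1 : ∀ s, (∫ x, u s (-x) * φ x) = ∫ x, u s x * φ (-x) := fun s => by
      rw [← integral_neg_eq_self]
      simp only [neg_neg]
    have e2 : ∀ s, (∫ x, (u s (-x) * iteratedDeriv 3 φ x + u s (-x) ^ 5 * deriv φ x)) =
        -∫ x, (u s x * iteratedDeriv 3 (fun x => φ (-x)) x +
          u s x ^ 5 * deriv (fun x => φ (-x)) x) := fun s => by
      rw [← integral_neg_eq_self, ← integral_neg]
      refine integral_congr_ae (Eventually.of_forall fun y => ?_)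
      simp only [neg_neg, iteratedDeriv_comp_neg, deriv_comp_neg, smul_eq_mul]
      ring
    rw [e1, e1, hw, intervalIntegral.integral_comp_neg fun s =>
      ∫ x, (u s (-x) * iteratedDeriv 3 φ x + u s (-x) ^ 5 * deriv φ x)]
    simp only [e2]
    rw [intervalIntegral.integral_neg, ← intervalIntegral.integral_symm]

theorem refl (hc : ConsStmt) : ReflStmt := by
  intro t0 ν u ux lam sig x0 h0 hs hr hb hm
  have hS : Single u lam sig := hm.elim (single_Refl hc h0 hs hb) id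
  have hn : Tendsto (fun s : ℝ => -s) (𝓝[<] 0) (𝓝[>] 0) := by
    simpa using tendsto_neg_nhdsLT (a := (0 : ℝ))
  have hmap : MapsTo (fun s : ℝ => -s) (Ico (-t0) 0) (Ioc 0 t0) := fun s h => mem_Refl h
  refine ⟨neg_lt_zero.2 h0, sol_Refl hs, ?_, hb.clam.comp continuous_neg.continuousOn hmap,
    (hb.csig.comp continuous_neg.continuousOn hmap).neg, fun t ht => hb.pos _ (mem_Refl ht),
    hb.lam0.comp hn, (hb.sig0.comp hn).neg, fun R hR => ?_, ?_⟩
  · obtain ⟨c, C, hc0, -, h⟩ := hr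
    refine ⟨c, C, hc0, fun t ht => ?_⟩
    have e : (∫ x, (-ux (-t) (-x)) ^ 2) = ∫ x, ux (-t) x ^ 2 := by
      rw [← integral_neg_eq_self]
      simp only [neg_neg, neg_sq]
    rw [e]
    exact h _ (mem_Refl ht)
  · refine ((hb.conv R hR).comp hn).congr fun t => ?_
    have e := intervalIntegral.integral_comp_neg (a := -R) (b := R) fun y =>
      (Real.sqrt (lam (-t)) * u (-t) (lam (-t) * y + sig (-t)) - Q y) ^ 2
    rw [neg_neg] at e
    rw [Function.comp_apply, ← e]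
    refine intervalIntegral.integral_congr fun y _ => ?_
    simp only [Q_neg]
    congr 4
    ring
  · obtain ⟨η, d, hη, hd, h⟩ := hS
    refine ⟨η, d, hη, hd, (hn.eventually h).mono fun t ht x => ?_⟩
    have e := intervalIntegral.integral_comp_neg (a := x) (b := x + η) fun z =>
      (u (-t) z - Q ((z - sig (-t)) / lam (-t)) / Real.sqrt (lam (-t))) ^ 2
    have h1 := ht (-(x + η))
    rw [show -(x + η) + η = -x by ring, ← e] at h1
    refine le_of_eq_of_le (intervalIntegral.integral_congr fun z _ => ?_) h1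
    rw [← Q_neg]
    congr 4
    ring

end Pool.Agent.MP_8339a4_an
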