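import Pool.Agent.MP_8339a4_an.S1A

/-! Step S1: the invariant region, and the decay of `D` and `μ`. -/

open MeasureTheory Filter Topology Set

namespace Pool.Agent.MP_8339a4_an

/-- The corrected mass quantity. -/
noncomputable def ThS (m : ℝ) (μ a JR JL M : ℝ → ℝ) (s : ℝ) : ℝ :=
  M s - 2 / m * (a s * (JL s + JR s)) - 8 / m ^ 2 * (μ s * JL s)

variable {κ m c C r0 r1 s1 v p : ℝ} {lam β μ D a aL JR JL M Φ : ℝ → ℝ} {R : Set ℝ}
  (H : S1H κ m c C r0 r1 s1 v lam β μ D a aL JR JL M Φ)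
include H

theorem S1H.OD_of (h : ∀ᶠ s in FR R, Φ s ≤ s ^ (-(7 : ℝ) / 5)) : OP R D (-7 / 5) := by
  refine (OP.cmul c⁻¹ ((OP.pw R (-(7 : ℝ) / 5)).add
    (OP.cmul C ((OP.Lu R).mono (by norm_num))))).of_le ?_
  filter_upwards [h, FR.gt R s1] with s h1 hs
  rw [abs_of_nonneg (H.hD s hs).2.1, ← div_eq_inv_mul, le_div_iff₀ H.hc]
  linarith [(H.hΦ s hs).2.1]

omit H in
theorem ODu_s1 (hD : OP R D (-7 / 5)) :
    OP R (fun s => C * (D s + s ^ (-(3 : ℝ) / 2))) (-7 / 5) :=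
  OP.cmul C (hD.add ((OP.u32 R).mono (by norm_num)))

omit H in
theorem OLDu_s1 (hD : OP R D (-7 / 5)) :
    OP R (fun s => C * (Lm s * D s + s ^ (-(3 : ℝ) / 2))) (-139 / 100) :=
  OP.cmul C (((OP.lm R).mul hD (by norm_num)).add ((OP.u32 R).mono (by norm_num)))

theorem S1H.OX (hD : OP R D (-7 / 5)) :
    OP R (fun s => (M s - 2 * μ s) - 2 / m * (a s * (JL s + JR s))) (-139 / 100) :=
  ((OLDu_s1 hD).of_le ((FR.gt R s1).mono fun s hs => (H.hJ s hs).2)).sub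
    (OP.cmul _ ((H.Oa R).mul ((H.OJL hD (q := -139 / 200) (by norm_num)).add
      (H.OJR hD (by norm_num))) (by norm_num)))

theorem S1H.Oμ_of (hD : OP R D (-7 / 5)) {u : ℝ → ℝ} (hu : OP R u p) (hp : -139 / 100 ≤ p)
    (h : ∀ᶠ s in FR R, ThS m μ a JR JL M s ≤ u s) : OP R μ p := by
  refine ((hu.abs.add ((H.OX hD).abs.mono hp)).add
    ((ODu_s1 (C := C) hD).mono (by linarith))).of_le ?_
  filter_upwards [h, FR.gt R s1, (OP.cmul (8 / m ^ 2) (H.OJL hD (q := -139 / 200)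
    (by norm_num))).small0 (by norm_num) one_pos] with s h1 hs h2
  have h3 := (H.hμ s hs).2
  have h4 : 0 ≤ C * (D s + s ^ (-(3 : ℝ) / 2)) :=
    mul_nonneg H.C0 (add_nonneg (H.hD s hs).2.1 (H.u_pos hs).le)
  have h5 := le_abs_self (u s)
  have h6 := neg_abs_le ((M s - 2 * μ s) - 2 / m * (a s * (JL s + JR s)))
  have h7 := abs_nonneg (u s)
  have h8 := abs_nonneg ((M s - 2 * μ s) - 2 / m * (a s * (JL s + JR s)))
  rcases abs_cases (μ s) with h9 | h9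
  · have h10 := mul_le_mul_of_nonneg_left ((le_abs_self _).trans h2.le) h9.2
    unfold ThS at h1
    linarith [h9.1]
  · linarith [h9.1]

theorem S1H.OTh (hD : OP R D (-7 / 5)) (hμ : OP R μ (-7 / 10)) :
    OP R (fun s => ThS m μ a JR JL M s - 2 * μ s) (-139 / 100) :=
  ((H.OX hD).sub (OP.cmul (8 / m ^ 2) (hμ.mul (H.OJL hD (q := -139 / 200) (by norm_num))
    (by norm_num)))).congr (Eventually.of_forall fun s => by unfold ThS; ring)

theorem S1H.Th_deriv {s : ℝ} (hs : s1 < s) :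
    HasDerivAt (fun z => ThS m μ a JR JL M z * (lam z)⁻¹ ^ 2)
      ((deriv M s - 2 / m * (deriv a s * (JL s + JR s) + a s * (deriv JL s + deriv JR s))
        - 8 / m ^ 2 * (deriv μ s * JL s + μ s * deriv JL s) + 2 * β s * ThS m μ a JR JL M s)
        * (lam s)⁻¹ ^ 2) s := by
  obtain ⟨⟨_, h1, -⟩, -⟩ := H.hμ s hs
  obtain ⟨⟨_, h2, -⟩, -⟩ := H.ha s hs
  obtain ⟨_, h3, -⟩ := H.hR s hs
  obtain ⟨_, h4, -⟩ := H.hL s hs
  obtain ⟨_, h5, -⟩ := H.hM s hs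
  have h6 := H.lam_pos hs
  have h7 := ((H.hlam s hs).1.fun_inv h6.ne').fun_pow 2
  have h8 : HasDerivAt (ThS m μ a JR JL M) _ s :=
    (h5.fun_sub ((h2.fun_mul (h4.fun_add h3)).const_mul (2 / m))).fun_sub
      ((h1.fun_mul h4).const_mul (8 / m ^ 2))
  refine (h8.fun_mul h7).congr_deriv ?_
  rw [h1.deriv, h2.deriv, h3.deriv, h4.deriv, h5.deriv, show 2 - 1 = 1 from rfl, pow_one]
  have h9 := h6.ne'
  field_simp
  ring

theorem S1H.dTh (hD : OP R D (-7 / 5)) (hμ : OP R μ (-7 / 10)) :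
    ∃ E : ℝ → ℝ, OP R E (2 * κ - 209 / 100) ∧ ∀ s, s1 < s →
      ∃ k, HasDerivAt (fun z => ThS m μ a JR JL M z * (lam z)⁻¹ ^ 2) k s ∧ k ≤ E s := by
  have hJL := H.OJL hD (q := -139 / 200) (by norm_num)
  have hJR := H.OJR hD (q := -139 / 200) (by norm_num)
  have hβ := H.Oβ hD (q := -7 / 10) (by norm_num)
  have heR : OP R (fun s => deriv JR s
      - (2 * μ s - m ^ 2 / 2 * β s + m * a s + β s * JR s / 2)) (-7 / 5) :=
    (ODu_s1 hD).of_le ((FR.gt R s1).mono fun s hs => by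
      obtain ⟨_, h1, h2⟩ := H.hR s hs
      rw [h1.deriv]; exact h2)
  have heL : OP R (fun s => deriv JL s - (2 * μ s + m ^ 2 / 2 * β s + m * aL s)) (-139 / 100) :=
    (OLDu_s1 hD).of_le ((FR.gt R s1).mono fun s hs => by
      obtain ⟨_, h1, h2⟩ := H.hL s hs
      rw [h1.deriv]; exact h2)
  have ha' : OP R (deriv a) (-7 / 5) :=
    (ODu_s1 hD).of_le ((FR.gt R s1).mono fun s hs => by
      obtain ⟨⟨_, h1, h2⟩, -⟩ := H.ha s hs
      rw [h1.deriv]; exact h2)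
  have hμ' : OP R (deriv μ) (-7 / 5) :=
    (OP.cmul C hD).of_le ((FR.gt R s1).mono fun s hs => by
      obtain ⟨⟨_, h1, h2⟩, -⟩ := H.hμ s hs
      rw [h1.deriv]; exact h2)
  have hE1 : OP R (fun s => C * (s ^ (-(9 : ℝ) / 4) + Lm s * ((Real.sqrt (D s) + 1 / s)
      * (D s + s ^ (-(3 : ℝ) / 2)) + D s ^ 2))) (-209 / 100) :=
    OP.cmul C (((OP.pw R _).mono (by norm_num)).add ((OP.lm R).mul (q := -21 / 10)
      ((((hD.sqrt (p := -7 / 10) (by norm_num)).add ((OP.inv R).mono (by norm_num))).mul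
        (hD.add ((OP.u32 R).mono (by norm_num))) (by norm_num)).add (hD.sq (by norm_num)))
      (by norm_num)))
  have hE2 := (H.Oa R).mul (r := -209 / 100) (((OP.cmul (1 / 2) (hβ.mul (r := -139 / 100) hJR
    (by norm_num))).add (heR.mono (by norm_num))).add heL) (by norm_num)
  have hE := ((((OP.cmul 2 (hβ.mul (r := -209 / 100) (H.OTh hD hμ) (by norm_num))).add hE1).sub
    (OP.cmul (2 / m) hE2)).sub (OP.cmul (8 / m ^ 2) (hμ.mul heL (by norm_num)))).sub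
    ((OP.cmul (2 / m) (ha'.mul (hJL.add hJR) (by norm_num))).add
      (OP.cmul (8 / m ^ 2) (hμ'.mul hJL (by norm_num))))
  refine ⟨_, hE.mul ((H.Oinv R).sq le_rfl) (by linarith), fun s hs => ⟨_, H.Th_deriv hs, ?_⟩⟩
  refine mul_le_mul_of_nonneg_right ?_ (sq_nonneg _)
  obtain ⟨M', h1, h2⟩ := H.hM s hs
  have h3 := h2 (-(a s) - 4 * μ s / m)
  rw [h1.deriv]
  have hm := H.hm
  refine le_of_sub_nonneg (le_of_le_of_eq (sub_nonneg.2 h3) ?_)
  field_simp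
  ring

theorem S1H.part2
    (hfr : ∃ᶠ s in atTop, Φ s ≤ s ^ (-(7 : ℝ) / 5) ∧ |μ s| ≤ s ^ (-(73 : ℝ) / 100)) :
    OP univ D (-7 / 5) ∧ OP univ μ (-21 / 20) := by
  have hC := H.C0
  have hc := H.hc
  have hκ := H.hκ
  set T : ℝ → ℝ := fun z => ThS m μ a JR JL M z * (lam z)⁻¹ ^ 2 with hT
  have hTh : ∀ s, s1 < s → ∀ w, T s ≤ w → ThS m μ a JR JL M s ≤ lam s ^ 2 * w := by
    intro s hs w h
    have h1 := H.lam_pos hs
    have h2 := mul_le_mul_of_nonneg_left h (sq_nonneg (lam s))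
    refine le_of_eq_of_le ?_ h2
    simp only [hT]
    field_simp
  set R : Set ℝ := {s | Φ s - s ^ (-(7 : ℝ) / 5) ≤ 0 ∧ T s - s ^ (2 * κ - 18 / 25) ≤ 0} with hR
  have hpw : ∀ (q s : ℝ), s1 < s → HasDerivAt (fun z : ℝ => z ^ q) (q * s ^ (q - 1)) s :=
    fun q s hs => Real.hasDerivAt_rpow_const (Or.inl (H.pos hs).ne')
  have hfr' : ∃ᶠ s in atTop, s ∈ R := by
    set R1 : Set ℝ := {s | Φ s ≤ s ^ (-(7 : ℝ) / 5) ∧ |μ s| ≤ s ^ (-(73 : ℝ) / 100)} with hR1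
    have hD : OP R1 D (-7 / 5) := H.OD_of ((FR.mem R1).mono fun s hs => hs.1)
    have hμ : OP R1 μ (-73 / 100) := (OP.pw R1 _).of_le ((FR.mem R1).mono fun s hs => hs.2)
    have h1 : OP R1 (ThS m μ a JR JL M) (-73 / 100) :=
      (((H.OTh hD (hμ.mono (by norm_num))).mono (by norm_num)).add (OP.cmul 2 hμ)).congr
        (Eventually.of_forall fun s => by ring)
    have h2 : OP R1 T (2 * κ - 73 / 100) := h1.mul ((H.Oinv R1).sq le_rfl) (by linarith)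
    have h3 : ∀ᶠ s in FR R1, s ∈ R := by
      filter_upwards [FR.mem R1, h2.small (q := 2 * κ - 18 / 25) (by linarith) one_pos]
        with s h4 h5
      exact ⟨sub_nonpos.2 h4.1, by linarith [le_abs_self (T s)]⟩
    exact (hfr.and_eventually (FR.out h3)).mono fun s hs => hs.2 hs.1
  have hD : OP R D (-7 / 5) := H.OD_of ((FR.mem R).mono fun s hs => sub_nonpos.1 hs.1)
  have hμ : OP R μ (-18 / 25) := by
    refine H.Oμ_of hD (((H.Olam R).sq le_rfl).mul (OP.pw R (2 * κ - 18 / 25)) (by linarith))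
      (by norm_num) ?_
    filter_upwards [FR.mem R, FR.gt R s1] with s h1 hs
    exact hTh s hs _ (sub_nonpos.1 h1.2)
  obtain ⟨E, hE, hEd⟩ := H.dTh hD (hμ.mono (by norm_num))
  obtain ⟨δ, hδ, hδ1⟩ : ∃ δ : ℝ, 0 < δ ∧ δ * (C + 1) = c :=
    ⟨c / (C + 1), by positivity, by field_simp⟩
  have hF : OP R (fun s => δ * C * (Lm s * s ^ (-(3 : ℝ) / 2))
      + C * (μ s ^ 2 + Lm s * s ^ (-(3 : ℝ) / 2))
      - -(7 : ℝ) / 5 * s ^ (-(7 : ℝ) / 5 - 1)) (-36 / 25) :=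
    ((OP.cmul _ ((OP.Lu R).mono (by norm_num))).add
      (OP.cmul C ((hμ.sq (by norm_num)).add ((OP.Lu R).mono (by norm_num))))).sub
      (OP.cmul _ ((OP.pw R _).mono (by norm_num)))
  have hd : ∀ᶠ s in FR R, (Φ s - s ^ (-(7 : ℝ) / 5) = 0 →
      ∃ k < 0, DiniLe (fun z => Φ z - z ^ (-(7 : ℝ) / 5)) s k) ∧
      (T s - s ^ (2 * κ - 18 / 25) = 0 →
        ∃ k < 0, DiniLe (fun z => T z - z ^ (2 * κ - 18 / 25)) s k) := by
    filter_upwards [FR.gt R s1, hF.small (q := -(7 : ℝ) / 5) (by norm_num) hδ,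
      hE.small (q := 2 * κ - 18 / 25 - 1) (by linarith) (by linarith : 0 < 2 * κ - 18 / 25)]
      with s hs h1 h2
    obtain ⟨-, -, h3, h4⟩ := H.hΦ s hs
    obtain ⟨k, h5, h6⟩ := hEd s hs
    refine ⟨fun h => ⟨_, ?_, h4.sub_hasDerivAt (hpw _ s hs)⟩,
      fun _ => ⟨_, ?_, DiniLe.of_hasDerivAt (h5.fun_sub (hpw _ s hs))⟩⟩
    · have hD0 := (H.hD s hs).2.1
      have h7 := mul_le_mul_of_nonneg_left h3 hδ.le
      have h8 := (le_abs_self _).trans_lt h1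
      have h9 : δ * (C + 1) * D s = c * D s := by rw [hδ1]
      have h10 := mul_nonneg hδ.le hD0
      rw [sub_eq_zero.1 h] at h7
      linarith
    · linarith [le_abs_self (E s)]
  have hall : ∀ᶠ s in atTop, s ∈ R :=
    region_s1 (f := fun z => Φ z - z ^ (-(7 : ℝ) / 5)) (g := fun z => T z - z ^ (2 * κ - 18 / 25))
      ((eventually_gt_atTop s1).mono fun s hs =>
        ⟨(H.hΦ s hs).1.sub (hpw _ s hs).continuousAt,
          (H.Th_deriv hs).continuousAt.sub (hpw _ s hs).continuousAt⟩) hfr' (FR.out hd)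
  have hD' : OP univ D (-7 / 5) := hD.of_ev (FR.ev hall)
  refine ⟨hD', ?_⟩
  obtain ⟨K, hK⟩ := dini_bdd_s1 (f := fun z => T z - z ^ (2 * κ - 21 / 20)) (by
    filter_upwards [eventually_gt_atTop s1, FR.top ((hE.of_ev (FR.ev hall)).small
      (q := 2 * κ - 21 / 20 - 1) (by linarith) (by linarith : 0 < 2 * κ - 21 / 20))] with s hs h1
    obtain ⟨k, h5, h6⟩ := hEd s hs
    have h7 := h5.fun_sub (hpw (2 * κ - 21 / 20) s hs)
    exact ⟨h7.continuousAt, (DiniLe.of_hasDerivAt h7).mono (by linarith [le_abs_self (E s)])⟩)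
  refine H.Oμ_of hD' (((H.Olam univ).sq le_rfl).mul (((OP.const univ K).mono (by linarith)).add
    (OP.pw univ (2 * κ - 21 / 20))) (by linarith)) (by norm_num) ?_
  filter_upwards [FR.ev hK, FR.gt univ s1] with s h1 hs
  exact hTh s hs _ (by linarith)

end Pool.Agent.MP_8339a4_an
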