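import Pool.Agent.MP_8339a4_an.S1B
import Pool.Agent.MP_8339a4_an.S1C

/-! Step S1: the exponent equals two. -/

open MeasureTheory Filter Topology Set

namespace Pool.Agent.MP_8339a4_an

section

variable {κ m c C r0 r1 s1 v : ℝ} {lam β μ D a aL JR JL M Φ : ℝ → ℝ}
  (H : S1H κ m c C r0 r1 s1 v lam β μ D a aL JR JL M Φ)
include H

theorem S1H.small_a {η : ℝ} (hη : 0 < η) :
    ∀ᶠ s in atTop, |m * (a s - v * Real.sqrt (lam s))| ≤ η * (1 / s) := by
  obtain ⟨K, hK0, hK⟩ := (OP.cmul m (((H.Olam univ).sqrt (p := -κ / 2) (by linarith)).mul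
    (OP.pw univ (-((κ - 1) / 2))) (r := -1) (by linarith [H.hκ]))).ex
  have h0 := (H.hv.abs.mul_const K).eventually (gt_mem_nhds (a := η) (by simpa using hη))
  filter_upwards [FR.top hK, h0, eventually_gt_atTop s1] with s h1 h2 hs
  have h3 := H.pos hs
  have h4 := Real.sqrt_pos.2 (H.lam_pos hs)
  have h5 := Real.rpow_pos_of_pos h3 ((κ - 1) / 2)
  have e : m * (a s - v * Real.sqrt (lam s))
      = ((a s / Real.sqrt (lam s) - v) * s ^ ((κ - 1) / 2))
        * (m * (Real.sqrt (lam s) * s ^ (-((κ - 1) / 2)))) := by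
    rw [Real.rpow_neg h3.le]
    field_simp
  rw [e, abs_mul]
  rw [Real.rpow_neg_one, ← one_div] at h1
  calc _ ≤ |(a s / Real.sqrt (lam s) - v) * s ^ ((κ - 1) / 2)| * (K * (1 / s)) :=
        mul_le_mul_of_nonneg_left h1 (abs_nonneg _)
    _ = (|(a s / Real.sqrt (lam s) - v) * s ^ ((κ - 1) / 2)| * K) * (1 / s) := by ring
    _ ≤ η * (1 / s) := mul_le_mul_of_nonneg_right h2.le (by positivity)

theorem S1H.step3 (hD : OP univ D (-7 / 5)) (hμ : OP univ μ (-21 / 20)) : κ = 2 := by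
  have hκ := H.hκ
  have hm := H.hm
  have hJR := H.OJR hD (q := -139 / 200) (by norm_num)
  have hβ := H.Oβ hD (q := -7 / 10) (by norm_num)
  set W : ℝ → ℝ := fun s => JR s - m ^ 2 / 2 * Real.log (lam s * s ^ κ) with hW
  have hWO : OP univ W 0 := by
    refine (hJR.mono (by norm_num)).sub (OP.cmul _
      ((OP.const univ (|Real.log r0| + |Real.log r1|)).of_le ?_))
    filter_upwards [FR.gt univ s1] with s hs
    obtain ⟨-, h1, h2⟩ := H.hlam s hs
    have h3 := Real.log_le_log H.hr0 h1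
    have h4 := Real.log_le_log (H.hr0.trans_le h1) h2
    rw [abs_le]
    constructor <;>
      linarith [neg_abs_le (Real.log r0), le_abs_self (Real.log r1), abs_nonneg (Real.log r0),
        abs_nonneg (Real.log r1)]
  have heR : OP univ (fun s => deriv JR s
      - (2 * μ s - m ^ 2 / 2 * β s + m * a s + β s * JR s / 2)) (-7 / 5) :=
    (ODu_s1 hD).of_le ((FR.gt univ s1).mono fun s hs => by
      obtain ⟨_, h1, h2⟩ := H.hR s hs
      rw [h1.deriv]; exact h2)
  have hE := ((OP.cmul 2 hμ).add (OP.cmul (1 / 2) (hβ.mul hJR (by norm_num)))).add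
    (heR.mono (by norm_num))
  obtain ⟨δ, hδ, hδ1⟩ : ∃ δ : ℝ, 0 < δ ∧ 4 * δ = m ^ 2 / 2 * κ :=
    ⟨m ^ 2 / 2 * κ / 4, by positivity, by ring⟩
  have hWd : ∀ᶠ s in atTop, ∃ k, HasDerivAt W k s ∧
      |k - (m * v * Real.sqrt (lam s) - 4 * δ * (1 / s))| ≤ 2 * δ * (1 / s) := by
    filter_upwards [eventually_gt_atTop s1, H.small_a hδ,
      FR.top (hE.small (q := -1) (by norm_num) hδ)] with s hs h1 h2
    obtain ⟨J', h3, -⟩ := H.hR s hs
    have h0 := H.pos hs
    have h4 := H.hr0.trans_le (H.hlam s hs).2.1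
    have h5 := ((H.hlam s hs).1.fun_mul
      (Real.hasDerivAt_rpow_const (p := κ) (Or.inl h0.ne'))).log h4.ne'
    refine ⟨_, h3.fun_sub (h5.const_mul (m ^ 2 / 2)), ?_⟩
    have e : (-β s * lam s * s ^ κ + lam s * (κ * s ^ (κ - 1))) / (lam s * s ^ κ)
        = -β s + κ * (1 / s) := by
      have h6 := (H.lam_pos hs).ne'
      have h7 := (Real.rpow_pos_of_pos h0 κ).ne'
      rw [Real.rpow_sub_one h0.ne']
      field_simp
    rw [Real.rpow_neg_one, ← one_div, h3.deriv] at h2
    rw [e, hδ1]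
    have h8 := abs_le.1 h1
    have h9 := abs_lt.1 h2
    rw [abs_le]
    constructor <;> linarith [h8.1, h8.2, h9.1, h9.2]
  have key : (∀ᶠ s in atTop, m * v * Real.sqrt (lam s) ≤ δ * (1 / s)) → False := fun h => by
    refine dini_log_s1 hδ hWO ?_
    filter_upwards [h, hWd] with s h1 ⟨k, h2, h3⟩
    exact ⟨k, h2, by linarith [(abs_le.1 h3).2]⟩
  by_contra hne
  rcases lt_or_gt_of_ne hne with h | h
  · rcases le_or_gt (m * v) 0 with h' | h'
    · refine key ?_
      filter_upwards [eventually_gt_atTop 0] with s hs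
      exact (mul_nonpos_of_nonpos_of_nonneg h' (Real.sqrt_nonneg _)).trans (by positivity)
    · refine dini_log_s1 hδ (OP.cmul (-1) hWO) ?_
      filter_upwards [hWd, eventually_gt_atTop s1, FR.top (((H.Oinv univ).sqrt (p := κ / 2)
        (by linarith)).small (q := 1) (by linarith) (by positivity : 0 < m * v / (7 * δ)))]
        with s ⟨k, h2, h3⟩ hs h4
      refine ⟨_, h2.const_mul (-1), ?_⟩
      have h5 := H.pos hs
      have h6 := Real.sqrt_pos.2 (H.lam_pos hs)
      rw [Real.rpow_one, Real.sqrt_inv, abs_of_pos (inv_pos.2 h6), inv_lt_iff_one_lt_mul₀ h6] at h4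
      have h7 : 7 * δ * (1 / s) ≤ m * v * Real.sqrt (lam s) := by
        rw [mul_one_div, div_le_iff₀ h5]
        have := mul_lt_mul_of_pos_left h4 (by positivity : 0 < 7 * δ)
        have e : 7 * δ * (m * v / (7 * δ) * s * Real.sqrt (lam s))
            = m * v * Real.sqrt (lam s) * s := by field_simp
        linarith
      linarith [(abs_le.1 h3).1]
  · refine key ?_
    filter_upwards [FR.top ((OP.cmul (m * v) ((H.Olam univ).sqrt (p := -κ / 2)
      (by linarith))).small (q := -1) (by linarith) hδ)] with s h1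
    rw [Real.rpow_neg_one, ← one_div] at h1
    exact (le_abs_self _).trans h1.le

end

theorem s1 : S1Stmt := by
  intro κ m c C r0 r1 s1 v lam β μ D a aL JR JL M Φ h1 h2 h3 h4 h5 h6 h7 h8 h9 h10 h11 h12 h13
    h14 h15 h16
  have H : S1H κ m c C r0 r1 s1 v lam β μ D a aL JR JL M Φ :=
    ⟨h1, h2, h3, h4, h5, h6, h7, h8, h9, h10, h11, h12, h13, h14, h15, h16⟩
  exact H.step3 (H.part2 H.part1).1 (H.part2 H.part1).2

end Pool.Agent.MP_8339a4_an
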