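import Pool.Agent.MP_8339a4_an.Api

/-! The scalar lemma S2, by a Lyapunov function. -/

open MeasureTheory Filter Topology Set

namespace Pool.Agent.MP_8339a4_an

noncomputable section

theorem anti_S2 {s1 : ℝ} {f : ℝ → ℝ} (h : ∀ s, s1 < s → ContinuousAt f s ∧ DiniLe f s 0)
    {S T : ℝ} (hS : s1 < S) (hT : S ≤ T) : f T ≤ f S := by
  have := dini_le_integral (f := f) (g := fun _ => 0) hT
    (fun x hx => (h x (hS.trans_le hx.1)).1.continuousWithinAt) continuousOn_const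
    fun x hx => (h x (hS.trans_le hx.1)).2
  simpa using this

theorem conv_S2 {s1 p A : ℝ} {v Ψ : ℝ → ℝ} (h1 : 1 ≤ s1) (hp : 0 ≤ p)
    (h0 : ∀ s, s1 < s → 0 ≤ Ψ s) (ha : ∀ S T, s1 < S → S ≤ T → Ψ T ≤ Ψ S)
    (hv : ∀ θ, 0 < θ → ∀ S T, s1 < S → S ≤ T →
      |v T - v S| ≤ θ * (Ψ S - Ψ T) + A / θ * ((S ^ p)⁻¹) ^ 2) :
    ∃ w : ℝ, Tendsto (fun s => (v s - w) * s ^ p) atTop (𝓝 0) := by
  have hne : (Ψ '' Ioi s1).Nonempty := ⟨_, s1 + 1, by simp, rfl⟩
  have hb : BddBelow (Ψ '' Ioi s1) := ⟨0, by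
    rintro _ ⟨s, hs, rfl⟩
    exact h0 s hs⟩
  have key : ∀ ε, 0 < ε → ∃ N, s1 < N ∧ ∀ S, N ≤ S → ∀ T, S ≤ T →
      |v T - v S| * S ^ p ≤ ε := by
    intro ε hε
    have hM : 0 < 2 * (|A| + 1) / ε := by positivity
    set M := 2 * (|A| + 1) / ε with hM'
    obtain ⟨_, ⟨N, hN, rfl⟩, hlt⟩ := exists_lt_of_csInf_lt hne
      (lt_add_of_pos_right (sInf (Ψ '' Ioi s1)) (show 0 < ε / 2 / M by positivity))
    refine ⟨N, hN, fun S hS T hT => ?_⟩
    have hS1 : s1 < S := lt_of_lt_of_le hN hS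
    have hq : 0 < S ^ p := Real.rpow_pos_of_pos (by linarith) p
    have h2 := hv (M * (S ^ p)⁻¹) (by positivity) S T hS1 hT
    have h3 : sInf (Ψ '' Ioi s1) ≤ Ψ T := csInf_le hb ⟨T, hS1.trans_le hT, rfl⟩
    have h4 := ha N S hN hS
    have h5 : M * (Ψ S - Ψ T) ≤ ε / 2 := by
      have : M * (Ψ S - Ψ T) ≤ M * (ε / 2 / M) :=
        mul_le_mul_of_nonneg_left (by linarith) hM.le
      rwa [mul_div_cancel₀ _ hM.ne'] at this
    have h6 : A / M ≤ ε / 2 := by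
      rw [div_le_iff₀ hM, hM']
      have : ε / 2 * (2 * (|A| + 1) / ε) = |A| + 1 := by field_simp
      linarith [le_abs_self A]
    have h7 : (M * (S ^ p)⁻¹ * (Ψ S - Ψ T) + A / (M * (S ^ p)⁻¹) * ((S ^ p)⁻¹) ^ 2) * S ^ p =
        M * (Ψ S - Ψ T) + A / M := by field_simp
    have := mul_le_mul_of_nonneg_right h2 hq.le
    linarith
  have hc : Cauchy (map v atTop) := by
    refine Metric.cauchy_iff.2 ⟨inferInstance, fun ε hε => ?_⟩
    obtain ⟨N, hN, h⟩ := key (ε / 4) (by positivity)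
    refine ⟨v '' Ici N, image_mem_map (Ici_mem_atTop N), ?_⟩
    have h2 : ∀ T, N ≤ T → |v T - v N| ≤ ε / 4 := fun T hT => by
      have h3 := h N le_rfl T hT
      have h4 : 1 ≤ N ^ p := Real.one_le_rpow (by linarith) hp
      nlinarith [abs_nonneg (v T - v N)]
    rintro _ ⟨x, hx, rfl⟩ _ ⟨y, hy, rfl⟩
    have h3 := abs_le.1 (h2 x hx)
    have h4 := abs_le.1 (h2 y hy)
    rw [Real.dist_eq, abs_lt]
    constructor <;> linarith [h3.1, h3.2, h4.1, h4.2]
  obtain ⟨w, hw⟩ := cauchy_map_iff_exists_tendsto.1 hc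
  refine ⟨w, Metric.tendsto_atTop.2 fun ε hε => ?_⟩
  obtain ⟨N, hN, h⟩ := key (ε / 2) (by positivity)
  refine ⟨N, fun S hS => ?_⟩
  have hq : 0 < S ^ p := Real.rpow_pos_of_pos (by linarith) p
  have h2 : |w - v S| * S ^ p ≤ ε / 2 :=
    le_of_tendsto (((hw.sub_const (v S)).abs).mul_const _)
      ((eventually_ge_atTop S).mono fun T hT => h S hS T hT)
  rw [Real.dist_eq, sub_zero, abs_mul, abs_of_pos hq, abs_sub_comm]
  linarith

theorem tau_S2 {κ r0 s L : ℝ} (hκ : 0 ≤ κ) (h0 : 0 < r0) (hs : 1 ≤ s) (hL : r0 ≤ L * s ^ κ) :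
    0 < L ∧ 0 < s ^ (-(2 * κ + 10)) ∧ s ^ (-(2 * κ + 10)) ≤ (s ^ 2)⁻¹ ∧
      s ^ (-(2 * κ + 10)) * (L ^ 2)⁻¹ ≤ (r0 ^ 2)⁻¹ * (s ^ 2)⁻¹ := by
  have hs0 : 0 < s := by linarith
  have hq : 0 < s ^ κ := Real.rpow_pos_of_pos hs0 κ
  have hτ : 0 < s ^ (-(2 * κ + 10)) := Real.rpow_pos_of_pos hs0 _
  have hL0 : 0 < L := (pos_iff_pos_of_mul_pos (h0.trans_le hL)).2 hq
  have e2 : (s ^ 2)⁻¹ = s ^ (-2 : ℝ) := by
    rw [Real.rpow_neg hs0.le, Real.rpow_two]
  have e3 : s ^ (-(2 * κ + 10)) * (s ^ κ) ^ 2 ≤ (s ^ 2)⁻¹ := by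
    rw [e2, sq, ← Real.rpow_add hs0, ← Real.rpow_add hs0]
    exact Real.rpow_le_rpow_of_exponent_le hs (by linarith)
  refine ⟨hL0, hτ, ?_, ?_⟩
  · rw [e2]
    exact Real.rpow_le_rpow_of_exponent_le hs (by linarith)
  · have h1 : r0 ^ 2 ≤ (L * s ^ κ) ^ 2 := pow_le_pow_left₀ h0.le hL 2
    have h2 : (L ^ 2)⁻¹ ≤ (r0 ^ 2)⁻¹ * (s ^ κ) ^ 2 := by
      rw [inv_mul_eq_div, inv_eq_one_div, div_le_div_iff₀ (by positivity) (by positivity)]
      nlinarith
    calc _ ≤ s ^ (-(2 * κ + 10)) * ((r0 ^ 2)⁻¹ * (s ^ κ) ^ 2) :=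
          mul_le_mul_of_nonneg_left h2 hτ.le
      _ = (r0 ^ 2)⁻¹ * (s ^ (-(2 * κ + 10)) * (s ^ κ) ^ 2) := by ring
      _ ≤ _ := mul_le_mul_of_nonneg_left e3 (by positivity)

theorem vder_S2 {lam a : ℝ → ℝ} {s b a' C g : ℝ} (hL : 0 < lam s)
    (h1 : HasDerivAt lam (-b * lam s) s) (h2 : HasDerivAt a a' s)
    (h3 : |a' + b * a s / 2| ≤ C * g) :
    ∃ v', HasDerivAt (fun z => a z / Real.sqrt (lam z)) v' s ∧
      |v'| ≤ C * Real.sqrt (lam s) * (g / lam s) := by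
  have hr : 0 < Real.sqrt (lam s) := Real.sqrt_pos.2 hL
  have h4 := h2.div (h1.sqrt hL.ne') hr.ne'
  refine ⟨(a' + b * a s / 2) / Real.sqrt (lam s), ?_, ?_⟩
  · refine h4.congr_deriv ?_
    have := Real.sq_sqrt hL.le
    set r := Real.sqrt (lam s)
    rw [← this]
    field_simp
    ring
  · rw [abs_div, abs_of_pos hr, div_le_iff₀ hr]
    have := Real.sq_sqrt hL.le
    set r := Real.sqrt (lam s)
    rw [← this]
    have e : C * r * (g / r ^ 2) * r = C * g := by field_simp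
    rwa [e]

/-- The algebra of the Lyapunov inequality. -/
theorem alg_S2 {C ρ σ τ r f a v v' g H X m' : ℝ} (hC : 0 ≤ C) (hρ : 0 ≤ ρ) (hσ : 0 ≤ σ)
    (hσ1 : σ ≤ 1) (hτ : 0 < τ) (hτ1 : τ ≤ σ) (hr : 0 < r) (hτ2 : τ * ((r ^ 2) ^ 2)⁻¹ ≤ ρ * σ)
    (hf : 0 ≤ f) (ha : a = v * r) (hg : g = (Real.sqrt f + τ) / r ^ 2)
    (hv : |v'| ≤ C * r * g) (hH : v ^ 4 + 1 ≤ H) (hX : 1 ≤ X)
    (hm : m' ≤ -(a ^ 2 / 4) + C * τ) :
    ((-(f / 8) + C * (a ^ 6 + τ)) * ((r ^ 2) ^ 2)⁻¹ + (C + 1) * (4 * v ^ 3 * v')) * X +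
      H * (X * (4 * (C + 128 * (C + 1) ^ 2 * C ^ 2) * m' -
        (4 * (C + 128 * (C + 1) ^ 2 * C ^ 2) * C + (C + 1) * ρ) * σ)) ≤ -(g ^ 2 / 32) := by
  set C1 := C + 128 * (C + 1) ^ 2 * C ^ 2 with hC1
  have hC1' : 0 ≤ C1 := by positivity
  set i := ((r ^ 2) ^ 2)⁻¹ with hi
  have hi0 : 0 < i := by positivity
  have g0 : 0 ≤ g := by rw [hg]; positivity
  have g1 : g ^ 2 ≤ 2 * (f * i) + 2 * (ρ * σ) := by
    have e : g ^ 2 = (Real.sqrt f + τ) ^ 2 * i := by rw [hg, hi]; field_simp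
    have h1 : (Real.sqrt f + τ) ^ 2 ≤ 2 * f + 2 * τ := by
      nlinarith [Real.sq_sqrt hf, sq_nonneg (Real.sqrt f - τ)]
    have := mul_le_mul_of_nonneg_right h1 hi0.le
    linarith
  have a6 : a ^ 6 * i = a ^ 2 * v ^ 4 := by rw [ha, hi]; field_simp
  have v1 : (C + 1) * (4 * v ^ 3 * v') ≤
      g ^ 2 / 32 + 128 * (C + 1) ^ 2 * C ^ 2 * (a ^ 2 * v ^ 4) := by
    have h1 : v ^ 3 * v' ≤ |v ^ 3| * (C * r * g) := by
      refine (le_abs_self _).trans ?_
      rw [abs_mul]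
      exact mul_le_mul_of_nonneg_left hv (abs_nonneg _)
    have h2 : a ^ 2 * v ^ 4 = (|v ^ 3| * r) ^ 2 := by rw [mul_pow, sq_abs, ha]; ring
    have h3 := mul_le_mul_of_nonneg_left h1 (show 0 ≤ 4 * (C + 1) by positivity)
    rw [h2]
    nlinarith [sq_nonneg (g - 64 * (C + 1) * C * (|v ^ 3| * r))]
  have v4 : 0 ≤ v ^ 4 := by positivity
  have h1 : (-(f / 8) + C * (a ^ 6 + τ)) * i + (C + 1) * (4 * v ^ 3 * v') ≤
      -(g ^ 2 / 32) + H * (C1 * a ^ 2 + (C + 1) * ρ * σ) := by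
    have h2 : C * (τ * i) ≤ C * (ρ * σ) := mul_le_mul_of_nonneg_left hτ2 hC
    have h3 : C1 * a ^ 2 * v ^ 4 ≤ C1 * a ^ 2 * H :=
      mul_le_mul_of_nonneg_left (by linarith) (by positivity)
    have h4 : (C + 1) * ρ * σ * 1 ≤ (C + 1) * ρ * σ * H :=
      mul_le_mul_of_nonneg_left (by linarith) (by positivity)
    have h5 : 0 ≤ ρ * σ := by positivity
    have e : (-(f / 8) + C * (a ^ 6 + τ)) * i =
        -(f * i / 8) + C * (a ^ 2 * v ^ 4) + C * (τ * i) := by rw [← a6]; ring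
    have e2 : C1 * a ^ 2 * v ^ 4 =
        C * (a ^ 2 * v ^ 4) + 128 * (C + 1) ^ 2 * C ^ 2 * (a ^ 2 * v ^ 4) := by rw [hC1]; ring
    rw [e]
    linarith
  have h2 : 4 * C1 * m' - (4 * C1 * C + (C + 1) * ρ) * σ ≤ -(C1 * a ^ 2 + (C + 1) * ρ * σ) := by
    have h3 := mul_le_mul_of_nonneg_left hm (show 0 ≤ 4 * C1 by positivity)
    have h4 := mul_le_mul_of_nonneg_left hτ1 (show 0 ≤ 4 * C1 * C by positivity)
    linarith
  have h3 := mul_le_mul_of_nonneg_left h2 (show 0 ≤ H * X by nlinarith)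
  have h4 := mul_le_mul_of_nonneg_right h1 (show 0 ≤ X by linarith)
  have h5 : g ^ 2 / 32 * 1 ≤ g ^ 2 / 32 * X := mul_le_mul_of_nonneg_left hX (by positivity)
  linarith

theorem s2 : S2Stmt := by
  intro κ c C r0 r1 s1 lam β a f m E k hκ hc h0 h1 hl ha hm hE hk
  have ht := fun s (hs : s1 < s) =>
    tau_S2 (by linarith : 0 ≤ κ) h0 (by linarith : 1 ≤ s) (hl s hs).2.1
  have hC : 0 ≤ C := by
    obtain ⟨-, -, a', -, h2⟩ := ha (s1 + 1) (by linarith)
    have h3 := (ht (s1 + 1) (by linarith)).2.1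
    exact nonneg_of_mul_nonneg_left ((abs_nonneg _).trans h2) (by positivity)
  have hr1 : 0 ≤ r1 := by linarith [(hl (s1 + 1) (by linarith)).2.1, (hl (s1 + 1) (by linarith)).2.2]
  set ρ := (r0 ^ 2)⁻¹ with hρ
  have hρ0 : 0 ≤ ρ := by positivity
  let v : ℝ → ℝ := fun z => a z / Real.sqrt (lam z)
  let g : ℝ → ℝ := fun z => (Real.sqrt (f z) + z ^ (-(2 * κ + 10))) / lam z
  let H : ℝ → ℝ := fun z => E z * (lam z ^ 2)⁻¹ + ((C + 1) * v z ^ 4 + (C + C * ρ + 1))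
  let C1 := C + 128 * (C + 1) ^ 2 * C ^ 2
  let X : ℝ → ℝ := fun z => Real.exp (4 * C1 * m z + (4 * C1 * C + (C + 1) * ρ) * z⁻¹)
  have hv : ∀ s, s1 < s → ∃ v', HasDerivAt v v' s ∧ |v'| ≤ C * Real.sqrt (lam s) * g s :=
    fun s hs => by
      obtain ⟨-, -, a', h2, h3⟩ := ha s hs
      exact vder_S2 (ht s hs).1 (hl s hs).1 h2 h3
  have hav : ∀ s, s1 < s → a s = v s * Real.sqrt (lam s) := fun s hs =>
    (div_mul_cancel₀ _ (Real.sqrt_pos.2 (ht s hs).1).ne').symm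
  have hav2 : ∀ s, s1 < s → a s ^ 2 = v s ^ 2 * lam s := fun s hs => by
    rw [hav s hs, mul_pow, Real.sq_sqrt (ht s hs).1.le]
  have hσ : ∀ s, s1 < s → (s ^ 2)⁻¹ ≤ 1 := fun s hs =>
    inv_le_one_of_one_le₀ (one_le_pow₀ (by linarith))
  have hkH : ∀ s, s1 < s → c * k s * (lam s ^ 2)⁻¹ + (v s ^ 4 + 1) ≤ H s := fun s hs => by
    obtain ⟨h2, h3, h4, h5⟩ := ht s hs
    have h6 := mul_le_mul_of_nonneg_right (hk s hs).2 (show 0 ≤ (lam s ^ 2)⁻¹ by positivity)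
    have e : (E s + C * (lam s ^ 2 + a s ^ 4 + s ^ (-(2 * κ + 10)))) * (lam s ^ 2)⁻¹ =
        E s * (lam s ^ 2)⁻¹ + C * (1 + v s ^ 4 + s ^ (-(2 * κ + 10)) * (lam s ^ 2)⁻¹) := by
      rw [show a s ^ 4 = (a s ^ 2) ^ 2 by ring, hav2 s hs]
      field_simp
    have h7 : ρ * (s ^ 2)⁻¹ ≤ ρ * 1 := mul_le_mul_of_nonneg_left (hσ s hs) hρ0
    have h8 := mul_le_mul_of_nonneg_left (h5.trans h7) hC
    simp only [H]
    linarith
  have hk0 : ∀ s, s1 < s → 0 ≤ c * k s * (lam s ^ 2)⁻¹ := fun s hs => by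
    have := (hk s hs).1
    positivity
  have hH : ∀ s, s1 < s → v s ^ 4 + 1 ≤ H s := fun s hs => by linarith [hkH s hs, hk0 s hs]
  have hX : ∀ s, s1 < s → 1 ≤ X s := fun s hs => by
    have := (hm s hs).1
    have : 0 < s := by linarith
    exact Real.one_le_exp (by positivity)
  have hΨ : ∀ s, s1 < s → ContinuousAt (fun z => H z * X z) s ∧
      DiniLe (fun z => H z * X z) s (-(g s ^ 2 / 32)) := fun s hs => by
    obtain ⟨h2, h3, h4, h5⟩ := ht s hs
    obtain ⟨v', h6, h7⟩ := hv s hs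
    obtain ⟨-, m', h8, h9⟩ := hm s hs
    have hs0 : 0 < s := by linarith
    have d1 : HasDerivAt (fun z => (lam z ^ 2)⁻¹) (2 * β s * (lam s ^ 2)⁻¹) s := by
      refine (((hl s hs).1.fun_pow 2).fun_inv (pow_pos h2 2).ne').congr_deriv ?_
      field_simp
      ring
    have d2 : HasDerivAt (fun z => (C + 1) * v z ^ 4 + (C + C * ρ + 1))
        ((C + 1) * (4 * v s ^ 3 * v')) s := by
      refine (((h6.fun_pow 4).const_mul (C + 1)).add_const (C + C * ρ + 1)).congr_deriv ?_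
      norm_num
    have d3 : HasDerivAt X (X s * (4 * C1 * m' - (4 * C1 * C + (C + 1) * ρ) * (s ^ 2)⁻¹)) s := by
      refine ((h8.const_mul (4 * C1)).fun_add
        ((hasDerivAt_inv hs0.ne').const_mul (4 * C1 * C + (C + 1) * ρ))).exp.congr_deriv ?_
      simp only [X]
      ring
    refine ⟨(((hE s hs).1.mul d1.continuousAt).add d2.continuousAt).mul d3.continuousAt, ?_⟩
    refine (((((hE s hs).2.mul_pos d1 (by positivity)).add_hasDerivAt d2).mul_pos d3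
      (Real.exp_pos _))).mono ?_
    have e := Real.sq_sqrt h2.le
    have := alg_S2 (r := Real.sqrt (lam s)) (g := g s) hC hρ0 (by positivity) (hσ s hs) h3 h4
      (Real.sqrt_pos.2 h2) (by rw [e]; exact h5) (ha s hs).2.1 (hav s hs) (by rw [e]) h7
      (hH s hs) (hX s hs) h9
    rw [e] at this
    convert this using 3
    ring
  have hHX : ∀ s, s1 < s → H s ≤ H s * X s := fun s hs =>
    le_mul_of_one_le_right (by linarith [hH s hs, show 0 ≤ v s ^ 4 by positivity]) (hX s hs)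
  have hA : ∀ S T, s1 < S → S ≤ T → H T * X T ≤ H S * X S := fun S T hS hT =>
    anti_S2 (f := fun z => H z * X z) (fun s hs => ⟨(hΨ s hs).1,
      (hΨ s hs).2.mono (neg_nonpos.2 (by positivity))⟩) hS hT
  have hκ1 : 0 < κ - 1 := by linarith
  obtain ⟨w, hw⟩ := conv_S2 (v := v) (Ψ := fun z => H z * X z) (p := (κ - 1) / 2)
    (A := 8 * C ^ 2 * r1 / (κ - 1)) h1 (by linarith)
    (fun s hs => by linarith [hHX s hs, hH s hs, show 0 ≤ v s ^ 4 by positivity]) hA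
    (fun θ hθ S T hS hT => by
      set B := 8 * C ^ 2 * r1 / (κ - 1) / θ with hB
      have hB0 : 0 ≤ B := by positivity
      have key : ∀ η : ℝ, |η| = 1 → η * v T + B * T ^ (1 - κ) + H T * X T * θ ≤
          η * v S + B * S ^ (1 - κ) + H S * X S * θ := fun η hη => by
        have := anti_S2 (s1 := s1)
          (f := fun z => H z * X z * θ + (η * v z + B * z ^ (1 - κ))) (fun s hs => by
            obtain ⟨v', h6, h7⟩ := hv s hs
            have hs0 : 0 < s := by linarith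
            have d1 := (h6.const_mul η).fun_add
              ((Real.hasDerivAt_rpow_const (x := s) (p := 1 - κ) (Or.inl hs0.ne')).const_mul B)
            refine ⟨((hΨ s hs).1.mul continuousAt_const).add d1.continuousAt,
              (((hΨ s hs).2.mul_pos (hasDerivAt_const s θ) hθ).add_hasDerivAt d1).mono ?_⟩
            have hq : 0 < s ^ κ := Real.rpow_pos_of_pos hs0 κ
            have e1 : s ^ (1 - κ - 1) = (s ^ κ)⁻¹ := by
              rw [← Real.rpow_neg hs0.le]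
              congr 1
              ring
            have e2 : B * ((1 - κ) * (s ^ κ)⁻¹) = -(8 * C ^ 2 / θ * (r1 / s ^ κ)) := by
              rw [hB]
              field_simp
              ring
            have h2 : lam s ≤ r1 / s ^ κ := (le_div_iff₀ hq).2 (hl s hs).2.2
            have h3 := mul_le_mul_of_nonneg_left h2 (show 0 ≤ 8 * C ^ 2 / θ by positivity)
            have h4 : η * v' ≤ C * Real.sqrt (lam s) * g s := by
              refine (le_abs_self _).trans ?_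
              rwa [abs_mul, hη, one_mul]
            have h5 : C * Real.sqrt (lam s) * g s ≤ g s ^ 2 / 32 * θ + 8 * C ^ 2 / θ * lam s := by
              have e := Real.sq_sqrt (ht s hs).1.le
              set r := Real.sqrt (lam s)
              rw [← e, ← sub_nonneg]
              have : g s ^ 2 / 32 * θ + 8 * C ^ 2 / θ * r ^ 2 - C * r * g s =
                  (g s * θ - 16 * C * r) ^ 2 / (32 * θ) := by
                field_simp
                ring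
              rw [this]
              positivity
            rw [e1, e2]
            linarith) hS hT
        linarith
      have hS0 : 0 < S := by linarith
      have e : ((S ^ ((κ - 1) / 2))⁻¹) ^ 2 = S ^ (1 - κ) := by
        rw [← Real.rpow_neg hS0.le, sq, ← Real.rpow_add hS0]
        congr 1
        ring
      have h2 : 0 ≤ B * T ^ (1 - κ) :=
        mul_nonneg hB0 (Real.rpow_nonneg (by linarith) _)
      have h3 := key 1 (by simp)
      have h4 := key (-1) (by simp)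
      rw [e, abs_le]
      constructor <;> linarith)
  set P := H (s1 + 1) * X (s1 + 1)
  refine ⟨max (P / c) P, w, (eventually_ge_atTop (s1 + 1)).mono fun s hs => ?_, hw⟩
  have hs' : s1 < s := by linarith
  have h2 := (ht s hs').1
  have h3 : H s ≤ P := (hHX s hs').trans (hA _ _ (by linarith) hs)
  have h4 := hkH s hs'
  constructor
  · have h5 : c * k s * (lam s ^ 2)⁻¹ ≤ P := by linarith [show 0 ≤ v s ^ 4 by positivity]
    rw [← div_eq_mul_inv, div_le_iff₀ (by positivity)] at h5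
    refine le_trans ?_ (mul_le_mul_of_nonneg_right (le_max_left _ _) (by positivity))
    rw [div_mul_eq_mul_div, le_div_iff₀ hc]
    linarith
  · rw [hav2 s hs']
    refine mul_le_mul_of_nonneg_right (le_trans ?_ (le_max_right _ _)) h2.le
    nlinarith [hH s hs', sq_nonneg (v s ^ 2 - 1)]

end

end Pool.Agent.MP_8339a4_an
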