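import Pool.Agent.MP_8339a4_an.Api

/-! Mass, local mass and energy of the rescaled remainder. -/

open MeasureTheory Filter Topology Set

namespace Pool.Agent.MP_8339a4_an

theorem mass_Small {f : ℝ → ℝ} (hf : MemLp f 2 volume) {l : ℝ} (hl : 0 < l) (s : ℝ) :
    ∫ y, (Real.sqrt l * f (l * y + s) - Q y) ^ 2 ≤ 2 * (∫ x, f x ^ 2) + 2 * ∫ y, Q y ^ 2 := by
  have h1 : MemLp (fun y => Real.sqrt l * f (l * y + s)) 2 volume :=
    (memLp_comp_affine hf hl.ne' s).const_mul _
  have h2 : ∫ y, (Real.sqrt l * f (l * y + s)) ^ 2 = ∫ x, f x ^ 2 := by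
    have e : ∀ y, (Real.sqrt l * f (l * y + s)) ^ 2 = l * (fun x => f x ^ 2) (l * y + s) := by
      intro y
      simp only [mul_pow, Real.sq_sqrt hl.le]
    simp only [e]
    rw [integral_const_mul, integral_comp_affine (fun x => f x ^ 2) hl s]
    field_simp
  have i1 := integrable_sq2 h1
  have i2 := integrable_sq2 expD_Q.memLp
  rw [← h2, ← integral_const_mul, ← integral_const_mul,
    ← integral_add (i1.const_mul 2) (i2.const_mul 2)]
  refine integral_mono (integrable_sq2 (h1.sub expD_Q.memLp)) ((i1.const_mul 2).add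
    (i2.const_mul 2)) (fun y => ?_)
  simp only
  nlinarith [sq_nonneg (Real.sqrt l * f (l * y + s) + Q y)]

theorem en_Small (f g : ℝ → ℝ) {l : ℝ} (hl : 0 < l) (s : ℝ) :
    ∫ y, en (Q y + (Real.sqrt l * f (l * y + s) - Q y))
      (Q1 y + (Real.sqrt l * l * g (l * y + s) - Q1 y)) = (∫ x, en (f x) (g x)) * l ^ 2 := by
  have e : ∀ y, en (Q y + (Real.sqrt l * f (l * y + s) - Q y))
      (Q1 y + (Real.sqrt l * l * g (l * y + s) - Q1 y))
      = l ^ 3 * (fun x => en (f x) (g x)) (l * y + s) := by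
    intro y
    obtain ⟨r, hr⟩ : ∃ r, r = Real.sqrt l := ⟨_, rfl⟩
    have h2 : l = r ^ 2 := by rw [hr, Real.sq_sqrt hl.le]
    rw [← hr]
    simp only [en, add_sub_cancel]
    generalize f (l * y + s) = a
    generalize g (l * y + s) = b
    rw [h2]
    ring
  simp only [e]
  rw [integral_const_mul, integral_comp_affine (fun x => en (f x) (g x)) hl s]
  field_simp

theorem dy_Small (g : ℝ → ℝ) {l : ℝ} (hl : 0 < l) (s : ℝ) :
    ∫ y, (Q1 y + (Real.sqrt l * l * g (l * y + s) - Q1 y)) ^ 2 = l ^ 2 * ∫ x, g x ^ 2 := by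
  have e : ∀ y, (Q1 y + (Real.sqrt l * l * g (l * y + s) - Q1 y)) ^ 2
      = l ^ 3 * (fun x => g x ^ 2) (l * y + s) := by
    intro y
    simp only [add_sub_cancel, mul_pow, Real.sq_sqrt hl.le]
    ring
  simp only [e]
  rw [integral_const_mul, integral_comp_affine (fun x => g x ^ 2) hl s]
  field_simp

theorem loc_Small {f : ℝ → ℝ} (hf : Continuous f) {l s lt st η d k : ℝ} (hl : 0 < l)
    (hlt : 0 < lt) (hη : 0 < η) (hk : 0 < k)
    (h : ∀ x : ℝ, ∫ z in x..(x + η), (f z - Q ((z - st) / lt) / Real.sqrt lt) ^ 2 ≤ d) :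
    LocM (fun y => Real.sqrt l * f (l * y + s) - Q y) (η / l)
      ((1 + k) * d + (1 + 1 / k) *
        ∫ y, (Real.sqrt (l / lt) * Q (l / lt * y + (s - st) / lt) - Q y) ^ 2) := by
  intro x
  have hQ : Continuous Q := expD_Q.1
  have hx : x ≤ x + η / l := le_add_of_nonneg_right (div_pos hη hl).le
  set F : ℝ → ℝ := fun z => (f z - Q ((z - st) / lt) / Real.sqrt lt) ^ 2 with hF
  set B : ℝ → ℝ := fun y => Real.sqrt (l / lt) * Q (l / lt * y + (s - st) / lt) - Q y with hB
  have cF : Continuous F := by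
    rw [hF]
    fun_prop
  have cB : Continuous B := by
    rw [hB]
    fun_prop
  have mB : MemLp B 2 volume :=
    ((memLp_comp_affine expD_Q.memLp (div_pos hl hlt).ne' _).const_mul _).sub expD_Q.memLp
  have h1 : ∫ y in x..(x + η / l), l * F (l * y + s) ≤ d := by
    rw [intervalIntegral.integral_const_mul, intervalIntegral.mul_integral_comp_mul_add]
    have e : l * (x + η / l) + s = l * x + s + η := by
      field_simp
      ring
    rw [e]
    exact h _
  have h2 : ∫ y in x..(x + η / l), B y ^ 2 ≤ ∫ y, B y ^ 2 := by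
    rw [intervalIntegral.integral_of_le hx]
    exact setIntegral_le_integral (integrable_sq2 mB) (Eventually.of_forall fun y => sq_nonneg _)
  have i1 : IntervalIntegrable (fun y => l * F (l * y + s)) volume x (x + η / l) :=
    Continuous.intervalIntegrable (by fun_prop) _ _
  have i2 : IntervalIntegrable (fun y => B y ^ 2) volume x (x + η / l) :=
    Continuous.intervalIntegrable (by fun_prop) _ _
  have h3 : ∫ y in x..(x + η / l), (Real.sqrt l * f (l * y + s) - Q y) ^ 2
      ≤ ∫ y in x..(x + η / l), ((1 + k) * (l * F (l * y + s)) + (1 + 1 / k) * B y ^ 2) := by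
    refine intervalIntegral.integral_mono_on hx (Continuous.intervalIntegrable (by fun_prop) _ _)
      ((i1.const_mul _).add (i2.const_mul _)) (fun y _ => ?_)
    have e1 : (l * y + s - st) / lt = l / lt * y + (s - st) / lt := by
      field_simp
      ring
    have e2 : l * F (l * y + s) = (Real.sqrt l * (f (l * y + s)
        - Q (l / lt * y + (s - st) / lt) / Real.sqrt lt)) ^ 2 := by
      rw [mul_pow, Real.sq_sqrt hl.le, hF]
      simp only [e1]
    have e3 : Real.sqrt l * f (l * y + s) - Q y = Real.sqrt l * (f (l * y + s)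
        - Q (l / lt * y + (s - st) / lt) / Real.sqrt lt) + B y := by
      rw [hB]
      simp only [Real.sqrt_div hl.le]
      ring
    rw [e2, e3]
    generalize Real.sqrt l * (f (l * y + s)
        - Q (l / lt * y + (s - st) / lt) / Real.sqrt lt) = a
    generalize B y = b
    have e4 : (1 + k) * a ^ 2 + (1 + 1 / k) * b ^ 2 - (a + b) ^ 2 = (k * a - b) ^ 2 / k := by
      field_simp
      ring
    have h5 : 0 ≤ (k * a - b) ^ 2 / k := by positivity
    linarith
  rw [intervalIntegral.integral_add (i1.const_mul _) (i2.const_mul _),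
    intervalIntegral.integral_const_mul (1 + k), intervalIntegral.integral_const_mul (1 + 1 / k)]
    at h3
  have h4 := mul_le_mul_of_nonneg_left h1 (by positivity : 0 ≤ 1 + k)
  have h5 := mul_le_mul_of_nonneg_left h2 (by positivity : 0 ≤ 1 + 1 / k)
  exact h3.trans (add_le_add h4 h5)

theorem small (hc : ConsStmt) : SmallStmt := by
  intro T ν u ux lt st x0 lam sig hP hl hs
  have hI : ∀ᶠ t in 𝓝[<] (0 : ℝ), t ∈ Ico T 0 := Ico_mem_nhdsLT hP.neg
  have hlt : ∀ᶠ t in 𝓝[<] (0 : ℝ), 0 < lt t := hI.mono fun t ht => hP.pos t ht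
  have hlam : ∀ᶠ t in 𝓝[<] (0 : ℝ), 0 < lam t := by
    filter_upwards [hlt, hl.eventually (lt_mem_nhds one_pos)] with t h1 h2
    exact (div_pos_iff_of_pos_right h1).1 h2
  refine ⟨?_, ?_, ?_⟩
  · have := hl.mul hP.lt0
    rw [mul_zero] at this
    refine this.congr' ?_
    filter_upwards [hlt] with t h1
    field_simp
  · have := hP.st0.add (hs.mul hP.lt0)
    rw [mul_zero, add_zero] at this
    refine this.congr' ?_
    filter_upwards [hlt] with t h1
    field_simp
    ring
  obtain ⟨η, d, hη, hd, hS⟩ := hP.single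
  have hm : 0 < ∫ y, Q y ^ 2 := by
    rw [integral_Q_sq]
    have := Real.pi_pos
    positivity
  obtain ⟨d0, hd0, hd1, hd2⟩ : ∃ d0 : ℝ, 0 ≤ d0 ∧ d ≤ d0 ∧ d0 < ∫ y, Q y ^ 2 :=
    ⟨max d 0, le_max_right _ _, le_max_left _ _, max_lt hd hm⟩
  obtain ⟨g, hg, hg1⟩ : ∃ g : ℝ, 0 < g ∧ d0 + 2 * g < ∫ y, Q y ^ 2 :=
    ⟨((∫ y, Q y ^ 2) - d0) / 3, by linarith, by linarith⟩
  have hk : 0 < g / (d0 + 1) := by positivity
  have hk1 : (1 + g / (d0 + 1)) * d0 ≤ d0 + g := by
    have : g / (d0 + 1) * d0 ≤ g := by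
      rw [div_mul_eq_mul_div, div_le_iff₀ (by positivity)]
      nlinarith
    linarith
  have hB : Tendsto (fun t => ∫ y, (Real.sqrt (lam t / lt t) *
      Q (lam t / lt t * y + (sig t - st t) / lt t) - Q y) ^ 2) (𝓝[<] 0) (𝓝 0) := by
    have h1 := ((L2T.const (l := 𝓝[<] (0 : ℝ)) expD_Q.memLp).comp_affine one_ne_zero hl hs).ut_mul
      (UT.of_tendsto hl.sqrt)
    simpa using h1.2.2
  have hB' := hB.const_mul (1 + 1 / (g / (d0 + 1)))
  rw [mul_zero] at hB'
  refine ⟨2 * (∫ x, u T x ^ 2) + 2 * ∫ y, Q y ^ 2, ∫ x, en (u T x) (ux T x), η, d0 + 2 * g,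
    hη, hg1, ?_⟩
  filter_upwards [hI, hlt, hlam, hS, hB'.eventually (gt_mem_nhds hg)] with t ht h1 h2 h3 h4
  have hH := hP.sol.h1 t ht
  obtain ⟨c1, c2⟩ := hc _ u ux hP.sol T t ht.1 (fun z hz => ⟨hz.1, hz.2.trans_lt ht.2⟩)
  refine ⟨?_, ?_, ?_, ?_⟩
  · rw [← c1]
    exact mass_Small hH.1 h2 (sig t)
  · intro x
    refine (loc_Small (s := sig t) hH.continuous h2 h1 hη hk (fun z => (h3 z).trans hd1) x).trans ?_
    linarith
  · refine (en_Small (u t) (ux t) h2 (sig t)).trans_le ?_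
    exact mul_le_mul_of_nonneg_right c2 (sq_nonneg _)
  · exact dy_Small (ux t) h2 (sig t)

end Pool.Agent.MP_8339a4_an
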