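import Pool.Agent.MP_8339a4_an.Api

/-! Change of the time variable in the modulated flow. -/

open Filter Topology

namespace Pool.Agent.MP_8339a4_an

theorem time : TimeStmt := by
  intro e ey lam β γ τ w s τ' h H hτ
  have hc : Tendsto τ (𝓝 s) (𝓝 (τ s)) := H.continuousAt
  refine ⟨h.h1t.comp hc, h.pos, ?_, hc.eventually h.orth, ?_, ?_, ?_⟩
  · rw [mul_right_comm]
    exact h.dlam.comp s H
  · intro θ θ1 θ2 θ3 hθ
    rw [mul_right_comm]
    exact (h.d0 θ θ1 θ2 θ3 hθ).comp s H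
  · intro W W1 W2 W3 hW
    rw [mul_right_comm]
    exact (h.d1 W W1 W2 W3 hW).comp s H
  · intro W W1 W2 W3 hW h0 g gy hg
    rw [mul_right_comm]
    exact DiniLe.comp (f := fun z => ∫ y, en (Q y + e z y) (Q1 y + ey z y) * W y)
      (h.d2 W W1 W2 W3 hW h0 g gy hg) H hτ

end Pool.Agent.MP_8339a4_an
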