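import Pool.Agent.MP_8339a4_an.MainG
import Pool.Agent.MP_8339a4_an.NagyI
import Pool.Agent.MP_8339a4_an.NagyG
import Pool.Agent.MP_8339a4_an.NagyW
import Pool.Agent.MP_8339a4_an.C1
import Pool.Agent.MP_8339a4_an.C1w
import Pool.Agent.MP_8339a4_an.C2
import Pool.Agent.MP_8339a4_an.G0
import Pool.Agent.MP_8339a4_an.Cons
import Pool.Agent.MP_8339a4_an.Refl
import Pool.Agent.MP_8339a4_an.ModA
import Pool.Agent.MP_8339a4_an.ModB
import Pool.Agent.MP_8339a4_an.FlowH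
import Pool.Agent.MP_8339a4_an.Flow0
import Pool.Agent.MP_8339a4_an.Flow1
import Pool.Agent.MP_8339a4_an.Flow2
import Pool.Agent.MP_8339a4_an.Small
import Pool.Agent.MP_8339a4_an.ParJ
import Pool.Agent.MP_8339a4_an.Time
import Pool.Agent.MP_8339a4_an.FinA
import Pool.Agent.MP_8339a4_an.FinB
import Pool.Agent.MP_8339a4_an.FinC
import Pool.Agent.MP_8339a4_an.S2
import Pool.Agent.MP_8339a4_an.S1
import Pool.Agent.MP_8339a4_an.HH
import Pool.Agent.MP_8339a4_an.Cont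
import Pool.Agent.MP_8339a4_an.R1
import Pool.Agent.MP_8339a4_an.R2
import Pool.Agent.MP_8339a4_an.R3
import Pool.Agent.MP_8339a4_an.R4
import Pool.Agent.MP_8339a4_an.E2
import Pool.Agent.MP_8339a4_an.I1
import Pool.Agent.MP_8339a4_an.I2
import Pool.Agent.MP_8339a4_an.I3
import Pool.Agent.MP_8339a4_an.I4
import Pool.Agent.MP_8339a4_an.I5
import Pool.Agent.MP_8339a4_an.E4
import Pool.Agent.MP_8339a4_an.JRJ
import Pool.Agent.MP_8339a4_an.JLJ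
import Pool.Agent.MP_8339a4_an.MMJ
import Pool.Agent.MP_8339a4_an.BdJ
import Pool.Agent.MP_8339a4_an.BdM
import Pool.Agent.MP_8339a4_an.MuJ

/-! Glue: everything except the W and G blocks. -/

open MeasureTheory Filter Topology Set

namespace Pool.Agent.MP_8339a4_an

theorem mainE_Glue (hG : GSStmt) : MainEStmt :=
  mainE cont r1 r2 r3 (r4 (nagyW nagyI)) s2 s1 (e2 hh) i1 i2 i3 i4 i5 bdJ bdM hG jrJ (jlJ bdJ)
    mmJ muJ (e4 (c1w c1))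

theorem phys_Glue (p0 : P0Stmt) (p1 : P1Stmt) (p2 : P2Stmt) (hG : GSStmt) {T ν : ℝ}
    {u ux : ℝ → ℝ → ℝ} {lt st : ℝ → ℝ} {x0 : ℝ} (hν : 0 < ν) (h : Phys T ν u ux lt st x0) :
    ν = 2 / 5 ∨ (3 / 7 < ν ∧ ν < 1 / 2) := by
  have hc := cons p1 p2
  obtain ⟨T1, c0, c1', M, η, d, Cp, e, ey, lam, β, γ, sig, hP, hsig, hx⟩ :=
    finA (modA hc) (modB p0) flowH (flow0 p0) (flow1 p1) (flow2 p2) (small hc)
      (g0 (nagyG nagyI)) parJ T ν u ux lt st x0 h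
  obtain ⟨h3, h2⟩ := finB _ _ _ _ _ _ _ _ _ _ _ _ _ _ x0 hν hP hsig hx
  by_cases h7 : 3 / 7 < ν
  · exact Or.inr ⟨h7, h2⟩
  left
  obtain ⟨s0, r0, r1', e', ey', lam', β', γ', hS⟩ := finC time _ _ _ _ _ _ _ _ _ _ _ _ _ h3 hP
  have hp : 0 < 3 * ν - 1 := by linarith
  have hκ := mainE_Glue hG _ _ _ _ _ _ _ _ _ _ _ _ _ hS (by rw [le_div_iff₀ hp]; linarith)
  rw [div_eq_iff hp.ne'] at hκ
  linarith

theorem main_Glue (p0 : P0Stmt) (p1 : P1Stmt) (p2 : P2Stmt) (hG : GSStmt) (t0 ν : ℝ)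
    (u ux : ℝ → ℝ → ℝ) (lam sig : ℝ → ℝ) (x0 : ℝ) (ht0 : 0 < t0) (hν : 0 < ν)
    (hsol : IsSol (Ioc 0 t0) u ux) (hrate : PowerRate t0 ν ux) (hb : Bubble t0 u lam sig x0)
    (hs : (∫ x, u t0 x ^ 2) < 2 * ∫ y, Q y ^ 2 ∨ Single u lam sig) :
    ν = 2 / 5 ∨ (3 / 7 < ν ∧ ν < 1 / 2) :=
  phys_Glue p0 p1 p2 hG hν (refl (cons p1 p2) t0 ν u ux lam sig x0 ht0 hsol hrate hb hs)

end Pool.Agent.MP_8339a4_an
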