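import Pool.Agent.MP_8339a4_an.Core

/-! The statements of the steps of the proof. -/

open MeasureTheory Filter Topology Set

namespace Pool.Agent.MP_8339a4_an

noncomputable section

/-! ### W block: local laws for `H^1` weak solutions -/

def P0Stmt : Prop := ∀ (I : Set ℝ) (u ux : ℝ → ℝ → ℝ), IsSol I u ux → ∀ a b : ℝ, a ≤ b →
  Icc a b ⊆ I → ∀ θ θ1 θ2 θ3 : ℝ → ℝ, Test θ θ1 θ2 θ3 →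
    (∫ x, u b x * θ x) - (∫ x, u a x * θ x)
      = ∫ t in a..b, ∫ x, (u t x * θ3 x + u t x ^ 5 * θ1 x)

def P1Stmt : Prop := ∀ (I : Set ℝ) (u ux : ℝ → ℝ → ℝ), IsSol I u ux → ∀ a b : ℝ, a ≤ b →
  Icc a b ⊆ I → ∀ W W1 W2 W3 : ℝ → ℝ, Wt W W1 W2 W3 →
    (∫ x, u b x ^ 2 * W x) - (∫ x, u a x ^ 2 * W x)
      = ∫ t in a..b, ∫ x, fl1 (u t x) (ux t x) (W1 x) (W3 x)

def P2Stmt : Prop := ∀ (I : Set ℝ) (u ux : ℝ → ℝ → ℝ), IsSol I u ux → ∀ a b : ℝ, a ≤ b →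
  Icc a b ⊆ I → ∀ W W1 W2 W3 : ℝ → ℝ, Wt W W1 W2 W3 → (∀ x, 0 ≤ W1 x) →
    ∀ g gy : ℝ → ℝ, IsH1 g gy →
    (∫ x, en (u b x) (ux b x) * W x) - (∫ x, en (u a x) (ux a x) * W x)
      ≤ ∫ t in a..b, ∫ x, fl2 (u t x) (ux t x) (g x) (gy x) (W1 x) (W2 x) (W3 x)

/-! ### Static inequalities -/

def NagyIStmt : Prop := ∀ q m0 : ℝ, 0 < q → Real.sqrt q * m0 < Real.pi / 2 →
  ∃ C : ℝ, 0 ≤ C ∧ ∀ (a b : ℝ) (w wy : ℝ → ℝ), a ≤ b → IsPrim w wy →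
    IntervalIntegrable (fun y => wy y ^ 2) volume a b → (∫ y in a..b, w y ^ 2) ≤ m0 →
    -(C * (w a ^ 4 + w b ^ 4)) ≤ ∫ y in a..b, (wy y ^ 2 - q * w y ^ 6)

def NagyGStmt : Prop := ∀ M d : ℝ, d < ∫ y, Q y ^ 2 → ∃ c C : ℝ, 0 < c ∧
  ∀ (l : ℝ) (w wy : ℝ → ℝ), 0 < l → IsH1 w wy → (∫ y, w y ^ 2) ≤ M → LocM w l d →
    c * ∫ y, wy y ^ 2 ≤ (∫ y, (wy y ^ 2 - (1 + c) * w y ^ 6 / 3)) + C / l ^ 2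

def NagyWStmt : Prop := ∀ M d : ℝ, d < ∫ y, Q y ^ 2 → ∃ c C : ℝ, 0 < c ∧ 0 ≤ C ∧
  ∀ (l : ℝ) (w wy φ φ1 : ℝ → ℝ), 0 < l → IsH1 w wy → (∫ y, w y ^ 2) ≤ M → LocM w l d →
    (∀ y, HasDerivAt φ (φ1 y) y) → ExpD φ1 → (∀ y, 0 ≤ φ1 y) → (∀ y, φ y ≤ 1) →
    Tendsto φ atBot (𝓝 0) →
    c * ∫ y, φ y * (wy y ^ 2 + w y ^ 6)
      ≤ (∫ y, φ y * en (w y) (wy y)) + C * (∫ y, φ1 y * w y ^ 4) + C / l ^ 2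

def C1Stmt : Prop := ∃ c C : ℝ, 0 < c ∧ 0 ≤ C ∧ ∀ e ey : ℝ → ℝ, IsH1 e ey →
  c * ∫ y, (e y ^ 2 + ey y ^ 2) ≤ (∫ y, (ey y ^ 2 + e y ^ 2 - V y * e y ^ 2))
    + C * ((∫ y, e y * C0 y) ^ 2 + (∫ y, e y * Q1 y) ^ 2)

def C1wStmt : Prop := ∃ c C ε0 : ℝ, 0 < c ∧ 0 ≤ C ∧ 0 < ε0 ∧ ∀ ψ ψ1 : ℝ → ℝ,
  (∀ y, HasDerivAt ψ (ψ1 y) y) → Continuous ψ1 → Bdd ψ → (∀ y, 0 < ψ y) →
  (∀ y, |ψ1 y| ≤ ε0 * ψ y) → |ψ 0 - 1| ≤ ε0 → ∀ e ey : ℝ → ℝ, IsH1 e ey →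
    c * ∫ y, ψ y * (e y ^ 2 + ey y ^ 2) ≤ (∫ y, ψ y * (ey y ^ 2 + e y ^ 2 - V y * e y ^ 2))
      + C * ((∫ y, e y * C0 y) ^ 2 + (∫ y, e y * Q1 y) ^ 2)

def C2Stmt : Prop := ∃ c C : ℝ, 0 < c ∧ 0 ≤ C ∧ ∀ h hy : ℝ → ℝ, IsH1 h hy →
  c * ∫ y, sc y * (h y ^ 2 + hy y ^ 2)
    ≤ (∫ y, sc y * (hy y + tn y * h y) ^ 2) + C * (∫ y, h y * C0 y) ^ 2

def G0Stmt : Prop := ∀ M d : ℝ, d < ∫ y, Q y ^ 2 → ∃ c C : ℝ, 0 < c ∧ 0 ≤ C ∧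
  ∀ (l : ℝ) (e ey : ℝ → ℝ), 0 < l → IsH1 e ey → (∫ y, e y ^ 2) ≤ M → LocM e l d →
    c * ∫ y, ey y ^ 2
      ≤ (∫ y, en (Q y + e y) (Q1 y + ey y)) + 2 * mu e + C * (1 / l ^ 2 + N0 e)

/-! ### M block: from the hypotheses to `Setup` -/

def ConsStmt : Prop := ∀ (I : Set ℝ) (u ux : ℝ → ℝ → ℝ), IsSol I u ux → ∀ a b : ℝ, a ≤ b →
  Icc a b ⊆ I → (∫ x, u b x ^ 2) = (∫ x, u a x ^ 2) ∧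
    (∫ x, en (u b x) (ux b x)) ≤ ∫ x, en (u a x) (ux a x)

def ReflStmt : Prop := ∀ (t0 ν : ℝ) (u ux : ℝ → ℝ → ℝ) (lam sig : ℝ → ℝ) (x0 : ℝ), 0 < t0 →
  IsSol (Ioc 0 t0) u ux → PowerRate t0 ν ux → Bubble t0 u lam sig x0 →
  ((∫ x, u t0 x ^ 2) < 2 * ∫ y, Q y ^ 2 ∨ Single u lam sig) →
  Phys (-t0) ν (fun t x => u (-t) (-x)) (fun t x => -ux (-t) (-x)) (fun t => lam (-t))
    (fun t => -sig (-t)) (-x0)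

/-- Existence of continuous modulation parameters. -/
def ModAStmt : Prop := ∀ (T ν : ℝ) (u ux : ℝ → ℝ → ℝ) (lt st : ℝ → ℝ) (x0 : ℝ),
  Phys T ν u ux lt st x0 → ∃ (T1 : ℝ) (lam sig : ℝ → ℝ), T ≤ T1 ∧ T1 < 0 ∧
    (∀ t ∈ Ioo T1 (0 : ℝ), 0 < lam t ∧ ContinuousAt lam t ∧ ContinuousAt sig t ∧
      (∫ y, resc u lam sig t y * C0 y) = 0 ∧ (∫ y, resc u lam sig t y * Q1 y) = 0) ∧
    Tendsto (fun t => lam t / lt t) (𝓝[<] 0) (𝓝 1) ∧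
    Tendsto (fun t => (sig t - st t) / lt t) (𝓝[<] 0) (𝓝 0) ∧
    Tendsto (fun t => N0 (resc u lam sig t)) (𝓝[<] 0) (𝓝 0)

/-- Continuous modulation parameters are differentiable where `N0` is small. -/
def ModBStmt : Prop := ∃ δ : ℝ, 0 < δ ∧ ∀ (T : ℝ) (u ux : ℝ → ℝ → ℝ) (lam sig : ℝ → ℝ) (t : ℝ),
  IsSol (Ico T 0) u ux → T < t → t < 0 → 0 < lam t → ContinuousAt lam t → ContinuousAt sig t →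
  (∀ᶠ z in 𝓝 t, (∫ y, resc u lam sig z y * C0 y) = 0 ∧ (∫ y, resc u lam sig z y * Q1 y) = 0) →
  N0 (resc u lam sig t) ≤ δ → DifferentiableAt ℝ lam t ∧ DifferentiableAt ℝ sig t

def FlowHStmt : Prop := ∀ (T : ℝ) (u ux : ℝ → ℝ → ℝ) (lam sig : ℝ → ℝ) (t : ℝ),
  IsSol (Ico T 0) u ux → T < t → t < 0 → 0 < lam t → ContinuousAt lam t → ContinuousAt sig t →
  H1T (𝓝 t) (resc u lam sig) (rescy ux lam sig) (resc u lam sig t) (rescy ux lam sig t)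

def Flow0Stmt : Prop := ∀ (T : ℝ) (u ux : ℝ → ℝ → ℝ) (lam sig : ℝ → ℝ) (t l' s' : ℝ),
  IsSol (Ico T 0) u ux → T < t → t < 0 → 0 < lam t → HasDerivAt lam l' t → HasDerivAt sig s' t →
  ∀ θ θ1 θ2 θ3 : ℝ → ℝ, Test θ θ1 θ2 θ3 →
    HasDerivAt (fun z => ∫ y, resc u lam sig z y * θ y) ((lam t ^ 3)⁻¹ *
      rhs0 (-(lam t ^ 2 * l')) (lam t ^ 2 * s' - 1) (resc u lam sig t) θ θ1 θ3) t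

def Flow1Stmt : Prop := ∀ (T : ℝ) (u ux : ℝ → ℝ → ℝ) (lam sig : ℝ → ℝ) (t l' s' : ℝ),
  IsSol (Ico T 0) u ux → T < t → t < 0 → 0 < lam t → HasDerivAt lam l' t → HasDerivAt sig s' t →
  ∀ W W1 W2 W3 : ℝ → ℝ, Wt W W1 W2 W3 →
    HasDerivAt (fun z => ∫ y, (Q y + resc u lam sig z y) ^ 2 * W y) ((lam t ^ 3)⁻¹ *
      rhs1 (-(lam t ^ 2 * l')) (lam t ^ 2 * s' - 1) (resc u lam sig t) (rescy ux lam sig t)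
        W1 W3) t

def Flow2Stmt : Prop := ∀ (T : ℝ) (u ux : ℝ → ℝ → ℝ) (lam sig : ℝ → ℝ) (t l' s' : ℝ),
  IsSol (Ico T 0) u ux → T < t → t < 0 → 0 < lam t → HasDerivAt lam l' t → HasDerivAt sig s' t →
  ∀ W W1 W2 W3 : ℝ → ℝ, Wt W W1 W2 W3 → (∀ y, 0 ≤ W1 y) → ∀ g gy : ℝ → ℝ, IsH1 g gy →
    DiniLe (fun z => ∫ y, en (Q y + resc u lam sig z y) (Q1 y + rescy ux lam sig z y) * W y) t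
      ((lam t ^ 3)⁻¹ * rhs2 (-(lam t ^ 2 * l')) (lam t ^ 2 * s' - 1) (resc u lam sig t)
        (rescy ux lam sig t) g gy W W1 W2 W3)

def SmallStmt : Prop := ∀ (T ν : ℝ) (u ux : ℝ → ℝ → ℝ) (lt st : ℝ → ℝ) (x0 : ℝ)
  (lam sig : ℝ → ℝ), Phys T ν u ux lt st x0 →
  Tendsto (fun t => lam t / lt t) (𝓝[<] 0) (𝓝 1) →
  Tendsto (fun t => (sig t - st t) / lt t) (𝓝[<] 0) (𝓝 0) →
  Tendsto lam (𝓝[<] 0) (𝓝 0) ∧ Tendsto sig (𝓝[<] 0) (𝓝 x0) ∧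
  ∃ M E η d : ℝ, 0 < η ∧ d < ∫ y, Q y ^ 2 ∧ ∀ᶠ t in 𝓝[<] (0 : ℝ),
    (∫ y, resc u lam sig t y ^ 2) ≤ M ∧ LocM (resc u lam sig t) (η / lam t) d ∧
    (∫ y, en (Q y + resc u lam sig t y) (Q1 y + rescy ux lam sig t y)) ≤ E * lam t ^ 2 ∧
    (∫ y, (Q1 y + rescy ux lam sig t y) ^ 2) = lam t ^ 2 * ∫ x, ux t x ^ 2

def ParStmt : Prop := ∃ δ C : ℝ, 0 < δ ∧ 0 ≤ C ∧ ∀ (e ey : ℝ → ℝ → ℝ) (lam β γ : ℝ → ℝ)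
  (w s : ℝ), FlowAt e ey lam β γ w s → w ≠ 0 → (∀ y, |e s y| ≤ 1) → N0 (e s) ≤ δ →
    β s ^ 2 + γ s ^ 2 ≤ C * N0 (e s)

def TimeStmt : Prop := ∀ (e ey : ℝ → ℝ → ℝ) (lam β γ τ : ℝ → ℝ) (w s τ' : ℝ),
  FlowAt e ey lam β γ w (τ s) → HasDerivAt τ τ' s → 0 < τ' →
  FlowAt (fun z => e (τ z)) (fun z => ey (τ z)) (fun z => lam (τ z)) (fun z => β (τ z))
    (fun z => γ (τ z)) (w * τ') s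

/-- The situation in physical time `t ↑ 0` after modulation. -/
structure PSetup (T1 ν c0 c1 M η d Cp : ℝ) (e ey : ℝ → ℝ → ℝ) (lam β γ : ℝ → ℝ) : Prop where
  neg : T1 < 0
  hc0 : 0 < c0
  hη : 0 < η
  hd : d < ∫ y, Q y ^ 2
  flow : ∀ t ∈ Ioo T1 (0 : ℝ), FlowAt e ey lam β γ (lam t ^ 3)⁻¹ t
  rate : ∀ t ∈ Ioo T1 (0 : ℝ), c0 * (-t) ^ ν ≤ lam t ∧ lam t ≤ c1 * (-t) ^ ν
  mass : ∀ t ∈ Ioo T1 (0 : ℝ), ∫ y, e t y ^ 2 ≤ M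
  loc : ∀ t ∈ Ioo T1 (0 : ℝ), LocM (e t) (η / lam t) d
  n0 : Tendsto (fun t => N0 (e t)) (𝓝[<] 0) (𝓝 0)
  ey0 : Tendsto (fun t => ∫ y, ey t y ^ 2) (𝓝[<] 0) (𝓝 0)
  par : ∀ t ∈ Ioo T1 (0 : ℝ), β t ^ 2 + γ t ^ 2 ≤ Cp * N0 (e t)
  mulo : ∀ t ∈ Ioo T1 (0 : ℝ), -(Cp * (lam t ^ 2 + N0 (e t))) ≤ mu (e t)

def FinAStmt : Prop := ∀ (T ν : ℝ) (u ux : ℝ → ℝ → ℝ) (lt st : ℝ → ℝ) (x0 : ℝ),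
  Phys T ν u ux lt st x0 → ∃ (T1 c0 c1 M η d Cp : ℝ) (e ey : ℝ → ℝ → ℝ) (lam β γ sig : ℝ → ℝ),
    PSetup T1 ν c0 c1 M η d Cp e ey lam β γ ∧
    (∀ t ∈ Ioo T1 (0 : ℝ), HasDerivAt sig ((1 + γ t) / lam t ^ 2) t) ∧
    Tendsto sig (𝓝[<] 0) (𝓝 x0)

def FinBStmt : Prop := ∀ (T1 ν c0 c1 M η d Cp : ℝ) (e ey : ℝ → ℝ → ℝ) (lam β γ sig : ℝ → ℝ)
  (x0 : ℝ), 0 < ν → PSetup T1 ν c0 c1 M η d Cp e ey lam β γ →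
  (∀ t ∈ Ioo T1 (0 : ℝ), HasDerivAt sig ((1 + γ t) / lam t ^ 2) t) →
  Tendsto sig (𝓝[<] 0) (𝓝 x0) → 1 / 3 < ν ∧ ν < 1 / 2

def FinCStmt : Prop := ∀ (T1 ν c0 c1 M η d Cp : ℝ) (e ey : ℝ → ℝ → ℝ) (lam β γ : ℝ → ℝ),
  1 / 3 < ν → PSetup T1 ν c0 c1 M η d Cp e ey lam β γ →
  ∃ (s0 r0 r1 : ℝ) (e' ey' : ℝ → ℝ → ℝ) (lam' β' γ' : ℝ → ℝ),
    Setup (ν / (3 * ν - 1)) s0 r0 r1 M η d Cp e' ey' lam' β' γ'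

/-! ### G block: the virial estimate -/

def GSStmt : Prop := ∀ (κ s0 r0 r1 M η d Cp : ℝ) (e ey : ℝ → ℝ → ℝ) (lam β γ : ℝ → ℝ),
  Setup κ s0 r0 r1 M η d Cp e ey lam β γ → ∀ θ : ℝ, 0 < θ → ∃ Ca b0 : ℝ, 0 ≤ Ca ∧ 0 < b0 ∧
    ∀ b : ℝ, b0 ≤ b → ∃ G : ℝ → ℝ, ∀ᶠ s in atTop, |G s| ≤ Ca * Nw b (e s) (ey s) ∧
      ∃ G' : ℝ, HasDerivAt G G' s ∧ G' ≤ -N0 (e s) + θ * Nw b (e s) (ey s)

/-! ### S block: the two scalar lemmas -/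

def S2Stmt : Prop := ∀ (κ c C r0 r1 s1 : ℝ) (lam β a f m E k : ℝ → ℝ),
  3 / 2 ≤ κ → 0 < c → 0 < r0 → 1 ≤ s1 →
  (∀ s, s1 < s → HasDerivAt lam (-(β s) * lam s) s ∧ r0 ≤ lam s * s ^ κ ∧ lam s * s ^ κ ≤ r1) →
  (∀ s, s1 < s → ContinuousAt f s ∧ 0 ≤ f s ∧ ∃ a' : ℝ, HasDerivAt a a' s ∧
    |a' + β s * a s / 2| ≤ C * (Real.sqrt (f s) + s ^ (-(2 * κ + 10)))) →
  (∀ s, s1 < s → 0 ≤ m s ∧ ∃ m' : ℝ, HasDerivAt m m' s ∧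
    m' ≤ -(a s ^ 2 / 4) + C * s ^ (-(2 * κ + 10))) →
  (∀ s, s1 < s → ContinuousAt E s ∧
    DiniLe E s (-(2 * β s * E s) - f s / 8 + C * (a s ^ 6 + s ^ (-(2 * κ + 10))))) →
  (∀ s, s1 < s → 0 ≤ k s ∧ c * k s ≤ E s + C * (lam s ^ 2 + a s ^ 4 + s ^ (-(2 * κ + 10)))) →
  ∃ C' v : ℝ, (∀ᶠ s in atTop, k s ≤ C' * lam s ^ 2 ∧ a s ^ 2 ≤ C' * lam s) ∧
    Tendsto (fun s => (a s / Real.sqrt (lam s) - v) * s ^ ((κ - 1) / 2)) atTop (𝓝 0)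

def S1Stmt : Prop := ∀ (κ m c C r0 r1 s1 v : ℝ) (lam β μ D a aL JR JL M Φ : ℝ → ℝ),
  3 / 2 ≤ κ → m ≠ 0 → 0 < c → 0 < r0 → 1 ≤ s1 →
  (∀ s, s1 < s → HasDerivAt lam (-(β s) * lam s) s ∧ r0 ≤ lam s * s ^ κ ∧ lam s * s ^ κ ≤ r1) →
  (∀ s, s1 < s → ContinuousAt D s ∧ 0 ≤ D s ∧ D s ≤ C * Lm s ∧ β s ^ 2 ≤ C * D s) →
  Tendsto μ atTop (𝓝 0) →
  (∀ s, s1 < s → (∃ μ' : ℝ, HasDerivAt μ μ' s ∧ |μ'| ≤ C * D s) ∧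
    -(C * (D s + s ^ (-(3 : ℝ) / 2))) ≤ μ s) →
  (∀ s, s1 < s → (∃ a' : ℝ, HasDerivAt a a' s ∧ |a'| ≤ C * (D s + s ^ (-(3 : ℝ) / 2))) ∧
    a s ^ 2 ≤ C * lam s) →
  Tendsto (fun s => (a s / Real.sqrt (lam s) - v) * s ^ ((κ - 1) / 2)) atTop (𝓝 0) →
  (∀ s, s1 < s → JR s ^ 2 + JL s ^ 2 ≤ C * (Lm s * D s) ∧
    |M s - 2 * μ s| ≤ C * (Lm s * D s + s ^ (-(3 : ℝ) / 2))) →
  (∀ s, s1 < s → ContinuousAt Φ s ∧ c * D s - C * (Lm s * s ^ (-(3 : ℝ) / 2)) ≤ Φ s ∧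
    Φ s ≤ C * (D s + Lm s * s ^ (-(3 : ℝ) / 2)) ∧
    DiniLe Φ s (-(c * D s) + C * (μ s ^ 2 + Lm s * s ^ (-(3 : ℝ) / 2)))) →
  (∀ s, s1 < s → ∃ J' : ℝ, HasDerivAt JR J' s ∧
    |J' - (2 * μ s - m ^ 2 / 2 * β s + m * a s + β s * JR s / 2)|
      ≤ C * (D s + s ^ (-(3 : ℝ) / 2))) →
  (∀ s, s1 < s → ∃ J' : ℝ, HasDerivAt JL J' s ∧
    |J' - (2 * μ s + m ^ 2 / 2 * β s + m * aL s)| ≤ C * (Lm s * D s + s ^ (-(3 : ℝ) / 2))) →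
  (∀ s, s1 < s → ∃ M' : ℝ, HasDerivAt M M' s ∧ ∀ ω : ℝ,
    M' ≤ a s ^ 2 + ω ^ 2 - 2 * ω * aL s + C * (s ^ (-(9 : ℝ) / 4)
      + Lm s * ((Real.sqrt (D s) + 1 / s) * (D s + s ^ (-(3 : ℝ) / 2)) + D s ^ 2))) →
  κ = 2

/-! ### E block -/

/-- All the data in rescaled time, with the parameters `K`, `CA`. -/
structure Dat where
  κ : ℝ
  s0 : ℝ
  r0 : ℝ
  r1 : ℝ
  M : ℝ
  η : ℝ
  d : ℝ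
  Cp : ℝ
  K : ℝ
  CA : ℝ
  e : ℝ → ℝ → ℝ
  ey : ℝ → ℝ → ℝ
  lam : ℝ → ℝ
  β : ℝ → ℝ
  γ : ℝ → ℝ
  st : Setup κ s0 r0 r1 M η d Cp e ey lam β γ
  pr : Par κ r1 K CA

namespace Dat

variable (X : Dat)

def r (s : ℝ) : ℝ := rr X.κ X.lam s
def A (s : ℝ) : ℝ := AA X.CA s
def tau (s : ℝ) : ℝ := s ^ (-(2 * X.κ + 10))
def a (s : ℝ) : ℝ := qa (X.r s) (X.A s) X.K (X.e s)
def f (s : ℝ) : ℝ := qf (X.r s) (X.A s) X.K (X.ey s)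
def Kf (s : ℝ) : ℝ := qK (X.r s) (X.A s) X.K (X.ey s)
def k6 (s : ℝ) : ℝ := q6 (X.r s) (X.A s) X.K (X.e s)
def m (s : ℝ) : ℝ := qm (X.r s) (X.A s) X.K (X.e s)
def E (s : ℝ) : ℝ := qe (X.r s) (X.A s) X.K (X.e s) (X.ey s)
def aL (s : ℝ) : ℝ := qaL (X.r s) (X.A s) X.K (X.e s)
def D (B s : ℝ) : ℝ := qD (X.r s) (X.A s) X.K B (X.e s) (X.ey s)
def JR (s : ℝ) : ℝ := qJ (X.r s) (X.A s) X.K (X.e s)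
def JL (s : ℝ) : ℝ := qJ (X.r s) (-(X.A s)) X.K (X.e s)
def MM (s : ℝ) : ℝ := qM (X.r s) (X.A s) X.K (X.e s)
def F (B s : ℝ) : ℝ := qF (X.r s) (X.A s) X.K B (X.e s) (X.ey s)
def μ (s : ℝ) : ℝ := mu (X.e s)
def N (s : ℝ) : ℝ := N0 (X.e s)
/-- The quantities living on the right of the step. -/
def Z (s : ℝ) : ℝ := X.a s ^ 2 + X.Kf s + X.k6 s + X.tau s

end Dat

/-- Density `e_y² + e² - P`. -/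
def hH (y e p : ℝ) : ℝ := p ^ 2 + e ^ 2 - PP y e

/-- Main flux density for `qH` (`e`, `p` are the values of `e`, `e_y` at `y`). -/
def hT1 (y e p W1 W2 W3 : ℝ) : ℝ :=
  6 * (-(V1 y * e + V y * p) * W1 + -(V y * e) * W2) * p + 3 * (V y * e) ^ 2 * W1
    - 4 * W1 * (p - 5 * ((Q y + e) ^ 4 * (Q1 y + p) - Q y ^ 4 * Q1 y)) * p
    - 2 * W2 * (e - ((Q y + e) ^ 5 - Q y ^ 5)) * p
    - W1 * (e - ((Q y + e) ^ 5 - Q y ^ 5)) ^ 2 + W3 * p ^ 2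

/-- Terms linear in `e` and in the parameters. -/
def hT2 (β γ y e W W1 : ℝ) : ℝ :=
  β * (4 * e * Q y * W + 2 * e * W1 * LQ1 y) - 2 * γ * W1 * Q2 y * e

/-- Terms quadratic in `e`, linear in the parameters (without the dilation of the weight). -/
def hT3 (β γ y e p W W1 : ℝ) : ℝ := -(γ * W1 * hH y e p) - 2 * β * W * (p ^ 2 - PP y e)

def HStmt : Prop := ∀ (e ey : ℝ → ℝ → ℝ) (lam β γ : ℝ → ℝ) (s : ℝ), FlowAt e ey lam β γ 1 s →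
  ∀ W W1 W2 W3 W4 : ℝ → ℝ, Wt W W1 W2 W3 → (∀ y, HasDerivAt W3 (W4 y) y) → Bdd W4 →
    (∀ y, 0 ≤ W1 y) → DiniLe (fun z => qH W (e z) (ey z)) s
      (∫ y, (hT1 y (e s y) (ey s y) (W1 y) (W2 y) (W3 y) + hT2 (β s) (γ s) y (e s y) (W y) (W1 y)
        + hT3 (β s) (γ s) y (e s y) (ey s y) (W y) (W1 y)
        + β s * (hH y (e s y) (ey s y) * (y * W1 y))))

/-- `ω = W φ` and its first and third derivatives. -/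
def om (r A K B y : ℝ) : ℝ := WW r A B y * ph r A K y
def om1 (r A K B y : ℝ) : ℝ := WW1 r A B y * ph r A K y + WW r A B y * ph1 r A K y
def om3 (r A K B y : ℝ) : ℝ := WW3 r A B y * ph r A K y + 3 * (WW2 r A B y * ph1 r A K y)
  + 3 * (WW1 r A B y * ph2 r A K y) + WW r A B y * ph3 r A K y

namespace Dat

variable (X : Dat)

/-- The slow drift `κ y / s - A'/r` of the steps centred at `A / r`. -/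
def dr (s y : ℝ) : ℝ := X.κ * y / s - X.CA / (s * X.r s)

def I1 (B s : ℝ) : ℝ := ∫ y, hT1 y (X.e s y) (X.ey s y) (WW1 (X.r s) (X.A s) B y)
  (WW2 (X.r s) (X.A s) B y) (WW3 (X.r s) (X.A s) B y)
def I2 (B s : ℝ) : ℝ := ∫ y, hT2 (X.β s) (X.γ s) y (X.e s y) (WW (X.r s) (X.A s) B y)
  (WW1 (X.r s) (X.A s) B y)
def I3 (B s : ℝ) : ℝ := ∫ y, hT3 (X.β s) (X.γ s) y (X.e s y) (X.ey s y)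
  (WW (X.r s) (X.A s) B y) (WW1 (X.r s) (X.A s) B y)
def I4 (B s : ℝ) : ℝ := ∫ y, (hH y (X.e s y) (X.ey s y) *
    (X.CA / (s * B) * WW (X.r s) (X.A s) B y + X.dr s y * WW1 (X.r s) (X.A s) B y)
  - (Q y + X.e s y) ^ 2 * (X.CA / (s * B) * om (X.r s) (X.A s) X.K B y
    + X.dr s y * om1 (X.r s) (X.A s) X.K B y))
def I5 (B s : ℝ) : ℝ := -∫ y, (fl1 (Q y + X.e s y) (Q1 y + X.ey s y)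
    (om1 (X.r s) (X.A s) X.K B y) (om3 (X.r s) (X.A s) X.K B y)
  - (1 + X.γ s) * ((Q y + X.e s y) ^ 2 * om1 (X.r s) (X.A s) X.K B y))

end Dat

def ContStmt : Prop := ∀ (X : Dat) (B : ℝ), 0 < B → ∀ s, X.s0 < s →
  ContinuousAt X.f s ∧ ContinuousAt X.E s ∧ ContinuousAt (X.D B) s ∧ ContinuousAt (X.F B) s

def R1Stmt : Prop := ∀ X : Dat, ∃ C : ℝ, ∀ᶠ s in atTop, ∃ a' : ℝ, HasDerivAt X.a a' s ∧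
  |a' + X.β s * X.a s / 2| ≤ C * (Real.sqrt (X.f s) + X.tau s)

def R2Stmt : Prop := ∀ X : Dat, ∃ C : ℝ, ∀ᶠ s in atTop, 0 ≤ X.m s ∧ ∃ m' : ℝ,
  HasDerivAt X.m m' s ∧ m' ≤ -(X.a s ^ 2 / 4) + C * X.tau s

def R3Stmt : Prop := ∀ X : Dat, ∃ C : ℝ, ∀ᶠ s in atTop,
  DiniLe X.E s (-(2 * X.β s * X.E s) - X.f s / 8 + C * (X.a s ^ 6 + X.tau s))

def R4Stmt : Prop := ∀ X : Dat, ∃ c C : ℝ, 0 < c ∧ ∀ᶠ s in atTop,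
  c * (X.Kf s + X.k6 s) ≤ X.E s + C * (X.lam s ^ 2 + X.a s ^ 4 + X.tau s)

def E2Stmt : Prop := ∀ (X : Dat) (B : ℝ), 0 < B → ∀ s, X.s0 < s →
  DiniLe (X.F B) s (X.I1 B s + X.I2 B s + X.I3 B s + X.I4 B s + X.I5 B s)

def I1Stmt : Prop := ∀ X : Dat, ∃ C0 : ℝ, 0 ≤ C0 ∧ ∀ B : ℝ, 1000 * X.CA ≤ B → ∀ᶠ s in atTop,
  X.I1 B s ≤ -(X.r0 / (4 * B) * X.D B s) + C0 / B * X.N s

def I2Stmt : Prop := ∀ X : Dat, ∃ C0 : ℝ, 0 ≤ C0 ∧ ∀ B : ℝ, 1000 * X.CA ≤ B → ∃ C : ℝ,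
  ∀ᶠ s in atTop, X.I2 B s ≤ C0 / B * X.N s + C * X.μ s ^ 2

def I3Stmt : Prop := ∀ (X : Dat) (B : ℝ), 1000 * X.CA ≤ B → ∃ C : ℝ, ∀ ε : ℝ, 0 < ε →
  ∀ᶠ s in atTop, X.I3 B s ≤ ε * X.D B s + C * (Lm s * X.Z s)

def I4Stmt : Prop := ∀ (X : Dat) (B : ℝ), 1000 * X.CA ≤ B → ∃ C : ℝ, ∀ ε : ℝ, 0 < ε →
  ∀ᶠ s in atTop, X.I4 B s ≤ ε * X.D B s + C * (Lm s * X.Z s)

def I5Stmt : Prop := ∀ (X : Dat) (B : ℝ), 1000 * X.CA ≤ B → ∃ C : ℝ,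
  ∀ᶠ s in atTop, X.I5 B s ≤ C * (Lm s * X.Z s)

def E4Stmt : Prop := ∃ c ε0 : ℝ, 0 < c ∧ 0 < ε0 ∧ ∀ X : Dat, X.r1 ≤ ε0 * X.K →
  ∀ B : ℝ, 1000 * X.CA ≤ B → ∃ C : ℝ, ∀ᶠ s in atTop,
    c * X.D B s - C * (Lm s * X.Z s) ≤ X.F B s ∧ X.F B s ≤ C * (X.D B s + Lm s * X.Z s)

def JRStmt : Prop := ∀ (X : Dat) (B : ℝ), 1000 * X.CA ≤ B → ∃ C : ℝ, ∀ᶠ s in atTop,
  ∃ J' : ℝ, HasDerivAt X.JR J' s ∧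
    |J' - (2 * X.μ s - mm ^ 2 / 2 * X.β s + mm * X.a s + X.β s * X.JR s / 2)|
      ≤ C * (X.D B s + X.a s ^ 2 + Real.sqrt (X.f s) + s ^ (-(3 : ℝ) / 2))

def JLStmt : Prop := ∀ (X : Dat) (B : ℝ), 1000 * X.CA ≤ B → ∃ C : ℝ, ∀ᶠ s in atTop,
  ∃ J' : ℝ, HasDerivAt X.JL J' s ∧
    |J' - (2 * X.μ s + mm ^ 2 / 2 * X.β s + mm * X.aL s)|
      ≤ C * (Lm s * X.D B s + s ^ (-(3 : ℝ) / 2))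

def MMStmt : Prop := ∀ (X : Dat) (B : ℝ), 1000 * X.CA ≤ B → ∃ C : ℝ, ∀ᶠ s in atTop,
  ∃ M' : ℝ, HasDerivAt X.MM M' s ∧ ∀ ω : ℝ,
    M' ≤ X.a s ^ 2 + ω ^ 2 - 2 * ω * X.aL s + C * (Real.sqrt (X.f s) * |X.a s| + X.f s + X.tau s
      + Lm s * ((Real.sqrt (X.D B s) + 1 / s) * (X.D B s + X.a s ^ 2 + X.f s) + X.D B s ^ 2))

def BdJStmt : Prop := ∀ (X : Dat) (B : ℝ), 1000 * X.CA ≤ B → ∃ C : ℝ, ∀ᶠ s in atTop,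
  X.JR s ^ 2 + X.JL s ^ 2 ≤ C * (Lm s * X.D B s)

def BdMStmt : Prop := ∀ (X : Dat) (B : ℝ), 1000 * X.CA ≤ B → ∃ C : ℝ, ∀ᶠ s in atTop,
  X.D B s ≤ C * Lm s ∧ |X.MM s - 2 * X.μ s| ≤ C * (Lm s * X.D B s + X.tau s) ∧
    Nw (B / X.r1) (X.e s) (X.ey s) ≤ 4 * X.D B s + C * X.Z s

def MuStmt : Prop := ∀ X : Dat, Tendsto X.μ atTop (𝓝 0) ∧ ∃ C : ℝ, ∀ᶠ s in atTop,
  ∃ μ' : ℝ, HasDerivAt X.μ μ' s ∧ |μ'| ≤ C * X.N s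

/-- The conclusion in rescaled time. -/
def MainEStmt : Prop := ∀ (κ s0 r0 r1 M η d Cp : ℝ) (e ey : ℝ → ℝ → ℝ) (lam β γ : ℝ → ℝ),
  Setup κ s0 r0 r1 M η d Cp e ey lam β γ → 3 / 2 ≤ κ → κ = 2

end

end Pool.Agent.MP_8339a4_an
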