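import Pool.Agent.MP_8339a4_an.EA

/-! The derivative of the left functional. -/

open MeasureTheory Filter Topology Set

namespace Pool.Agent.MP_8339a4_an

theorem am_JLJ (a b : ℝ) : |a| * |b| * 2 ≤ a ^ 2 + b ^ 2 := by
  nlinarith [sq_nonneg (|a| - |b|), sq_abs a, sq_abs b]

theorem pt_JLJ {e L yL q v N c c1 w x τ β γ m g env : ℝ} (he : |e| ≤ 1) (hL : |L| ≤ 2 * w)
    (hyL : |yL| ≤ 2 * w) (hq : |q| ≤ w) (hv0 : 0 ≤ v) (hv : v ≤ 12 * w) (hN : |N| ≤ 50 * e ^ 2)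
    (h0 : 0 ≤ c1) (h1 : c1 ≤ τ * x) (h2 : 0 ≤ c) (h3 : c ≤ τ * x) (h4 : x * w ≤ env)
    (h5 : w ≤ env) (hτ : 0 ≤ τ) (hβ : |β| ≤ 1) (hγ : |γ| ≤ 1) :
    |-(m * (e * v * c1)) + N * (L - m * c1) - β * m * L * c + γ * m * q * c + β * e * yL
        - γ * e * L + γ * m * e * c1 - m * e * c1 * g|
      ≤ (15 * |m| * τ + β ^ 2 + γ ^ 2) * env + 102 * (w * e ^ 2) + 52 * |m| * (c1 * e ^ 2)
        + |m| * (c1 * (γ ^ 2 + g ^ 2)) := by
  have hw : 0 ≤ w := (abs_nonneg _).trans hq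
  have hm := abs_nonneg m
  have hmt : 0 ≤ |m| * τ := mul_nonneg hm hτ
  have k : |m| * τ * (x * w) ≤ |m| * τ * env := mul_le_mul_of_nonneg_left h4 hmt
  have t1 : |m * (e * v * c1)| ≤ |m| * (1 * (12 * w) * (τ * x)) := by
    rw [abs_mul, abs_mul, abs_mul, abs_of_nonneg hv0, abs_of_nonneg h0]
    gcongr
  have t2 : |N * (L - m * c1)| ≤ 50 * e ^ 2 * (2 * w + |m| * c1) := by
    rw [abs_mul]
    have : |L - m * c1| ≤ 2 * w + |m| * c1 := by
      refine (abs_sub _ _).trans ?_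
      rw [abs_mul, abs_of_nonneg h0]
      linarith
    gcongr
  have t3 : |β * m * L * c| ≤ 1 * |m| * (2 * w) * (τ * x) := by
    rw [abs_mul, abs_mul, abs_mul, abs_of_nonneg h2]
    gcongr
  have t4 : |γ * m * q * c| ≤ 1 * |m| * w * (τ * x) := by
    rw [abs_mul, abs_mul, abs_mul, abs_of_nonneg h2]
    gcongr
  have t5 : |β * e * yL| ≤ β ^ 2 * env + w * e ^ 2 := by
    rw [abs_mul, abs_mul]
    have a1 : |β| * |e| * |yL| ≤ |β| * |e| * (2 * w) := by gcongr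
    have a2 := mul_le_mul_of_nonneg_right (am_JLJ β e) hw
    have a3 := mul_le_mul_of_nonneg_left h5 (sq_nonneg β)
    linarith
  have t6 : |γ * e * L| ≤ γ ^ 2 * env + w * e ^ 2 := by
    rw [abs_mul, abs_mul]
    have a1 : |γ| * |e| * |L| ≤ |γ| * |e| * (2 * w) := by gcongr
    have a2 := mul_le_mul_of_nonneg_right (am_JLJ γ e) hw
    have a3 := mul_le_mul_of_nonneg_left h5 (sq_nonneg γ)
    linarith
  have hmc : 0 ≤ |m| * c1 := mul_nonneg hm h0
  have t7 : |γ * m * e * c1| ≤ |m| * c1 * (γ ^ 2 + e ^ 2) := by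
    rw [abs_mul, abs_mul, abs_mul, abs_of_nonneg h0]
    have a2 := mul_le_mul_of_nonneg_left (am_JLJ γ e) hmc
    have a3 : 0 ≤ |m| * c1 * (|γ| * |e|) := by positivity
    linarith
  have t8 : |m * e * c1 * g| ≤ |m| * c1 * (e ^ 2 + g ^ 2) := by
    rw [abs_mul, abs_mul, abs_mul, abs_of_nonneg h0]
    have a2 := mul_le_mul_of_nonneg_left (am_JLJ e g) hmc
    have a3 : 0 ≤ |m| * c1 * (|e| * |g|) := by positivity
    linarith
  rw [abs_le] at t1 t2 t3 t4 t5 t6 t7 t8 ⊢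
  constructor <;> linarith [t1.1, t1.2, t2.1, t2.2, t3.1, t3.2, t4.1, t4.2, t5.1, t5.2, t6.1, t6.2,
    t7.1, t7.2, t8.1, t8.2]

theorem iadd_JLJ {f g : ℝ → ℝ} (h : Integrable f) (H : Integrable g) :
    Integrable (fun y => f y + g y) := h.add H

/-- The remainder density. -/
noncomputable def R_JLJ (r A K β γ a b : ℝ) (e : ℝ → ℝ) (y : ℝ) : ℝ :=
  -(mm * (e y * V y * ph1 r (-A) K y)) + NN y (e y) * (LQ y - mm * ph1 r (-A) K y)
    - β * mm * LQ y * (1 - ph r (-A) K y) + γ * mm * Q1 y * (1 - ph r (-A) K y)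
    + β * e y * (y * LQ y) - γ * e y * LQ y + γ * mm * e y * ph1 r (-A) K y
    - mm * e y * ph1 r (-A) K y * (a * y + b)

variable {r A K B β γ : ℝ} {e ey : ℝ → ℝ}

theorem R_le_JLJ (h : WP r A K B) (h1 : ∀ y, |e y| ≤ 1) (hβ : |β| ≤ 1) (hγ : |γ| ≤ 1)
    (a b y : ℝ) : |R_JLJ r A K β γ a b e y|
      ≤ (15 * |mm| * Real.exp (-(A / K)) + β ^ 2 + γ ^ 2) *
          (Real.exp (|y| / 10) * (1 + y ^ 2) * Q y)
        + (4080 + 208 * |mm| * Real.exp (A / B)) * (pM r A K B y * (e y ^ 2 + ey y ^ 2))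
        + |mm| * (γ ^ 2 + 2 * b ^ 2) * ph1 r (-A) K y
        + 2 * |mm| * a ^ 2 * (ph1 r (-A) K y * y ^ 2) := by
  have hQ := (Q_pos y).le
  have hy := abs_nonneg y
  have hy2 := sq_abs y
  have hw : 0 ≤ (1 + y ^ 2) * Q y := by positivity
  have w1 : Q y ≤ (1 + y ^ 2) * Q y := le_mul_of_one_le_left hQ (by nlinarith)
  have hL : |LQ y| ≤ 2 * ((1 + y ^ 2) * Q y) := by
    refine (abs_LQ_le y).trans ?_
    rw [← mul_assoc]
    exact mul_le_mul_of_nonneg_right (by nlinarith [sq_nonneg (|y| - 1)]) hQ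
  have hyL : |y * LQ y| ≤ 2 * ((1 + y ^ 2) * Q y) := by
    rw [abs_mul]
    refine (mul_le_mul_of_nonneg_left (abs_LQ_le y) hy).trans ?_
    rw [← mul_assoc, ← mul_assoc]
    exact mul_le_mul_of_nonneg_right (by nlinarith [sq_nonneg (|y| - 1)]) hQ
  have hv : V y ≤ 12 * ((1 + y ^ 2) * Q y) := by
    have a1 : Q y ^ 3 ≤ (4 / 3) ^ 3 := pow_le_pow_left₀ hQ (Q_le y) 3
    have a2 := mul_le_mul_of_nonneg_right a1 hQ
    have a3 : V y = 5 * (Q y ^ 3 * Q y) := by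
      rw [V]
      ring
    linarith
  have h4 : Real.exp (|y| / 100) * ((1 + y ^ 2) * Q y)
      ≤ Real.exp (|y| / 10) * (1 + y ^ 2) * Q y := by
    rw [mul_assoc]
    exact mul_le_mul_of_nonneg_right (Real.exp_le_exp.2 (by linarith)) hw
  have h5 : (1 + y ^ 2) * Q y ≤ Real.exp (|y| / 10) * (1 + y ^ 2) * Q y := by
    rw [mul_assoc]
    exact le_mul_of_one_le_left hw (Real.one_le_exp (by positivity))
  have c0 := (ph1_pos h.hr h.K_pos (-A) y).le
  refine (pt_JLJ (m := mm) (g := a * y + b) (h1 y) hL hyL ((abs_Q1_le y).trans w1) (V_nonneg y) hv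
    (abs_NN_le y (h1 y)) c0 (chi1_le_tiny h.hr h.hK A y) (sub_nonneg.2 (ph_lt_one r (-A) K y).le)
    (one_sub_chi_le_tiny h.hr h.hK A y) h4 h5 (Real.exp_pos _).le hβ hγ).trans ?_
  have hp := (pM_pos r A K B y).le
  have hm := abs_nonneg mm
  have s1 : e y ^ 2 ≤ e y ^ 2 + ey y ^ 2 := le_add_of_nonneg_right (sq_nonneg _)
  have a1 : (1 + y ^ 2) * Q y * e y ^ 2 ≤ 40 * pM r A K B y * (e y ^ 2 + ey y ^ 2) :=
    mul_le_mul (h.Q_le_pM y) s1 (sq_nonneg _) (by positivity)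
  have a2 : ph1 r (-A) K y * e y ^ 2
      ≤ 4 * Real.exp (A / B) * pM r A K B y * (e y ^ 2 + ey y ^ 2) :=
    mul_le_mul (h.chi1_le_pM y) s1 (sq_nonneg _) (by positivity)
  have a3 := mul_le_mul_of_nonneg_left a2 hm
  have a4 : (a * y + b) ^ 2 ≤ 2 * (a * y) ^ 2 + 2 * b ^ 2 := by nlinarith [sq_nonneg (a * y - b)]
  have a5 := mul_le_mul_of_nonneg_left a4 (mul_nonneg hm c0)
  linarith

theorem R_int_JLJ (h : WP r A K B) (he : IsH1 e ey) (h1 : ∀ y, |e y| ≤ 1) (hβ : |β| ≤ 1)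
    (hγ : |γ| ≤ 1) (a b : ℝ) : Integrable (R_JLJ r A K β γ a b e) ∧
      |∫ y, R_JLJ r A K β γ a b e y|
        ≤ (15 * |mm| * Real.exp (-(A / K)) + β ^ 2 + γ ^ 2) * 20
          + (4080 + 208 * |mm| * Real.exp (A / B)) * qD r A K B e ey
          + |mm| * (γ ^ 2 + 2 * b ^ 2) + 2 * |mm| * a ^ 2 * (2 * (A / r) ^ 2 + 8 * (K / r) ^ 2) := by
  have x1 := expD_ph1 h.hr h.K_pos (-A)
  have i1 := expD_env.integrable
  have i2 : Integrable (fun y => pM r A K B y * (e y ^ 2 + ey y ^ 2)) :=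
    integrable_bdd_mul ((integrable_sq2 he.1).add (integrable_sq2 he.2.1)) (bdd_pM r A K B)
  have i3 := x1.integrable
  have i4 : Integrable (fun y => ph1 r (-A) K y * y ^ 2) :=
    (x1.id_mul.id_mul.congr fun y => by ring).integrable
  have j1 := i1.const_mul (15 * |mm| * Real.exp (-(A / K)) + β ^ 2 + γ ^ 2)
  have j2 := i2.const_mul (4080 + 208 * |mm| * Real.exp (A / B))
  have j3 := i3.const_mul (|mm| * (γ ^ 2 + 2 * b ^ 2))
  have j4 := i4.const_mul (2 * |mm| * a ^ 2)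
  have j12 := iadd_JLJ j1 j2
  have j123 := iadd_JLJ j12 j3
  have j := iadd_JLJ j123 j4
  have hc : Continuous (R_JLJ r A K β γ a b e) := by
    have c1 := he.continuous
    have c2 := x1.1
    have c3 := (bdd_ph r (-A) K).1
    have c4 := expD_Q.1
    have c5 := expD_Q1.1
    have c6 := expD_V.1
    have c7 := expD_LQ.1
    unfold R_JLJ NN
    fun_prop
  have hb := fun y => R_le_JLJ (ey := ey) h h1 hβ hγ a b y
  refine ⟨j.mono' hc.aestronglyMeasurable (Eventually.of_forall hb), ?_⟩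
  refine (norm_integral_le_of_norm_le (f := R_JLJ r A K β γ a b e) j
    (Eventually.of_forall hb)).trans ?_
  rw [integral_add j123 j4, integral_add j12 j3, integral_add j1 j2, integral_const_mul, integral_const_mul, integral_const_mul,
    integral_const_mul, integral_ph1 h.hr h.K_pos, mul_one]
  have b4 := integral_ph1_sq h.hr h.K_pos (-A)
  rw [neg_div, neg_sq] at b4
  have b1 := integral_env_le
  unfold qD
  gcongr

theorem id_JLJ (h : WP r A K B) (he : IsH1 e ey) (a b : ℝ)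
    (hR : Integrable (R_JLJ r A K β γ a b e)) :
    rhs0 β γ e (fun y => rho y - mm * ph r (-A) K y) (fun y => LQ y - mm * ph1 r (-A) K y)
        (fun y => LQ2 y - mm * ph3 r (-A) K y)
      + ∫ y, e y * (0 - mm * (ph1 r (-A) K y * (-(β * y) + (a * y + b))))
      = 2 * mu e + mm ^ 2 / 2 * β + mm * qaL r A K e + β * qJ r (-A) K e / 2
        + ∫ y, R_JLJ r A K β γ a b e y := by
  have x1 := expD_ph1 h.hr h.K_pos (-A)
  have x3 := expD_ph3 h.hr h.K_pos (-A)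
  have be := he.bdd
  have i1 : Integrable (fun y => e y * Q y) := (expD_Q.bdd_mul be).integrable
  have i2 : Integrable (fun y => e y * (ph1 r (-A) K y - ph3 r (-A) K y)) :=
    ((x1.sub x3).bdd_mul be).integrable
  have i3 : Integrable (fun y => LQ y * rho y) := (expD_LQ.mul_bdd bdd_rho).integrable
  have i4 := expD_LQ.integrable
  have i5 : Integrable (fun y => Q1 y * rho y) := (expD_Q1.mul_bdd bdd_rho).integrable
  have i6 := expD_Q1.integrable
  have i7 : Integrable (fun y => e y * (rho y - mm * ph r (-A) K y)) :=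
    ((test_rho_ph h.hr h.K_pos (-A)).e0.bdd_mul be).integrable
  have i8 : Integrable (fun y => e y * (0 - mm * (ph1 r (-A) K y * (-(β * y) + (a * y + b))))) :=
    ((((x1.id_mul.const_mul (mm * (β - a))).sub (x1.const_mul (mm * b))).congr
      fun y => by ring).bdd_mul be).integrable
  have z6 : ∫ y, Q1 y = 0 := isH1_Q.isPrim.integral_eq_zero expD_Q.integrable i6
  have j1 := i1.const_mul 2
  have j2 := i2.const_mul mm
  have j3 := i3.const_mul (-β)
  have j4 := i4.const_mul (β * mm)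
  have j5 := i5.const_mul γ
  have j6 := i6.const_mul (-(γ * mm))
  have j7 := i7.const_mul (β / 2)
  have k2 := iadd_JLJ j1 j2
  have k3 := iadd_JLJ k2 j3
  have k4 := iadd_JLJ k3 j4
  have k5 := iadd_JLJ k4 j5
  have k6 := iadd_JLJ k5 j6
  have k7 := iadd_JLJ k6 j7
  have k8 := iadd_JLJ k7 hR
  have e0 : rhs0 β γ e (fun y => rho y - mm * ph r (-A) K y) (fun y => LQ y - mm * ph1 r (-A) K y)
      (fun y => LQ2 y - mm * ph3 r (-A) K y) = ∫ y, (2 * (e y * Q y)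
        + mm * (e y * (ph1 r (-A) K y - ph3 r (-A) K y)) + -β * (LQ y * rho y) + β * mm * LQ y
        + γ * (Q1 y * rho y) + -(γ * mm) * Q1 y + β / 2 * (e y * (rho y - mm * ph r (-A) K y))
        + R_JLJ r A K β γ a b e y
        - e y * (0 - mm * (ph1 r (-A) K y * (-(β * y) + (a * y + b))))) := by
    unfold rhs0 R_JLJ
    congr 1
    funext y
    linear_combination (-(e y)) * L_LQ y
  rw [e0, integral_sub k8 i8, integral_add k7 hR, integral_add k6 j7, integral_add k5 j6,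
    integral_add k4 j5, integral_add k3 j4, integral_add k2 j3, integral_add j1 j2]
  simp only [integral_const_mul, integral_LQ_rho, integral_Q1_rho, z6]
  have m0 : ∫ y, LQ y = mm := rfl
  rw [m0]
  unfold mu qaL qJ
  ring

theorem sq_JLJ {c x y u q : ℝ} (hc : 0 ≤ c) (hx : 0 ≤ x) (hu : x ≤ u) (hy : 0 ≤ y) (hq : y ≤ q) :
    (c * x * y) ^ 2 ≤ (c * q) ^ 2 * u ^ 2 := by
  have hu0 := hx.trans hu
  have : c * x * y ≤ c * u * q := by gcongr
  calc (c * x * y) ^ 2 ≤ (c * u * q) ^ 2 := by gcongr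
    _ = _ := by ring

theorem jlJ (h : BdJStmt) : JLStmt := by
  intro X B hB
  obtain ⟨C1, h1⟩ := h X B hB
  obtain ⟨C2, c2, h2⟩ := X.par_le
  have hm := abs_nonneg mm
  let q := X.r0⁻¹
  let P := |C1| + 8 * C2 * (21 + |mm|) + (4080 + 208 * |mm|)
  let S := 300 * |mm| + |mm| * (2 * (X.CA * q) ^ 2 + 4 * (X.κ * q) ^ 2 + 16 * (X.κ * X.K * q) ^ 2)
  have hP : 0 ≤ P := by positivity
  have hS : 0 ≤ S := by positivity
  refine ⟨P + S, ?_⟩
  filter_upwards [h1, X.ev_gt, X.ev_sup one_pos, X.ev_par one_pos, X.ev_log_sq] with s b1 hs b2 b3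
    b4
  have s1 := X.one_lt hs
  have s0 : 0 < s := one_pos.trans s1
  have hr := X.r_pos hs
  have hw := X.wp hs hB
  have he := X.h1 hs
  have fl := X.st.flow s hs
  have ts := test_rho_ph hr X.K_pos (-(X.A s))
  have me := ((ME.const (s := s) bdd_rho.1).sub
    ((me_ph (X.hasDerivAt_r hs) (X.hasDerivAt_A hs).neg hr X.K_pos).const_mul mm)).congr
    (w' := fun z y => rho y - mm * ph (X.r z) (-(X.A z)) X.K y)
    (wt' := fun y => 0 - mm * (ph1 (X.r s) (-(X.A s)) X.K y *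
      (-(X.β s * y) + (X.κ / s * y + X.CA / (s * X.r s)))))
    (Eventually.of_forall fun _ _ => rfl) (fun y => by
      simp only [Pi.neg_apply]
      congr 3
      field_simp
      ring)
  have hd := mov_l2 fl.h1t.l2 me ts.e0.memLp (fl.d0 _ _ _ _ ts)
  obtain ⟨iR, bR⟩ := R_int_JLJ hw he b2 b3.1 b3.2 (X.κ / s) (X.CA / (s * X.r s))
  rw [one_mul, id_JLJ hw he _ _ iR] at hd
  refine ⟨_, hd, ?_⟩
  have hD : 0 ≤ X.D B s := X.D_nonneg B s
  have hL := one_le_Lm s1.le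
  have hT : 0 ≤ s ^ (-(3 : ℝ) / 2) := by positivity
  have d1 : X.D B s ≤ Lm s * X.D B s := le_mul_of_one_le_left hD hL
  have hLD := hD.trans d1
  have d2 : X.β s ^ 2 + X.γ s ^ 2 ≤ 8 * C2 * (Lm s * X.D B s) := by
    have a1 : X.N s ≤ 8 * X.D B s := hw.N0_le he
    have a2 := mul_le_mul_of_nonneg_left (a1.trans (by linarith : _ ≤ 8 * (Lm s * X.D B s))) c2
    linarith [h2 s hs]
  have d3 : X.JL s ^ 2 ≤ |C1| * (Lm s * X.D B s) := by
    have := mul_le_mul_of_nonneg_right (le_abs_self C1) hLD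
    linarith [sq_nonneg (X.JR s)]
  have d4 : Real.exp (-(X.A s / X.K)) ≤ s ^ (-(3 : ℝ) / 2) :=
    (X.exp_le_tau s1.le).trans (X.tau_le s1.le (by norm_num))
  have d5 : Real.exp (X.A s / B) * X.D B s ≤ Lm s * X.D B s :=
    mul_le_mul_of_nonneg_right (X.exp_le_Lm hB s1.le) hD
  have hA := X.A_nonneg s1.le
  have u1 : 1 / s ≤ (1 + X.A s) / s := by
    gcongr
    linarith
  have u2 : X.A s / s ≤ (1 + X.A s) / s := by
    gcongr
    linarith
  have u3 : (X.r s)⁻¹ ≤ q := inv_anti₀ X.r0_pos (X.r_ge hs)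
  have u4 : 0 ≤ (X.r s)⁻¹ := by positivity
  have f1 : (X.CA / (s * X.r s)) ^ 2 ≤ (X.CA * q) ^ 2 * s ^ (-(3 : ℝ) / 2) := by
    refine le_trans (le_of_eq_of_le ?_ (sq_JLJ X.CA_pos.le (by positivity) u1 u4 u3))
      (mul_le_mul_of_nonneg_left b4 (sq_nonneg _))
    field_simp
  have f2 : (X.κ / s) ^ 2 * (X.A s / X.r s) ^ 2 ≤ (X.κ * q) ^ 2 * s ^ (-(3 : ℝ) / 2) := by
    refine le_trans (le_of_eq_of_le ?_ (sq_JLJ X.κ_pos.le (by positivity) u2 u4 u3))
      (mul_le_mul_of_nonneg_left b4 (sq_nonneg _))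
    field_simp
  have f3 : (X.κ / s) ^ 2 * (X.K / X.r s) ^ 2 ≤ (X.κ * X.K * q) ^ 2 * s ^ (-(3 : ℝ) / 2) := by
    refine le_trans (le_of_eq_of_le ?_
      (sq_JLJ (mul_pos X.κ_pos X.K_pos).le (by positivity) u1 u4 u3))
      (mul_le_mul_of_nonneg_left b4 (sq_nonneg _))
    field_simp
  have g0 : |X.β s * X.JL s / 2| ≤ X.β s ^ 2 + X.JL s ^ 2 := by
    rw [abs_div, abs_mul, abs_two]
    have := am_JLJ (X.β s) (X.JL s)
    have : 0 ≤ |X.β s| * |X.JL s| := by positivity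
    linarith
  have g1 := mul_le_mul_of_nonneg_left d4 hm
  have g2 := mul_le_mul_of_nonneg_left d5 hm
  have g3 := mul_le_mul_of_nonneg_left f1 hm
  have g4 := mul_le_mul_of_nonneg_left f2 hm
  have g5 := mul_le_mul_of_nonneg_left f3 hm
  have g6 : X.γ s ^ 2 ≤ 8 * C2 * (Lm s * X.D B s) := by linarith [sq_nonneg (X.β s)]
  have g7 := mul_le_mul_of_nonneg_left g6 hm
  have g8 := mul_nonneg hP hT
  have g9 := mul_nonneg hS hLD
  have key : 2 * mu (X.e s) + mm ^ 2 / 2 * X.β s + mm * qaL (X.r s) (X.A s) X.K (X.e s)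
      + X.β s * qJ (X.r s) (-(X.A s)) X.K (X.e s) / 2
      + (∫ y, R_JLJ (X.r s) (X.A s) X.K (X.β s) (X.γ s) (X.κ / s) (X.CA / (s * X.r s)) (X.e s) y)
      - (2 * X.μ s + mm ^ 2 / 2 * X.β s + mm * X.aL s) = X.β s * X.JL s / 2
      + ∫ y, R_JLJ (X.r s) (X.A s) X.K (X.β s) (X.γ s) (X.κ / s) (X.CA / (s * X.r s)) (X.e s) y := by
    unfold Dat.μ Dat.aL Dat.JL
    ring
  rw [key]
  refine (abs_add_le _ _).trans ((add_le_add g0 bR).trans ?_)
  change _ + (_ + _ * X.D B s + _ + _) ≤ _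
  simp only [P, S] at g8 g9 ⊢
  linarith [sq_nonneg (X.γ s)]

end Pool.Agent.MP_8339a4_an
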