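import Pool.Agent.MP_8339a4_an.Api

/-! Tools for the existence of modulation parameters. -/

open MeasureTheory Filter Topology Set

namespace Pool.Agent.MP_8339a4_an

noncomputable section

/-- Zeros of maps close to the identity. -/
theorem ift_ModA {l : Filter ℝ} (F : ℝ → ℝ × ℝ → ℝ × ℝ) (x0 : ℝ × ℝ) {δ : ℝ} (hδ : 0 < δ)
    (hA : ∀ᶠ t in l, ∀ x ∈ Metric.closedBall x0 δ, ∀ y ∈ Metric.closedBall x0 δ,
      ‖F t y - F t x - (y - x)‖ ≤ 1 / 2 * ‖y - x‖)
    (h0 : Tendsto (fun t => F t x0) l (𝓝 0)) :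
    ∃ x : ℝ → ℝ × ℝ, Tendsto x l (𝓝 x0) ∧ ∀ᶠ t in l, x t ∈ Metric.closedBall x0 δ ∧
      F t (x t) = 0 ∧ ∀ y ∈ Metric.closedBall x0 δ, ‖x t - y‖ ≤ 2 * ‖F t y‖ := by
  have h1 : ∀ᶠ t in l, ‖F t x0‖ < δ / 2 := by
    have := h0.norm
    rw [norm_zero] at this
    exact this.eventually (gt_mem_nhds (half_pos hδ))
  have key : ∀ t, ∃ x : ℝ × ℝ, ((∀ x ∈ Metric.closedBall x0 δ, ∀ y ∈ Metric.closedBall x0 δ,
      ‖F t y - F t x - (y - x)‖ ≤ 1 / 2 * ‖y - x‖) ∧ ‖F t x0‖ < δ / 2) →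
      x ∈ Metric.closedBall x0 δ ∧ F t x = 0 ∧
        ∀ y ∈ Metric.closedBall x0 δ, ‖x - y‖ ≤ 2 * ‖F t y‖ := by
    intro t
    by_cases h : (∀ x ∈ Metric.closedBall x0 δ, ∀ y ∈ Metric.closedBall x0 δ,
      ‖F t y - F t x - (y - x)‖ ≤ 1 / 2 * ‖y - x‖) ∧ ‖F t x0‖ < δ / 2
    swap
    · exact ⟨x0, fun h' => absurd h' h⟩
    have h2 : ApproximatesLinearOn (F t) (ContinuousLinearMap.id ℝ (ℝ × ℝ))
        (Metric.closedBall x0 δ) (1 / 2) := by
      intro x hx y hy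
      simpa using h.1 y hy x hx
    obtain ⟨x, hx, hx0⟩ := h2.surjOn_closedBall_of_nonlinearRightInverse
      ⟨id, 1, by simp, by simp⟩ hδ.le subset_rfl (show (0 : ℝ × ℝ) ∈ _ by
        rw [Metric.mem_closedBall, dist_zero_left]
        have := h.2
        push_cast
        linarith)
    refine ⟨x, fun _ => ⟨hx, hx0, fun y hy => ?_⟩⟩
    have h3 := h.1 y hy x hx
    rw [hx0] at h3
    have h4 : ‖x - y‖ ≤ ‖0 - F t y - (x - y)‖ + ‖F t y‖ := by
      have : x - y = -(0 - F t y - (x - y)) - F t y := by abel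
      calc ‖x - y‖ = ‖-(0 - F t y - (x - y)) - F t y‖ := by rw [← this]
        _ ≤ ‖-(0 - F t y - (x - y))‖ + ‖F t y‖ := norm_sub_le _ _
        _ = _ := by rw [norm_neg]
    linarith
  choose x hx using key
  have h5 := (hA.and h1).mono fun t ht => hx t ht
  refine ⟨x, ?_, h5⟩
  rw [tendsto_iff_norm_sub_tendsto_zero]
  refine squeeze_zero' (Eventually.of_forall fun _ => norm_nonneg _)
    (h5.mono fun t ht => ht.2.2 x0 (Metric.mem_closedBall_self hδ.le)) ?_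
  simpa using h0.norm.const_mul 2

/-- Mean value inequality along segments. -/
theorem seg_ModA (H Ha Hb : ℝ × ℝ → ℝ) (S : Set (ℝ × ℝ)) (hS : Convex ℝ S)
    (hd : ∀ (p q : ℝ → ℝ) (p' q' s : ℝ), HasDerivAt p p' s → HasDerivAt q q' s →
      (p s, q s) ∈ S →
      HasDerivAt (fun z => H (p z, q z)) (Ha (p s, q s) * p' + Hb (p s, q s) * q') s)
    (α β ε : ℝ) (hab : ∀ x ∈ S, |Ha x - α| ≤ ε ∧ |Hb x - β| ≤ ε) :
    ∀ x ∈ S, ∀ y ∈ S, |H y - H x - (α * (y.1 - x.1) + β * (y.2 - x.2))| ≤ 2 * ε * ‖y - x‖ := by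
  intro x hx y hy
  set d1 := y.1 - x.1 with hd1
  set d2 := y.2 - x.2 with hd2
  have hm : ∀ s ∈ Icc (0 : ℝ) 1, (x.1 + s * d1, x.2 + s * d2) ∈ S := by
    intro s hs
    have := hS.add_smul_sub_mem hx hy hs
    exact this
  have hp : ∀ c d s : ℝ, HasDerivAt (fun z => c + z * d) d s := fun c d s => by
    simpa using ((hasDerivAt_id s).mul_const d).const_add c
  have h1 := norm_image_sub_le_of_norm_deriv_le_segment_01'
    (f := fun s => H (x.1 + s * d1, x.2 + s * d2) - s * (α * d1 + β * d2))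
    (f' := fun s => Ha (x.1 + s * d1, x.2 + s * d2) * d1 + Hb (x.1 + s * d1, x.2 + s * d2) * d2
      - (α * d1 + β * d2)) (C := 2 * ε * ‖y - x‖)
    (fun s hs => by
      have h2 := (hd _ _ _ _ s (hp x.1 d1 s) (hp x.2 d2 s) (hm s hs)).sub
        ((hasDerivAt_id s).mul_const (α * d1 + β * d2))
      rw [one_mul] at h2
      exact h2.hasDerivWithinAt)
    (fun s hs => by
      obtain ⟨ha, hb⟩ := hab _ (hm s ⟨hs.1, hs.2.le⟩)
      have e1 : |d1| ≤ ‖y - x‖ := norm_fst_le (y - x)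
      have e2 : |d2| ≤ ‖y - x‖ := norm_snd_le (y - x)
      have e3 : Ha (x.1 + s * d1, x.2 + s * d2) * d1 + Hb (x.1 + s * d1, x.2 + s * d2) * d2
          - (α * d1 + β * d2) = (Ha (x.1 + s * d1, x.2 + s * d2) - α) * d1 +
            (Hb (x.1 + s * d1, x.2 + s * d2) - β) * d2 := by ring
      have e0 : 0 ≤ ε := (abs_nonneg _).trans ha
      rw [Real.norm_eq_abs, e3]
      refine (abs_add_le _ _).trans ?_
      rw [abs_mul, abs_mul]
      have e4 := mul_le_mul ha e1 (abs_nonneg _) e0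
      have e5 := mul_le_mul hb e2 (abs_nonneg _) e0
      linarith)
  have e6 : (x.1 + 1 * d1, x.2 + 1 * d2) = y := by
    ext <;> simp [hd1, hd2]
  have e7 : (x.1 + 0 * d1, x.2 + 0 * d2) = x := by
    ext <;> simp
  simp only [e6, e7, Real.norm_eq_abs] at h1
  convert h1 using 2
  ring

/-- Bounded in `L^2` and converging to `Q` in the weighted sense. -/
def WK_ModA {α : Type} (l : Filter α) (f : α → ℝ → ℝ) : Prop :=
  (∃ M : ℝ, ∀ᶠ z in l, MemLp (f z) 2 volume ∧ ∫ y, f z y ^ 2 ≤ M) ∧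
    ∀ c : ℝ, 0 < c → Tendsto (fun z => ∫ y, ((f z y - Q y) * Real.exp (-(c * |y|))) ^ 2) l (𝓝 0)

theorem WK_comp_ModA {α β : Type} {l : Filter α} {l' : Filter β} {f : α → ℝ → ℝ}
    (h : WK_ModA l f) {τ : β → α} (hτ : Tendsto τ l' l) : WK_ModA l' (fun z => f (τ z)) := by
  obtain ⟨⟨M, hM⟩, h2⟩ := h
  exact ⟨⟨M, hτ.eventually hM⟩, fun c hc => (h2 c hc).comp hτ⟩

theorem WK_of_loc_ModA {α : Type} {l : Filter α} {f : α → ℝ → ℝ} {M : ℝ}
    (hM : ∀ᶠ z in l, MemLp (f z) 2 volume ∧ ∫ y, f z y ^ 2 ≤ M)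
    (h : ∀ R : ℝ, 0 < R → Tendsto (fun z => ∫ y in (-R)..R, (f z y - Q y) ^ 2) l (𝓝 0)) :
    WK_ModA l f := by
  refine ⟨⟨M, hM⟩, fun c hc => ?_⟩
  set M' : ℝ := 2 * M + 2 * ∫ y, Q y ^ 2 with hM'
  rw [Metric.tendsto_nhds]
  intro ε hε
  have h1 : Tendsto (fun R : ℝ => Real.exp (-(c * R)) * M') atTop (𝓝 (0 * M')) :=
    (Real.tendsto_exp_neg_atTop_nhds_zero.comp (tendsto_id.const_mul_atTop hc)).mul_const M'
  rw [zero_mul] at h1
  obtain ⟨R, hR, hR0⟩ := ((h1.eventually (gt_mem_nhds (half_pos hε))).and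
    (eventually_gt_atTop 0)).exists
  filter_upwards [hM, (h R hR0).eventually (gt_mem_nhds (half_pos hε))] with z hz h2
  have m1 : MemLp (fun y => f z y - Q y) 2 volume := hz.1.sub expD_Q.memLp
  have i1 := integrable_sq2 m1
  have i2 := integrable_sq2 (memLp_mul_bdd m1 (ExpD.exp_neg_abs hc).bdd)
  have h3 : ∫ y, (f z y - Q y) ^ 2 ≤ M' := by
    calc ∫ y, (f z y - Q y) ^ 2 ≤ ∫ y, (2 * f z y ^ 2 + 2 * Q y ^ 2) :=
          integral_mono i1 (((integrable_sq2 hz.1).const_mul 2).add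
            ((integrable_sq2 expD_Q.memLp).const_mul 2)) fun y => by
              nlinarith [sq_nonneg (f z y + Q y)]
      _ = 2 * (∫ y, f z y ^ 2) + 2 * ∫ y, Q y ^ 2 := by
          rw [integral_add ((integrable_sq2 hz.1).const_mul 2)
            ((integrable_sq2 expD_Q.memLp).const_mul 2), integral_const_mul, integral_const_mul]
      _ ≤ M' := by linarith [hz.2]
  have h4 : ∫ y, ((f z y - Q y) * Real.exp (-(c * |y|))) ^ 2 ≤
      (∫ y in (-R)..R, (f z y - Q y) ^ 2) + Real.exp (-(c * R)) * ∫ y, (f z y - Q y) ^ 2 := by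
    rw [intervalIntegral.integral_of_le (by linarith), ← integral_indicator measurableSet_Ioc,
      ← integral_const_mul, ← integral_add (i1.indicator measurableSet_Ioc) (i1.const_mul _)]
    refine integral_mono i2 ((i1.indicator measurableSet_Ioc).add (i1.const_mul _)) fun y => ?_
    have e1 : Real.exp (-(c * |y|)) ≤ 1 := Real.exp_le_one_iff.2 (by
      have := mul_nonneg hc.le (abs_nonneg y)
      linarith)
    have e2 := Real.exp_pos (-(c * |y|))
    have e3 := Real.exp_pos (-(c * R))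
    have e4 := sq_nonneg (f z y - Q y)
    have e5 : Real.exp (-(c * |y|)) ^ 2 ≤ Real.exp (-(c * |y|)) := by nlinarith
    simp only [mul_pow]
    by_cases hy : y ∈ Ioc (-R) R
    · rw [indicator_of_mem hy]
      nlinarith [mul_nonneg e3.le e4, mul_le_mul_of_nonneg_left (e5.trans e1) e4]
    · rw [indicator_of_notMem hy]
      have e6 : R ≤ |y| := by
        rw [mem_Ioc, not_and_or, not_lt, not_le] at hy
        rcases hy with hy | hy
        · exact le_abs.2 (Or.inr (by linarith))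
        · exact le_abs.2 (Or.inl hy.le)
      have e7 : Real.exp (-(c * |y|)) ≤ Real.exp (-(c * R)) :=
        Real.exp_le_exp.2 (by nlinarith)
      nlinarith [mul_le_mul_of_nonneg_left (e5.trans e7) e4]
  have h5 : 0 ≤ ∫ y, ((f z y - Q y) * Real.exp (-(c * |y|))) ^ 2 :=
    integral_nonneg fun y => sq_nonneg _
  have h6 := mul_le_mul_of_nonneg_left h3 (Real.exp_pos (-(c * R))).le
  rw [Real.dist_eq, sub_zero, abs_of_nonneg h5]
  linarith

/-- Weak times strong convergence. -/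
theorem WS_ModA {α : Type} {l : Filter α} {f g : α → ℝ → ℝ} {g0 : ℝ → ℝ} (h : WK_ModA l f)
    (hg : L2T l g g0) (e0 : ExpD g0) :
    Tendsto (fun z => ∫ y, f z y * g z y) l (𝓝 (∫ y, Q y * g0 y)) := by
  obtain ⟨⟨M, hM⟩, h2⟩ := h
  obtain ⟨C, c, hc, hC⟩ := e0.2
  have hc2 : 0 < c / 2 := half_pos hc
  have e1 : ExpD fun y => g0 y * Real.exp (c / 2 * |y|) := by
    refine ⟨e0.1.mul (by fun_prop), C, c / 2, hc2, fun y => ?_⟩
    rw [abs_mul, abs_of_pos (Real.exp_pos _)]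
    calc |g0 y| * Real.exp (c / 2 * |y|) ≤ C * Real.exp (-(c * |y|)) * Real.exp (c / 2 * |y|) :=
          mul_le_mul_of_nonneg_right (hC y) (Real.exp_pos _).le
      _ = C * Real.exp (-(c / 2 * |y|)) := by
          rw [mul_assoc, ← Real.exp_add]
          congr 2
          ring
  rw [tendsto_iff_norm_sub_tendsto_zero]
  have h3 : Tendsto (fun z => Real.sqrt M * Real.sqrt (∫ y, (g z y - g0 y) ^ 2) +
      Real.sqrt (∫ y, ((f z y - Q y) * Real.exp (-(c / 2 * |y|))) ^ 2) *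
        Real.sqrt (∫ y, (g0 y * Real.exp (c / 2 * |y|)) ^ 2)) l (𝓝 0) := by
    have := (hg.2.2.sqrt.const_mul (Real.sqrt M)).add ((h2 _ hc2).sqrt.mul_const
      (Real.sqrt (∫ y, (g0 y * Real.exp (c / 2 * |y|)) ^ 2)))
    simpa using this
  refine squeeze_zero' (Eventually.of_forall fun _ => norm_nonneg _) ?_ h3
  filter_upwards [hM, hg.1] with z hz hz'
  have m1 : MemLp (fun y => g z y - g0 y) 2 volume := hz'.sub hg.2.1
  have m2 : MemLp (fun y => (f z y - Q y) * Real.exp (-(c / 2 * |y|))) 2 volume :=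
    memLp_mul_bdd (hz.1.sub expD_Q.memLp) (ExpD.exp_neg_abs hc2).bdd
  have h4 : (∫ y, f z y * g z y) - ∫ y, Q y * g0 y = (∫ y, f z y * (g z y - g0 y)) +
      ∫ y, ((f z y - Q y) * Real.exp (-(c / 2 * |y|))) * (g0 y * Real.exp (c / 2 * |y|)) := by
    rw [← integral_sub (integrable_mul2 hz.1 hz') (integrable_mul2 expD_Q.memLp hg.2.1),
      ← integral_add (integrable_mul2 hz.1 m1) (integrable_mul2 m2 e1.memLp)]
    refine integral_congr_ae (Eventually.of_forall fun y => ?_)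
    have e2 : Real.exp (-(c / 2 * |y|)) * Real.exp (c / 2 * |y|) = 1 := by
      rw [← Real.exp_add, neg_add_cancel, Real.exp_zero]
    simp only
    linear_combination (-(f z y - Q y) * g0 y) * e2
  rw [Real.norm_eq_abs, h4]
  refine (abs_add_le _ _).trans (add_le_add ((cs2_abs hz.1 m1).trans ?_) (cs2_abs m2 e1.memLp))
  exact mul_le_mul_of_nonneg_right (Real.sqrt_le_sqrt hz.2) (Real.sqrt_nonneg _)

/-- Pairing with a dilated and translated profile. -/
def GG_ModA (θ f : ℝ → ℝ) (x : ℝ × ℝ) : ℝ := ∫ y, f y * θ (x.1 ^ 2 * y + x.2)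

/-- The same with an extra factor `y`. -/
def GA_ModA (θ f : ℝ → ℝ) (x : ℝ × ℝ) : ℝ := ∫ y, f y * (y * θ (x.1 ^ 2 * y + x.2))

theorem deriv_ModA {θ θ1 f : ℝ → ℝ} (hθ : ∀ y, HasDerivAt θ (θ1 y) y) (e0 : ExpD θ)
    (e1 : ExpD θ1) (hf : MemLp f 2 volume) {p q : ℝ → ℝ} {p' q' s : ℝ} (hp : HasDerivAt p p' s)
    (hq : HasDerivAt q q' s) (h0 : p s ≠ 0) :
    HasDerivAt (fun z => GG_ModA θ f (p z, q z))
      (2 * p s * GA_ModA θ1 f (p s, q s) * p' + GG_ModA θ1 f (p s, q s) * q') s := by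
  have h1 : p s ^ 2 ≠ 0 := pow_ne_zero 2 h0
  have hp2 : HasDerivAt (fun z => p z ^ 2) (2 * p s * p') s := by
    simpa using hp.fun_pow 2
  have h2 := mov_l2 (ρ := fun _ => f) (L2T.const hf) (me_profile hθ e1 hp2 hq h1)
    (e0.comp_affine h1 (q s)).memLp (hasDerivAt_const s _)
  have m1 := (e1.comp_affine h1 (q s)).memLp
  have m2 := (e1.comp_affine h1 (q s)).id_mul.memLp
  refine h2.congr_deriv (Eq.symm ?_)
  unfold GA_ModA GG_ModA
  rw [zero_add, mul_assoc, mul_comm _ p', ← mul_assoc, ← integral_const_mul, mul_comm _ q',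
    ← integral_const_mul, ← integral_add ((integrable_mul2 hf m2).const_mul _)
      ((integrable_mul2 hf m1).const_mul _)]
  refine integral_congr_ae (Eventually.of_forall fun y => ?_)
  simp only
  ring

theorem l2_prof_ModA {α : Type} {l : Filter α} {x : α → ℝ × ℝ} (hx : Tendsto x l (𝓝 (1, 0)))
    {θ : ℝ → ℝ} (e0 : ExpD θ) : L2T l (fun z y => θ ((x z).1 ^ 2 * y + (x z).2)) θ := by
  have h1 : Tendsto (fun z => (x z).1 ^ 2) l (𝓝 1) := by
    simpa using ((continuous_fst.tendsto _).comp hx).pow 2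
  have h2 : Tendsto (fun z => (x z).2) l (𝓝 0) := (continuous_snd.tendsto _).comp hx
  exact ((L2T.const e0.memLp).comp_affine one_ne_zero h1 h2).congr
    (Eventually.of_forall fun _ _ => rfl) fun y => by simp

theorem GG_tendsto_ModA {α : Type} {l : Filter α} {f : α → ℝ → ℝ} (h : WK_ModA l f)
    {x : α → ℝ × ℝ} (hx : Tendsto x l (𝓝 (1, 0))) {θ : ℝ → ℝ} (e0 : ExpD θ) :
    Tendsto (fun z => GG_ModA θ (f z) (x z)) l (𝓝 (∫ y, Q y * θ y)) :=
  WS_ModA h (l2_prof_ModA hx e0) e0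

theorem GA_tendsto_ModA {α : Type} {l : Filter α} {f : α → ℝ → ℝ} (h : WK_ModA l f)
    {x : α → ℝ × ℝ} (hx : Tendsto x l (𝓝 (1, 0))) {θ : ℝ → ℝ} (e0 : ExpD θ) :
    Tendsto (fun z => GA_ModA θ (f z) (x z)) l (𝓝 (∫ y, Q y * (y * θ y))) := by
  have h1 : Tendsto (fun z => (x z).1 ^ 2) l (𝓝 1) := by
    simpa using ((continuous_fst.tendsto _).comp hx).pow 2
  have h2 : Tendsto (fun z => (x z).2) l (𝓝 0) := (continuous_snd.tendsto _).comp hx
  have h3 : ∀ᶠ z in l, (x z).1 ^ 2 ≠ 0 := h1.eventually_ne one_ne_zero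
  have h4 := ((l2_prof_ModA hx e0.id_mul).sub
    ((l2_prof_ModA hx e0).ut_mul (UT.of_tendsto h2))).ut_mul
      (UT.of_tendsto (h1.inv₀ one_ne_zero))
  refine WS_ModA h (h4.congr (h3.mono fun z hz y => ?_) fun y => by simp) e0.id_mul
  have hz' : (x z).1 ≠ 0 := fun h => hz (by simp [h])
  field_simp
  ring

end

end Pool.Agent.MP_8339a4_an
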