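import Pool.Agent.MP_8339a4_an.T7a

/-! If the remainder converges in `L^2` there is no second bubble. -/

open MeasureTheory Filter Topology Set

namespace Pool.Agent.MP_8339a4_an

theorem small_mass_Res {r : ℝ → ℝ} (hr : MemLp r 2 volume) {δ : ℝ} (hδ : 0 < δ) :
    ∃ η : ℝ, 0 < η ∧ ∀ x : ℝ, ∫ z in x..(x + η), r z ^ 2 ≤ δ := by
  have hi : Integrable (fun z => r z ^ 2) := integrable_sq2 hr
  by_contra hc
  push Not at hc
  choose x hx using fun n : ℕ => hc (1 / ((n : ℝ) + 1)) (by positivity)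
  have h0 : Tendsto (fun n : ℕ => volume (Ioc (x n) (x n + 1 / ((n : ℝ) + 1)))) atTop (𝓝 0) := by
    simp only [Real.volume_Ioc, add_sub_cancel_left]
    have := ENNReal.tendsto_ofReal tendsto_one_div_add_atTop_nhds_zero_nat
    simpa using this
  have h1 := hi.tendsto_setIntegral_nhds_zero h0
  obtain ⟨n, hn⟩ := (h1.eventually (gt_mem_nhds hδ)).exists
  have h2 := hx n
  rw [intervalIntegral.integral_of_le (by
    have : (0 : ℝ) < 1 / ((n : ℝ) + 1) := by positivity
    linarith)] at h2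
  exact absurd hn (not_lt.mpr h2.le)

theorem single_of_residue {t0 x0 : ℝ} {u ux : ℝ → ℝ → ℝ} {lam sig r : ℝ → ℝ} (ht0 : 0 < t0)
    (hs : IsSol (Ioc 0 t0) u ux) (hb : Bubble t0 u lam sig x0) (hr : MemLp r 2 volume)
    (h : Tendsto (fun t => ∫ z, (u t z - Q ((z - sig t) / lam t) / Real.sqrt (lam t) - r z) ^ 2)
      (𝓝[>] 0) (𝓝 0)) : Single u lam sig := by
  have hQ : 0 < ∫ y, Q y ^ 2 := by rw [integral_Q_sq]; positivity
  obtain ⟨q, hq⟩ : ∃ q, q = ∫ y, Q y ^ 2 := ⟨_, rfl⟩
  rw [← hq] at hQ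
  obtain ⟨η, hη, hx⟩ := small_mass_Res hr (show 0 < q / 8 by positivity)
  refine ⟨η, q / 2, hη, by rw [← hq]; linarith, ?_⟩
  filter_upwards [h.eventually (gt_mem_nhds (show 0 < q / 8 by positivity)),
    Ioc_mem_nhdsGT ht0] with t h1 ht x
  have hl := hb.pos t ht
  have mQ : MemLp (fun z => Q ((z - sig t) / lam t) / Real.sqrt (lam t)) 2 volume := by
    have e := ((expD_Q.comp_affine (a := (lam t)⁻¹) (inv_ne_zero hl.ne') (-(sig t / lam t))).div_const
      (Real.sqrt (lam t))).memLp
    refine e.ae_eq (Eventually.of_forall fun z => ?_) 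
    have : (lam t)⁻¹ * z + -(sig t / lam t) = (z - sig t) / lam t := by field_simp; ring
    simp only [this]
  have mf : MemLp (fun z => u t z - Q ((z - sig t) / lam t) / Real.sqrt (lam t)) 2 volume :=
    (hs.h1 t ht).1.sub mQ
  have i0 := integrable_sq2 mf
  have i1 : Integrable (fun z => (u t z - Q ((z - sig t) / lam t) / Real.sqrt (lam t) - r z) ^ 2) :=
    integrable_sq2 (mf.sub hr)
  have i2 := integrable_sq2 hr
  have hle : x ≤ x + η := by linarith
  have a1 : ∫ z in x..(x + η), (u t z - Q ((z - sig t) / lam t) / Real.sqrt (lam t)) ^ 2 ≤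
      ∫ z in x..(x + η), (2 * (u t z - Q ((z - sig t) / lam t) / Real.sqrt (lam t) - r z) ^ 2
        + 2 * r z ^ 2) := by
    refine intervalIntegral.integral_mono_on hle i0.intervalIntegrable
      (((i1.const_mul 2).add (i2.const_mul 2)).intervalIntegrable) fun z _ => ?_
    nlinarith [sq_nonneg (u t z - Q ((z - sig t) / lam t) / Real.sqrt (lam t) - 2 * r z)]
  rw [intervalIntegral.integral_add (i1.const_mul 2).intervalIntegrable
    (i2.const_mul 2).intervalIntegrable, intervalIntegral.integral_const_mul,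
    intervalIntegral.integral_const_mul] at a1
  have a2 : ∫ z in x..(x + η), (u t z - Q ((z - sig t) / lam t) / Real.sqrt (lam t) - r z) ^ 2 ≤
      ∫ z, (u t z - Q ((z - sig t) / lam t) / Real.sqrt (lam t) - r z) ^ 2 := by
    rw [intervalIntegral.integral_of_le hle]
    exact setIntegral_le_integral i1 (Eventually.of_forall fun z => sq_nonneg _)
  have a3 := hx x
  linarith

end Pool.Agent.MP_8339a4_an
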