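import Pool.Agent.MP_8339a4_an.T7a

/-! If the remainder converges in `L^2` at the blow-up time, there is no second bubble. -/

open MeasureTheory Filter Topology Set

namespace Pool.Agent.MP_8339a4_an

theorem small_Resid {g : ℝ → ℝ} (hg : Integrable g) {ε : ℝ} (hε : 0 < ε) :
    ∃ η : ℝ, 0 < η ∧ ∀ x : ℝ, ∫ z in x..(x + η), g z ≤ ε := by
  have h1 : Tendsto (volume ∘ fun p : ℝ × ℝ => Ioc p.1 (p.1 + p.2))
      (comap Prod.snd (𝓝[>] (0 : ℝ))) (𝓝 0) := by
    have h2 : Tendsto (fun η : ℝ => ENNReal.ofReal η) (𝓝[>] (0 : ℝ)) (𝓝 0) := by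
      have := (ENNReal.continuous_ofReal.tendsto 0).mono_left (nhdsWithin_le_nhds (s := Ioi 0))
      simpa using this
    refine (h2.comp tendsto_comap).congr fun p => ?_
    simp
  have h3 := (hg.tendsto_setIntegral_nhds_zero h1).eventually (gt_mem_nhds hε)
  rw [eventually_comap] at h3
  obtain ⟨η, h4, h5⟩ := (h3.and self_mem_nhdsWithin).exists
  refine ⟨η, h5, fun x => ?_⟩
  rw [intervalIntegral.integral_of_le (le_add_of_nonneg_right (le_of_lt h5))]
  exact (h4 (x, η) rfl).le

theorem single_of_residue {t0 : ℝ} {u ux : ℝ → ℝ → ℝ} {lam sig : ℝ → ℝ} (ht : 0 < t0)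
    (hu : ∀ t ∈ Ioc (0 : ℝ) t0, IsH1 (u t) (ux t)) (hl : ∀ t ∈ Ioc (0 : ℝ) t0, 0 < lam t)
    {r : ℝ → ℝ} (hr : MemLp r 2 volume)
    (h : Tendsto (fun t => ∫ z, (u t z - Q ((z - sig t) / lam t) / Real.sqrt (lam t) - r z) ^ 2)
      (𝓝[>] 0) (𝓝 0)) : Single u lam sig := by
  have hQ : 0 < ∫ y, Q y ^ 2 := by
    rw [integral_Q_sq]
    have := Real.pi_pos
    positivity
  set m := ∫ y, Q y ^ 2
  obtain ⟨η, hη, hs⟩ := small_Resid (integrable_sq2 hr) (ε := m / 8) (by positivity)
  refine ⟨η, m / 2, hη, by linarith, ?_⟩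
  filter_upwards [h.eventually (gt_mem_nhds (by positivity : 0 < m / 8)), Ioc_mem_nhdsGT ht]
    with t h1 h2 x
  have hq : MemLp (fun z => Q ((z - sig t) / lam t) / Real.sqrt (lam t)) 2 volume := by
    refine (((expD_Q.comp_affine (inv_ne_zero (hl t h2).ne') (-(sig t / lam t))).div_const
      (Real.sqrt (lam t))).congr fun z => ?_).memLp
    congr 2
    ring
  have hv : MemLp (fun z => u t z - Q ((z - sig t) / lam t) / Real.sqrt (lam t)) 2 volume :=
    (hu t h2).1.sub hq
  have hw : MemLp (fun z => u t z - Q ((z - sig t) / lam t) / Real.sqrt (lam t) - r z) 2 volume :=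
    hv.sub hr
  have i1 := integrable_sq2 hv
  have i2 := integrable_sq2 hw
  have i3 := integrable_sq2 hr
  have hx : x ≤ x + η := by linarith
  have h3 : ∫ z in x..(x + η), (u t z - Q ((z - sig t) / lam t) / Real.sqrt (lam t) - r z) ^ 2
      ≤ m / 8 := by
    rw [intervalIntegral.integral_of_le hx]
    exact (setIntegral_le_integral i2 (Eventually.of_forall fun z => sq_nonneg _)).trans h1.le
  have h4 := intervalIntegral.integral_mono hx i1.intervalIntegrable
    (((i2.const_mul 2).add (i3.const_mul 2)).intervalIntegrable) (fun z => by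
      simp only [Pi.add_apply]
      nlinarith [sq_nonneg (u t z - Q ((z - sig t) / lam t) / Real.sqrt (lam t) - 2 * r z)])
  simp only [Pi.add_apply] at h4
  rw [intervalIntegral.integral_add (i2.const_mul 2).intervalIntegrable
    (i3.const_mul 2).intervalIntegrable, intervalIntegral.integral_const_mul,
    intervalIntegral.integral_const_mul] at h4
  linarith [hs x]

end Pool.Agent.MP_8339a4_an
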