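import Pool.Agent.MP_8339a4_an.If
import Pool.Agent.MP_8339a4_an.T4a

/-! Step S1, tools: power bounds at large times inside a set, and Dini comparison lemmas. -/

open MeasureTheory Filter Topology Set

namespace Pool.Agent.MP_8339a4_an

/-- Large times inside the set `R`. -/
def FR (R : Set ℝ) : Filter ℝ := atTop ⊓ 𝓟 R

/-- `f = O(s^p)` at large times inside `R`. -/
def OP (R : Set ℝ) (f : ℝ → ℝ) (p : ℝ) : Prop := ∃ K : ℝ, ∀ᶠ s in FR R, |f s| ≤ K * s ^ p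

variable {R R' : Set ℝ} {P : ℝ → Prop} {f g : ℝ → ℝ} {p q r : ℝ}

theorem FR.ev (h : ∀ᶠ s in atTop, P s) : ∀ᶠ s in FR R, P s := h.filter_mono inf_le_left

theorem FR.mem (R : Set ℝ) : ∀ᶠ s in FR R, s ∈ R := mem_inf_of_right (mem_principal_self R)

theorem FR.out (h : ∀ᶠ s in FR R, P s) : ∀ᶠ s in atTop, s ∈ R → P s :=
  eventually_inf_principal.1 h

theorem FR.top (h : ∀ᶠ s in FR univ, P s) : ∀ᶠ s in atTop, P s :=
  (FR.out h).mono fun _ hs => hs (mem_univ _)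

theorem FR.gt (R : Set ℝ) (b : ℝ) : ∀ᶠ s in FR R, b < s := FR.ev (eventually_gt_atTop b)

theorem FR.of_ev (hR : ∀ᶠ s in FR R', s ∈ R) (h : ∀ᶠ s in FR R, P s) : ∀ᶠ s in FR R', P s := by
  filter_upwards [hR, FR.ev (R := R') (FR.out h)] with s h1 h2 using h2 h1

theorem OP.of_ev (h : OP R f p) (hR : ∀ᶠ s in FR R', s ∈ R) : OP R' f p := by
  obtain ⟨K, hK⟩ := h
  exact ⟨K, FR.of_ev hR hK⟩

theorem OP.ex (h : OP R f p) : ∃ K : ℝ, 0 < K ∧ ∀ᶠ s in FR R, |f s| ≤ K * s ^ p := by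
  obtain ⟨K, hK⟩ := h
  refine ⟨|K| + 1, by positivity, ?_⟩
  filter_upwards [hK, FR.gt R 0] with s h1 h2
  have := Real.rpow_pos_of_pos h2 p
  have := le_abs_self K
  nlinarith

theorem OP.pw (R : Set ℝ) (p : ℝ) : OP R (fun s => s ^ p) p := by
  refine ⟨1, ?_⟩
  filter_upwards [FR.gt R 0] with s h2
  rw [abs_of_pos (Real.rpow_pos_of_pos h2 p), one_mul]

theorem OP.const (R : Set ℝ) (k : ℝ) : OP R (fun _ => k) 0 :=
  ⟨|k|, Eventually.of_forall fun s => by simp⟩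

theorem OP.inv (R : Set ℝ) : OP R (fun s => 1 / s) (-1) := by
  refine ⟨1, ?_⟩
  filter_upwards [FR.gt R 0] with s h2
  rw [abs_of_pos (by positivity), one_mul, Real.rpow_neg_one, one_div]

theorem OP.mono (h : OP R f p) (hpq : p ≤ q) : OP R f q := by
  obtain ⟨K, hK0, hK⟩ := h.ex
  refine ⟨K, ?_⟩
  filter_upwards [hK, FR.gt R 1] with s h1 h2
  exact h1.trans (mul_le_mul_of_nonneg_left (Real.rpow_le_rpow_of_exponent_le h2.le hpq) hK0.le)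

theorem OP.of_le (h : OP R g p) (H : ∀ᶠ s in FR R, |f s| ≤ g s) : OP R f p := by
  obtain ⟨K, hK⟩ := h
  refine ⟨K, ?_⟩
  filter_upwards [hK, H] with s h1 h2
  exact h2.trans ((le_abs_self _).trans h1)

theorem OP.congr (h : OP R g p) (H : ∀ᶠ s in FR R, f s = g s) : OP R f p := by
  obtain ⟨K, hK⟩ := h
  refine ⟨K, ?_⟩
  filter_upwards [hK, H] with s h1 h2
  rwa [h2]

theorem OP.abs (h : OP R f p) : OP R (fun s => |f s|) p := by
  obtain ⟨K, hK⟩ := h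
  exact ⟨K, hK.mono fun s hs => by rwa [abs_abs]⟩

theorem OP.add (h : OP R f p) (H : OP R g p) : OP R (fun s => f s + g s) p := by
  obtain ⟨K, hK⟩ := h
  obtain ⟨L, hL⟩ := H
  refine ⟨K + L, ?_⟩
  filter_upwards [hK, hL] with s h1 h2
  have := abs_add_le (f s) (g s)
  linarith

theorem OP.sub (h : OP R f p) (H : OP R g p) : OP R (fun s => f s - g s) p := by
  obtain ⟨K, hK⟩ := h
  obtain ⟨L, hL⟩ := H
  refine ⟨K + L, ?_⟩
  filter_upwards [hK, hL] with s h1 h2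
  have := abs_sub (f s) (g s)
  linarith

theorem OP.mul (h : OP R f p) (H : OP R g q) (hr : p + q ≤ r) :
    OP R (fun s => f s * g s) r := by
  obtain ⟨K, hK0, hK⟩ := h.ex
  obtain ⟨L, hL⟩ := H
  refine OP.mono ⟨K * L, ?_⟩ hr
  filter_upwards [hK, hL, FR.gt R 0] with s h1 h2 h3
  rw [abs_mul, Real.rpow_add h3]
  have := Real.rpow_pos_of_pos h3 p
  calc |f s| * |g s| ≤ (K * s ^ p) * (L * s ^ q) :=
        mul_le_mul h1 h2 (abs_nonneg _) (by positivity)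
    _ = _ := by ring

theorem OP.cmul (k : ℝ) (h : OP R f p) : OP R (fun s => k * f s) p :=
  (OP.const R k).mul h (by simp)

theorem OP.sq (h : OP R f p) (hr : 2 * p ≤ r) : OP R (fun s => f s ^ 2) r :=
  (h.mul h (by linarith)).congr (Eventually.of_forall fun s => by ring)

theorem OP.of_sq (h : OP R g q) (H : ∀ᶠ s in FR R, f s ^ 2 ≤ g s) (hr : q ≤ 2 * p) :
    OP R f p := by
  obtain ⟨K, hK0, hK⟩ := (h.mono hr).ex
  refine ⟨Real.sqrt K, ?_⟩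
  filter_upwards [hK, H, FR.gt R 0] with s h1 h2 h3
  have h4 := Real.rpow_pos_of_pos h3 p
  apply abs_le_of_sq_le_sq' _ (by positivity) |> abs_le.2
  have e : s ^ (2 * p) = (s ^ p) ^ 2 := by
    rw [← Real.rpow_natCast, ← Real.rpow_mul h3.le]; congr 1; push_cast; ring
  rw [mul_pow, Real.sq_sqrt hK0.le, ← e]
  exact h2.trans ((le_abs_self _).trans h1)

theorem OP.sqrt (h : OP R g q) (hr : q ≤ 2 * p) : OP R (fun s => Real.sqrt (g s)) p :=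
  h.abs.of_sq (Eventually.of_forall fun s => by
    rw [Real.sq_sqrt']
    exact max_le (le_abs_self _) (abs_nonneg _)) hr

theorem OP.small (h : OP R f p) (hpq : p < q) {ε : ℝ} (hε : 0 < ε) :
    ∀ᶠ s in FR R, |f s| < ε * s ^ q := by
  obtain ⟨K, hK0, hK⟩ := h.ex
  have h0 : Tendsto (fun s : ℝ => K * s ^ (-(q - p))) atTop (𝓝 (K * 0)) :=
    (tendsto_rpow_neg_atTop (by linarith)).const_mul K
  rw [mul_zero] at h0
  filter_upwards [hK, FR.ev (h0.eventually (gt_mem_nhds hε)), FR.gt R 0] with s h1 h2 h3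
  have e : s ^ p = s ^ (-(q - p)) * s ^ q := by rw [← Real.rpow_add h3]; congr 1; ring
  have h4 := Real.rpow_pos_of_pos h3 q
  calc |f s| ≤ K * s ^ p := h1
    _ = (K * s ^ (-(q - p))) * s ^ q := by rw [e]; ring
    _ < ε * s ^ q := mul_lt_mul_of_pos_right h2 h4

theorem OP.small0 (h : OP R f p) (hp : p < 0) {ε : ℝ} (hε : 0 < ε) :
    ∀ᶠ s in FR R, |f s| < ε := by
  filter_upwards [h.small hp hε] with s hs
  simpa using hs

theorem OP.lm (R : Set ℝ) : OP R Lm (1 / 100) := OP.pw R _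

theorem OP.u32 (R : Set ℝ) : OP R (fun s => s ^ (-(3 : ℝ) / 2)) (-3 / 2) := OP.pw R _

theorem OP.Lu (R : Set ℝ) : OP R (fun s => Lm s * s ^ (-(3 : ℝ) / 2)) (-149 / 100) :=
  (OP.lm R).mul (OP.u32 R) (by norm_num)

/-! ### Dini lemmas -/

theorem dini_abs_s1 {s k : ℝ} (h : HasDerivAt f k s) : DiniLe (fun z => |f z|) s |k| := by
  intro r hr
  have h1 : Tendsto (fun z => |slope f s z|) (𝓝[>] s) (𝓝 |k|) :=
    ((hasDerivAt_iff_tendsto_slope.1 h).mono_left (nhdsGT_le_nhdsNE s)).abs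
  filter_upwards [h1.eventually (gt_mem_nhds hr), self_mem_nhdsWithin] with z h2 h3
  have h4 : 0 < z - s := sub_pos.2 h3
  refine lt_of_le_of_lt ?_ h2
  rw [slope_def_field, slope_def_field, abs_div, abs_of_pos h4]
  exact div_le_div_of_nonneg_right (abs_sub_abs_le_abs_sub _ _) h4.le

theorem dini_const_s1 {a b k : ℝ} (hab : a ≤ b) (hf : ∀ x ∈ Icc a b, ContinuousAt f x)
    (h : ∀ x ∈ Ico a b, DiniLe f x k) : f b - f a ≤ k * (b - a) := by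
  have := dini_le_integral (g := fun _ => k) hab
    (fun x hx => (hf x hx).continuousWithinAt) continuousOn_const h
  simpa [mul_comm] using this

theorem dini_bdd_s1 (h : ∀ᶠ s in atTop, ContinuousAt f s ∧ DiniLe f s 0) :
    ∃ K, ∀ᶠ s in atTop, f s ≤ K := by
  obtain ⟨S, hS⟩ := eventually_atTop.1 h
  refine ⟨f S, ?_⟩
  filter_upwards [eventually_ge_atTop S] with s hs
  have := dini_const_s1 hs (fun x hx => (hS x hx.1).1) (fun x hx => (hS x hx.1).2)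
  linarith

theorem dini_drop_s1 {δ : ℝ} (hδ : 0 < δ) (hp : p ≤ 0)
    (h : ∀ᶠ s in atTop, ContinuousAt f s ∧ DiniLe f s (-(δ * s ^ p)))
    (hf : OP univ f q) (hq : q < p + 1) : False := by
  obtain ⟨S, hS⟩ := eventually_atTop.1 h
  obtain ⟨K, hK0, hK⟩ := hf.ex
  obtain ⟨T, hT⟩ := eventually_atTop.1 (FR.top hK)
  have h2 : (0 : ℝ) < δ * 2 ^ p := by positivity
  have h3 := FR.top ((OP.cmul (K * (1 + 2 ^ q)) (OP.pw univ q)).small hq h2)
  obtain ⟨s, ⟨h4, h5⟩, h6, h7⟩ := ((h3.and (eventually_ge_atTop S)).and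
    ((eventually_ge_atTop T).and (eventually_gt_atTop 0))).exists
  have h8 := dini_const_s1 (k := -(δ * (2 * s) ^ p)) (by linarith : s ≤ 2 * s)
    (fun x hx => (hS x (h5.trans hx.1)).1) (fun x hx => (hS x (h5.trans hx.1)).2.mono (by
      have : (2 * s) ^ p ≤ x ^ p :=
        Real.rpow_le_rpow_of_nonpos (h7.trans_le hx.1) hx.2.le hp
      nlinarith))
  have h9 := hT s h6
  have h10 := hT (2 * s) (by linarith)
  rw [Real.mul_rpow (by norm_num) h7.le] at h8 h10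
  rw [Real.rpow_add h7, Real.rpow_one] at h4
  have := le_abs_self (K * (1 + 2 ^ q) * s ^ q)
  have := le_abs_self (f s)
  have := neg_abs_le (f (2 * s))
  nlinarith

theorem dini_right_s1 {s k : ℝ} (hc : ContinuousAt f s) (h0 : f s ≤ 0) (hk : k < 0)
    (h : DiniLe f s k) : ∀ᶠ z in 𝓝[>] s, f z ≤ 0 := by
  filter_upwards [h 0 hk, self_mem_nhdsWithin] with z h2 h3
  have h4 : 0 < z - s := sub_pos.2 h3
  rw [slope_def_field, div_lt_iff₀ h4] at h2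
  linarith

theorem region_s1 (hc : ∀ᶠ s in atTop, ContinuousAt f s ∧ ContinuousAt g s)
    (hfr : ∃ᶠ s in atTop, f s ≤ 0 ∧ g s ≤ 0)
    (hd : ∀ᶠ s in atTop, f s ≤ 0 ∧ g s ≤ 0 →
      (f s = 0 → ∃ k < 0, DiniLe f s k) ∧ (g s = 0 → ∃ k < 0, DiniLe g s k)) :
    ∀ᶠ s in atTop, f s ≤ 0 ∧ g s ≤ 0 := by
  obtain ⟨S, hS⟩ := eventually_atTop.1 (hc.and hd)
  obtain ⟨a, ha, h0⟩ := frequently_atTop.1 hfr S
  filter_upwards [eventually_ge_atTop a] with b hb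
  have key : ∀ {u : ℝ → ℝ} {x : ℝ}, ContinuousAt u x → u x ≤ 0 →
      (u x = 0 → ∃ k < 0, DiniLe u x k) → ∀ᶠ z in 𝓝[>] x, u z ≤ 0 := by
    intro u x h1 h2 h3
    rcases h2.lt_or_eq with h4 | h4
    · exact mem_nhdsWithin_of_mem_nhds ((h1.eventually (gt_mem_nhds h4)).mono fun z hz => hz.le)
    · obtain ⟨k, hk, h5⟩ := h3 h4
      exact dini_right_s1 h1 h2 hk h5
  have hcl : IsClosed ({x | f x ≤ 0 ∧ g x ≤ 0} ∩ Icc a b) := by
    have c1 : ContinuousOn f (Icc a b) := fun x hx =>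
      (hS x (ha.trans hx.1)).1.1.continuousWithinAt
    have c2 : ContinuousOn g (Icc a b) := fun x hx =>
      (hS x (ha.trans hx.1)).1.2.continuousWithinAt
    have := (c1.preimage_isClosed_of_isClosed isClosed_Icc (isClosed_Iic (a := (0 : ℝ)))).inter
      (c2.preimage_isClosed_of_isClosed isClosed_Icc (isClosed_Iic (a := (0 : ℝ))))
    convert this using 1
    ext x
    simp only [mem_inter_iff, mem_setOf_eq, mem_preimage, mem_Iic]
    tauto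
  refine hcl.Icc_subset_of_forall_mem_nhdsWithin h0 (fun x hx => ?_) (right_mem_Icc.2 hb)
  obtain ⟨⟨c1, c2⟩, h3⟩ := hS x (ha.trans hx.2.1)
  exact (key c1 hx.1.1 (h3 hx.1).1).and (key c2 hx.1.2 (h3 hx.1).2)

/-- A bounded function cannot decrease at rate `δ / s`. -/
theorem dini_log_s1 {δ : ℝ} (hδ : 0 < δ) (hf : OP univ f 0)
    (h : ∀ᶠ s in atTop, ∃ k, HasDerivAt f k s ∧ k ≤ -(δ * (1 / s))) : False := by
  obtain ⟨K, hK⟩ := hf
  obtain ⟨L, hL⟩ := dini_bdd_s1 (f := fun s => f s + δ * Real.log s) (by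
    filter_upwards [h, eventually_gt_atTop 0] with s ⟨k, h1, h2⟩ h3
    have h4 := h1.add ((Real.hasDerivAt_log h3.ne').const_mul δ)
    refine ⟨h4.continuousAt, (DiniLe.of_hasDerivAt h4).mono ?_⟩
    rw [one_div] at h2
    linarith)
  have h5 := (Real.tendsto_log_atTop.const_mul_atTop hδ).eventually_gt_atTop (K + L)
  obtain ⟨s, h6, h7, h8⟩ := ((FR.top hK).and (hL.and h5)).exists
  rw [Real.rpow_zero, mul_one] at h6
  have := neg_abs_le (f s)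
  linarith

/-- The hypotheses of step S1. -/
structure S1H (κ m c C r0 r1 s1 v : ℝ) (lam β μ D a aL JR JL M Φ : ℝ → ℝ) : Prop where
  hκ : 3 / 2 ≤ κ
  hm : m ≠ 0
  hc : 0 < c
  hr0 : 0 < r0
  hs1 : 1 ≤ s1
  hlam : ∀ s, s1 < s →
    HasDerivAt lam (-(β s) * lam s) s ∧ r0 ≤ lam s * s ^ κ ∧ lam s * s ^ κ ≤ r1
  hD : ∀ s, s1 < s → ContinuousAt D s ∧ 0 ≤ D s ∧ D s ≤ C * Lm s ∧ β s ^ 2 ≤ C * D s
  hμ0 : Tendsto μ atTop (𝓝 0)
  hμ : ∀ s, s1 < s → (∃ μ' : ℝ, HasDerivAt μ μ' s ∧ |μ'| ≤ C * D s) ∧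
    -(C * (D s + s ^ (-(3 : ℝ) / 2))) ≤ μ s
  ha : ∀ s, s1 < s → (∃ a' : ℝ, HasDerivAt a a' s ∧ |a'| ≤ C * (D s + s ^ (-(3 : ℝ) / 2))) ∧
    a s ^ 2 ≤ C * lam s
  hv : Tendsto (fun s => (a s / Real.sqrt (lam s) - v) * s ^ ((κ - 1) / 2)) atTop (𝓝 0)
  hJ : ∀ s, s1 < s → JR s ^ 2 + JL s ^ 2 ≤ C * (Lm s * D s) ∧
    |M s - 2 * μ s| ≤ C * (Lm s * D s + s ^ (-(3 : ℝ) / 2))
  hΦ : ∀ s, s1 < s → ContinuousAt Φ s ∧ c * D s - C * (Lm s * s ^ (-(3 : ℝ) / 2)) ≤ Φ s ∧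
    Φ s ≤ C * (D s + Lm s * s ^ (-(3 : ℝ) / 2)) ∧
    DiniLe Φ s (-(c * D s) + C * (μ s ^ 2 + Lm s * s ^ (-(3 : ℝ) / 2)))
  hR : ∀ s, s1 < s → ∃ J' : ℝ, HasDerivAt JR J' s ∧
    |J' - (2 * μ s - m ^ 2 / 2 * β s + m * a s + β s * JR s / 2)|
      ≤ C * (D s + s ^ (-(3 : ℝ) / 2))
  hL : ∀ s, s1 < s → ∃ J' : ℝ, HasDerivAt JL J' s ∧
    |J' - (2 * μ s + m ^ 2 / 2 * β s + m * aL s)| ≤ C * (Lm s * D s + s ^ (-(3 : ℝ) / 2))
  hM : ∀ s, s1 < s → ∃ M' : ℝ, HasDerivAt M M' s ∧ ∀ ω : ℝ,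
    M' ≤ a s ^ 2 + ω ^ 2 - 2 * ω * aL s + C * (s ^ (-(9 : ℝ) / 4)
      + Lm s * ((Real.sqrt (D s) + 1 / s) * (D s + s ^ (-(3 : ℝ) / 2)) + D s ^ 2))

variable {κ m c C r0 r1 s1 v : ℝ} {lam β μ D a aL JR JL M Φ : ℝ → ℝ}
  (H : S1H κ m c C r0 r1 s1 v lam β μ D a aL JR JL M Φ)
include H

theorem S1H.pos {s : ℝ} (hs : s1 < s) : 0 < s := by linarith [H.hs1]

theorem S1H.Lm_pos {s : ℝ} (hs : s1 < s) : 0 < Lm s := Real.rpow_pos_of_pos (H.pos hs) _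

theorem S1H.u_pos {s : ℝ} (hs : s1 < s) : 0 < s ^ (-(3 : ℝ) / 2) :=
  Real.rpow_pos_of_pos (H.pos hs) _

theorem S1H.C0 : 0 ≤ C := by
  have hs : s1 < s1 + 1 := by linarith
  obtain ⟨-, h1, h2, -⟩ := H.hD _ hs
  exact nonneg_of_mul_nonneg_left (h1.trans h2) (H.Lm_pos hs)

theorem S1H.lam_pos {s : ℝ} (hs : s1 < s) : 0 < lam s :=
  (mul_pos_iff_of_pos_right (Real.rpow_pos_of_pos (H.pos hs) κ)).1
    (H.hr0.trans_le (H.hlam s hs).2.1)

theorem S1H.Olam (R : Set ℝ) : OP R lam (-κ) := by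
  refine ⟨r1, ?_⟩
  filter_upwards [FR.gt R s1] with s hs
  have h1 := Real.rpow_pos_of_pos (H.pos hs) κ
  rw [abs_of_pos (H.lam_pos hs), Real.rpow_neg (H.pos hs).le, ← div_eq_mul_inv, le_div_iff₀ h1]
  exact (H.hlam s hs).2.2

theorem S1H.Oinv (R : Set ℝ) : OP R (fun s => (lam s)⁻¹) κ := by
  refine ⟨r0⁻¹, ?_⟩
  filter_upwards [FR.gt R s1] with s hs
  have h1 := H.lam_pos hs
  have h2 := (H.hlam s hs).2.1
  have h3 := H.hr0
  rw [abs_of_pos (inv_pos.2 h1), ← div_eq_inv_mul, le_div_iff₀ h3, ← div_eq_inv_mul,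
    div_le_iff₀ h1]
  linarith

theorem S1H.Oa (R : Set ℝ) : OP R a (-3 / 4) :=
  (OP.cmul C (H.Olam R)).of_sq ((FR.gt R s1).mono fun s hs => (H.ha s hs).2)
    (by linarith [H.hκ])

theorem S1H.OD (R : Set ℝ) : OP R D (1 / 100) :=
  (OP.cmul C (OP.lm R)).of_le ((FR.gt R s1).mono fun s hs => by
    rw [abs_of_nonneg (H.hD s hs).2.1]; exact (H.hD s hs).2.2.1)

theorem S1H.OJR (hD : OP R D p) (hq : 1 / 100 + p ≤ 2 * q) : OP R JR q :=
  (OP.cmul C ((OP.lm R).mul hD le_rfl)).of_sq ((FR.gt R s1).mono fun s hs => by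
    nlinarith [(H.hJ s hs).1, sq_nonneg (JL s)]) hq

theorem S1H.OJL (hD : OP R D p) (hq : 1 / 100 + p ≤ 2 * q) : OP R JL q :=
  (OP.cmul C ((OP.lm R).mul hD le_rfl)).of_sq ((FR.gt R s1).mono fun s hs => by
    nlinarith [(H.hJ s hs).1, sq_nonneg (JR s)]) hq

theorem S1H.Oβ (hD : OP R D p) (hq : p ≤ 2 * q) : OP R β q :=
  (OP.cmul C hD).of_sq ((FR.gt R s1).mono fun s hs => (H.hD s hs).2.2.2) hq

end Pool.Agent.MP_8339a4_an
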