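import Pool.Agent.MP_8339a4_an.S1A

/-! Step S1: there are arbitrarily large times where `Φ` and `μ` are small. -/

open MeasureTheory Filter Topology Set

namespace Pool.Agent.MP_8339a4_an

variable {κ m c C r0 r1 s1 v : ℝ} {lam β μ D a aL JR JL M Φ : ℝ → ℝ}
  (H : S1H κ m c C r0 r1 s1 v lam β μ D a aL JR JL M Φ)
include H

theorem S1H.rho_deriv {s : ℝ} (hs : s1 < s) :
    HasDerivAt (fun z => Real.sqrt (lam z * z ^ κ))
      (Real.sqrt (lam s * s ^ κ) * (-(β s) / 2 + κ / 2 * (1 / s))) s := by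
  have h0 := H.pos hs
  have h1 := H.hr0.trans_le (H.hlam s hs).2.1
  have h2 := ((H.hlam s hs).1.fun_mul
    (Real.hasDerivAt_rpow_const (p := κ) (Or.inl h0.ne'))).sqrt h1.ne'
  refine h2.congr_deriv (Eq.symm ?_)
  have h3 := Real.sqrt_pos.2 h1
  have h4 := Real.mul_self_sqrt h1.le
  rw [Real.rpow_sub_one h0.ne', eq_div_iff (by positivity)]
  calc _ = (Real.sqrt (lam s * s ^ κ) * Real.sqrt (lam s * s ^ κ)) * (-(β s) + κ * (1 / s)) := by
        ring
    _ = _ := by rw [h4]; field_simp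

theorem S1H.OΦ : OP univ Φ (1 / 100) := by
  have hC := H.C0
  refine (OP.cmul C ((H.OD univ).add ((OP.Lu univ).mono (by norm_num)))).of_le ?_
  filter_upwards [FR.gt univ s1] with s hs
  obtain ⟨-, h1, h2, -⟩ := H.hΦ s hs
  have h3 := (H.hD s hs).2.1
  have h4 := H.hc
  rw [abs_le]
  constructor <;> nlinarith [mul_nonneg hC h3, mul_nonneg h4.le h3]

theorem S1H.step1 : ∃ᶠ s in atTop, D s + |μ s| ≤ s ^ (-(149 : ℝ) / 200) := by
  by_contra hcon
  rw [not_frequently] at hcon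
  have hC := H.C0
  have hc := H.hc
  have hq0 : 0 < Real.sqrt r0 := Real.sqrt_pos.2 H.hr0
  have hq1 : 0 ≤ Real.sqrt r1 := Real.sqrt_nonneg _
  obtain ⟨ε, hε, hε1⟩ : ∃ ε : ℝ, 0 < ε ∧ 5 * ε * Real.sqrt r1 * C ≤ c / 2 := by
    refine ⟨c / (10 * (Real.sqrt r1 * C + 1)), by positivity, ?_⟩
    have : 0 < Real.sqrt r1 * C + 1 := by positivity
    calc 5 * (c / (10 * (Real.sqrt r1 * C + 1))) * Real.sqrt r1 * C
        = c / 2 * (Real.sqrt r1 * C / (Real.sqrt r1 * C + 1)) := by field_simp; ring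
      _ ≤ c / 2 * 1 := by
        gcongr
        rw [div_le_one this]; linarith
      _ = c / 2 := mul_one _
  have hc3 : 0 < min (c / 2) (ε * Real.sqrt r0) := lt_min (by positivity) (by positivity)
  have hJ : OP univ JR (1 / 100) := H.OJR (H.OD univ) (by norm_num)
  have hJ' : OP univ (fun s => JR s - m ^ 2) (1 / 100) :=
    hJ.sub ((OP.const univ _).mono (by norm_num))
  have hρ : OP univ (fun s => Real.sqrt (lam s * s ^ κ)) 0 :=
    ((H.Olam univ).mul (OP.pw univ κ) (r := 0) (by simp)).sqrt (by simp)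
  have hX : OP univ (fun s => m * a s + κ / 2 * (1 / s * (JR s - m ^ 2))) (-3 / 4) :=
    (OP.cmul m (H.Oa univ)).add (OP.cmul _ ((OP.inv univ).mul hJ' (by norm_num)))
  have hE : OP univ (fun s => C * (Lm s * s ^ (-(3 : ℝ) / 2))
      + 5 * ε * Real.sqrt r1 * C * s ^ (-(3 : ℝ) / 2)
      + ε * Real.sqrt r1 * |m * a s + κ / 2 * (1 / s * (JR s - m ^ 2))|) (-3 / 4) :=
    ((OP.cmul C ((OP.Lu univ).mono (by norm_num))).add
      (OP.cmul _ ((OP.u32 univ).mono (by norm_num)))).add (OP.cmul _ hX.abs)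
  have hμ : ∀ᶠ s in atTop, C * |μ s| < ε * Real.sqrt r0 := by
    have := (H.hμ0.abs.const_mul C).eventually (gt_mem_nhds (a := ε * Real.sqrt r0) (by
      simp only [abs_zero, mul_zero]; positivity))
    exact this
  refine dini_drop_s1 (f := fun s => Φ s - ε * (Real.sqrt (lam s * s ^ κ) * (JR s - m ^ 2)))
    (half_pos hc3) (p := -(149 : ℝ) / 200) (by norm_num) ?_
    (H.OΦ.sub (OP.cmul ε (hρ.mul hJ' (by norm_num)))) (by norm_num)
  filter_upwards [hcon, hμ, eventually_gt_atTop s1,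
    FR.top (hE.small (q := -(149 : ℝ) / 200) (by norm_num) (half_pos hc3))] with s h1 h2 hs h3
  obtain ⟨J', hJd, hJe⟩ := H.hR s hs
  obtain ⟨hΦc, -, -, hΦd⟩ := H.hΦ s hs
  have hY := ((H.rho_deriv hs).mul (hJd.sub_const (m ^ 2))).const_mul ε
  refine ⟨hΦc.sub hY.continuousAt, (hΦd.sub_hasDerivAt hY).mono ?_⟩
  have hρ0 : Real.sqrt r0 ≤ Real.sqrt (lam s * s ^ κ) := Real.sqrt_le_sqrt (H.hlam s hs).2.1
  have hρ1 : Real.sqrt (lam s * s ^ κ) ≤ Real.sqrt r1 := Real.sqrt_le_sqrt (H.hlam s hs).2.2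
  have hD0 := (H.hD s hs).2.1
  have hu := H.u_pos hs
  have hμl := (H.hμ s hs).2
  have h4 := (le_abs_self _).trans h3.le
  push Not at h1
  set ρ := Real.sqrt (lam s * s ^ κ)
  set u := s ^ (-(3 : ℝ) / 2)
  set X := m * a s + κ / 2 * (1 / s * (JR s - m ^ 2)) with hXd
  set e := J' - (2 * μ s - m ^ 2 / 2 * β s + m * a s + β s * JR s / 2) with he
  set w := s ^ (-(149 : ℝ) / 200)
  set k := min (c / 2) (ε * Real.sqrt r0)
  have e1 : ρ * (-(β s) / 2 + κ / 2 * (1 / s)) * (JR s - m ^ 2) + ρ * J'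
      = ρ * (2 * μ s + e + X) := by rw [he, hXd]; ring
  have hDu : 0 ≤ C * (D s + u) := by positivity
  have h5 : -(2 * μ s + e + X) ≤ -(2 * |μ s|) + (5 * (C * (D s + u)) + |X|) := by
    have := neg_abs_le e
    have := neg_abs_le X
    rcases abs_cases (μ s) with h | h <;> linarith [h.1]
  have h6 : -(ρ * (2 * μ s + e + X))
      ≤ -(2 * Real.sqrt r0 * |μ s|) + Real.sqrt r1 * (5 * (C * (D s + u)) + |X|) := by
    have a1 := mul_le_mul_of_nonneg_left h5 (hq0.le.trans hρ0)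
    have a2 := mul_le_mul_of_nonneg_right hρ0 (abs_nonneg (μ s))
    have a3 := mul_le_mul_of_nonneg_right hρ1
      (by positivity : 0 ≤ 5 * (C * (D s + u)) + |X|)
    linarith
  have h7 := mul_le_mul_of_nonneg_left h6 hε.le
  have h8 : C * μ s ^ 2 ≤ ε * Real.sqrt r0 * |μ s| := by
    rw [← sq_abs]; nlinarith [abs_nonneg (μ s)]
  have h9 := mul_le_mul_of_nonneg_right hε1 hD0
  have h10 : k * D s ≤ c / 2 * D s := mul_le_mul_of_nonneg_right (min_le_left _ _) hD0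
  have h11 : k * |μ s| ≤ ε * Real.sqrt r0 * |μ s| :=
    mul_le_mul_of_nonneg_right (min_le_right _ _) (abs_nonneg _)
  have h12 := mul_le_mul_of_nonneg_left h1.le hc3.le
  rw [e1]
  linarith

theorem S1H.part1 :
    ∃ᶠ s in atTop, Φ s ≤ s ^ (-(7 : ℝ) / 5) ∧ |μ s| ≤ s ^ (-(73 : ℝ) / 100) := by
  by_contra hcon
  rw [not_frequently] at hcon
  have hC := H.C0
  have hc := H.hc
  obtain ⟨δ, hδ, hδ1⟩ : ∃ δ : ℝ, 0 < δ ∧ δ * (C + 1) = c / 2 :=
    ⟨c / 2 / (C + 1), by positivity, by field_simp⟩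
  set G : ℝ → ℝ := fun s => Φ s + δ * |μ s| with hG
  set R : Set ℝ := {s | G s - s ^ (-(37 : ℝ) / 50) ≤ 0} with hR
  have hGl : ∀ s, s1 < s → δ * |μ s| - C * (Lm s * s ^ (-(3 : ℝ) / 2)) ≤ G s := fun s hs => by
    have := (H.hΦ s hs).2.1
    have := mul_nonneg hc.le (H.hD s hs).2.1
    simp only [hG]; linarith
  have hLu : ∀ S : Set ℝ, OP S (fun s => s ^ (-(37 : ℝ) / 50)
      + C * (Lm s * s ^ (-(3 : ℝ) / 2))) (-37 / 50) := fun S =>
    (OP.pw S _).add (OP.cmul C ((OP.Lu S).mono (by norm_num)))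
  have hμ : OP R μ (-37 / 50) := by
    refine (OP.cmul δ⁻¹ (hLu R)).of_le ?_
    filter_upwards [FR.mem R, FR.gt R s1] with s h1 hs
    have h2 := hGl s hs
    rw [← div_eq_inv_mul, le_div_iff₀ hδ]
    simp only [hR, mem_setOf_eq] at h1
    linarith
  have hE : OP R (fun s => δ * C * (Lm s * s ^ (-(3 : ℝ) / 2))
      + C * (μ s ^ 2 + Lm s * s ^ (-(3 : ℝ) / 2))) (-37 / 25) :=
    (OP.cmul _ ((OP.Lu R).mono (by norm_num))).add
      (OP.cmul C ((hμ.sq (by norm_num)).add ((OP.Lu R).mono (by norm_num))))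
  have hGc : ∀ s, s1 < s → ContinuousAt G s := fun s hs => by
    obtain ⟨⟨μ', h1, -⟩, -⟩ := H.hμ s hs
    exact (H.hΦ s hs).1.add (continuousAt_const.mul h1.continuousAt.abs)
  have hGd : ∀ᶠ s in FR R, DiniLe G s (-(δ / 2 * s ^ (-(7 : ℝ) / 5))) := by
    filter_upwards [FR.ev hcon, FR.gt R s1, hμ.small (q := -(73 : ℝ) / 100) (by norm_num) one_pos,
      hE.small (q := -(7 : ℝ) / 5) (by norm_num) (half_pos hδ)] with s h1 hs h2 h3
    obtain ⟨⟨μ', h4, h5⟩, -⟩ := H.hμ s hs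
    obtain ⟨-, -, h6, h7⟩ := H.hΦ s hs
    have h8 : s ^ (-(7 : ℝ) / 5) < Φ s := by
      by_contra h
      exact h1 ⟨not_lt.1 h, by linarith⟩
    have h9 := dini_abs_s1 (h4.const_mul δ)
    have h10 := (h7.add h9).congr (g := G) (Eventually.of_forall fun z => by
      simp only [hG, abs_mul, abs_of_pos hδ])
    refine h10.mono ?_
    rw [abs_mul, abs_of_pos hδ]
    have hD0 := (H.hD s hs).2.1
    have h11 := mul_le_mul_of_nonneg_left h5 hδ.le
    have h12 := mul_le_mul_of_nonneg_left (h8.le.trans h6) hδ.le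
    have h13 := (le_abs_self _).trans h3.le
    have h14 : δ * (C + 1) * D s = c / 2 * D s := by rw [hδ1]
    have h15 := mul_nonneg hδ.le hD0
    linarith
  have hpw : ∀ s, s1 < s → HasDerivAt (fun z : ℝ => z ^ (-(37 : ℝ) / 50))
      (-(37 : ℝ) / 50 * s ^ (-(37 : ℝ) / 50 - 1)) s := fun s hs =>
    Real.hasDerivAt_rpow_const (Or.inl (H.pos hs).ne')
  have hfr : ∃ᶠ s in atTop, s ∈ R := by
    set R1 : Set ℝ := {s | D s + |μ s| ≤ s ^ (-(149 : ℝ) / 200)} with hR1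
    have h1 : OP R1 (fun s => (C + δ) * s ^ (-(149 : ℝ) / 200)
        + C * (Lm s * s ^ (-(3 : ℝ) / 2))) (-149 / 200) :=
      (OP.cmul _ (OP.pw R1 _)).add (OP.cmul C ((OP.Lu R1).mono (by norm_num)))
    have h2 : ∀ᶠ s in FR R1, s ∈ R := by
      filter_upwards [FR.mem R1, FR.gt R1 s1,
        h1.small (q := -(37 : ℝ) / 50) (by norm_num) one_pos] with s h3 hs h4
      have h5 := (H.hΦ s hs).2.2.1
      have hD0 := (H.hD s hs).2.1
      simp only [hR1, mem_setOf_eq] at h3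
      have h6 := mul_le_mul_of_nonneg_left h3 (add_nonneg hC hδ.le)
      have h7 := (le_abs_self _).trans h4.le
      have h8 := mul_nonneg hδ.le hD0
      have h9 := mul_nonneg hC (abs_nonneg (μ s))
      simp only [hR, hG, mem_setOf_eq]
      linarith
    exact (H.step1.and_eventually (FR.out h2)).mono fun s hs => hs.2 hs.1
  have hd : ∀ᶠ s in FR R, ∃ k < 0, DiniLe (fun z => G z - z ^ (-(37 : ℝ) / 50)) s k := by
    filter_upwards [hGd, FR.gt R s1, (OP.cmul (-(37 : ℝ) / 50) (OP.pw R (-(37 : ℝ) / 50 - 1))).small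
      (q := -(7 : ℝ) / 5) (by norm_num) (half_pos hδ)] with s h1 hs h2
    refine ⟨_, ?_, h1.sub_hasDerivAt (hpw s hs)⟩
    have := neg_abs_le (-(37 : ℝ) / 50 * s ^ (-(37 : ℝ) / 50 - 1))
    linarith
  have hall : ∀ᶠ s in atTop, s ∈ R := by
    have := region_s1 (f := fun z => G z - z ^ (-(37 : ℝ) / 50))
      (g := fun z => G z - z ^ (-(37 : ℝ) / 50))
      ((eventually_gt_atTop s1).mono fun s hs =>
        ⟨(hGc s hs).sub (hpw s hs).continuousAt, (hGc s hs).sub (hpw s hs).continuousAt⟩)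
      (hfr.mono fun s hs => ⟨hs, hs⟩)
      ((FR.out hd).mono fun s hs h => ⟨fun _ => hs h.1, fun _ => hs h.1⟩)
    exact this.mono fun s hs => hs.1
  have hGO : OP univ G (-37 / 50) := by
    refine (hLu univ).of_le ?_
    filter_upwards [FR.ev hall, FR.gt univ s1] with s h1 hs
    have h2 := hGl s hs
    have h3 := mul_nonneg hδ.le (abs_nonneg (μ s))
    have h4 := mul_nonneg hC (mul_pos (H.Lm_pos hs) (H.u_pos hs)).le
    have h5 := Real.rpow_pos_of_pos (H.pos hs) (-(37 : ℝ) / 50)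
    simp only [hR, mem_setOf_eq] at h1
    rw [abs_le]
    constructor <;> linarith
  refine dini_drop_s1 (half_pos hδ) (p := -(7 : ℝ) / 5) (by norm_num) ?_ hGO (by norm_num)
  filter_upwards [hall, FR.out hGd, eventually_gt_atTop s1] with s h1 h2 hs
  exact ⟨hGc s hs, h2 h1⟩

end Pool.Agent.MP_8339a4_an
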