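import Pool.Agent.MP_8339a4_an.Core

/-! API: primitives of locally integrable functions. -/

open MeasureTheory Filter Topology Set

namespace Pool.Agent.MP_8339a4_an

variable {f g F G : ℝ → ℝ}

theorem IsPrim.eq_T1 (h : IsPrim f g) (c : ℝ) : f = fun y => f c + ∫ x in c..y, g x := by
  funext y
  have := h.2 c y
  linarith

theorem IsPrim.li_T1 (h : IsPrim f g) : LocallyIntegrable g volume := by
  intro x
  refine ⟨Ioc (x - 1) (x + 1), ?_, (h.1 (x - 1) (x + 1)).1⟩
  exact Ioc_mem_nhds (by linarith) (by linarith)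

theorem IsPrim.ac_T1 (h : IsPrim f g) (a b : ℝ) : AbsolutelyContinuousOnInterval f a b := by
  have h1 : AbsolutelyContinuousOnInterval (fun _ : ℝ => f a) a b :=
    (contDiffOn_const (c := f a)).absolutelyContinuousOnInterval
  have h2 := (h.1 a b).absolutelyContinuousOnInterval_intervalIntegral (c := a) left_mem_uIcc
  have h3 := h1.fun_add h2
  rw [← h.eq_T1 a] at h3
  exact h3

theorem of_ac_T1 (h1 : ∀ a b, AbsolutelyContinuousOnInterval f a b)
    (h2 : ∀ᵐ y, HasDerivAt f (g y) y) (h3 : ∀ a b, IntervalIntegrable g volume a b) :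
    IsPrim f g := by
  refine ⟨h3, fun a b => ?_⟩
  rw [← (h1 a b).integral_deriv_eq_sub]
  apply intervalIntegral.integral_congr_ae
  filter_upwards [h2] with y hy _
  exact hy.deriv

theorem IsH1.isPrim (h : IsH1 f g) : IsPrim f g := by
  refine ⟨fun a b => ?_, h.2.2⟩
  have h1 : LocallyIntegrable g volume := h.2.1.locallyIntegrable (by norm_num)
  exact (h1.integrableOn_isCompact isCompact_uIcc).intervalIntegrable

theorem IsPrim.continuous (h : IsPrim f g) : Continuous f := by
  rw [h.eq_T1 0]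
  exact continuous_const.add (intervalIntegral.continuous_primitive h.1 0)

theorem IsPrim.aestronglyMeasurable (h : IsPrim f g) : AEStronglyMeasurable g volume :=
  h.li_T1.aestronglyMeasurable

theorem IsPrim.ae_hasDerivAt (h : IsPrim f g) : ∀ᵐ y, HasDerivAt f (g y) y := by
  filter_upwards [_root_.LocallyIntegrable.ae_hasDerivAt_integral h.li_T1] with y hy
  have h1 := (hy 0).const_add (f 0)
  rw [← h.eq_T1 0] at h1
  exact h1

theorem IsPrim.congr (h : IsPrim f g) (h1 : ∀ y, f y = F y) (h2 : ∀ y, g y = G y) :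
    IsPrim F G := by
  have e1 : f = F := funext h1
  have e2 : g = G := funext h2
  rw [← e1, ← e2]
  exact h

theorem IsPrim.const (c : ℝ) : IsPrim (fun _ => c) (fun _ => 0) :=
  ⟨fun _ _ => intervalIntegrable_const, fun a b => by simp⟩

theorem IsPrim.add (h : IsPrim f g) (H : IsPrim F G) :
    IsPrim (fun y => f y + F y) (fun y => g y + G y) := by
  refine ⟨fun a b => (h.1 a b).add (H.1 a b), fun a b => ?_⟩
  rw [intervalIntegral.integral_add (h.1 a b) (H.1 a b), ← h.2 a b, ← H.2 a b]
  ring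

theorem IsPrim.sub (h : IsPrim f g) (H : IsPrim F G) :
    IsPrim (fun y => f y - F y) (fun y => g y - G y) := by
  refine ⟨fun a b => (h.1 a b).sub (H.1 a b), fun a b => ?_⟩
  rw [intervalIntegral.integral_sub (h.1 a b) (H.1 a b), ← h.2 a b, ← H.2 a b]
  ring

theorem IsPrim.neg (h : IsPrim f g) : IsPrim (fun y => -f y) (fun y => -g y) := by
  refine ⟨fun a b => (h.1 a b).neg, fun a b => ?_⟩
  rw [intervalIntegral.integral_neg, ← h.2 a b]
  ring

theorem IsPrim.const_mul (h : IsPrim f g) (c : ℝ) :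
    IsPrim (fun y => c * f y) (fun y => c * g y) := by
  refine ⟨fun a b => (h.1 a b).const_mul c, fun a b => ?_⟩
  rw [intervalIntegral.integral_const_mul, ← h.2 a b]
  ring

theorem IsPrim.mul (h : IsPrim f g) (H : IsPrim F G) :
    IsPrim (fun y => f y * F y) (fun y => g y * F y + f y * G y) := by
  refine of_ac_T1 (fun a b => (h.ac_T1 a b).fun_mul (H.ac_T1 a b)) ?_ (fun a b => ?_)
  · filter_upwards [h.ae_hasDerivAt, H.ae_hasDerivAt] with y h1 h2
    exact h1.fun_mul h2
  · exact ((h.1 a b).mul_continuousOn H.continuous.continuousOn).add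
      ((H.1 a b).continuousOn_mul h.continuous.continuousOn)

theorem IsPrim.of_hasDerivAt (h : ∀ y, HasDerivAt f (g y) y) (hg : Continuous g) :
    IsPrim f g :=
  ⟨fun a b => hg.intervalIntegrable a b, fun a b =>
    (intervalIntegral.integral_eq_sub_of_hasDerivAt (fun y _ => h y)
      (hg.intervalIntegrable a b)).symm⟩

theorem ac_comp_T1 {a b : ℝ} (hf : AbsolutelyContinuousOnInterval f a b)
    (hF : ∀ x, HasDerivAt F (G x) x) (hG : Continuous G) :
    AbsolutelyContinuousOnInterval (fun y => F (f y)) a b := by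
  obtain ⟨C, hC⟩ := hf.exists_bound
  obtain ⟨D, hD⟩ := (isCompact_Icc (a := -C) (b := C)).exists_bound_of_continuousOn
    hG.continuousOn
  have key : ∀ u ∈ Icc (-C) C, ∀ v ∈ Icc (-C) C, ‖F v - F u‖ ≤ D * ‖v - u‖ := fun u hu v hv =>
    (convex_Icc (-C) C).norm_image_sub_le_of_norm_hasDerivWithin_le
      (fun x _ => (hF x).hasDerivWithinAt) hD hu hv
  have mem : ∀ x ∈ uIcc a b, f x ∈ Icc (-C) C := fun x hx => abs_le.1 (hC x hx)
  unfold AbsolutelyContinuousOnInterval at hf ⊢
  apply squeeze_zero' ?_ ?_ (by simpa using hf.const_mul D)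
  · exact Filter.Eventually.of_forall <| fun _ ↦ Finset.sum_nonneg (fun i hi ↦ dist_nonneg)
  rw [eventually_inf_principal]
  filter_upwards with E hE
  rw [Finset.mul_sum]
  refine Finset.sum_le_sum fun i hi => ?_
  have h1 := hE.1 i hi
  rw [dist_eq_norm, dist_eq_norm]
  exact key _ (mem _ h1.2) _ (mem _ h1.1)

theorem IsPrim.comp (h : IsPrim f g) (hF : ∀ x, HasDerivAt F (G x) x) (hG : Continuous G) :
    IsPrim (fun y => F (f y)) (fun y => G (f y) * g y) := by
  refine of_ac_T1 (fun a b => ac_comp_T1 (h.ac_T1 a b) hF hG) ?_ (fun a b => ?_)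
  · filter_upwards [h.ae_hasDerivAt] with y h1
    exact (hF (f y)).comp y h1
  · exact (h.1 a b).continuousOn_mul (hG.comp h.continuous).continuousOn

theorem IsPrim.pow (h : IsPrim f g) (n : ℕ) :
    IsPrim (fun y => f y ^ (n + 1)) (fun y => ((n : ℝ) + 1) * f y ^ n * g y) := by
  have h1 : ∀ x : ℝ, HasDerivAt (fun x : ℝ => x ^ (n + 1)) (((n : ℝ) + 1) * x ^ n) x := by
    intro x
    simpa using hasDerivAt_pow (n + 1) x
  exact h.comp h1 (by fun_prop)

theorem IsPrim.comp_affine (h : IsPrim f g) (a b : ℝ) :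
    IsPrim (fun y => f (a * y + b)) (fun y => a * g (a * y + b)) := by
  refine ⟨fun p q => ?_, fun p q => ?_⟩
  · rcases eq_or_ne a 0 with ha | ha
    · subst ha
      simp
    · have h1 := ((h.1 (a * p + b) (a * q + b)).comp_add_right b).comp_mul_left (c := a)
      have e1 : (a * p + b - b) / a = p := by field_simp; ring
      have e2 : (a * q + b - b) / a = q := by field_simp; ring
      rw [e1, e2] at h1
      exact h1.const_mul a
  · rw [intervalIntegral.integral_const_mul, h.2]
    exact (intervalIntegral.smul_integral_comp_mul_add g a b).symm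

theorem IsPrim.lim_top_T1 (h : IsPrim f g) {p : ℝ} (i2 : IntegrableOn g (Ioi p)) :
    Tendsto f atTop (𝓝 (f p + ∫ y in Ioi p, g y)) := by
  have h1 := (intervalIntegral_tendsto_integral_Ioi p i2 tendsto_id).const_add (f p)
  refine h1.congr fun y => ?_
  have := h.2 p y
  simp only [id]
  linarith

theorem IsPrim.lim_bot_T1 (h : IsPrim f g) {p : ℝ} (i2 : IntegrableOn g (Iic p)) :
    Tendsto f atBot (𝓝 (f p - ∫ y in Iic p, g y)) := by
  have h1 := (intervalIntegral_tendsto_integral_Iic p i2 tendsto_id).const_sub (f p)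
  refine h1.congr fun y => ?_
  have := h.2 y p
  simp only [id]
  linarith

theorem IsPrim.tendsto_atTop (h : IsPrim f g) {p : ℝ} (i1 : IntegrableOn f (Ioi p))
    (i2 : IntegrableOn g (Ioi p)) : Tendsto f atTop (𝓝 0) := by
  have h1 := h.lim_top_T1 i2
  have h2 : IntegrableAtFilter f atTop volume := ⟨Ioi p, Ioi_mem_atTop p, i1⟩
  have h3 := h2.eq_zero_of_tendsto (fun s hs => by
    rcases mem_atTop_sets.1 hs with ⟨b, hb⟩
    rw [← top_le_iff, ← Real.volume_Ici (a := b)]
    exact measure_mono hb) h1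
  rwa [h3] at h1

theorem IsPrim.tendsto_atBot (h : IsPrim f g) {p : ℝ} (i1 : IntegrableOn f (Iic p))
    (i2 : IntegrableOn g (Iic p)) : Tendsto f atBot (𝓝 0) := by
  have h1 := h.lim_bot_T1 i2
  have h2 : IntegrableAtFilter f atBot volume := ⟨Iic p, Iic_mem_atBot p, i1⟩
  have h3 := h2.eq_zero_of_tendsto (fun s hs => by
    rcases mem_atBot_sets.1 hs with ⟨b, hb⟩
    rw [← top_le_iff, ← Real.volume_Iic (a := b)]
    exact measure_mono hb) h1
  rwa [h3] at h1

theorem IsPrim.integral_Ioi_of_tendsto (h : IsPrim f g) {p b : ℝ} (i2 : IntegrableOn g (Ioi p))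
    (hb : Tendsto f atTop (𝓝 b)) : ∫ y in Ioi p, g y = b - f p := by
  have := tendsto_nhds_unique (h.lim_top_T1 i2) hb
  linarith

theorem IsPrim.integral_Iic_of_tendsto (h : IsPrim f g) {p a : ℝ} (i2 : IntegrableOn g (Iic p))
    (ha : Tendsto f atBot (𝓝 a)) : ∫ y in Iic p, g y = f p - a := by
  have := tendsto_nhds_unique (h.lim_bot_T1 i2) ha
  linarith

theorem IsPrim.integral_Ioi (h : IsPrim f g) {p : ℝ} (i1 : IntegrableOn f (Ioi p))
    (i2 : IntegrableOn g (Ioi p)) : ∫ y in Ioi p, g y = -f p := by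
  rw [h.integral_Ioi_of_tendsto i2 (h.tendsto_atTop i1 i2), zero_sub]

theorem IsPrim.integral_Iic (h : IsPrim f g) {p : ℝ} (i1 : IntegrableOn f (Iic p))
    (i2 : IntegrableOn g (Iic p)) : ∫ y in Iic p, g y = f p := by
  rw [h.integral_Iic_of_tendsto i2 (h.tendsto_atBot i1 i2), sub_zero]

theorem IsPrim.integral_of_tendsto (h : IsPrim f g) (i2 : Integrable g) {a b : ℝ}
    (ha : Tendsto f atBot (𝓝 a)) (hb : Tendsto f atTop (𝓝 b)) : ∫ y, g y = b - a := by
  rw [← intervalIntegral.integral_Iic_add_Ioi (b := 0) i2.integrableOn i2.integrableOn,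
    h.integral_Iic_of_tendsto i2.integrableOn ha, h.integral_Ioi_of_tendsto i2.integrableOn hb]
  ring

theorem IsPrim.integral_eq_zero (h : IsPrim f g) (i1 : Integrable f) (i2 : Integrable g) :
    ∫ y, g y = 0 := by
  rw [h.integral_of_tendsto i2 (h.tendsto_atBot (p := 0) i1.integrableOn i2.integrableOn)
    (h.tendsto_atTop (p := 0) i1.integrableOn i2.integrableOn), sub_zero]

/-- Integration by parts on the line. -/
theorem IsPrim.ibp (h : IsPrim f g) (H : IsPrim F G) (i0 : Integrable (fun y => f y * F y))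
    (i1 : Integrable (fun y => g y * F y)) (i2 : Integrable (fun y => f y * G y)) :
    ∫ y, g y * F y = -∫ y, f y * G y := by
  have h1 := (h.mul H).integral_eq_zero i0 (i1.add i2)
  rw [integral_add i1 i2] at h1
  linarith

/-- Two integrable functions whose difference is the derivative of an integrable primitive have the
same integral. -/
theorem IsPrim.integral_eq (h : IsPrim f g) (i0 : Integrable f) (i1 : Integrable F)
    (i2 : Integrable G) (e : ∀ y, F y - G y = g y) : ∫ y, F y = ∫ y, G y := by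
  have e1 : g = fun y => F y - G y := funext fun y => (e y).symm
  subst e1
  have h1 := h.integral_eq_zero i0 (i1.sub i2)
  rw [integral_sub i1 i2] at h1
  linarith

end Pool.Agent.MP_8339a4_an
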