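import Pool.Agent.MP_8339a4_an.T1

/-! API: bounded and exponentially decaying functions, `L^2`. -/

open MeasureTheory Filter Topology Set

namespace Pool.Agent.MP_8339a4_an

variable {f g F G w : ℝ → ℝ}

theorem nf_T2a (h : ExpD f) : ∃ C c : ℝ, 0 ≤ C ∧ 0 < c ∧
    ∀ c' ≤ c, ∀ y, |f y| ≤ C * Real.exp (-(c' * |y|)) := by
  obtain ⟨-, C, c, hc, hC⟩ := h
  refine ⟨|C|, c, abs_nonneg _, hc, fun c' h' y => (hC y).trans ?_⟩
  exact mul_le_mul (le_abs_self _)
    (Real.exp_le_exp.2 (neg_le_neg (mul_le_mul_of_nonneg_right h' (abs_nonneg _))))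
    (Real.exp_pos _).le (abs_nonneg _)

theorem le_T2a (h : ExpD f) (hg : Continuous g) (C : ℝ) (e : ∀ y, |g y| ≤ C * |f y|) :
    ExpD g := by
  obtain ⟨-, D, c, hc, hD⟩ := h
  refine ⟨hg, |C| * D, c, hc, fun y => (e y).trans ?_⟩
  rw [mul_assoc]
  exact mul_le_mul (le_abs_self _) (hD y) (abs_nonneg _) (abs_nonneg _)

theorem int_T2a {c : ℝ} (hc : 0 < c) : ∫ y : ℝ, Real.exp (-(c * |y|)) = 2 / c := by
  rw [integral_comp_abs (f := fun x => Real.exp (-(c * x)))]
  have := integral_exp_mul_Ioi (neg_neg_of_pos hc) 0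
  simp only [neg_mul] at this
  rw [this]
  simp [div_eq_mul_inv]

theorem csw_T2a (hw : ∀ y, 0 ≤ w y) (i0 : Integrable (fun y => w y * (f y * g y)))
    (i1 : Integrable (fun y => w y * f y ^ 2)) (i2 : Integrable (fun y => w y * g y ^ 2)) :
    (∫ y, w y * (f y * g y)) ^ 2 ≤ (∫ y, w y * f y ^ 2) * ∫ y, w y * g y ^ 2 := by
  have h := discrim_le_zero (a := ∫ y, w y * g y ^ 2) (b := 2 * ∫ y, w y * (f y * g y))
    (c := ∫ y, w y * f y ^ 2) fun t => by
      have h1 : 0 ≤ ∫ y, (w y * g y ^ 2 * (t * t) + 2 * t * (w y * (f y * g y)) +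
          w y * f y ^ 2) := integral_nonneg fun y => by
        have := mul_nonneg (hw y) (sq_nonneg (f y + t * g y))
        simp only [Pi.zero_apply]
        linarith
      have i3 : Integrable fun y => w y * g y ^ 2 * (t * t) + 2 * t * (w y * (f y * g y)) :=
        (i2.mul_const _).add (i0.const_mul _)
      rw [integral_add i3 i1,
        integral_add (i2.mul_const _) (i0.const_mul _), integral_mul_const,
        integral_const_mul] at h1
      linarith
  rw [discrim] at h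
  linarith

theorem Bdd.const (c : ℝ) : Bdd (fun _ => c) := ⟨continuous_const, |c|, fun _ => le_rfl⟩
theorem Bdd.add (h : Bdd f) (H : Bdd g) : Bdd (fun y => f y + g y) := by
  obtain ⟨hf, C, hC⟩ := h
  obtain ⟨hg, D, hD⟩ := H
  exact ⟨hf.add hg, C + D, fun y => (abs_add_le _ _).trans (add_le_add (hC y) (hD y))⟩
theorem Bdd.sub (h : Bdd f) (H : Bdd g) : Bdd (fun y => f y - g y) := by
  obtain ⟨hf, C, hC⟩ := h
  obtain ⟨hg, D, hD⟩ := H
  exact ⟨hf.sub hg, C + D, fun y => (abs_sub _ _).trans (add_le_add (hC y) (hD y))⟩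
theorem Bdd.neg (h : Bdd f) : Bdd (fun y => -f y) := by
  obtain ⟨hf, C, hC⟩ := h
  exact ⟨hf.neg, C, fun y => (abs_neg _).trans_le (hC y)⟩
theorem Bdd.mul (h : Bdd f) (H : Bdd g) : Bdd (fun y => f y * g y) := by
  obtain ⟨hf, C, hC⟩ := h
  obtain ⟨hg, D, hD⟩ := H
  exact ⟨hf.mul hg, C * D, fun y => (abs_mul _ _).trans_le
    (mul_le_mul (hC y) (hD y) (abs_nonneg _) ((abs_nonneg _).trans (hC y)))⟩
theorem Bdd.const_mul (h : Bdd f) (c : ℝ) : Bdd (fun y => c * f y) := (Bdd.const c).mul h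
theorem Bdd.div_const (h : Bdd f) (c : ℝ) : Bdd (fun y => f y / c) := by
  simpa only [div_eq_mul_inv] using h.mul (Bdd.const c⁻¹)
theorem Bdd.pow (h : Bdd f) (n : ℕ) : Bdd (fun y => f y ^ n) := by
  obtain ⟨hf, C, hC⟩ := h
  exact ⟨hf.pow n, C ^ n, fun y => (abs_pow _ _).trans_le
    (pow_le_pow_left₀ (abs_nonneg _) (hC y) n)⟩
theorem Bdd.abs (h : Bdd f) : Bdd (fun y => |f y|) := by
  obtain ⟨hf, C, hC⟩ := h
  exact ⟨hf.abs, C, fun y => (abs_abs _).trans_le (hC y)⟩
theorem Bdd.comp (h : Bdd f) (hg : Continuous g) : Bdd (fun y => f (g y)) := by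
  obtain ⟨hf, C, hC⟩ := h
  exact ⟨hf.comp hg, C, fun y => hC _⟩
theorem Bdd.congr (h : Bdd f) (e : ∀ y, f y = g y) : Bdd g := (funext e : f = g) ▸ h

theorem ExpD.bdd (h : ExpD f) : Bdd f := by
  obtain ⟨C, c, -, hc, hC⟩ := nf_T2a h
  exact ⟨h.1, C, fun y => by simpa using hC 0 hc.le y⟩
theorem ExpD.zero : ExpD (fun _ => 0) := ⟨continuous_const, 0, 1, one_pos, by simp⟩
theorem ExpD.add (h : ExpD f) (H : ExpD g) : ExpD (fun y => f y + g y) := by
  obtain ⟨C, c, -, hc, hC⟩ := nf_T2a h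
  obtain ⟨D, d, -, hd, hD⟩ := nf_T2a H
  refine ⟨h.1.add H.1, C + D, min c d, lt_min hc hd, fun y => (abs_add_le _ _).trans ?_⟩
  rw [add_mul]
  exact add_le_add (hC _ (min_le_left _ _) y) (hD _ (min_le_right _ _) y)
theorem ExpD.sub (h : ExpD f) (H : ExpD g) : ExpD (fun y => f y - g y) := by
  simpa only [sub_eq_add_neg] using
    h.add (le_T2a H H.1.neg 1 fun y => by simp : ExpD fun y => -g y)
theorem ExpD.neg (h : ExpD f) : ExpD (fun y => -f y) := le_T2a h h.1.neg 1 fun y => by simp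
theorem ExpD.abs (h : ExpD f) : ExpD (fun y => |f y|) := le_T2a h h.1.abs 1 fun y => by simp
theorem ExpD.const_mul (h : ExpD f) (c : ℝ) : ExpD (fun y => c * f y) :=
  le_T2a h (continuous_const.mul h.1) |c| fun _ => (abs_mul _ _).le
theorem ExpD.div_const (h : ExpD f) (c : ℝ) : ExpD (fun y => f y / c) := by
  simpa only [div_eq_inv_mul] using h.const_mul c⁻¹
theorem ExpD.mul_bdd (h : ExpD f) (H : Bdd g) : ExpD (fun y => f y * g y) := by
  obtain ⟨hg, D, hD⟩ := H
  refine le_T2a h (h.1.mul hg) D fun y => ?_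
  rw [abs_mul, mul_comm]
  exact mul_le_mul_of_nonneg_right (hD y) (abs_nonneg _)
theorem ExpD.bdd_mul (h : ExpD f) (H : Bdd g) : ExpD (fun y => g y * f y) := by
  simpa only [mul_comm] using h.mul_bdd H
theorem ExpD.id_mul (h : ExpD f) : ExpD (fun y => y * f y) := by
  obtain ⟨C, c, hC0, hc, hC⟩ := nf_T2a h
  refine ⟨continuous_id.mul h.1, 2 / c * C, c / 2, by positivity, fun y => ?_⟩
  have h1 : |y| ≤ 2 / c * Real.exp (c / 2 * |y|) := by
    have := Real.add_one_le_exp (c / 2 * |y|)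
    rw [div_mul_eq_mul_div 2, le_div_iff₀ hc]
    linarith
  have h2 : Real.exp (c / 2 * |y|) * Real.exp (-(c * |y|)) = Real.exp (-(c / 2 * |y|)) := by
    rw [← Real.exp_add]
    congr 1
    ring
  rw [abs_mul, ← h2]
  refine (mul_le_mul h1 (hC c le_rfl y) (abs_nonneg _) (by positivity)).trans_eq ?_
  ring
theorem ExpD.pow (h : ExpD f) (n : ℕ) : ExpD (fun y => f y ^ (n + 1)) := by
  simpa only [pow_succ] using h.bdd_mul (h.bdd.pow n)
theorem ExpD.comp_affine (h : ExpD f) {a : ℝ} (ha : a ≠ 0) (b : ℝ) :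
    ExpD (fun y => f (a * y + b)) := by
  obtain ⟨C, c, hC0, hc, hC⟩ := nf_T2a h
  refine ⟨h.1.comp (by fun_prop), C * Real.exp (c * |b|), c * |a|, by positivity, fun y => ?_⟩
  refine (hC c le_rfl _).trans ?_
  rw [mul_assoc, ← Real.exp_add]
  refine mul_le_mul_of_nonneg_left (Real.exp_le_exp.2 ?_) hC0
  have h1 := abs_sub (a * y + b) b
  rw [add_sub_cancel_right, abs_mul] at h1
  nlinarith
theorem ExpD.of_le (h : ExpD f) (hg : Continuous g) (C : ℝ) (e : ∀ y, |g y| ≤ C * |f y|) :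
    ExpD g := le_T2a h hg C e
theorem ExpD.congr (h : ExpD f) (e : ∀ y, f y = g y) : ExpD g := (funext e : f = g) ▸ h
theorem ExpD.exp_neg_abs {c : ℝ} (hc : 0 < c) : ExpD (fun y => Real.exp (-(c * |y|))) :=
  ⟨by fun_prop, 1, c, hc, fun y => by rw [one_mul, abs_of_pos (Real.exp_pos _)]⟩
theorem ExpD.integrable (h : ExpD f) : Integrable f := by
  obtain ⟨hf, C, c, hc, hC⟩ := h
  have h1 : Integrable fun y : ℝ => Real.exp (-(c * |y|)) :=
    Integrable.of_integral_ne_zero (by rw [int_T2a hc]; positivity)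
  exact (h1.const_mul C).mono' hf.aestronglyMeasurable (ae_of_all _ hC)
theorem ExpD.memLp (h : ExpD f) : MemLp f 2 volume :=
  (memLp_two_iff_integrable_sq h.1.aestronglyMeasurable).2 (h.pow 1).integrable
theorem integral_exp_neg_abs {c : ℝ} (hc : 0 < c) :
    ∫ y : ℝ, Real.exp (-(c * |y|)) = 2 / c := int_T2a hc

theorem memLp_mul_bdd (h : MemLp f 2 volume) (H : Bdd w) : MemLp (fun y => f y * w y) 2 volume := by
  obtain ⟨hw, C, hC⟩ := H
  refine h.of_le_mul (c := C) (h.1.mul hw.aestronglyMeasurable) (ae_of_all _ fun y => ?_)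
  rw [norm_mul, mul_comm]
  exact mul_le_mul_of_nonneg_right (hC y) (norm_nonneg _)
theorem memLp_bdd_mul (h : MemLp f 2 volume) (H : Bdd w) : MemLp (fun y => w y * f y) 2 volume := by
  simpa only [mul_comm] using memLp_mul_bdd h H
theorem integrable_mul2 (h : MemLp f 2 volume) (H : MemLp g 2 volume) :
    Integrable (fun y => f y * g y) := h.integrable_mul H
theorem integrable_sq2 (h : MemLp f 2 volume) : Integrable (fun y => f y ^ 2) := h.integrable_sq
theorem integrable_mul_bdd (h : Integrable f) (H : Bdd w) : Integrable (fun y => f y * w y) := by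
  obtain ⟨hw, C, hC⟩ := H
  exact h.mul_bdd hw.aestronglyMeasurable (ae_of_all _ hC)
theorem integrable_bdd_mul (h : Integrable f) (H : Bdd w) : Integrable (fun y => w y * f y) := by
  simpa only [mul_comm] using integrable_mul_bdd h H
theorem memLp_comp_affine (h : MemLp f 2 volume) {a : ℝ} (ha : a ≠ 0) (b : ℝ) :
    MemLp (fun y => f (a * y + b)) 2 volume := by
  have h1 := (h.comp_measurePreserving (measurePreserving_add_right volume b)).smul_measure
    (c := ENNReal.ofReal |a⁻¹|) ENNReal.ofReal_ne_top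
  rw [← Real.map_volume_mul_left ha] at h1
  exact h1.comp_of_map (by fun_prop)
theorem integral_comp_affine (f : ℝ → ℝ) {a : ℝ} (ha : 0 < a) (b : ℝ) :
    ∫ y, f (a * y + b) = (∫ x, f x) / a := by
  rw [Measure.integral_comp_mul_left (fun x => f (x + b)) a, integral_add_right_eq_self,
    abs_of_pos (inv_pos.2 ha), smul_eq_mul, div_eq_inv_mul]

/-- Cauchy-Schwarz. -/
theorem cs2 (h : MemLp f 2 volume) (H : MemLp g 2 volume) :
    (∫ y, f y * g y) ^ 2 ≤ (∫ y, f y ^ 2) * ∫ y, g y ^ 2 := by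
  simpa only [one_mul] using csw_T2a (w := fun _ => 1) (f := f) (g := g) (fun _ => zero_le_one)
    (by simpa only [one_mul] using integrable_mul2 h H)
    (by simpa only [one_mul] using integrable_sq2 h)
    (by simpa only [one_mul] using integrable_sq2 H)
theorem cs2_abs (h : MemLp f 2 volume) (H : MemLp g 2 volume) :
    |∫ y, f y * g y| ≤ Real.sqrt (∫ y, f y ^ 2) * Real.sqrt (∫ y, g y ^ 2) := by
  rw [← Real.sqrt_mul (integral_nonneg fun y => sq_nonneg _)]
  exact Real.abs_le_sqrt (cs2 h H)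
/-- Weighted Cauchy-Schwarz. -/
theorem csw (hw : ∀ y, 0 ≤ w y) (i0 : Integrable (fun y => w y * (f y * g y)))
    (i1 : Integrable (fun y => w y * f y ^ 2)) (i2 : Integrable (fun y => w y * g y ^ 2)) :
    (∫ y, w y * (f y * g y)) ^ 2 ≤ (∫ y, w y * f y ^ 2) * ∫ y, w y * g y ^ 2 :=
  csw_T2a hw i0 i1 i2
/-- Dual weighted Cauchy-Schwarz. -/
theorem csd (hw : ∀ y, 0 < w y) (i0 : Integrable (fun y => f y * g y))
    (i1 : Integrable (fun y => w y * f y ^ 2)) (i2 : Integrable (fun y => g y ^ 2 / w y)) :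
    (∫ y, f y * g y) ^ 2 ≤ (∫ y, w y * f y ^ 2) * ∫ y, g y ^ 2 / w y := by
  have e0 : ∀ y, w y * (f y * (g y / w y)) = f y * g y := fun y => by
    have := (hw y).ne'
    field_simp
  have e2 : ∀ y, w y * (g y / w y) ^ 2 = g y ^ 2 / w y := fun y => by
    have := (hw y).ne'
    field_simp
  simpa only [e0, e2] using csw_T2a (w := w) (f := f) (g := fun y => g y / w y)
    (fun y => (hw y).le) (by simpa only [e0] using i0) i1 (by simpa only [e2] using i2)

end Pool.Agent.MP_8339a4_an
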