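import Pool.Agent.MP_8339a4_an.T2a

/-! API: `H^1` functions. -/

open MeasureTheory Filter Topology Set

namespace Pool.Agent.MP_8339a4_an

variable {f g F G w : ℝ → ℝ}

theorem le_integral_T2b (h : IsPrim f g) (i0 : Integrable f) (i1 : Integrable g)
    (i2 : Integrable w) (e : ∀ y, |g y| ≤ w y) (x : ℝ) : f x ≤ ∫ y, w y := by
  rw [← h.integral_Iic (p := x) i0.integrableOn i1.integrableOn]
  calc ∫ y in Iic x, g y ≤ ∫ y in Iic x, w y :=
        integral_mono i1.integrableOn i2.integrableOn fun y => (le_abs_self _).trans (e y)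
    _ ≤ ∫ y, w y :=
        setIntegral_le_integral i2 (Eventually.of_forall fun y => (abs_nonneg _).trans (e y))

theorem prim_sq_T2b (h : IsH1 f g) : IsPrim (fun y => f y ^ 2) (fun y => 2 * (f y * g y)) :=
  (h.isPrim.mul h.isPrim).congr (fun y => by ring) fun y => by ring

theorem tendsto_T2b {l : Filter ℝ} (h : Tendsto (fun y => f y ^ 2) l (𝓝 0)) :
    Tendsto f l (𝓝 0) := by
  have h1 := h.sqrt
  simp only [Real.sqrt_sq_eq_abs, Real.sqrt_zero] at h1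
  exact (tendsto_zero_iff_abs_tendsto_zero f).2 h1

theorem IsH1.continuous (h : IsH1 f g) : Continuous f := h.isPrim.continuous
theorem IsH1.sq_le (h : IsH1 f g) (x : ℝ) :
    f x ^ 2 ≤ 2 * (Real.sqrt (∫ y, f y ^ 2) * Real.sqrt (∫ y, g y ^ 2)) := by
  have a1 : MemLp (fun y => |f y|) 2 volume := h.1.abs
  have a2 : MemLp (fun y => |g y|) 2 volume := h.2.1.abs
  have h1 := le_integral_T2b (prim_sq_T2b h) (integrable_sq2 h.1)
    ((integrable_mul2 h.1 h.2.1).const_mul 2) ((integrable_mul2 a1 a2).const_mul 2)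
    (fun y => by rw [abs_mul, abs_mul, abs_two]) x
  have h2 := cs2_abs a1 a2
  simp only [sq_abs] at h2
  rw [integral_const_mul] at h1
  linarith [le_abs_self (∫ y, |f y| * |g y|)]
theorem IsH1.sq_le' (h : IsH1 f g) (x : ℝ) : f x ^ 2 ≤ ∫ y, (f y ^ 2 + g y ^ 2) :=
  le_integral_T2b (w := fun y => f y ^ 2 + g y ^ 2) (prim_sq_T2b h) (integrable_sq2 h.1)
    ((integrable_mul2 h.1 h.2.1).const_mul 2)
    ((integrable_sq2 h.1).add (integrable_sq2 h.2.1))
    (fun y => abs_le.2 ⟨by nlinarith [sq_nonneg (f y + g y)], by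
      nlinarith [sq_nonneg (f y - g y)]⟩) x
theorem IsH1.bdd (h : IsH1 f g) : Bdd f :=
  ⟨h.continuous, Real.sqrt (∫ y, (f y ^ 2 + g y ^ 2)), fun y => Real.abs_le_sqrt (h.sq_le' y)⟩
theorem IsH1.tendsto_atTop (h : IsH1 f g) : Tendsto f atTop (𝓝 0) :=
  tendsto_T2b ((prim_sq_T2b h).tendsto_atTop (p := 0) (integrable_sq2 h.1).integrableOn
    ((integrable_mul2 h.1 h.2.1).const_mul 2).integrableOn)
theorem IsH1.tendsto_atBot (h : IsH1 f g) : Tendsto f atBot (𝓝 0) :=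
  tendsto_T2b ((prim_sq_T2b h).tendsto_atBot (p := 0) (integrable_sq2 h.1).integrableOn
    ((integrable_mul2 h.1 h.2.1).const_mul 2).integrableOn)
theorem IsH1.of_isPrim (h : IsPrim f g) (h1 : MemLp f 2 volume) (h2 : MemLp g 2 volume) :
    IsH1 f g := ⟨h1, h2, h.2⟩
theorem IsH1.of_expD (h : ∀ y, HasDerivAt f (g y) y) (h1 : ExpD f) (h2 : ExpD g) : IsH1 f g :=
  IsH1.of_isPrim (IsPrim.of_hasDerivAt h h2.1) h1.memLp h2.memLp
theorem IsH1.congr (h : IsH1 f g) (h1 : ∀ y, f y = F y) (h2 : ∀ y, g y = G y) : IsH1 F G := by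
  rw [← funext h1, ← funext h2]
  exact h
theorem IsH1.zero : IsH1 (fun _ => 0) (fun _ => 0) :=
  IsH1.of_isPrim (IsPrim.const 0) MemLp.zero' MemLp.zero'
theorem IsH1.add (h : IsH1 f g) (H : IsH1 F G) :
    IsH1 (fun y => f y + F y) (fun y => g y + G y) :=
  IsH1.of_isPrim (h.isPrim.add H.isPrim) (h.1.add H.1) (h.2.1.add H.2.1)
theorem IsH1.sub (h : IsH1 f g) (H : IsH1 F G) :
    IsH1 (fun y => f y - F y) (fun y => g y - G y) :=
  IsH1.of_isPrim (h.isPrim.sub H.isPrim) (h.1.sub H.1) (h.2.1.sub H.2.1)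
theorem IsH1.neg (h : IsH1 f g) : IsH1 (fun y => -f y) (fun y => -g y) :=
  IsH1.of_isPrim h.isPrim.neg h.1.neg h.2.1.neg
theorem IsH1.const_mul (h : IsH1 f g) (c : ℝ) : IsH1 (fun y => c * f y) (fun y => c * g y) :=
  IsH1.of_isPrim (h.isPrim.const_mul c) (h.1.const_mul c) (h.2.1.const_mul c)
theorem IsH1.mul (h : IsH1 f g) (H : IsH1 F G) :
    IsH1 (fun y => f y * F y) (fun y => g y * F y + f y * G y) :=
  IsH1.of_isPrim (h.isPrim.mul H.isPrim) (memLp_mul_bdd h.1 H.bdd)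
    ((memLp_mul_bdd h.2.1 H.bdd).add (memLp_bdd_mul H.2.1 h.bdd))
theorem IsH1.pow (h : IsH1 f g) (n : ℕ) :
    IsH1 (fun y => f y ^ (n + 1)) (fun y => ((n : ℝ) + 1) * f y ^ n * g y) :=
  IsH1.of_isPrim (h.isPrim.pow n)
    (by simpa only [pow_succ] using memLp_bdd_mul h.1 (h.bdd.pow n))
    (memLp_bdd_mul h.2.1 ((h.bdd.pow n).const_mul _))
theorem IsH1.mul_bdd (h : IsH1 f g) (hF : ∀ y, HasDerivAt F (G y) y) (b0 : Bdd F) (b1 : Bdd G) :
    IsH1 (fun y => f y * F y) (fun y => g y * F y + f y * G y) :=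
  IsH1.of_isPrim (h.isPrim.mul (IsPrim.of_hasDerivAt hF b1.1)) (memLp_mul_bdd h.1 b0)
    ((memLp_mul_bdd h.2.1 b0).add (memLp_mul_bdd h.1 b1))
theorem IsH1.comp_affine (h : IsH1 f g) {a : ℝ} (ha : a ≠ 0) (b : ℝ) :
    IsH1 (fun y => f (a * y + b)) (fun y => a * g (a * y + b)) :=
  IsH1.of_isPrim (h.isPrim.comp_affine a b) (memLp_comp_affine h.1 ha b)
    ((memLp_comp_affine h.2.1 ha b).const_mul a)
theorem IsH1.memLp_pow (h : IsH1 f g) (n : ℕ) : MemLp (fun y => f y ^ (n + 1)) 2 volume :=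
  (h.pow n).1
theorem IsH1.integrable_pow (h : IsH1 f g) (n : ℕ) : Integrable (fun y => f y ^ (n + 2)) := by
  simpa only [← pow_succ] using integrable_mul2 (h.memLp_pow n) h.1
/-- Integration by parts against a bounded `C^1` function in `H^1`. -/
theorem IsH1.ibp (h : IsH1 f g) (H : IsH1 F G) : ∫ y, g y * F y = -∫ y, f y * G y :=
  h.isPrim.ibp H.isPrim (integrable_mul2 h.1 H.1) (integrable_mul2 h.2.1 H.1)
    (integrable_mul2 h.1 H.2.1)
/-- Weighted Sobolev bound. -/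
theorem IsH1.weighted_sq_le (h : IsH1 f g) {W W1 : ℝ → ℝ} {c : ℝ}
    (hW : ∀ y, HasDerivAt W (W1 y) y) (hc : Continuous W1) (b0 : Bdd W) (h0 : ∀ y, 0 ≤ W y)
    (h1 : ∀ y, |W1 y| ≤ c * W y) (hc0 : 0 ≤ c) (x : ℝ) :
    W x * f x ^ 2 ≤ (c + 1) * ∫ y, W y * (f y ^ 2 + g y ^ 2) := by
  have b1 : Bdd W1 := by
    obtain ⟨-, C, hC⟩ := b0
    exact ⟨hc, c * C, fun y => (h1 y).trans
      (mul_le_mul_of_nonneg_left ((le_abs_self _).trans (hC y)) hc0)⟩
  rw [← integral_const_mul]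
  refine le_integral_T2b (w := fun y => (c + 1) * (W y * (f y ^ 2 + g y ^ 2)))
    ((IsPrim.of_hasDerivAt hW hc).mul (prim_sq_T2b h))
    (integrable_bdd_mul (integrable_sq2 h.1) b0)
    ((integrable_bdd_mul (integrable_sq2 h.1) b1).add
      (integrable_bdd_mul ((integrable_mul2 h.1 h.2.1).const_mul 2) b0))
    ((integrable_bdd_mul ((integrable_sq2 h.1).add (integrable_sq2 h.2.1)) b0).const_mul _)
    (fun y => ?_) x
  obtain ⟨e1, e2⟩ := abs_le.1 (h1 y)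
  have p1 := mul_nonneg (h0 y) (sq_nonneg (f y + g y))
  have p2 := mul_nonneg (h0 y) (sq_nonneg (f y - g y))
  have p3 := mul_nonneg (mul_nonneg hc0 (h0 y)) (sq_nonneg (g y))
  have p4 := mul_le_mul_of_nonneg_right e1 (sq_nonneg (f y))
  have p5 := mul_le_mul_of_nonneg_right e2 (sq_nonneg (f y))
  exact abs_le.2 ⟨by nlinarith, by nlinarith⟩

end Pool.Agent.MP_8339a4_an
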