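import Pool.Agent.MP_8339a4_an.T2b

/-! API: test functions and weights. -/

open MeasureTheory Filter Topology Set

namespace Pool.Agent.MP_8339a4_an

variable {f g F G w : ℝ → ℝ}

variable {f1 f2 f3 g1 g2 g3 : ℝ → ℝ}

theorem aff_T2c (h : ∀ y, HasDerivAt f (g y) y) (a b y : ℝ) :
    HasDerivAt (fun y => f (a * y + b)) (a * g (a * y + b)) y :=
  ((h (a * y + b)).comp y (((hasDerivAt_id y).const_mul a).add_const b)).congr_deriv (by ring)

theorem Sm3.c0 (h : Sm3 f f1 f2 f3) : Continuous f :=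
  continuous_iff_continuousAt.2 fun y => (h.d1 y).continuousAt
theorem Sm3.c1 (h : Sm3 f f1 f2 f3) : Continuous f1 :=
  continuous_iff_continuousAt.2 fun y => (h.d2 y).continuousAt
theorem Sm3.c2 (h : Sm3 f f1 f2 f3) : Continuous f2 :=
  continuous_iff_continuousAt.2 fun y => (h.d3 y).continuousAt
theorem Sm3.congr (h : Sm3 f f1 f2 f3) (e0 : ∀ y, f y = g y) (e1 : ∀ y, f1 y = g1 y)
    (e2 : ∀ y, f2 y = g2 y) (e3 : ∀ y, f3 y = g3 y) : Sm3 g g1 g2 g3 := by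
  rwa [← funext e0, ← funext e1, ← funext e2, ← funext e3]
theorem Sm3.add (h : Sm3 f f1 f2 f3) (H : Sm3 g g1 g2 g3) : Sm3 (fun y => f y + g y)
    (fun y => f1 y + g1 y) (fun y => f2 y + g2 y) (fun y => f3 y + g3 y) :=
  ⟨fun y => (h.d1 y).add (H.d1 y), fun y => (h.d2 y).add (H.d2 y), fun y => (h.d3 y).add (H.d3 y),
    h.c3.add H.c3⟩
theorem Sm3.const_mul (h : Sm3 f f1 f2 f3) (c : ℝ) : Sm3 (fun y => c * f y)
    (fun y => c * f1 y) (fun y => c * f2 y) (fun y => c * f3 y) :=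
  ⟨fun y => (h.d1 y).const_mul c, fun y => (h.d2 y).const_mul c, fun y => (h.d3 y).const_mul c,
    continuous_const.mul h.c3⟩
theorem Sm3.mul (h : Sm3 f f1 f2 f3) (H : Sm3 g g1 g2 g3) : Sm3 (fun y => f y * g y)
    (fun y => f1 y * g y + f y * g1 y) (fun y => f2 y * g y + 2 * (f1 y * g1 y) + f y * g2 y)
    (fun y => f3 y * g y + 3 * (f2 y * g1 y) + 3 * (f1 y * g2 y) + f y * g3 y) := by
  refine ⟨fun y => (h.d1 y).mul (H.d1 y), fun y => ?_, fun y => ?_, ?_⟩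
  · exact (((h.d2 y).mul (H.d1 y)).add ((h.d1 y).mul (H.d2 y))).congr_deriv (by ring)
  · exact ((((h.d3 y).mul (H.d1 y)).add (((h.d2 y).mul (H.d2 y)).const_mul 2)).add
      ((h.d1 y).mul (H.d3 y))).congr_deriv (by ring)
  · exact (((h.c3.mul H.c0).add (continuous_const.mul (h.c2.mul H.c1))).add
      (continuous_const.mul (h.c1.mul H.c2))).add (h.c0.mul H.c3)
theorem Sm3.comp_affine (h : Sm3 f f1 f2 f3) (a b : ℝ) : Sm3 (fun y => f (a * y + b))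
    (fun y => a * f1 (a * y + b)) (fun y => a ^ 2 * f2 (a * y + b))
    (fun y => a ^ 3 * f3 (a * y + b)) := by
  refine ⟨fun y => aff_T2c h.d1 a b y, fun y => ?_, fun y => ?_, ?_⟩
  · exact ((aff_T2c h.d2 a b y).const_mul a).congr_deriv (by ring)
  · exact ((aff_T2c h.d3 a b y).const_mul (a ^ 2)).congr_deriv (by ring)
  · exact continuous_const.mul (h.c3.comp (by fun_prop))

theorem Test.congr (h : Test f f1 f2 f3) (e0 : ∀ y, f y = g y) (e1 : ∀ y, f1 y = g1 y)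
    (e2 : ∀ y, f2 y = g2 y) (e3 : ∀ y, f3 y = g3 y) : Test g g1 g2 g3 := by
  rwa [← funext e0, ← funext e1, ← funext e2, ← funext e3]
theorem Test.add (h : Test f f1 f2 f3) (H : Test g g1 g2 g3) : Test (fun y => f y + g y)
    (fun y => f1 y + g1 y) (fun y => f2 y + g2 y) (fun y => f3 y + g3 y) :=
  ⟨h.sm.add H.sm, h.e0.add H.e0, h.e1.add H.e1, h.e2.add H.e2, h.e3.add H.e3⟩
theorem Test.const_mul (h : Test f f1 f2 f3) (c : ℝ) : Test (fun y => c * f y)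
    (fun y => c * f1 y) (fun y => c * f2 y) (fun y => c * f3 y) :=
  ⟨h.sm.const_mul c, h.e0.const_mul c, h.e1.const_mul c, h.e2.const_mul c, h.e3.const_mul c⟩
theorem Test.mul_bdd (h : Test f f1 f2 f3) (H : Sm3 g g1 g2 g3) (b0 : Bdd g) (b1 : Bdd g1)
    (b2 : Bdd g2) (b3 : Bdd g3) : Test (fun y => f y * g y)
    (fun y => f1 y * g y + f y * g1 y) (fun y => f2 y * g y + 2 * (f1 y * g1 y) + f y * g2 y)
    (fun y => f3 y * g y + 3 * (f2 y * g1 y) + 3 * (f1 y * g2 y) + f y * g3 y) :=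
  ⟨h.sm.mul H, h.e0.mul_bdd b0, (h.e1.mul_bdd b0).add (h.e0.mul_bdd b1),
    ((h.e2.mul_bdd b0).add ((h.e1.mul_bdd b1).const_mul 2)).add (h.e0.mul_bdd b2),
    (((h.e3.mul_bdd b0).add ((h.e2.mul_bdd b1).const_mul 3)).add
      ((h.e1.mul_bdd b2).const_mul 3)).add (h.e0.mul_bdd b3)⟩
theorem Test.comp_affine (h : Test f f1 f2 f3) {a : ℝ} (ha : a ≠ 0) (b : ℝ) :
    Test (fun y => f (a * y + b)) (fun y => a * f1 (a * y + b)) (fun y => a ^ 2 * f2 (a * y + b))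
    (fun y => a ^ 3 * f3 (a * y + b)) :=
  ⟨h.sm.comp_affine a b, h.e0.comp_affine ha b, (h.e1.comp_affine ha b).const_mul a,
    (h.e2.comp_affine ha b).const_mul _, (h.e3.comp_affine ha b).const_mul _⟩
theorem Test.h1 (h : Test f f1 f2 f3) : IsH1 f f1 := IsH1.of_expD h.sm.d1 h.e0 h.e1
theorem Test.h2 (h : Test f f1 f2 f3) : IsH1 f1 f2 := IsH1.of_expD h.sm.d2 h.e1 h.e2
theorem Test.h3 (h : Test f f1 f2 f3) : IsH1 f2 f3 := IsH1.of_expD h.sm.d3 h.e2 h.e3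
theorem Test.wt (h : Test f f1 f2 f3) : Wt f f1 f2 f3 :=
  ⟨h.sm, h.e0.bdd, h.e1.bdd, h.e2.bdd, h.e3.bdd, h.e1.id_mul.bdd⟩

theorem Wt.congr (h : Wt f f1 f2 f3) (e0 : ∀ y, f y = g y) (e1 : ∀ y, f1 y = g1 y)
    (e2 : ∀ y, f2 y = g2 y) (e3 : ∀ y, f3 y = g3 y) : Wt g g1 g2 g3 := by
  rwa [← funext e0, ← funext e1, ← funext e2, ← funext e3]
theorem Wt.const (c : ℝ) : Wt (fun _ => c) (fun _ => 0) (fun _ => 0) (fun _ => 0) :=
  ⟨⟨fun y => hasDerivAt_const y c, fun y => hasDerivAt_const y 0, fun y => hasDerivAt_const y 0,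
    continuous_const⟩, Bdd.const c, Bdd.const 0, Bdd.const 0, Bdd.const 0,
    (Bdd.const 0).congr fun y => (mul_zero y).symm⟩
theorem Wt.of_expD (h : Sm3 f f1 f2 f3) (b0 : Bdd f) (e1 : ExpD f1) (e2 : ExpD f2)
    (e3 : ExpD f3) : Wt f f1 f2 f3 := ⟨h, b0, e1.bdd, e2.bdd, e3.bdd, e1.id_mul.bdd⟩
theorem Wt.add (h : Wt f f1 f2 f3) (H : Wt g g1 g2 g3) : Wt (fun y => f y + g y)
    (fun y => f1 y + g1 y) (fun y => f2 y + g2 y) (fun y => f3 y + g3 y) :=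
  ⟨h.sm.add H.sm, h.b0.add H.b0, h.b1.add H.b1, h.b2.add H.b2, h.b3.add H.b3,
    (h.by1.add H.by1).congr fun y => by ring⟩
theorem Wt.sub (h : Wt f f1 f2 f3) (H : Wt g g1 g2 g3) : Wt (fun y => f y - g y)
    (fun y => f1 y - g1 y) (fun y => f2 y - g2 y) (fun y => f3 y - g3 y) :=
  ⟨(h.sm.add (H.sm.const_mul (-1))).congr (fun y => by ring) (fun y => by ring)
    (fun y => by ring) (fun y => by ring), h.b0.sub H.b0, h.b1.sub H.b1, h.b2.sub H.b2,
    h.b3.sub H.b3, (h.by1.sub H.by1).congr fun y => by ring⟩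
theorem Wt.const_mul (h : Wt f f1 f2 f3) (c : ℝ) : Wt (fun y => c * f y)
    (fun y => c * f1 y) (fun y => c * f2 y) (fun y => c * f3 y) :=
  ⟨h.sm.const_mul c, h.b0.const_mul c, h.b1.const_mul c, h.b2.const_mul c, h.b3.const_mul c,
    (h.by1.const_mul c).congr fun y => by ring⟩
theorem Wt.mul (h : Wt f f1 f2 f3) (H : Wt g g1 g2 g3) : Wt (fun y => f y * g y)
    (fun y => f1 y * g y + f y * g1 y) (fun y => f2 y * g y + 2 * (f1 y * g1 y) + f y * g2 y)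
    (fun y => f3 y * g y + 3 * (f2 y * g1 y) + 3 * (f1 y * g2 y) + f y * g3 y) :=
  ⟨h.sm.mul H.sm, h.b0.mul H.b0, (h.b1.mul H.b0).add (h.b0.mul H.b1),
    ((h.b2.mul H.b0).add ((h.b1.mul H.b1).const_mul 2)).add (h.b0.mul H.b2),
    (((h.b3.mul H.b0).add ((h.b2.mul H.b1).const_mul 3)).add
      ((h.b1.mul H.b2).const_mul 3)).add (h.b0.mul H.b3),
    ((h.by1.mul H.b0).add (h.b0.mul H.by1)).congr fun y => by ring⟩
theorem Wt.comp_affine (h : Wt f f1 f2 f3) {a : ℝ} (ha : a ≠ 0) (b : ℝ) :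
    Wt (fun y => f (a * y + b)) (fun y => a * f1 (a * y + b)) (fun y => a ^ 2 * f2 (a * y + b))
    (fun y => a ^ 3 * f3 (a * y + b)) := by
  have _ha := ha
  have hc : Continuous fun y : ℝ => a * y + b := by fun_prop
  exact ⟨h.sm.comp_affine a b, h.b0.comp hc, (h.b1.comp hc).const_mul a,
    (h.b2.comp hc).const_mul _, (h.b3.comp hc).const_mul _,
    ((h.by1.comp hc).sub ((h.b1.comp hc).const_mul b)).congr fun y => by ring⟩

end Pool.Agent.MP_8339a4_an
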