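import Pool.Agent.MP_8339a4_an.T2a

/-! API: modes of convergence of families of functions. -/

open MeasureTheory Filter Topology Set

namespace Pool.Agent.MP_8339a4_an

variable {α : Type} {l : Filter α} {f F fy : α → ℝ → ℝ} {g G gy : ℝ → ℝ}

theorem rate_T3a (h : UT l f g) :
    ∃ r : α → ℝ, Tendsto r l (𝓝 0) ∧ ∀ᶠ z in l, ∀ y, |f z y - g y| ≤ r z := by
  refine ⟨fun z => ⨆ y, |f z y - g y|, Metric.tendsto_nhds.2 fun ε hε => ?_, ?_⟩
  · filter_upwards [h.2.2 (ε / 2) (half_pos hε)] with z hz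
    rw [Real.dist_0_eq_abs, abs_of_nonneg (Real.iSup_nonneg fun y => abs_nonneg _)]
    exact (ciSup_le hz).trans_lt (half_lt_self hε)
  · filter_upwards [h.2.2 1 one_pos] with z hz y
    exact le_ciSup (f := fun y => |f z y - g y|) ⟨1, by rintro _ ⟨y, rfl⟩; exact hz y⟩ y

theorem of_rate_T3a (h1 : ∀ᶠ z in l, Bdd (f z)) (h2 : Bdd g) {r : α → ℝ} (hr : Tendsto r l (𝓝 0))
    (h : ∀ᶠ z in l, ∀ y, |f z y - g y| ≤ r z) : UT l f g := by
  refine ⟨h1, h2, fun ε hε => ?_⟩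
  filter_upwards [h, hr.eventually_lt_const hε] with z hz hz' y
  exact (hz y).trans hz'.le

theorem bound_T3a (h : UT l f g) : ∃ C : ℝ, ∀ᶠ z in l, ∀ y, |f z y| ≤ C := by
  obtain ⟨C, hC⟩ := h.2.1.2
  refine ⟨C + 1, ?_⟩
  filter_upwards [h.2.2 1 one_pos] with z hz y
  have h1 := abs_sub_abs_le_abs_sub (f z y) (g y)
  linarith [hz y, hC y]

theorem int_le_T3a {φ p q : ℝ → ℝ} (a b : ℝ) (h0 : ∀ y, 0 ≤ φ y) (i1 : Integrable p)
    (i2 : Integrable q) (h : ∀ y, φ y ≤ a * p y + b * q y) :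
    ∫ y, φ y ≤ a * (∫ y, p y) + b * ∫ y, q y := by
  rw [← integral_const_mul, ← integral_const_mul,
    ← integral_add (i1.const_mul a) (i2.const_mul b)]
  exact integral_mono_of_nonneg (Eventually.of_forall h0) ((i1.const_mul a).add (i2.const_mul b))
    (Eventually.of_forall h)

theorem l2_of_le_T3a (h1 : ∀ᶠ z in l, MemLp (f z) 2 volume) (h2 : MemLp g 2 volume) {r : α → ℝ}
    (hr : Tendsto r l (𝓝 0)) (h : ∀ᶠ z in l, ∫ y, (f z y - g y) ^ 2 ≤ r z) : L2T l f g :=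
  ⟨h1, h2, squeeze_zero' (Eventually.of_forall fun _ => integral_nonneg fun _ => sq_nonneg _) h hr⟩

theorem l1_of_le_T3a (h1 : ∀ᶠ z in l, Integrable (f z)) (h2 : Integrable g) {r : α → ℝ}
    (hr : Tendsto r l (𝓝 0)) (h : ∀ᶠ z in l, ∫ y, |f z y - g y| ≤ r z) : L1T l f g :=
  ⟨h1, h2, squeeze_zero' (Eventually.of_forall fun _ => integral_nonneg fun _ => abs_nonneg _) h hr⟩

theorem lin_T3a {r R : α → ℝ} (hr : Tendsto r l (𝓝 0)) (hR : Tendsto R l (𝓝 0)) (a b : ℝ) :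
    Tendsto (fun z => a * r z + b * R z) l (𝓝 0) := by
  simpa using (hr.const_mul a).add (hR.const_mul b)

theorem cs_T3a {u w : ℝ → ℝ} (h : MemLp u 2 volume) (H : MemLp w 2 volume) :
    Integrable (fun y => |u y| * |w y|) ∧
      ∫ y, |u y| * |w y| ≤ Real.sqrt (∫ y, u y ^ 2) * Real.sqrt (∫ y, w y ^ 2) := by
  have h1 : MemLp (fun y => |u y|) 2 volume := h.abs
  have h2 : MemLp (fun y => |w y|) 2 volume := H.abs
  have h3 := cs2_abs h1 h2
  simp only [sq_abs] at h3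
  exact ⟨integrable_mul2 h1 h2, (le_abs_self _).trans h3⟩

theorem mul_le_T3a (a b A B : ℝ) : |a * A - b * B| ≤ |a - b| * |A| + |b| * |A - B| := by
  rw [← abs_mul, ← abs_mul, show a * A - b * B = (a - b) * A + b * (A - B) by ring]
  exact abs_add_le _ _

theorem UT.const (h : Bdd g) : UT l (fun _ => g) g :=
  ⟨Eventually.of_forall fun _ => h, h, fun ε hε => Eventually.of_forall fun _ y => by
    simpa using hε.le⟩
theorem UT.of_tendsto {c : α → ℝ} {c0 : ℝ} (h : Tendsto c l (𝓝 c0)) :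
    UT l (fun z _ => c z) (fun _ => c0) :=
  ⟨Eventually.of_forall fun _ => Bdd.const _, Bdd.const _, fun ε hε =>
    (Metric.tendsto_nhds.1 h ε hε).mono fun _ hz _ => le_of_lt hz⟩
theorem UT.add (h : UT l f g) (H : UT l F G) :
    UT l (fun z y => f z y + F z y) (fun y => g y + G y) := by
  obtain ⟨r, r1, r2⟩ := rate_T3a h
  obtain ⟨R, R1, R2⟩ := rate_T3a H
  refine of_rate_T3a ((h.1.and H.1).mono fun z hz => hz.1.add hz.2) (h.2.1.add H.2.1)
    (lin_T3a r1 R1 1 1) ?_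
  filter_upwards [r2, R2] with z h1 h2 y
  have h3 := abs_le.1 (h1 y)
  have h4 := abs_le.1 (h2 y)
  exact abs_le.2 ⟨by linarith, by linarith⟩
theorem UT.sub (h : UT l f g) (H : UT l F G) :
    UT l (fun z y => f z y - F z y) (fun y => g y - G y) := by
  obtain ⟨r, r1, r2⟩ := rate_T3a h
  obtain ⟨R, R1, R2⟩ := rate_T3a H
  refine of_rate_T3a ((h.1.and H.1).mono fun z hz => hz.1.sub hz.2) (h.2.1.sub H.2.1)
    (lin_T3a r1 R1 1 1) ?_
  filter_upwards [r2, R2] with z h1 h2 y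
  have h3 := abs_le.1 (h1 y)
  have h4 := abs_le.1 (h2 y)
  exact abs_le.2 ⟨by linarith, by linarith⟩
theorem UT.mul (h : UT l f g) (H : UT l F G) :
    UT l (fun z y => f z y * F z y) (fun y => g y * G y) := by
  obtain ⟨r, r1, r2⟩ := rate_T3a h
  obtain ⟨R, R1, R2⟩ := rate_T3a H
  obtain ⟨C, hC⟩ := bound_T3a H
  obtain ⟨D, hD⟩ := h.2.1.2
  refine of_rate_T3a ((h.1.and H.1).mono fun z hz => hz.1.mul hz.2) (h.2.1.mul H.2.1)
    (lin_T3a r1 R1 C D) ?_
  filter_upwards [r2, R2, hC] with z h1 h2 h3 y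
  refine (mul_le_T3a _ _ _ _).trans (add_le_add ?_ ?_)
  · rw [mul_comm]
    exact mul_le_mul (h3 y) (h1 y) (abs_nonneg _) ((abs_nonneg _).trans (h3 y))
  · exact mul_le_mul (hD y) (h2 y) (abs_nonneg _) ((abs_nonneg _).trans (hD y))
theorem UT.const_mul (h : UT l f g) (c : ℝ) :
    UT l (fun z y => c * f z y) (fun y => c * g y) := (UT.const (Bdd.const c)).mul h
theorem UT.pow (h : UT l f g) (n : ℕ) : UT l (fun z y => f z y ^ n) (fun y => g y ^ n) := by
  induction n with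
  | zero => simpa using (UT.const (Bdd.const 1) : UT l (fun _ _ => (1 : ℝ)) fun _ => 1)
  | succ n ih => simpa only [pow_succ] using ih.mul h
theorem UT.congr (h : UT l f g) (e1 : ∀ᶠ z in l, ∀ y, f z y = F z y) (e2 : ∀ y, g y = G y) :
    UT l F G := by
  obtain rfl : g = G := funext e2
  refine ⟨(h.1.and e1).mono fun z hz => hz.1.congr hz.2, h.2.1, fun ε hε => ?_⟩
  filter_upwards [h.2.2 ε hε, e1] with z h1 h2 y
  rw [← h2 y]
  exact h1 y
theorem UT.bound (h : UT l f g) : ∃ C : ℝ, ∀ᶠ z in l, ∀ y, |f z y| ≤ C := bound_T3a h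

theorem L2T.const (h : MemLp g 2 volume) : L2T l (fun _ => g) g :=
  ⟨Eventually.of_forall fun _ => h, h, by simpa using tendsto_const_nhds⟩
theorem L2T.add (h : L2T l f g) (H : L2T l F G) :
    L2T l (fun z y => f z y + F z y) (fun y => g y + G y) := by
  refine l2_of_le_T3a ((h.1.and H.1).mono fun z hz => hz.1.add hz.2) (h.2.1.add H.2.1)
    (lin_T3a h.2.2 H.2.2 2 2) ?_
  filter_upwards [h.1, H.1] with z h1 h2
  exact int_le_T3a 2 2 (fun _ => sq_nonneg _) (integrable_sq2 (h1.sub h.2.1))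
    (integrable_sq2 (h2.sub H.2.1)) fun y => by
      nlinarith [sq_nonneg (f z y - g y - (F z y - G y))]
theorem L2T.sub (h : L2T l f g) (H : L2T l F G) :
    L2T l (fun z y => f z y - F z y) (fun y => g y - G y) := by
  refine l2_of_le_T3a ((h.1.and H.1).mono fun z hz => hz.1.sub hz.2) (h.2.1.sub H.2.1)
    (lin_T3a h.2.2 H.2.2 2 2) ?_
  filter_upwards [h.1, H.1] with z h1 h2
  exact int_le_T3a 2 2 (fun _ => sq_nonneg _) (integrable_sq2 (h1.sub h.2.1))
    (integrable_sq2 (h2.sub H.2.1)) fun y => by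
      nlinarith [sq_nonneg (f z y - g y + (F z y - G y))]
theorem L2T.const_mul (h : L2T l f g) (c : ℝ) :
    L2T l (fun z y => c * f z y) (fun y => c * g y) := by
  refine l2_of_le_T3a (h.1.mono fun z hz => hz.const_mul c) (h.2.1.const_mul c)
    (lin_T3a h.2.2 h.2.2 (c ^ 2) 0) ?_
  filter_upwards [h.1] with z h1
  exact int_le_T3a (c ^ 2) 0 (fun _ => sq_nonneg _) (integrable_sq2 (h1.sub h.2.1))
    (integrable_sq2 (h1.sub h.2.1)) fun y => le_of_eq (by ring)
theorem L2T.mul_ut (h : L2T l f g) (H : UT l F G) :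
    L2T l (fun z y => f z y * F z y) (fun y => g y * G y) := by
  obtain ⟨R, R1, R2⟩ := rate_T3a H
  obtain ⟨C, hC⟩ := bound_T3a H
  have R3 : Tendsto (fun z => R z ^ 2) l (𝓝 0) := by simpa using R1.pow 2
  refine l2_of_le_T3a ((h.1.and H.1).mono fun z hz => memLp_mul_bdd hz.1 hz.2)
    (memLp_mul_bdd h.2.1 H.2.1) (lin_T3a h.2.2 R3 (2 * C ^ 2) (2 * ∫ y, g y ^ 2)) ?_
  filter_upwards [h.1, R2, hC] with z h1 h2 h3
  refine (int_le_T3a (2 * C ^ 2) (2 * R z ^ 2) (fun _ => sq_nonneg _)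
    (integrable_sq2 (h1.sub h.2.1)) (integrable_sq2 h.2.1) fun y => ?_).trans (le_of_eq ?_)
  · have h4 : F z y ^ 2 ≤ C ^ 2 := sq_le_sq' (abs_le.1 (h3 y)).1 (abs_le.1 (h3 y)).2
    have h5 : (F z y - G y) ^ 2 ≤ R z ^ 2 := sq_le_sq' (abs_le.1 (h2 y)).1 (abs_le.1 (h2 y)).2
    have h6 := mul_le_mul_of_nonneg_right h4 (sq_nonneg (f z y - g y))
    have h7 := mul_le_mul_of_nonneg_right h5 (sq_nonneg (g y))
    rw [Pi.sub_apply]
    nlinarith [sq_nonneg ((f z y - g y) * F z y - g y * (F z y - G y))]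
  · simp only [Pi.sub_apply]
    ring
theorem L2T.ut_mul (h : L2T l f g) (H : UT l F G) :
    L2T l (fun z y => F z y * f z y) (fun y => G y * g y) := by
  simpa only [mul_comm] using h.mul_ut H
theorem L2T.congr (h : L2T l f g) (e1 : ∀ᶠ z in l, ∀ y, f z y = F z y) (e2 : ∀ y, g y = G y) :
    L2T l F G := by
  obtain rfl : g = G := funext e2
  refine ⟨(h.1.and e1).mono fun z hz => funext hz.2 ▸ hz.1, h.2.1, h.2.2.congr' ?_⟩
  filter_upwards [e1] with z hz
  simp only [hz]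
theorem L2T.mul (h : L2T l f g) (H : L2T l F G) :
    L1T l (fun z y => f z y * F z y) (fun y => g y * G y) := by
  have s1 : Tendsto (fun z => Real.sqrt (∫ y, (f z y - g y) ^ 2)) l (𝓝 0) := by
    simpa using h.2.2.sqrt
  have s2 : Tendsto (fun z => Real.sqrt (∫ y, (F z y - G y) ^ 2)) l (𝓝 0) := by
    simpa using H.2.2.sqrt
  have s3 := (s1.mul s2).add
    (lin_T3a s1 s2 (Real.sqrt (∫ y, G y ^ 2)) (Real.sqrt (∫ y, g y ^ 2)))
  rw [mul_zero, add_zero] at s3
  refine l1_of_le_T3a ((h.1.and H.1).mono fun z hz => integrable_mul2 hz.1 hz.2)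
    (integrable_mul2 h.2.1 H.2.1) s3 ?_
  filter_upwards [h.1, H.1] with z h1 h2
  have m1 : MemLp (fun y => f z y - g y) 2 volume := h1.sub h.2.1
  have m2 : MemLp (fun y => F z y - G y) 2 volume := h2.sub H.2.1
  obtain ⟨a1, a2⟩ := cs_T3a m1 m2
  obtain ⟨b1, b2⟩ := cs_T3a m1 H.2.1
  obtain ⟨c1, c2⟩ := cs_T3a h.2.1 m2
  have h3 := int_le_T3a (φ := fun y => |f z y * F z y - g y * G y|)
    (q := fun y => |f z y - g y| * |G y| + |g y| * |F z y - G y|) 1 1 (fun _ => abs_nonneg _)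
    a1 (b1.add c1) fun y => by
      have h4 := mul_le_T3a (f z y) (g y) (F z y) (G y)
      have h5 := abs_sub_abs_le_abs_sub (F z y) (G y)
      nlinarith [abs_nonneg (f z y - g y)]
  rw [integral_add b1 c1] at h3
  linarith
theorem L2T.sq (h : L2T l f g) : L1T l (fun z y => f z y ^ 2) (fun y => g y ^ 2) := by
  simpa only [pow_two] using h.mul h
theorem L1T.const (h : Integrable g) : L1T l (fun _ => g) g :=
  ⟨Eventually.of_forall fun _ => h, h, by simpa using tendsto_const_nhds⟩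
theorem L1T.add (h : L1T l f g) (H : L1T l F G) :
    L1T l (fun z y => f z y + F z y) (fun y => g y + G y) := by
  refine l1_of_le_T3a ((h.1.and H.1).mono fun z hz => hz.1.add hz.2) (h.2.1.add H.2.1)
    (lin_T3a h.2.2 H.2.2 1 1) ?_
  filter_upwards [h.1, H.1] with z h1 h2
  refine int_le_T3a 1 1 (fun _ => abs_nonneg _) (h1.sub h.2.1).abs (h2.sub H.2.1).abs fun y => ?_
  rw [one_mul, one_mul, add_sub_add_comm]
  exact abs_add_le _ _
theorem L1T.sub (h : L1T l f g) (H : L1T l F G) :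
    L1T l (fun z y => f z y - F z y) (fun y => g y - G y) := by
  refine l1_of_le_T3a ((h.1.and H.1).mono fun z hz => hz.1.sub hz.2) (h.2.1.sub H.2.1)
    (lin_T3a h.2.2 H.2.2 1 1) ?_
  filter_upwards [h.1, H.1] with z h1 h2
  refine int_le_T3a 1 1 (fun _ => abs_nonneg _) (h1.sub h.2.1).abs (h2.sub H.2.1).abs fun y => ?_
  rw [one_mul, one_mul, sub_sub_sub_comm]
  exact abs_sub _ _
theorem L1T.const_mul (h : L1T l f g) (c : ℝ) :
    L1T l (fun z y => c * f z y) (fun y => c * g y) := by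
  refine l1_of_le_T3a (h.1.mono fun z hz => hz.const_mul c) (h.2.1.const_mul c)
    (lin_T3a h.2.2 h.2.2 |c| 0) ?_
  filter_upwards [h.1] with z h1
  refine int_le_T3a |c| 0 (fun _ => abs_nonneg _) (h1.sub h.2.1).abs (h1.sub h.2.1).abs
    fun y => le_of_eq ?_
  rw [zero_mul, add_zero, ← mul_sub, abs_mul]
theorem L1T.mul_ut (h : L1T l f g) (H : UT l F G) :
    L1T l (fun z y => f z y * F z y) (fun y => g y * G y) := by
  obtain ⟨R, R1, R2⟩ := rate_T3a H
  obtain ⟨C, hC⟩ := bound_T3a H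
  refine l1_of_le_T3a ((h.1.and H.1).mono fun z hz => integrable_mul_bdd hz.1 hz.2)
    (integrable_mul_bdd h.2.1 H.2.1) (lin_T3a h.2.2 R1 C (∫ y, |g y|)) ?_
  filter_upwards [h.1, R2, hC] with z h1 h2 h3
  rw [mul_comm _ (R z)]
  refine int_le_T3a C (R z) (fun _ => abs_nonneg _) (h1.sub h.2.1).abs h.2.1.abs fun y => ?_
  refine (mul_le_T3a _ _ _ _).trans (add_le_add ?_ ?_)
  · rw [mul_comm]
    exact mul_le_mul_of_nonneg_right (h3 y) (abs_nonneg _)
  · rw [mul_comm]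
    exact mul_le_mul_of_nonneg_right (h2 y) (abs_nonneg _)
theorem L1T.ut_mul (h : L1T l f g) (H : UT l F G) :
    L1T l (fun z y => F z y * f z y) (fun y => G y * g y) := by
  simpa only [mul_comm] using h.mul_ut H
theorem L1T.congr (h : L1T l f g) (e1 : ∀ᶠ z in l, ∀ y, f z y = F z y) (e2 : ∀ y, g y = G y) :
    L1T l F G := by
  obtain rfl : g = G := funext e2
  refine ⟨(h.1.and e1).mono fun z hz => funext hz.2 ▸ hz.1, h.2.1, h.2.2.congr' ?_⟩
  filter_upwards [e1] with z hz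
  simp only [hz]
theorem L1T.tendsto_integral (h : L1T l f g) :
    Tendsto (fun z => ∫ y, f z y) l (𝓝 (∫ y, g y)) := by
  rw [tendsto_iff_norm_sub_tendsto_zero]
  refine squeeze_zero' (Eventually.of_forall fun _ => norm_nonneg _) ?_ h.2.2
  filter_upwards [h.1] with z hz
  rw [← integral_sub hz h.2.1]
  exact norm_integral_le_integral_norm _

end Pool.Agent.MP_8339a4_an
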