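import Pool.Agent.MP_8339a4_an.T3a
import Pool.Agent.MP_8339a4_an.T2b

/-! API: convergence in `H^1`. -/

open MeasureTheory Filter Topology Set

namespace Pool.Agent.MP_8339a4_an

variable {α : Type} {l : Filter α} {f F fy : α → ℝ → ℝ} {g G gy : ℝ → ℝ}

theorem split_T3c {a b : ℝ → ℝ} (ha : MemLp a 2 volume) (hb : MemLp b 2 volume) :
    ∫ y, (a y ^ 2 + b y ^ 2) = (∫ y, a y ^ 2) + ∫ y, b y ^ 2 :=
  integral_add (integrable_sq2 ha) (integrable_sq2 hb)

theorem H1T.split_T3c (h1 : ∀ᶠ z in l, IsH1 (f z) (fy z)) (h0 : IsH1 g gy) :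
    ∀ᶠ z in l, ∫ y, ((f z y - g y) ^ 2 + (fy z y - gy y) ^ 2) =
      (∫ y, (f z y - g y) ^ 2) + ∫ y, (fy z y - gy y) ^ 2 :=
  h1.mono fun _ hz => Pool.Agent.MP_8339a4_an.split_T3c (hz.sub h0).1 (hz.sub h0).2.1

theorem H1T.ut (h : H1T l f fy g gy) : UT l f g := by
  refine ⟨h.1.mono fun _ hz => hz.bdd, h.2.1.bdd, fun ε hε => ?_⟩
  filter_upwards [h.1, h.2.2.eventually (gt_mem_nhds (pow_pos hε 2))] with z h1 h2 y
  exact abs_le_of_sq_le_sq (((h1.sub h.2.1).sq_le' y).trans h2.le) hε.le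
theorem H1T.l2 (h : H1T l f fy g gy) : L2T l f g := by
  refine ⟨h.1.mono fun _ hz => hz.1, h.2.1.1, squeeze_zero'
    (Eventually.of_forall fun z => integral_nonneg fun y => sq_nonneg _) ?_ h.2.2⟩
  filter_upwards [H1T.split_T3c h.1 h.2.1] with z hz
  rw [hz]
  exact le_add_of_nonneg_right (integral_nonneg fun y => sq_nonneg _)
theorem H1T.l2y (h : H1T l f fy g gy) : L2T l fy gy := by
  refine ⟨h.1.mono fun _ hz => hz.2.1, h.2.1.2.1, squeeze_zero'
    (Eventually.of_forall fun z => integral_nonneg fun y => sq_nonneg _) ?_ h.2.2⟩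
  filter_upwards [H1T.split_T3c h.1 h.2.1] with z hz
  rw [hz]
  exact le_add_of_nonneg_left (integral_nonneg fun y => sq_nonneg _)
theorem H1T.of_l2 (h1 : ∀ᶠ z in l, IsH1 (f z) (fy z)) (h0 : IsH1 g gy) (h : L2T l f g)
    (H : L2T l fy gy) : H1T l f fy g gy := by
  refine ⟨h1, h0, ?_⟩
  have := h.2.2.add H.2.2
  rw [add_zero] at this
  exact this.congr' ((H1T.split_T3c h1 h0).mono fun _ hz => hz.symm)
theorem H1T.add_const (h : H1T l f fy g gy) {q qy : ℝ → ℝ} (hq : IsH1 q qy) :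
    H1T l (fun z y => q y + f z y) (fun z y => qy y + fy z y) (fun y => q y + g y)
      (fun y => qy y + gy y) :=
  H1T.of_l2 (h.1.mono fun _ hz => hq.add hz) (hq.add h.2.1) ((L2T.const hq.1).add h.l2)
    ((L2T.const hq.2.1).add h.l2y)
theorem H1T.pow (h : H1T l f fy g gy) (n : ℕ) :
    L1T l (fun z y => f z y ^ (n + 2)) (fun y => g y ^ (n + 2)) :=
  (h.l2.sq.mul_ut (h.ut.pow n)).congr (Eventually.of_forall fun _ _ => by ring)
    (fun _ => by ring)
theorem H1T.en (h : H1T l f fy g gy) :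
    L1T l (fun z y => en (f z y) (fy z y)) (fun y => en (g y) (gy y)) :=
  (h.l2y.sq.sub ((h.pow 4).const_mul (1 / 3))).congr
    (Eventually.of_forall fun _ _ => by unfold MP_8339a4_an.en; ring)
    (fun _ => by unfold MP_8339a4_an.en; ring)
theorem H1T.fl1 (h : H1T l f fy g gy) {W1 W3 : ℝ → ℝ} (b1 : Bdd W1) (b3 : Bdd W3) :
    L1T l (fun z y => fl1 (f z y) (fy z y) (W1 y) (W3 y))
      (fun y => fl1 (g y) (gy y) (W1 y) (W3 y)) :=
  ((((h.l2y.sq.mul_ut (UT.const b1)).const_mul (-3)).add (h.l2.sq.mul_ut (UT.const b3))).add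
    (((h.pow 4).mul_ut (UT.const b1)).const_mul (5 / 3))).congr
    (Eventually.of_forall fun _ _ => by unfold MP_8339a4_an.fl1; ring)
    (fun _ => by unfold MP_8339a4_an.fl1; ring)
theorem H1T.fl2 (h : H1T l f fy g gy) {q qy W1 W2 W3 : ℝ → ℝ} (hq : IsH1 q qy) (b1 : Bdd W1)
    (b2 : Bdd W2) (b3 : Bdd W3) :
    L1T l (fun z y => fl2 (f z y) (fy z y) (q y) (qy y) (W1 y) (W2 y) (W3 y))
      (fun y => fl2 (g y) (gy y) (q y) (qy y) (W1 y) (W2 y) (W3 y)) := by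
  have a1 := (((L2T.const (l := l) (memLp_mul_bdd hq.2.1 b1)).add
    (L2T.const (memLp_mul_bdd hq.1 b2))).mul h.l2y).const_mul 6
  have a2 := (L1T.const (l := l) (integrable_mul_bdd (integrable_sq2 hq.1) b1)).const_mul 3
  have a3 := ((h.l2y.sq.mul_ut (h.ut.pow 4)).mul_ut (UT.const b1)).const_mul 20
  have a4 := (h.pow 8).mul_ut (UT.const b1)
  have a5 := ((h.pow 4).mul_ut (UT.const b3)).const_mul (1 / 3)
  have a6 := h.l2y.sq.mul_ut (UT.const b3)
  exact (((((a1.add a2).add a3).sub a4).sub a5).add a6).congr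
    (Eventually.of_forall fun _ _ => by unfold MP_8339a4_an.fl2; ring)
    (fun _ => by unfold MP_8339a4_an.fl2; ring)
theorem H1T.comp {β : Type} {l' : Filter β} {τ : β → α} (h : H1T l f fy g gy)
    (hτ : Tendsto τ l' l) : H1T l' (fun z => f (τ z)) (fun z => fy (τ z)) g gy :=
  ⟨hτ.eventually h.1, h.2.1, h.2.2.comp hτ⟩
theorem H1T.mono {l' : Filter α} (h : H1T l f fy g gy) (hl : l' ≤ l) : H1T l' f fy g gy :=
  ⟨h.1.filter_mono hl, h.2.1, h.2.2.mono_left hl⟩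

theorem IsSol.h1t {I : Set ℝ} {u ux : ℝ → ℝ → ℝ} (h : IsSol I u ux) {t : ℝ} (ht : t ∈ I) :
    H1T (𝓝[I] t) u ux (u t) (ux t) :=
  ⟨eventually_mem_nhdsWithin.mono h.h1, h.h1 t ht, h.cont t ht⟩

theorem MW.ut {w : ℝ → ℝ → ℝ} {wt : ℝ → ℝ} {s : ℝ} (h : MW w wt s) : UT (𝓝 s) w (w s) := by
  obtain ⟨h1, -, -, C, h2⟩ := h
  refine ⟨h1, h1.self_of_nhds, fun ε hε => ?_⟩
  have h3 : Tendsto (fun z => C * |z - s|) (𝓝 s) (𝓝 0) :=
    (by fun_prop : Continuous fun z : ℝ => C * |z - s|).tendsto' s 0 (by simp)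
  filter_upwards [h2, h3.eventually (gt_mem_nhds hε)] with z k1 k2 y
  exact (k1 y).trans k2.le
theorem ME.l2 {w : ℝ → ℝ → ℝ} {wt : ℝ → ℝ} {s : ℝ} (h : ME w wt s) (h2 : MemLp (w s) 2 volume) :
    L2T (𝓝 s) w (w s) := by
  obtain ⟨h1, -, -, C, c, hc, h3⟩ := h
  have e0 := ExpD.exp_neg_abs hc
  have h4 : ∀ᶠ z in 𝓝 s, MemLp (fun y => w z y - w s y) 2 volume := by
    filter_upwards [h1, h3] with z k1 k2
    refine (e0.of_le (k1.sub h1.self_of_nhds) (C * |z - s|) fun y => ?_).memLp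
    rw [abs_of_pos (Real.exp_pos _)]
    exact k2 y
  refine ⟨h4.mono fun z hz => ?_, h2, ?_⟩
  · have := hz.add h2
    have e : ((fun y => w z y - w s y) + w s) = w z := by funext y; simp
    rwa [e] at this
  · have h5 : Tendsto (fun z => (C * |z - s|) ^ 2 * ∫ y : ℝ, Real.exp (-(c * |y|)) ^ 2)
        (𝓝 s) (𝓝 0) :=
      (by fun_prop : Continuous fun z : ℝ =>
        (C * |z - s|) ^ 2 * ∫ y : ℝ, Real.exp (-(c * |y|)) ^ 2).tendsto' s 0 (by simp)
    refine squeeze_zero' (Eventually.of_forall fun z => integral_nonneg fun y => sq_nonneg _)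
      ?_ h5
    filter_upwards [h4, h3] with z k1 k2
    rw [← integral_const_mul]
    refine integral_mono (integrable_sq2 k1) ((integrable_sq2 e0.memLp).const_mul _) fun y => ?_
    have := pow_le_pow_left₀ (abs_nonneg _) (k2 y) 2
    rw [sq_abs, mul_pow] at this
    exact this

end Pool.Agent.MP_8339a4_an
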