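import Pool.Agent.MP_8339a4_an.T2c

/-! API: the logistic function. -/

open MeasureTheory Filter Topology Set

namespace Pool.Agent.MP_8339a4_an

theorem hasDerivAt_P0 (x : ℝ) : HasDerivAt P0 (P1 x) x := Real.hasDerivAt_sigmoid x
theorem hasDerivAt_P1 (x : ℝ) : HasDerivAt P1 (P2 x) x :=
  ((hasDerivAt_P0 x).mul ((hasDerivAt_P0 x).const_sub 1)).congr_deriv (by unfold P2; ring)
theorem hasDerivAt_P2 (x : ℝ) : HasDerivAt P2 (P3 x) x :=
  ((hasDerivAt_P1 x).mul (((hasDerivAt_P0 x).const_mul 2).const_sub 1)).congr_deriv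
    (by unfold P3 P2 P1; ring)
theorem hasDerivAt_P3 (x : ℝ) : HasDerivAt P3 (P4 x) x :=
  ((hasDerivAt_P1 x).mul (((hasDerivAt_P1 x).const_mul 6).const_sub 1)).congr_deriv
    (by unfold P4; ring)
theorem P0_pos (x : ℝ) : 0 < P0 x := Real.sigmoid_pos x
theorem P0_lt_one (x : ℝ) : P0 x < 1 := Real.sigmoid_lt_one x
theorem P0_neg (x : ℝ) : P0 (-x) = 1 - P0 x := Real.sigmoid_neg x
theorem P0_mono {x y : ℝ} (h : x ≤ y) : P0 x ≤ P0 y := Real.sigmoid_le h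
theorem P0_eq (x : ℝ) : P0 x = Real.exp x * (1 - P0 x) := by
  have h := Real.sigmoid_mul_rexp_neg (-x)
  rw [neg_neg] at h
  rw [← P0_neg, mul_comm]
  exact h.symm
theorem P0_le_exp (x : ℝ) : P0 x ≤ Real.exp x := by
  have h1 := P0_eq x
  have h2 := mul_pos (Real.exp_pos x) (P0_pos x)
  linarith
theorem one_sub_P0_le_exp (x : ℝ) : 1 - P0 x ≤ Real.exp (-x) := by
  rw [← P0_neg]
  exact P0_le_exp _
theorem half_le_P0 {x : ℝ} (h : 0 ≤ x) : 1 / 2 ≤ P0 x := by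
  have h1 := P0_mono h
  have h2 := P0_neg 0
  rw [neg_zero] at h2
  linarith
theorem P0_le_half {x : ℝ} (h : x ≤ 0) : P0 x ≤ 1 / 2 := by
  have h1 := P0_mono h
  have h2 := P0_neg 0
  rw [neg_zero] at h2
  linarith
theorem exp_le_P0 {x : ℝ} (h : x ≤ 0) : Real.exp x / 2 ≤ P0 x := by
  have h1 := P0_eq x
  have h2 := mul_le_mul_of_nonneg_left (P0_le_half h) (Real.exp_pos x).le
  linarith
theorem exp_le_one_sub_P0 {x : ℝ} (h : 0 ≤ x) : Real.exp (-x) / 2 ≤ 1 - P0 x := by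
  rw [← P0_neg]
  exact exp_le_P0 (neg_nonpos.2 h)
theorem P1_pos (x : ℝ) : 0 < P1 x := mul_pos (P0_pos x) (sub_pos.2 (P0_lt_one x))
theorem P1_le_quarter (x : ℝ) : P1 x ≤ 1 / 4 := by
  unfold P1
  nlinarith [sq_nonneg (P0 x - 1 / 2)]
theorem P1_zero : P1 0 = 1 / 4 := by
  have h : P0 0 = 1 / 2 := le_antisymm (P0_le_half le_rfl) (half_le_P0 le_rfl)
  unfold P1
  rw [h]
  norm_num
theorem P1_neg (x : ℝ) : P1 (-x) = P1 x := by
  unfold P1
  rw [P0_neg]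
  ring
theorem P1_le_P0 (x : ℝ) : P1 x ≤ P0 x := by
  unfold P1
  nlinarith [sq_nonneg (P0 x)]
theorem P1_le_exp (x : ℝ) : P1 x ≤ Real.exp (-|x|) := by
  have h : P1 x = P1 (-|x|) := by
    rcases abs_choice x with h | h <;> rw [h] <;> simp [P1_neg]
  rw [h]
  exact (P1_le_P0 _).trans (P0_le_exp _)
theorem exp_le_P1 (x : ℝ) : Real.exp (-|x|) / 4 ≤ P1 x := by
  have h : P1 x = P1 (-|x|) := by
    rcases abs_choice x with h | h <;> rw [h] <;> simp [P1_neg]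
  have h0 : -|x| ≤ 0 := neg_nonpos.2 (abs_nonneg x)
  have h1 := exp_le_P0 h0
  have h2 := P0_le_half h0
  have h3 := P0_pos (-|x|)
  rw [h]
  unfold P1
  nlinarith
theorem abs_P2_le (x : ℝ) : |P2 x| ≤ P1 x := by
  have h1 := P1_pos x
  have h2 := P0_pos x
  have h3 := P0_lt_one x
  unfold P2
  rw [abs_le]
  constructor <;> nlinarith
theorem abs_P3_le (x : ℝ) : |P3 x| ≤ P1 x := by
  have h1 := P1_pos x
  have h2 := P1_le_quarter x
  unfold P3
  rw [abs_le]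
  constructor <;> nlinarith
theorem abs_P4_le (x : ℝ) : |P4 x| ≤ 2 * P1 x := by
  have h1 := P1_pos x
  have h2 := P1_le_quarter x
  have h3 : |1 - 12 * P1 x| ≤ 2 := by
    rw [abs_le]
    constructor <;> linarith
  unfold P4
  rw [abs_mul, mul_comm 2]
  exact mul_le_mul (abs_P2_le x) h3 (abs_nonneg _) h1.le
theorem c0_T5a : Continuous P0 :=
  continuous_iff_continuousAt.2 fun x => (hasDerivAt_P0 x).continuousAt
theorem c1_T5a : Continuous P1 :=
  continuous_iff_continuousAt.2 fun x => (hasDerivAt_P1 x).continuousAt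
theorem c2_T5a : Continuous P2 :=
  continuous_iff_continuousAt.2 fun x => (hasDerivAt_P2 x).continuousAt
theorem c3_T5a : Continuous P3 :=
  continuous_iff_continuousAt.2 fun x => (hasDerivAt_P3 x).continuousAt
theorem c4_T5a : Continuous P4 :=
  c2_T5a.mul (continuous_const.sub (continuous_const.mul c1_T5a))
theorem bdd_P0 : Bdd P0 :=
  ⟨c0_T5a, 1, fun y => by rw [abs_of_pos (P0_pos y)]; exact (P0_lt_one y).le⟩
theorem expD_P1 : ExpD P1 :=
  ⟨c1_T5a, 1, 1, one_pos, fun y => by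
    rw [abs_of_pos (P1_pos y), one_mul, one_mul]
    exact P1_le_exp y⟩
theorem expD_P2 : ExpD P2 :=
  expD_P1.of_le c2_T5a 1 fun y => by
    rw [abs_of_pos (P1_pos y), one_mul]
    exact abs_P2_le y
theorem expD_P3 : ExpD P3 :=
  expD_P1.of_le c3_T5a 1 fun y => by
    rw [abs_of_pos (P1_pos y), one_mul]
    exact abs_P3_le y
theorem expD_P4 : ExpD P4 :=
  expD_P1.of_le c4_T5a 2 fun y => by
    rw [abs_of_pos (P1_pos y)]
    exact abs_P4_le y
theorem tendsto_P0_atTop : Tendsto P0 atTop (𝓝 1) := Real.tendsto_sigmoid_atTop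
theorem tendsto_P0_atBot : Tendsto P0 atBot (𝓝 0) := Real.tendsto_sigmoid_atBot
theorem wt_P0 : Wt P0 P1 P2 P3 :=
  Wt.of_expD ⟨hasDerivAt_P0, hasDerivAt_P1, hasDerivAt_P2, c3_T5a⟩ bdd_P0 expD_P1 expD_P2 expD_P3
theorem test_P1 : Test P1 P2 P3 P4 :=
  ⟨⟨hasDerivAt_P1, hasDerivAt_P2, hasDerivAt_P3, c4_T5a⟩, expD_P1, expD_P2, expD_P3, expD_P4⟩
theorem integral_P1 : ∫ x, P1 x = 1 := by
  rw [(IsPrim.of_hasDerivAt hasDerivAt_P0 c1_T5a).integral_of_tendsto expD_P1.integrable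
    tendsto_P0_atBot tendsto_P0_atTop, sub_zero]

end Pool.Agent.MP_8339a4_an
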