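import Pool.Agent.MP_8339a4_an.Core

/-! API: pointwise facts on the soliton. -/

open MeasureTheory Filter Topology Set

namespace Pool.Agent.MP_8339a4_an

theorem sc_eq_T6a (y : ℝ) : sc y = 1 / Real.cosh (2 * y) ^ 2 := by
  have h := Real.cosh_pos (2 * y)
  unfold sc tn
  rw [Real.tanh_eq_sinh_div_cosh]
  field_simp
  exact Real.cosh_sq_sub_sinh_sq _

theorem cosh_T6a (x : ℝ) : Real.exp |x| ≤ 2 * Real.cosh x ∧ Real.cosh x ≤ Real.exp |x| := by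
  rw [← Real.cosh_abs, Real.cosh_eq]
  have h1 := Real.exp_pos (-|x|)
  have h2 : Real.exp (-|x|) ≤ Real.exp |x| :=
    Real.exp_le_exp.2 (by linarith [abs_nonneg x])
  constructor <;> linarith

theorem exp_T6a (y : ℝ) : Real.exp (-(4 * |y|)) = 1 / Real.exp |2 * y| ^ 2 := by
  rw [abs_mul, abs_two, ← Real.exp_nat_mul, one_div, ← Real.exp_neg]
  congr 1
  push_cast
  ring

theorem exp4_T6a (y : ℝ) : Real.exp (-|y|) ^ 4 = Real.exp (-(4 * |y|)) := by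
  rw [← Real.exp_nat_mul]
  congr 1
  push_cast
  ring

theorem Q_pos (y : ℝ) : 0 < Q y :=
  Real.rpow_pos_of_pos (div_pos (by norm_num) (pow_pos (Real.cosh_pos _) 2)) _
theorem Q_neg (y : ℝ) : Q (-y) = Q y := by
  unfold Q
  rw [mul_neg, Real.cosh_neg]
theorem tn_neg (y : ℝ) : tn (-y) = -tn y := by
  unfold tn
  rw [mul_neg, Real.tanh_neg]
theorem Q1_neg (y : ℝ) : Q1 (-y) = -Q1 y := by
  unfold Q1
  rw [Q_neg, tn_neg]
  ring
theorem LQ_neg (y : ℝ) : LQ (-y) = LQ y := by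
  unfold LQ
  rw [Q_neg, Q1_neg]
  ring
theorem Q_pow4 (y : ℝ) : Q y ^ 4 = 3 * sc y := by
  unfold Q
  rw [← Real.rpow_natCast, ← Real.rpow_mul (div_pos (by norm_num)
    (pow_pos (Real.cosh_pos _) 2)).le, sc_eq_T6a]
  norm_num
  rw [div_eq_mul_inv]
theorem Q_sq (y : ℝ) : Q y ^ 2 = Real.sqrt 3 / Real.cosh (2 * y) := by
  have h := Real.cosh_pos (2 * y)
  refine (pow_left_inj₀ (sq_nonneg _) (by positivity) two_ne_zero).1 ?_
  rw [← pow_mul, Q_pow4, sc_eq_T6a, div_pow, Real.sq_sqrt (by norm_num)]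
  ring
theorem tn_sq (y : ℝ) : tn y ^ 2 = 1 - Q y ^ 4 / 3 := by
  rw [Q_pow4]
  unfold sc
  ring
theorem abs_tn_lt (y : ℝ) : |tn y| < 1 := Real.abs_tanh_lt_one _
theorem sc_pos (y : ℝ) : 0 < sc y := by
  rw [sc_eq_T6a]
  exact one_div_pos.2 (pow_pos (Real.cosh_pos _) 2)
theorem sc_le_one (y : ℝ) : sc y ≤ 1 := by
  unfold sc
  linarith [sq_nonneg (tn y)]
theorem sc_le_exp (y : ℝ) : sc y ≤ 4 * Real.exp (-(4 * |y|)) := by
  have h := Real.cosh_pos (2 * y)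
  have h1 := Real.exp_pos |2 * y|
  have h2 := pow_le_pow_left₀ h1.le (cosh_T6a (2 * y)).1 2
  rw [sc_eq_T6a, exp_T6a, mul_one_div, div_le_div_iff₀ (by positivity) (by positivity)]
  linarith
theorem exp_le_sc (y : ℝ) : Real.exp (-(4 * |y|)) ≤ sc y := by
  have h := Real.cosh_pos (2 * y)
  rw [sc_eq_T6a, exp_T6a]
  exact one_div_le_one_div_of_le (by positivity) (pow_le_pow_left₀ h.le (cosh_T6a (2 * y)).2 2)
theorem Q_le (y : ℝ) : Q y ≤ 4 / 3 := by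
  refine (pow_le_pow_iff_left₀ (Q_pos y).le (by norm_num) four_ne_zero).1 ?_
  rw [Q_pow4]
  linarith [sc_le_one y]
theorem Q_le_exp (y : ℝ) : Q y ≤ 2 * Real.exp (-|y|) := by
  refine (pow_le_pow_iff_left₀ (Q_pos y).le (by positivity) four_ne_zero).1 ?_
  rw [Q_pow4, mul_pow, exp4_T6a]
  linarith [sc_le_exp y, Real.exp_pos (-(4 * |y|))]
theorem exp_le_Q (y : ℝ) : Real.exp (-|y|) ≤ Q y := by
  refine (pow_le_pow_iff_left₀ (by positivity) (Q_pos y).le four_ne_zero).1 ?_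
  rw [Q_pow4, exp4_T6a]
  linarith [exp_le_sc y, sc_pos y]
theorem V_eq (y : ℝ) : V y = 15 * sc y := by
  unfold V
  rw [Q_pow4]
  ring
theorem V_nonneg (y : ℝ) : 0 ≤ V y := by
  rw [V_eq]
  linarith [sc_pos y]
theorem V_le (y : ℝ) : V y ≤ 15 := by
  rw [V_eq]
  linarith [sc_le_one y]
theorem abs_V1_le (y : ℝ) : |V1 y| ≤ 4 * V y := by
  unfold V1
  rw [abs_neg, abs_mul, abs_mul, abs_of_nonneg (V_nonneg y), abs_of_pos (by norm_num : (0 : ℝ) < 4)]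
  nlinarith [abs_tn_lt y, V_nonneg y]
theorem abs_Q1_le (y : ℝ) : |Q1 y| ≤ Q y := by
  unfold Q1
  rw [abs_neg, abs_mul, abs_of_pos (Q_pos y)]
  nlinarith [abs_tn_lt y, Q_pos y]
theorem abs_Q2_le (y : ℝ) : |Q2 y| ≤ 2 * Q y := by
  have h : Q2 y = (1 - 3 * sc y) * Q y := by
    unfold Q2
    rw [← Q_pow4]
    ring
  rw [h, abs_mul, abs_of_pos (Q_pos y)]
  refine mul_le_mul_of_nonneg_right (abs_le.2 ⟨?_, ?_⟩) (Q_pos y).le
  · linarith [sc_le_one y]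
  · linarith [sc_pos y]

theorem abs_V_T6a (y : ℝ) : |1 - V y| ≤ 14 :=
  abs_le.2 ⟨by linarith [V_le y], by linarith [V_nonneg y]⟩

theorem abs_Q3_le (y : ℝ) : |Q3 y| ≤ 14 * Q y := by
  unfold Q3
  rw [abs_mul, mul_comm 14]
  exact mul_le_mul (abs_Q1_le y) (abs_V_T6a y) (abs_nonneg _) (Q_pos y).le
theorem abs_Q4_le (y : ℝ) : |Q4 y| ≤ 88 * Q y := by
  unfold Q4
  have h0 := Q_pos y
  have h1 := mul_le_mul (abs_Q2_le y) (abs_V_T6a y) (abs_nonneg _) (by positivity)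
  have h2 := mul_le_mul (abs_Q1_le y) ((abs_V1_le y).trans
    (show 4 * V y ≤ 60 by linarith [V_le y])) (abs_nonneg _) h0.le
  have h3 := abs_sub (Q2 y * (1 - V y)) (Q1 y * V1 y)
  rw [abs_mul, abs_mul] at h3
  linarith
theorem abs_LQ_le (y : ℝ) : |LQ y| ≤ (1 + |y|) * Q y := by
  unfold LQ
  have h0 := Q_pos y
  have h1 := mul_le_mul_of_nonneg_left (abs_Q1_le y) (abs_nonneg y)
  have h3 := abs_add_le (Q y / 2) (y * Q1 y)
  rw [abs_mul, abs_of_pos (half_pos h0)] at h3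
  linarith
theorem abs_LQ1_le (y : ℝ) : |LQ1 y| ≤ 2 * (1 + |y|) * Q y := by
  unfold LQ1
  have h0 := Q_pos y
  have h1 := mul_le_mul_of_nonneg_left (abs_Q2_le y) (abs_nonneg y)
  have h2 := abs_Q1_le y
  have h3 := abs_add_le (3 / 2 * Q1 y) (y * Q2 y)
  rw [abs_mul, abs_mul, abs_of_pos (by norm_num : (0 : ℝ) < 3 / 2)] at h3
  linarith
theorem abs_LQ2_le (y : ℝ) : |LQ2 y| ≤ 14 * (1 + |y|) * Q y := by
  unfold LQ2
  have h0 := Q_pos y
  have h1 := mul_le_mul_of_nonneg_left (abs_Q3_le y) (abs_nonneg y)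
  have h2 := abs_Q2_le y
  have h3 := abs_add_le (5 / 2 * Q2 y) (y * Q3 y)
  rw [abs_mul, abs_mul, abs_of_pos (by norm_num : (0 : ℝ) < 5 / 2)] at h3
  linarith
theorem Q1_sq (y : ℝ) : Q1 y ^ 2 = Q y ^ 2 - Q y ^ 6 / 3 := by
  unfold Q1
  rw [neg_sq, mul_pow, tn_sq]
  ring

end Pool.Agent.MP_8339a4_an
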