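import Pool.Agent.MP_8339a4_an.T6a
import Pool.Agent.MP_8339a4_an.T2c

/-! API: derivatives and decay of the soliton. -/

open MeasureTheory Filter Topology Set

namespace Pool.Agent.MP_8339a4_an

theorem hasDerivAt_tn (y : ℝ) : HasDerivAt tn (2 * sc y) y := by
  have h2 : HasDerivAt (fun y : ℝ => 2 * y) 2 y := by
    simpa using (hasDerivAt_id y).const_mul (2 : ℝ)
  have hc := (Real.cosh_pos (2 * y)).ne'
  have e : tn = fun y => Real.sinh (2 * y) / Real.cosh (2 * y) :=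
    funext fun y => Real.tanh_eq_sinh_div_cosh _
  have h := h2.sinh.div h2.cosh hc
  rw [sc, e]
  refine h.congr_deriv ?_
  field_simp
theorem hasDerivAt_sc (y : ℝ) : HasDerivAt sc (-(4 * tn y * sc y)) y :=
  (((hasDerivAt_tn y).fun_pow 2).const_sub 1).congr_deriv (by norm_num; ring)
theorem hasDerivAt_Q (y : ℝ) : HasDerivAt Q (Q1 y) y := by
  have e : ∀ y, (3 * sc y) ^ ((4 : ℕ) : ℝ)⁻¹ = Q y := fun y => by
    rw [← Q_pow4, Real.pow_rpow_inv_natCast (Q_pos y).le (by norm_num)]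
  have h0 : 3 * sc y ≠ 0 := (mul_pos three_pos (sc_pos y)).ne'
  have h := ((hasDerivAt_sc y).const_mul 3).rpow_const (p := ((4 : ℕ) : ℝ)⁻¹) (Or.inl h0)
  rw [Real.rpow_sub_one h0, e, funext e] at h
  refine h.congr_deriv ?_
  have := (sc_pos y).ne'
  rw [Q1]
  push_cast
  field_simp
theorem hasDerivAt_Q1 (y : ℝ) : HasDerivAt Q1 (Q2 y) y :=
  ((hasDerivAt_tn y).fun_mul (hasDerivAt_Q y)).fun_neg.congr_deriv (by
    rw [Q1, Q2]
    linear_combination Q y * tn_sq y + 2 / 3 * Q y * Q_pow4 y)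
theorem hasDerivAt_Q2 (y : ℝ) : HasDerivAt Q2 (Q3 y) y :=
  ((hasDerivAt_Q y).fun_sub ((hasDerivAt_Q y).fun_pow 5)).congr_deriv (by
    rw [Q3, V]
    norm_num
    ring)
theorem hasDerivAt_V_T6b (y : ℝ) : HasDerivAt V (V1 y) y :=
  (((hasDerivAt_Q y).fun_pow 4).const_mul 5).congr_deriv (by
    rw [V1, V, Q1]
    norm_num
    ring)
theorem hasDerivAt_Q3 (y : ℝ) : HasDerivAt Q3 (Q4 y) y :=
  ((hasDerivAt_Q1 y).fun_mul ((hasDerivAt_V_T6b y).const_sub 1)).congr_deriv (by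
    rw [Q4]
    ring)
theorem hasDerivAt_V (y : ℝ) : HasDerivAt V (V1 y) y := hasDerivAt_V_T6b y
theorem hasDerivAt_C0 (y : ℝ) : HasDerivAt C0 (C1 y) y :=
  ((hasDerivAt_Q y).fun_pow 3).congr_deriv (by
    rw [C1, Q1]
    norm_num
    ring)
theorem hasDerivAt_C1 (y : ℝ) : HasDerivAt C1 (C2 y) y :=
  (((hasDerivAt_tn y).const_mul 3).fun_mul (hasDerivAt_C0 y)).fun_neg.congr_deriv (by
    rw [C0, C1, C2, V]
    linear_combination 9 * Q y ^ 3 * tn_sq y + 2 * Q y ^ 3 * Q_pow4 y)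
theorem hasDerivAt_C2 (y : ℝ) : HasDerivAt C2 (C3 y) y :=
  (((hasDerivAt_V y).const_sub 9).fun_mul (hasDerivAt_C0 y)).congr_deriv (by
    rw [C0, C1, C3, V1]
    ring)
theorem hasDerivAt_LQ (y : ℝ) : HasDerivAt LQ (LQ1 y) y :=
  (((hasDerivAt_Q y).div_const 2).fun_add ((hasDerivAt_id' y).fun_mul
    (hasDerivAt_Q1 y))).congr_deriv (by
    rw [LQ1]
    ring)
theorem hasDerivAt_LQ1 (y : ℝ) : HasDerivAt LQ1 (LQ2 y) y :=
  (((hasDerivAt_Q1 y).const_mul (3 / 2)).fun_add ((hasDerivAt_id' y).fun_mul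
    (hasDerivAt_Q2 y))).congr_deriv (by
    rw [LQ2]
    ring)

theorem cont_T6b {f g : ℝ → ℝ} (h : ∀ y, HasDerivAt f (g y) y) : Continuous f :=
  continuous_iff_continuousAt.2 fun y => (h y).continuousAt

theorem expD_Q_T6b : ExpD Q := ⟨cont_T6b hasDerivAt_Q, 2, 1, one_pos, fun y => by
  rw [abs_of_pos (Q_pos y), one_mul]
  exact Q_le_exp y⟩

theorem expD_V_T6b : ExpD V := (expD_Q_T6b.pow 3).const_mul 5

theorem bdd_tn : Bdd tn := ⟨cont_T6b hasDerivAt_tn, 1, fun y => (abs_tn_lt y).le⟩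
theorem expD_sc : ExpD sc :=
  ((expD_Q_T6b.pow 3).div_const 3).congr fun y => by linear_combination 1 / 3 * Q_pow4 y
theorem expD_Q : ExpD Q := expD_Q_T6b
theorem expD_Q1 : ExpD Q1 := (expD_Q.bdd_mul bdd_tn).neg
theorem expD_Q2 : ExpD Q2 := expD_Q.sub (expD_Q.pow 4)
theorem expD_Q3 : ExpD Q3 := expD_Q1.mul_bdd ((Bdd.const 1).sub expD_V_T6b.bdd)
theorem expD_Q4 : ExpD Q4 :=
  (expD_Q2.mul_bdd ((Bdd.const 1).sub expD_V_T6b.bdd)).sub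
    (expD_Q1.mul_bdd (expD_V_T6b.bdd_mul (bdd_tn.const_mul 4)).neg.bdd)
theorem expD_V : ExpD V := expD_V_T6b
theorem expD_V1 : ExpD V1 := (expD_V.bdd_mul (bdd_tn.const_mul 4)).neg
theorem expD_C0 : ExpD C0 := expD_Q.pow 2
theorem expD_C1 : ExpD C1 := (expD_C0.bdd_mul (bdd_tn.const_mul 3)).neg
theorem expD_C2 : ExpD C2 := expD_C0.bdd_mul ((Bdd.const 9).sub expD_V.bdd)
theorem expD_C3 : ExpD C3 :=
  expD_C0.bdd_mul (bdd_tn.mul ((expD_V.bdd.const_mul 7).sub (Bdd.const 27)))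
theorem expD_LQ : ExpD LQ := (expD_Q.div_const 2).add expD_Q1.id_mul
theorem expD_LQ1 : ExpD LQ1 := (expD_Q1.const_mul (3 / 2)).add expD_Q2.id_mul
theorem expD_LQ2 : ExpD LQ2 := (expD_Q2.const_mul (5 / 2)).add expD_Q3.id_mul
theorem test_Q : Test Q Q1 Q2 Q3 :=
  ⟨⟨hasDerivAt_Q, hasDerivAt_Q1, hasDerivAt_Q2, expD_Q3.1⟩, expD_Q, expD_Q1, expD_Q2, expD_Q3⟩
theorem test_Q1 : Test Q1 Q2 Q3 Q4 :=
  ⟨⟨hasDerivAt_Q1, hasDerivAt_Q2, hasDerivAt_Q3, expD_Q4.1⟩, expD_Q1, expD_Q2, expD_Q3, expD_Q4⟩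
theorem test_C0 : Test C0 C1 C2 C3 :=
  ⟨⟨hasDerivAt_C0, hasDerivAt_C1, hasDerivAt_C2, expD_C3.1⟩, expD_C0, expD_C1, expD_C2, expD_C3⟩
theorem isH1_Q : IsH1 Q Q1 := test_Q.h1

/-- `L Q' = 0`. -/
theorem L_Q1 (y : ℝ) : -Q3 y + Q1 y - V y * Q1 y = 0 := by
  rw [Q3]
  ring
/-- `L ΛQ = -2 Q`. -/
theorem L_LQ (y : ℝ) : -LQ2 y + LQ y - V y * LQ y = -2 * Q y := by
  rw [LQ2, LQ, Q3, Q2, V]
  ring
/-- `L Q³ = -8 Q³`. -/
theorem L_C0 (y : ℝ) : -C2 y + C0 y - V y * C0 y = -8 * C0 y := by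
  rw [C2, C0]
  ring

end Pool.Agent.MP_8339a4_an
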