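import Pool.Agent.MP_8339a4_an.T6a

/-! API: pointwise bounds on the nonlinear terms. -/

open MeasureTheory Filter Topology Set

namespace Pool.Agent.MP_8339a4_an

theorem mono_T6c (y : ℝ) {e b : ℝ} (he : |e| ≤ b) (j k : ℕ) :
    |Q y ^ j * e ^ k| ≤ (4 / 3) ^ j * b ^ k := by
  rw [abs_mul, abs_pow, abs_pow, abs_of_pos (Q_pos y)]
  exact mul_le_mul (pow_le_pow_left₀ (Q_pos y).le (Q_le y) j)
    (pow_le_pow_left₀ (abs_nonneg e) he k) (by positivity) (by positivity)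

theorem mono1_T6c (y : ℝ) {e : ℝ} (he : |e| ≤ 1) (j k : ℕ) :
    -(4 / 3) ^ j ≤ Q y ^ j * e ^ k ∧ Q y ^ j * e ^ k ≤ (4 / 3) ^ j := by
  have := mono_T6c y he j k
  rw [one_pow, mul_one] at this
  exact abs_le.1 this

theorem mono4_T6c (y e : ℝ) (j k : ℕ) (h : j + k = 4) :
    -(Q y ^ 4 + e ^ 4) ≤ Q y ^ j * e ^ k ∧ Q y ^ j * e ^ k ≤ Q y ^ 4 + e ^ 4 := by
  refine abs_le.1 ?_
  have hq := Q_pos y
  have e4 : |e| ^ 4 = e ^ 4 := Even.pow_abs (by decide) e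
  rw [abs_mul, abs_pow, abs_pow, abs_of_pos hq, ← e4]
  rcases le_total (Q y) |e| with h1 | h1
  · calc Q y ^ j * |e| ^ k ≤ |e| ^ j * |e| ^ k := by gcongr
      _ = |e| ^ 4 := by rw [← pow_add, h]
      _ ≤ _ := le_add_of_nonneg_left (by positivity)
  · calc Q y ^ j * |e| ^ k ≤ Q y ^ j * Q y ^ k := by gcongr
      _ = Q y ^ 4 := by rw [← pow_add, h]
      _ ≤ _ := le_add_of_nonneg_right (by positivity)

theorem fac_T6c {a p c : ℝ} (h1 : -c ≤ p) (h2 : p ≤ c) : |a * p| ≤ c * |a| := by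
  rw [abs_mul, mul_comm]
  exact mul_le_mul_of_nonneg_right (abs_le.2 ⟨h1, h2⟩) (abs_nonneg a)

theorem abs_NN_le (y : ℝ) {e : ℝ} (he : |e| ≤ 1) : |NN y e| ≤ 50 * e ^ 2 := by
  have h := mono1_T6c y he
  have e1 : NN y e = e ^ 2 * (10 * (Q y ^ 3 * e ^ 0) + 10 * (Q y ^ 2 * e ^ 1) +
      5 * (Q y ^ 1 * e ^ 2) + Q y ^ 0 * e ^ 3) := by
    unfold NN
    ring
  rw [e1]
  refine (fac_T6c (c := 50) ?_ ?_).trans_eq (by rw [abs_of_nonneg (sq_nonneg e)])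
  · linarith [(h 3 0).1, (h 2 1).1, (h 1 2).1, (h 0 3).1]
  · linarith [(h 3 0).2, (h 2 1).2, (h 1 2).2, (h 0 3).2]

theorem abs_pow5_sub_le (y : ℝ) {e : ℝ} (he : |e| ≤ 1) :
    |(Q y + e) ^ 5 - Q y ^ 5| ≤ 40 * |e| * (Q y ^ 4 + e ^ 4) := by
  have h := mono4_T6c y e
  have h0 : 0 ≤ Q y ^ 4 + e ^ 4 := by positivity
  have e1 : (Q y + e) ^ 5 - Q y ^ 5 = e * (5 * (Q y ^ 4 * e ^ 0) + 10 * (Q y ^ 3 * e ^ 1) +
      10 * (Q y ^ 2 * e ^ 2) + 5 * (Q y ^ 1 * e ^ 3) + Q y ^ 0 * e ^ 4) := by ring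
  rw [e1]
  refine (fac_T6c (c := 40 * (Q y ^ 4 + e ^ 4)) ?_ ?_).trans_eq (by ring)
  · linarith [(h 4 0 rfl).1, (h 3 1 rfl).1, (h 2 2 rfl).1, (h 1 3 rfl).1, (h 0 4 rfl).1]
  · linarith [(h 4 0 rfl).2, (h 3 1 rfl).2, (h 2 2 rfl).2, (h 1 3 rfl).2, (h 0 4 rfl).2]

theorem abs_pow4_sub_le (y : ℝ) {e : ℝ} (he : |e| ≤ 1) :
    |(Q y + e) ^ 4 - Q y ^ 4| ≤ 30 * |e| := by
  have h := mono1_T6c y he
  have e1 : (Q y + e) ^ 4 - Q y ^ 4 = e * (4 * (Q y ^ 3 * e ^ 0) + 6 * (Q y ^ 2 * e ^ 1) +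
      4 * (Q y ^ 1 * e ^ 2) + Q y ^ 0 * e ^ 3) := by ring
  rw [e1]
  refine fac_T6c ?_ ?_
  · linarith [(h 3 0).1, (h 2 1).1, (h 1 2).1, (h 0 3).1]
  · linarith [(h 3 0).2, (h 2 1).2, (h 1 2).2, (h 0 3).2]

theorem PP_eq_T6c (y e : ℝ) : PP y e = Q y * e ^ 2 * (5 * (Q y ^ 3 * e ^ 0) +
    20 / 3 * (Q y ^ 2 * e ^ 1) + 5 * (Q y ^ 1 * e ^ 2) + 2 * (Q y ^ 0 * e ^ 3)) + e ^ 6 / 3 := by
  unfold PP
  ring

theorem abs_PP_le (y : ℝ) {e : ℝ} (he : |e| ≤ 1) :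
    |PP y e| ≤ 40 * Q y * e ^ 2 + e ^ 6 / 3 := by
  have h := mono1_T6c y he
  have hq := Q_pos y
  rw [PP_eq_T6c]
  refine (abs_add_le _ _).trans (add_le_add ?_ (abs_of_nonneg (by positivity)).le)
  refine (fac_T6c (c := 40) ?_ ?_).trans_eq (by rw [abs_of_nonneg (by positivity)]; ring)
  · linarith [(h 3 0).1, (h 2 1).1, (h 1 2).1, (h 0 3).1]
  · linarith [(h 3 0).2, (h 2 1).2, (h 1 2).2, (h 0 3).2]

theorem abs_PP_sub_le (y : ℝ) {e : ℝ} (he : |e| ≤ 1) :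
    |PP y e - V y * e ^ 2| ≤ 30 * |e| * e ^ 2 := by
  have h := mono1_T6c y he
  have e1 : PP y e - V y * e ^ 2 = e * e ^ 2 * (20 / 3 * (Q y ^ 3 * e ^ 0) +
      5 * (Q y ^ 2 * e ^ 1) + 2 * (Q y ^ 1 * e ^ 2) + 1 / 3 * (Q y ^ 0 * e ^ 3)) := by
    unfold PP V
    ring
  rw [e1]
  refine (fac_T6c (c := 30) ?_ ?_).trans_eq
    (by rw [abs_mul, abs_of_nonneg (sq_nonneg e)]; ring)
  · linarith [(h 3 0).1, (h 2 1).1, (h 1 2).1, (h 0 3).1]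
  · linarith [(h 3 0).2, (h 2 1).2, (h 1 2).2, (h 0 3).2]

theorem PP_le {ε : ℝ} (hε : 0 < ε) :
    ∃ C : ℝ, ∀ y e : ℝ, PP y e ≤ (1 + ε) * e ^ 6 / 3 + C * (Q y * e ^ 2) := by
  refine ⟨33 * (1 + 132 / ε) ^ 3, fun y e => ?_⟩
  have hq := Q_pos y
  have hq1 := Q_le y
  have hR : 0 < 132 / ε := by positivity
  have key : ∀ b : ℝ, 1 ≤ b → |e| ≤ b → 5 * (Q y ^ 3 * e ^ 0) + 20 / 3 * (Q y ^ 2 * e ^ 1) +
      5 * (Q y ^ 1 * e ^ 2) + 2 * (Q y ^ 0 * e ^ 3) ≤ 33 * b ^ 3 := by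
    intro b hb he
    have h := fun j k => (abs_le.1 (mono_T6c y he j k)).2
    have b0 : b ^ 0 ≤ b ^ 3 := pow_le_pow_right₀ hb (by norm_num)
    have b1 : b ^ 1 ≤ b ^ 3 := pow_le_pow_right₀ hb (by norm_num)
    have b2 : b ^ 2 ≤ b ^ 3 := pow_le_pow_right₀ hb (by norm_num)
    have b3 : 0 ≤ b ^ 3 := by positivity
    linarith [h 3 0, h 2 1, h 1 2, h 0 3]
  have e4 : |e| ^ 4 = e ^ 4 := Even.pow_abs (by decide) e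
  have k2 : 5 * (Q y ^ 3 * e ^ 0) + 20 / 3 * (Q y ^ 2 * e ^ 1) +
      5 * (Q y ^ 1 * e ^ 2) + 2 * (Q y ^ 0 * e ^ 3) ≤ ε / 4 * e ^ 4 + 33 * (1 + 132 / ε) ^ 3 := by
    rcases le_total |e| (1 + 132 / ε) with h | h
    · have h1 := key _ (by linarith) h
      have h2 : 0 ≤ ε / 4 * e ^ 4 := by positivity
      linarith
    · have h1 := key |e| (by linarith) le_rfl
      have h2 : 0 ≤ 33 * (1 + 132 / ε) ^ 3 := by positivity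
      have h3 : 132 ≤ |e| * ε := (div_le_iff₀ hε).1 (by linarith)
      have h4 : 33 * |e| ^ 3 ≤ ε / 4 * |e| ^ 4 := by
        have := mul_le_mul_of_nonneg_right h3 (pow_nonneg (abs_nonneg e) 3)
        linarith
      rw [e4] at h4
      linarith
  have k3 := mul_le_mul_of_nonneg_left k2 (show 0 ≤ Q y * e ^ 2 by positivity)
  have k4 : Q y * (ε / 4 * e ^ 6) ≤ 4 / 3 * (ε / 4 * e ^ 6) :=
    mul_le_mul_of_nonneg_right hq1 (by positivity)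
  rw [PP_eq_T6c]
  linarith

theorem abs_sq_sub_le (y : ℝ) {e : ℝ} (he : |e| ≤ 1) : |(Q y + e) ^ 2 - e ^ 2| ≤ 4 * Q y := by
  have h := mono1_T6c y he
  have e1 : (Q y + e) ^ 2 - e ^ 2 = Q y * (Q y ^ 1 * e ^ 0 + 2 * (Q y ^ 0 * e ^ 1)) := by ring
  rw [e1]
  refine (fac_T6c (c := 4) ?_ ?_).trans_eq (by rw [abs_of_pos (Q_pos y)])
  · linarith [(h 1 0).1, (h 0 1).1]
  · linarith [(h 1 0).2, (h 0 1).2]

theorem abs_pow6_sub_le (y : ℝ) {e : ℝ} (he : |e| ≤ 1) :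
    |(Q y + e) ^ 6 - e ^ 6| ≤ 150 * Q y := by
  have h := mono1_T6c y he
  have e1 : (Q y + e) ^ 6 - e ^ 6 = Q y * (Q y ^ 5 * e ^ 0 + 6 * (Q y ^ 4 * e ^ 1) +
      15 * (Q y ^ 3 * e ^ 2) + 20 * (Q y ^ 2 * e ^ 3) + 15 * (Q y ^ 1 * e ^ 4) +
      6 * (Q y ^ 0 * e ^ 5)) := by ring
  rw [e1]
  refine (fac_T6c (c := 150) ?_ ?_).trans_eq (by rw [abs_of_pos (Q_pos y)])
  · linarith [(h 5 0).1, (h 4 1).1, (h 3 2).1, (h 2 3).1, (h 1 4).1, (h 0 5).1]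
  · linarith [(h 5 0).2, (h 4 1).2, (h 3 2).2, (h 2 3).2, (h 1 4).2, (h 0 5).2]

theorem abs_sqy_sub_le (y p : ℝ) : |(Q1 y + p) ^ 2 - p ^ 2| ≤ 3 * Q y * (1 + p ^ 2) := by
  have h1 := abs_Q1_le y
  have h2 := abs_le.1 (h1.trans (Q_le y))
  have e1 : (Q1 y + p) ^ 2 - p ^ 2 = Q1 y * (Q1 y + 2 * p) := by ring
  rw [e1]
  refine (fac_T6c (c := 3 * (1 + p ^ 2)) ?_ ?_).trans ?_
  · nlinarith [sq_nonneg (p + 1), sq_nonneg p]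
  · nlinarith [sq_nonneg (p - 1), sq_nonneg p]
  · calc 3 * (1 + p ^ 2) * |Q1 y| ≤ 3 * (1 + p ^ 2) * Q y := by gcongr
      _ = _ := by ring

end Pool.Agent.MP_8339a4_an
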