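import Pool.Agent.MP_8339a4_an.T6b
import Pool.Agent.MP_8339a4_an.T6c

/-! API: integrals of the soliton. -/

open MeasureTheory Filter Topology Set

namespace Pool.Agent.MP_8339a4_an

theorem zero_T7a {f g G : ℝ → ℝ} (h : ∀ y, HasDerivAt f (G y) y) (e : ∀ y, G y = g y)
    (e0 : ExpD f) (e1 : ExpD g) : ∫ y, g y = 0 :=
  (IsPrim.of_hasDerivAt (fun y => (e y) ▸ h y) e1.1).integral_eq_zero e0.integrable e1.integrable

theorem pos_T7a {f : ℝ → ℝ} (h : ExpD f) (h0 : ∀ y, 0 ≤ f y) (x : ℝ) (hx : f x ≠ 0) :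
    0 < ∫ y, f y :=
  integral_pos_of_integrable_nonneg_nonzero h.1 h.integrable h0 hx

theorem prim_T7a (y : ℝ) :
    HasDerivAt (fun y => Real.sqrt 3 / 2 * Real.arctan (Real.sinh (2 * y))) (Q y ^ 2) y := by
  have h1 : HasDerivAt (fun y : ℝ => 2 * y) 2 y := by
    simpa using (hasDerivAt_id y).const_mul 2
  have h2 := (h1.sinh.arctan).const_mul (Real.sqrt 3 / 2)
  refine h2.congr_deriv ?_
  have h3 := Real.cosh_pos (2 * y)
  rw [Q_sq, add_comm, ← Real.cosh_sq]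
  field_simp

theorem integral_Q_sq : ∫ y, Q y ^ 2 = Real.sqrt 3 * Real.pi / 2 := by
  have h1 : Tendsto (fun y : ℝ => Real.sinh (2 * y)) atTop atTop :=
    Real.sinhOrderIso.tendsto_atTop.comp (tendsto_id.const_mul_atTop (by norm_num))
  have h2 : Tendsto (fun y : ℝ => Real.sinh (2 * y)) atBot atBot :=
    Real.sinhOrderIso.tendsto_atBot.comp (tendsto_id.const_mul_atBot (by norm_num))
  have h3 := ((Real.tendsto_arctan_atTop.mono_right nhdsWithin_le_nhds).comp h1).const_mul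
    (Real.sqrt 3 / 2)
  have h4 := ((Real.tendsto_arctan_atBot.mono_right nhdsWithin_le_nhds).comp h2).const_mul
    (Real.sqrt 3 / 2)
  rw [(IsPrim.of_hasDerivAt prim_T7a (expD_Q.pow 1).1).integral_of_tendsto
    (expD_Q.pow 1).integrable h4 h3]
  ring

theorem integral_Q_pos : 0 < ∫ y, Q y :=
  pos_T7a expD_Q (fun y => (Q_pos y).le) 0 (Q_pos 0).ne'

theorem integral_Q4_pos : 0 < ∫ y, Q y ^ 4 :=
  pos_T7a (expD_Q.pow 3) (fun y => (pow_pos (Q_pos y) _).le) 0 (pow_pos (Q_pos 0) _).ne'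

theorem integral_Q1_sq_pos : 0 < ∫ y, Q1 y ^ 2 := by
  refine pos_T7a (expD_Q1.pow 1) (fun y => sq_nonneg _) 1 (pow_ne_zero _ ?_)
  have h : 0 < tn 1 := by
    rw [tn, Real.tanh_eq_sinh_div_cosh]
    exact div_pos (Real.sinh_pos_iff.2 (by norm_num)) (Real.cosh_pos _)
  exact neg_ne_zero.2 (mul_pos h (Q_pos 1)).ne'

theorem integral_en_Q : ∫ y, en (Q y) (Q1 y) = 0 := by
  refine zero_T7a (f := fun y => Q y * Q1 y / 2)
    (fun y => ((hasDerivAt_Q y).mul (hasDerivAt_Q1 y)).div_const 2) (fun y => ?_)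
    ((expD_Q.mul_bdd expD_Q1.bdd).div_const 2)
    (((expD_Q1.pow 1).sub ((expD_Q.pow 5).div_const 3)).congr fun y => rfl)
  have h := Q1_sq y
  simp only [en, Q2]
  linear_combination (-1 / 2 : ℝ) * h

theorem integral_Q_Q1 : ∫ y, Q y * Q1 y = 0 := by
  refine zero_T7a (f := fun y => Q y * Q y / 2)
    (fun y => ((hasDerivAt_Q y).mul (hasDerivAt_Q y)).div_const 2) (fun y => ?_)
    ((expD_Q.mul_bdd expD_Q.bdd).div_const 2) (expD_Q.mul_bdd expD_Q1.bdd)
  ring

theorem integral_Q_LQ : ∫ y, Q y * LQ y = 0 := by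
  refine zero_T7a (f := fun y => y * (Q y * Q y) / 2)
    (fun y => ((hasDerivAt_id' y).mul ((hasDerivAt_Q y).mul (hasDerivAt_Q y))).div_const 2)
    (fun y => ?_) ((expD_Q.mul_bdd expD_Q.bdd).id_mul.div_const 2) (expD_Q.mul_bdd expD_LQ.bdd)
  simp only [LQ, Pi.mul_apply]
  ring

theorem integral_LQ_Q1 : ∫ y, LQ y * Q1 y = 0 := by
  have h := integral_neg_eq_self (fun y => LQ y * Q1 y) volume
  simp only [LQ_neg, Q1_neg, mul_neg, integral_neg] at h
  linarith

theorem integral_Q1_C0 : ∫ y, Q1 y * C0 y = 0 := by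
  refine zero_T7a (f := fun y => Q y ^ 4 / 4)
    (fun y => ((hasDerivAt_Q y).pow 4).div_const 4) (fun y => ?_)
    ((expD_Q.pow 3).div_const 4) (expD_Q1.mul_bdd expD_C0.bdd)
  simp only [C0]
  push_cast
  ring

theorem integral_LQ_C0 : ∫ y, LQ y * C0 y = (∫ y, Q y ^ 4) / 4 := by
  have i1 := expD_LQ.mul_bdd expD_C0.bdd
  have i2 := (expD_Q.pow 3).div_const 4
  have h : ∫ y, (LQ y * C0 y - Q y ^ 4 / 4) = 0 := by
    refine zero_T7a (f := fun y => y * Q y ^ 4 / 4)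
      (fun y => ((hasDerivAt_id' y).mul ((hasDerivAt_Q y).pow 4)).div_const 4) (fun y => ?_)
      ((expD_Q.pow 3).id_mul.div_const 4) (i1.sub i2)
    simp only [C0, LQ, Pi.pow_apply]
    push_cast
    ring
  rw [integral_sub i1.integrable i2.integrable, integral_div] at h
  linarith

theorem mm_eq : mm = -(∫ y, Q y) / 2 := by
  have i2 := expD_Q.div_const 2
  have h : ∫ y, (LQ y + Q y / 2) = 0 := by
    refine zero_T7a (f := fun y => y * Q y)
      (fun y => (hasDerivAt_id' y).mul (hasDerivAt_Q y)) (fun y => ?_)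
      expD_Q.id_mul (expD_LQ.add i2)
    simp only [LQ]
    ring
  rw [integral_add expD_LQ.integrable i2.integrable, integral_div] at h
  rw [mm]
  linarith

theorem mm_ne : mm ≠ 0 := by
  have h := integral_Q_pos
  rw [mm_eq]
  linarith

end Pool.Agent.MP_8339a4_an
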