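import Pool.Agent.MP_8339a4_an.T2b

/-! API: Hardy inequalities with exponential weights. -/

open MeasureTheory Filter Topology Set

namespace Pool.Agent.MP_8339a4_an

variable {z zy e ey : ℝ → ℝ} {L p r K : ℝ}

theorem intSq_T8a {μ : Measure ℝ} {E : ℝ → ℝ} (hE : Continuous E) (E0 : ∀ y, 0 ≤ E y)
    (iE : Integrable E μ) (hz : Continuous z) (i1 : Integrable (fun y => E y * z y ^ 2) μ)
    (c : ℝ) : Integrable (fun y => E y * (z y - c) ^ 2) μ := by
  refine ((i1.const_mul 2).add (iE.const_mul (2 * c ^ 2))).mono'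
    (hE.mul ((hz.sub continuous_const).pow 2)).aestronglyMeasurable (ae_of_all _ fun y => ?_)
  rw [Real.norm_eq_abs, abs_of_nonneg (mul_nonneg (E0 y) (sq_nonneg _)), Pi.add_apply]
  nlinarith [mul_nonneg (E0 y) (sq_nonneg (z y + c))]

theorem core_T8a {S : Set ℝ} {c : ℝ} (hc : c ≠ 0) (h : IsPrim z zy)
    (iE : IntegrableOn (fun y => Real.exp (-((y - p) / c))) S)
    (i1 : IntegrableOn (fun y => Real.exp (-((y - p) / c)) * z y ^ 2) S)
    (i2 : IntegrableOn (fun y => Real.exp (-((y - p) / c)) * zy y ^ 2) S)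
    (hS : ∀ f g : ℝ → ℝ, IsPrim f g → IntegrableOn f S → IntegrableOn g S → f p = 0 →
      ∫ y in S, g y = 0) :
    ∫ y in S, Real.exp (-((y - p) / c)) * (z y - z p) ^ 2
      ≤ 4 * c ^ 2 * ∫ y in S, Real.exp (-((y - p) / c)) * zy y ^ 2 := by
  have hE : Continuous fun y : ℝ => Real.exp (-((y - p) / c)) := by fun_prop
  have hk : Continuous fun y => z y - z p := h.continuous.sub continuous_const
  have j1 := intSq_T8a hE (fun _ => (Real.exp_pos _).le) iE h.continuous i1 (z p)
  have j2 : Integrable (fun y => Real.exp (-((y - p) / c)) * ((z y - z p) * zy y))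
      (volume.restrict S) := by
    refine (j1.add i2).mono' (hE.aestronglyMeasurable.mul
      (hk.aestronglyMeasurable.mul h.aestronglyMeasurable.restrict)) (ae_of_all _ fun y => ?_)
    have e0 := (Real.exp_pos (-((y - p) / c))).le
    rw [Real.norm_eq_abs, abs_le, Pi.add_apply]
    constructor
    · nlinarith [mul_nonneg e0 (sq_nonneg (z y - z p + zy y)), mul_nonneg e0 (sq_nonneg (zy y)),
        mul_nonneg e0 (sq_nonneg (z y - z p))]
    · nlinarith [mul_nonneg e0 (sq_nonneg (z y - z p - zy y)), mul_nonneg e0 (sq_nonneg (zy y)),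
        mul_nonneg e0 (sq_nonneg (z y - z p))]
  have pE : IsPrim (fun y => Real.exp (-((y - p) / c)))
      (fun y => Real.exp (-((y - p) / c)) * (-(1 / c))) :=
    IsPrim.of_hasDerivAt
      (fun y => ((((hasDerivAt_id y).sub_const p).div_const c).neg).exp)
      (hE.mul continuous_const)
  have pF : IsPrim (fun y => -c * (Real.exp (-((y - p) / c)) * (z y - z p) ^ 2))
      (fun y => Real.exp (-((y - p) / c)) * (z y - z p) ^ 2
        - 2 * c * (Real.exp (-((y - p) / c)) * ((z y - z p) * zy y))) := by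
    refine ((pE.mul ((h.sub (IsPrim.const (z p))).pow 1)).const_mul (-c)).congr
      (fun y => rfl) fun y => ?_
    field_simp
    push_cast
    ring
  have h0 := hS _ _ pF (j1.const_mul _) (j1.sub (j2.const_mul _)) (by simp)
  have hle : ∫ y in S, (Real.exp (-((y - p) / c)) * (z y - z p) ^ 2
      - 4 * c ^ 2 * (Real.exp (-((y - p) / c)) * zy y ^ 2))
      ≤ ∫ y in S, 2 * (Real.exp (-((y - p) / c)) * (z y - z p) ^ 2
        - 2 * c * (Real.exp (-((y - p) / c)) * ((z y - z p) * zy y))) := by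
    refine integral_mono (j1.sub (i2.const_mul _)) ((j1.sub (j2.const_mul _)).const_mul _)
      fun y => ?_
    have := mul_nonneg (Real.exp_pos (-((y - p) / c))).le (sq_nonneg (z y - z p - 2 * c * zy y))
    dsimp only
    nlinarith
  rw [integral_const_mul, h0, integral_sub j1 (i2.const_mul _), integral_const_mul] at hle
  linarith

theorem intIoi_T8a (hL : 0 < L) : IntegrableOn (fun y => Real.exp (-((y - p) / L))) (Ioi p) := by
  have h1 : -(1 / L) < 0 := by have := one_div_pos.2 hL; linarith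
  refine ((integrableOn_exp_mul_Ioi h1 p).const_mul (Real.exp (p / L))).congr
    (ae_of_all _ fun y => ?_)
  dsimp only
  rw [← Real.exp_add]
  congr 1
  ring

theorem intIic_T8a (hL : 0 < L) : IntegrableOn (fun y => Real.exp (-((y - p) / -L))) (Iic p) := by
  refine ((integrableOn_exp_mul_Iic (one_div_pos.2 hL) p).const_mul (Real.exp (-(p / L)))).congr
    (ae_of_all _ fun y => ?_)
  dsimp only
  rw [← Real.exp_add]
  congr 1
  ring

theorem expHardy_Ioi (hL : 0 < L) (h : IsPrim z zy)
    (i1 : IntegrableOn (fun y => Real.exp (-((y - p) / L)) * z y ^ 2) (Ioi p))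
    (i2 : IntegrableOn (fun y => Real.exp (-((y - p) / L)) * zy y ^ 2) (Ioi p)) :
    ∫ y in Ioi p, Real.exp (-((y - p) / L)) * (z y - z p) ^ 2
      ≤ 4 * L ^ 2 * ∫ y in Ioi p, Real.exp (-((y - p) / L)) * zy y ^ 2 :=
  core_T8a hL.ne' h (intIoi_T8a hL) i1 i2 fun f g H j1 j2 h0 => by
    rw [H.integral_Ioi j1 j2, h0, neg_zero]

theorem expHardy (hL : 0 < L) (h : IsPrim z zy)
    (i1 : Integrable (fun y => Real.exp (-(|y - p| / L)) * z y ^ 2))
    (i2 : Integrable (fun y => Real.exp (-(|y - p| / L)) * zy y ^ 2)) :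
    ∫ y, Real.exp (-(|y - p| / L)) * (z y - z p) ^ 2
      ≤ 4 * L ^ 2 * ∫ y, Real.exp (-(|y - p| / L)) * zy y ^ 2 := by
  have eR : ∀ k : ℝ → ℝ, EqOn (fun y => Real.exp (-(|y - p| / L)) * k y)
      (fun y => Real.exp (-((y - p) / L)) * k y) (Ioi p) := fun k y hy => by
    dsimp only
    rw [abs_of_pos (sub_pos.2 hy)]
  have eL : ∀ k : ℝ → ℝ, EqOn (fun y => Real.exp (-(|y - p| / L)) * k y)
      (fun y => Real.exp (-((y - p) / -L)) * k y) (Iic p) := fun k y hy => by
    dsimp only
    rw [abs_of_nonpos (sub_nonpos.2 hy), div_neg, neg_div]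
  have iE : Integrable fun y => Real.exp (-(|y - p| / L)) := by
    rw [← integrableOn_univ, ← Iic_union_Ioi (a := p)]
    refine IntegrableOn.union ?_ ?_
    · refine (intIic_T8a hL).congr_fun (fun y hy => ?_) measurableSet_Iic
      simpa using (eL (fun _ => 1) hy).symm
    · refine (intIoi_T8a hL).congr_fun (fun y hy => ?_) measurableSet_Ioi
      simpa using (eR (fun _ => 1) hy).symm
  have j1 := intSq_T8a (by fun_prop) (fun _ => (Real.exp_pos _).le) iE h.continuous i1 (z p)
  have hR := expHardy_Ioi hL h (i1.integrableOn.congr_fun (eR _) measurableSet_Ioi)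
    (i2.integrableOn.congr_fun (eR _) measurableSet_Ioi)
  have hL' := core_T8a (neg_ne_zero.2 hL.ne') h (intIic_T8a hL)
    (i1.integrableOn.congr_fun (eL _) measurableSet_Iic)
    (i2.integrableOn.congr_fun (eL _) measurableSet_Iic) fun f g H j1 j2 h0 => by
      rw [H.integral_Iic j1 j2, h0]
  rw [← intervalIntegral.integral_Iic_add_Ioi (b := p) j1.integrableOn j1.integrableOn,
    ← intervalIntegral.integral_Iic_add_Ioi (b := p) i2.integrableOn i2.integrableOn,
    setIntegral_congr_fun measurableSet_Iic (eL _), setIntegral_congr_fun measurableSet_Ioi (eR _),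
    setIntegral_congr_fun measurableSet_Iic (eL _), setIntegral_congr_fun measurableSet_Ioi (eR _)]
  rw [neg_sq] at hL'
  linarith

end Pool.Agent.MP_8339a4_an
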