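import Pool.Agent.MP_8339a4_an.W0
import Pool.Agent.MP_8339a4_an.T3a

open MeasureTheory Filter Topology Set

namespace Pool.Agent.MP_8339a4_an

/-- Almost everywhere convergence of the mollifications. -/
theorem ae_tendsto_W1b {f : ℝ → ℝ} (hf : MemLp f 2 volume) :
    ∀ᵐ x, Tendsto (fun n => mo 0 n f x) atTop (𝓝 (f x)) := by
  have h1 : Tendsto (fun n : ℕ => (bump n).rOut) atTop (𝓝 0) :=
    tendsto_one_div_add_atTop_nhds_zero_nat
  have h2 : ∀ᶠ n : ℕ in atTop, (bump n).rOut ≤ 2 * (bump n).rIn := by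
    refine Eventually.of_forall fun n => le_of_eq ?_
    show 1 / ((n : ℝ) + 1) = 2 * (1 / (2 * ((n : ℝ) + 1)))
    field_simp
  have h3 := ContDiffBump.ae_convolution_tendsto_right_of_locallyIntegrable h1 h2
    (hf.locallyIntegrable (by norm_num))
  filter_upwards [h3] with x hx
  refine hx.congr fun n => ?_
  rw [convolution_lsmul_swap]
  simp only [mo, ker, iteratedDeriv_zero, smul_eq_mul]

/-- Almost everywhere convergence with a bound on the norms gives convergence in `L^2`. -/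
theorem l2_of_ae_W1b {g : ℕ → ℝ → ℝ} {f : ℝ → ℝ} (hf : MemLp f 2 volume)
    (hg : ∀ n, MemLp (g n) 2 volume) (hle : ∀ n, (∫ x, g n x ^ 2) ≤ ∫ x, f x ^ 2)
    (hae : ∀ᵐ x, Tendsto (fun n => g n x) atTop (𝓝 (f x))) :
    Tendsto (fun n => ∫ y, (g n y - f y) ^ 2) atTop (𝓝 0) := by
  have ip : ∀ n, Integrable (fun y => (g n y + f y) ^ 2) := fun n =>
    integrable_sq2 ((hg n).add hf)
  have i4 : Integrable (fun y => 4 * f y ^ 2) := (integrable_sq2 hf).const_mul 4
  have par : ∀ n, ∫ y, (g n y - f y) ^ 2 ≤ 4 * (∫ y, f y ^ 2) - ∫ y, (g n y + f y) ^ 2 := by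
    intro n
    have a1 : ∫ y, (g n y - f y) ^ 2
        = ∫ y, ((2 * g n y ^ 2 + 2 * f y ^ 2) - (g n y + f y) ^ 2) :=
      integral_congr_ae (ae_of_all _ fun y => by ring)
    have j1 := (integrable_sq2 (hg n)).const_mul 2
    have j2 := (integrable_sq2 hf).const_mul 2
    have j3 : Integrable (fun y => 2 * g n y ^ 2 + 2 * f y ^ 2) := j1.add j2
    rw [a1, integral_sub j3 (ip n), integral_add j1 j2, integral_const_mul, integral_const_mul]
    linarith [hle n]
  have fat : ENNReal.ofReal (4 * ∫ y, f y ^ 2)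
      ≤ liminf (fun n => ENNReal.ofReal (∫ y, (g n y + f y) ^ 2)) atTop := by
    have a1 := lintegral_liminf_le' (μ := volume) (u := atTop)
      (f := fun n y => ENNReal.ofReal ((g n y + f y) ^ 2))
      (fun n => (ip n).aemeasurable.ennreal_ofReal)
    have a2 : ∫⁻ y, liminf (fun n => ENNReal.ofReal ((g n y + f y) ^ 2)) atTop
        = ∫⁻ y, ENNReal.ofReal (4 * f y ^ 2) := by
      refine lintegral_congr_ae ?_
      filter_upwards [hae] with y hy
      have b1 : Tendsto (fun n => (g n y + f y) ^ 2) atTop (𝓝 (4 * f y ^ 2)) := by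
        have b2 := (hy.add_const (f y)).pow 2
        have b3 : (f y + f y) ^ 2 = 4 * f y ^ 2 := by ring
        rwa [b3] at b2
      exact (ENNReal.tendsto_ofReal b1).liminf_eq
    rw [a2, ← ofReal_integral_eq_lintegral_ofReal i4 (ae_of_all _ fun y => by positivity),
      integral_const_mul] at a1
    refine a1.trans (le_of_eq ?_)
    congr 1
    funext n
    rw [ofReal_integral_eq_lintegral_ofReal (ip n) (ae_of_all _ fun y => sq_nonneg _)]
  rw [tendsto_order]
  refine ⟨fun a ha => Eventually.of_forall fun n =>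
    ha.trans_le (integral_nonneg fun y => sq_nonneg _), fun ε hε => ?_⟩
  by_cases hI : 4 * (∫ y, f y ^ 2) < ε
  · refine Eventually.of_forall fun n => ?_
    have a1 : 0 ≤ ∫ y, (g n y + f y) ^ 2 := integral_nonneg fun y => sq_nonneg _
    linarith [par n]
  · have a1 : ENNReal.ofReal (4 * (∫ y, f y ^ 2) - ε) < ENNReal.ofReal (4 * ∫ y, f y ^ 2) :=
      (ENNReal.ofReal_lt_ofReal_iff (by linarith)).2 (by linarith)
    filter_upwards [eventually_lt_of_lt_liminf (a1.trans_le fat)] with n hn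
    have a2 := (ENNReal.ofReal_lt_ofReal_iff'.1 hn).1
    linarith [par n]

theorem moL (A : MoA) :
    ∀ f : ℝ → ℝ, MemLp f 2 volume → L2T atTop (fun n => mo 0 n f) f := fun f hf =>
  ⟨Eventually.of_forall fun n => A.mem 0 n f hf, hf,
    l2_of_ae_W1b hf (fun n => A.mem 0 n f hf) (fun n => A.sq0 n f hf) (ae_tendsto_W1b hf)⟩

end Pool.Agent.MP_8339a4_an
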