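import Pool.Agent.MP_8339a4_an.W0
import Pool.Agent.MP_8339a4_an.T3c

open MeasureTheory Filter Topology Set

namespace Pool.Agent.MP_8339a4_an

theorem le_W1c (A : MoA) (n : ℕ) {f G : ℝ → ℝ} {x : ℝ}
    (hi : Integrable fun y => ker 0 n (x - y) * G y) (h : ∀ y, |y - x| ≤ 1 → |f y| ≤ G y) :
    |mo 0 n f x| ≤ ∫ y, ker 0 n (x - y) * G y := by
  refine norm_integral_le_of_norm_le (f := fun y => ker 0 n (x - y) * f y) hi
    (ae_of_all _ fun y => ?_)
  rw [Real.norm_eq_abs, abs_mul, abs_of_nonneg (A.k0 n _)]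
  by_cases e : |y - x| ≤ 1
  · exact mul_le_mul_of_nonneg_left (h y e) (A.k0 n _)
  · have h1 : 1 / ((n : ℝ) + 1) ≤ 1 :=
      (div_le_one (by positivity)).2 (le_add_of_nonneg_left n.cast_nonneg)
    rw [A.kz 0 n _ (h1.trans (abs_sub_comm x y ▸ (not_le.1 e).le)), zero_mul, zero_mul]

theorem cont_W1c (A : MoA) (k n : ℕ) {f : ℝ → ℝ} (hf : MemLp f 2 volume) :
    Continuous (mo k n f) :=
  continuous_iff_continuousAt.2 fun x => (A.der k n f x hf).continuousAt

theorem bdd_W1c (A : MoA) (k n : ℕ) {f : ℝ → ℝ} (hf : MemLp f 2 volume) : Bdd (mo k n f) := by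
  obtain ⟨C, -, hC⟩ := A.sq k n
  exact ⟨cont_W1c A k n hf, _, fun x => Real.abs_le_sqrt ((hC f hf).2 x)⟩

theorem h1_W1c (A : MoA) (k n : ℕ) {f : ℝ → ℝ} (hf : MemLp f 2 volume) :
    IsH1 (mo k n f) (mo (k + 1) n f) :=
  IsH1.of_isPrim (IsPrim.of_hasDerivAt (fun x => A.der k n f x hf) (cont_W1c A _ n hf))
    (A.mem _ _ f hf) (A.mem _ _ f hf)

theorem prim_W1c (A : MoA) (k n : ℕ) {f g : ℝ → ℝ} (x : ℝ) (h : IsH1 f g) :
    mo (k + 1) n f x = mo k n g x := by
  have h1 : IsPrim (fun y => ker k n (x - y)) fun y => -ker (k + 1) n (x - y) :=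
    IsPrim.of_hasDerivAt (fun y => (A.kd k n (x - y)).comp_const_sub x y)
      ((A.smooth (k + 1) n).continuous.comp (continuous_const.sub continuous_id)).neg
  refine (h1.mul h.isPrim).neg.integral_eq (A.int k n f x h.1).neg (A.int (k + 1) n f x h.1)
    (A.int k n g x h.2.1) fun y => ?_
  ring

theorem moB (A : MoA)
    (hl : ∀ f : ℝ → ℝ, MemLp f 2 volume → L2T atTop (fun n => mo 0 n f) f) : MoB := by
  refine ⟨fun k n f hf => bdd_W1c A k n hf, fun k n f hf => h1_W1c A k n hf,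
    fun k n f g x h => prim_W1c A k n x h, hl, fun f g h => ?_, fun n f G c x _ hG h => ?_,
    fun n f c x _ h => ?_, fun k n l f g h => ?_, fun k n l f g h => ?_⟩
  · exact H1T.of_l2 (Eventually.of_forall fun n => h1_W1c A 0 n h.1) h (hl f h.1)
      ((hl g h.2.1).congr (Eventually.of_forall fun n y => (prim_W1c A 0 n y h).symm) fun _ => rfl)
  · have e : (fun y => ker 0 n (x - y) * (c * |G y|)) = fun y => c * (ker 0 n (x - y) * |G y|) :=
      funext fun y => mul_left_comm _ _ _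
    have := le_W1c A n (G := fun y => c * |G y|) (e ▸ (A.int 0 n _ x hG.abs).const_mul c) h
    rwa [e, integral_const_mul] at this
  · have i := (A.smooth 0 n).continuous.integrable_of_hasCompactSupport (μ := volume) (A.supp 0 n)
    have := le_W1c A n (G := fun _ => c) ((i.comp_sub_left x).mul_const c) h
    rwa [integral_mul_const, integral_sub_left_eq_self (ker 0 n), A.k1, one_mul] at this
  · obtain ⟨C, -, hC⟩ := A.sq k n
    refine l2_of_le_T3a (h.1.mono fun z hz => A.mem k n _ hz) (A.mem k n g h.2.1)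
      (r := fun z => C * ∫ y, (f z y - g y) ^ 2) (by simpa using h.2.2.const_mul C)
      (h.1.mono fun z hz => ?_)
    simp only [← A.sub k n (f z) g _ hz h.2.1]
    exact (hC _ (hz.sub h.2.1)).1
  · obtain ⟨C, -, hC⟩ := A.sq k n
    refine of_rate_T3a (h.1.mono fun z hz => bdd_W1c A k n hz) (bdd_W1c A k n h.2.1)
      (r := fun z => Real.sqrt (C * ∫ y, (f z y - g y) ^ 2))
      (by simpa using (h.2.2.const_mul C).sqrt) (h.1.mono fun z hz y => ?_)
    rw [← A.sub k n (f z) g _ hz h.2.1]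
    exact Real.abs_le_sqrt ((hC _ (hz.sub h.2.1)).2 y)

end Pool.Agent.MP_8339a4_an
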