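import Pool.Agent.MP_8339a4_an.W0
import Pool.Agent.MP_8339a4_an.T3c

open MeasureTheory Filter Topology Set

namespace Pool.Agent.MP_8339a4_an

theorem timA (A : MoA) (B : MoB) : TimA := by
  intro I u ux hu a b hI
  have h1 : ∀ t ∈ Icc a b, H1T (𝓝[Icc a b] t) u ux (u t) (ux t) := fun t ht =>
    (hu.h1t (hI ht)).mono (nhdsWithin_mono _ hI)
  have h5 : ∀ t ∈ Icc a b, L2T (𝓝[Icc a b] t) (fun z y => u z y ^ 5) (fun y => u t y ^ 5) :=
    fun t ht => ((h1 t ht).l2.mul_ut ((h1 t ht).ut.pow 4)).congr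
      (Eventually.of_forall fun _ _ => by ring) fun _ => by ring
  refine ⟨?_, h1, h5, fun k n t ht => ⟨?_, ?_⟩⟩
  · obtain ⟨C, hC⟩ := (isCompact_Icc (a := a) (b := b)).exists_bound_of_continuousOn
      (f := fun t => ∫ x, u t x ^ 2) fun t ht => (h1 t ht).l2.sq.tendsto_integral
    obtain ⟨D, hD⟩ := (isCompact_Icc (a := a) (b := b)).exists_bound_of_continuousOn
      (f := fun t => ∫ x, ux t x ^ 2) fun t ht => (h1 t ht).l2y.sq.tendsto_integral
    refine ⟨1 + |C| + |D|, by positivity, fun t ht => ?_⟩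
    have k1 : (∫ x, u t x ^ 2) ≤ |C| := ((le_abs_self _).trans (hC t ht)).trans (le_abs_self C)
    have k2 : (∫ x, ux t x ^ 2) ≤ |D| := ((le_abs_self _).trans (hD t ht)).trans (le_abs_self D)
    have k3 := abs_nonneg C
    have k4 := abs_nonneg D
    refine ⟨by linarith, by linarith, fun x => ?_⟩
    have h := hu.h1 t (hI ht)
    have k5 := h.sq_le' x
    rw [integral_add (integrable_sq2 h.1) (integrable_sq2 h.2.1), ← sq_abs] at k5
    nlinarith [sq_nonneg (|u t x| - 1)]
  · exact (((B.cl2 (k + 3) n _ _ _ (h1 t ht).l2).add (B.cl2 (k + 1) n _ _ _ (h5 t ht))).const_mul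
      (-1)).congr (Eventually.of_forall fun _ _ => by simp only [VV]; ring) fun _ => by
        simp only [VV]; ring
  · exact (((B.cut (k + 3) n _ _ _ (h1 t ht).l2).add (B.cut (k + 1) n _ _ _ (h5 t ht))).const_mul
      (-1)).congr (Eventually.of_forall fun _ _ => by simp only [VV]; ring) fun _ => by
        simp only [VV]; ring

end Pool.Agent.MP_8339a4_an
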