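import Pool.Agent.MP_8339a4_an.W0
import Pool.Agent.MP_8339a4_an.T3c

open MeasureTheory Filter Topology Set

namespace Pool.Agent.MP_8339a4_an

theorem deriv_W2b (A : MoA) (k n : ℕ) (x c : ℝ) :
    deriv (fun y => c * ker k n (x - y)) = fun y => -c * ker (k + 1) n (x - y) := by
  funext y
  have h := ((A.kd k n (x - y)).comp y ((hasDerivAt_id' y).const_sub x)).const_mul c
  refine h.deriv.trans ?_
  ring

theorem point_W2b (A : MoA) {I : Set ℝ} {u ux : ℝ → ℝ → ℝ} (hs : IsSol I u ux) {t z : ℝ}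
    (hI : uIcc t z ⊆ I) (k n : ℕ) (x : ℝ) :
    mo k n (u z) x - mo k n (u t) x = ∫ τ in t..z, VV k n (u τ) x := by
  have h := hs.weak (fun y => 1 * ker k n (x - y))
    (contDiff_const.mul ((A.smooth k n).comp (contDiff_const.sub contDiff_id)))
    ((A.supp k n).comp_homeomorph (Homeomorph.subLeft x)).mul_left t (hI left_mem_uIcc) z
    (hI right_mem_uIcc)
  rw [iteratedDeriv_succ, iteratedDeriv_succ, iteratedDeriv_one] at h
  simp only [deriv_W2b A] at h
  have e : ∀ s, mo k n (u s) x = ∫ y, u s y * (1 * ker k n (x - y)) := fun s => by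
    simp only [mo, one_mul, mul_comm]
  rw [e, e, h]
  refine intervalIntegral.integral_congr fun τ hτ => ?_
  have h1 := hs.h1 τ (hI hτ)
  simp only [VV, mo]
  rw [← integral_add (A.int _ n _ x h1.1) (A.int _ n _ x (h1.memLp_pow 4)), ← integral_neg]
  refine integral_congr_ae (Eventually.of_forall fun y => ?_)
  ring

theorem cs_W2b {g : ℝ → ℝ} (hg : Continuous g) {p q : ℝ} (h : p < q) :
    ((∫ τ in p..q, g τ) / (q - p)) ^ 2 ≤ (∫ τ in p..q, g τ ^ 2) / (q - p) := by
  have hr : 0 < q - p := sub_pos.2 h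
  obtain ⟨m, hm⟩ : ∃ m, m = (∫ τ in p..q, g τ) / (q - p) := ⟨_, rfl⟩
  have h1 : 0 ≤ ∫ τ in p..q, (g τ ^ 2 - 2 * m * g τ + m ^ 2) :=
    intervalIntegral.integral_nonneg h.le fun τ _ => by nlinarith [sq_nonneg (g τ - m)]
  have i1 : IntervalIntegrable (fun τ => g τ ^ 2) volume p q := (hg.pow 2).intervalIntegrable p q
  have i2 : IntervalIntegrable (fun τ => 2 * m * g τ) volume p q :=
    (continuous_const.mul hg).intervalIntegrable p q
  rw [intervalIntegral.integral_add (i1.sub i2) intervalIntegrable_const,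
    intervalIntegral.integral_sub i1 i2, intervalIntegral.integral_const_mul,
    intervalIntegral.integral_const, smul_eq_mul] at h1
  have h2 : ∫ τ in p..q, g τ = m * (q - p) := by rw [hm, div_mul_cancel₀ _ hr.ne']
  rw [← hm, le_div_iff₀ hr]
  rw [h2] at h1
  nlinarith

theorem avg_W2b {D : ℝ → ℝ → ℝ} (hD : Continuous fun w : ℝ × ℝ => D w.1 w.2) {p q ε : ℝ}
    (h : p < q) (h1 : ∀ τ ∈ Icc p q, Integrable (fun y => D τ y ^ 2) ∧ ∫ y, D τ y ^ 2 ≤ ε) :
    ∫ y, ((∫ τ in p..q, D τ y) / (q - p)) ^ 2 ≤ ε := by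
  have hr : 0 < q - p := sub_pos.2 h
  have hm : AEStronglyMeasurable (fun w : ℝ × ℝ => D w.1 w.2 ^ 2)
      ((volume.restrict (Ioc p q)).prod volume) := (hD.pow 2).aestronglyMeasurable
  have hae : ∀ᵐ τ ∂volume.restrict (Ioc p q),
      Integrable (fun y => D τ y ^ 2) ∧ ∫ y, D τ y ^ 2 ≤ ε :=
    (ae_restrict_iff' measurableSet_Ioc).2
      (Eventually.of_forall fun τ hτ => h1 τ (Ioc_subset_Icc_self hτ))
  have hi : Integrable (fun w : ℝ × ℝ => D w.1 w.2 ^ 2)
      ((volume.restrict (Ioc p q)).prod volume) := by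
    refine (integrable_prod_iff hm).2 ⟨hae.mono fun τ h => h.1, ?_⟩
    refine Integrable.of_bound hm.norm.integral_prod_right' ε (hae.mono fun τ h => ?_)
    simp only [Real.norm_eq_abs, abs_sq]
    rw [abs_of_nonneg (integral_nonneg fun y => sq_nonneg _)]
    exact h.2
  calc ∫ y, ((∫ τ in p..q, D τ y) / (q - p)) ^ 2
      ≤ ∫ y, (∫ τ in Ioc p q, D τ y ^ 2) / (q - p) := by
        refine integral_mono_of_nonneg (Eventually.of_forall fun y => sq_nonneg _)
          (hi.integral_prod_right.div_const _) (Eventually.of_forall fun y => ?_)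
        have h2 := cs_W2b (g := fun τ => D τ y) (hD.comp (Continuous.prodMk_left y)) h
        rwa [intervalIntegral.integral_of_le (f := fun τ => D τ y ^ 2) h.le] at h2
    _ = (∫ τ in Ioc p q, ∫ y, D τ y ^ 2) / (q - p) := by
        rw [integral_div, integral_integral_swap (f := fun τ y => D τ y ^ 2) hi]
    _ ≤ ε := by
        rw [div_le_iff₀ hr]
        refine (integral_mono_ae hi.integral_prod_left (integrable_const ε)
          (hae.mono fun τ h => h.2)).trans (le_of_eq ?_)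
        rw [setIntegral_const, Real.volume_real_Ioc_of_le h.le, smul_eq_mul, mul_comm]

theorem joint_W2b {V : ℝ → ℝ → ℝ} {S : Set ℝ} (hV : ∀ t ∈ S, UT (𝓝[S] t) V (V t)) {c : ℝ → ℝ}
    (hc : Continuous c) (hS : ∀ τ, c τ ∈ S) : Continuous fun w : ℝ × ℝ => V (c w.1) w.2 := by
  refine continuous_iff_continuousAt.2 fun w => Metric.tendsto_nhds.2 fun ε hε => ?_
  obtain ⟨-, h1, h2⟩ := hV _ (hS w.1)
  have h3 : Tendsto (fun v : ℝ × ℝ => c v.1) (𝓝 w) (𝓝[S] (c w.1)) :=
    tendsto_nhdsWithin_iff.2 ⟨(hc.comp continuous_fst).continuousAt,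
      Eventually.of_forall fun v => hS v.1⟩
  have h4 := Metric.tendsto_nhds.1
    ((h1.1.comp (continuous_snd (X := ℝ))).continuousAt (x := w)).tendsto (ε / 2) (half_pos hε)
  filter_upwards [h3.eventually (h2 (ε / 2) (half_pos hε)), h4] with v h5 h6
  have h7 := dist_triangle (V (c v.1) v.2) (V (c w.1) v.2) (V (c w.1) w.2)
  have h8 : dist (V (c v.1) v.2) (V (c w.1) v.2) ≤ ε / 2 := h5 v.2
  have h9 : dist (V (c w.1) v.2) (V (c w.1) w.2) < ε / 2 := h6
  exact h7.trans_lt (by linarith)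

theorem timB (A : MoA) (B : MoB) (TA : TimA) : TimB := by
  intro I u ux hs a b hI k n t ht
  obtain ⟨-, -, -, hV⟩ := TA I u ux hs a b hI
  have ht' : t ∈ Icc a b := Ioo_subset_Icc_self ht
  have hn : Icc a b ∈ 𝓝 t := Icc_mem_nhds ht.1 ht.2
  have hab : a ≤ b := ht'.1.trans ht'.2
  have hL := (hV k n t ht').1
  refine ⟨?_, hL.2.1, ?_⟩
  · filter_upwards [mem_nhdsWithin_of_mem_nhds hn] with z hz
    simp only [div_eq_mul_inv]
    exact ((A.mem k n _ (hs.h1 z (hI hz)).1).sub (A.mem k n _ (hs.h1 t (hI ht')).1)).mul_const _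
  have hc : Continuous fun τ : ℝ => max a (min τ b) := by fun_prop
  have hj := joint_W2b (V := fun z => VV k n (u z)) (fun τ hτ => (hV k n τ hτ).2) hc
    fun τ => ⟨le_max_left _ _, max_le hab (min_le_right _ _)⟩
  have hD : Continuous fun w : ℝ × ℝ => VV k n (u (max a (min w.1 b))) w.2 - VV k n (u t) w.2 :=
    hj.sub ((hV k n t ht').2.2.1.1.comp continuous_snd)
  have hcl : ∀ τ ∈ Icc a b, max a (min τ b) = τ := fun τ hτ => by
    rw [min_eq_left hτ.2, max_eq_right hτ.1]
  refine Metric.tendsto_nhds.2 fun ε hε => ?_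
  have h1 := Metric.tendsto_nhds.1 hL.2.2 (ε / 2) (half_pos hε)
  rw [nhdsWithin_eq_nhds.2 hn] at h1
  obtain ⟨δ, hδ, h2⟩ := Metric.eventually_nhds_iff_ball.1 (h1.and hn)
  filter_upwards [mem_nhdsWithin_of_mem_nhds (Metric.ball_mem_nhds t hδ), self_mem_nhdsWithin]
    with z hz hzt
  have hsub : uIcc t z ⊆ Metric.ball t δ :=
    (convex_ball t δ).ordConnected.uIcc_subset (Metric.mem_ball_self hδ) hz
  have h3 : ∀ τ ∈ uIcc t z,
      Integrable (fun y => (VV k n (u (max a (min τ b))) y - VV k n (u t) y) ^ 2) ∧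
      ∫ y, (VV k n (u (max a (min τ b))) y - VV k n (u t) y) ^ 2 ≤ ε / 2 := fun τ hτ => by
    obtain ⟨h4, h5⟩ := h2 τ (hsub hτ)
    rw [hcl τ h5]
    exact ⟨integrable_sq2 ((hV k n τ h5).1.2.1.sub hL.2.1),
      (le_abs_self _).trans (by simpa [Real.dist_eq] using h4.le)⟩
  have hne : z - t ≠ 0 := sub_ne_zero.2 hzt
  have h4 : ∀ y, (mo k n (u z) y - mo k n (u t) y) / (z - t) - VV k n (u t) y =
      (∫ τ in t..z, (VV k n (u (max a (min τ b))) y - VV k n (u t) y)) / (z - t) := fun y => by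
    have i1 : IntervalIntegrable (fun τ => VV k n (u (max a (min τ b))) y) volume t z :=
      (hj.comp (Continuous.prodMk_left y)).intervalIntegrable t z
    rw [point_W2b A hs (fun τ hτ => hI (h2 τ (hsub hτ)).2), intervalIntegral.integral_sub i1
      intervalIntegrable_const, intervalIntegral.integral_const, smul_eq_mul, sub_div,
      mul_div_cancel_left₀ _ hne]
    congr 2
    exact intervalIntegral.integral_congr fun τ hτ => by
      simp only [hcl τ (h2 τ (hsub hτ)).2]
  simp only [h4]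
  rw [Real.dist_eq, sub_zero, abs_of_nonneg (integral_nonneg fun y => sq_nonneg _)]
  refine lt_of_le_of_lt ?_ (half_lt_self hε)
  rcases lt_or_gt_of_ne hzt with h | h
  · have h5 := avg_W2b (D := fun τ y => VV k n (u (max a (min τ b))) y - VV k n (u t) y) hD h
      fun τ hτ => h3 τ (by rwa [uIcc_of_ge h.le])
    refine le_of_eq_of_le (integral_congr_ae (Eventually.of_forall fun y => ?_)) h5
    simp only
    rw [intervalIntegral.integral_symm, ← neg_sub t z, neg_div_neg_eq]
  · exact avg_W2b (D := fun τ y => VV k n (u (max a (min τ b))) y - VV k n (u t) y) hD h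
      fun τ hτ => h3 τ (by rwa [uIcc_of_le h.le])

end Pool.Agent.MP_8339a4_an
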