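import Pool.Agent.MP_8339a4_an.W0

open MeasureTheory Filter Topology Set

namespace Pool.Agent.MP_8339a4_an

theorem dct_W3a {a b B : ℝ} {D : ℕ → ℝ → ℝ} {q : ℝ → ℝ} (hab : a ≤ b)
    (hc : ∀ n, ContinuousOn (D n) (Icc a b)) (hB : ∀ n, ∀ t ∈ Icc a b, |D n t| ≤ B)
    (hl : ∀ t ∈ Icc a b, Tendsto (fun n => D n t) atTop (𝓝 (q t))) :
    Tendsto (fun n => ∫ t in a..b, D n t) atTop (𝓝 (∫ t in a..b, q t)) := by
  have hs : uIoc a b ⊆ Icc a b := by
    rw [uIoc_of_le hab]
    exact Ioc_subset_Icc_self
  refine intervalIntegral.tendsto_integral_filter_of_dominated_convergence (fun _ => B)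
    (Eventually.of_forall fun n => ?_) (Eventually.of_forall fun n => ?_) ?_ ?_
  · exact ((hc n).mono hs).aestronglyMeasurable measurableSet_uIoc
  · exact Eventually.of_forall fun t ht => hB n t (hs ht)
  · exact intervalIntegrable_const
  · exact Eventually.of_forall fun t ht => hl t (hs ht)

theorem limS : LimS := by
  constructor
  · intro a b B d D d0 q hab hc hd hB hl h0
    have h := dct_W3a hab hc hB hl
    have e : d = fun n => ∫ t in a..b, D n t := funext hd
    rw [e] at h0
    exact tendsto_nhds_unique h0 h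
  · intro a b B d D d0 q hab hc hq hd hB hl h0
    obtain ⟨M, hM⟩ := isCompact_Icc.exists_bound_of_continuousOn hq
    have hc' : ∀ n, ContinuousOn (fun t => max (D n t) (q t)) (Icc a b) := fun n =>
      (hc n).sup hq
    have hB' : ∀ n, ∀ t ∈ Icc a b, |max (D n t) (q t)| ≤ max B M := by
      intro n t ht
      have h1 := abs_le.1 (show |q t| ≤ M from hM t ht)
      have h2 := le_max_right B M
      have h3 := le_max_right (D n t) (q t)
      refine abs_le.2 ⟨by linarith [h1.1], max_le_max (hB n t ht) h1.2⟩
    have hl' : ∀ t ∈ Icc a b, Tendsto (fun n => max (D n t) (q t)) atTop (𝓝 (q t)) := by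
      intro t ht
      refine Metric.tendsto_nhds.2 fun ε hε => ?_
      filter_upwards [hl t ht (ε / 2) (by positivity)] with n hn
      have h3 := le_max_right (D n t) (q t)
      have h4 : max (D n t) (q t) ≤ q t + ε / 2 := max_le hn (by linarith)
      rw [Real.dist_eq, abs_lt]
      constructor <;> linarith
    have h := dct_W3a hab hc' hB' hl'
    refine le_of_tendsto_of_tendsto' h0 h fun n => ?_
    rw [hd n]
    refine intervalIntegral.integral_mono_on hab ((hc n).intervalIntegrable_of_Icc hab)
      ((hc' n).intervalIntegrable_of_Icc hab) fun t _ => le_max_left _ _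

end Pool.Agent.MP_8339a4_an
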