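import Pool.Agent.MP_8339a4_an.W0
import Pool.Agent.MP_8339a4_an.T3c
import Pool.Agent.MP_8339a4_an.T2c

open MeasureTheory Filter Topology Set

namespace Pool.Agent.MP_8339a4_an

theorem pair_W3b {α : Type} {l : Filter α} {f : α → ℝ → ℝ} {g θ : ℝ → ℝ} (h : L2T l f g)
    (hθ : MemLp θ 2 volume) : Tendsto (fun z => ∫ y, f z y * θ y) l (𝓝 (∫ y, g y * θ y)) :=
  (h.mul (L2T.const hθ)).tendsto_integral

theorem ibp_W3b (A : MoA) (B : MoB) {θ θ1 θ2 θ3 f : ℝ → ℝ} (hT : Test θ θ1 θ2 θ3) (n : ℕ)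
    (h : MemLp f 2 volume) (h5 : MemLp (fun y => f y ^ 5) 2 volume) :
    ∫ x, VV 0 n f x * θ x =
      (∫ x, mo 0 n f x * θ3 x) + ∫ x, mo 0 n (fun y => f y ^ 5) x * θ1 x := by
  have e1 := (B.h1 2 n f h).ibp hT.h1
  have e2 := (B.h1 1 n f h).ibp hT.h2
  have e3 := (B.h1 0 n f h).ibp hT.h3
  have e4 := (B.h1 0 n _ h5).ibp hT.h1
  have e5 : ∫ x, VV 0 n f x * θ x =
      -((∫ x, mo 3 n f x * θ x) + ∫ x, mo 1 n (fun y => f y ^ 5) x * θ x) := by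
    rw [← integral_add (integrable_mul2 (A.mem 3 n f h) hT.e0.memLp)
      (integrable_mul2 (A.mem 1 n _ h5) hT.e0.memLp), ← integral_neg]
    refine integral_congr_ae (Eventually.of_forall fun x => ?_)
    simp only [VV]
    ring
  simp only [Nat.reduceAdd] at e1 e2 e3 e4
  linarith

theorem bd_W3b (A : MoA) {f θ : ℝ → ℝ} {K : ℝ} (n : ℕ) (h : MemLp f 2 volume)
    (hθ : MemLp θ 2 volume) (hK : ∫ x, f x ^ 2 ≤ K) :
    |∫ x, mo 0 n f x * θ x| ≤ Real.sqrt K * Real.sqrt (∫ x, θ x ^ 2) :=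
  (cs2_abs (A.mem 0 n f h) hθ).trans (mul_le_mul_of_nonneg_right
    (Real.sqrt_le_sqrt ((A.sq0 n f h).trans hK)) (Real.sqrt_nonneg _))

theorem p0_of (A : MoA) (B : MoB) (TA : TimA) (TB : TimB) (L : LimS) : P0Stmt := by
  intro I u ux hs a b hab hI θ θ1 θ2 θ3 hT
  obtain ⟨⟨K, K0, hK⟩, t1, t2, -⟩ := TA I u ux hs a b hI
  have m1 : ∀ t ∈ Icc a b, MemLp (u t) 2 volume := fun t ht => (hs.h1 t (hI ht)).1
  have m5 : ∀ t ∈ Icc a b, MemLp (fun y => u t y ^ 5) 2 volume :=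
    fun t ht => (hs.h1 t (hI ht)).memLp_pow 4
  have cD : ∀ n, ContinuousOn (fun t => (∫ x, mo 0 n (u t) x * θ3 x) +
      ∫ x, mo 0 n (fun y => u t y ^ 5) x * θ1 x) (Icc a b) := fun n t ht =>
    (pair_W3b (B.cl2 0 n _ _ _ (t1 t ht).l2) hT.e3.memLp).add
      (pair_W3b (B.cl2 0 n _ _ _ (t2 t ht)) hT.e1.memLp)
  refine L.eq a b (Real.sqrt K * Real.sqrt (∫ x, θ3 x ^ 2) +
      Real.sqrt (K ^ 8 * K) * Real.sqrt (∫ x, θ1 x ^ 2))
    (fun n => (∫ x, mo 0 n (u b) x * θ x) - ∫ x, mo 0 n (u a) x * θ x) _ _ _ hab cD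
    (fun n => ?_) (fun n t ht => ?_) (fun t ht => ?_)
    ((pair_W3b (B.l2t _ (m1 b ⟨hab, le_rfl⟩)) hT.e0.memLp).sub
      (pair_W3b (B.l2t _ (m1 a ⟨le_rfl, hab⟩)) hT.e0.memLp))
  · refine (intervalIntegral.integral_eq_sub_of_hasDerivAt_of_le
      (f := fun t => ∫ x, mo 0 n (u t) x * θ x) hab
      (fun t ht => pair_W3b (B.cl2 0 n _ _ _ (t1 t ht).l2) hT.e0.memLp) (fun t ht => ?_)
      ((cD n).intervalIntegrable_of_Icc hab)).symm
    have ht' := Ioo_subset_Icc_self ht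
    rw [← ibp_W3b A B hT n (m1 t ht') (m5 t ht'), hasDerivAt_iff_tendsto_slope]
    refine (pair_W3b (TB I u ux hs a b hI 0 n t ht) hT.e0.memLp).congr' ?_
    filter_upwards [mem_nhdsWithin_of_mem_nhds (Icc_mem_nhds ht.1 ht.2)] with z hz
    rw [slope_def_field, ← integral_sub (integrable_mul2 (A.mem 0 n _ (m1 z hz)) hT.e0.memLp)
      (integrable_mul2 (A.mem 0 n _ (m1 t ht')) hT.e0.memLp), ← integral_div]
    refine integral_congr_ae (Eventually.of_forall fun x => ?_)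
    simp only
    ring
  · refine (abs_add_le _ _).trans (add_le_add (bd_W3b A n (m1 t ht) hT.e3.memLp (hK t ht).1)
      (bd_W3b A n (m5 t ht) hT.e1.memLp ?_))
    refine le_trans ?_ (mul_le_mul_of_nonneg_left (hK t ht).1 (pow_nonneg K0 8))
    rw [← integral_const_mul]
    refine integral_mono (integrable_sq2 (m5 t ht)) ((integrable_sq2 (m1 t ht)).const_mul _)
      fun x => ?_
    have h1 := pow_le_pow_left₀ (abs_nonneg _) ((hK t ht).2.2 x) 8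
    rw [Even.pow_abs (by decide)] at h1
    calc (u t x ^ 5) ^ 2 = u t x ^ 8 * u t x ^ 2 := by ring
      _ ≤ K ^ 8 * u t x ^ 2 := mul_le_mul_of_nonneg_right h1 (sq_nonneg _)
  · rw [integral_add (integrable_mul2 (m1 t ht) hT.e3.memLp)
      (integrable_mul2 (m5 t ht) hT.e1.memLp)]
    exact (pair_W3b (B.l2t _ (m1 t ht)) hT.e3.memLp).add
      (pair_W3b (B.l2t _ (m5 t ht)) hT.e1.memLp)

end Pool.Agent.MP_8339a4_an
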