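import Pool.Agent.MP_8339a4_an.W0
import Pool.Agent.MP_8339a4_an.T3c
import Pool.Agent.MP_8339a4_an.T2c

open MeasureTheory Filter Topology Set

namespace Pool.Agent.MP_8339a4_an

theorem h5_W4 {f fy : ℝ → ℝ} (h : IsH1 f fy) :
    IsH1 (fun y => f y ^ 5) (fun y => 5 * f y ^ 4 * fy y) :=
  (h.pow 4).congr (fun _ => rfl) (fun y => by norm_num)

theorem time_W4 (B : MoB) (TA : TimA) (TB : TimB) {I : Set ℝ} {u ux : ℝ → ℝ → ℝ}
    (hs : IsSol I u ux) {a b : ℝ} (hab : a ≤ b) (hI : Icc a b ⊆ I) {W : ℝ → ℝ} (hW : Bdd W)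
    (n : ℕ) :
    ContinuousOn (fun t => ∫ x, 2 * (mo 0 n (u t) x * VV 0 n (u t) x) * W x) (Icc a b) ∧
    (∫ x, mo 0 n (u b) x ^ 2 * W x) - (∫ x, mo 0 n (u a) x ^ 2 * W x) =
      ∫ t in a..b, ∫ x, 2 * (mo 0 n (u t) x * VV 0 n (u t) x) * W x := by
  obtain ⟨-, h1, -, h3⟩ := TA I u ux hs a b hI
  have c0 : ∀ t ∈ Icc a b, L2T (𝓝[Icc a b] t) (fun z => mo 0 n (u z)) (mo 0 n (u t)) :=
    fun t ht => B.cl2 0 n _ u _ (h1 t ht).l2
  have cD : ContinuousOn (fun t => ∫ x, 2 * (mo 0 n (u t) x * VV 0 n (u t) x) * W x) (Icc a b) :=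
    fun t ht => ((((c0 t ht).mul (h3 0 n t ht).1).const_mul 2).mul_ut (UT.const hW)).tendsto_integral
  have cJ : ContinuousOn (fun t => ∫ x, mo 0 n (u t) x ^ 2 * W x) (Icc a b) :=
    fun t ht => ((c0 t ht).sq.mul_ut (UT.const hW)).tendsto_integral
  refine ⟨cD, (intervalIntegral.integral_eq_sub_of_hasDerivAt_of_le hab cJ (fun t ht => ?_)
    (cD.intervalIntegrable_of_Icc hab)).symm⟩
  rw [hasDerivAt_iff_tendsto_slope]
  have hn : 𝓝[≠] t ≤ 𝓝[Icc a b] t :=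
    nhdsWithin_le_nhds.trans (nhdsWithin_eq_nhds.2 (Icc_mem_nhds ht.1 ht.2)).ge
  have c1 : L2T (𝓝[≠] t) (fun z => mo 0 n (u z)) (mo 0 n (u t)) :=
    B.cl2 0 n _ u _ ((h1 t (Ioo_subset_Icc_self ht)).mono hn).l2
  have h := (((TB I u ux hs a b hI 0 n t ht).mul (c1.add (L2T.const c1.2.1))).mul_ut
    (UT.const hW)).tendsto_integral
  have e : (∫ x, 2 * (mo 0 n (u t) x * VV 0 n (u t) x) * W x) =
      ∫ y, VV 0 n (u t) y * (mo 0 n (u t) y + mo 0 n (u t) y) * W y :=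
    integral_congr_ae (Eventually.of_forall fun y => by ring)
  rw [e]
  refine h.congr' (c1.1.mono fun z hz => ?_)
  have i1 := integrable_mul_bdd (integrable_sq2 hz) hW
  have i2 := integrable_mul_bdd (integrable_sq2 c1.2.1) hW
  rw [slope_def_field, ← integral_sub i1 i2, ← integral_div]
  exact integral_congr_ae (Eventually.of_forall fun y => by ring)

theorem space_W4 (A : MoA) (B : MoB) {f fy W W1 W2 W3 : ℝ → ℝ} (h : IsH1 f fy)
    (hW : Wt W W1 W2 W3) (n : ℕ) :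
    ∫ x, 2 * (mo 0 n f x * VV 0 n f x) * W x =
      ∫ x, (mo 0 n f x ^ 2 * W3 x - 3 * (mo 0 n fy x ^ 2 * W1 x) -
        2 * (mo 0 n f x * mo 0 n (fun y => 5 * f y ^ 4 * fy y) x * W x)) := by
  have m := fun k => A.mem k n f h.1
  have p := fun k => (B.h1 k n f h.1).isPrim
  have h5 := h5_W4 h
  have mF := A.mem 0 n _ h5.2.1
  have e1 : ∀ x, mo 0 n fy x = mo 1 n f x := fun x => (B.prim 0 n f fy x h).symm
  have e5 : ∀ x, mo 1 n (fun y => f y ^ 5) x = mo 0 n (fun y => 5 * f y ^ 4 * fy y) x :=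
    fun x => B.prim 0 n _ _ x h5
  have q0 := IsPrim.of_hasDerivAt hW.sm.d1 hW.sm.c1
  have q1 := IsPrim.of_hasDerivAt hW.sm.d2 hW.sm.c2
  have q2 := IsPrim.of_hasDerivAt hW.sm.d3 hW.sm.c3
  have I : ∀ (j k : ℕ) {w : ℝ → ℝ}, Bdd w → Integrable (fun y => mo j n f y * mo k n f y * w y) :=
    fun j k w hw => integrable_mul_bdd (integrable_mul2 (m j) (m k)) hw
  have IF := integrable_mul_bdd (integrable_mul2 (m 0) mF) hW.b0
  have P := ((((((p 0).mul (p 2)).mul q0).const_mul (-2)).add (((p 1).mul (p 1)).mul q0)).add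
    ((((p 0).mul (p 1)).mul q1).const_mul 2)).sub (((p 0).mul (p 0)).mul q2)
  refine P.integral_eq ?_ ?_ ?_ fun y => ?_
  · exact ((((I 0 2 hW.b0).const_mul (-2)).add (I 1 1 hW.b0)).add
      ((I 0 1 hW.b1).const_mul 2)).sub (I 0 0 hW.b2)
  · refine (((I 0 3 hW.b0).add IF).const_mul (-2)).congr (Eventually.of_forall fun y => ?_)
    simp only [VV, Pi.add_apply, zero_add, e5]
    ring
  · refine (((I 0 0 hW.b3).sub ((I 1 1 hW.b1).const_mul 3)).sub (IF.const_mul 2)).congr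
      (Eventually.of_forall fun y => ?_)
    simp only [Pi.sub_apply, e1]
    ring
  · simp only [VV, zero_add, e5, e1, Nat.reduceAdd]
    ring

theorem lim_W4 (B : MoB) {f fy W W1 W2 W3 : ℝ → ℝ} (h : IsH1 f fy) (hW : Wt W W1 W2 W3) :
    Tendsto (fun n => ∫ x, (mo 0 n f x ^ 2 * W3 x - 3 * (mo 0 n fy x ^ 2 * W1 x) -
        2 * (mo 0 n f x * mo 0 n (fun y => 5 * f y ^ 4 * fy y) x * W x))) atTop
      (𝓝 (∫ x, fl1 (f x) (fy x) (W1 x) (W3 x))) := by
  have h5 := h5_W4 h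
  have l0 := B.l2t f h.1
  have l1 := B.l2t fy h.2.1
  have l5 := B.l2t _ h5.2.1
  have H := ((l0.sq.mul_ut (UT.const hW.b3)).sub ((l1.sq.mul_ut (UT.const hW.b1)).const_mul 3)).sub
    (((l0.mul l5).mul_ut (UT.const hW.b0)).const_mul 2)
  have q0 := IsPrim.of_hasDerivAt hW.sm.d1 hW.sm.c1
  have P := ((h.isPrim.pow 5).mul q0).const_mul (-(5 / 3))
  have i6 := h.integrable_pow 4
  have e := P.integral_eq (G := fun x => fl1 (f x) (fy x) (W1 x) (W3 x))
    ((integrable_mul_bdd i6 hW.b0).const_mul _) H.2.1 (by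
      refine ((((integrable_mul_bdd (integrable_sq2 h.2.1) hW.b1).const_mul (-3)).add
        (integrable_mul_bdd (integrable_sq2 h.1) hW.b3)).add
        ((integrable_mul_bdd i6 hW.b1).const_mul (5 / 3))).congr (Eventually.of_forall fun y => ?_)
      simp only [fl1, Pi.add_apply]
      ring) (fun y => by
      simp only [fl1]
      push_cast
      ring)
  rw [← e]
  exact H.tendsto_integral

theorem bd_W4 (A : MoA) {W W1 W2 W3 : ℝ → ℝ} (hW : Wt W W1 W2 W3) (K : ℝ) :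
    ∃ C : ℝ, ∀ (n : ℕ) (f fy : ℝ → ℝ), IsH1 f fy → (∫ x, f x ^ 2) ≤ K → (∫ x, fy x ^ 2) ≤ K →
      (∀ x, |f x| ≤ K) → |∫ x, (mo 0 n f x ^ 2 * W3 x - 3 * (mo 0 n fy x ^ 2 * W1 x) -
        2 * (mo 0 n f x * mo 0 n (fun y => 5 * f y ^ 4 * fy y) x * W x))| ≤ C := by
  obtain ⟨C0, h0⟩ := hW.b0.2
  obtain ⟨C1, h1⟩ := hW.b1.2
  obtain ⟨C3, h3⟩ := hW.b3.2
  have n0 : 0 ≤ C0 := (abs_nonneg _).trans (h0 0)
  have n1 : 0 ≤ C1 := (abs_nonneg _).trans (h1 0)
  have n3 : 0 ≤ C3 := (abs_nonneg _).trans (h3 0)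
  refine ⟨(C3 + C0) * K + 3 * C1 * K + C0 * (25 * K ^ 8 * K), fun n f fy h k0 k1 k2 => ?_⟩
  have h5 := h5_W4 h
  have i0 := integrable_sq2 (A.mem 0 n f h.1)
  have i1 := integrable_sq2 (A.mem 0 n fy h.2.1)
  have i5 := integrable_sq2 (A.mem 0 n _ h5.2.1)
  have b0 := (A.sq0 n f h.1).trans k0
  have b1 := (A.sq0 n fy h.2.1).trans k1
  have b5 : (∫ x, mo 0 n (fun y => 5 * f y ^ 4 * fy y) x ^ 2) ≤ 25 * K ^ 8 * K := by
    refine (A.sq0 n _ h5.2.1).trans ?_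
    have : (∫ x, (5 * f x ^ 4 * fy x) ^ 2) ≤ ∫ x, 25 * K ^ 8 * fy x ^ 2 := by
      refine integral_mono (integrable_sq2 h5.2.1) ((integrable_sq2 h.2.1).const_mul _) fun x => ?_
      have e : f x ^ 8 ≤ K ^ 8 := by
        rw [← Even.pow_abs (by decide : Even 8)]
        exact pow_le_pow_left₀ (abs_nonneg _) (k2 x) 8
      have := mul_le_mul_of_nonneg_right e (sq_nonneg (fy x))
      show (5 * f x ^ 4 * fy x) ^ 2 ≤ 25 * K ^ 8 * fy x ^ 2
      nlinarith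
    rw [integral_const_mul] at this
    exact this.trans (mul_le_mul_of_nonneg_left k1 (by positivity))
  have ib := ((i0.const_mul (C3 + C0)).add (i1.const_mul (3 * C1))).add (i5.const_mul C0)
  have key := norm_integral_le_of_norm_le (f := fun x => mo 0 n f x ^ 2 * W3 x -
      3 * (mo 0 n fy x ^ 2 * W1 x) -
      2 * (mo 0 n f x * mo 0 n (fun y => 5 * f y ^ 4 * fy y) x * W x)) ib
    (Eventually.of_forall fun x => by
      simp only [Real.norm_eq_abs, Pi.add_apply]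
      generalize mo 0 n f x = p
      generalize mo 0 n fy x = q
      generalize mo 0 n (fun y => 5 * f y ^ 4 * fy y) x = r
      obtain ⟨a0, a0'⟩ := abs_le.1 (h0 x)
      obtain ⟨a1, a1'⟩ := abs_le.1 (h1 x)
      obtain ⟨a3, a3'⟩ := abs_le.1 (h3 x)
      have s1 := mul_nonneg (sq_nonneg p) (sub_nonneg.2 a3)
      have s2 := mul_nonneg (sq_nonneg p) (sub_nonneg.2 a3')
      have s3 := mul_nonneg (sq_nonneg q) (sub_nonneg.2 a1)
      have s4 := mul_nonneg (sq_nonneg q) (sub_nonneg.2 a1')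
      have s5 := mul_nonneg (sq_nonneg (p + r)) (sub_nonneg.2 a0)
      have s6 := mul_nonneg (sq_nonneg (p + r)) (sub_nonneg.2 a0')
      have s7 := mul_nonneg (sq_nonneg (p - r)) (sub_nonneg.2 a0)
      have s8 := mul_nonneg (sq_nonneg (p - r)) (sub_nonneg.2 a0')
      rw [abs_le]
      constructor <;> nlinarith)
  rw [Real.norm_eq_abs] at key
  refine key.trans ?_
  rw [integral_add' ((i0.const_mul (C3 + C0)).add (i1.const_mul (3 * C1))) (i5.const_mul C0),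
    integral_add' (i0.const_mul (C3 + C0)) (i1.const_mul (3 * C1)), integral_const_mul,
    integral_const_mul, integral_const_mul]
  gcongr

theorem p1_of (A : MoA) (B : MoB) (TA : TimA) (TB : TimB) (L : LimS) : P1Stmt := by
  intro I u ux hs a b hab hI W W1 W2 W3 hW
  obtain ⟨⟨K, -, hK⟩, -⟩ := TA I u ux hs a b hI
  obtain ⟨C, hC⟩ := bd_W4 A hW K
  have T := time_W4 B TA TB hs hab hI hW.b0
  have hh : ∀ t ∈ Icc a b, IsH1 (u t) (ux t) := fun t ht => hs.h1 t (hI ht)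
  have lj : ∀ t ∈ Icc a b, Tendsto (fun n => ∫ x, mo 0 n (u t) x ^ 2 * W x) atTop
      (𝓝 (∫ x, u t x ^ 2 * W x)) := fun t ht =>
    ((B.l2t _ (hh t ht).1).sq.mul_ut (UT.const hW.b0)).tendsto_integral
  refine L.eq a b C _ (fun n t => ∫ x, 2 * (mo 0 n (u t) x * VV 0 n (u t) x) * W x) _ _ hab
    (fun n => (T n).1) (fun n => (T n).2) (fun n t ht => ?_) (fun t ht => ?_)
    ((lj b (right_mem_Icc.2 hab)).sub (lj a (left_mem_Icc.2 hab)))
  · rw [space_W4 A B (hh t ht) hW n]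
    exact hC n _ _ (hh t ht) (hK t ht).1 (hK t ht).2.1 (hK t ht).2.2
  · exact (lim_W4 B (hh t ht) hW).congr fun n => (space_W4 A B (hh t ht) hW n).symm

end Pool.Agent.MP_8339a4_an
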