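import Pool.Agent.MP_8339a4_an.W0
import Pool.Agent.MP_8339a4_an.T3c

open MeasureTheory Filter Topology Set

namespace Pool.Agent.MP_8339a4_an

theorem en_W5a {l : Filter ℝ} {v0 v1 : ℝ → ℝ → ℝ} {g0 g1 W : ℝ → ℝ} (h0 : L2T l v0 g0)
    (u0 : UT l v0 g0) (h1 : L2T l v1 g1) (hW : Bdd W) :
    L1T l (fun z y => en (v0 z y) (v1 z y) * W y) (fun y => en (g0 y) (g1 y) * W y) :=
  ((h1.sq.sub ((h0.sq.mul_ut (u0.pow 4)).const_mul (1 / 3))).mul_ut (UT.const hW)).congr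
    (Eventually.of_forall fun z y => by unfold en; ring) fun y => by unfold en; ring

theorem der_W5a {t : ℝ} {v0 v1 : ℝ → ℝ → ℝ} {V0 V1 W : ℝ → ℝ} (h0 : L2T (𝓝[≠] t) v0 (v0 t))
    (u0 : UT (𝓝[≠] t) v0 (v0 t)) (h1 : L2T (𝓝[≠] t) v1 (v1 t)) (hW : Bdd W)
    (s0 : L2T (𝓝[≠] t) (fun z y => (v0 z y - v0 t y) / (z - t)) V0)
    (s1 : L2T (𝓝[≠] t) (fun z y => (v1 z y - v1 t y) / (z - t)) V1) :
    HasDerivAt (fun z => ∫ y, en (v0 z y) (v1 z y) * W y)
      (∫ y, (2 * v1 t y * V1 y - 2 * v0 t y ^ 5 * V0 y) * W y) t := by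
  have c0 : UT (𝓝[≠] t) (fun _ => v0 t) (v0 t) := UT.const u0.2.1
  have P := ((((u0.pow 4).add ((u0.pow 3).mul c0)).add ((u0.pow 2).mul (c0.pow 2))).add
    (u0.mul (c0.pow 3))).add (c0.pow 4)
  have R := (h0.mul_ut P).add ((L2T.const h0.2.1).mul_ut (c0.pow 4))
  have S := (((s1.mul (h1.add (L2T.const h1.2.1))).sub ((s0.mul R).const_mul (1 / 3))).mul_ut
    (UT.const hW)).tendsto_integral
  have E := en_W5a h0 u0 h1 hW
  rw [hasDerivAt_iff_tendsto_slope]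
  refine (S.congr' ?_).trans_eq (congrArg _ (integral_congr_ae (Eventually.of_forall fun y => ?_)))
  · filter_upwards [E.1] with z hz
    rw [slope_def_field, ← integral_sub hz E.2.1, ← integral_div]
    refine integral_congr_ae (Eventually.of_forall fun y => ?_)
    simp only [en]
    ring
  · simp only
    ring

theorem enA (A : MoA) (B : MoB) (TA : TimA) (TB : TimB) : EnA := by
  intro I u ux hs a b hab hI W hW n
  obtain ⟨-, hH, -, hV⟩ := TA I u ux hs a b hI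
  have hc : ContinuousOn (fun t => Dn n (u t) W) (Icc a b) := fun t ht => by
    have h := (hH t ht).l2
    have S := (((((B.cl2 1 n _ _ _ h).mul (hV 1 n t ht).1).const_mul 2).sub
      (((((B.cl2 0 n _ _ _ h).mul_ut ((B.cut 0 n _ _ _ h).pow 4)).mul
        (hV 0 n t ht).1)).const_mul 2)).mul_ut (UT.const hW)).congr
      (F := fun z x => (2 * mo 1 n (u z) x * VV 1 n (u z) x -
        2 * mo 0 n (u z) x ^ 5 * VV 0 n (u z) x) * W x)
      (G := fun x => (2 * mo 1 n (u t) x * VV 1 n (u t) x -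
        2 * mo 0 n (u t) x ^ 5 * VV 0 n (u t) x) * W x)
      (Eventually.of_forall fun z y => by ring) fun y => by ring
    exact S.tendsto_integral
  refine ⟨hc, (intervalIntegral.integral_eq_sub_of_hasDerivAt_of_le hab
    (f := fun z => ∫ x, en (mo 0 n (u z) x) (mo 1 n (u z) x) * W x) (fun t ht => ?_)
    (fun t ht => ?_) (hc.intervalIntegrable_of_Icc hab)).symm⟩
  · have h := (hH t ht).l2
    exact (en_W5a (B.cl2 0 n _ _ _ h) (B.cut 0 n _ _ _ h) (B.cl2 1 n _ _ _ h) hW).tendsto_integral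
  · have h := ((hH t (Ioo_subset_Icc_self ht)).mono (l' := 𝓝[≠] t) (by
      rw [nhdsWithin_eq_nhds.2 (Icc_mem_nhds ht.1 ht.2)]
      exact nhdsWithin_le_nhds)).l2
    exact der_W5a (v0 := fun z => mo 0 n (u z)) (v1 := fun z => mo 1 n (u z))
      (B.cl2 0 n _ _ _ h) (B.cut 0 n _ _ _ h) (B.cl2 1 n _ _ _ h) hW
      (TB I u ux hs a b hI 0 n t ht) (TB I u ux hs a b hI 1 n t ht)

end Pool.Agent.MP_8339a4_an
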