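import Pool.Agent.MP_8339a4_an.W0
import Pool.Agent.MP_8339a4_an.T3c
import Pool.Agent.MP_8339a4_an.T2c

open MeasureTheory Filter Topology Set

namespace Pool.Agent.MP_8339a4_an

theorem key_W5b {v0 v1 v2 v3 v4 F1 F2 W W1 W2 W3 : ℝ → ℝ} (h0 : IsH1 v0 v1) (h1 : IsH1 v1 v2)
    (h2 : IsH1 v2 v3) (h3 : IsH1 v3 v4) (hF : IsH1 F1 F2) (hW : Wb W W1 W2 W3) :
    ∫ x, (2 * v1 x * -(v4 x + F2 x) - 2 * v0 x ^ 5 * -(v3 x + F1 x)) * W x =
      ∫ x, (-3 * W1 x * v2 x ^ 2 + fl2 (v0 x) (v1 x) 0 0 (W1 x) (W2 x) (W3 x) +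
        2 * (W x * (v2 x + v0 x ^ 5) + W1 x * v1 x) * (F1 x - 5 * v0 x ^ 4 * v1 x)) := by
  have w0 := IsPrim.of_hasDerivAt hW.sm.d1 hW.sm.c1
  have w1 := IsPrim.of_hasDerivAt hW.sm.d2 hW.sm.c2
  have w2 := IsPrim.of_hasDerivAt hW.sm.d3 hW.sm.c3
  have pa := ((h1.isPrim.mul (h3.isPrim.add hF.isPrim)).const_mul (-2)).add
    ((h2.isPrim.add (h0.isPrim.pow 4)).pow 1)
  have pb := (h1.isPrim.mul (h2.isPrim.sub (h0.isPrim.pow 4))).const_mul 2
  have pc := ((h0.isPrim.pow 5).const_mul (1 / 3)).sub (h1.isPrim.pow 1)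
  have p5 : MemLp (fun y => v0 y ^ 5) 2 volume := h0.memLp_pow 4
  have m3 : MemLp (fun y => v3 y + F1 y) 2 volume := h3.1.add hF.1
  have m4 : MemLp (fun y => v4 y + F2 y) 2 volume := h3.2.1.add hF.2.1
  have m5 : MemLp (fun y => v2 y + v0 y ^ 5) 2 volume := h2.1.add p5
  have m6 : MemLp (fun y => v2 y - v0 y ^ 5) 2 volume := h2.1.sub p5
  have m7 : MemLp (fun y => W y * (v2 y + v0 y ^ 5) + W1 y * v1 y) 2 volume :=
    (memLp_bdd_mul m5 hW.b0).add (memLp_bdd_mul h1.1 hW.b1)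
  have m8 : MemLp (fun y => F1 y - 5 * (v0 y ^ 4 * v1 y)) 2 volume :=
    hF.1.sub ((memLp_bdd_mul h1.1 (h0.bdd.pow 4)).const_mul 5)
  have i6 : Integrable (fun y => v0 y ^ 6) := h0.integrable_pow 4
  have i10 : Integrable (fun y => v0 y ^ 10) := h0.integrable_pow 8
  have ia : Integrable (fun y => -2 * (v1 y * (v3 y + F1 y)) + (v2 y + v0 y ^ 5) ^ 2) :=
    ((integrable_mul2 h1.1 m3).const_mul (-2)).add (integrable_sq2 m5)
  have ib : Integrable (fun y => 2 * (v1 y * (v2 y - v0 y ^ 5))) :=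
    (integrable_mul2 h1.1 m6).const_mul 2
  have ic : Integrable (fun y => 1 / 3 * v0 y ^ 6 - v1 y ^ 2) :=
    (i6.const_mul (1 / 3)).sub (integrable_sq2 h1.1)
  have il : Integrable (fun y => -2 * (v1 y * (v4 y + F2 y)) + 2 * (v0 y ^ 5 * (v3 y + F1 y))) :=
    ((integrable_mul2 h1.1 m4).const_mul (-2)).add ((integrable_mul2 p5 m3).const_mul 2)
  have ir1 : Integrable (fun y => -3 * v2 y ^ 2 + 20 * (v0 y ^ 4 * v1 y ^ 2) - v0 y ^ 10) :=
    (((integrable_sq2 h2.1).const_mul (-3)).add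
      ((integrable_bdd_mul (integrable_sq2 h1.1) (h0.bdd.pow 4)).const_mul 20)).sub i10
  refine (((w0.mul pa).add (w1.mul pb)).add (w2.mul pc)).integral_eq
    (((integrable_bdd_mul ia hW.b0).add (integrable_bdd_mul ib hW.b1)).add
      (integrable_bdd_mul ic hW.b2))
    ((integrable_mul_bdd il hW.b0).congr (ae_of_all _ fun y => ?_))
    ((((integrable_bdd_mul ir1 hW.b1).sub (integrable_bdd_mul ic hW.b3)).add
      ((integrable_mul2 m7 m8).const_mul 2)).congr (ae_of_all _ fun y => ?_)) fun y => ?_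
  · beta_reduce
    ring
  · simp only [Pi.add_apply, Pi.sub_apply, fl2]
    ring
  · simp only [fl2]
    push_cast
    ring

theorem enB (A : MoA) (B : MoB) : EnB := by
  intro f fy W W1 W2 W3 hf hW n
  have h5 : MemLp (fun y => f y ^ 5) 2 volume := hf.memLp_pow 4
  exact key_W5b (B.h1 0 n f hf.1) (B.h1 1 n f hf.1) (B.h1 2 n f hf.1) (B.h1 3 n f hf.1)
    (B.h1 1 n _ h5) hW

end Pool.Agent.MP_8339a4_an
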