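import Pool.Agent.MP_8339a4_an.W0
import Pool.Agent.MP_8339a4_an.T3c

open MeasureTheory Filter Topology Set

namespace Pool.Agent.MP_8339a4_an

theorem h5_W5c {f fy : ℝ → ℝ} (h : IsH1 f fy) :
    IsH1 (fun y => f y ^ 5) (fun y => 5 * f y ^ 4 * fy y) :=
  (h.pow 4).congr (fun _ => rfl) (fun y => by push_cast; ring)

theorem cm_eq_W5c (B : MoB) (n : ℕ) {f fy : ℝ → ℝ} (h : IsH1 f fy) (x : ℝ) :
    cm n f x = mo 0 n (fun y => 5 * f y ^ 4 * fy y) x - 5 * mo 0 n f x ^ 4 * mo 0 n fy x := by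
  rw [← B.prim 0 n _ _ x (h5_W5c h), ← B.prim 0 n _ _ x h]
  rfl

theorem sq_le_W5c {w g : ℝ → ℝ} {K : ℝ} (hw : Bdd w) (hg : MemLp g 2 volume)
    (hK : ∀ x, |w x| ≤ K) :
    ∫ x, (5 * w x ^ 4 * g x) ^ 2 ≤ 25 * K ^ 8 * ∫ x, g x ^ 2 := by
  rw [← integral_const_mul]
  refine integral_mono (integrable_sq2 (memLp_bdd_mul hg ((hw.pow 4).const_mul 5)))
    ((integrable_sq2 hg).const_mul _) fun x => ?_
  have h1 : w x ^ 8 ≤ K ^ 8 := by
    have := pow_le_pow_left₀ (abs_nonneg _) (hK x) 8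
    rwa [Even.pow_abs (by norm_num)] at this
  have h2 : (5 * w x ^ 4 * g x) ^ 2 = 25 * w x ^ 8 * g x ^ 2 := by ring
  simp only
  rw [h2]
  exact mul_le_mul_of_nonneg_right (by linarith) (sq_nonneg _)

theorem mem_W5c (A : MoA) (B : MoB) (n : ℕ) {f fy : ℝ → ℝ} (h : IsH1 f fy) :
    MemLp (cm n f) 2 volume :=
  (A.mem 1 n _ (h5_W5c h).1).sub
    (memLp_bdd_mul (A.mem 1 n f h.1) (((B.bdd 0 n f h.1).pow 4).const_mul 5))

theorem cmS (A : MoA) (B : MoB) : CmS := by
  refine ⟨fun n f fy h => mem_W5c A B n h, ?_, ?_, ?_⟩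
  · intro n f fy K h h1 h2
    have hK : 0 ≤ K := (abs_nonneg _).trans (h2 0)
    have hG := (h5_W5c h).2.1
    have ma := A.mem 0 n _ hG
    have mv := A.mem 0 n _ h.2.1
    have bv := B.bdd 0 n f h.1
    have mb := memLp_bdd_mul mv ((bv.pow 4).const_mul 5)
    have e1 := (A.sq0 n _ hG).trans (sq_le_W5c h.bdd h.2.1 h2)
    have e2 := sq_le_W5c bv mv (fun x => B.loc n f K x h.1 fun y _ => h2 y)
    have e3 := A.sq0 n _ h.2.1
    have e4 : (∫ x, cm n f x ^ 2) ≤ ∫ x, (2 * mo 0 n (fun y => 5 * f y ^ 4 * fy y) x ^ 2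
        + 2 * (5 * mo 0 n f x ^ 4 * mo 0 n fy x) ^ 2) := by
      refine integral_mono (integrable_sq2 (mem_W5c A B n h))
        (((integrable_sq2 ma).const_mul 2).add ((integrable_sq2 mb).const_mul 2)) fun x => ?_
      simp only
      rw [cm_eq_W5c B n h x]
      nlinarith [sq_nonneg (mo 0 n (fun y => 5 * f y ^ 4 * fy y) x
        + 5 * mo 0 n f x ^ 4 * mo 0 n fy x)]
    rw [integral_add ((integrable_sq2 ma).const_mul 2) ((integrable_sq2 mb).const_mul 2),
      integral_const_mul, integral_const_mul] at e4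
    have p8 : 0 ≤ 25 * K ^ 8 := by positivity
    have e5 := mul_le_mul_of_nonneg_left h1 p8
    have e6 := mul_le_mul_of_nonneg_left (e3.trans h1) p8
    have e7 : 25 * K ^ 8 * K = 25 * K ^ 9 := by ring
    linarith
  · intro f fy h
    have H := (B.l2t _ (h5_W5c h).2.1).sub
      ((B.l2t _ h.2.1).ut_mul ((((B.h1t f fy h).ut).pow 4).const_mul 5))
    refine H.2.2.congr fun n => integral_congr_ae (Eventually.of_forall fun x => ?_)
    simp only
    rw [cm_eq_W5c B n h x, sub_self, sub_zero]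
  · intro n f fy c x h hc
    have c0 : 0 ≤ c := le_trans (by positivity) (hc x (by simp))
    have e1 := B.dom n (fun y => 5 * f y ^ 4 * fy y) fy (5 * c) x (h5_W5c h).2.1 h.2.1
      fun y hy => by
        rw [abs_mul, abs_of_nonneg (by positivity : (0 : ℝ) ≤ 5 * f y ^ 4)]
        exact mul_le_mul_of_nonneg_right (by linarith [hc y hy]) (abs_nonneg _)
    have e2 := B.dom n fy fy 1 x h.2.1 h.2.1 fun y _ => by rw [one_mul]
    rw [one_mul] at e2
    have e3 := B.loc n f (Real.sqrt (Real.sqrt c)) x h.1 fun y hy =>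
      Real.abs_le_sqrt ((le_abs_self _).trans (Real.abs_le_sqrt (by
        have := hc y hy
        nlinarith)))
    have e4 : mo 0 n f x ^ 4 ≤ c := by
      have h1 := pow_le_pow_left₀ (abs_nonneg _) e3 4
      rw [Even.pow_abs (by norm_num)] at h1
      have h2 : Real.sqrt (Real.sqrt c) ^ 4 = c := by
        rw [show (4 : ℕ) = 2 * 2 from rfl, pow_mul, Real.sq_sqrt (Real.sqrt_nonneg _),
          Real.sq_sqrt c0]
      rwa [h2] at h1
    have e5 : |5 * mo 0 n f x ^ 4 * mo 0 n fy x| ≤ 5 * c * mo 0 n (fun y => |fy y|) x := by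
      rw [abs_mul, abs_of_nonneg (by positivity : (0 : ℝ) ≤ 5 * mo 0 n f x ^ 4)]
      exact mul_le_mul (by linarith) e2 (abs_nonneg _) (by positivity)
    rw [cm_eq_W5c B n h x]
    refine (abs_sub _ _).trans ?_
    linarith

end Pool.Agent.MP_8339a4_an
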