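import Pool.Agent.MP_8339a4_an.W0
import Pool.Agent.MP_8339a4_an.T3c
import Pool.Agent.MP_8339a4_an.T2c

open MeasureTheory Filter Topology Set

namespace Pool.Agent.MP_8339a4_an

theorem pt_W5d {θ η μ w M c p q G : ℝ} (hθ : 0 < θ) (hη : 0 < η) (hμ : 0 ≤ μ) (hw : |w| ≤ M)
    (hq : |q| ≤ 10 * (c * μ) * G) :
    -(3 * θ * (μ * p ^ 2)) + 2 * (w * (p * q)) ≤
      M ^ 2 / (3 * θ) * (1 + 100 * c ^ 2) / η * q ^ 2 +
        M ^ 2 / (3 * θ) * (1 + 100 * c ^ 2) * η * G ^ 2 := by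
  obtain ⟨s, rfl, hs⟩ : ∃ s, q = μ * s ∧ s ^ 2 ≤ 100 * c ^ 2 * G ^ 2 := by
    rcases hμ.eq_or_lt with h | h
    · subst h
      exact ⟨0, by simpa using hq, by nlinarith [sq_nonneg (c * G)]⟩
    · refine ⟨q / μ, by field_simp, ?_⟩
      have h1 : |q / μ| ≤ 10 * c * G := by
        rw [abs_div, abs_of_pos h, div_le_iff₀ h]
        linarith
      have h2 := sq_le_sq' (abs_le.1 h1).1 (abs_le.1 h1).2
      linarith
  have hw2 : w ^ 2 ≤ M ^ 2 := sq_le_sq' (abs_le.1 hw).1 (abs_le.1 hw).2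
  have hD : 0 ≤ M ^ 2 / (3 * θ) := by positivity
  have h1 : -(3 * θ * p ^ 2) + 2 * (w * (p * s)) ≤ M ^ 2 / (3 * θ) * s ^ 2 := by
    rw [div_mul_eq_mul_div, le_div_iff₀ (by positivity)]
    nlinarith [sq_nonneg (3 * θ * p - w * s), mul_le_mul_of_nonneg_right hw2 (sq_nonneg s)]
  have h2 : μ ≤ μ ^ 2 / η + η := by
    rw [div_add' _ _ _ hη.ne', le_div_iff₀ hη]
    nlinarith [sq_nonneg (μ - η), mul_nonneg hμ hη.le]
  generalize M ^ 2 / (3 * θ) = D at *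
  have h3 := mul_le_mul_of_nonneg_left h1 hμ
  have h4 := mul_le_mul_of_nonneg_right h2 (mul_nonneg hD (sq_nonneg s))
  have h5 := mul_le_mul_of_nonneg_left hs (mul_nonneg hD hη.le)
  have h6 : 0 ≤ D * (100 * c ^ 2) / η * (μ * s) ^ 2 := by positivity
  have h7 : 0 ≤ D * η * G ^ 2 := by positivity
  have e1 : D * (1 + 100 * c ^ 2) / η * (μ * s) ^ 2 =
      μ ^ 2 / η * (D * s ^ 2) + D * (100 * c ^ 2) / η * (μ * s) ^ 2 := by ring
  rw [e1]
  nlinarith

theorem int_W5d {f fy g gy W1 W2 W3 : ℝ → ℝ} (h : IsH1 f fy) (hg : IsH1 g gy) (b1 : Bdd W1)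
    (b2 : Bdd W2) (b3 : Bdd W3) :
    Integrable (fun y => fl2 (f y) (fy y) (g y) (gy y) (W1 y) (W2 y) (W3 y)) :=
  (H1T.fl2 (l := (⊥ : Filter ℕ)) (f := fun _ => f) (fy := fun _ => fy)
    ⟨eventually_bot, h, tendsto_bot⟩ hg b1 b2 b3).2.1

theorem enC (A : MoA) (B : MoB) (EB : EnB) (CM : CmS) : EnC := by
  intro W W1 W2 W3 Φ Φ1 Φ2 Φ3 g gy c θ hW hW1 hΦ hg hc hθ
  have hS : Wb (fun x => W x + θ * Φ x) (fun x => W1 x + θ * Φ1 x) (fun x => W2 x + θ * Φ2 x)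
      (fun x => W3 x + θ * Φ3 x) :=
    ⟨hW.sm.add (hΦ.sm.const_mul θ), hW.b0.add (hΦ.b0.const_mul θ),
      hW.b1.add (hΦ.b1.const_mul θ), hW.b2.add (hΦ.b2.const_mul θ),
      hW.b3.add (hΦ.b3.const_mul θ)⟩
  obtain ⟨M, hM⟩ := hS.b0.2
  refine ⟨M ^ 2 / (3 * θ) * (1 + 100 * c ^ 2), by positivity, ?_⟩
  intro η f fy hη hf hloc hΦ1 n
  have hK : 0 ≤ M ^ 2 / (3 * θ) * (1 + 100 * c ^ 2) := by positivity
  have hp := fun x => pt_W5d (p := mo 2 n f x) hθ hη (hΦ1 x) (hM x)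
    (CM.loc n f fy (c * Φ1 x) x hf (hloc x))
  generalize M ^ 2 / (3 * θ) * (1 + 100 * c ^ 2) = K at *
  rw [EB f fy _ _ _ _ hf hS n]
  have h0 := B.h1 0 n f hf.1
  have h1 := B.h1 1 n f hf.1
  have mq := CM.mem n f fy hf
  have ma : MemLp (fun y => |fy y|) 2 volume := hf.2.1.abs
  have mG := A.mem 0 n _ ma
  have hG : (∫ x, mo 0 n (fun y => |fy y|) x ^ 2) ≤ ∫ x, fy x ^ 2 := by
    simpa only [sq_abs] using A.sq0 n _ ma
  generalize mo 0 n (fun y => |fy y|) = G at *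
  simp only [zero_add, Nat.reduceAdd] at h0 h1
  generalize mo 0 n f = v0 at *
  generalize mo 1 n f = v1 at *
  generalize mo 2 n f = v2 at *
  generalize cm n f = q at *
  have hgW := hg.mul_bdd hW.sm.d2 hW.b1 hW.b2
  have z := hgW.ibp h1
  have i1 := int_W5d h0 hg hW.b1 hW.b2 hW.b3
  have i2 := int_W5d h0 IsH1.zero hΦ.b1 hΦ.b2 hΦ.b3
  have i3 : Integrable (fun x => 2 * ((W x + θ * Φ x) * v0 x ^ 5 + (W1 x + θ * Φ1 x) * v1 x) *
      q x) :=
    integrable_mul2 (((memLp_bdd_mul (h0.memLp_pow 4) hS.b0).add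
      (memLp_bdd_mul h1.1 hS.b1)).const_mul 2) mq
  have i4 := integrable_mul2 hgW.2.1 h1.1
  have i5 := integrable_mul2 hgW.1 h1.2.1
  have i6 : Integrable (fun x => -(3 * (W1 x * (v2 x - g x) ^ 2)) +
      (-(3 * θ * (Φ1 x * v2 x ^ 2)) + 2 * ((W x + θ * Φ x) * (v2 x * q x)))) :=
    ((integrable_bdd_mul (integrable_sq2 (h1.2.1.sub hg.1)) hW.b1).const_mul 3).neg.add
      (((integrable_bdd_mul (integrable_sq2 h1.2.1) hΦ.b1).const_mul _).neg.add
        ((integrable_bdd_mul (integrable_mul2 h1.2.1 mq) hS.b0).const_mul 2))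
  have iq := (integrable_sq2 mq).const_mul (K / η)
  have iG := (integrable_sq2 mG).const_mul (K * η)
  have e6 := integral_mono i6 (iq.add iG) fun x => by
    have := hp x
    have := mul_nonneg (hW1 x) (sq_nonneg (v2 x - g x))
    show _ ≤ K / η * q x ^ 2 + K * η * G x ^ 2
    linarith
  have e7 := integral_add iq iG
  rw [integral_const_mul, integral_const_mul] at e7
  have j2 := i2.const_mul θ
  have j4 := i4.const_mul (-6)
  have j5 := i5.const_mul (-6)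
  have s1 := integral_add i1 j2
  have s2 := integral_add (i1.add j2) i3
  have s3 := integral_add ((i1.add j2).add i3) j4
  have s4 := integral_add (((i1.add j2).add i3).add j4) j5
  have s5 := integral_add ((((i1.add j2).add i3).add j4).add j5) i6
  simp only [Pi.add_apply] at s2 s3 s4 s5 e6
  rw [s4, s3, s2, s1, integral_const_mul, integral_const_mul, integral_const_mul, z] at s5
  have hG' := mul_le_mul_of_nonneg_left hG (mul_nonneg hK hη.le)
  refine le_trans (le_of_eq (Eq.trans (integral_congr_ae (Eventually.of_forall fun x => ?_)) s5))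
    (by linarith)
  simp only [fl2]
  ring

end Pool.Agent.MP_8339a4_an
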