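import Pool.Agent.MP_8339a4_an.W0
import Pool.Agent.MP_8339a4_an.T3c

open MeasureTheory Filter Topology Set

namespace Pool.Agent.MP_8339a4_an

theorem int_le_W5e {F G : ℝ → ℝ} (h : ∀ x, F x ≤ G x) (hG : Integrable G) (h0 : ∀ x, 0 ≤ G x) :
    ∫ x, F x ≤ ∫ x, G x := by
  by_cases hF : Integrable F
  · exact integral_mono hF hG h
  · rw [integral_undef hF]
    exact integral_nonneg h0

theorem mul_le_W5e {a w M : ℝ} (ha : 0 ≤ a) (hw : |w| ≤ M) : a * w ≤ M * a ∧ -(a * w) ≤ M * a := by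
  have := abs_le.1 hw
  constructor <;> nlinarith

theorem cross_le_W5e {a b w M : ℝ} (hw : |w| ≤ M) : 2 * (a * w * b) ≤ M * (a ^ 2 + b ^ 2) := by
  have := abs_le.1 hw
  nlinarith [mul_nonneg (sub_nonneg.2 this.1) (sq_nonneg (a - b)),
    mul_nonneg (sub_nonneg.2 this.2) (sq_nonneg (a + b))]

theorem pow_le_W5e {v K : ℝ} (hv : |v| ≤ K) : v ^ 4 ≤ K ^ 4 ∧ v ^ 8 ≤ K ^ 8 := by
  have h4 := pow_le_pow_left₀ (abs_nonneg v) hv 4
  have h8 := pow_le_pow_left₀ (abs_nonneg v) hv 8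
  rw [Even.pow_abs (by decide)] at h4 h8
  exact ⟨h4, h8⟩

theorem fl2_pt_W5e {v p g gy w1 w2 w3 M K : ℝ} (hv : |v| ≤ K) (h1 : |w1| ≤ M) (h2 : |w2| ≤ M)
    (h3 : |w3| ≤ M) : fl2 v p g gy w1 w2 w3 ≤
      3 * M * gy ^ 2 + 6 * M * g ^ 2 + (7 + 20 * K ^ 4) * M * p ^ 2 + (K ^ 8 + K ^ 4) * M * v ^ 2 := by
  have hM : 0 ≤ M := (abs_nonneg _).trans h1
  obtain ⟨k4, k8⟩ := pow_le_W5e hv
  have a1 := cross_le_W5e (a := gy) (b := p) h1
  have a2 := cross_le_W5e (a := g) (b := p) h2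
  have a3 := (mul_le_W5e (sq_nonneg g) h1).1
  have a4 := (mul_le_W5e (a := v ^ 4 * p ^ 2) (by positivity) h1).1
  have a4' : M * (v ^ 4 * p ^ 2) ≤ M * (K ^ 4 * p ^ 2) :=
    mul_le_mul_of_nonneg_left (mul_le_mul_of_nonneg_right k4 (sq_nonneg p)) hM
  have a5 := (mul_le_W5e (a := v ^ 8 * v ^ 2) (by positivity) h1).2
  have a5' : M * (v ^ 8 * v ^ 2) ≤ M * (K ^ 8 * v ^ 2) :=
    mul_le_mul_of_nonneg_left (mul_le_mul_of_nonneg_right k8 (sq_nonneg v)) hM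
  have a6 := (mul_le_W5e (a := v ^ 4 * v ^ 2) (by positivity) h3).2
  have a6' : M * (v ^ 4 * v ^ 2) ≤ M * (K ^ 4 * v ^ 2) :=
    mul_le_mul_of_nonneg_left (mul_le_mul_of_nonneg_right k4 (sq_nonneg v)) hM
  have a6'' : 0 ≤ M * (K ^ 4 * v ^ 2) := by positivity
  have a7 := (mul_le_W5e (sq_nonneg p) h3).1
  unfold fl2
  nlinarith

theorem fl2_bd_W5e {W1 W2 W3 g gy : ℝ → ℝ} (b1 : Bdd W1) (b2 : Bdd W2) (b3 : Bdd W3)
    (hg : IsH1 g gy) (K : ℝ) : ∃ B : ℝ, ∀ v p : ℝ → ℝ, MemLp v 2 volume → MemLp p 2 volume →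
      (∫ x, v x ^ 2) ≤ K → (∫ x, p x ^ 2) ≤ K → (∀ x, |v x| ≤ K) →
      (∫ x, fl2 (v x) (p x) (g x) (gy x) (W1 x) (W2 x) (W3 x)) ≤ B := by
  obtain ⟨-, M1, h1⟩ := b1
  obtain ⟨-, M2, h2⟩ := b2
  obtain ⟨-, M3, h3⟩ := b3
  set M := max M1 (max M2 M3) with hM
  have k1 : ∀ x, |W1 x| ≤ M := fun x => (h1 x).trans (le_max_left _ _)
  have k2 : ∀ x, |W2 x| ≤ M := fun x => (h2 x).trans ((le_max_left _ _).trans (le_max_right _ _))
  have k3 : ∀ x, |W3 x| ≤ M := fun x => (h3 x).trans ((le_max_right _ _).trans (le_max_right _ _))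
  have hM0 : 0 ≤ M := (abs_nonneg _).trans (k1 0)
  refine ⟨3 * M * (∫ x, gy x ^ 2) + 6 * M * (∫ x, g x ^ 2) + (7 + 20 * K ^ 4) * M * K +
    (K ^ 8 + K ^ 4) * M * K, fun v p mv mp hv hp hK => ?_⟩
  have i1 := (integrable_sq2 hg.2.1).const_mul (3 * M)
  have i2 := (integrable_sq2 hg.1).const_mul (6 * M)
  have i3 := (integrable_sq2 mp).const_mul ((7 + 20 * K ^ 4) * M)
  have i4 := (integrable_sq2 mv).const_mul ((K ^ 8 + K ^ 4) * M)
  have i12 : Integrable fun x => 3 * M * gy x ^ 2 + 6 * M * g x ^ 2 := i1.add i2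
  have i123 : Integrable fun x => 3 * M * gy x ^ 2 + 6 * M * g x ^ 2 +
      (7 + 20 * K ^ 4) * M * p x ^ 2 := i12.add i3
  refine (int_le_W5e (fun x => fl2_pt_W5e (hK x) (k1 x) (k2 x) (k3 x)) (i123.add i4)
    fun x => by positivity).trans ?_
  rw [integral_add i123 i4, integral_add i12 i3, integral_add i1 i2, integral_const_mul,
    integral_const_mul, integral_const_mul, integral_const_mul]
  have e1 := mul_le_mul_of_nonneg_left hp (by positivity : 0 ≤ (7 + 20 * K ^ 4) * M)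
  have e2 := mul_le_mul_of_nonneg_left hv (by positivity : 0 ≤ (K ^ 8 + K ^ 4) * M)
  linarith

theorem cm_pt_W5e {v p q a b M K : ℝ} (hv : |v| ≤ K) (ha : |a| ≤ M) (hb : |b| ≤ M) :
    2 * (a * v ^ 5 + b * p) * q ≤ M * K ^ 8 * v ^ 2 + M * p ^ 2 + 2 * M * q ^ 2 := by
  have hM : 0 ≤ M := (abs_nonneg _).trans ha
  have a1 := cross_le_W5e (a := v ^ 5) (b := q) ha
  have a2 := cross_le_W5e (a := p) (b := q) hb
  have a3 : M * (v ^ 8 * v ^ 2) ≤ M * (K ^ 8 * v ^ 2) :=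
    mul_le_mul_of_nonneg_left (mul_le_mul_of_nonneg_right (pow_le_W5e hv).2 (sq_nonneg v)) hM
  nlinarith

theorem cm_bd_W5e {a b : ℝ → ℝ} (ba : Bdd a) (bb : Bdd b) (K L : ℝ) :
    ∃ B : ℝ, ∀ v p q : ℝ → ℝ, MemLp v 2 volume → MemLp p 2 volume → MemLp q 2 volume →
      (∫ x, v x ^ 2) ≤ K → (∫ x, p x ^ 2) ≤ K → (∫ x, q x ^ 2) ≤ L → (∀ x, |v x| ≤ K) →
      (∫ x, 2 * (a x * v x ^ 5 + b x * p x) * q x) ≤ B := by
  obtain ⟨-, M1, h1⟩ := ba
  obtain ⟨-, M2, h2⟩ := bb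
  set M := max M1 M2 with hM
  have k1 : ∀ x, |a x| ≤ M := fun x => (h1 x).trans (le_max_left _ _)
  have k2 : ∀ x, |b x| ≤ M := fun x => (h2 x).trans (le_max_right _ _)
  have hM0 : 0 ≤ M := (abs_nonneg _).trans (k1 0)
  refine ⟨M * K ^ 8 * K + M * K + 2 * M * L, fun v p q mv mp mq hv hp hq hK => ?_⟩
  have i1 := (integrable_sq2 mv).const_mul (M * K ^ 8)
  have i2 := (integrable_sq2 mp).const_mul M
  have i3 := (integrable_sq2 mq).const_mul (2 * M)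
  have i12 : Integrable fun x => M * K ^ 8 * v x ^ 2 + M * p x ^ 2 := i1.add i2
  refine (int_le_W5e (fun x => cm_pt_W5e (hK x) (k1 x) (k2 x)) (i12.add i3)
    fun x => by positivity).trans ?_
  rw [integral_add i12 i3, integral_add i1 i2, integral_const_mul, integral_const_mul,
    integral_const_mul]
  have e1 := mul_le_mul_of_nonneg_left hv (by positivity : 0 ≤ M * K ^ 8)
  have e2 := mul_le_mul_of_nonneg_left hp hM0
  have e3 := mul_le_mul_of_nonneg_left hq (by positivity : 0 ≤ 2 * M)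
  linarith

theorem enD (A : MoA) (B : MoB) (CM : CmS) (EC : EnC) : EnD := by
  intro W W1 W2 W3 Φ Φ1 Φ2 Φ3 g gy c θ K hW hW1 hΦ hΦ1 hg hc hθ
  obtain ⟨C, hC, hE⟩ := EC W W1 W2 W3 Φ Φ1 Φ2 Φ3 g gy c θ hW hW1 hΦ hg hc hθ
  have ba : Bdd fun x => W x + θ * Φ x := hW.b0.add (hΦ.b0.const_mul θ)
  have bb : Bdd fun x => W1 x + θ * Φ1 x := hW.b1.add (hΦ.b1.const_mul θ)
  obtain ⟨B1, h1⟩ := fl2_bd_W5e hW.b1 hW.b2 hW.b3 hg K
  obtain ⟨B2, h2⟩ := fl2_bd_W5e hΦ.b1 hΦ.b2 hΦ.b3 IsH1.zero K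
  obtain ⟨B3, h3⟩ := cm_bd_W5e ba bb K (100 * K ^ 9)
  refine ⟨B1 + θ * B2 + B3 + C * (100 * K ^ 9) + C * K, fun f fy hf k0 k1 k2 hl => ⟨fun n => ?_,
    fun ε hε => ?_⟩⟩
  · have m0 := A.mem 0 n f hf.1
    have m1 := A.mem 1 n f hf.1
    have s0 := (A.sq0 n f hf.1).trans k0
    have s1 : (∫ x, mo 1 n f x ^ 2) ≤ K := by
      have e : ∀ x, mo 1 n f x = mo 0 n fy x := fun x => B.prim 0 n f fy x hf
      simp only [e]
      exact (A.sq0 n fy hf.2.1).trans k1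
    have s2 : ∀ x, |mo 0 n f x| ≤ K := fun x => B.loc n f K x hf.1 fun y _ => k2 y
    have s3 := CM.bd n f fy K hf k1 k2
    have e0 := hE 1 f fy one_pos hf hl hΦ1 n
    have e1 := h1 _ _ m0 m1 s0 s1 s2
    have e2 := mul_le_mul_of_nonneg_left (h2 _ _ m0 m1 s0 s1 s2) hθ.le
    have e3 := h3 _ _ _ m0 m1 (CM.mem n f fy hf) s0 s1 s3 s2
    have e4 := mul_le_mul_of_nonneg_left s3 hC
    have e5 := mul_le_mul_of_nonneg_left k1 hC
    rw [div_one, mul_one] at e0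
    linarith
  · have hK : 0 ≤ K := (abs_nonneg _).trans (k2 0)
    have hCK : 0 < C * K + 1 := by positivity
    have hη : 0 < ε / (2 * (C * K + 1)) := by positivity
    have H := B.h1t f fy hf
    have t1 := (H.fl2 hg hW.b1 hW.b2 hW.b3).tendsto_integral
    have t2 := (H.fl2 IsH1.zero hΦ.b1 hΦ.b2 hΦ.b3).tendsto_integral.const_mul θ
    have t4 := CM.lim f fy hf
    have l0 : L2T atTop (fun n => cm n f) (fun _ => 0) :=
      ⟨Eventually.of_forall fun n => CM.mem n f fy hf, MemLp.zero', by simpa using t4⟩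
    have l1 := ((((H.l2.mul_ut (H.ut.pow 4)).ut_mul (UT.const ba)).add
      (H.l2y.ut_mul (UT.const bb))).const_mul 2).mul l0
    have t3 : Tendsto (fun n => ∫ x, 2 * ((W x + θ * Φ x) * mo 0 n f x ^ 5 +
        (W1 x + θ * Φ1 x) * mo 1 n f x) * cm n f x) atTop (𝓝 0) := by
      have := l1.tendsto_integral
      simp only [mul_zero, integral_zero] at this
      refine this.congr fun n => integral_congr_ae (Eventually.of_forall fun x => ?_)
      ring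
    have t := ((t1.add t2).add t3).add (t4.const_mul (C / (ε / (2 * (C * K + 1)))))
    rw [mul_zero, add_zero, add_zero] at t
    filter_upwards [t.eventually (gt_mem_nhds (lt_add_of_pos_right _ (half_pos hε)))] with n hn
    have e0 := hE _ f fy hη hf hl hΦ1 n
    have e1 : C * (ε / (2 * (C * K + 1))) * ∫ x, fy x ^ 2 ≤ ε / 2 := by
      calc C * (ε / (2 * (C * K + 1))) * ∫ x, fy x ^ 2 ≤ C * (ε / (2 * (C * K + 1))) * K :=
            mul_le_mul_of_nonneg_left k1 (by positivity)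
        _ = ε / 2 * (C * K / (C * K + 1)) := by field_simp
        _ ≤ ε / 2 * 1 := mul_le_mul_of_nonneg_left
            ((div_le_one hCK).2 (by linarith)) (half_pos hε).le
        _ = ε / 2 := mul_one _
    linarith

end Pool.Agent.MP_8339a4_an
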