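import Pool.Agent.MP_8339a4_an.W0
import Pool.Agent.MP_8339a4_an.T3c

open MeasureTheory Filter Topology Set

namespace Pool.Agent.MP_8339a4_an

theorem shift_W6a {k : ℝ → ℝ} (hk : Bdd k) (x : ℝ) : Bdd fun y => k (x - y) := by
  obtain ⟨h1, C, h2⟩ := hk
  exact ⟨h1.comp (continuous_const.sub continuous_id), C, fun y => h2 _⟩

theorem ptw_W6a {k : ℝ → ℝ} {C : ℝ} (hC : ∀ y, |k y| ≤ C) (u v : ℝ) : ‖k u * v‖ ≤ C * |v| := by
  rw [Real.norm_eq_abs, abs_mul]
  exact mul_le_mul_of_nonneg_right (hC u) (abs_nonneg v)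

theorem cont_W6a {a b : ℝ} {F : ℝ → ℝ → ℝ} {k : ℝ → ℝ}
    (hF : ∀ t ∈ Icc a b, L1T (𝓝[Icc a b] t) F (F t)) (hk : Bdd k) (x : ℝ) :
    ContinuousOn (fun t => ∫ y, k (x - y) * F t y) (Icc a b) := fun t ht =>
  ((hF t ht).ut_mul (UT.const (shift_W6a hk x))).tendsto_integral

theorem mass_W6a {a b : ℝ} {F : ℝ → ℝ → ℝ}
    (hF : ∀ t ∈ Icc a b, L1T (𝓝[Icc a b] t) F (F t)) :
    ∃ M : ℝ, ∀ t ∈ Icc a b, ∫ y, |F t y| ≤ M := by
  have h1 : ContinuousOn (fun t => ∫ y, |F t y|) (Icc a b) := by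
    intro t ht
    have h := hF t ht
    have h2 : L1T (𝓝[Icc a b] t) (fun z y => |F z y|) (fun y => |F t y|) := by
      refine l1_of_le_T3a (h.1.mono fun z hz => hz.abs) h.2.1.abs h.2.2 ?_
      filter_upwards [h.1] with z hz
      exact integral_mono_of_nonneg (Eventually.of_forall fun _ => abs_nonneg _)
        (hz.sub h.2.1).abs (Eventually.of_forall fun y => abs_abs_sub_abs_le_abs_sub _ _)
    exact h2.tendsto_integral
  obtain ⟨M, hM⟩ := isCompact_Icc.bddAbove_image h1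
  exact ⟨M, fun t ht => hM ⟨t, ht, rfl⟩⟩

theorem bound_W6a {f k : ℝ → ℝ} {C M : ℝ} (hf : Integrable f) (hC : ∀ y, |k y| ≤ C)
    (hM : ∫ y, |f y| ≤ M) (x : ℝ) : ‖∫ y, k (x - y) * f y‖ ≤ C * M := by
  have h0 : 0 ≤ C := (abs_nonneg _).trans (hC 0)
  refine (norm_integral_le_of_norm_le (hf.abs.const_mul C)
    (Eventually.of_forall fun y => ptw_W6a hC _ _)).trans ?_
  rw [integral_const_mul]
  exact mul_le_mul_of_nonneg_left hM h0

theorem contx_W6a {f k : ℝ → ℝ} (hf : Integrable f) (hk : Bdd k) :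
    Continuous fun x => ∫ y, k (x - y) * f y := by
  obtain ⟨C, hC⟩ := hk.2
  refine continuous_of_dominated (bound := fun y => C * |f y|)
    (fun x => (integrable_bdd_mul hf (shift_W6a hk x)).aestronglyMeasurable)
    (fun x => Eventually.of_forall fun y => ptw_W6a hC _ _) (hf.abs.const_mul C)
    (Eventually.of_forall fun y => ?_)
  exact (hk.1.comp (continuous_id.sub continuous_const)).mul continuous_const

theorem der_W6a {f k0 k1 : ℝ → ℝ} (hf : Integrable f) (h0 : Bdd k0) (h1 : Bdd k1)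
    (hd : ∀ x, HasDerivAt k0 (k1 x) x) (x : ℝ) :
    HasDerivAt (fun x => ∫ y, k0 (x - y) * f y) (∫ y, k1 (x - y) * f y) x := by
  obtain ⟨C, hC⟩ := h1.2
  refine (hasDerivAt_integral_of_dominated_loc_of_deriv_le (s := univ)
    (F := fun x y => k0 (x - y) * f y) (F' := fun x y => k1 (x - y) * f y)
    (bound := fun y => C * |f y|) univ_mem
    (Eventually.of_forall fun z => (integrable_bdd_mul hf (shift_W6a h0 z)).aestronglyMeasurable)
    (integrable_bdd_mul hf (shift_W6a h0 x))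
    (integrable_bdd_mul hf (shift_W6a h1 x)).aestronglyMeasurable
    (Eventually.of_forall fun y z _ => ptw_W6a hC _ _) (hf.abs.const_mul C)
    (Eventually.of_forall fun y z _ => ?_)).2
  exact ((hd (z - y)).comp_sub_const z y).mul_const (f y)

theorem kerS : KerS := by
  intro a b F k0 k1 hab hF h0
  obtain ⟨M, hM⟩ := mass_W6a hF
  have sub : uIoc a b ⊆ Icc a b := by
    rw [uIoc_of_le hab]
    exact Ioc_subset_Icc_self
  have ii : ∀ {k : ℝ → ℝ}, Bdd k → ∀ x,
      IntervalIntegrable (fun t => ∫ y, k (x - y) * F t y) volume a b := fun hk x =>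
    (cont_W6a hF hk x).intervalIntegrable_of_Icc hab
  have me : ∀ {k : ℝ → ℝ}, Bdd k → ∀ x,
      AEStronglyMeasurable (fun t => ∫ y, k (x - y) * F t y) (volume.restrict (uIoc a b)) :=
    fun hk x => (intervalIntegrable_iff.1 (ii hk x)).aestronglyMeasurable
  refine ⟨⟨⟨?_, ?_⟩, cont_W6a hF h0⟩, fun hd h1 x => ?_⟩
  · obtain ⟨C, hC⟩ := h0.2
    exact intervalIntegral.continuous_of_dominated_interval (bound := fun _ => C * M) (me h0)
      (fun x => Eventually.of_forall fun t ht =>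
        bound_W6a (hF t (sub ht)).2.1 hC (hM t (sub ht)) x)
      intervalIntegrable_const
      (Eventually.of_forall fun t ht => contx_W6a (hF t (sub ht)).2.1 h0)
  · obtain ⟨C, hC⟩ := h0.2
    exact ⟨C * M * |b - a|, fun x => intervalIntegral.norm_integral_le_of_norm_le_const
      fun t ht => bound_W6a (hF t (sub ht)).2.1 hC (hM t (sub ht)) x⟩
  · obtain ⟨C, hC⟩ := h1.2
    exact (intervalIntegral.hasDerivAt_integral_of_dominated_loc_of_deriv_le (s := univ)
      (F := fun x t => ∫ y, k0 (x - y) * F t y) (F' := fun x t => ∫ y, k1 (x - y) * F t y)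
      (bound := fun _ => C * M) univ_mem (Eventually.of_forall (me h0)) (ii h0 x) (me h1 x)
      (Eventually.of_forall fun t ht z _ => bound_W6a (hF t (sub ht)).2.1 hC (hM t (sub ht)) z)
      intervalIntegrable_const
      (Eventually.of_forall fun t ht z _ => der_W6a (hF t (sub ht)).2.1 h0 h1 hd z)).2

end Pool.Agent.MP_8339a4_an
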