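import Pool.Agent.MP_8339a4_an.W0
import Pool.Agent.MP_8339a4_an.T3c
import Pool.Agent.MP_8339a4_an.T2c

open MeasureTheory Filter Topology Set

namespace Pool.Agent.MP_8339a4_an

theorem aff_W7 {X Y X1 Y1 : ℝ} (h : ∀ θ : ℝ, 0 < θ → X + θ * X1 ≤ Y + θ * Y1) : X ≤ Y := by
  have h1 : Tendsto (fun θ : ℝ => X + θ * X1) (𝓝[>] 0) (𝓝 (X + 0 * X1)) :=
    ((by fun_prop : Continuous fun θ : ℝ => X + θ * X1).tendsto 0).mono_left nhdsWithin_le_nhds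
  have h2 : Tendsto (fun θ : ℝ => Y + θ * Y1) (𝓝[>] 0) (𝓝 (Y + 0 * Y1)) :=
    ((by fun_prop : Continuous fun θ : ℝ => Y + θ * Y1).tendsto 0).mono_left nhdsWithin_le_nhds
  have h3 := le_of_tendsto_of_tendsto h1 h2 (eventually_mem_nhdsWithin.mono h)
  simpa using h3

theorem lim_W7 (B : MoB) {f fy W Φ : ℝ → ℝ} (h : IsH1 f fy) (hW : Bdd W) (hΦ : Bdd Φ) (θ : ℝ) :
    Tendsto (fun n => ∫ x, en (mo 0 n f x) (mo 1 n f x) * (W x + θ * Φ x)) atTop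
      (𝓝 ((∫ x, en (f x) (fy x) * W x) + θ * ∫ x, en (f x) (fy x) * Φ x)) := by
  have h1 := (B.h1t f fy h).en
  have h2 := (h1.mul_ut (UT.const (hW.add (hΦ.const_mul θ)))).tendsto_integral
  have e : ∫ x, en (f x) (fy x) * (W x + θ * Φ x)
      = (∫ x, en (f x) (fy x) * W x) + θ * ∫ x, en (f x) (fy x) * Φ x := by
    rw [← integral_const_mul, ← integral_add (integrable_mul_bdd h1.2.1 hW)
      ((integrable_mul_bdd h1.2.1 hΦ).const_mul θ)]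
    refine integral_congr_ae (ae_of_all _ fun x => ?_)
    simp only
    ring
  rw [← e]
  exact h2

theorem p2_of (A : MoA) (B : MoB) (TA : TimA) (L : LimS) (EA : EnA) (ED : EnD) (PH : PhiS) :
    P2Stmt := by
  intro I u ux hs a b hab hI W W1 W2 W3 hW hW1 g gy hg
  obtain ⟨Φ, Φ1, Φ2, Φ3, c, hΦ, hΦ1, hc, hdom⟩ := PH I u ux hs a b hab hI
  obtain ⟨⟨K, -, hK⟩, hT, -⟩ := TA I u ux hs a b hI
  have hWb : Wb W W1 W2 W3 := ⟨hW.sm, hW.b0, hW.b1, hW.b2, hW.b3⟩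
  have c1 : ContinuousOn
      (fun t => ∫ x, fl2 (u t x) (ux t x) (g x) (gy x) (W1 x) (W2 x) (W3 x)) (Icc a b) :=
    fun t ht => ((hT t ht).fl2 hg hW.b1 hW.b2 hW.b3).tendsto_integral
  have c2 : ContinuousOn
      (fun t => ∫ x, fl2 (u t x) (ux t x) 0 0 (Φ1 x) (Φ2 x) (Φ3 x)) (Icc a b) :=
    fun t ht => ((hT t ht).fl2 IsH1.zero hΦ.b1 hΦ.b2 hΦ.b3).tendsto_integral
  have ha : a ∈ Icc a b := left_mem_Icc.2 hab
  have hb : b ∈ Icc a b := right_mem_Icc.2 hab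
  refine aff_W7 (X1 := (∫ x, en (u b x) (ux b x) * Φ x) - ∫ x, en (u a x) (ux a x) * Φ x)
    (Y1 := ∫ t in a..b, ∫ x, fl2 (u t x) (ux t x) 0 0 (Φ1 x) (Φ2 x) (Φ3 x)) fun θ hθ => ?_
  obtain ⟨B0, hB⟩ := ED W W1 W2 W3 Φ Φ1 Φ2 Φ3 g gy c θ K hWb hW1 hΦ hΦ1 hg hc hθ
  have hB' := fun t (ht : t ∈ Icc a b) => hB (u t) (ux t) (hs.h1 t (hI ht)) (hK t ht).1
    (hK t ht).2.1 (hK t ht).2.2 (hdom t ht)
  have hE := EA I u ux hs a b hab hI (fun x => W x + θ * Φ x) (hW.b0.add (hΦ.b0.const_mul θ))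
  have key := L.le a b B0 _ (fun n t => Dn n (u t) (fun x => W x + θ * Φ x)) _
    (fun t => (∫ x, fl2 (u t x) (ux t x) (g x) (gy x) (W1 x) (W2 x) (W3 x)) +
      θ * ∫ x, fl2 (u t x) (ux t x) 0 0 (Φ1 x) (Φ2 x) (Φ3 x)) hab (fun n => (hE n).1)
    (c1.add (continuousOn_const.mul c2)) (fun n => (hE n).2) (fun n t ht => (hB' t ht).1 n)
    (fun t ht => (hB' t ht).2)
    ((lim_W7 B (hs.h1 b (hI hb)) hW.b0 hΦ.b0 θ).sub (lim_W7 B (hs.h1 a (hI ha)) hW.b0 hΦ.b0 θ))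
  rw [intervalIntegral.integral_add (c1.intervalIntegrable_of_Icc hab)
    ((c2.intervalIntegrable_of_Icc hab).const_mul θ), intervalIntegral.integral_const_mul] at key
  linarith

end Pool.Agent.MP_8339a4_an
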