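import Pool.Agent.MP_8339a4_an.W1a
import Pool.Agent.MP_8339a4_an.W1b
import Pool.Agent.MP_8339a4_an.W1c
import Pool.Agent.MP_8339a4_an.W2a
import Pool.Agent.MP_8339a4_an.W2b
import Pool.Agent.MP_8339a4_an.W3a
import Pool.Agent.MP_8339a4_an.W3b
import Pool.Agent.MP_8339a4_an.W4
import Pool.Agent.MP_8339a4_an.W5a
import Pool.Agent.MP_8339a4_an.W5b
import Pool.Agent.MP_8339a4_an.W5c
import Pool.Agent.MP_8339a4_an.W5d
import Pool.Agent.MP_8339a4_an.W5e
import Pool.Agent.MP_8339a4_an.W6a
import Pool.Agent.MP_8339a4_an.W6b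
import Pool.Agent.MP_8339a4_an.W7

/-! W block: the three local laws for `H^1` weak solutions. -/

namespace Pool.Agent.MP_8339a4_an

theorem moB' : MoB := moB moA (moL moA)
theorem timA' : TimA := timA moA moB'
theorem timB' : TimB := timB moA moB' timA'
theorem cmS' : CmS := cmS moA moB'

theorem p0 : P0Stmt := p0_of moA moB' timA' timB' limS
theorem p1 : P1Stmt := p1_of moA moB' timA' timB' limS
theorem p2 : P2Stmt := p2_of moA moB' timA' limS (enA moA moB' timA' timB')
  (enD moA moB' cmS' (enC moA moB' (enB moA moB') cmS')) (phiS timA' p1 kerS)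

end Pool.Agent.MP_8339a4_an
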