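import Pool.Agent.MP_8339a4_an.If

/-! W block: mollifiers and the statements of the steps leading to `P0Stmt`, `P1Stmt`, `P2Stmt`. -/

open MeasureTheory Filter Topology Set

namespace Pool.Agent.MP_8339a4_an

noncomputable section

/-- Bump supported in the ball of radius `1/(n+1)`. -/
def bump (n : ℕ) : ContDiffBump (0 : ℝ) where
  rIn := 1 / (2 * ((n : ℝ) + 1))
  rOut := 1 / ((n : ℝ) + 1)
  rIn_pos := by positivity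
  rIn_lt_rOut := by
    have h : (0 : ℝ) < (n : ℝ) + 1 := by positivity
    exact one_div_lt_one_div_of_lt h (by linarith)

/-- `k`-th derivative of the normalised bump. -/
def ker (k n : ℕ) : ℝ → ℝ := iteratedDeriv k ((bump n).normed volume)

/-- `k`-th derivative of the mollification of `f`. -/
def mo (k n : ℕ) (f : ℝ → ℝ) (x : ℝ) : ℝ := ∫ y, ker k n (x - y) * f y

/-- Bounded `C^3` weight (no condition on `y W'`). -/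
structure Wb (f f1 f2 f3 : ℝ → ℝ) : Prop where
  sm : Sm3 f f1 f2 f3
  b0 : Bdd f
  b1 : Bdd f1
  b2 : Bdd f2
  b3 : Bdd f3

/-- Time derivative of `mo k n (u t)` when `u` solves the equation (`f = u t`). -/
def VV (k n : ℕ) (f : ℝ → ℝ) (x : ℝ) : ℝ :=
  -(mo (k + 3) n f x + mo (k + 1) n (fun y => f y ^ 5) x)

/-- Time derivative of the weighted energy of the mollified solution. -/
def Dn (n : ℕ) (f W : ℝ → ℝ) : ℝ :=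
  ∫ x, (2 * mo 1 n f x * VV 1 n f x - 2 * mo 0 n f x ^ 5 * VV 0 n f x) * W x

/-- Derivative of the commutator `ρ * f^5 - (ρ * f)^5`. -/
def cm (n : ℕ) (f : ℝ → ℝ) (x : ℝ) : ℝ :=
  mo 1 n (fun y => f y ^ 5) x - 5 * mo 0 n f x ^ 4 * mo 1 n f x

/-- Mollifiers, basic facts. -/
structure MoA : Prop where
  smooth : ∀ k n, ContDiff ℝ ((⊤ : ℕ∞) : WithTop ℕ∞) (ker k n)
  supp : ∀ k n, HasCompactSupport (ker k n)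
  kd : ∀ k n x, HasDerivAt (ker k n) (ker (k + 1) n x) x
  kz : ∀ (k n : ℕ) (x : ℝ), 1 / ((n : ℝ) + 1) ≤ |x| → ker k n x = 0
  k0 : ∀ n x, 0 ≤ ker 0 n x
  k1 : ∀ n, ∫ x, ker 0 n x = 1
  int : ∀ k n f x, MemLp f 2 volume → Integrable (fun y => ker k n (x - y) * f y)
  der : ∀ k n f x, MemLp f 2 volume → HasDerivAt (mo k n f) (mo (k + 1) n f x) x
  mem : ∀ k n f, MemLp f 2 volume → MemLp (mo k n f) 2 volume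
  sq : ∀ k n, ∃ C : ℝ, 0 ≤ C ∧ ∀ f, MemLp f 2 volume →
    (∫ x, mo k n f x ^ 2) ≤ C * (∫ x, f x ^ 2) ∧ ∀ x, mo k n f x ^ 2 ≤ C * ∫ y, f y ^ 2
  sq0 : ∀ n f, MemLp f 2 volume → (∫ x, mo 0 n f x ^ 2) ≤ ∫ x, f x ^ 2
  sub : ∀ k n f g x, MemLp f 2 volume → MemLp g 2 volume →
    mo k n (fun y => f y - g y) x = mo k n f x - mo k n g x

/-- Mollifiers, `H^1` facts and convergence. -/
structure MoB : Prop where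
  bdd : ∀ k n f, MemLp f 2 volume → Bdd (mo k n f)
  h1 : ∀ k n f, MemLp f 2 volume → IsH1 (mo k n f) (mo (k + 1) n f)
  prim : ∀ k n f g x, IsH1 f g → mo (k + 1) n f x = mo k n g x
  l2t : ∀ f, MemLp f 2 volume → L2T atTop (fun n => mo 0 n f) f
  h1t : ∀ f g, IsH1 f g → H1T atTop (fun n => mo 0 n f) (fun n => mo 1 n f) f g
  dom : ∀ n f G c x, MemLp f 2 volume → MemLp G 2 volume →
    (∀ y, |y - x| ≤ 1 → |f y| ≤ c * |G y|) → |mo 0 n f x| ≤ c * mo 0 n (fun y => |G y|) x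
  loc : ∀ n f c x, MemLp f 2 volume → (∀ y, |y - x| ≤ 1 → |f y| ≤ c) → |mo 0 n f x| ≤ c
  cl2 : ∀ k n (l : Filter ℝ) (f : ℝ → ℝ → ℝ) g, L2T l f g →
    L2T l (fun z => mo k n (f z)) (mo k n g)
  cut : ∀ k n (l : Filter ℝ) (f : ℝ → ℝ → ℝ) g, L2T l f g →
    UT l (fun z => mo k n (f z)) (mo k n g)

/-- Uniform bound on compact time intervals and continuity in time. -/
def TimA : Prop := ∀ (I : Set ℝ) (u ux : ℝ → ℝ → ℝ), IsSol I u ux → ∀ a b : ℝ, Icc a b ⊆ I →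
  (∃ K : ℝ, 0 ≤ K ∧ ∀ t ∈ Icc a b, (∫ x, u t x ^ 2) ≤ K ∧ (∫ x, ux t x ^ 2) ≤ K ∧
    ∀ x, |u t x| ≤ K) ∧
  (∀ t ∈ Icc a b, H1T (𝓝[Icc a b] t) u ux (u t) (ux t)) ∧
  (∀ t ∈ Icc a b, L2T (𝓝[Icc a b] t) (fun z y => u z y ^ 5) (fun y => u t y ^ 5)) ∧
  (∀ k n, ∀ t ∈ Icc a b, L2T (𝓝[Icc a b] t) (fun z => VV k n (u z)) (VV k n (u t)) ∧
    UT (𝓝[Icc a b] t) (fun z => VV k n (u z)) (VV k n (u t)))

/-- The mollified solution is differentiable in time with values in `L^2`. -/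
def TimB : Prop := ∀ (I : Set ℝ) (u ux : ℝ → ℝ → ℝ), IsSol I u ux → ∀ a b : ℝ, Icc a b ⊆ I →
  ∀ k n, ∀ t ∈ Ioo a b, L2T (𝓝[≠] t) (fun z y => (mo k n (u z) y - mo k n (u t) y) / (z - t))
    (VV k n (u t))

/-- Passage to the limit in integrated identities and inequalities. -/
structure LimS : Prop where
  eq : ∀ (a b B : ℝ) (d : ℕ → ℝ) (D : ℕ → ℝ → ℝ) (d0 : ℝ) (q : ℝ → ℝ), a ≤ b →
    (∀ n, ContinuousOn (D n) (Icc a b)) → (∀ n, d n = ∫ t in a..b, D n t) →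
    (∀ n, ∀ t ∈ Icc a b, |D n t| ≤ B) →
    (∀ t ∈ Icc a b, Tendsto (fun n => D n t) atTop (𝓝 (q t))) → Tendsto d atTop (𝓝 d0) →
    d0 = ∫ t in a..b, q t
  le : ∀ (a b B : ℝ) (d : ℕ → ℝ) (D : ℕ → ℝ → ℝ) (d0 : ℝ) (q : ℝ → ℝ), a ≤ b →
    (∀ n, ContinuousOn (D n) (Icc a b)) → ContinuousOn q (Icc a b) →
    (∀ n, d n = ∫ t in a..b, D n t) → (∀ n, ∀ t ∈ Icc a b, D n t ≤ B) →
    (∀ t ∈ Icc a b, ∀ ε : ℝ, 0 < ε → ∀ᶠ n in atTop, D n t ≤ q t + ε) →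
    Tendsto d atTop (𝓝 d0) → d0 ≤ ∫ t in a..b, q t

/-- Energy identity in time for the mollified solution. -/
def EnA : Prop := ∀ (I : Set ℝ) (u ux : ℝ → ℝ → ℝ), IsSol I u ux → ∀ a b : ℝ, a ≤ b →
  Icc a b ⊆ I → ∀ W : ℝ → ℝ, Bdd W → ∀ n,
    ContinuousOn (fun t => Dn n (u t) W) (Icc a b) ∧
    (∫ x, en (mo 0 n (u b) x) (mo 1 n (u b) x) * W x) -
      (∫ x, en (mo 0 n (u a) x) (mo 1 n (u a) x) * W x) = ∫ t in a..b, Dn n (u t) W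

/-- Integration by parts in space. -/
def EnB : Prop := ∀ (f fy W W1 W2 W3 : ℝ → ℝ), IsH1 f fy → Wb W W1 W2 W3 → ∀ n,
  Dn n f W = ∫ x, (-3 * W1 x * mo 2 n f x ^ 2 +
    fl2 (mo 0 n f x) (mo 1 n f x) 0 0 (W1 x) (W2 x) (W3 x) +
    2 * (W x * (mo 2 n f x + mo 0 n f x ^ 5) + W1 x * mo 1 n f x) * cm n f x)

/-- The commutator is bounded, tends to zero in `L^2`, and lives where `Φ1` lives. -/
structure CmS : Prop where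
  mem : ∀ n f fy, IsH1 f fy → MemLp (cm n f) 2 volume
  bd : ∀ n f fy K, IsH1 f fy → (∫ x, fy x ^ 2) ≤ K → (∀ x, |f x| ≤ K) →
    (∫ x, cm n f x ^ 2) ≤ 100 * K ^ 9
  lim : ∀ f fy, IsH1 f fy → Tendsto (fun n => ∫ x, cm n f x ^ 2) atTop (𝓝 0)
  loc : ∀ n f fy c x, IsH1 f fy → (∀ y, |y - x| ≤ 1 → f y ^ 4 ≤ c) →
    |cm n f x| ≤ 10 * c * mo 0 n (fun y => |fy y|) x

/-- Upper bound at a fixed time, before the limit. -/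
def EnC : Prop := ∀ (W W1 W2 W3 Φ Φ1 Φ2 Φ3 g gy : ℝ → ℝ) (c θ : ℝ), Wb W W1 W2 W3 →
  (∀ x, 0 ≤ W1 x) → Wb Φ Φ1 Φ2 Φ3 → IsH1 g gy → 0 ≤ c → 0 < θ → ∃ C : ℝ, 0 ≤ C ∧
    ∀ (η : ℝ) (f fy : ℝ → ℝ), 0 < η → IsH1 f fy →
      (∀ x y, |y - x| ≤ 1 → f y ^ 4 ≤ c * Φ1 x) → (∀ x, 0 ≤ Φ1 x) → ∀ n,
      Dn n f (fun x => W x + θ * Φ x) ≤
        (∫ x, fl2 (mo 0 n f x) (mo 1 n f x) (g x) (gy x) (W1 x) (W2 x) (W3 x)) +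
        θ * (∫ x, fl2 (mo 0 n f x) (mo 1 n f x) 0 0 (Φ1 x) (Φ2 x) (Φ3 x)) +
        (∫ x, 2 * ((W x + θ * Φ x) * mo 0 n f x ^ 5 + (W1 x + θ * Φ1 x) * mo 1 n f x) * cm n f x) +
        C / η * (∫ x, cm n f x ^ 2) + C * η * ∫ x, fy x ^ 2

/-- Uniform bound and limit at a fixed time. -/
def EnD : Prop := ∀ (W W1 W2 W3 Φ Φ1 Φ2 Φ3 g gy : ℝ → ℝ) (c θ K : ℝ), Wb W W1 W2 W3 →
  (∀ x, 0 ≤ W1 x) → Wb Φ Φ1 Φ2 Φ3 → (∀ x, 0 ≤ Φ1 x) → IsH1 g gy → 0 ≤ c → 0 < θ → ∃ B : ℝ,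
    ∀ f fy : ℝ → ℝ, IsH1 f fy → (∫ x, f x ^ 2) ≤ K → (∫ x, fy x ^ 2) ≤ K → (∀ x, |f x| ≤ K) →
      (∀ x y, |y - x| ≤ 1 → f y ^ 4 ≤ c * Φ1 x) →
      (∀ n, Dn n f (fun x => W x + θ * Φ x) ≤ B) ∧
      ∀ ε : ℝ, 0 < ε → ∀ᶠ n in atTop, Dn n f (fun x => W x + θ * Φ x) ≤
        (∫ x, fl2 (f x) (fy x) (g x) (gy x) (W1 x) (W2 x) (W3 x)) +
        θ * (∫ x, fl2 (f x) (fy x) 0 0 (Φ1 x) (Φ2 x) (Φ3 x)) + ε

/-- Convolution of a continuous family of integrable functions with a bounded kernel. -/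
def KerS : Prop := ∀ (a b : ℝ) (F : ℝ → ℝ → ℝ) (k0 k1 : ℝ → ℝ), a ≤ b →
  (∀ t ∈ Icc a b, L1T (𝓝[Icc a b] t) F (F t)) → Bdd k0 →
  (Bdd (fun x => ∫ t in a..b, ∫ y, k0 (x - y) * F t y) ∧
    ∀ x, ContinuousOn (fun t => ∫ y, k0 (x - y) * F t y) (Icc a b)) ∧
  ((∀ x, HasDerivAt k0 (k1 x) x) → Bdd k1 → ∀ x,
    HasDerivAt (fun x => ∫ t in a..b, ∫ y, k0 (x - y) * F t y)
      (∫ t in a..b, ∫ y, k1 (x - y) * F t y) x)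

/-- A bounded weight whose derivative dominates `sup_t u^4`. -/
def PhiS : Prop := ∀ (I : Set ℝ) (u ux : ℝ → ℝ → ℝ), IsSol I u ux → ∀ a b : ℝ, a ≤ b →
  Icc a b ⊆ I → ∃ (Φ Φ1 Φ2 Φ3 : ℝ → ℝ) (c : ℝ), Wb Φ Φ1 Φ2 Φ3 ∧ (∀ x, 0 ≤ Φ1 x) ∧ 0 ≤ c ∧
    ∀ t ∈ Icc a b, ∀ x y, |y - x| ≤ 1 → u t y ^ 4 ≤ c * Φ1 x

end

end Pool.Agent.MP_8339a4_an
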