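import Pool.Agent.MP_8339a4_an.W0
import Pool.Agent.MP_8339a4_an.T2a

open MeasureTheory Filter Topology Set

namespace Pool.Agent.MP_8339a4_an

theorem succ_W1a (k n : ℕ) : ker (k + 1) n = deriv (ker k n) := iteratedDeriv_succ

theorem zero_W1a (n : ℕ) : ker 0 n = (bump n).normed volume := iteratedDeriv_zero

theorem smooth_W1a (k n : ℕ) : ContDiff ℝ ((⊤ : ℕ∞) : WithTop ℕ∞) (ker k n) := by
  induction k with
  | zero => rw [zero_W1a]; exact (bump n).contDiff_normed
  | succ k ih => rw [succ_W1a]; exact (contDiff_infty_iff_deriv.1 ih).2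

theorem supp_W1a (k n : ℕ) : HasCompactSupport (ker k n) := by
  induction k with
  | zero => rw [zero_W1a]; exact (bump n).hasCompactSupport_normed
  | succ k ih => rw [succ_W1a]; exact ih.deriv

theorem tsupp_W1a (k n : ℕ) : tsupport (ker k n) ⊆ Metric.closedBall 0 (1 / ((n : ℝ) + 1)) := by
  induction k with
  | zero => rw [zero_W1a, (bump n).tsupport_normed_eq]; rfl
  | succ k ih => rw [succ_W1a]; exact tsupport_deriv_subset.trans ih

theorem kz_W1a (k n : ℕ) (x : ℝ) (h : 1 / ((n : ℝ) + 1) ≤ |x|) : ker k n x = 0 := by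
  have h1 : (Metric.closedBall (0 : ℝ) (1 / ((n : ℝ) + 1)))ᶜ ⊆ {x | ker k n x = 0} :=
    fun y hy => image_eq_zero_of_notMem_tsupport fun h2 => hy (tsupp_W1a k n h2)
  have h2 := closure_minimal h1 (isClosed_eq (smooth_W1a k n).continuous continuous_const)
  rw [closure_compl, interior_closedBall _ (by positivity)] at h2
  exact h2 (by simpa using h)

theorem bdd_W1a {κ : ℝ → ℝ} (hc : Continuous κ) (hs : HasCompactSupport κ) : Bdd κ :=
  ⟨hc, hc.bounded_above_of_compact_support hs⟩

theorem mem_W1a {κ : ℝ → ℝ} (hc : Continuous κ) (hs : HasCompactSupport κ) (x : ℝ) :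
    MemLp (fun y => κ (x - y)) 2 volume :=
  (hc.memLp_of_hasCompactSupport hs).comp_measurePreserving
    (Measure.measurePreserving_sub_left volume x)

theorem conv_W1a (k n : ℕ) (f : ℝ → ℝ) :
    mo k n f = convolution f (ker k n) (ContinuousLinearMap.mul ℝ ℝ) volume := by
  funext x
  simp only [mo, convolution_def, ContinuousLinearMap.mul_apply', mul_comm]

theorem der_W1a (k n : ℕ) (f : ℝ → ℝ) (x : ℝ) (h : MemLp f 2 volume) :
    HasDerivAt (mo k n f) (mo (k + 1) n f x) x := by
  rw [conv_W1a, conv_W1a, succ_W1a]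
  exact (supp_W1a k n).hasDerivAt_convolution_right _ (h.locallyIntegrable (by norm_num))
    ((smooth_W1a k n).of_le (by exact_mod_cast le_top)) x

theorem young_W1a (k n : ℕ) (f : ℝ → ℝ) (h : MemLp f 2 volume) :
    Integrable (fun x => mo k n f x ^ 2) ∧
      ∫ x, mo k n f x ^ 2 ≤ (∫ x, |ker k n x|) ^ 2 * ∫ x, f x ^ 2 := by
  have hc := (smooth_W1a k n).continuous
  have hs := supp_W1a k n
  have ik : Integrable fun x => |ker k n x| := (hc.integrable_of_hasCompactSupport hs).abs
  have i2 := integrable_sq2 h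
  have iH := i2.integrable_convolution (ContinuousLinearMap.mul ℝ ℝ) ik
  have eH := integral_convolution (ContinuousLinearMap.mul ℝ ℝ) i2 ik
  have hp : ∀ x, mo k n f x ^ 2 ≤ (∫ x, |ker k n x|) * convolution (fun y => f y ^ 2)
      (fun x => |ker k n x|) (ContinuousLinearMap.mul ℝ ℝ) volume x := by
    intro x
    have b : Bdd fun y => |ker k n (x - y)| := ((bdd_W1a hc hs).comp (by fun_prop)).abs
    have i0 := (integrable_mul2 (mem_W1a hc hs x) h).abs
    have h1 := csw (w := fun y => |ker k n (x - y)|) (f := fun _ => 1) (g := fun y => |f y|)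
      (fun _ => abs_nonneg _) (by simpa only [one_mul, ← abs_mul] using i0)
      (by simpa only [one_pow, mul_one] using ik.comp_sub_left x)
      (by simpa only [sq_abs] using integrable_bdd_mul i2 b)
    simp only [one_mul, ← abs_mul, one_pow, mul_one, sq_abs] at h1
    rw [integral_sub_left_eq_self (fun y => |ker k n y|) volume x] at h1
    refine le_trans ?_ (h1.trans_eq ?_)
    · rw [← sq_abs]
      exact pow_le_pow_left₀ (abs_nonneg _) abs_integral_le_integral_abs 2
    · simp only [convolution_def, ContinuousLinearMap.mul_apply', mul_comm]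
  have hm : Continuous (mo k n f) :=
    continuous_iff_continuousAt.2 fun x => (der_W1a k n f x h).continuousAt
  have iM : Integrable fun x => mo k n f x ^ 2 :=
    (iH.const_mul _).mono' (hm.pow 2).aestronglyMeasurable (Eventually.of_forall fun x => by
      rw [Real.norm_of_nonneg (sq_nonneg _)]; exact hp x)
  refine ⟨iM, (integral_mono iM (iH.const_mul _) hp).trans_eq ?_⟩
  rw [integral_const_mul, eH, ContinuousLinearMap.mul_apply']
  ring

theorem moA : MoA := by
  have hi : ∀ k n f x, MemLp f 2 volume → Integrable (fun y => ker k n (x - y) * f y) :=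
    fun k n f x h => integrable_mul2 (mem_W1a (smooth_W1a k n).continuous (supp_W1a k n) x) h
  have k0 : ∀ n x, 0 ≤ ker 0 n x := fun n x => by rw [zero_W1a]; exact (bump n).nonneg_normed x
  have k1 : ∀ n, ∫ x, ker 0 n x = 1 := fun n => by rw [zero_W1a]; exact (bump n).integral_normed
  refine ⟨smooth_W1a, supp_W1a, fun k n x => ?_, kz_W1a, k0, k1, hi, der_W1a, fun k n f h => ?_,
    fun k n => ?_, fun n f h => ?_, fun k n f g x h1 h2 => ?_⟩
  · rw [succ_W1a]
    exact ((smooth_W1a k n).differentiable (by simp) x).hasDerivAt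
  · have hm : Continuous (mo k n f) :=
      continuous_iff_continuousAt.2 fun x => (der_W1a k n f x h).continuousAt
    exact (memLp_two_iff_integrable_sq hm.aestronglyMeasurable).2 (young_W1a k n f h).1
  · have h0 : 0 ≤ ∫ x, ker k n x ^ 2 := integral_nonneg fun _ => sq_nonneg _
    refine ⟨(∫ x, |ker k n x|) ^ 2 + ∫ x, ker k n x ^ 2, by positivity, fun f h => ?_⟩
    have h1 : 0 ≤ ∫ x, f x ^ 2 := integral_nonneg fun _ => sq_nonneg _
    refine ⟨(young_W1a k n f h).2.trans (mul_le_mul_of_nonneg_right (by linarith) h1),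
      fun x => ?_⟩
    have h2 := cs2 (mem_W1a (smooth_W1a k n).continuous (supp_W1a k n) x) h
    rw [integral_sub_left_eq_self (fun y => ker k n y ^ 2) volume x] at h2
    exact h2.trans (mul_le_mul_of_nonneg_right (le_add_of_nonneg_left (sq_nonneg _)) h1)
  · have h1 := (young_W1a 0 n f h).2
    simp only [abs_of_nonneg (k0 n _)] at h1
    rwa [k1, one_pow, one_mul] at h1
  · simp only [mo, mul_sub]
    exact integral_sub (hi k n f x h1) (hi k n g x h2)

end Pool.Agent.MP_8339a4_an
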