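import Pool.Agent.MP_8339a4_an.W0
import Pool.Agent.MP_8339a4_an.T3c
import Pool.Agent.MP_8339a4_an.T5a

open MeasureTheory Filter Topology Set

namespace Pool.Agent.MP_8339a4_an

theorem wb_conv_W6b (KS : KerS) {a b : ℝ} {F : ℝ → ℝ → ℝ} (hab : a ≤ b)
    (hF : ∀ t ∈ Icc a b, L1T (𝓝[Icc a b] t) F (F t)) :
    Wb (fun x => ∫ t in a..b, ∫ y, P0 (x - y) * F t y)
      (fun x => ∫ t in a..b, ∫ y, P1 (x - y) * F t y)
      (fun x => ∫ t in a..b, ∫ y, P2 (x - y) * F t y)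
      (fun x => ∫ t in a..b, ∫ y, P3 (x - y) * F t y) := by
  have k0 := KS a b F P0 P1 hab hF bdd_P0
  have k1 := KS a b F P1 P2 hab hF expD_P1.bdd
  have k2 := KS a b F P2 P3 hab hF expD_P2.bdd
  have k3 := KS a b F P3 P4 hab hF expD_P3.bdd
  exact ⟨⟨k0.2 hasDerivAt_P0 expD_P1.bdd, k1.2 hasDerivAt_P1 expD_P2.bdd,
    k2.2 hasDerivAt_P2 expD_P3.bdd, k3.1.1.1⟩, k0.1.1, k1.1.1, k2.1.1, k3.1.1⟩

theorem wb_add_W6b {f f1 f2 f3 g g1 g2 g3 : ℝ → ℝ} (h : Wb f f1 f2 f3) (H : Wb g g1 g2 g3)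
    (c : ℝ) : Wb (fun y => f y + c * g y) (fun y => f1 y + c * g1 y) (fun y => f2 y + c * g2 y)
      (fun y => f3 y + c * g3 y) :=
  ⟨h.sm.add (H.sm.const_mul c), h.b0.add (H.b0.const_mul c), h.b1.add (H.b1.const_mul c),
    h.b2.add (H.b2.const_mul c), h.b3.add (H.b3.const_mul c)⟩

theorem sup_W6b {f g : ℝ → ℝ} {K : ℝ} (h : IsH1 f g) (h0 : ∫ x, f x ^ 2 ≤ K)
    (h1 : ∫ x, g x ^ 2 ≤ K) (x y : ℝ) (hy : |y - x| ≤ 1) :
    f y ^ 4 ≤ 16 * K / (Real.exp (-1) / 4) ^ 4 * ∫ z, f z ^ 2 * P1 (z - x) := by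
  have b1 : Bdd (fun z => P1 (z - x)) := expD_P1.bdd.comp (g := fun z => z - x) (by fun_prop)
  have b2 : Bdd (fun z => P2 (z - x)) := expD_P2.bdd.comp (g := fun z => z - x) (by fun_prop)
  have hw := h.mul_bdd (F := fun z => P1 (z - x)) (G := fun z => P2 (z - x))
    (fun z => (hasDerivAt_P1 (z - x)).comp_sub_const z x) b1 b2
  have s0 := integrable_sq2 h.1
  have s1 := integrable_sq2 h.2.1
  have p1 : ∀ z, P1 z ≤ 1 := fun z => (P1_le_quarter z).trans (by norm_num)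
  have hA : ∫ z, (f z * P1 (z - x)) ^ 2 ≤ ∫ z, f z ^ 2 * P1 (z - x) := by
    refine integral_mono (integrable_sq2 hw.1) (integrable_mul_bdd s0 b1) fun z => ?_
    have k1 := mul_le_mul_of_nonneg_left (p1 (z - x))
      (mul_nonneg (sq_nonneg (f z)) (P1_pos (z - x)).le)
    change (f z * P1 (z - x)) ^ 2 ≤ f z ^ 2 * P1 (z - x)
    linarith
  have hB : ∫ z, (g z * P1 (z - x) + f z * P2 (z - x)) ^ 2 ≤ 4 * K := by
    have k0 : ∫ z, (g z * P1 (z - x) + f z * P2 (z - x)) ^ 2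
        ≤ ∫ z, (2 * g z ^ 2 + 2 * f z ^ 2) := by
      refine integral_mono (integrable_sq2 hw.2.1) ((s1.const_mul 2).add (s0.const_mul 2))
        fun z => ?_
      have k1 : P1 (z - x) ^ 2 ≤ 1 := pow_le_one₀ (P1_pos _).le (p1 _)
      have k2 : P2 (z - x) ^ 2 ≤ 1 :=
        (sq_le_one_iff_abs_le_one _).2 ((abs_P2_le _).trans (p1 _))
      have k3 := mul_le_mul_of_nonneg_left k1 (sq_nonneg (g z))
      have k4 := mul_le_mul_of_nonneg_left k2 (sq_nonneg (f z))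
      have k5 := sq_nonneg (g z * P1 (z - x) - f z * P2 (z - x))
      change (g z * P1 (z - x) + f z * P2 (z - x)) ^ 2 ≤ 2 * g z ^ 2 + 2 * f z ^ 2
      linarith
    rw [integral_add (s1.const_mul 2) (s0.const_mul 2), integral_const_mul,
      integral_const_mul] at k0
    linarith
  have hA0 : 0 ≤ ∫ z, (f z * P1 (z - x)) ^ 2 := integral_nonneg fun z => sq_nonneg _
  have hB0 : 0 ≤ ∫ z, (g z * P1 (z - x) + f z * P2 (z - x)) ^ 2 :=
    integral_nonneg fun z => sq_nonneg _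
  have hs := pow_le_pow_left₀ (sq_nonneg _) (hw.sq_le y) 2
  rw [mul_pow 2, mul_pow (Real.sqrt _), Real.sq_sqrt hA0, Real.sq_sqrt hB0] at hs
  have hm := mul_le_mul hA hB hB0 (hA0.trans hA)
  have hδ : Real.exp (-1) / 4 ≤ P1 (y - x) :=
    le_trans (div_le_div_of_nonneg_right (Real.exp_le_exp.2 (neg_le_neg hy)) (by norm_num))
      (exp_le_P1 _)
  have h4 := mul_le_mul_of_nonneg_left (pow_le_pow_left₀ (by positivity) hδ 4)
    (show 0 ≤ f y ^ 4 by positivity)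
  rw [div_mul_eq_mul_div, le_div_iff₀ (by positivity)]
  linarith

theorem fl1_W6b {K : ℝ} (u p z : ℝ) (hu : |u| ≤ K) :
    |fl1 u p (P2 z) (P4 z)| ≤ (5 + 2 * K ^ 4) * (P1 (-z) * (u ^ 2 + p ^ 2)) := by
  have h2 := abs_le.1 (abs_P2_le z)
  have h4 := abs_le.1 (abs_P4_le z)
  have hP := (P1_pos z).le
  have k0 : u ^ 4 ≤ K ^ 4 := by
    have := pow_le_pow_left₀ (abs_nonneg u) hu 4
    rwa [Even.pow_abs (by decide)] at this
  have k1 := mul_le_mul_of_nonneg_left k0 (mul_nonneg hP (sq_nonneg u))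
  have a1 := mul_le_mul_of_nonneg_left h2.1 (sq_nonneg p)
  have a2 := mul_le_mul_of_nonneg_left h2.2 (sq_nonneg p)
  have a3 := mul_le_mul_of_nonneg_left h4.1 (sq_nonneg u)
  have a4 := mul_le_mul_of_nonneg_left h4.2 (sq_nonneg u)
  have a5 := mul_le_mul_of_nonneg_left h2.1 (show 0 ≤ u ^ 6 by positivity)
  have a6 := mul_le_mul_of_nonneg_left h2.2 (show 0 ≤ u ^ 6 by positivity)
  have n1 : 0 ≤ P1 z * u ^ 2 := by positivity
  have n2 : 0 ≤ P1 z * p ^ 2 := by positivity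
  have n3 : 0 ≤ K ^ 4 * (P1 z * u ^ 2) := by positivity
  have n4 : 0 ≤ K ^ 4 * (P1 z * p ^ 2) := by positivity
  rw [P1_neg, abs_le]
  unfold fl1
  constructor <;> linarith

theorem phiS (TA : TimA) (P : P1Stmt) (KS : KerS) : PhiS := by
  intro I u ux hu a b hab hI
  obtain ⟨⟨K, hK, hb⟩, ht, -, -⟩ := TA I u ux hu a b hI
  have ha : a ∈ Icc a b := left_mem_Icc.2 hab
  have hF : ∀ t ∈ Icc a b, L1T (𝓝[Icc a b] t) (fun z y => u z y ^ 2 + ux z y ^ 2)
      (fun y => u t y ^ 2 + ux t y ^ 2) := fun t h => (ht t h).l2.sq.add (ht t h).l2y.sq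
  have hG : ∀ t ∈ Icc (0 : ℝ) 1, L1T (𝓝[Icc 0 1] t) (fun _ y => u a y ^ 2)
      (fun y => u a y ^ 2) := fun t _ => L1T.const (integrable_sq2 (hu.h1 a (hI ha)).1)
  have hC : 0 ≤ 5 + 2 * K ^ 4 := by positivity
  have hn : ∀ x t : ℝ, 0 ≤ ∫ y, P1 (x - y) * (u t y ^ 2 + ux t y ^ 2) := fun x t =>
    integral_nonneg fun y => mul_nonneg (P1_pos _).le (by positivity)
  refine ⟨_, _, _, _, 16 * K / (Real.exp (-1) / 4) ^ 4,
    wb_add_W6b (wb_conv_W6b KS zero_le_one hG) (wb_conv_W6b KS hab hF) (5 + 2 * K ^ 4),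
    fun x => ?_, by positivity, fun t htm x y hy => ?_⟩
  · exact add_nonneg (intervalIntegral.integral_nonneg zero_le_one fun t _ =>
      integral_nonneg fun y => mul_nonneg (P1_pos _).le (sq_nonneg _))
      (mul_nonneg hC (intervalIntegral.integral_nonneg hab fun t _ => hn x t))
  refine (sup_W6b (hu.h1 t (hI htm)) (hb t htm).1 (hb t htm).2.1 x y hy).trans
    (mul_le_mul_of_nonneg_left ?_ (by positivity))
  have hW : Wt (fun z => P1 (z - x)) (fun z => P2 (z - x)) (fun z => P3 (z - x))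
      (fun z => P4 (z - x)) :=
    (test_P1.comp_affine one_ne_zero (-x)).wt.congr (fun z => by simp [sub_eq_add_neg])
      (fun z => by simp [sub_eq_add_neg]) (fun z => by simp [sub_eq_add_neg])
      (fun z => by simp [sub_eq_add_neg])
  have hsub : Icc a t ⊆ Icc a b := Icc_subset_Icc_right htm.2
  have h1 := P I u ux hu a t htm.1 (hsub.trans hI) _ _ _ _ hW
  have hc := (KS a b _ P1 P2 hab hF expD_P1.bdd).1.2 x
  have bx : Bdd (fun z => P1 (x - z)) := expD_P1.bdd.comp (g := fun z => x - z) (by fun_prop)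
  have h2 : ‖∫ s in a..t, ∫ z, fl1 (u s z) (ux s z) (P2 (z - x)) (P4 (z - x))‖
      ≤ ∫ s in a..t, (5 + 2 * K ^ 4) * ∫ z, P1 (x - z) * (u s z ^ 2 + ux s z ^ 2) := by
    refine intervalIntegral.norm_integral_le_of_norm_le htm.1 (Eventually.of_forall fun s hs => ?_)
      (((hc.mono hsub).intervalIntegrable_of_Icc htm.1).const_mul _)
    have hs' : s ∈ Icc a b := hsub (Ioc_subset_Icc_self hs)
    rw [← integral_const_mul]
    refine norm_integral_le_of_norm_le ((integrable_bdd_mul (hF s hs').2.1 bx).const_mul _)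
      (Eventually.of_forall fun z => ?_)
    have k := fl1_W6b (u s z) (ux s z) (z - x) ((hb s hs').2.2 z)
    rwa [neg_sub] at k
  rw [intervalIntegral.integral_const_mul] at h2
  have h3 : (∫ s in a..t, ∫ z, P1 (x - z) * (u s z ^ 2 + ux s z ^ 2))
      ≤ ∫ s in a..b, ∫ z, P1 (x - z) * (u s z ^ 2 + ux s z ^ 2) :=
    intervalIntegral.integral_mono_interval le_rfl htm.1 htm.2
      (Eventually.of_forall fun s => hn x s) (hc.intervalIntegrable_of_Icc hab)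
  have h4 := mul_le_mul_of_nonneg_left h3 hC
  have h5 : (∫ _ in (0 : ℝ)..1, ∫ z, P1 (x - z) * u a z ^ 2) = ∫ z, u a z ^ 2 * P1 (z - x) := by
    rw [intervalIntegral.integral_const, sub_zero, one_smul]
    refine integral_congr_ae (Eventually.of_forall fun z => ?_)
    change P1 (x - z) * u a z ^ 2 = u a z ^ 2 * P1 (z - x)
    rw [← neg_sub, P1_neg, mul_comm]
  have h6 := (le_abs_self _).trans h2
  change _ ≤ (∫ _ in (0 : ℝ)..1, ∫ z, P1 (x - z) * u a z ^ 2) +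
    (5 + 2 * K ^ 4) * ∫ s in a..b, ∫ z, P1 (x - z) * (u s z ^ 2 + ux s z ^ 2)
  rw [h5]
  linarith

end Pool.Agent.MP_8339a4_an
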